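import Pool.Agent.H684AN.CritK

set_option autoImplicit false

/-!
The criterion of `CritK` with the sharp number of colours: extensions with quotient a free abelian
group of rank `k` and cheap kernel windows have Assouad-Nagata dimension at most `k`.
-/

namespace Pool.Agent.H684AN

variable {G : Type*} [Group G] {k : ℕ}

/-- a value in `Fin (k + 1)` missed by a function on `Fin k` -/
theorem exists_missed (f : Fin k → Fin (k + 1)) : ∃ j : Fin (k + 1), ∀ i, f i ≠ j := by
  by_contra h
  push Not at h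
  have h1 : Function.Surjective f := fun j => h j
  have h2 := Fintype.card_le_of_surjective f h1
  rw [Fintype.card_fin, Fintype.card_fin] at h2
  omega

section
variable {S : Finset G} (hS : Subgroup.closure (S : Set G) = ⊤)
  (π : G →* Multiplicative (Fin k → ℤ)) (hm : ∀ s ∈ S, ∀ i, |hk π s i| ≤ 1)
  (s : (Fin k → ℤ) → G) (hs : ∀ v, hk π (s v) = v) (c : ℕ)
  (hsl : ∀ (v : Fin k → ℤ) (N : ℕ), (∀ i, |v i| ≤ N) → WL S (c * N) (s v))
  (H : ℕ → Subgroup G)
  (hH1 : ∀ (n : ℕ) (g : G), WL S n g → hk π g = 0 → g ∈ H n)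
  (C : ℕ) (hlen : ∀ (n : ℕ) (g : G), g ∈ H n → WL S (C * (n + 1)) g)

include hS hm hs hsl hH1 hlen in
theorem an_kD : ANLE S k := by
  refine ⟨4 * c * (k + 1) + C * (4 * c * (k + 1) + 2), ?_⟩
  intro r hr
  set M : ℕ := r + 1 with hM
  set R : ℕ := (k + 1) * M with hR
  set N : ℕ := 2 * (c * R) + r with hN
  have hMpos : (0 : ℤ) < M := by positivity
  have hRpos : (0 : ℤ) < R := by positivity
  have hRM : (R : ℤ) = (k + 1) * M := by rw [hR]; push_cast; ring
  -- the bad colour of a coordinate
  have hbadlt : ∀ a : ℤ, ((a % R) / M).toNat < k + 1 := by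
    intro a
    have h1 := Int.emod_nonneg a hRpos.ne'
    have h2 := Int.emod_lt_of_pos a hRpos
    have h3 : (a % R) / M < k + 1 := by
      rw [Int.ediv_lt_iff_lt_mul hMpos, ← hRM]
      exact h2
    have h4 : 0 ≤ (a % R) / M := Int.ediv_nonneg h1 hMpos.le
    omega
  set bad : G → Fin k → Fin (k + 1) := fun x i => ⟨((hk π x i % R) / M).toNat, hbadlt _⟩ with hbad
  choose cf hcf using fun x => exists_missed (bad x)
  set sx : G → Fin k → ℤ := fun x i => (hk π x i - (cf x : ℕ) * M) % R with hsx
  set q : G → Fin k → ℤ := fun x i => (hk π x i - (cf x : ℕ) * M) / R with hq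
  have hs0 : ∀ x i, 0 ≤ sx x i := fun x i => Int.emod_nonneg _ hRpos.ne'
  have hs1 : ∀ x i, sx x i < R := fun x i => Int.emod_lt_of_pos _ hRpos
  -- the padding
  have hpad : ∀ x i, (M : ℤ) ≤ sx x i := by
    intro x i
    by_contra hlt
    push Not at hlt
    apply hcf x i
    apply Fin.ext
    rw [hbad]
    simp only
    have h0 := hs0 x i
    have e1 : hk π x i = R * q x i + (cf x : ℕ) * M + sx x i := by
      have := Int.emod_add_mul_ediv (hk π x i - (cf x : ℕ) * M) R
      rw [hsx, hq]
      simp only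
      linarith
    have hcl : ((cf x : ℕ) : ℤ) ≤ k := by
      have := (cf x).2
      omega
    have h2 : hk π x i % R = (cf x : ℕ) * M + sx x i := by
      rw [e1, add_assoc, Int.mul_add_emod_self_left]
      apply Int.emod_eq_of_lt
      · positivity
      · rw [hRM]
        nlinarith
    rw [h2]
    have h3 : (((cf x : ℕ) : ℤ) * M + sx x i) / M = (cf x : ℕ) := by
      rw [mul_comm, Int.mul_add_ediv_left _ _ hMpos.ne', Int.ediv_eq_zero_of_lt h0 hlt, add_zero]
    rw [h3]
    simp
  set bp : G → G := fun x => x * (s (sx x))⁻¹ with hbp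
  have hts : ∀ x, WL S (c * R) (s (sx x)) := by
    intro x
    apply hsl
    intro i
    rw [abs_of_nonneg (hs0 x i)]
    exact (hs1 x i).le
  have hbh : ∀ x i, hk π (bp x) i = R * q x i + (cf x : ℕ) * M := by
    intro x i
    rw [hbp]
    simp only [hk_mul, hk_inv, hs, Pi.add_apply, Pi.neg_apply, hsx, hq]
    have := Int.emod_add_mul_ediv (hk π x i - (cf x : ℕ) * M) R
    linarith
  set kf : G → G := fun x => (QuotientGroup.mk (bp x) : G ⧸ H N).out with hkf
  have hkk : ∀ x y, kf x = kf y ↔ (bp x)⁻¹ * bp y ∈ H N := by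
    intro x y
    rw [hkf]
    simp only
    constructor
    · intro h
      have := congrArg (QuotientGroup.mk : G → G ⧸ H N) h
      rw [QuotientGroup.out_eq', QuotientGroup.out_eq'] at this
      exact QuotientGroup.eq.1 this
    · intro h
      rw [QuotientGroup.eq.2 h]
  refine ⟨cf, kf, ?_⟩
  intro x y hc
  have hcon : (bp x)⁻¹ * bp y = s (sx x) * (x⁻¹ * y) * (s (sx y))⁻¹ := by
    rw [hbp]
    simp only [mul_inv_rev, inv_inv, mul_assoc]
  have hRr : R ≤ 2 * (k + 1) * r := by
    rw [hR, hM]
    calc (k + 1) * (r + 1) ≤ (k + 1) * (2 * r) := Nat.mul_le_mul_left _ (by omega)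
      _ = _ := by ring
  have hcR : c * R ≤ 2 * c * (k + 1) * r := by
    calc c * R ≤ c * (2 * (k + 1) * r) := Nat.mul_le_mul_left _ hRr
      _ = _ := by ring
  constructor
  · intro h
    rw [hkk] at h
    have h1 := hlen N _ h
    rw [dist_le_iff hS]
    have h2 : x⁻¹ * y = (s (sx x))⁻¹ * ((bp x)⁻¹ * bp y) * s (sx y) := by
      rw [hcon]; group
    rw [h2]
    refine (((hts x).inv.mul h1).mul (hts y)).mono ?_
    have hN2 : N + 1 ≤ (4 * c * (k + 1) + 2) * r := by
      have e : (4 * c * (k + 1) + 2) * r = 2 * (2 * c * (k + 1) * r) + 2 * r := by ring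
      rw [e, hN]
      omega
    have hb3 : C * (N + 1) ≤ C * ((4 * c * (k + 1) + 2) * r) := Nat.mul_le_mul_left _ hN2
    calc c * R + C * (N + 1) + c * R ≤
        2 * c * (k + 1) * r + C * ((4 * c * (k + 1) + 2) * r) + 2 * c * (k + 1) * r := by omega
      _ = _ := by ring
  · intro h
    rw [lt_dist_iff hS]
    intro hw
    apply h
    rw [hkk]
    have hqq : q x = q y := by
      funext i
      have h1 := hk_bound S π hm r _ hw i
      rw [hk_mul, hk_inv, Pi.add_apply, Pi.neg_apply] at h1
      have ex := Int.emod_add_mul_ediv (hk π x i - (cf x : ℕ) * M) R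
      have ey := Int.emod_add_mul_ediv (hk π y i - (cf y : ℕ) * M) R
      have hx0 := hpad x i
      have hx1 := hs1 x i
      have hy0 := hpad y i
      have hy1 := hs1 y i
      simp only [hsx] at hx0 hx1 hy0 hy1
      rw [abs_le] at h1
      have hcc : (((cf x : Fin (k + 1)) : ℕ) : ℤ) = ((cf y : Fin (k + 1)) : ℕ) := by rw [hc]
      rw [← hcc] at ey hy0 hy1
      have h6 : (r : ℤ) < M := by rw [hM]; push_cast; linarith
      simp only [hq]
      rw [← hcc]
      by_contra hne
      rcases lt_or_gt_of_ne hne with h3 | h3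
      · have h4 : (hk π x i - (cf x : ℕ) * M) / R + 1 ≤ (hk π y i - (cf x : ℕ) * M) / R := h3
        have := mul_le_mul_of_nonneg_left h4 hRpos.le
        have h5 : (hk π y i) - hk π x i ≥ M + 1 := by nlinarith
        linarith [h1.2]
      · have h4 : (hk π y i - (cf x : ℕ) * M) / R + 1 ≤ (hk π x i - (cf x : ℕ) * M) / R := h3
        have := mul_le_mul_of_nonneg_left h4 hRpos.le
        have h5 : (hk π x i) - hk π y i ≥ M + 1 := by nlinarith
        linarith [h1.1]
    apply hH1
    · rw [hcon]
      refine (((hts x).mul hw).mul (hts y).inv).mono ?_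
      rw [hN]
      omega
    · funext i
      rw [hk_mul, hk_inv, Pi.add_apply, Pi.neg_apply, hbh, hbh, hqq, hc, Pi.zero_apply]; ring

end

end Pool.Agent.H684AN
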