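import Pool.Agent.H684AN.CritK

set_option autoImplicit false

/-!
A criterion for finite Assouad-Nagata dimension for extensions with quotient a free abelian group of
finite rank and kernel controlled by finitely many rational coordinates at every scale.
-/

namespace Pool.Agent.H684AN

variable {G : Type*} [Group G] {k m : ℕ}

section
variable {S : Finset G} (hS : Subgroup.closure (S : Set G) = ⊤)
  (π : G →* Multiplicative (Fin k → ℤ)) (hm : ∀ s ∈ S, ∀ i, |hk π s i| ≤ 1)
  (s : (Fin k → ℤ) → G) (hs : ∀ v, hk π (s v) = v) (c : ℕ)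
  (hsl : ∀ (v : Fin k → ℤ) (N : ℕ), (∀ i, |v i| ≤ N) → WL S (c * N) (s v))
  (H : ℕ → Subgroup G) (φ : ℕ → Fin m → G → ℚ)
  (hH1 : ∀ (n : ℕ) (g : G), WL S n g → hk π g = 0 → g ∈ H n)
  (hadd : ∀ (n : ℕ) (i : Fin m) (g h : G), g ∈ H n → h ∈ H n → φ n i (g * h) = φ n i g + φ n i h)
  (hP1 : ∀ (n : ℕ) (g : G), WL S n g → hk π g = 0 → ∀ i, |φ n i g| ≤ 1)
  (C : ℕ) (hP2 : ∀ (n : ℕ) (g : G), g ∈ H n → (∀ i, |φ n i g| ≤ 2) → WL S (C * (n + 1)) g)

include hS hm hs hsl hH1 hadd hP1 hP2 in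
theorem an_phi : ∃ d, ANLE S d := by
  classical
  obtain ⟨d, hd⟩ : ∃ d, Fintype.card ((Fin k → Fin 2) × (Fin m → Fin 2)) = d + 1 :=
    ⟨Fintype.card ((Fin k → Fin 2) × (Fin m → Fin 2)) - 1, by
      have : 0 < Fintype.card ((Fin k → Fin 2) × (Fin m → Fin 2)) := Fintype.card_pos
      omega⟩
  have e : ((Fin k → Fin 2) × (Fin m → Fin 2)) ≃ Fin (d + 1) := Fintype.equivFinOfCardEq hd
  refine ⟨d, 4 * c + C * (4 * c + 2), ?_⟩
  intro r hr
  set R : ℕ := r + 1 with hR
  set N : ℕ := 2 * (c * R) + r with hN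
  have hRpos : (0 : ℤ) < R := by positivity
  set q : G → Fin k → ℤ := fun x i => hk π x i / R with hq
  set sx : G → Fin k → ℤ := fun x i => hk π x i % R with hsx
  set bp : G → G := fun x => x * (s (sx x))⁻¹ with hbp
  have hs0 : ∀ x i, 0 ≤ sx x i := fun x i => Int.emod_nonneg _ hRpos.ne'
  have hs1 : ∀ x i, sx x i < R := fun x i => Int.emod_lt_of_pos _ hRpos
  have hts : ∀ x, WL S (c * R) (s (sx x)) := by
    intro x
    apply hsl
    intro i
    rw [abs_of_nonneg (hs0 x i)]
    exact (hs1 x i).le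
  have hbh : ∀ x i, hk π (bp x) i = R * q x i := by
    intro x i
    rw [hbp]
    simp only [hk_mul, hk_inv, hs, Pi.add_apply, Pi.neg_apply, hsx, hq]
    have := Int.emod_add_mul_ediv (hk π x i) R
    linarith
  -- coset representatives
  set o : G → G := fun x => (QuotientGroup.mk (bp x) : G ⧸ H N).out with ho
  have hoo : ∀ x y, (bp x)⁻¹ * bp y ∈ H N → o x = o y := by
    intro x y h
    rw [ho]
    simp only
    rw [QuotientGroup.eq.2 h]
  have hoi : ∀ x, (o x)⁻¹ * bp x ∈ H N := by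
    intro x
    rw [← QuotientGroup.eq, ho]
    simp only
    exact QuotientGroup.out_eq' _
  set z : G → Fin m → ℤ := fun x i => ⌊φ N i ((o x)⁻¹ * bp x) / 2⌋ with hz
  set lb : G → G × (Fin m → ℤ) := fun x => (o x, z x) with hlb
  set kf : G → G := fun x => Function.invFun lb (lb x) with hkf
  have hkk : ∀ x y, kf x = kf y ↔ lb x = lb y := by
    intro x y
    constructor
    · intro h
      have h1 : lb (kf x) = lb x := Function.invFun_eq ⟨x, rfl⟩
      have h2 : lb (kf y) = lb y := Function.invFun_eq ⟨y, rfl⟩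
      rw [← h1, ← h2, h]
    · intro h
      rw [hkf]
      simp only
      rw [h]
  set cf : G → Fin (d + 1) := fun x => e (fun i => if q x i % 2 = 0 then 0 else 1,
    fun i => if z x i % 2 = 0 then 0 else 1) with hcf
  refine ⟨cf, kf, ?_⟩
  intro x y hc
  have hcon : (bp x)⁻¹ * bp y = s (sx x) * (x⁻¹ * y) * (s (sx y))⁻¹ := by
    rw [hbp]
    simp only [mul_inv_rev, inv_inv, mul_assoc]
  -- the difference of the coordinates
  have hdiff : o x = o y → ∀ i, φ N i ((bp x)⁻¹ * bp y) =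
      φ N i ((o y)⁻¹ * bp y) - φ N i ((o x)⁻¹ * bp x) := by
    intro ho' i
    have h1 : (bp x)⁻¹ * bp y ∈ H N := by
      have h2 := (H N).mul_mem ((H N).inv_mem (hoi x)) (hoi y)
      rw [ho'] at h2
      have h3 : ((o y)⁻¹ * bp x)⁻¹ * ((o y)⁻¹ * bp y) = (bp x)⁻¹ * bp y := by group
      rwa [h3] at h2
    have h2 := hadd N i _ _ (hoi x) h1
    have h3 : (o x)⁻¹ * bp x * ((bp x)⁻¹ * bp y) = (o y)⁻¹ * bp y := by rw [ho']; group
    rw [h3] at h2
    linarith
  constructor
  · intro h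
    rw [hkk, hlb] at h
    simp only [Prod.mk.injEq] at h
    obtain ⟨h1, h2⟩ := h
    have h3 : (bp x)⁻¹ * bp y ∈ H N := by
      have h2 := (H N).mul_mem ((H N).inv_mem (hoi x)) (hoi y)
      rw [h1] at h2
      have h3 : ((o y)⁻¹ * bp x)⁻¹ * ((o y)⁻¹ * bp y) = (bp x)⁻¹ * bp y := by group
      rwa [h3] at h2
    have h4 : ∀ i, |φ N i ((bp x)⁻¹ * bp y)| ≤ 2 := by
      intro i
      rw [hdiff h1 i]
      have h5 := congrFun h2 i
      simp only [hz] at h5
      have h6 := Int.floor_le (φ N i ((o x)⁻¹ * bp x) / 2)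
      have h7 := Int.lt_floor_add_one (φ N i ((o x)⁻¹ * bp x) / 2)
      have h8 := Int.floor_le (φ N i ((o y)⁻¹ * bp y) / 2)
      have h9 := Int.lt_floor_add_one (φ N i ((o y)⁻¹ * bp y) / 2)
      rw [h5] at h6 h7
      rw [abs_le]
      constructor <;> linarith
    have h5 := hP2 N _ h3 h4
    rw [dist_le_iff hS]
    have h2 : x⁻¹ * y = (s (sx x))⁻¹ * ((bp x)⁻¹ * bp y) * s (sx y) := by
      rw [hcon]; group
    rw [h2]
    refine (((hts x).inv.mul h5).mul (hts y)).mono ?_
    have hN2 : N + 1 ≤ (4 * c + 2) * r := by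
      rw [hN, hR]; nlinarith
    have hb3 : C * (N + 1) ≤ C * ((4 * c + 2) * r) := Nat.mul_le_mul_left _ hN2
    have hb4 : c * R ≤ 2 * c * r := by rw [hR]; nlinarith
    nlinarith
  · intro h
    rw [lt_dist_iff hS]
    intro hw
    apply h
    rw [hkk]
    have hc' := e.injective hc
    rw [Prod.mk.injEq] at hc'
    obtain ⟨hcq, hcz⟩ := hc'
    have hqq : q x = q y := by
      funext i
      have h1 := hk_bound S π hm r _ hw i
      rw [hk_mul, hk_inv, Pi.add_apply, Pi.neg_apply] at h1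
      have hpar : (q x i) % 2 = (q y i) % 2 := by
        have hx2 := Int.emod_two_eq_zero_or_one (q x i)
        have hy2 := Int.emod_two_eq_zero_or_one (q y i)
        have hc2 := congrFun hcq i
        rcases hx2 with hx2 | hx2 <;> rcases hy2 with hy2 | hy2 <;> simp [hx2, hy2] at hc2 ⊢
      have ex := Int.emod_add_mul_ediv (hk π x i) R
      have ey := Int.emod_add_mul_ediv (hk π y i) R
      have hx0 := hs0 x i
      have hx1 := hs1 x i
      have hy0 := hs0 y i
      have hy1 := hs1 y i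
      simp only [hsx] at hx0 hx1 hy0 hy1
      rw [abs_le] at h1
      have h6 : (r : ℤ) < R := by rw [hR]; push_cast; linarith
      simp only [hq] at hpar ⊢
      by_contra hne
      have h3 : hk π x i / R + 2 ≤ hk π y i / R ∨ hk π y i / R + 2 ≤ hk π x i / R := by omega
      rcases h3 with h3 | h3
      · have := mul_le_mul_of_nonneg_left h3 hRpos.le
        have h5 : (hk π y i) - hk π x i ≥ R + 1 := by nlinarith
        linarith [h1.2]
      · have := mul_le_mul_of_nonneg_left h3 hRpos.le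
        have h5 : (hk π x i) - hk π y i ≥ R + 1 := by nlinarith
        linarith [h1.1]
    have hg0 : hk π ((bp x)⁻¹ * bp y) = 0 := by
      funext i
      rw [hk_mul, hk_inv, Pi.add_apply, Pi.neg_apply, hbh, hbh, hqq, Pi.zero_apply]; ring
    have hgl : WL S N ((bp x)⁻¹ * bp y) := by
      rw [hcon]
      refine (((hts x).mul hw).mul (hts y).inv).mono ?_
      rw [hN]; nlinarith
    have hgH := hH1 _ _ hgl hg0
    have ho' := hoo x y hgH
    rw [hlb]
    simp only [Prod.mk.injEq]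
    refine ⟨ho', ?_⟩
    funext i
    have h1 := hP1 N _ hgl hg0 i
    rw [hdiff ho' i] at h1
    have hpar : (z x i) % 2 = (z y i) % 2 := by
      have hx2 := Int.emod_two_eq_zero_or_one (z x i)
      have hy2 := Int.emod_two_eq_zero_or_one (z y i)
      have hc2 := congrFun hcz i
      rcases hx2 with hx2 | hx2 <;> rcases hy2 with hy2 | hy2 <;> simp [hx2, hy2] at hc2 ⊢
    have h6 := Int.floor_le (φ N i ((o x)⁻¹ * bp x) / 2)
    have h7 := Int.lt_floor_add_one (φ N i ((o x)⁻¹ * bp x) / 2)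
    have h8 := Int.floor_le (φ N i ((o y)⁻¹ * bp y) / 2)
    have h9 := Int.lt_floor_add_one (φ N i ((o y)⁻¹ * bp y) / 2)
    have hzx : z x i = ⌊φ N i ((o x)⁻¹ * bp x) / 2⌋ := rfl
    have hzy : z y i = ⌊φ N i ((o y)⁻¹ * bp y) / 2⌋ := rfl
    rw [← hzx] at h6 h7
    rw [← hzy] at h8 h9
    rw [abs_le] at h1
    have h10 : (z x i : ℚ) < z y i + 2 := by linarith [h1.1]
    have h11 : (z y i : ℚ) < z x i + 2 := by linarith [h1.2]
    have h12 : z x i < z y i + 2 := by exact_mod_cast h10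
    have h13 : z y i < z x i + 2 := by exact_mod_cast h11
    omega

end

end Pool.Agent.H684AN
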