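import Mathlib

set_option autoImplicit false

/-!
Coordinates bounded by one on a finite set (a basis of maximal determinant).
-/

namespace Pool.Agent.H684AN

variable {V : Type*} [AddCommGroup V] [Module ℚ V]

theorem max_det {r : ℕ} (e : Module.Basis (Fin r) ℚ V) (E : Finset V)
    (hE : Submodule.span ℚ (E : Set V) = ⊤) :
    ∃ (b : Fin r → V) (φ : Fin r → V →ₗ[ℚ] ℚ), (∀ i, b i ∈ E) ∧ (∀ i, ∀ x ∈ E, |φ i x| ≤ 1) ∧
      ∀ ξ, ξ = ∑ i, φ i ξ • b i := by
  classical
  have hfd : FiniteDimensional ℚ V := Module.Finite.of_basis e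
  -- a basis inside `E`
  obtain ⟨f, hfE, hfs, hfi⟩ := Submodule.exists_fun_fin_finrank_span_eq ℚ (E : Set V)
  have hr : Module.finrank ℚ (Submodule.span ℚ (E : Set V)) = r := by
    rw [hE, finrank_top, Module.finrank_eq_card_basis e, Fintype.card_fin]
  set f' : Fin r → V := fun i => f (finCongr hr.symm i) with hf'
  have hf'i : LinearIndependent ℚ f' := hfi.comp _ (finCongr hr.symm).injective
  have hf's : Submodule.span ℚ (Set.range f') = ⊤ := by
    have : Set.range f' = Set.range f := by
      rw [hf']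
      exact (finCongr hr.symm).surjective.range_comp f
    rw [this, hfs, hE]
  have hdet' : e.det f' ≠ 0 := (e.is_basis_iff_det.1 ⟨hf'i, hf's⟩).ne_zero
  set Q : Finset (Fin r → V) := Fintype.piFinset (fun _ => E) with hQ
  have hf'Q : f' ∈ Q := by
    rw [hQ, Fintype.mem_piFinset]
    intro i; exact hfE _
  obtain ⟨b, hbQ, hmax⟩ := Finset.exists_max_image Q (fun v => |e.det v|) ⟨f', hf'Q⟩
  have hb : e.det b ≠ 0 := by
    have h1 := hmax f' hf'Q
    have h2 := abs_pos.2 hdet'
    exact abs_pos.1 (h2.trans_le h1)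
  have hbas := e.is_basis_iff_det.2 (isUnit_iff_ne_zero.2 hb)
  set B := Module.Basis.mk hbas.1 hbas.2.ge with hB
  refine ⟨b, fun i => B.coord i, ?_, ?_, ?_⟩
  · intro i
    rw [hQ, Fintype.mem_piFinset] at hbQ
    exact hbQ i
  · intro i x hx
    have h1 := e.det_smul_mk_coord_eq_det_update hbas.1 hbas.2.ge i
    have h2 := congrArg (fun g => g x) h1
    simp only [LinearMap.smul_apply, MultilinearMap.toLinearMap_apply, smul_eq_mul] at h2
    have h3 : Function.update b i x ∈ Q := by
      rw [hQ, Fintype.mem_piFinset] at hbQ ⊢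
      intro j
      by_cases hj : j = i
      · subst hj; rw [Function.update_self]; exact hx
      · rw [Function.update_of_ne hj]; exact hbQ j
    have h4 := hmax _ h3
    have h5 : e.det.toMultilinearMap (Function.update b i x) = e.det (Function.update b i x) := rfl
    rw [h5] at h2
    have h6 : |e.det b| * |B.coord i x| ≤ |e.det b| * 1 := by
      rw [← abs_mul, mul_one]
      have : e.det b * B.coord i x = e.det (Function.update b i x) := h2
      rw [this]
      exact h4
    exact le_of_mul_le_mul_left h6 (abs_pos.2 hb)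
  · intro ξ
    conv_lhs => rw [← B.sum_repr ξ]
    refine Finset.sum_congr rfl (fun i _ => ?_)
    rw [hB, Module.Basis.mk_apply]
    rfl

theorem max_det' [FiniteDimensional ℚ V] (E : Finset V) :
    ∃ (m : ℕ) (b : Fin m → V) (φ : Fin m → V →ₗ[ℚ] ℚ), m ≤ Module.finrank ℚ V ∧ (∀ i, b i ∈ E) ∧
      (∀ i, ∀ x ∈ E, |φ i x| ≤ 1) ∧
      ∀ ξ ∈ Submodule.span ℚ (E : Set V), ξ = ∑ i, φ i ξ • b i := by
  classical
  set W := Submodule.span ℚ (E : Set V) with hW
  set e := Module.finBasis ℚ W
  set E' : Finset W := E.subtype (fun x => x ∈ W) with hE'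
  have hsp : Submodule.span ℚ (E' : Set W) = ⊤ := by
    have h1 : (E' : Set W) = (Subtype.val : W → V) ⁻¹' (E : Set V) := by
      ext x
      rw [Finset.mem_coe, hE', Finset.mem_subtype]
      rfl
    rw [h1]
    exact Submodule.span_span_coe_preimage
  obtain ⟨b, φ, hb, hφ, hs⟩ := max_det e E' hsp
  choose ψ hψ using fun i => LinearMap.exists_extend (φ i)
  have hψ' : ∀ i (x : W), ψ i x = φ i x := fun i x => by
    rw [← hψ i]; rfl
  refine ⟨Module.finrank ℚ W, fun i => (b i : V), ψ, Submodule.finrank_le W, ?_, ?_, ?_⟩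
  · intro i
    have := hb i
    rw [hE', Finset.mem_subtype] at this
    exact this
  · intro i x hx
    have hxW : x ∈ W := Submodule.subset_span hx
    have := hφ i ⟨x, hxW⟩ (by rw [hE', Finset.mem_subtype]; exact hx)
    rw [← hψ'] at this
    exact this
  · intro ξ hξ
    have := congrArg (fun w : W => (w : V)) (hs ⟨ξ, hξ⟩)
    simp only at this
    rw [Submodule.coe_sum] at this
    conv_lhs => rw [this]
    refine Finset.sum_congr rfl (fun i _ => ?_)
    rw [Submodule.coe_smul, ← hψ']

end Pool.Agent.H684AN
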