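import Mathlib

set_option autoImplicit false

/-!
Word length in a group with a finite generating set, and its relation with the graph distance of
the Cayley graph used in problem MP_90a473_al.
-/

namespace Pool.Agent.H684AN

variable {G : Type*} [Group G]

/-- `g` is a product of at most `n` elements of `S` and inverses of elements of `S`. -/
def WL (S : Finset G) (n : ℕ) (g : G) : Prop :=
  ∃ l : List G, l.length ≤ n ∧ (∀ s ∈ l, s ∈ S ∨ s⁻¹ ∈ S) ∧ l.prod = g

theorem WL.one (S : Finset G) (n : ℕ) : WL S n (1 : G) :=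
  ⟨[], by simp, by simp, by simp⟩

theorem WL.mono {S : Finset G} {m n : ℕ} {g : G} (h : WL S m g) (hmn : m ≤ n) : WL S n g := by
  obtain ⟨l, h1, h2, h3⟩ := h
  exact ⟨l, h1.trans hmn, h2, h3⟩

theorem WL.mul {S : Finset G} {m n : ℕ} {g h : G} (hg : WL S m g) (hh : WL S n h) :
    WL S (m + n) (g * h) := by
  obtain ⟨l, h1, h2, h3⟩ := hg
  obtain ⟨l', h1', h2', h3'⟩ := hh
  refine ⟨l ++ l', by simp; omega, ?_, by simp [h3, h3']⟩
  intro s hs
  rw [List.mem_append] at hs
  rcases hs with hs | hs
  · exact h2 s hs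
  · exact h2' s hs

theorem WL.inv {S : Finset G} {n : ℕ} {g : G} (hg : WL S n g) : WL S n g⁻¹ := by
  obtain ⟨l, h1, h2, h3⟩ := hg
  refine ⟨(l.map (fun x => x⁻¹)).reverse, by simpa using h1, ?_, ?_⟩
  · intro s hs
    rw [List.mem_reverse, List.mem_map] at hs
    obtain ⟨a, ha, rfl⟩ := hs
    rcases h2 a ha with h | h
    · right; simpa using h
    · left; exact h
  · rw [← h3, List.prod_inv_reverse]

theorem WL.of_mem {S : Finset G} {s : G} (hs : s ∈ S) : WL S 1 s :=
  ⟨[s], by simp, by simp [hs], by simp⟩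

theorem WL.of_inv_mem {S : Finset G} {s : G} (hs : s⁻¹ ∈ S) : WL S 1 s :=
  ⟨[s], by simp, by simp [hs], by simp⟩

theorem WL.pow {S : Finset G} {n : ℕ} {g : G} (hg : WL S n g) (k : ℕ) : WL S (k * n) (g ^ k) := by
  induction k with
  | zero => simpa using WL.one S _
  | succ k ih =>
    rw [pow_succ]
    exact (ih.mul hg).mono (by ring_nf; omega)

theorem WL.zpow {S : Finset G} {n : ℕ} {g : G} (hg : WL S n g) (k : ℤ) :
    WL S (k.natAbs * n) (g ^ k) := by
  rcases Int.natAbs_eq k with h | h
  · have h2 : g ^ k = g ^ k.natAbs := by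
      conv_lhs => rw [h]
      exact zpow_natCast g _
    rw [h2]; exact hg.pow k.natAbs
  · have h2 : g ^ k = (g ^ k.natAbs)⁻¹ := by
      conv_lhs => rw [h]
      rw [zpow_neg, zpow_natCast]
    rw [h2]; exact (hg.pow k.natAbs).inv

/-- a word of length `n + 1` is a word of length `n` followed by a letter -/
theorem WL.succ_iff {S : Finset G} {n : ℕ} {g : G} :
    WL S (n + 1) g ↔ ∃ h s : G, WL S n h ∧ (s = 1 ∨ s ∈ S ∨ s⁻¹ ∈ S) ∧ g = h * s := by
  constructor
  · rintro ⟨l, h1, h2, h3⟩
    by_cases hl : l = []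
    · subst hl
      exact ⟨1, 1, WL.one S n, Or.inl rfl, by simpa using h3.symm⟩
    · refine ⟨l.dropLast.prod, l.getLast hl, ⟨l.dropLast, ?_, ?_, rfl⟩, ?_, ?_⟩
      · rw [List.length_dropLast]; omega
      · intro s hs; exact h2 s (List.mem_of_mem_dropLast hs)
      · exact Or.inr (h2 _ (List.getLast_mem hl))
      · rw [← h3]
        conv_lhs => rw [← List.dropLast_append_getLast hl]
        rw [List.prod_append, List.prod_singleton]
  · rintro ⟨h, s, h1, h2, rfl⟩
    rcases h2 with rfl | h2 | h2
    · simpa using h1.mono (Nat.le_succ n)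
    · exact h1.mul (WL.of_mem h2)
    · exact h1.mul (WL.of_inv_mem h2)

theorem exists_WL {S : Finset G} (hS : Subgroup.closure (S : Set G) = ⊤) (g : G) :
    ∃ n, WL S n g := by
  have hg : g ∈ Subgroup.closure (S : Set G) := by rw [hS]; trivial
  induction hg using Subgroup.closure_induction with
  | mem x hx => exact ⟨1, WL.of_mem hx⟩
  | one => exact ⟨0, WL.one S 0⟩
  | mul x y _ _ hx hy =>
    obtain ⟨m, hm⟩ := hx
    obtain ⟨n, hn⟩ := hy
    exact ⟨m + n, hm.mul hn⟩
  | inv x _ hx =>
    obtain ⟨m, hm⟩ := hx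
    exact ⟨m, hm.inv⟩

/-- The Cayley graph used in the problem. -/
abbrev cay (S : Finset G) : SimpleGraph G := SimpleGraph.fromRel (fun x y : G => x⁻¹ * y ∈ S)

theorem walk_WL {S : Finset G} {x y : G} (p : (cay S).Walk x y) : WL S p.length (x⁻¹ * y) := by
  induction p with
  | nil => simpa using WL.one S 0
  | @cons u v w h p ih =>
    rw [SimpleGraph.Walk.length_cons]
    have h1 : WL S 1 (u⁻¹ * v) := by
      rw [SimpleGraph.fromRel_adj] at h
      rcases h.2 with h | h
      · exact WL.of_mem h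
      · exact WL.of_inv_mem (by simpa using h)
    have h2 := h1.mul ih
    rw [add_comm p.length 1]
    convert h2 using 1
    group

theorem WL_walk {S : Finset G} (l : List G) (hl : ∀ s ∈ l, s ∈ S ∨ s⁻¹ ∈ S) :
    ∀ x y : G, x * l.prod = y → ∃ p : (cay S).Walk x y, p.length ≤ l.length := by
  induction l with
  | nil =>
    intro x y hxy
    have : x = y := by simpa using hxy
    subst this
    exact ⟨SimpleGraph.Walk.nil, by simp⟩
  | cons a l ih =>
    intro x y hxy
    obtain ⟨p, hp⟩ := ih (fun s hs => hl s (List.mem_cons_of_mem _ hs)) (x * a) y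
      (by rw [← hxy, List.prod_cons, mul_assoc])
    by_cases ha : a = 1
    · subst ha
      obtain ⟨p, hp⟩ := ih (fun s hs => hl s (List.mem_cons_of_mem _ hs)) x y
        (by rw [← hxy, List.prod_cons, one_mul])
      exact ⟨p, hp.trans (by simp)⟩
    · have hadj : (cay S).Adj x (x * a) := by
        rw [SimpleGraph.fromRel_adj]
        refine ⟨fun h => ha (by simpa using h.symm), ?_⟩
        rcases hl a (List.mem_cons_self) with h | h
        · left; simpa using h
        · right; simpa [mul_assoc] using h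
      refine ⟨SimpleGraph.Walk.cons hadj p, ?_⟩
      rw [SimpleGraph.Walk.length_cons, List.length_cons]
      omega

theorem dist_le_iff {S : Finset G} (hS : Subgroup.closure (S : Set G) = ⊤) (x y : G) (n : ℕ) :
    (cay S).dist x y ≤ n ↔ WL S n (x⁻¹ * y) := by
  constructor
  · intro h
    have hr : (cay S).Reachable x y := by
      obtain ⟨m, l, h1, h2, h3⟩ := exists_WL hS (x⁻¹ * y)
      obtain ⟨p, _⟩ := WL_walk l h2 x y (by rw [h3]; group)
      exact p.reachable
    obtain ⟨p, hp⟩ := hr.exists_walk_length_eq_dist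
    exact (walk_WL p).mono (hp ▸ h)
  · rintro ⟨l, h1, h2, h3⟩
    obtain ⟨p, hp⟩ := WL_walk l h2 x y (by rw [h3]; group)
    exact (SimpleGraph.dist_le p).trans (hp.trans h1)

theorem lt_dist_iff {S : Finset G} (hS : Subgroup.closure (S : Set G) = ⊤) (x y : G) (n : ℕ) :
    n < (cay S).dist x y ↔ ¬ WL S n (x⁻¹ * y) := by
  rw [← dist_le_iff hS, not_le]

open scoped Pointwise in
/-- the ball as a finset -/
theorem exists_ball (S : Finset G) (n : ℕ) :
    ∃ B : Finset G, (∀ g, g ∈ B ↔ WL S n g) ∧ B.card ≤ (2 * S.card + 1) ^ n := by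
  classical
  induction n with
  | zero =>
    refine ⟨{1}, fun g => ?_, by simp⟩
    rw [Finset.mem_singleton]
    constructor
    · rintro rfl; exact WL.one S 0
    · rintro ⟨l, h1, _, h3⟩
      have : l = [] := List.length_eq_zero_iff.mp (by omega)
      rw [← h3, this]; simp
  | succ n ih =>
    obtain ⟨B, hB, hc⟩ := ih
    refine ⟨B * (insert 1 (S ∪ S⁻¹)), fun g => ?_, ?_⟩
    · rw [Finset.mem_mul, WL.succ_iff]
      constructor
      · rintro ⟨h, hh, s, hs, rfl⟩
        refine ⟨h, s, (hB h).1 hh, ?_, rfl⟩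
        rw [Finset.mem_insert, Finset.mem_union, Finset.mem_inv] at hs
        rcases hs with hs | hs | ⟨a, ha, rfl⟩
        · exact Or.inl hs
        · exact Or.inr (Or.inl hs)
        · right; right; simpa using ha
      · rintro ⟨h, s, h1, h2, rfl⟩
        refine ⟨h, (hB h).2 h1, s, ?_, rfl⟩
        rw [Finset.mem_insert, Finset.mem_union, Finset.mem_inv]
        rcases h2 with h2 | h2 | h2
        · exact Or.inl h2
        · exact Or.inr (Or.inl h2)
        · right; right; exact ⟨s⁻¹, h2, inv_inv s⟩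
    · calc (B * (insert 1 (S ∪ S⁻¹))).card ≤ B.card * (insert 1 (S ∪ S⁻¹)).card :=
            Finset.card_mul_le
        _ ≤ (2 * S.card + 1) ^ n * (2 * S.card + 1) := by
            refine Nat.mul_le_mul hc ?_
            refine (Finset.card_insert_le _ _).trans ?_
            have := Finset.card_union_le S S⁻¹
            have h2 : (S⁻¹).card = S.card := Finset.card_inv S
            omega
        _ = (2 * S.card + 1) ^ (n + 1) := by rw [pow_succ]

end Pool.Agent.H684AN
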