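import Pool.Agent.H684AN.Met1

set_option autoImplicit false

/-!
Window subgroups with respect to a fixed section.
-/

namespace Pool.Agent.H684AN

variable {G : Type*} [Group G] {k : ℕ}

/-- the section as a function of an integer sequence -/
def sct (T : ℕ → G) (k : ℕ) (v : ℕ → ℤ) : G := sec T v k

/-- window subgroups with respect to the section -/
def WinS (T : ℕ → G) (k : ℕ) (A : Set G) (N : ℕ) : Subgroup G :=
  Subgroup.closure {g | ∃ v : ℕ → ℤ, (∀ i, |v i| ≤ N) ∧ ∃ a ∈ A,
    g = sct T k v * a * (sct T k v)⁻¹}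

variable (T : ℕ → G) (A : Set G)

theorem WinS_mono {M N : ℕ} (h : M ≤ N) : WinS T k A M ≤ WinS T k A N := by
  refine Subgroup.closure_mono ?_
  rintro g ⟨w, hw, a, ha, rfl⟩
  exact ⟨w, fun i => (hw i).trans (by exact_mod_cast h), a, ha, rfl⟩

theorem WinS_mem (N : ℕ) (v : ℕ → ℤ) (hv : ∀ i, |v i| ≤ N) (a : G) (ha : a ∈ A) :
    sct T k v * a * (sct T k v)⁻¹ ∈ WinS T k A N := Subgroup.subset_closure ⟨v, hv, a, ha, rfl⟩

/-- truncation of a sequence, with a prescribed entry at `j` -/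
def trn (v : ℕ → ℤ) (j : ℕ) (l : ℤ) : ℕ → ℤ := fun i => if i < j then v i else if i = j then l else 0

theorem sec_trn (v : ℕ → ℤ) (j : ℕ) (l : ℤ) (m : ℕ) (hm : j + 1 ≤ m) :
    sec T (trn v j l) m = sec T v j * T j ^ l := by
  induction m with
  | zero => omega
  | succ m ih =>
    by_cases h : m = j
    · subst h
      rw [sec, sec_congr T (trn v m l) v m (fun i hi => by rw [trn, if_pos hi])]
      rw [trn, if_neg (lt_irrefl m), if_pos rfl]
    · rw [sec, ih (by omega), trn, if_neg (by omega), if_neg (by omega), zpow_zero, mul_one]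

theorem comm_powS (N : ℕ) (v : ℕ → ℤ) (hv : ∀ i, |v i| ≤ N) (j : ℕ) (hj : j < k) (δ : ℤ)
    (hδ : δ = 1 ∨ δ = -1) (x : G) (hbx : T j ^ δ * x * (T j ^ δ)⁻¹ * x⁻¹ ∈ A) (n : ℕ)
    (hnN : n ≤ N) :
    sec T v j * ((T j ^ δ) ^ n * x * ((T j ^ δ) ^ n)⁻¹ * x⁻¹) * (sec T v j)⁻¹ ∈ WinS T k A N := by
  induction n with
  | zero => simp
  | succ n ih =>
    have h1 := ih (by omega)
    have e0 : sct T k (trn v j (δ * n)) = sec T v j * (T j ^ δ) ^ n := by
      rw [sct, sec_trn T v j _ k (by omega), zpow_mul, zpow_natCast]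
    have h2 := WinS_mem (k := k) T A N (trn v j (δ * n)) (by
      intro i
      rw [trn]
      split_ifs
      · exact hv i
      · rcases hδ with rfl | rfl
        · rw [one_mul, abs_of_nonneg (by positivity)]; omega
        · rw [abs_mul, abs_neg, abs_one, one_mul, abs_of_nonneg (by positivity)]; omega
      · simp) _ hbx
    rw [e0] at h2
    have e : sec T v j * ((T j ^ δ) ^ (n + 1) * x * ((T j ^ δ) ^ (n + 1))⁻¹ * x⁻¹) *
        (sec T v j)⁻¹ =
        ((sec T v j * (T j ^ δ) ^ n) * (T j ^ δ * x * (T j ^ δ)⁻¹ * x⁻¹) *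
          (sec T v j * (T j ^ δ) ^ n)⁻¹) *
          (sec T v j * ((T j ^ δ) ^ n * x * ((T j ^ δ) ^ n)⁻¹ * x⁻¹) * (sec T v j)⁻¹) := by
      rw [pow_succ]; group
    rw [e]
    exact Subgroup.mul_mem _ h2 h1

section
variable (π : G →* Multiplicative (Fin k → ℤ))
  (hT : ∀ j, j < k → ∀ i, hn π (T j) i = if i = j then 1 else 0)
  (hcom : ∀ i j, i < k → j < k → ∀ ε δ : ℤ, (ε = 1 ∨ ε = -1) → (δ = 1 ∨ δ = -1) →
    T i ^ ε * T j ^ δ * (T i ^ ε)⁻¹ * (T j ^ δ)⁻¹ ∈ A)

include hcom in
theorem cocycS (N : ℕ) (i : ℕ) (hi : i < k) (ε : ℤ) (hε : ε = 1 ∨ ε = -1) (v v' : ℕ → ℤ)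
    (hv : ∀ l, |v l| ≤ N) (hv'i : v' i = v i + ε) (hv' : ∀ l, l ≠ i → v' l = v l) (j : ℕ)
    (hij : i < j) (hj : j ≤ k) :
    sec T v j * T i ^ ε * (sec T v' j)⁻¹ ∈ WinS T k A N := by
  induction j with
  | zero => omega
  | succ j ih =>
    by_cases h1 : i = j
    · subst h1
      rw [sec, sec, sec_congr T v' v i (fun l hl => hv' l (by omega)), hv'i]
      have e : sec T v i * T i ^ v i * T i ^ ε * (sec T v i * T i ^ (v i + ε))⁻¹ = 1 := by
        rw [zpow_add]; group
      rw [e]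
      exact Subgroup.one_mem _
    · have h2 := ih (by omega) (by omega)
      rw [sec, sec, hv' j (by omega)]
      have e : sec T v j * T j ^ v j * T i ^ ε * (sec T v' j * T j ^ v j)⁻¹ =
          (sec T v j * (T j ^ v j * T i ^ ε * (T j ^ v j)⁻¹ * (T i ^ ε)⁻¹) * (sec T v j)⁻¹) *
            (sec T v j * T i ^ ε * (sec T v' j)⁻¹) := by
        group
      rw [e]
      refine Subgroup.mul_mem _ ?_ h2
      have hN : (v j).natAbs ≤ N := by
        have := hv j
        rw [Int.abs_eq_natAbs] at this; exact_mod_cast this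
      rcases Int.natAbs_eq (v j) with h5 | h5
      · have e2 : T j ^ v j = (T j ^ (1 : ℤ)) ^ (v j).natAbs := by
          conv_lhs => rw [h5]
          rw [zpow_natCast, zpow_one]
        rw [e2]
        exact comm_powS T A N v hv j (by omega) 1 (Or.inl rfl) _
          (hcom j i (by omega) hi 1 ε (Or.inl rfl) hε) _ hN
      · have e2 : T j ^ v j = (T j ^ (-1 : ℤ)) ^ (v j).natAbs := by
          conv_lhs => rw [h5]
          rw [← zpow_natCast, ← zpow_mul]; congr 1; ring
        rw [e2]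
        exact comm_powS T A N v hv j (by omega) (-1) (Or.inr rfl) _
          (hcom j i (by omega) hi (-1) ε (Or.inr rfl) hε) _ hN

include hT hcom in
theorem ball_subS (S : Finset G) (hSA : ∀ s ∈ S, s ∈ A ∨ ∃ i, i < k ∧ s = T i)
    (hA : ∀ a ∈ A, ∀ i, hn π a i = 0) (n : ℕ) (g : G) (hg : WL S n g) :
    (∀ i, |hn π g i| ≤ n) ∧ g * (sct T k (hn π g))⁻¹ ∈ WinS T k A n := by
  induction n generalizing g with
  | zero =>
    obtain ⟨l, h1, _, h3⟩ := hg
    have : l = [] := List.length_eq_zero_iff.mp (by omega)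
    subst this
    rw [← h3]
    simp only [List.prod_nil]
    refine ⟨fun i => by rw [hn_one]; simp, ?_⟩
    rw [sct, sec_zero T _ k (fun i _ => hn_one π i)]
    simp
  | succ n ih =>
    obtain ⟨h, x, h1, h2, rfl⟩ := WL.succ_iff.1 hg
    obtain ⟨h3, h4⟩ := ih h h1
    have h4' := WinS_mono (k := k) T A (Nat.le_succ n) h4
    have h3' : ∀ i, |hn π h i| ≤ ((n + 1 : ℕ) : ℤ) := fun i => by
      have := h3 i; push_cast; linarith
    -- letters of height zero
    have hz : ∀ a ∈ A, ∀ y : G, (y = a ∨ y = a⁻¹) →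
        (∀ i, |hn π (h * y) i| ≤ ((n + 1 : ℕ) : ℤ)) ∧
          h * y * (sct T k (hn π (h * y)))⁻¹ ∈ WinS T k A (n + 1) := by
      intro a ha y hy
      have hy0 : ∀ i, hn π y i = 0 := by
        intro i
        rcases hy with rfl | rfl
        · exact hA _ ha i
        · rw [hn_inv, hA a ha i, neg_zero]
      have e0 : ∀ i, hn π (h * y) i = hn π h i := by intro i; rw [hn_mul, hy0, add_zero]
      refine ⟨fun i => by rw [e0]; exact h3' i, ?_⟩
      have e9 : sct T k (hn π (h * y)) = sct T k (hn π h) :=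
        sec_congr T _ (hn π h) k (fun i _ => e0 i)
      rw [e9]
      have e1 : h * y * (sct T k (hn π h))⁻¹ = (h * (sct T k (hn π h))⁻¹) *
          (sct T k (hn π h) * y * (sct T k (hn π h))⁻¹) := by
        group
      rw [e1]
      refine Subgroup.mul_mem _ h4' ?_
      have h5 := WinS_mem (k := k) T A (n + 1) (hn π h) h3' a ha
      rcases hy with rfl | rfl
      · exact h5
      · have h6 := Subgroup.inv_mem _ h5
        have e2 : (sct T k (hn π h) * a * (sct T k (hn π h))⁻¹)⁻¹ =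
            sct T k (hn π h) * a⁻¹ * (sct T k (hn π h))⁻¹ := by group
        rwa [e2] at h6
    have ht : ∀ i, i < k → ∀ ε : ℤ, (ε = 1 ∨ ε = -1) →
        (∀ l, |hn π (h * T i ^ ε) l| ≤ ((n + 1 : ℕ) : ℤ)) ∧
          h * T i ^ ε * (sct T k (hn π (h * T i ^ ε)))⁻¹ ∈ WinS T k A (n + 1) := by
      intro i hi ε hε
      have e0 : ∀ l, hn π (h * T i ^ ε) l = hn π h l + (if l = i then ε else 0) := by
        intro l
        rw [hn_mul, hn_zpow, hT i hi]
        split_ifs <;> ring
      refine ⟨fun l => ?_, ?_⟩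
      · rw [e0]
        have := h3 l
        refine (abs_add_le _ _).trans ?_
        have h6 : |(if l = i then ε else 0 : ℤ)| ≤ 1 := by
          split_ifs
          · rcases hε with rfl | rfl <;> simp
          · simp
        push_cast; linarith
      · have e1 : h * T i ^ ε * (sct T k (hn π (h * T i ^ ε)))⁻¹ =
            (h * (sct T k (hn π h))⁻¹) *
              (sct T k (hn π h) * T i ^ ε * (sct T k (hn π (h * T i ^ ε)))⁻¹) := by
          group
        rw [e1]
        refine Subgroup.mul_mem _ h4' ?_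
        refine cocycS T A hcom (n + 1) i hi ε hε _ _ h3' ?_ ?_ k hi le_rfl
        · rw [e0, if_pos rfl]
        · intro l hl; rw [e0, if_neg hl, add_zero]
    rcases h2 with rfl | h2 | h2
    · rw [mul_one]
      exact ⟨h3', h4'⟩
    · rcases hSA x h2 with hx | ⟨i, hi, rfl⟩
      · exact hz x hx x (Or.inl rfl)
      · have := ht i hi 1 (Or.inl rfl)
        rwa [zpow_one] at this
    · rcases hSA _ h2 with hx | ⟨i, hi, hx⟩
      · exact hz x⁻¹ hx x (Or.inr (inv_inv x).symm)
      · have := ht i hi (-1) (Or.inr rfl)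
        have e : T i ^ (-1 : ℤ) = x := by rw [← hx]; group
        rwa [e] at this

end

end Pool.Agent.H684AN
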