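import Mathlib

set_option autoImplicit false

/-!
An action of `ℤ ^ k` on an abelian group in which the window subgroups have at most exponential
size: the window subgroup is generated by the elements near the 1-skeleton of the window.
-/

namespace Pool.Agent.H684AN

section
variable {V : Type*} [Group V] {k : ℕ} (ρ : (Fin k → ℤ) → (V →* V))

/-- generators of the window subgroup -/
def Bx (A : Set V) (n : ℕ) : Set V :=
  {x | ∃ v : Fin k → ℤ, (∀ i, |v i| ≤ n) ∧ ∃ a ∈ A, x = ρ v a}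

/-- generators near the 1-skeleton of the window -/
def Sx (A : Set V) (N n : ℕ) : Set V :=
  {x | ∃ v : Fin k → ℤ, (∀ i, |v i| ≤ n) ∧
    (∀ i j, i ≠ j → ¬ (|v i| + N ≤ n ∧ |v j| + N ≤ n)) ∧ ∃ a ∈ A, x = ρ v a}

end

section
variable {V : Type*} [CommGroup V] {k : ℕ} (ρ : (Fin k → ℤ) → (V →* V))

theorem rel_exists (a : V) (i j : Fin k) (N M : ℕ) (A : Set V) (ha : a ∈ A)
    (B : Finset V) (hB : ∀ g ∈ Subgroup.closure (Bx ρ A N), g ∈ B) (hBc : B.card ≤ M)
    (hM : M < 2 ^ (N * N)) (hij : i ≠ j) :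
    ∃ f : ℕ × ℕ → ℤ, (∀ p, f p = 0 ∨ f p = 1 ∨ f p = -1) ∧
      (∃ p ∈ Finset.range N ×ˢ Finset.range N, f p ≠ 0) ∧
      ∏ p ∈ Finset.range N ×ˢ Finset.range N,
        (ρ (Pi.single i (p.1 : ℤ) + Pi.single j (p.2 : ℤ)) a) ^ (f p) = 1 := by
  classical
  set Q := Finset.range N ×ˢ Finset.range N with hQ
  have hmaps : ∀ U ∈ Q.powerset,
      (∏ p ∈ U, ρ (Pi.single i (p.1 : ℤ) + Pi.single j (p.2 : ℤ)) a) ∈ B := by
    intro U hU
    rw [Finset.mem_powerset] at hU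
    apply hB
    refine Subgroup.prod_mem _ (fun p hp => Subgroup.subset_closure ⟨_, ?_, a, ha, rfl⟩)
    have hp' := hU hp
    rw [hQ, Finset.mem_product, Finset.mem_range, Finset.mem_range] at hp'
    intro l
    rw [Pi.add_apply]
    by_cases h1 : l = i
    · subst h1
      rw [Pi.single_eq_same, Pi.single_eq_of_ne hij, add_zero, abs_of_nonneg (by positivity)]
      exact_mod_cast hp'.1.le
    · rw [Pi.single_eq_of_ne h1, zero_add]
      by_cases h2 : l = j
      · subst h2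
        rw [Pi.single_eq_same, abs_of_nonneg (by positivity)]
        exact_mod_cast hp'.2.le
      · rw [Pi.single_eq_of_ne h2]; simp
  have hcard : B.card < (Q.powerset).card := by
    rw [Finset.card_powerset, hQ, Finset.card_product, Finset.card_range]
    omega
  obtain ⟨U, hU, U', hU', hne, heq⟩ := Finset.exists_ne_map_eq_of_card_lt_of_maps_to hcard hmaps
  rw [Finset.mem_powerset] at hU hU'
  refine ⟨fun p => (if p ∈ U then 1 else 0) - (if p ∈ U' then 1 else 0), ?_, ?_, ?_⟩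
  · intro p
    simp only
    by_cases h1 : p ∈ U <;> by_cases h2 : p ∈ U' <;> simp [h1, h2]
  · by_contra hcon
    push Not at hcon
    apply hne
    ext p
    by_cases hp : p ∈ Q
    · have := hcon p hp
      by_cases h1 : p ∈ U <;> by_cases h2 : p ∈ U' <;> simp [h1, h2] at this ⊢
    · exact ⟨fun h => absurd (hU h) hp, fun h => absurd (hU' h) hp⟩
  · have h1 : ∀ W : Finset (ℕ × ℕ), W ⊆ Q →
        ∏ p ∈ Q, (ρ (Pi.single i (p.1 : ℤ) + Pi.single j (p.2 : ℤ)) a) ^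
          (if p ∈ W then (1 : ℤ) else 0) =
        ∏ p ∈ W, ρ (Pi.single i (p.1 : ℤ) + Pi.single j (p.2 : ℤ)) a := by
      intro W hW
      rw [← Finset.prod_subset hW]
      · refine Finset.prod_congr rfl (fun p hp => ?_)
        rw [if_pos hp, zpow_one]
      · intro p _ hp
        rw [if_neg hp, zpow_zero]
    simp only [zpow_sub]
    rw [Finset.prod_mul_distrib, Finset.prod_inv_distrib, h1 U hU, h1 U' hU', heq,
      mul_inv_cancel]

/-- the weight used in the elimination -/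
def Wt (N : ℕ) (v : Fin k → ℤ) : ℤ := ∑ l : Fin k, (N : ℤ) ^ (l : ℕ) * v l

theorem Wt_add (N : ℕ) (u v : Fin k → ℤ) : Wt N (u + v) = Wt N u + Wt N v := by
  rw [Wt, Wt, Wt, ← Finset.sum_add_distrib]
  refine Finset.sum_congr rfl (fun l _ => ?_)
  rw [Pi.add_apply]; ring

theorem Wt_single (N : ℕ) (i : Fin k) (x : ℤ) : Wt N (Pi.single i x) = (N : ℤ) ^ (i : ℕ) * x := by
  rw [Wt, Finset.sum_eq_single i]
  · rw [Pi.single_eq_same]
  · intro l _ hl
    rw [Pi.single_eq_of_ne hl]; ring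
  · intro h; exact absurd (Finset.mem_univ i) h

theorem Wt_inj_aux (N : ℕ) (hN : 1 ≤ N) (a b : ℕ) (hab : a < b) (x y x' y' : ℕ) (hx : x < N)
    (hx' : x' < N)
    (h : (N : ℤ) ^ a * x + (N : ℤ) ^ b * y = (N : ℤ) ^ a * x' + (N : ℤ) ^ b * y') :
    x = x' ∧ y = y' := by
  obtain ⟨c, rfl⟩ := Nat.exists_eq_add_of_lt hab
  have hN0 : (N : ℤ) ≠ 0 := by positivity
  have h1 : (N : ℤ) ^ a * (x + (N : ℤ) ^ (c + 1) * y) =
      (N : ℤ) ^ a * (x' + (N : ℤ) ^ (c + 1) * y') := by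
    have e : (N : ℤ) ^ (a + c + 1) = (N : ℤ) ^ a * (N : ℤ) ^ (c + 1) := by
      rw [← pow_add]; congr 1
    rw [e] at h
    linarith
  have h2 := mul_left_cancel₀ (pow_ne_zero a hN0) h1
  have h3 : (x : ℤ) = x' := by
    have h4 : ((x : ℤ) + (N : ℤ) ^ (c + 1) * y) % N = ((x' : ℤ) + (N : ℤ) ^ (c + 1) * y') % N := by
      rw [h2]
    have e1 : (x : ℤ) + (N : ℤ) ^ (c + 1) * y = x + N * ((N : ℤ) ^ c * y) := by ring
    have e2 : (x' : ℤ) + (N : ℤ) ^ (c + 1) * y' = x' + N * ((N : ℤ) ^ c * y') := by ring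
    rw [e1, e2, Int.add_mul_emod_self_left, Int.add_mul_emod_self_left,
      Int.emod_eq_of_lt (by positivity) (by exact_mod_cast hx),
      Int.emod_eq_of_lt (by positivity) (by exact_mod_cast hx')] at h4
    exact h4
  rw [h3] at h2
  have h5 : (N : ℤ) ^ (c + 1) * y = (N : ℤ) ^ (c + 1) * y' := by linarith
  have h6 := mul_left_cancel₀ (pow_ne_zero (c + 1) hN0) h5
  exact ⟨by exact_mod_cast h3, by exact_mod_cast h6⟩

theorem Wt_inj (N : ℕ) (hN : 1 ≤ N) (i j : Fin k) (hij : i ≠ j) (x y x' y' : ℕ) (hx : x < N)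
    (hx' : x' < N) (hy : y < N) (hy' : y' < N)
    (h : (N : ℤ) ^ (i : ℕ) * x + (N : ℤ) ^ (j : ℕ) * y =
      (N : ℤ) ^ (i : ℕ) * x' + (N : ℤ) ^ (j : ℕ) * y') :
    x = x' ∧ y = y' := by
  have hne : (i : ℕ) ≠ j := fun h => hij (Fin.ext h)
  rcases lt_or_gt_of_ne hne with h1 | h1
  · exact Wt_inj_aux N hN i j h1 x y x' y' hx hx' h
  · have := Wt_inj_aux N hN j i h1 y x y' x' hy hy' (by linarith)
    exact ⟨this.2, this.1⟩

variable (hρ : ∀ (u v : Fin k → ℤ) (a : V), ρ (u + v) a = ρ u (ρ v a))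

include hρ in
theorem skel_step (a : V) (N n : ℕ) (hN : 1 ≤ N)
    (i j : Fin k) (hij : i ≠ j) (f : ℕ × ℕ → ℤ) (hf : ∀ p, f p = 0 ∨ f p = 1 ∨ f p = -1)
    (hf0 : ∃ p ∈ Finset.range N ×ˢ Finset.range N, f p ≠ 0)
    (hrel : ∏ p ∈ Finset.range N ×ˢ Finset.range N,
        (ρ (Pi.single i (p.1 : ℤ) + Pi.single j (p.2 : ℤ)) a) ^ (f p) = 1)
    (P : Subgroup V) (v : Fin k → ℤ) (hv : ∀ l, |v l| ≤ n) (hi : |v i| + N ≤ n)
    (hj : |v j| + N ≤ n)
    (hlow : ∀ v' : Fin k → ℤ, (∀ l, |v' l| ≤ n) → Wt N v' < Wt N v → ρ v' a ∈ P) :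
    ρ v a ∈ P := by
  classical
  set Q := Finset.range N ×ˢ Finset.range N with hQ
  have hne : (Q.filter (fun p => f p ≠ 0)).Nonempty := by
    obtain ⟨p, hp, hfp⟩ := hf0
    exact ⟨p, Finset.mem_filter.2 ⟨hp, hfp⟩⟩
  obtain ⟨p₀, hp₀, hmax⟩ := Finset.exists_max_image _
    (fun p : ℕ × ℕ => (N : ℤ) ^ (i : ℕ) * p.1 + (N : ℤ) ^ (j : ℕ) * p.2) hne
  rw [Finset.mem_filter] at hp₀
  obtain ⟨hp₀Q, hp₀f⟩ := hp₀
  have hp₀Q' := hp₀Q
  rw [hQ, Finset.mem_product, Finset.mem_range, Finset.mem_range] at hp₀Q'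
  set u : Fin k → ℤ := v - (Pi.single i (p₀.1 : ℤ) + Pi.single j (p₀.2 : ℤ)) with hu
  have hrel2 : ∏ p ∈ Q, (ρ (u + (Pi.single i (p.1 : ℤ) + Pi.single j (p.2 : ℤ))) a) ^ (f p) = 1 := by
    have h1 := congrArg (ρ u) hrel
    rw [map_one, map_prod] at h1
    rw [← h1]
    refine Finset.prod_congr rfl (fun p _ => ?_)
    rw [hρ, map_zpow]
  rw [← Finset.mul_prod_erase Q _ hp₀Q] at hrel2
  have hrest : ∏ p ∈ Q.erase p₀,
      (ρ (u + (Pi.single i (p.1 : ℤ) + Pi.single j (p.2 : ℤ))) a) ^ (f p) ∈ P := by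
    refine Subgroup.prod_mem _ (fun p hp => ?_)
    rw [Finset.mem_erase] at hp
    obtain ⟨hpne, hpQ⟩ := hp
    have hpQ' := hpQ
    rw [hQ, Finset.mem_product, Finset.mem_range, Finset.mem_range] at hpQ'
    by_cases hfp : f p = 0
    · rw [hfp, zpow_zero]; exact P.one_mem
    · refine P.zpow_mem (hlow _ ?_ ?_) _
      · intro l
        rw [hu, Pi.add_apply, Pi.sub_apply, Pi.add_apply, Pi.add_apply]
        have hvl := hv l
        by_cases h1 : l = i
        · subst h1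
          rw [Pi.single_eq_same, Pi.single_eq_same, Pi.single_eq_of_ne hij, Pi.single_eq_of_ne hij]
          have h2 := abs_le.1 (show |v l| ≤ n - N by linarith)
          rw [abs_le]; constructor <;> [skip; skip] <;> omega
        · rw [Pi.single_eq_of_ne h1, Pi.single_eq_of_ne h1]
          by_cases h2 : l = j
          · subst h2
            rw [Pi.single_eq_same, Pi.single_eq_same]
            have h2 := abs_le.1 (show |v l| ≤ n - N by linarith)
            rw [abs_le]; constructor <;> [skip; skip] <;> omega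
          · rw [Pi.single_eq_of_ne h2, Pi.single_eq_of_ne h2]
            simpa using hvl
      · have h1 := hmax p (Finset.mem_filter.2 ⟨hpQ, hfp⟩)
        have h2 : (N : ℤ) ^ (i : ℕ) * p.1 + (N : ℤ) ^ (j : ℕ) * p.2 ≠
            (N : ℤ) ^ (i : ℕ) * p₀.1 + (N : ℤ) ^ (j : ℕ) * p₀.2 := by
          intro h
          have := Wt_inj N hN i j hij p.1 p.2 p₀.1 p₀.2 hpQ'.1 hp₀Q'.1 hpQ'.2 hp₀Q'.2 h
          exact hpne (Prod.ext this.1 this.2)
        have h3 := lt_of_le_of_ne h1 h2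
        have h4 : Wt N v = Wt N u + ((N : ℤ) ^ (i : ℕ) * p₀.1 + (N : ℤ) ^ (j : ℕ) * p₀.2) := by
          have : v = u + (Pi.single i (p₀.1 : ℤ) + Pi.single j (p₀.2 : ℤ)) := by rw [hu]; abel
          conv_lhs => rw [this]
          rw [Wt_add, Wt_add, Wt_single, Wt_single]
        rw [h4, Wt_add, Wt_add, Wt_single, Wt_single]
        linarith
  have huv : u + (Pi.single i (p₀.1 : ℤ) + Pi.single j (p₀.2 : ℤ)) = v := by rw [hu]; abel
  rw [huv] at hrel2
  have h5 : (ρ v a) ^ (f p₀) ∈ P := by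
    have h6 := eq_inv_of_mul_eq_one_left hrel2
    rw [h6]
    exact P.inv_mem hrest
  rcases hf p₀ with h | h | h
  · exact absurd h hp₀f
  · rw [h, zpow_one] at h5; exact h5
  · rw [h, zpow_neg, zpow_one] at h5
    exact (Subgroup.inv_mem_iff P).1 h5

include hρ in
theorem skel (A : Set V) (N : ℕ) (hN : 1 ≤ N) (M : ℕ) (hM : M < 2 ^ (N * N))
    (B : Finset V) (hB : ∀ g ∈ Subgroup.closure (Bx ρ A N), g ∈ B) (hBc : B.card ≤ M) (n : ℕ) :
    Subgroup.closure (Bx ρ A n) ≤ Subgroup.closure (Sx ρ A N n) := by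
  rw [Subgroup.closure_le]
  rintro x ⟨v, hv, a, ha, rfl⟩
  -- lower bound of the weight on the box
  obtain ⟨w0, hw0⟩ : ∃ w0 : ℤ, ∀ v : Fin k → ℤ, (∀ i, |v i| ≤ n) → w0 ≤ Wt N v := by
    refine ⟨∑ l : Fin k, -((N : ℤ) ^ (l : ℕ) * n), fun v hv => ?_⟩
    rw [Wt]
    refine Finset.sum_le_sum (fun l _ => ?_)
    have h1 := (abs_le.1 (hv l)).1
    have h2 : (0 : ℤ) ≤ (N : ℤ) ^ (l : ℕ) := by positivity
    nlinarith
  have key : ∀ q : ℕ, ∀ v : Fin k → ℤ, (∀ i, |v i| ≤ n) → Wt N v < w0 + q →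
      ρ v a ∈ Subgroup.closure (Sx ρ A N n) := by
    intro q
    induction q with
    | zero =>
      intro v hv h
      have := hw0 v hv
      push_cast at h
      omega
    | succ q ih =>
      intro v hv h
      by_cases hs : ∀ i j, i ≠ j → ¬ (|v i| + N ≤ n ∧ |v j| + N ≤ n)
      · exact Subgroup.subset_closure ⟨v, hv, hs, a, ha, rfl⟩
      · push Not at hs
        obtain ⟨i, j, hij, hi, hj⟩ := hs
        obtain ⟨f, hf, hf0, hrel⟩ := rel_exists ρ a i j N M A ha B hB hBc hM hij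
        refine skel_step ρ hρ a N n hN i j hij f hf hf0 hrel _ v hv hi hj ?_
        intro v' hv' hlt
        apply ih v' hv'
        push_cast at h
        omega
  have h1 : Wt N v < w0 + ((Wt N v - w0).toNat + 1 : ℕ) := by
    have := hw0 v hv
    push_cast
    rw [Int.toNat_of_nonneg (by omega)]
    omega
  exact key _ v hv h1

end

end Pool.Agent.H684AN
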