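import Pool.Agent.H684AN.Irr
import Pool.Agent.H684AN.Skel

set_option autoImplicit false

/-!
Bounds for the image of a window in an abelian quotient, and a skeleton lemma without an action.
-/

namespace Pool.Agent.H684AN

section
variable {G : Type*} [Group G]

/-- If the Folner function is at most exponential, the image in an abelian group of bounded exponent
of a set of elements of length `O(n)` generates a subgroup with at most exponentially many elements. -/
theorem fol_cardL (S : Finset G) (hF : FolExp S) (L : Subgroup G) {V : Type*} [CommGroup V]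
    (f : L →* V) (m : ℕ) (hm : 1 ≤ m) (c : ℕ) :
    ∃ K : ℕ, ∀ (n : ℕ) (A : Finset L), (∀ a ∈ A, (f a) ^ m = 1) →
      (∀ a ∈ A, WL S (c * (n + 1)) (a : G)) →
      ∃ B : Finset V, (∀ g, g ∈ B ↔ g ∈ Subgroup.closure (f '' (A : Set L))) ∧
        B.card ≤ K ^ (n + 1) := by
  classical
  obtain ⟨C, hC⟩ := hF
  refine ⟨m ^ (4 * (C * (2 * (c + 1))) + 3), fun n A hexp hlen => ?_⟩
  obtain ⟨E, hEA, hirr, hcl⟩ := exists_irred (A.image f)
  have hlift : ∀ e ∈ E, ∃ a ∈ A, f a = e := by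
    intro e he
    have := hEA he
    rw [Finset.mem_image] at this
    exact this
  obtain ⟨B, hB, hBc⟩ := card_closure_le m hm E
    (fun a _ b _ => mul_comm a b) (fun a ha => by
      obtain ⟨b, hb, rfl⟩ := hlift a ha
      exact hexp b hb)
  refine ⟨B, fun g => by rw [hB, hcl, Finset.coe_image], ?_⟩
  -- the lifted family
  set r : V → L := fun e => if h : ∃ a ∈ A, f a = e then h.choose else 1 with hr
  have hr1 : ∀ e ∈ E, r e ∈ A ∧ f (r e) = e := by
    intro e he
    rw [hr]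
    simp only
    rw [dif_pos (hlift e he)]
    exact (hlift e he).choose_spec
  set E' : Finset G := E.image (fun e => ((r e : L) : G)) with hE'
  have hinj : Set.InjOn (fun e => ((r e : L) : G)) (E : Set V) := by
    intro x hx y hy hxy
    have h1 : r x = r y := Subtype.ext hxy
    rw [← (hr1 x hx).2, ← (hr1 y hy).2, h1]
  have hE'c : E'.card = E.card := Finset.card_image_of_injOn hinj
  have hirr' : Irred E' := by
    intro x hx hxc
    rw [hE', Finset.mem_image] at hx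
    obtain ⟨e, he, rfl⟩ := hx
    have key : ∀ x, x ∈ Subgroup.closure ((E' : Set G) \ {((r e : L) : G)}) →
        ∃ y : L, (y : G) = x ∧ f y ∈ Subgroup.closure ((E : Set V) \ {e}) := by
      intro x hx
      induction hx using Subgroup.closure_induction with
      | mem x hx =>
        obtain ⟨hx1, hx2⟩ := hx
        rw [hE', Finset.coe_image] at hx1
        obtain ⟨e', he', rfl⟩ := hx1
        refine ⟨r e', rfl, ?_⟩
        rw [(hr1 e' he').2]
        refine Subgroup.subset_closure ⟨he', ?_⟩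
        intro h
        rw [Set.mem_singleton_iff] at h
        apply hx2
        rw [h]
        exact Set.mem_singleton _
      | one => exact ⟨1, rfl, by rw [map_one]; exact Subgroup.one_mem _⟩
      | mul x y _ _ hx hy =>
        obtain ⟨x', rfl, hx'⟩ := hx
        obtain ⟨y', rfl, hy'⟩ := hy
        exact ⟨x' * y', rfl, by rw [map_mul]; exact Subgroup.mul_mem _ hx' hy'⟩
      | inv x _ hx =>
        obtain ⟨x', rfl, hx'⟩ := hx
        exact ⟨x'⁻¹, rfl, by rw [map_inv]; exact Subgroup.inv_mem _ hx'⟩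
    obtain ⟨y, hy1, hy2⟩ := key _ hxc
    have h1 : y = r e := Subtype.ext hy1
    rw [h1, (hr1 e he).2] at hy2
    exact hirr e he hy2
  obtain ⟨F, hF, hFc⟩ := hC (2 * ((c + 1) * (n + 1))) (Nat.succ_le_of_lt (by positivity))
  have h1 := hirr'.fol ((c + 1) * (n + 1))
    (fun e he => by
      rw [hE', Finset.mem_image] at he
      obtain ⟨e', he', rfl⟩ := he
      exact (hlen _ (hr1 e' he').1).mono (Nat.mul_le_mul_right _ (Nat.le_succ c))) F hF
  have h2 : 2 ^ (E'.card / 4) ≤ 2 ^ (C * (2 * ((c + 1) * (n + 1)))) := by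
    refine (h1.trans hFc).trans ?_
    rw [pow_mul 2 C]
    exact Nat.pow_le_pow_left Nat.lt_two_pow_self.le _
  have h3 := (Nat.pow_le_pow_iff_right (by norm_num : 1 < 2)).1 h2
  rw [hE'c] at h3
  have h4 : E.card ≤ (4 * (C * (2 * (c + 1))) + 3) * (n + 1) := by
    have h5 : C * (2 * ((c + 1) * (n + 1))) = C * (2 * (c + 1)) * (n + 1) := by ring
    rw [h5] at h3
    have h6 : E.card ≤ 4 * (C * (2 * (c + 1)) * (n + 1)) + 3 := by omega
    refine h6.trans ?_
    ring_nf
    nlinarith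
  calc B.card ≤ m ^ E.card := hBc
    _ ≤ m ^ ((4 * (C * (2 * (c + 1))) + 3) * (n + 1)) := Nat.pow_le_pow_right hm h4
    _ = _ := by rw [pow_mul]

end

section
variable {V : Type*} [CommGroup V] {k : ℕ} (X : (Fin k → ℤ) → V) (N n : ℕ) (hN : 1 ≤ N)
  (P : Subgroup V) (f : Fin k → Fin k → ℕ × ℕ → ℤ)
  (hf : ∀ i j p, f i j p = 0 ∨ f i j p = 1 ∨ f i j p = -1)
  (hf0 : ∀ i j, i ≠ j → ∃ p ∈ Finset.range N ×ˢ Finset.range N, f i j p ≠ 0)
  (hrel : ∀ i j, i ≠ j → ∀ u : Fin k → ℤ,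
    (∀ p ∈ Finset.range N ×ˢ Finset.range N, f i j p ≠ 0 →
      ∀ l, |(u + (Pi.single i (p.1 : ℤ) + Pi.single j (p.2 : ℤ)) : Fin k → ℤ) l| ≤ n) →
    ∏ p ∈ Finset.range N ×ˢ Finset.range N,
      (X (u + (Pi.single i (p.1 : ℤ) + Pi.single j (p.2 : ℤ)))) ^ (f i j p) ∈ P)
  (hsk : ∀ v : Fin k → ℤ, (∀ l, |v l| ≤ n) →
    (∀ i j, i ≠ j → ¬ (|v i| + N ≤ n ∧ |v j| + N ≤ n)) → X v ∈ P)

include hN hf hf0 hrel in
theorem skelX_step (i j : Fin k) (hij : i ≠ j) (v : Fin k → ℤ) (hv : ∀ l, |v l| ≤ n)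
    (hi : |v i| + N ≤ n) (hj : |v j| + N ≤ n)
    (hlow : ∀ v' : Fin k → ℤ, (∀ l, |v' l| ≤ n) → Wt N v' < Wt N v → X v' ∈ P) :
    X v ∈ P := by
  classical
  set Q := Finset.range N ×ˢ Finset.range N with hQ
  have hne : (Q.filter (fun p => f i j p ≠ 0)).Nonempty := by
    obtain ⟨p, hp, hfp⟩ := hf0 i j hij
    exact ⟨p, Finset.mem_filter.2 ⟨hp, hfp⟩⟩
  obtain ⟨p₀, hp₀, hmax⟩ := Finset.exists_max_image _
    (fun p : ℕ × ℕ => (N : ℤ) ^ (i : ℕ) * p.1 + (N : ℤ) ^ (j : ℕ) * p.2) hne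
  rw [Finset.mem_filter] at hp₀
  obtain ⟨hp₀Q, hp₀f⟩ := hp₀
  have hp₀Q' := hp₀Q
  rw [hQ, Finset.mem_product, Finset.mem_range, Finset.mem_range] at hp₀Q'
  set u : Fin k → ℤ := v - (Pi.single i (p₀.1 : ℤ) + Pi.single j (p₀.2 : ℤ)) with hu
  have hbox : ∀ p ∈ Q, ∀ l, |(u + (Pi.single i (p.1 : ℤ) + Pi.single j (p.2 : ℤ)) :
      Fin k → ℤ) l| ≤ n := by
    intro p hpQ l
    have hpQ' := hpQ
    rw [hQ, Finset.mem_product, Finset.mem_range, Finset.mem_range] at hpQ'
    rw [hu, Pi.add_apply, Pi.sub_apply, Pi.add_apply, Pi.add_apply]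
    have hvl := hv l
    by_cases h1 : l = i
    · subst h1
      rw [Pi.single_eq_same, Pi.single_eq_same, Pi.single_eq_of_ne hij, Pi.single_eq_of_ne hij]
      have h2 := abs_le.1 (show |v l| ≤ n - N by linarith)
      rw [abs_le]; constructor <;> [skip; skip] <;> omega
    · rw [Pi.single_eq_of_ne h1, Pi.single_eq_of_ne h1]
      by_cases h2 : l = j
      · subst h2
        rw [Pi.single_eq_same, Pi.single_eq_same]
        have h2 := abs_le.1 (show |v l| ≤ n - N by linarith)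
        rw [abs_le]; constructor <;> [skip; skip] <;> omega
      · rw [Pi.single_eq_of_ne h2, Pi.single_eq_of_ne h2]
        simpa using hvl
  have hrel2 := hrel i j hij u (fun p hp _ => hbox p hp)
  rw [← Finset.mul_prod_erase Q _ hp₀Q] at hrel2
  have hrest : ∏ p ∈ Q.erase p₀,
      (X (u + (Pi.single i (p.1 : ℤ) + Pi.single j (p.2 : ℤ)))) ^ (f i j p) ∈ P := by
    refine Subgroup.prod_mem _ (fun p hp => ?_)
    rw [Finset.mem_erase] at hp
    obtain ⟨hpne, hpQ⟩ := hp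
    have hpQ' := hpQ
    rw [hQ, Finset.mem_product, Finset.mem_range, Finset.mem_range] at hpQ'
    by_cases hfp : f i j p = 0
    · rw [hfp, zpow_zero]; exact P.one_mem
    · refine P.zpow_mem (hlow _ (hbox p hpQ) ?_) _
      have h1 := hmax p (Finset.mem_filter.2 ⟨hpQ, hfp⟩)
      have h2 : (N : ℤ) ^ (i : ℕ) * p.1 + (N : ℤ) ^ (j : ℕ) * p.2 ≠
          (N : ℤ) ^ (i : ℕ) * p₀.1 + (N : ℤ) ^ (j : ℕ) * p₀.2 := by
        intro h
        have := Wt_inj N hN i j hij p.1 p.2 p₀.1 p₀.2 hpQ'.1 hp₀Q'.1 hpQ'.2 hp₀Q'.2 h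
        exact hpne (Prod.ext this.1 this.2)
      have h3 := lt_of_le_of_ne h1 h2
      have h4 : Wt N v = Wt N u + ((N : ℤ) ^ (i : ℕ) * p₀.1 + (N : ℤ) ^ (j : ℕ) * p₀.2) := by
        have : v = u + (Pi.single i (p₀.1 : ℤ) + Pi.single j (p₀.2 : ℤ)) := by rw [hu]; abel
        conv_lhs => rw [this]
        rw [Wt_add, Wt_add, Wt_single, Wt_single]
      rw [h4, Wt_add, Wt_add, Wt_single, Wt_single]
      linarith
  have huv : u + (Pi.single i (p₀.1 : ℤ) + Pi.single j (p₀.2 : ℤ)) = v := by rw [hu]; abel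
  rw [huv] at hrel2
  have h5 : (X v) ^ (f i j p₀) ∈ P := (Subgroup.mul_mem_cancel_right P hrest).1 hrel2
  rcases hf i j p₀ with h | h | h
  · exact absurd h hp₀f
  · rw [h, zpow_one] at h5; exact h5
  · rw [h, zpow_neg, zpow_one] at h5
    exact (Subgroup.inv_mem_iff P).1 h5

include hN hf hf0 hrel hsk in
theorem skelX (v : Fin k → ℤ) (hv : ∀ l, |v l| ≤ n) : X v ∈ P := by
  obtain ⟨w0, hw0⟩ : ∃ w0 : ℤ, ∀ v : Fin k → ℤ, (∀ i, |v i| ≤ n) → w0 ≤ Wt N v := by
    refine ⟨∑ l : Fin k, -((N : ℤ) ^ (l : ℕ) * n), fun v hv => ?_⟩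
    rw [Wt]
    refine Finset.sum_le_sum (fun l _ => ?_)
    have h1 := (abs_le.1 (hv l)).1
    have h2 : (0 : ℤ) ≤ (N : ℤ) ^ (l : ℕ) := by positivity
    nlinarith
  have key : ∀ q : ℕ, ∀ v : Fin k → ℤ, (∀ i, |v i| ≤ n) → Wt N v < w0 + q → X v ∈ P := by
    intro q
    induction q with
    | zero =>
      intro v hv h
      have := hw0 v hv
      push_cast at h
      omega
    | succ q ih =>
      intro v hv h
      by_cases hs : ∀ i j, i ≠ j → ¬ (|v i| + N ≤ n ∧ |v j| + N ≤ n)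
      · exact hsk v hv hs
      · push Not at hs
        obtain ⟨i, j, hij, hi, hj⟩ := hs
        refine skelX_step X N n hN P f hf hf0 hrel i j hij v hv hi hj ?_
        intro v' hv' hlt
        apply ih v' hv'
        push_cast at h
        omega
  have h1 : Wt N v < w0 + ((Wt N v - w0).toNat + 1 : ℕ) := by
    have := hw0 v hv
    push_cast
    rw [Int.toNat_of_nonneg (by omega)]
    omega
  exact key _ v hv h1

end

end Pool.Agent.H684AN
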