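import Pool.Agent.H684AN.Chg

set_option autoImplicit false

/-!
Folner sets and irredundant families: if `F` is a Folner set for a scale `2 l` and `E` is an
irredundant finite set of elements of length at most `l`, then `2 ^ (|E| / 4) ≤ |F|`.
-/

namespace Pool.Agent.H684AN

variable {G : Type*} [Group G]

/-- no element of `E` lies in the subgroup generated by the others -/
def Irred (E : Finset G) : Prop :=
  ∀ e ∈ E, e ∉ Subgroup.closure ((E : Set G) \ {e})

open Classical in
theorem Irred.deg {E : Finset G} (hE : Irred E) (δ : ℕ) :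
    ∀ Φ : Finset G, Φ.Nonempty →
      (∀ x ∈ Φ, δ ≤ (E.filter (fun e => x * e ∈ Φ ∨ x * e⁻¹ ∈ Φ)).card) → 2 ^ δ ≤ Φ.card := by
  induction δ with
  | zero => intro Φ h _; simpa using h
  | succ δ ih =>
    intro Φ hne hdeg
    obtain ⟨x₀, hx₀⟩ := hne
    have h1 := hdeg x₀ hx₀
    obtain ⟨e, he⟩ : (E.filter (fun e => x₀ * e ∈ Φ ∨ x₀ * e⁻¹ ∈ Φ)).Nonempty := by
      rw [← Finset.card_pos]; omega
    rw [Finset.mem_filter] at he
    obtain ⟨heE, he⟩ := he
    set D := Subgroup.closure ((E : Set G) \ {e}) with hD
    have heD : e ∉ D := hE e heE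
    -- the point `y₀ = x₀ e^{±1}`
    obtain ⟨u, hu, huΦ⟩ : ∃ u : G, u ∉ D ∧ x₀ * u ∈ Φ := by
      rcases he with he | he
      · exact ⟨e, heD, he⟩
      · exact ⟨e⁻¹, fun h => heD (by simpa using D.inv_mem h), he⟩
    have hstep : ∀ z ∈ Φ, 2 ^ δ ≤ (Φ.filter (fun y => z⁻¹ * y ∈ D)).card := by
      intro z hz
      apply ih
      · exact ⟨z, Finset.mem_filter.2 ⟨hz, by simp [D.one_mem]⟩⟩
      · intro y hy
        rw [Finset.mem_filter] at hy
        have h2 := hdeg y hy.1
        have hsub : (E.filter (fun e => y * e ∈ Φ ∨ y * e⁻¹ ∈ Φ)).erase e ⊆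
            E.filter (fun e => y * e ∈ Φ.filter (fun y => z⁻¹ * y ∈ D) ∨
              y * e⁻¹ ∈ Φ.filter (fun y => z⁻¹ * y ∈ D)) := by
          intro f hf
          rw [Finset.mem_erase, Finset.mem_filter] at hf
          obtain ⟨hfe, hfE, hf⟩ := hf
          have hfD : f ∈ D := Subgroup.subset_closure ⟨hfE, hfe⟩
          rw [Finset.mem_filter]
          refine ⟨hfE, ?_⟩
          rcases hf with hf | hf
          · left
            rw [Finset.mem_filter]
            refine ⟨hf, ?_⟩
            rw [← mul_assoc]; exact D.mul_mem hy.2 hfD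
          · right
            rw [Finset.mem_filter]
            refine ⟨hf, ?_⟩
            rw [← mul_assoc]; exact D.mul_mem hy.2 (D.inv_mem hfD)
        have h3 := Finset.card_le_card hsub
        have h4 := Finset.pred_card_le_card_erase
          (s := E.filter (fun e => y * e ∈ Φ ∨ y * e⁻¹ ∈ Φ)) (a := e)
        omega
    have hdis : Disjoint (Φ.filter (fun y => x₀⁻¹ * y ∈ D))
        (Φ.filter (fun y => (x₀ * u)⁻¹ * y ∈ D)) := by
      rw [Finset.disjoint_left]
      intro y hy hy'
      rw [Finset.mem_filter] at hy hy'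
      apply hu
      have h5 := D.mul_mem hy.2 (D.inv_mem hy'.2)
      have h6 : x₀⁻¹ * y * ((x₀ * u)⁻¹ * y)⁻¹ = u := by group
      rwa [h6] at h5
    calc 2 ^ (δ + 1) = 2 ^ δ + 2 ^ δ := by ring
      _ ≤ _ := Nat.add_le_add (hstep x₀ hx₀) (hstep (x₀ * u) huΦ)
      _ = _ := (Finset.card_union_of_disjoint hdis).symm
      _ ≤ Φ.card := Finset.card_le_card
          (Finset.union_subset (Finset.filter_subset _ _) (Finset.filter_subset _ _))

open Classical in
/-- a finite set with many edges contains a nonempty subset of large minimal degree -/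
theorem exists_core (E : Finset G) (δ : ℕ) (n : ℕ) :
    ∀ F : Finset G, F.card = n → F.Nonempty →
      δ * F.card ≤ ∑ e ∈ E, (F.filter (fun x => x * e ∈ F)).card →
      ∃ Φ : Finset G, Φ ⊆ F ∧ Φ.Nonempty ∧ ∀ x ∈ Φ,
        δ ≤ (E.filter (fun e => x * e ∈ Φ)).card + (E.filter (fun e => x * e⁻¹ ∈ Φ)).card := by
  induction n with
  | zero =>
    intro F hF hne
    rw [Finset.card_eq_zero] at hF
    rw [hF] at hne
    exact absurd hne (by simp)
  | succ n ih =>
    intro F hF hne hN
    by_cases hall : ∀ x ∈ F,
        δ ≤ (E.filter (fun e => x * e ∈ F)).card + (E.filter (fun e => x * e⁻¹ ∈ F)).card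
    · exact ⟨F, subset_rfl, hne, hall⟩
    · push Not at hall
      obtain ⟨x, hx, hdeg⟩ := hall
      have hc : (F.erase x).card = n := by rw [Finset.card_erase_of_mem hx, hF]; rfl
      -- edges lost
      have hlose : ∀ e ∈ E, (F.filter (fun y => y * e ∈ F)).card ≤
          ((F.erase x).filter (fun y => y * e ∈ F.erase x)).card +
            ((if x * e ∈ F then 1 else 0) + (if x * e⁻¹ ∈ F then 1 else 0)) := by
        intro e _
        have hsub : F.filter (fun y => y * e ∈ F) ⊆
            ((F.erase x).filter (fun y => y * e ∈ F.erase x)) ∪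
              ((if x * e ∈ F then {x} else ∅) ∪ (if x * e⁻¹ ∈ F then {x * e⁻¹} else ∅)) := by
          intro y hy
          rw [Finset.mem_filter] at hy
          rw [Finset.mem_union, Finset.mem_union, Finset.mem_filter, Finset.mem_erase,
            Finset.mem_erase]
          by_cases h1 : y = x
          · subst h1
            right; left
            rw [if_pos hy.2]; simp
          · by_cases h2 : y * e = x
            · right; right
              have h3 : x * e⁻¹ = y := by rw [← h2]; group
              rw [h3, if_pos hy.1]; simp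
            · left; exact ⟨⟨h1, hy.1⟩, h2, hy.2⟩
        refine (Finset.card_le_card hsub).trans ?_
        refine (Finset.card_union_le _ _).trans ?_
        refine Nat.add_le_add_left ?_ _
        refine (Finset.card_union_le _ _).trans ?_
        refine Nat.add_le_add ?_ ?_
        · split_ifs <;> simp
        · split_ifs <;> simp
      have hsum := Finset.sum_le_sum hlose
      rw [Finset.sum_add_distrib, Finset.sum_add_distrib, ← Finset.card_filter,
        ← Finset.card_filter] at hsum
      have hmul : δ * F.card = δ * (F.erase x).card + δ := by rw [hc, hF]; ring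
      have hstrict : δ * (F.erase x).card <
          ∑ e ∈ E, ((F.erase x).filter (fun y => y * e ∈ F.erase x)).card := by omega
      have hne' : (F.erase x).Nonempty := by
        rw [Finset.nonempty_iff_ne_empty]
        intro h0
        rw [h0] at hstrict
        simp at hstrict
      obtain ⟨Φ, h1, h2, h3⟩ := ih (F.erase x) hc hne' hstrict.le
      exact ⟨Φ, h1.trans (Finset.erase_subset _ _), h2, h3⟩

theorem Irred.fol {S : Finset G} {E : Finset G} (hE : Irred E) (l : ℕ) (hl : ∀ e ∈ E, WL S l e)
    (F : Finset G) (hF : IsFol S (2 * l) F) : 2 ^ (E.card / 4) ≤ F.card := by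
  classical
  rw [isFol_iff] at hF
  obtain ⟨hne, hb⟩ := hF
  have h1 : ∀ e ∈ E, F.card ≤ 2 * (F.filter (fun x => x * e ∈ F)).card := by
    intro e he
    have h2 := move_le S F l e (hl e he)
    have h3 := Finset.card_filter_add_card_filter_not (s := F) (fun x => x * e ∈ F)
    nlinarith
  have h2 : (2 * (E.card / 4)) * F.card ≤ ∑ e ∈ E, (F.filter (fun x => x * e ∈ F)).card := by
    have h3 := Finset.sum_le_sum h1
    rw [Finset.sum_const, smul_eq_mul, ← Finset.mul_sum] at h3
    have h4 : 4 * (E.card / 4) ≤ E.card := Nat.mul_div_le _ _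
    have h5 := Nat.mul_le_mul_right F.card h4
    nlinarith
  obtain ⟨Φ, hΦF, hΦ, hdeg⟩ := exists_core E (2 * (E.card / 4)) F.card F rfl hne h2
  refine (hE.deg (E.card / 4) Φ hΦ ?_).trans (Finset.card_le_card hΦF)
  intro x hx
  have h3 := hdeg x hx
  have h4 : (E.filter (fun e => x * e ∈ Φ)).card ≤
      (E.filter (fun e => x * e ∈ Φ ∨ x * e⁻¹ ∈ Φ)).card :=
    Finset.card_le_card (Finset.monotone_filter_right _ (fun _ _ h => Or.inl h))
  have h5 : (E.filter (fun e => x * e⁻¹ ∈ Φ)).card ≤
      (E.filter (fun e => x * e ∈ Φ ∨ x * e⁻¹ ∈ Φ)).card :=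
    Finset.card_le_card (Finset.monotone_filter_right _ (fun _ _ h => Or.inr h))
  omega

/-- every finite set contains an irredundant generating subset -/
theorem exists_irred (A : Finset G) :
    ∃ E : Finset G, E ⊆ A ∧ Irred E ∧
      Subgroup.closure (E : Set G) = Subgroup.closure (A : Set G) := by
  classical
  have hne : ((A.powerset).filter (fun E : Finset G => Subgroup.closure (E : Set G) =
      Subgroup.closure (A : Set G))).Nonempty :=
    ⟨A, Finset.mem_filter.2 ⟨Finset.mem_powerset_self A, rfl⟩⟩
  obtain ⟨E, hE, hmin⟩ := Finset.exists_min_image _ (fun E : Finset G => E.card) hne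
  rw [Finset.mem_filter, Finset.mem_powerset] at hE
  refine ⟨E, hE.1, ?_, hE.2⟩
  intro e he hcl
  have h1 : Subgroup.closure ((E.erase e : Finset G) : Set G) = Subgroup.closure (E : Set G) := by
    apply le_antisymm
    · exact Subgroup.closure_mono (by
        intro x hx
        exact Finset.mem_of_mem_erase (Finset.mem_coe.1 hx))
    · rw [Subgroup.closure_le]
      intro x hx
      by_cases hxe : x = e
      · rw [hxe, Finset.coe_erase]; exact hcl
      · exact Subgroup.subset_closure (by
          rw [Finset.coe_erase]; exact ⟨hx, hxe⟩)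
  have h2 := hmin (E.erase e) (by
    rw [Finset.mem_filter, Finset.mem_powerset]
    exact ⟨(Finset.erase_subset _ _).trans hE.1, h1.trans hE.2⟩)
  have h3 := Finset.card_erase_lt_of_mem he
  omega

/-- size of a subgroup generated by commuting elements of bounded order -/
theorem card_closure_le (m : ℕ) (hm : 1 ≤ m) (E : Finset G)
    (hcomm : ∀ a ∈ E, ∀ b ∈ E, a * b = b * a) (hexp : ∀ a ∈ E, a ^ m = 1) :
    ∃ B : Finset G, (∀ g, g ∈ B ↔ g ∈ Subgroup.closure (E : Set G)) ∧ B.card ≤ m ^ E.card := by
  classical
  induction E using Finset.induction_on with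
  | empty =>
    refine ⟨{1}, fun g => ?_, by simp⟩
    simp [Subgroup.mem_bot]
  | insert a E ha ih =>
    obtain ⟨B, hB, hBc⟩ := ih
      (fun x hx y hy => hcomm x (Finset.mem_insert_of_mem hx) y (Finset.mem_insert_of_mem hy))
      (fun x hx => hexp x (Finset.mem_insert_of_mem hx))
    have hac : ∀ h ∈ Subgroup.closure (E : Set G), a * h = h * a := by
      intro h hh
      have h1 : Subgroup.closure (E : Set G) ≤ Subgroup.centralizer {a} := by
        rw [Subgroup.closure_le]
        intro x hx
        rw [SetLike.mem_coe, Subgroup.mem_centralizer_singleton_iff]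
        exact (hcomm a (Finset.mem_insert_self _ _) x (Finset.mem_insert_of_mem hx)).symm
      have h2 := h1 hh
      rw [Subgroup.mem_centralizer_singleton_iff] at h2
      exact h2.symm
    have ham : a ^ m = 1 := hexp a (Finset.mem_insert_self _ _)
    refine ⟨(Finset.range m ×ˢ B).image (fun p => a ^ p.1 * p.2), fun g => ?_, ?_⟩
    · constructor
      · intro hg
        rw [Finset.mem_image] at hg
        obtain ⟨⟨i, h⟩, hp, rfl⟩ := hg
        rw [Finset.mem_product, hB] at hp
        refine Subgroup.mul_mem _ (Subgroup.pow_mem _ (Subgroup.subset_closure (by simp)) _) ?_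
        exact Subgroup.closure_mono (by
          intro x hx; exact Finset.mem_coe.2 (Finset.mem_insert_of_mem (Finset.mem_coe.1 hx))) hp.2
      · intro hg
        have key : ∃ (i : ℤ) (h : G), h ∈ Subgroup.closure (E : Set G) ∧ g = a ^ i * h := by
          induction hg using Subgroup.closure_induction with
          | mem x hx =>
            rw [Finset.mem_coe, Finset.mem_insert] at hx
            rcases hx with rfl | hx
            · exact ⟨1, 1, Subgroup.one_mem _, by simp⟩
            · exact ⟨0, x, Subgroup.subset_closure hx, by simp⟩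
          | one => exact ⟨0, 1, Subgroup.one_mem _, by simp⟩
          | mul x y _ _ hx hy =>
            obtain ⟨i, h, hh, rfl⟩ := hx
            obtain ⟨j, h', hh', rfl⟩ := hy
            refine ⟨i + j, h * h', Subgroup.mul_mem _ hh hh', ?_⟩
            have hc : Commute a h := hac h hh
            have h5 : h * a ^ j = a ^ j * h := ((hc.zpow_left j).eq).symm
            rw [zpow_add]
            calc a ^ i * h * (a ^ j * h') = a ^ i * (h * a ^ j) * h' := by group
              _ = a ^ i * a ^ j * (h * h') := by rw [h5]; group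
          | inv x _ hx =>
            obtain ⟨i, h, hh, rfl⟩ := hx
            refine ⟨-i, h⁻¹, Subgroup.inv_mem _ hh, ?_⟩
            have hc : Commute a h := hac h hh
            have h5 : h⁻¹ * a ^ (-i) = a ^ (-i) * h⁻¹ := ((hc.zpow_left (-i)).inv_right.eq).symm
            rw [mul_inv_rev, ← zpow_neg, h5]
        obtain ⟨i, h, hh, rfl⟩ := key
        rw [Finset.mem_image]
        refine ⟨((i % m).toNat, h), ?_, ?_⟩
        · rw [Finset.mem_product, hB, Finset.mem_range]
          have h0 : (0 : ℤ) < m := by omega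
          have h1 := Int.emod_nonneg i h0.ne'
          have h2 := Int.emod_lt_of_pos i h0
          exact ⟨by simp only; omega, hh⟩
        · simp only
          have h0 : (0 : ℤ) < m := by omega
          have h1 := Int.emod_nonneg i h0.ne'
          congr 1
          rw [← zpow_natCast, Int.toNat_of_nonneg h1]
          conv_rhs => rw [← Int.emod_add_mul_ediv i m, zpow_add, zpow_mul, zpow_natCast, ham,
            one_zpow, mul_one]
    · refine Finset.card_image_le.trans ?_
      rw [Finset.card_product, Finset.card_range, Finset.card_insert_of_notMem ha, pow_succ,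
        mul_comm]
      exact Nat.mul_le_mul_right _ hBc

/-- If the Folner function is at most exponential, a subgroup generated by commuting elements of
bounded order and of length `O(n)` has at most exponentially many elements. -/
theorem fol_card (S : Finset G) (hF : FolExp S) (m : ℕ) (hm : 1 ≤ m) (c : ℕ) :
    ∃ K : ℕ, ∀ (n : ℕ) (A : Finset G), (∀ a ∈ A, ∀ b ∈ A, a * b = b * a) → (∀ a ∈ A, a ^ m = 1) →
      (∀ a ∈ A, WL S (c * (n + 1)) a) →
      ∃ B : Finset G, (∀ g, g ∈ B ↔ g ∈ Subgroup.closure (A : Set G)) ∧ B.card ≤ K ^ (n + 1) := by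
  obtain ⟨C, hC⟩ := hF
  refine ⟨m ^ (4 * (C * (2 * (c + 1))) + 3), fun n A hcomm hexp hlen => ?_⟩
  obtain ⟨E, hEA, hirr, hcl⟩ := exists_irred A
  obtain ⟨B, hB, hBc⟩ := card_closure_le m hm E
    (fun a ha b hb => hcomm a (hEA ha) b (hEA hb)) (fun a ha => hexp a (hEA ha))
  refine ⟨B, fun g => by rw [hB, hcl], ?_⟩
  obtain ⟨F, hF, hFc⟩ := hC (2 * ((c + 1) * (n + 1))) (Nat.succ_le_of_lt (by positivity))
  have h1 := hirr.fol ((c + 1) * (n + 1))
    (fun e he => (hlen e (hEA he)).mono (Nat.mul_le_mul_right _ (Nat.le_succ c))) F hF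
  have h2 : 2 ^ (E.card / 4) ≤ 2 ^ (C * (2 * ((c + 1) * (n + 1)))) := by
    refine (h1.trans hFc).trans ?_
    rw [pow_mul 2 C]
    exact Nat.pow_le_pow_left Nat.lt_two_pow_self.le _
  have h3 := (Nat.pow_le_pow_iff_right (by norm_num : 1 < 2)).1 h2
  have h4 : E.card ≤ (4 * (C * (2 * (c + 1))) + 3) * (n + 1) := by
    have h5 : C * (2 * ((c + 1) * (n + 1))) = C * (2 * (c + 1)) * (n + 1) := by ring
    rw [h5] at h3
    have h6 : E.card ≤ 4 * (C * (2 * (c + 1)) * (n + 1)) + 3 := by omega
    refine h6.trans ?_
    ring_nf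
    nlinarith
  calc B.card ≤ m ^ E.card := hBc
    _ ≤ m ^ ((4 * (C * (2 * (c + 1))) + 3) * (n + 1)) := Nat.pow_le_pow_right hm h4
    _ = _ := by rw [pow_mul]

end Pool.Agent.H684AN
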