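import Pool.Agent.H684AN.Chg

set_option autoImplicit false

/-!
A finitely generated amenable group of finite Assouad-Nagata dimension has an at most exponential
Folner function.
-/

namespace Pool.Agent.H684AN

variable {G : Type*} [Group G]

/-- colour `i` occurs within `ρ` of `x` -/
def near {d : ℕ} (S : Finset G) (c : G → Fin (d + 1)) (ρ : ℕ) (x : G) (i : Fin (d + 1)) : Prop :=
  ∃ y, WL S ρ (x⁻¹ * y) ∧ c y = i

theorem near_mono {d : ℕ} {S : Finset G} {c : G → Fin (d + 1)} {ρ ρ' : ℕ} {x : G} {i : Fin (d + 1)}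
    (h : near S c ρ x i) (hρ : ρ ≤ ρ') : near S c ρ' x i := by
  obtain ⟨y, hy, hc⟩ := h
  exact ⟨y, hy.mono hρ, hc⟩

theorem near_step {d : ℕ} {S : Finset G} {c : G → Fin (d + 1)} {ρ : ℕ} {x s : G} {i : Fin (d + 1)}
    (h : near S c ρ x i) (hs : WL S 1 s) : near S c (ρ + 1) (x * s) i := by
  obtain ⟨y, hy, hc⟩ := h
  refine ⟨y, ?_, hc⟩
  have h1 := hs.inv.mul hy
  rw [add_comm]
  convert h1 using 1
  group

open Classical in
theorem near_count {d : ℕ} (S : Finset G) (c : G → Fin (d + 1)) (x s : G) (hs : WL S 1 s)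
    (i : Fin (d + 1)) (R : ℕ) :
    ((Finset.range R).filter (fun ρ => ¬ (near S c ρ x i ↔ near S c ρ (x * s) i))).card ≤ 1 := by
  rw [Finset.card_le_one]
  have key : ∀ a b : ℕ, a < b → ¬ (near S c a x i ↔ near S c a (x * s) i) →
      (near S c b x i ↔ near S c b (x * s) i) := by
    intro a b hab hne
    have h1 : near S c b x i := by
      by_cases h : near S c a x i
      · exact near_mono h hab.le
      · have h2 : near S c a (x * s) i := by
          by_contra h3; exact hne ⟨fun h4 => (h h4).elim, fun h4 => (h3 h4).elim⟩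
        have h5 := near_step h2 hs.inv
        rw [mul_inv_cancel_right] at h5
        exact near_mono h5 hab
    have h2 : near S c b (x * s) i := by
      by_cases h : near S c a x i
      · exact near_mono (near_step h hs) hab
      · have h2 : near S c a (x * s) i := by
          by_contra h3; exact hne ⟨fun h4 => (h h4).elim, fun h4 => (h3 h4).elim⟩
        exact near_mono h2 hab.le
    exact ⟨fun _ => h2, fun _ => h1⟩
  intro a ha b hb
  rw [Finset.mem_filter] at ha hb
  rcases lt_trichotomy a b with h | h | h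
  · exact absurd (key a b h ha.2) hb.2
  · exact h
  · exact absurd (key b a h hb.2) ha.2

theorem nowak (S : Finset G) (hS : Subgroup.closure (S : Set G) = ⊤) (d : ℕ) (hAN : ANLE S d)
    (ham : ∀ n : ℕ, 1 ≤ n → ∃ F : Finset G, IsFol S n F) : FolExp S := by
  classical
  obtain ⟨C, hC⟩ := hAN
  set q : ℕ := 2 * (2 * S.card + 1) * (d + 1) with hq
  refine ⟨(2 * S.card + 1) ^ ((C + 1) * (2 * q + 1)), fun n hn => ?_⟩
  set R : ℕ := q * n with hR
  set r : ℕ := 2 * R + 1 with hr
  obtain ⟨c, k, hck⟩ := hC r (by omega)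
  obtain ⟨E, hE⟩ := ham (2 * n) (by omega)
  rw [isFol_iff] at hE
  obtain ⟨hEne, hEb⟩ := hE
  set T : Finset G := S ∪ S.image (fun s => s⁻¹) with hT
  have hTc : T.card ≤ 2 * S.card := by
    refine (Finset.card_union_le _ _).trans ?_
    have := Finset.card_image_le (s := S) (f := fun s : G => s⁻¹)
    omega
  have hTW : ∀ s ∈ T, WL S 1 s := by
    intro s hs
    rw [hT, Finset.mem_union, Finset.mem_image] at hs
    rcases hs with hs | ⟨a, ha, rfl⟩
    · exact WL.of_mem hs
    · exact (WL.of_mem ha).inv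
  have hqpos : 0 < q := by rw [hq]; positivity
  have hRpos : 0 < R := Nat.mul_pos hqpos hn
  set Bd : ℕ → Finset G := fun ρ => E.filter (fun x => ∃ s ∈ T, ∃ i : Fin (d + 1),
    ¬ (near S c ρ x i ↔ near S c ρ (x * s) i)) with hBd
  have hsum : ∑ ρ ∈ Finset.range R, (Bd ρ).card ≤ E.card * ((2 * S.card + 1) * (d + 1)) := by
    have h1 : ∑ ρ ∈ Finset.range R, (Bd ρ).card =
        ∑ x ∈ E, ((Finset.range R).filter (fun ρ => ∃ s ∈ T, ∃ i : Fin (d + 1),
          ¬ (near S c ρ x i ↔ near S c ρ (x * s) i))).card := by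
      simp only [hBd, Finset.card_filter]
      rw [Finset.sum_comm]
    rw [h1]
    have h2 : ∀ x ∈ E, ((Finset.range R).filter (fun ρ => ∃ s ∈ T, ∃ i : Fin (d + 1),
          ¬ (near S c ρ x i ↔ near S c ρ (x * s) i))).card ≤ (2 * S.card + 1) * (d + 1) := by
      intro x _
      have hsub : (Finset.range R).filter (fun ρ => ∃ s ∈ T, ∃ i : Fin (d + 1),
          ¬ (near S c ρ x i ↔ near S c ρ (x * s) i)) ⊆
          T.biUnion (fun s => (Finset.univ : Finset (Fin (d + 1))).biUnion (fun i =>
            (Finset.range R).filter (fun ρ =>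
              ¬ (near S c ρ x i ↔ near S c ρ (x * s) i)))) := by
        intro ρ hρ
        rw [Finset.mem_filter] at hρ
        obtain ⟨hρ, s, hs, i, hi⟩ := hρ
        rw [Finset.mem_biUnion]
        refine ⟨s, hs, ?_⟩
        rw [Finset.mem_biUnion]
        exact ⟨i, Finset.mem_univ i, Finset.mem_filter.2 ⟨hρ, hi⟩⟩
      refine (Finset.card_le_card hsub).trans ?_
      refine Finset.card_biUnion_le.trans ?_
      calc ∑ s ∈ T, _ ≤ ∑ s ∈ T, (d + 1) := by
            refine Finset.sum_le_sum (fun s hs => ?_)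
            refine Finset.card_biUnion_le.trans ?_
            calc _ ≤ ∑ i : Fin (d + 1), 1 :=
                  Finset.sum_le_sum (fun i _ => near_count S c x s (hTW s hs) i R)
              _ = d + 1 := by simp
        _ = T.card * (d + 1) := by rw [Finset.sum_const, smul_eq_mul]
        _ ≤ (2 * S.card + 1) * (d + 1) := Nat.mul_le_mul_right _ (by omega)
    calc _ ≤ ∑ x ∈ E, (2 * S.card + 1) * (d + 1) := Finset.sum_le_sum h2
      _ = _ := by rw [Finset.sum_const, smul_eq_mul]
  obtain ⟨ρ, hρ, hρc⟩ : ∃ ρ ∈ Finset.range R,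
      R * (Bd ρ).card ≤ E.card * ((2 * S.card + 1) * (d + 1)) := by
    by_contra hcon
    push Not at hcon
    have h1 : ∑ ρ ∈ Finset.range R, (E.card * ((2 * S.card + 1) * (d + 1))) <
        ∑ ρ ∈ Finset.range R, R * (Bd ρ).card :=
      Finset.sum_lt_sum_of_nonempty ⟨0, Finset.mem_range.2 hRpos⟩ hcon
    rw [Finset.sum_const, Finset.card_range, smul_eq_mul, ← Finset.mul_sum] at h1
    have h2 := Nat.lt_of_mul_lt_mul_left h1
    omega
  have hρc' : 2 * n * (Bd ρ).card ≤ E.card := by
    have h1 : ((2 * S.card + 1) * (d + 1)) * (2 * n * (Bd ρ).card) ≤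
        ((2 * S.card + 1) * (d + 1)) * E.card := by
      calc _ = R * (Bd ρ).card := by rw [hR, hq]; ring
        _ ≤ _ := hρc
        _ = _ := by ring
    exact Nat.le_of_mul_le_mul_left h1 (by positivity)
  -- labels
  set kk : G → Fin (d + 1) → G := fun x i =>
    if h : ∃ y, WL S R (x⁻¹ * y) ∧ c y = i then k h.choose else 1 with hkk
  have hkk' : ∀ x i y, WL S R (x⁻¹ * y) → c y = i → kk x i = k y := by
    intro x i y hy hc
    have hex : ∃ y, WL S R (x⁻¹ * y) ∧ c y = i := ⟨y, hy, hc⟩
    have h1 : kk x i = k hex.choose := by rw [hkk]; simp only; rw [dif_pos hex]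
    rw [h1]
    by_contra hne
    have h2 := (hck hex.choose y (by rw [hex.choose_spec.2, hc])).2 hne
    rw [lt_dist_iff hS] at h2
    apply h2
    have h3 := hex.choose_spec.1.inv.mul hy
    refine WL.mono ?_ (show R + R ≤ r by omega)
    convert h3 using 1
    group
  set lab : G → Fin (d + 1) → Option G := fun x i =>
    if near S c ρ x i then some (kk x i) else none with hlab
  have hρR : ρ < R := Finset.mem_range.1 hρ
  have hlabs : ∀ x s, WL S 1 s → (∀ i, near S c ρ x i ↔ near S c ρ (x * s) i) →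
      lab (x * s) = lab x := by
    intro x s hs h
    funext i
    rw [hlab]
    simp only
    by_cases h1 : near S c ρ x i
    · have h2 := (h i).1 h1
      rw [if_pos h1, if_pos h2]
      obtain ⟨y, hy, hyc⟩ := h1
      obtain ⟨z, hz, hzc⟩ := h2
      rw [hkk' x i y (hy.mono hρR.le) hyc, hkk' (x * s) i z (hz.mono hρR.le) hzc]
      congr 1
      by_contra hne
      have h2 := (hck z y (by rw [hzc, hyc])).2 hne
      rw [lt_dist_iff hS] at h2
      apply h2
      have h3 := (hz.inv.mul hs.inv).mul hy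
      refine WL.mono ?_ (show ρ + 1 + ρ ≤ r by omega)
      convert h3 using 1
      group
    · have h2 := (h i).not.1 h1
      rw [if_neg h1, if_neg h2]
  set P : (Fin (d + 1) → Option G) → Finset G := fun l => E.filter (fun x => lab x = l) with hP
  set I : Finset (Fin (d + 1) → Option G) := E.image lab with hI
  have hPE : ∑ l ∈ I, (P l).card = E.card := by
    rw [hI, hP]
    exact (Finset.card_eq_sum_card_image lab E).symm
  have hbdP : ∀ l ∈ I, (bd S (P l)).card ≤ ((bd S E ∪ Bd ρ).filter (fun x => lab x = l)).card := by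
    intro l _
    refine Finset.card_le_card ?_
    intro x hx
    rw [bd, Finset.mem_filter] at hx
    obtain ⟨hxP, s, hs, hbad⟩ := hx
    rw [hP] at hxP
    simp only [Finset.mem_filter] at hxP
    rw [Finset.mem_filter]
    refine ⟨?_, hxP.2⟩
    by_contra hcon
    rw [Finset.mem_union, not_or] at hcon
    obtain ⟨h1, h2⟩ := hcon
    have h1' : ∀ s ∈ S, x * s ∈ E ∧ x * s⁻¹ ∈ E := by
      intro s hs
      by_contra h3
      apply h1
      rw [bd, Finset.mem_filter]
      refine ⟨hxP.1, s, hs, ?_⟩
      by_cases h4 : x * s ∈ E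
      · right; intro h5; exact h3 ⟨h4, h5⟩
      · left; exact h4
    have h2' : ∀ s ∈ T, ∀ i, (near S c ρ x i ↔ near S c ρ (x * s) i) := by
      intro s hs i
      by_contra h3
      apply h2
      rw [hBd]
      simp only [Finset.mem_filter]
      exact ⟨hxP.1, s, hs, i, h3⟩
    have hsT : s ∈ T := by rw [hT]; exact Finset.mem_union_left _ hs
    have hsT' : s⁻¹ ∈ T := by
      rw [hT]; exact Finset.mem_union_right _ (Finset.mem_image_of_mem _ hs)
    rcases hbad with hbad | hbad
    · apply hbad
      rw [hP]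
      simp only [Finset.mem_filter]
      exact ⟨(h1' s hs).1, by rw [hlabs x s (hTW s hsT) (h2' s hsT)]; exact hxP.2⟩
    · apply hbad
      rw [hP]
      simp only [Finset.mem_filter]
      exact ⟨(h1' s hs).2, by rw [hlabs x s⁻¹ (hTW _ hsT') (h2' _ hsT')]; exact hxP.2⟩
  have hsumbd : ∑ l ∈ I, (bd S (P l)).card ≤ (bd S E).card + (Bd ρ).card := by
    calc _ ≤ ∑ l ∈ I, ((bd S E ∪ Bd ρ).filter (fun x => lab x = l)).card :=
          Finset.sum_le_sum hbdP
      _ = (bd S E ∪ Bd ρ).card := by
          refine (Finset.card_eq_sum_card_fiberwise ?_).symm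
          intro x hx
          have hxE : x ∈ E := by
            rw [Finset.mem_coe, Finset.mem_union] at hx
            rcases hx with hx | hx
            · rw [bd] at hx; exact (Finset.mem_filter.1 hx).1
            · rw [hBd] at hx; exact (Finset.mem_filter.1 hx).1
          rw [hI]
          exact Finset.mem_coe.2 (Finset.mem_image_of_mem _ hxE)
      _ ≤ _ := Finset.card_union_le _ _
  obtain ⟨l, hl, hlc⟩ : ∃ l ∈ I, n * (bd S (P l)).card ≤ (P l).card := by
    by_contra hcon
    push Not at hcon
    have hIne : I.Nonempty := hEne.image _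
    have h1 := Finset.sum_lt_sum_of_nonempty hIne hcon
    rw [hPE, ← Finset.mul_sum] at h1
    have h2 := Nat.mul_le_mul_left n hsumbd
    have h3 : 2 * (n * ((bd S E).card + (Bd ρ).card)) ≤ 2 * E.card := by
      calc _ = 2 * n * (bd S E).card + 2 * n * (Bd ρ).card := by ring
        _ ≤ E.card + E.card := Nat.add_le_add hEb hρc'
        _ = _ := by ring
    omega
  rw [hI, Finset.mem_image] at hl
  obtain ⟨x₀, hx₀, hx₀l⟩ := hl
  refine ⟨P l, ?_, ?_⟩
  · rw [isFol_iff]
    refine ⟨⟨x₀, ?_⟩, hlc⟩
    rw [hP]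
    exact Finset.mem_filter.2 ⟨hx₀, hx₀l⟩
  · obtain ⟨B, hB, hBc⟩ := exists_ball S ((C + 1) * r)
    have hsub : P l ⊆ B.image (fun b => x₀ * b) := by
      intro x hx
      rw [hP] at hx
      simp only [Finset.mem_filter] at hx
      obtain ⟨_, hx⟩ := hx
      rw [Finset.mem_image]
      refine ⟨x₀⁻¹ * x, ?_, by group⟩
      rw [hB]
      -- the colour of x₀
      have hn0 : near S c ρ x₀ (c x₀) := ⟨x₀, by simpa using WL.one S ρ, rfl⟩
      have hn1 : near S c ρ x (c x₀) := by
        by_contra h
        have h1 : lab x (c x₀) = none := by rw [hlab]; simp only; rw [if_neg h]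
        have h2 : lab x₀ (c x₀) = some (kk x₀ (c x₀)) := by rw [hlab]; simp only; rw [if_pos hn0]
        rw [hx, ← hx₀l, h2] at h1
        exact absurd h1 (by simp)
      have hkeq : kk x (c x₀) = kk x₀ (c x₀) := by
        have h1 : lab x (c x₀) = some (kk x (c x₀)) := by rw [hlab]; simp only; rw [if_pos hn1]
        have h2 : lab x₀ (c x₀) = some (kk x₀ (c x₀)) := by rw [hlab]; simp only; rw [if_pos hn0]
        rw [hx, ← hx₀l, h2] at h1
        exact (Option.some.inj h1).symm
      obtain ⟨y, hy, hyc⟩ := hn1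
      rw [hkk' x _ y (hy.mono hρR.le) hyc, hkk' x₀ _ x₀ (by simpa using WL.one S R) rfl] at hkeq
      have h1 := (hck y x₀ hyc).1 hkeq
      rw [dist_le_iff hS] at h1
      have h2 := (hy.mul h1).inv
      refine WL.mono ?_ (show ρ + C * r ≤ (C + 1) * r by
        have : ρ ≤ r := by omega
        nlinarith)
      convert h2 using 1
      group
    calc (P l).card ≤ (B.image (fun b => x₀ * b)).card := Finset.card_le_card hsub
      _ ≤ B.card := Finset.card_image_le
      _ ≤ (2 * S.card + 1) ^ ((C + 1) * r) := hBc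
      _ ≤ (2 * S.card + 1) ^ ((C + 1) * (2 * q + 1) * n) := by
          apply Nat.pow_le_pow_right (by omega)
          have h5 : r ≤ (2 * q + 1) * n := by
            rw [hr, hR]
            have h6 : (2 * q + 1) * n = 2 * (q * n) + n := by ring
            omega
          have h7 : (C + 1) * (2 * q + 1) * n = (C + 1) * ((2 * q + 1) * n) := by ring
          rw [h7]
          exact Nat.mul_le_mul_left _ h5
      _ = _ := by rw [pow_mul]

end Pool.Agent.H684AN
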