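import Pool.Agent.H684AN.Met1
import Pool.Agent.H684AN.Skel
import Pool.Agent.H684AN.Irr
import Pool.Agent.H684AN.Now

set_option autoImplicit false

/-!
Lengths of elements supported near the 1-skeleton of a window.
-/

namespace Pool.Agent.H684AN

/-- an element of the subgroup generated by a finite union of sets of a commutative group -/
theorem mem_closure_biUnion {V ι : Type*} [CommGroup V] (Λ : Finset ι) (X : ι → Set V) (g : V)
    (hg : g ∈ Subgroup.closure {x | ∃ l ∈ Λ, x ∈ X l}) :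
    ∃ f : ι → V, (∀ l ∈ Λ, f l ∈ Subgroup.closure (X l)) ∧ g = ∏ l ∈ Λ, f l := by
  classical
  induction hg using Subgroup.closure_induction with
  | mem x hx =>
    obtain ⟨l, hl, hx⟩ := hx
    refine ⟨fun j => if j = l then x else 1, ?_, ?_⟩
    · intro j _
      simp only
      split_ifs with h
      · subst h; exact Subgroup.subset_closure hx
      · exact Subgroup.one_mem _
    · rw [Finset.prod_ite_eq' Λ l (fun _ => x), if_pos hl]
  | one => exact ⟨fun _ => 1, fun _ _ => Subgroup.one_mem _, by simp⟩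
  | mul x y _ _ hx hy =>
    obtain ⟨f, hf, rfl⟩ := hx
    obtain ⟨f', hf', rfl⟩ := hy
    exact ⟨fun j => f j * f' j, fun l hl => Subgroup.mul_mem _ (hf l hl) (hf' l hl),
      Finset.prod_mul_distrib.symm⟩
  | inv x _ hx =>
    obtain ⟨f, hf, rfl⟩ := hx
    exact ⟨fun j => (f j)⁻¹, fun l hl => Subgroup.inv_mem _ (hf l hl),
      (Finset.prod_inv_distrib f).symm⟩

variable {G : Type*} [Group G] {k : ℕ}

/-- the unit vector in direction `j`, or zero when `j` is out of range -/
def dv (k : ℕ) (j : ℕ) : Fin k → ℤ := fun i => if (i : ℕ) = j then 1 else 0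

theorem bdry_card (N n : ℕ) :
    (((Finset.Icc (-(n : ℤ)) n).filter (fun y => (n : ℤ) < |y| + N)) ∪ {0}).card ≤ 2 * N + 1 := by
  have hsub : (Finset.Icc (-(n : ℤ)) n).filter (fun y => (n : ℤ) < |y| + N) ⊆
      Finset.Ico (-(n : ℤ)) (-(n : ℤ) + N) ∪ Finset.Ioc ((n : ℤ) - N) n := by
    intro y hy
    rw [Finset.mem_filter, Finset.mem_Icc] at hy
    rw [Finset.mem_union, Finset.mem_Ico, Finset.mem_Ioc]
    obtain ⟨⟨h1, h2⟩, h3⟩ := hy
    rcases abs_cases y with ⟨h4, _⟩ | ⟨h4, _⟩ <;> omega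
  refine (Finset.card_union_le _ _).trans ?_
  rw [Finset.card_singleton]
  have h1 := (Finset.card_le_card hsub).trans (Finset.card_union_le _ _)
  rw [Int.card_Ico, Int.card_Ioc] at h1
  omega

section
variable {L : Subgroup G} [L.Normal] (hab : ∀ x ∈ L, ∀ y ∈ L, x * y = y * x)
  (π : G →* Multiplicative (Fin k → ℤ)) (hker : ∀ g, hk π g = 0 ↔ g ∈ L)

omit [L.Normal] in
include hab hker in
/-- conjugation on `L` depends only on the image in `ℤ ^ k` -/
theorem conj_eq (g h : G) (hgh : hk π g = hk π h) (x : G) (hx : x ∈ L) :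
    g * x * g⁻¹ = h * x * h⁻¹ := by
  have h1 : h⁻¹ * g ∈ L := by
    rw [← hker, hk_mul, hk_inv, hgh]; simp
  have h2 := hab _ h1 _ hx
  calc g * x * g⁻¹ = h * ((h⁻¹ * g) * x) * g⁻¹ := by group
    _ = h * (x * (h⁻¹ * g)) * g⁻¹ := by rw [h2]
    _ = h * x * h⁻¹ := by group

/-- conjugation by a section, as an endomorphism of `L` -/
def rho (s : (Fin k → ℤ) → G) (v : Fin k → ℤ) : L →* L :=
  (MulAut.conjNormal (s v) : L ≃* L).toMonoidHom

theorem rho_coe (s : (Fin k → ℤ) → G) (v : Fin k → ℤ) (x : L) :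
    ((rho s v x : L) : G) = s v * x * (s v)⁻¹ := by
  change ((MulAut.conjNormal (s v) x : L) : G) = _
  rw [MulAut.conjNormal_apply]

variable (s : (Fin k → ℤ) → G) (hs : ∀ v, hk π (s v) = v)

include hab hker hs in
theorem rho_eq (v : Fin k → ℤ) (x : L) (g : G) (hg : hk π g = v) :
    ((rho s v x : L) : G) = g * x * g⁻¹ := by
  rw [rho_coe]
  exact conj_eq hab π hker _ _ (by rw [hs, hg]) _ x.2

include hab hker hs in
theorem rho_add (u v : Fin k → ℤ) (x : L) : rho s (u + v) x = rho s u (rho s v x) := by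
  apply Subtype.ext
  rw [rho_eq hab π hker s hs (u + v) x (s u * s v) (by rw [hk_mul, hs, hs]), rho_coe, rho_coe]
  group

end

section
variable {L : Subgroup G} [L.Normal] (hab : ∀ x ∈ L, ∀ y ∈ L, x * y = y * x)
  (π : G →* Multiplicative (Fin k → ℤ)) (hker : ∀ g, hk π g = 0 ↔ g ∈ L)
  (s : (Fin k → ℤ) → G) (hs : ∀ v, hk π (s v) = v)
  {S : Finset G} (cs : ℕ) (hsl : ∀ (v : Fin k → ℤ) (N : ℕ), (∀ i, |v i| ≤ N) → WL S (cs * N) (s v))
  (T : ℕ → G) (hTd : ∀ j, j ≤ k → hk π (T j) = dv k j) (hTl : ∀ j, j ≤ k → WL S 1 (T j))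

/-- the products along a line -/
noncomputable def lineP (L : Subgroup G) [L.Normal] (s : (Fin k → ℤ) → G) (j : ℕ) (a : L)
    (q : ℕ → ℤ) : ℕ → L
  | 0 => 1
  | M + 1 => lineP L s j a q M * rho s ((M : ℤ) • dv k j) (a ^ q M)

include hab hker hs hTd hTl in
theorem lineP_len (j : ℕ) (hj : j ≤ k) (a : L) (q : ℕ → ℤ) (cm : ℕ)
    (hcm : ∀ z : ℤ, WL S cm ((a : G) ^ z)) (M : ℕ) :
    WL S (M * (cm + 1)) ((lineP L s j a q M : G) * T j ^ (M : ℤ)) := by
  induction M with
  | zero => simpa [lineP] using WL.one S 0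
  | succ M ih =>
    have h1 : ((rho s ((M : ℤ) • dv k j) (a ^ q M) : L) : G) =
        T j ^ (M : ℤ) * (a : G) ^ q M * (T j ^ (M : ℤ))⁻¹ := by
      rw [rho_eq hab π hker s hs _ _ (T j ^ (M : ℤ)) (by rw [hk_zpow, hTd j hj])]
      simp
    rw [lineP, Subgroup.coe_mul, h1]
    have e : ((lineP L s j a q M : L) : G) *
        (T j ^ (M : ℤ) * (a : G) ^ q M * (T j ^ (M : ℤ))⁻¹) * T j ^ ((M + 1 : ℕ) : ℤ) =
        (((lineP L s j a q M : L) : G) * T j ^ (M : ℤ)) * ((a : G) ^ q M * T j) := by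
      push_cast; group
    rw [e]
    refine (ih.mul ((hcm (q M)).mul (hTl j hj))).mono ?_
    ring_nf; omega

theorem lineP_mul (hab : ∀ x ∈ L, ∀ y ∈ L, x * y = y * x) (j : ℕ) (a : L) (q q' : ℕ → ℤ) (M : ℕ) :
    lineP L s j a (fun i => q i + q' i) M = lineP L s j a q M * lineP L s j a q' M := by
  have hab' : ∀ x y : L, x * y = y * x := fun x y => Subtype.ext (hab x x.2 y y.2)
  induction M with
  | zero => simp [lineP]
  | succ M ih =>
    rw [lineP, lineP, lineP, ih, zpow_add, map_mul]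
    rw [mul_assoc, mul_assoc, ← mul_assoc (lineP L s j a q' M),
      hab' (lineP L s j a q' M) (rho s ((M : ℤ) • dv k j) (a ^ q M))]
    simp only [mul_assoc]

theorem lineP_single (j : ℕ) (a : L) (l : ℕ) (M : ℕ) :
    lineP L s j a (fun i => if i = l then 1 else 0) M =
      if l < M then rho s ((l : ℤ) • dv k j) a else 1 := by
  induction M with
  | zero => simp [lineP]
  | succ M ih =>
    rw [lineP, ih]
    by_cases h1 : M = l
    · subst h1
      simp
    · rw [if_neg h1, zpow_zero, map_one, mul_one]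
      by_cases h2 : l < M
      · rw [if_pos h2, if_pos (by omega)]
      · rw [if_neg h2, if_neg (by omega)]

/-- generators on a line -/
def Ln (L : Subgroup G) [L.Normal] (s : (Fin k → ℤ) → G) (n : ℕ) (j : ℕ) (w : Fin k → ℤ) (a : L) :
    Set L := {x | ∃ y : ℤ, |y| ≤ n ∧ x = rho s (w + y • dv k j) a}

include hab hker hs in
theorem Ln_form (n j : ℕ) (w : Fin k → ℤ) (a : L) (x : L)
    (hx : x ∈ Subgroup.closure (Ln L s n j w a)) :
    ∃ q : ℕ → ℤ, x = rho s (w + (-(n : ℤ)) • dv k j) (lineP L s j a q (2 * n + 1)) := by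
  induction hx using Subgroup.closure_induction with
  | mem x hx =>
    obtain ⟨y, hy, rfl⟩ := hx
    rw [abs_le] at hy
    refine ⟨fun i => if i = (y + n).toNat then 1 else 0, ?_⟩
    rw [lineP_single, if_pos (by omega), ← rho_add hab π hker s hs]
    congr 2
    rw [Int.toNat_of_nonneg (by omega), add_assoc, ← add_smul]
    congr 2
    ring
  | one =>
    refine ⟨fun _ => 0, ?_⟩
    have h1 : ∀ M, lineP L s j a (fun _ => 0) M = 1 := by
      intro M
      induction M with
      | zero => rfl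
      | succ M ih => rw [lineP, ih, zpow_zero, map_one, one_mul]
    rw [h1, map_one]
  | mul x y _ _ hx hy =>
    obtain ⟨q, rfl⟩ := hx
    obtain ⟨q', rfl⟩ := hy
    exact ⟨fun i => q i + q' i, by rw [lineP_mul s hab, map_mul]⟩
  | inv x _ hx =>
    obtain ⟨q, rfl⟩ := hx
    refine ⟨fun i => - q i, ?_⟩
    rw [← map_inv]
    congr 1
    rw [inv_eq_iff_mul_eq_one, ← lineP_mul s hab]
    have h1 : ∀ M, lineP L s j a (fun i => q i + -q i) M = 1 := by
      intro M
      induction M with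
      | zero => rfl
      | succ M ih => rw [lineP, ih, add_neg_cancel, zpow_zero, map_one, one_mul]
    exact h1 _

include hab hker hs hsl hTd hTl in
theorem Ln_len (n j : ℕ) (hj : j ≤ k) (w : Fin k → ℤ) (hw : ∀ i, |w i| ≤ n) (a : L) (cm : ℕ)
    (hcm : ∀ z : ℤ, WL S cm ((a : G) ^ z)) (x : L)
    (hx : x ∈ Subgroup.closure (Ln L s n j w a)) :
    WL S ((4 * cs + 2 * (cm + 1) + 2) * (n + 1)) (x : G) := by
  obtain ⟨q, rfl⟩ := Ln_form hab π hker s hs n j w a x hx
  rw [rho_coe]
  have h1 := lineP_len hab π hker s hs T hTd hTl j hj a q cm hcm (2 * n + 1)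
  have h2 : WL S (cs * (2 * n)) (s (w + (-(n : ℤ)) • dv k j)) := by
    apply hsl
    intro i
    have h3 := hw i
    rw [Pi.add_apply, Pi.smul_apply, smul_eq_mul]
    refine (abs_add_le _ _).trans ?_
    have h4 : |(-(n : ℤ)) * dv k j i| ≤ n := by
      unfold dv
      split_ifs <;> simp
    push_cast; linarith
  have h3 : WL S (2 * n + 1) (T j ^ ((2 * n + 1 : ℕ) : ℤ)) := by
    have := (hTl j hj).zpow ((2 * n + 1 : ℕ) : ℤ)
    rwa [Int.natAbs_natCast, mul_one] at this
  have e : ((lineP L s j a q (2 * n + 1) : L) : G) =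
      (((lineP L s j a q (2 * n + 1) : L) : G) * T j ^ ((2 * n + 1 : ℕ) : ℤ)) *
        (T j ^ ((2 * n + 1 : ℕ) : ℤ))⁻¹ := by group
  rw [e]
  refine ((h2.mul (h1.mul h3.inv)).mul h2.inv).mono ?_
  nlinarith

include hab hker hs hsl hTd hTl in
theorem Sx_len (n N : ℕ) (A : Finset L) (cm : ℕ)
    (hcm : ∀ a ∈ A, ∀ z : ℤ, WL S cm ((a : G) ^ z)) (x : L)
    (hx : x ∈ Subgroup.closure (Sx (rho (L := L) s) (A : Set L) N n)) :
    WL S (((k + 1) * (2 * N + 1) ^ k * A.card) * ((4 * cs + 2 * (cm + 1) + 2) * (n + 1)))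
      (x : G) := by
  classical
  let _ : CommGroup L := { (inferInstance : Group L) with
    mul_comm := fun x y => Subtype.ext (hab x x.2 y y.2) }
  set U : Finset ℤ := ((Finset.Icc (-(n : ℤ)) n).filter (fun y => (n : ℤ) < |y| + N)) ∪ {0} with hU
  set Wf : Finset (Fin k → ℤ) := Fintype.piFinset (fun _ => U) with hWf
  set Λ : Finset ((ℕ × (Fin k → ℤ)) × L) := (Finset.range (k + 1) ×ˢ Wf) ×ˢ A with hΛ
  have hU0 : ∀ y ∈ U, |y| ≤ n := by
    intro y hy
    rw [hU, Finset.mem_union, Finset.mem_filter, Finset.mem_Icc, Finset.mem_singleton] at hy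
    rcases hy with hy | rfl
    · rw [abs_le]; exact hy.1
    · simp
  have hsub : Sx (rho (L := L) s) (A : Set L) N n ⊆
      {x | ∃ l ∈ Λ, x ∈ Ln L s n l.1.1 l.1.2 l.2} := by
    rintro x ⟨v, hv, hsk, a, ha, rfl⟩
    by_cases hint : ∃ i₀ : Fin k, |v i₀| + N ≤ n
    · obtain ⟨i₀, hi₀⟩ := hint
      refine ⟨(((i₀ : ℕ), Function.update v i₀ 0), a), ?_, v i₀, hv i₀, ?_⟩
      · rw [hΛ, Finset.mem_product, Finset.mem_product, Finset.mem_range]
        refine ⟨⟨by have := i₀.2; simp only; omega, ?_⟩, ha⟩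
        rw [hWf, Fintype.mem_piFinset]
        intro i
        by_cases h1 : i = i₀
        · subst h1
          simp only [Function.update_self]
          rw [hU]; exact Finset.mem_union_right _ (Finset.mem_singleton_self 0)
        · simp only [Function.update_of_ne h1]
          rw [hU, Finset.mem_union, Finset.mem_filter, Finset.mem_Icc]
          left
          refine ⟨abs_le.1 (hv i), ?_⟩
          have := hsk i₀ i (Ne.symm h1)
          by_contra h3
          exact this ⟨hi₀, not_lt.1 h3⟩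
      · simp only
        congr 2
        funext i
        rw [Pi.add_apply, Pi.smul_apply, dv, smul_eq_mul]
        by_cases h1 : i = i₀
        · subst h1
          rw [Function.update_self, if_pos rfl]; ring
        · rw [Function.update_of_ne h1, if_neg (fun h => h1 (Fin.ext h))]; ring
    · push Not at hint
      refine ⟨((k, v), a), ?_, 0, by simp, ?_⟩
      · rw [hΛ, Finset.mem_product, Finset.mem_product, Finset.mem_range]
        refine ⟨⟨by simp only; omega, ?_⟩, ha⟩
        rw [hWf, Fintype.mem_piFinset]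
        intro i
        simp only
        rw [hU, Finset.mem_union, Finset.mem_filter, Finset.mem_Icc]
        left
        exact ⟨abs_le.1 (hv i), hint i⟩
      · simp
  have hx' := Subgroup.closure_mono hsub hx
  obtain ⟨f, hf, rfl⟩ := mem_closure_biUnion Λ _ x hx'
  have hlen : ∀ l ∈ Λ, WL S ((4 * cs + 2 * (cm + 1) + 2) * (n + 1)) ((f l : L) : G) := by
    intro l hl
    have hl' := hl
    rw [hΛ, Finset.mem_product, Finset.mem_product, Finset.mem_range] at hl'
    refine Ln_len hab π hker s hs cs hsl T hTd hTl n l.1.1 (by omega) l.1.2 ?_ l.2 cm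
      (hcm l.2 hl'.2) _ (hf l hl)
    intro i
    have := hl'.1.2
    rw [hWf, Fintype.mem_piFinset] at this
    exact hU0 _ (this i)
  have hprod : ∀ X : Finset ((ℕ × (Fin k → ℤ)) × L), X ⊆ Λ →
      WL S (X.card * ((4 * cs + 2 * (cm + 1) + 2) * (n + 1))) ((∏ l ∈ X, f l : L) : G) := by
    intro X
    induction X using Finset.induction_on with
    | empty => intro _; simpa using WL.one S 0
    | insert a X ha ih =>
      intro hX
      rw [Finset.prod_insert ha, Finset.card_insert_of_notMem ha]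
      have h1 := hlen a (hX (Finset.mem_insert_self a X))
      have h2 := ih (fun y hy => hX (Finset.mem_insert_of_mem hy))
      have h3 := h1.mul h2
      refine WL.mono h3 ?_
      ring_nf; omega
  refine (hprod Λ subset_rfl).mono ?_
  refine Nat.mul_le_mul_right _ ?_
  rw [hΛ, Finset.card_product, Finset.card_product, Finset.card_range]
  refine Nat.mul_le_mul_right _ (Nat.mul_le_mul_left _ ?_)
  rw [hWf, Fintype.card_piFinset, Finset.prod_const, Finset.card_univ, Fintype.card_fin]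
  exact Nat.pow_le_pow_left (bdry_card N n) _

end

end Pool.Agent.H684AN
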