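import Pool.Agent.H684AN.Cen1
import Pool.Agent.H684AN.Cen2
import Pool.Agent.H684AN.Met2

set_option autoImplicit false

/-!
Window subgroups when `[L, L]` is central: lengths of elements modulo commutators.
-/

open scoped commutatorElement

namespace Pool.Agent.H684AN

section
variable {G : Type*} [Group G]

open Classical in
/-- the class of an element of `W` in the abelianization of `W` -/
noncomputable def cls (W : Subgroup G) (g : G) : Abelianization W :=
  if h : g ∈ W then Abelianization.of ⟨g, h⟩ else 1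

variable (W : Subgroup G)

theorem cls_mem {g : G} (h : g ∈ W) : cls W g = Abelianization.of ⟨g, h⟩ := by
  rw [cls, dif_pos h]

theorem cls_one : cls W 1 = 1 := by
  rw [cls_mem W W.one_mem]
  exact map_one _

theorem cls_mul {g h : G} (hg : g ∈ W) (hh : h ∈ W) : cls W (g * h) = cls W g * cls W h := by
  rw [cls_mem W hg, cls_mem W hh, cls_mem W (W.mul_mem hg hh), ← map_mul]
  rfl

theorem cls_inv {g : G} (hg : g ∈ W) : cls W g⁻¹ = (cls W g)⁻¹ := by
  rw [cls_mem W hg, cls_mem W (W.inv_mem hg), ← map_inv]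
  rfl

theorem cls_zpow {g : G} (hg : g ∈ W) (n : ℤ) : cls W (g ^ n) = (cls W g) ^ n := by
  rw [cls_mem W hg, cls_mem W (W.zpow_mem hg n), ← map_zpow]
  rfl

theorem cls_conj {g c : G} (hg : g ∈ W) (hc : c ∈ W) : cls W (c * g * c⁻¹) = cls W g := by
  rw [cls_mul W (W.mul_mem hc hg) (W.inv_mem hc), cls_mul W hc hg, cls_inv W hc]
  rw [mul_comm (cls W c), mul_assoc, mul_inv_cancel, mul_one]

theorem cls_list {ι : Type*} (l : List ι) (x : ι → G) (hx : ∀ i ∈ l, x i ∈ W) :
    (l.map x).prod ∈ W ∧ cls W (l.map x).prod = (l.map (fun i => cls W (x i))).prod := by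
  induction l with
  | nil => simp [cls_one]
  | cons a l ih =>
    obtain ⟨h1, h2⟩ := ih (fun i hi => hx i (List.mem_cons_of_mem _ hi))
    have h3 := hx a List.mem_cons_self
    simp only [List.map_cons, List.prod_cons]
    exact ⟨W.mul_mem h3 h1, by rw [cls_mul W h3 h1, h2]⟩

/-- two elements with the same class differ by an element of the commutator subgroup -/
theorem cls_eq {g h : G} (hg : g ∈ W) (hh : h ∈ W) (he : cls W g = cls W h) :
    ∃ d ∈ commutator W, g = h * (d : G) := by
  rw [cls_mem W hg, cls_mem W hh] at he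
  have h1 := QuotientGroup.eq.1 he.symm
  exact ⟨_, h1, by simp⟩

end

section
variable {G : Type*} [Group G] {k : ℕ} {L : Subgroup G}
  (hcen : ∀ x ∈ L, ∀ y ∈ L, ⁅x, y⁆ ∈ Subgroup.center G)

include hcen in
theorem comm_mul_right {x y z : G} (hx : x ∈ L) (hz : z ∈ L) :
    ⁅x, y * z⁆ = ⁅x, y⁆ * ⁅x, z⁆ := by
  have h := (Subgroup.mem_center_iff.1 (hcen x hx z hz)) y
  have e1 : ⁅x, y * z⁆ = ⁅x, y⁆ * (y * ⁅x, z⁆ * y⁻¹) := by
    simp only [commutatorElement_def]; group
  rw [e1, h]; group

include hcen in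
theorem comm_mul_left {x y z : G} (hy : y ∈ L) (hz : z ∈ L) :
    ⁅x * y, z⁆ = ⁅x, z⁆ * ⁅y, z⁆ := by
  have h := (Subgroup.mem_center_iff.1 (hcen y hy z hz)) x
  have h2 := (Subgroup.mem_center_iff.1 (hcen y hy z hz)) ⁅x, z⁆
  have e1 : ⁅x * y, z⁆ = (x * ⁅y, z⁆ * x⁻¹) * ⁅x, z⁆ := by
    simp only [commutatorElement_def]; group
  rw [e1, h]
  rw [mul_inv_cancel_right, h2]

include hcen in
theorem comm_inv_right {x y : G} (hx : x ∈ L) (hy : y ∈ L) : ⁅x, y⁻¹⁆ = ⁅x, y⁆⁻¹ := by
  have h := comm_mul_right hcen (y := y) hx (L.inv_mem hy)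
  rw [mul_inv_cancel, commutatorElement_one_right] at h
  rw [eq_comm, inv_eq_iff_mul_eq_one]
  exact h.symm

include hcen in
theorem comm_inv_left {x y : G} (hx : x ∈ L) (hy : y ∈ L) : ⁅x⁻¹, y⁆ = ⁅x, y⁆⁻¹ := by
  have h := comm_mul_left hcen (x := x) (L.inv_mem hx) hy
  rw [mul_inv_cancel, commutatorElement_one_left] at h
  rw [eq_comm, inv_eq_iff_mul_eq_one]
  exact h.symm

/-- products of commutators `[a, y a]` with `a` in a finite set and `y a` in `W` -/
def Eset (A : Finset G) (W : Subgroup G) : Set G :=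
  {z | ∃ y : G → G, (∀ a, y a ∈ W) ∧ z = (A.toList.map (fun a => ⁅a, y a⁆)).prod}

include hcen in
theorem list_comm_mul (l : List G) (hl : ∀ a ∈ l, a ∈ L) (y y' : G → G)
    (hy' : ∀ a, y' a ∈ L) :
    (l.map (fun a => ⁅a, y a * y' a⁆)).prod =
      (l.map (fun a => ⁅a, y a⁆)).prod * (l.map (fun a => ⁅a, y' a⁆)).prod := by
  induction l with
  | nil => simp
  | cons a l ih =>
    simp only [List.map_cons, List.prod_cons]
    rw [ih (fun b hb => hl b (List.mem_cons_of_mem _ hb)),
      comm_mul_right hcen (hl a List.mem_cons_self) (hy' a)]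
    have h2 := (Subgroup.mem_center_iff.1 (hcen a (hl a List.mem_cons_self) _ (hy' a)))
      (l.map (fun a => ⁅a, y a⁆)).prod
    calc _ = ⁅a, y a⁆ * (⁅a, y' a⁆ * (l.map (fun a => ⁅a, y a⁆)).prod) *
          (l.map (fun a => ⁅a, y' a⁆)).prod := by group
      _ = _ := by rw [← h2]; group

theorem list_comm_one (l : List G) : (l.map (fun a : G => ⁅a, (1 : G)⁆)).prod = 1 := by
  induction l with
  | nil => simp
  | cons a l ih => simp

omit hcen in
theorem Eset_one (A : Finset G) (W : Subgroup G) : (1 : G) ∈ Eset A W :=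
  ⟨fun _ => 1, fun _ => W.one_mem, (list_comm_one _).symm⟩

include hcen in
theorem Eset_mul (A : Finset G) (hA : ∀ a ∈ A, a ∈ L) (W : Subgroup G) (hW : W ≤ L) {z z' : G}
    (hz : z ∈ Eset A W) (hz' : z' ∈ Eset A W) : z * z' ∈ Eset A W := by
  obtain ⟨y, hy, rfl⟩ := hz
  obtain ⟨y', hy', rfl⟩ := hz'
  refine ⟨fun a => y a * y' a, fun a => W.mul_mem (hy a) (hy' a), ?_⟩
  rw [list_comm_mul hcen _ (fun a ha => hA a (Finset.mem_toList.1 ha)) y y'
    (fun a => hW (hy' a))]

include hcen in
theorem Eset_inv (A : Finset G) (hA : ∀ a ∈ A, a ∈ L) (W : Subgroup G) (hW : W ≤ L) {z : G}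
    (hz : z ∈ Eset A W) : z⁻¹ ∈ Eset A W := by
  obtain ⟨y, hy, rfl⟩ := hz
  refine ⟨fun a => (y a)⁻¹, fun a => W.inv_mem (hy a), ?_⟩
  rw [inv_eq_iff_mul_eq_one]
  have h := list_comm_mul hcen A.toList (fun a ha => hA a (Finset.mem_toList.1 ha)) y
    (fun a => (y a)⁻¹) (fun a => L.inv_mem (hW (hy a)))
  rw [← h]
  simp only [mul_inv_cancel]
  exact list_comm_one _

omit hcen in
theorem Eset_single (A : Finset G) (W : Subgroup G) (a : G) (ha : a ∈ A) (y : G) (hy : y ∈ W) :
    ⁅a, y⁆ ∈ Eset A W := by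
  classical
  refine ⟨fun b => if b = a then y else 1, fun b => ?_, ?_⟩
  · simp only
    split_ifs
    · exact hy
    · exact W.one_mem
  · have key : ∀ l : List G, l.Nodup → (l.map (fun b => ⁅b, if b = a then y else 1⁆)).prod =
        if a ∈ l then ⁅a, y⁆ else 1 := by
      intro l
      induction l with
      | nil => simp
      | cons b l ih =>
        intro hnd
        rw [List.nodup_cons] at hnd
        simp only [List.map_cons, List.prod_cons]
        rw [ih hnd.2]
        by_cases hb : b = a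
        · subst hb
          rw [if_pos rfl, if_neg hnd.1, if_pos List.mem_cons_self, mul_one]
        · rw [if_neg hb, commutatorElement_one_right, one_mul]
          by_cases hal : a ∈ l
          · rw [if_pos hal, if_pos (List.mem_cons_of_mem _ hal)]
          · rw [if_neg hal, if_neg (by
              rw [List.mem_cons, not_or]; exact ⟨fun h => hb h.symm, hal⟩)]
    rw [key _ A.nodup_toList, if_pos (Finset.mem_toList.2 ha)]

include hcen in
theorem Eset_len (A : Finset G) (hA : ∀ a ∈ A, a ∈ L) (W : Subgroup G) (hW : W ≤ L)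
    (S : Finset G) (cA B : ℕ)
    (hcA : ∀ a ∈ A, WL S cA a)
    (hy : ∀ y ∈ W, ∃ y' ∈ L, WL S B y' ∧ ∃ z ∈ Subgroup.center G, y = y' * z)
    {z : G} (hz : z ∈ Eset A W) : WL S (A.card * (2 * (cA + B))) z := by
  obtain ⟨y, hyW, rfl⟩ := hz
  have h1 : ∀ a ∈ A, WL S (2 * (cA + B)) ⁅a, y a⁆ := by
    intro a ha
    obtain ⟨y', hy', hl, z, hz, he⟩ := hy (y a) (hyW a)
    have hzL : z ∈ L := by
      have : z = y'⁻¹ * y a := by rw [he]; group
      rw [this]; exact L.mul_mem (L.inv_mem hy') (hW (hyW a))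
    have h2 : ⁅a, y a⁆ = ⁅a, y'⁆ := by
      rw [he, comm_mul_right hcen (hA a ha) hzL]
      have h3 : ⁅a, z⁆ = 1 := by
        rw [commutatorElement_eq_one_iff_mul_comm]
        exact (Subgroup.mem_center_iff.1 hz a)
      rw [h3, mul_one]
    rw [h2, commutatorElement_def]
    refine ((((hcA a ha).mul hl).mul (hcA a ha).inv).mul hl.inv).mono ?_
    omega
  have h2 : ∀ l : List G, (∀ a ∈ l, a ∈ A) →
      WL S (l.length * (2 * (cA + B))) (l.map (fun a => ⁅a, y a⁆)).prod := by
    intro l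
    induction l with
    | nil => intro _; simpa using WL.one S 0
    | cons a l ih =>
      intro hl
      simp only [List.map_cons, List.prod_cons, List.length_cons]
      refine ((h1 a (hl a List.mem_cons_self)).mul
        (ih (fun b hb => hl b (List.mem_cons_of_mem _ hb)))).mono ?_
      ring_nf; omega
  have h3 := h2 A.toList (fun a ha => Finset.mem_toList.1 ha)
  rwa [Finset.length_toList] at h3

/-- the commutator subgroup of a subgroup generated by a set consists of elements of `Eset` -/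
theorem comm_Eset (hcen : ∀ x ∈ L, ∀ y ∈ L, ⁅x, y⁆ ∈ Subgroup.center G)
    (A : Finset G) (hA : ∀ a ∈ A, a ∈ L) (X : Set G)
    (W' : Subgroup G) (hW' : W' ≤ L) (hX : ∀ x ∈ X, x ∈ L)
    (hgen : ∀ x ∈ X, ∀ y ∈ X, ⁅x, y⁆ ∈ Eset A W') (d : Subgroup.closure X)
    (hd : d ∈ commutator (Subgroup.closure X)) : (d : G) ∈ Eset A W' := by
  have hcl : Subgroup.closure X ≤ L := by rw [Subgroup.closure_le]; exact hX
  have h1 : ∀ x ∈ X, ∀ y ∈ Subgroup.closure X, ⁅x, y⁆ ∈ Eset A W' := by
    intro x hx y hy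
    induction hy using Subgroup.closure_induction with
    | mem y hy => exact hgen x hx y hy
    | one => rw [commutatorElement_one_right]; exact Eset_one A W'
    | mul y z hy' hz' hy hz =>
      rw [comm_mul_right hcen (hX x hx) (hcl hz')]
      exact Eset_mul hcen A hA W' hW' hy hz
    | inv y hy' hy =>
      rw [comm_inv_right hcen (hX x hx) (hcl hy')]
      exact Eset_inv hcen A hA W' hW' hy
  have h2 : ∀ x ∈ Subgroup.closure X, ∀ y ∈ Subgroup.closure X, ⁅x, y⁆ ∈ Eset A W' := by
    intro x hx y hyc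
    induction hx using Subgroup.closure_induction with
    | mem x hx => exact h1 x hx y hyc
    | one => rw [commutatorElement_one_left]; exact Eset_one A W'
    | mul x z hx' hz' hx hz =>
      rw [comm_mul_left hcen (hcl hz') (hcl hyc)]
      exact Eset_mul hcen A hA W' hW' hx hz
    | inv x hx' hx =>
      rw [comm_inv_left hcen (hcl hx') (hcl hyc)]
      exact Eset_inv hcen A hA W' hW' hx
  rw [commutator_eq_closure] at hd
  induction hd using Subgroup.closure_induction with
  | mem x hx =>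
    obtain ⟨a, b, rfl⟩ := hx
    exact h2 a a.2 b b.2
  | one => exact Eset_one A W'
  | mul x y _ _ hx hy => exact Eset_mul hcen A hA W' hW' hx hy
  | inv x _ hx => exact Eset_inv hcen A hA W' hW' hx

end

end Pool.Agent.H684AN
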