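import Pool.Agent.H684AN.Met2

set_option autoImplicit false

/-!
For finitely generated extensions of a torsion abelian group by a free abelian group of finite rank,
the Folner function is at most exponential if and only if the Assouad-Nagata dimension is finite.
-/

namespace Pool.Agent.H684AN

variable {G : Type*} [Group G] {k : ℕ}

/-- extension of a vector by zero -/
def ext0 (v : Fin k → ℤ) (j : ℕ) : ℤ := if h : j < k then v ⟨j, h⟩ else 0

theorem main_Met (S : Finset G) (hS : Subgroup.closure (S : Set G) = ⊤) (L : Subgroup G)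
    [L.Normal] (hab : ∀ x ∈ L, ∀ y ∈ L, x * y = y * x) (htor : ∀ x ∈ L, IsOfFinOrder x)
    (hq : Nonempty ((G ⧸ L) ≃* Multiplicative (Fin k → ℤ))) :
    FolExp S ↔ ∃ d, ANLE S d := by
  classical
  obtain ⟨e⟩ := hq
  set π : G →* Multiplicative (Fin k → ℤ) := e.toMonoidHom.comp (QuotientGroup.mk' L) with hπ
  have hker : ∀ g, hk π g = 0 ↔ g ∈ L := by
    intro g
    have h1 : π g = 1 ↔ g ∈ L := by
      rw [hπ]
      simp only [MonoidHom.comp_apply, MulEquiv.toMonoidHom_eq_coe, MonoidHom.coe_coe,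
        QuotientGroup.mk'_apply]
      rw [map_eq_one_iff e e.injective, QuotientGroup.eq_one_iff]
    rw [← h1, hk]
    exact Iff.rfl
  have hsurj : ∀ v : Fin k → ℤ, ∃ g : G, hk π g = v := by
    intro v
    obtain ⟨q, hq⟩ := e.surjective (Multiplicative.ofAdd v)
    obtain ⟨g, rfl⟩ := QuotientGroup.mk'_surjective L q
    exact ⟨g, by rw [hk, hπ]; simp only [MonoidHom.comp_apply]; exact congrArg Multiplicative.toAdd hq⟩
  choose τ hτ using hsurj
  set T : ℕ → G := fun j => if j < k then τ (dv k j) else 1 with hTdef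
  have hTd : ∀ j, j ≤ k → hk π (T j) = dv k j := by
    intro j hj
    rw [hTdef]
    simp only
    split_ifs with h
    · exact hτ _
    · rw [hk_one]
      funext i
      have := i.2
      rw [dv, if_neg (by omega)]; rfl
  have hT : ∀ j, j < k → ∀ i, hn π (T j) i = if i = j then 1 else 0 := by
    intro j hj i
    rw [hn, hTd j hj.le]
    unfold dv
    by_cases hi : i < k
    · rw [dif_pos hi]
    · rw [dif_neg hi, if_neg (by omega)]
  set s : (Fin k → ℤ) → G := fun v => sec T (ext0 v) k with hsdef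
  have hs : ∀ v, hk π (s v) = v := by
    intro v
    funext i
    have h1 := hn_sec π T hT (ext0 v) k le_rfl i
    rw [if_pos i.2, hn, dif_pos i.2, ext0, dif_pos i.2] at h1
    exact h1
  have hext : ∀ g, ext0 (hk π g) = hn π g := fun g => rfl
  set S1 : Finset G := S.image (fun x => x * (s (hk π x))⁻¹) with hS1
  set S' : Finset G := S1 ∪ (Finset.range k).image T with hS'def
  set com : Finset G := ((Finset.range k ×ˢ Finset.range k) ×ˢ
    (({1, -1} : Finset ℤ) ×ˢ ({1, -1} : Finset ℤ))).image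
      (fun p => T p.1.1 ^ p.2.1 * T p.1.2 ^ p.2.2 * (T p.1.1 ^ p.2.1)⁻¹ * (T p.1.2 ^ p.2.2)⁻¹)
    with hcomdef
  set A : Finset G := S1 ∪ com with hAdef
  have hTS : ∀ j, j < k → T j ∈ S' := by
    intro j hj
    rw [hS'def]
    exact Finset.mem_union_right _ (Finset.mem_image_of_mem _ (Finset.mem_range.2 hj))
  have hTl : ∀ j, j ≤ k → WL S' 1 (T j) := by
    intro j hj
    by_cases h : j < k
    · exact WL.of_mem (hTS j h)
    · have : T j = 1 := by rw [hTdef]; simp only; rw [if_neg h]
      rw [this]; exact WL.one _ _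
  have hAL : ∀ a ∈ A, a ∈ L := by
    intro a ha
    rw [hAdef, Finset.mem_union] at ha
    rcases ha with ha | ha
    · rw [hS1, Finset.mem_image] at ha
      obtain ⟨x, _, rfl⟩ := ha
      rw [← hker, hk_mul, hk_inv, hs]; simp
    · rw [hcomdef, Finset.mem_image] at ha
      obtain ⟨p, _, rfl⟩ := ha
      rw [← hker]
      simp only [hk_mul, hk_inv]
      abel
  have hA : ∀ a ∈ (A : Set G), ∀ i, hn π a i = 0 := by
    intro a ha i
    have := (hker a).2 (hAL a ha)
    rw [hn, this]; simp
  have hcom : ∀ i j, i < k → j < k → ∀ ε δ : ℤ, (ε = 1 ∨ ε = -1) → (δ = 1 ∨ δ = -1) →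
      T i ^ ε * T j ^ δ * (T i ^ ε)⁻¹ * (T j ^ δ)⁻¹ ∈ (A : Set G) := by
    intro i j hi hj ε δ hε hδ
    rw [Finset.mem_coe, hAdef, Finset.mem_union]
    right
    rw [hcomdef, Finset.mem_image]
    refine ⟨((i, j), (ε, δ)), ?_, rfl⟩
    simp only [Finset.mem_product, Finset.mem_range, Finset.mem_insert, Finset.mem_singleton]
    exact ⟨⟨hi, hj⟩, hε, hδ⟩
  have hSA : ∀ x ∈ S', x ∈ (A : Set G) ∨ ∃ i, i < k ∧ x = T i := by
    intro x hx
    rw [hS'def, Finset.mem_union] at hx
    rcases hx with hx | hx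
    · left; rw [Finset.mem_coe, hAdef]; exact Finset.mem_union_left _ hx
    · right
      rw [Finset.mem_image] at hx
      obtain ⟨i, hi, rfl⟩ := hx
      exact ⟨i, Finset.mem_range.1 hi, rfl⟩
  have hm : ∀ x ∈ S', ∀ i, |hk π x i| ≤ 1 := by
    intro x hx i
    rcases hSA x hx with h | ⟨j, hj, rfl⟩
    · rw [(hker x).2 (hAL x h)]; simp
    · rw [hTd j hj.le, dv]; split_ifs <;> simp
  -- the section lies in the group generated by `S'`
  have hsecmem : ∀ (v : ℕ → ℤ) (j : ℕ), j ≤ k → sec T v j ∈ Subgroup.closure (S' : Set G) := by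
    intro v j
    induction j with
    | zero => intro _; exact Subgroup.one_mem _
    | succ j ih =>
      intro hj
      rw [sec]
      exact Subgroup.mul_mem _ (ih (by omega))
        (Subgroup.zpow_mem _ (Subgroup.subset_closure (hTS j (by omega))) _)
  have hS' : Subgroup.closure (S' : Set G) = ⊤ := by
    rw [eq_top_iff, ← hS, Subgroup.closure_le]
    intro x hx
    have h1 : x = (x * (s (hk π x))⁻¹) * s (hk π x) := by group
    rw [SetLike.mem_coe, h1]
    refine Subgroup.mul_mem _ (Subgroup.subset_closure ?_) (hsecmem _ k le_rfl)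
    rw [Finset.mem_coe, hS'def, hS1]
    exact Finset.mem_union_left _ (Finset.mem_image_of_mem _ hx)
  have hsl : ∀ (v : Fin k → ℤ) (N : ℕ), (∀ i, |v i| ≤ N) → WL S' (k * N) (s v) := by
    intro v N hv
    refine sec_len T S' N (ext0 v) k (fun i hi => hTl i hi.le) (fun i hi => ?_)
    rw [ext0, dif_pos hi]; exact hv _
  -- exponent and lengths
  obtain ⟨m, hm1, hmA⟩ : ∃ m : ℕ, 1 ≤ m ∧ ∀ a ∈ A, a ^ m = 1 := by
    refine ⟨∏ a ∈ A, orderOf a, Finset.prod_pos (fun a ha => (htor a (hAL a ha)).orderOf_pos),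
      fun a ha => ?_⟩
    obtain ⟨c, hc⟩ := Finset.dvd_prod_of_mem (fun a : G => orderOf a) ha
    rw [hc, pow_mul, pow_orderOf_eq_one, one_pow]
  obtain ⟨cA, hcA1, hcA⟩ := exists_len S' A hS'
  have hcm : ∀ a ∈ A, ∀ z : ℤ, WL S' (m * cA) (a ^ z) := by
    intro a ha z
    have h0 : (0 : ℤ) < m := by omega
    have h1 := Int.emod_nonneg z h0.ne'
    have h2 := Int.emod_lt_of_pos z h0
    have h3 : a ^ z = a ^ (z % m).toNat := by
      rw [← zpow_natCast, Int.toNat_of_nonneg h1]
      conv_lhs => rw [← Int.emod_add_mul_ediv z m, zpow_add, zpow_mul, zpow_natCast, hmA a ha,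
        one_zpow, mul_one]
    rw [h3]
    refine ((hcA a ha).pow _).mono (Nat.mul_le_mul_right _ ?_)
    omega
  set box : ℕ → Finset (Fin k → ℤ) := fun n =>
    Fintype.piFinset (fun _ : Fin k => Finset.Icc (-(n : ℤ)) n) with hbox
  have hboxm : ∀ n v, v ∈ box n ↔ ∀ i, |v i| ≤ n := by
    intro n v
    rw [hbox]
    simp only [Fintype.mem_piFinset, Finset.mem_Icc, abs_le]
  set Afin : ℕ → Finset G := fun n => (box n ×ˢ A).image (fun p => s p.1 * p.2 * (s p.1)⁻¹)
    with hAfin
  have hAfinL : ∀ n, ∀ x ∈ Afin n, x ∈ L := by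
    intro n x hx
    rw [hAfin, Finset.mem_image] at hx
    obtain ⟨p, hp, rfl⟩ := hx
    rw [Finset.mem_product] at hp
    exact Subgroup.Normal.conj_mem inferInstance _ (hAL _ hp.2) _
  have hAfinc : ∀ n, ∀ x ∈ Afin n, ∀ y ∈ Afin n, x * y = y * x :=
    fun n x hx y hy => hab x (hAfinL n x hx) y (hAfinL n y hy)
  have hAfinm : ∀ n, ∀ x ∈ Afin n, x ^ m = 1 := by
    intro n x hx
    rw [hAfin, Finset.mem_image] at hx
    obtain ⟨p, hp, rfl⟩ := hx
    rw [Finset.mem_product] at hp
    rw [conj_pow, hmA _ hp.2]; simp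
  have hAfinl : ∀ n, ∀ x ∈ Afin n, WL S' ((2 * k + cA) * (n + 1)) x := by
    intro n x hx
    rw [hAfin, Finset.mem_image] at hx
    obtain ⟨p, hp, rfl⟩ := hx
    rw [Finset.mem_product, hboxm] at hp
    have h1 := hsl p.1 n hp.1
    refine ((h1.mul (hcA _ hp.2)).mul h1.inv).mono ?_
    nlinarith
  have hWA : ∀ n, WinH π (A : Set G) n = Subgroup.closure (Afin n : Set G) := by
    intro n
    apply le_antisymm
    · rw [WinH, Subgroup.closure_le]
      rintro g ⟨w, hw, a, ha, rfl⟩
      apply Subgroup.subset_closure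
      rw [Finset.mem_coe, hAfin, Finset.mem_image]
      refine ⟨(hk π w, a), ?_, ?_⟩
      · rw [Finset.mem_product, hboxm]
        refine ⟨fun i => ?_, ha⟩
        have := hw i
        rwa [hn, dif_pos i.2] at this
      · exact conj_eq hab π hker _ _ (hs _) a (hAL a ha)
    · rw [Subgroup.closure_le]
      intro x hx
      rw [Finset.mem_coe, hAfin, Finset.mem_image] at hx
      obtain ⟨p, hp, rfl⟩ := hx
      rw [Finset.mem_product, hboxm] at hp
      refine WinH_mem π _ n _ (fun i => ?_) _ hp.2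
      rw [hn]
      split_ifs with h
      · rw [hs]; exact hp.1 _
      · simp
  have hH1 : ∀ (n : ℕ) (g : G), WL S' n g → hk π g = 0 → g ∈ WinH π (A : Set G) n := by
    intro n g hg h0
    have h1 := (ball_sub π T hT (A : Set G) hcom S' hSA hA n g hg).2
    rw [sec_zero T _ k (fun i _ => by rw [hn, h0]; simp)] at h1
    simpa using h1
  have hkerW : ∀ (n : ℕ) (g : G), g ∈ WinH π (A : Set G) n → hk π g = 0 := by
    intro n g hg
    rw [hker]
    have h1 : WinH π (A : Set G) n ≤ L := by
      rw [hWA, Subgroup.closure_le]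
      exact fun x hx => hAfinL n x hx
    exact h1 hg
  constructor
  · intro hF
    have hF' : FolExp S' := hF.change hS
    obtain ⟨K, hK⟩ := fol_card S' hF' m hm1 (2 * k + cA)
    -- the abelian group `L`
    let _ : CommGroup L := { (inferInstance : Group L) with
      mul_comm := fun x y => Subtype.ext (hab x x.2 y y.2) }
    set AL : Finset L := A.subtype (fun x => x ∈ L) with hALdef
    have hALm : ∀ a : L, a ∈ AL ↔ (a : G) ∈ A := by
      intro a; rw [hALdef, Finset.mem_subtype]
    set N : ℕ := 2 * K + 2 with hN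
    have hNK : K ^ (N + 1) < 2 ^ (N * N) := by
      calc K ^ (N + 1) ≤ (2 ^ K) ^ (N + 1) := Nat.pow_le_pow_left Nat.lt_two_pow_self.le _
        _ = 2 ^ (K * (N + 1)) := by rw [← pow_mul]
        _ < 2 ^ (N * N) := Nat.pow_lt_pow_right (by norm_num) (by rw [hN]; nlinarith)
    obtain ⟨B, hB, hBc⟩ := hK N (Afin N) (hAfinc N) (hAfinm N) (hAfinl N)
    set BL : Finset L := B.subtype (fun x => x ∈ L) with hBL
    have hBLc : BL.card ≤ K ^ (N + 1) := by
      rw [hBL, Finset.card_subtype]
      exact (Finset.card_filter_le _ _).trans hBc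
    have hBLm : ∀ g ∈ Subgroup.closure (Bx (rho (L := L) s) (AL : Set L) N), g ∈ BL := by
      intro g hg
      rw [hBL, Finset.mem_subtype, hB]
      induction hg using Subgroup.closure_induction with
      | mem x hx =>
        obtain ⟨v, hv, a, ha, rfl⟩ := hx
        apply Subgroup.subset_closure
        rw [Finset.mem_coe, hAfin, Finset.mem_image]
        refine ⟨(v, (a : G)), ?_, (rho_coe s v a).symm⟩
        rw [Finset.mem_product, hboxm]
        exact ⟨hv, (hALm a).1 ha⟩
      | one => exact Subgroup.one_mem _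
      | mul x y _ _ hx hy => exact Subgroup.mul_mem _ hx hy
      | inv x _ hx => exact Subgroup.inv_mem _ hx
    have hskel := skel (rho (L := L) s) (rho_add hab π hker s hs) (AL : Set L) N (by omega)
      (K ^ (N + 1)) hNK BL hBLm hBLc
    have hWB : ∀ n g, g ∈ WinH π (A : Set G) n →
        ∃ x ∈ Subgroup.closure (Bx (rho (L := L) s) (AL : Set L) n), g = x := by
      intro n g hg
      rw [WinH] at hg
      induction hg using Subgroup.closure_induction with
      | mem x hx =>
        obtain ⟨w, hw, a, ha, rfl⟩ := hx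
        refine ⟨rho s (hk π w) ⟨a, hAL a ha⟩, Subgroup.subset_closure
          ⟨hk π w, fun i => ?_, ⟨a, hAL a ha⟩, (hALm _).2 ha, rfl⟩, ?_⟩
        · have := hw i
          rwa [hn, dif_pos i.2] at this
        · rw [rho_eq hab π hker s hs _ _ w rfl]
      | one => exact ⟨1, Subgroup.one_mem _, rfl⟩
      | mul x y _ _ hx hy =>
        obtain ⟨x', hx', rfl⟩ := hx
        obtain ⟨y', hy', rfl⟩ := hy
        exact ⟨x' * y', Subgroup.mul_mem _ hx' hy', rfl⟩
      | inv x _ hx =>
        obtain ⟨x', hx', rfl⟩ := hx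
        exact ⟨x'⁻¹, Subgroup.inv_mem _ hx', rfl⟩
    have hlen : ∀ (n : ℕ) (g : G), g ∈ WinH π (A : Set G) n →
        WL S' ((((k + 1) * (2 * N + 1) ^ k * AL.card) * (4 * k + 2 * (m * cA + 1) + 2)) *
          (n + 1)) g := by
      intro n g hg
      obtain ⟨x, hx, rfl⟩ := hWB n g hg
      refine (Sx_len hab π hker s hs k hsl T hTd hTl n N AL (m * cA)
        (fun a ha => hcm a ((hALm a).1 ha)) x (hskel n hx)).mono ?_
      rw [mul_assoc ((k + 1) * (2 * N + 1) ^ k * AL.card)]
    obtain ⟨d, hd⟩ := an_k hS' π hm s hs k hsl (WinH π (A : Set G)) hH1 _ hlen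
    exact ⟨d, hd.change hS' hS⟩
  · rintro ⟨d, hd⟩
    have hd' : ANLE S' d := hd.change hS hS'
    have hF' : FolExp S' := by
      refine nowak S' hS' d hd' (fun n hn => ?_)
      obtain ⟨B, hB, _⟩ := card_closure_le m hm1 (Afin (2 * (k * (2 * (k + 1) * n)) + 1))
        (hAfinc _) (hAfinm _)
      obtain ⟨F, hF, _⟩ := fol_k π hm s hs k hsl (WinH π (A : Set G)) hH1 hkerW n hn B
        (fun g => by rw [hB, hWA])
      exact ⟨F, hF⟩
    exact hF'.change hS'

end Pool.Agent.H684AN
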