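import Pool.Agent.H684AN.Cen3
import Pool.Agent.H684AN.Met3

set_option autoImplicit false

/-!
Every element of a window subgroup is, modulo commutators of a larger window, an element of length
linear in the size of the window.
-/

open scoped commutatorElement

namespace Pool.Agent.H684AN

theorem mem_closure_range {V : Type*} [CommGroup V] (Y : ℕ → V) (M : ℕ) (x : V)
    (hx : x ∈ Subgroup.closure {x | ∃ y : ℕ, y < M ∧ x = Y y}) :
    ∃ q : ℕ → ℤ, x = ∏ y ∈ Finset.range M, Y y ^ (q y) := by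
  induction hx using Subgroup.closure_induction with
  | mem x hx =>
    obtain ⟨y, hy, rfl⟩ := hx
    refine ⟨fun i => if i = y then 1 else 0, ?_⟩
    rw [Finset.prod_eq_single y]
    · simp
    · intro b _ hb; simp [hb]
    · intro h; exact absurd (Finset.mem_range.2 hy) h
  | one => exact ⟨fun _ => 0, by simp⟩
  | mul x y _ _ hx hy =>
    obtain ⟨q, rfl⟩ := hx
    obtain ⟨q', rfl⟩ := hy
    refine ⟨fun i => q i + q' i, ?_⟩
    rw [← Finset.prod_mul_distrib]
    exact Finset.prod_congr rfl (fun i _ => (zpow_add _ _ _).symm)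
  | inv x _ hx =>
    obtain ⟨q, rfl⟩ := hx
    refine ⟨fun i => - q i, ?_⟩
    rw [← Finset.prod_inv_distrib]
    exact Finset.prod_congr rfl (fun i _ => (zpow_neg _ _).symm)

section
variable {G : Type*} [Group G]

/-- the class `x` has a representative of length at most `l` -/
def Good (S : Finset G) (W : Subgroup G) (l : ℕ) (x : Abelianization W) : Prop :=
  ∃ g ∈ W, cls W g = x ∧ WL S l g

theorem Good.mul {S : Finset G} {W : Subgroup G} {l l' : ℕ} {x y : Abelianization W}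
    (hx : Good S W l x) (hy : Good S W l' y) : Good S W (l + l') (x * y) := by
  obtain ⟨g, hg, rfl, hl⟩ := hx
  obtain ⟨h, hh, rfl, hl'⟩ := hy
  exact ⟨g * h, W.mul_mem hg hh, cls_mul W hg hh, hl.mul hl'⟩

theorem Good.mono {S : Finset G} {W : Subgroup G} {l l' : ℕ} {x : Abelianization W}
    (hx : Good S W l x) (h : l ≤ l') : Good S W l' x := by
  obtain ⟨g, hg, h1, hl⟩ := hx
  exact ⟨g, hg, h1, hl.mono h⟩

theorem Good.prod {S : Finset G} {W : Subgroup G} {l : ℕ} {ι : Type*} (Λ : Finset ι)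
    (f : ι → Abelianization W) (hf : ∀ i ∈ Λ, Good S W l (f i)) :
    Good S W (Λ.card * l) (∏ i ∈ Λ, f i) := by
  classical
  induction Λ using Finset.induction_on with
  | empty => exact ⟨1, W.one_mem, by rw [cls_one]; simp, by simpa using WL.one S 0⟩
  | insert a X ha ih =>
    rw [Finset.prod_insert ha, Finset.card_insert_of_notMem ha]
    refine ((hf a (Finset.mem_insert_self a X)).mul
      (ih (fun i hi => hf i (Finset.mem_insert_of_mem hi)))).mono ?_
    ring_nf; omega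

variable {k : ℕ} {L : Subgroup G} [L.Normal]
  (π : G →* Multiplicative (Fin k → ℤ))
  (T : ℕ → G) (hTd : ∀ j, j ≤ k → hk π (T j) = dv k j)
  {S : Finset G} (hTl : ∀ j, j ≤ k → WL S 1 (T j))
  (A : Finset G) (hAL : ∀ a ∈ A, a ∈ L)
  (hball : ∀ (n : ℕ) (g : G), WL S n g → (∀ i, |hn π g i| ≤ n) ∧
    g * (sct T k (hn π g))⁻¹ ∈ WinS T k (A : Set G) n)

/-- the section -/
def sv (T : ℕ → G) {k : ℕ} (v : Fin k → ℤ) : G := sct T k (ext0 v)

omit [L.Normal] in
theorem Wn_le [L.Normal] (hAL : ∀ a ∈ A, a ∈ L) (n : ℕ) : WinS T k (A : Set G) n ≤ L := by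
  rw [WinS, Subgroup.closure_le]
  rintro x ⟨v, _, a, ha, rfl⟩
  exact Subgroup.Normal.conj_mem inferInstance _ (hAL a ha) _

theorem sv_mem (n : ℕ) (v : Fin k → ℤ) (hv : ∀ l, |v l| ≤ n) (a : G) (ha : a ∈ A) :
    sv T v * a * (sv T v)⁻¹ ∈ WinS T k (A : Set G) n := by
  refine WinS_mem T (A : Set G) n (ext0 v) ?_ a ha
  intro i
  rw [ext0]
  split_ifs with h
  · exact hv _
  · simp

include hball in
theorem conjWin (n m : ℕ) (hnm : n ≤ m) (g : G) (hg : WL S n g) (a : G) (ha : a ∈ A) :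
    g * a * g⁻¹ ∈ WinS T k (A : Set G) m ∧
      cls (WinS T k (A : Set G) m) (g * a * g⁻¹) =
        cls (WinS T k (A : Set G) m) (sv T (hk π g) * a * (sv T (hk π g))⁻¹) := by
  obtain ⟨h1, h2⟩ := hball n g hg
  have h3 : g * (sv T (hk π g))⁻¹ ∈ WinS T k (A : Set G) m :=
    WinS_mono (k := k) T (A : Set G) hnm h2
  have h4 : sv T (hk π g) * a * (sv T (hk π g))⁻¹ ∈ WinS T k (A : Set G) m := by
    apply sv_mem T A m _ _ a ha
    intro l
    have := h1 l
    rw [hn, dif_pos l.2] at this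
    exact this.trans (by exact_mod_cast hnm)
  have e : g * a * g⁻¹ = (g * (sv T (hk π g))⁻¹) * (sv T (hk π g) * a * (sv T (hk π g))⁻¹) *
      (g * (sv T (hk π g))⁻¹)⁻¹ := by group
  rw [e]
  exact ⟨Subgroup.mul_mem _ (Subgroup.mul_mem _ h3 h4) (Subgroup.inv_mem _ h3),
    cls_conj _ h4 h3⟩

/-- products along a line starting at `g` -/
def lineE (g t a : G) (q : ℕ → ℤ) : ℕ → G
  | 0 => 1
  | M + 1 => lineE g t a q M * ((g * t ^ M) * a * (g * t ^ M)⁻¹) ^ (q M)

theorem lineE_len (S : Finset G) (g t a : G) (q : ℕ → ℤ) (cg cm : ℕ) (hg : WL S cg g)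
    (ht : WL S 1 t) (hcm : ∀ z : ℤ, WL S cm (a ^ z)) (M : ℕ) :
    WL S (cg + M * (cm + 1)) (lineE g t a q M * (g * t ^ M)) := by
  induction M with
  | zero => simpa [lineE] using hg
  | succ M ih =>
    rw [lineE, conj_zpow]
    have e : lineE g t a q M * (g * t ^ M * a ^ q M * (g * t ^ M)⁻¹) * (g * t ^ (M + 1)) =
        (lineE g t a q M * (g * t ^ M)) * (a ^ q M * t) := by
      rw [pow_succ]; group
    rw [e]
    refine (ih.mul ((hcm (q M)).mul ht)).mono ?_
    ring_nf; omega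

include hball hTd hTl in
theorem lineE_cls (g : G) (cg m : ℕ) (hg : WL S cg g) (j : ℕ) (hj : j ≤ k) (a : G) (ha : a ∈ A)
    (q : ℕ → ℤ) (M : ℕ) (hM : cg + M ≤ m) :
    lineE g (T j) a q M ∈ WinS T k (A : Set G) m ∧
      cls (WinS T k (A : Set G) m) (lineE g (T j) a q M) =
        ∏ y ∈ Finset.range M, cls (WinS T k (A : Set G) m)
          (sv T (hk π g + (y : ℤ) • dv k j) * a * (sv T (hk π g + (y : ℤ) • dv k j))⁻¹) ^ (q y) := by
  induction M with
  | zero =>
    refine ⟨Subgroup.one_mem _, ?_⟩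
    rw [lineE, cls_one]; simp
  | succ M ih =>
    obtain ⟨h1, h2⟩ := ih (by omega)
    have h3 : WL S (cg + M) (g * T j ^ M) :=
      hg.mul (((hTl j hj).pow M).mono (by omega))
    obtain ⟨h4, h5⟩ := conjWin π T A hball (cg + M) m (by omega) _ h3 a ha
    have h6 : hk π (g * T j ^ M) = hk π g + (M : ℤ) • dv k j := by
      rw [hk_mul, ← zpow_natCast, hk_zpow, hTd j hj]
    rw [h6] at h5
    rw [lineE]
    refine ⟨Subgroup.mul_mem _ h1 (Subgroup.zpow_mem _ h4 _), ?_⟩
    rw [cls_mul _ h1 (Subgroup.zpow_mem _ h4 _), cls_zpow _ h4, h2, h5, Finset.prod_range_succ]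

variable (hs : ∀ v : Fin k → ℤ, hk π (sv T v) = v)
  (cs : ℕ) (hsl : ∀ (v : Fin k → ℤ) (N : ℕ), (∀ i, |v i| ≤ N) → WL S (cs * N) (sv T v))
  (cm : ℕ) (hcm : ∀ a ∈ A, ∀ z : ℤ, WL S cm (a ^ z))

include hball hTd hTl hs hsl hcm in
/-- elements supported on a line have short representatives -/
theorem line_good (n m : ℕ) (hm : (2 * cs + 2) * (n + 1) ≤ m) (j : ℕ) (hj : j ≤ k)
    (w : Fin k → ℤ) (hw : ∀ i, |w i| ≤ n) (a : G) (ha : a ∈ A)
    (x : Abelianization (WinS T k (A : Set G) m))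
    (hx : x ∈ Subgroup.closure {x | ∃ y : ℤ, |y| ≤ n ∧ x = cls (WinS T k (A : Set G) m)
      (sv T (w + y • dv k j) * a * (sv T (w + y • dv k j))⁻¹)}) :
    Good S (WinS T k (A : Set G) m) ((4 * cs + 2 * (cm + 2)) * (n + 1)) x := by
  set g : G := sv T (w + (-(n : ℤ)) • dv k j) with hgdef
  have hg : WL S (cs * (2 * n)) g := by
    apply hsl
    intro i
    have h3 := hw i
    rw [Pi.add_apply, Pi.smul_apply, smul_eq_mul]
    refine (abs_add_le _ _).trans ?_
    have h4 : |(-(n : ℤ)) * dv k j i| ≤ n := by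
      unfold dv
      split_ifs <;> simp
    push_cast; linarith
  have hgk : hk π g = w + (-(n : ℤ)) • dv k j := hs _
  have hsub : {x | ∃ y : ℤ, |y| ≤ n ∧ x = cls (WinS T k (A : Set G) m)
      (sv T (w + y • dv k j) * a * (sv T (w + y • dv k j))⁻¹)} ⊆
      {x | ∃ y : ℕ, y < 2 * n + 1 ∧ x = cls (WinS T k (A : Set G) m)
        (sv T (hk π g + (y : ℤ) • dv k j) * a * (sv T (hk π g + (y : ℤ) • dv k j))⁻¹)} := by
    rintro x ⟨y, hy, rfl⟩
    rw [abs_le] at hy
    refine ⟨(y + n).toNat, by omega, ?_⟩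
    have e : hk π g + (((y + n).toNat : ℕ) : ℤ) • dv k j = w + y • dv k j := by
      rw [hgk, Int.toNat_of_nonneg (by omega), add_assoc, ← add_smul]
      congr 2
      ring
    rw [e]
  obtain ⟨q, rfl⟩ := mem_closure_range _ _ _ (Subgroup.closure_mono hsub hx)
  obtain ⟨h1, h2⟩ := lineE_cls π T hTd hTl A hball g (cs * (2 * n)) m hg j hj a ha q (2 * n + 1)
    (by nlinarith)
  refine ⟨lineE g (T j) a q (2 * n + 1), h1, h2, ?_⟩
  have h3 := lineE_len S g (T j) a q (cs * (2 * n)) cm hg (hTl j hj) (hcm a ha) (2 * n + 1)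
  have h4 : WL S (cs * (2 * n) + (2 * n + 1)) (g * T j ^ (2 * n + 1)) :=
    hg.mul (((hTl j hj).pow (2 * n + 1)).mono (by omega))
  have e : lineE g (T j) a q (2 * n + 1) =
      (lineE g (T j) a q (2 * n + 1) * (g * T j ^ (2 * n + 1))) * (g * T j ^ (2 * n + 1))⁻¹ := by
    group
  rw [e]
  refine (h3.mul h4.inv).mono ?_
  nlinarith

/-- the relation elements -/
noncomputable def zel (T : ℕ → G) (k N : ℕ) (a : G) (i j : Fin k) (f : ℕ × ℕ → ℤ) : G :=
  ((Finset.range N ×ˢ Finset.range N).toList.map (fun p =>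
    (sv T (Pi.single i (p.1 : ℤ) + Pi.single j (p.2 : ℤ)) * a *
      (sv T (Pi.single i (p.1 : ℤ) + Pi.single j (p.2 : ℤ)))⁻¹) ^ (f p))).prod

theorem single_box (N : ℕ) (i j : Fin k) (hij : i ≠ j) (p : ℕ × ℕ)
    (hp : p ∈ Finset.range N ×ˢ Finset.range N) (l : Fin k) :
    |(Pi.single i (p.1 : ℤ) + Pi.single j (p.2 : ℤ) : Fin k → ℤ) l| ≤ N := by
  rw [Finset.mem_product, Finset.mem_range, Finset.mem_range] at hp
  rw [Pi.add_apply]
  by_cases h1 : l = i
  · subst h1
    rw [Pi.single_eq_same, Pi.single_eq_of_ne hij, add_zero, abs_of_nonneg (by positivity)]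
    exact_mod_cast hp.1.le
  · rw [Pi.single_eq_of_ne h1, zero_add]
    by_cases h2 : l = j
    · subst h2
      rw [Pi.single_eq_same, abs_of_nonneg (by positivity)]
      exact_mod_cast hp.2.le
    · rw [Pi.single_eq_of_ne h2]; simp

theorem zel_mem (N m : ℕ) (hNm : N ≤ m) (a : G) (ha : a ∈ A) (i j : Fin k) (hij : i ≠ j)
    (f : ℕ × ℕ → ℤ) : zel T k N a i j f ∈ WinS T k (A : Set G) m := by
  refine (cls_list _ _ _ ?_).1
  intro p hp
  refine Subgroup.zpow_mem _ (sv_mem T A m _ ?_ a ha) _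
  intro l
  exact (single_box N i j hij p (Finset.mem_toList.1 hp) l).trans (by exact_mod_cast hNm)

include hball hs hsl in
theorem zel_rel (N n m : ℕ) (hm : cs * (n + 2 * N) ≤ m)
    (a : G) (ha : a ∈ A) (i j : Fin k) (hij : i ≠ j) (f : ℕ × ℕ → ℤ)
    (hf0 : ∃ p ∈ Finset.range N ×ˢ Finset.range N, f p ≠ 0)
    (hz : zel T k N a i j f ∈ Subgroup.center G) (u : Fin k → ℤ)
    (hu : ∀ p ∈ Finset.range N ×ˢ Finset.range N, f p ≠ 0 →
      ∀ l, |(u + (Pi.single i (p.1 : ℤ) + Pi.single j (p.2 : ℤ)) : Fin k → ℤ) l| ≤ n) :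
    ∏ p ∈ Finset.range N ×ˢ Finset.range N, cls (WinS T k (A : Set G) m)
      (sv T (u + (Pi.single i (p.1 : ℤ) + Pi.single j (p.2 : ℤ))) * a *
        (sv T (u + (Pi.single i (p.1 : ℤ) + Pi.single j (p.2 : ℤ))))⁻¹) ^ (f p) =
      cls (WinS T k (A : Set G) m) (zel T k N a i j f) := by
  set Q := Finset.range N ×ˢ Finset.range N with hQ
  have hub : ∀ l, |u l| ≤ ((n + N : ℕ) : ℤ) := by
    intro l
    obtain ⟨p, hp, hfp⟩ := hf0
    have h1 := hu p hp hfp l
    have h2 := single_box N i j hij p hp l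
    rw [Pi.add_apply] at h1
    rw [abs_le] at *
    push_cast
    constructor <;> linarith [h1.1, h1.2, h2.1, h2.2]
  have hlu := hsl u (n + N) hub
  -- conjugate of the relation element
  have h1 : zel T k N a i j f = (Q.toList.map (fun p =>
      ((sv T u * sv T (Pi.single i (p.1 : ℤ) + Pi.single j (p.2 : ℤ))) * a *
        (sv T u * sv T (Pi.single i (p.1 : ℤ) + Pi.single j (p.2 : ℤ)))⁻¹) ^ (f p))).prod := by
    have h2 : zel T k N a i j f = sv T u * zel T k N a i j f * (sv T u)⁻¹ := by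
      rw [Subgroup.mem_center_iff.1 hz]; group
    have h3 : ∀ l : List (ℕ × ℕ), sv T u * (l.map (fun p =>
        (sv T (Pi.single i (p.1 : ℤ) + Pi.single j (p.2 : ℤ)) * a *
          (sv T (Pi.single i (p.1 : ℤ) + Pi.single j (p.2 : ℤ)))⁻¹) ^ (f p))).prod * (sv T u)⁻¹ =
        (l.map (fun p =>
          ((sv T u * sv T (Pi.single i (p.1 : ℤ) + Pi.single j (p.2 : ℤ))) * a *
            (sv T u * sv T (Pi.single i (p.1 : ℤ) + Pi.single j (p.2 : ℤ)))⁻¹) ^ (f p))).prod := by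
      intro l
      induction l with
      | nil => simp
      | cons b l ih =>
        simp only [List.map_cons, List.prod_cons]
        rw [← ih]
        have e : ((sv T u * sv T (Pi.single i (b.1 : ℤ) + Pi.single j (b.2 : ℤ))) * a *
            (sv T u * sv T (Pi.single i (b.1 : ℤ) + Pi.single j (b.2 : ℤ)))⁻¹) ^ (f b) =
            sv T u * (sv T (Pi.single i (b.1 : ℤ) + Pi.single j (b.2 : ℤ)) * a *
              (sv T (Pi.single i (b.1 : ℤ) + Pi.single j (b.2 : ℤ)))⁻¹) ^ (f b) *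
                (sv T u)⁻¹ := by
          rw [← conj_zpow]; congr 1; group
        rw [e]
        generalize (sv T (Pi.single i (b.1 : ℤ) + Pi.single j (b.2 : ℤ)) * a *
          (sv T (Pi.single i (b.1 : ℤ) + Pi.single j (b.2 : ℤ)))⁻¹) ^ (f b) = X1
        generalize (l.map (fun p =>
          (sv T (Pi.single i (p.1 : ℤ) + Pi.single j (p.2 : ℤ)) * a *
            (sv T (Pi.single i (p.1 : ℤ) + Pi.single j (p.2 : ℤ)))⁻¹) ^ (f p))).prod = X2
        group
    rw [h2]
    exact h3 _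
  have h4 : ∀ p ∈ Q, WL S m (sv T u * sv T (Pi.single i (p.1 : ℤ) + Pi.single j (p.2 : ℤ))) := by
    intro p hp
    refine (hlu.mul (hsl _ N (single_box N i j hij p hp))).mono ?_
    nlinarith
  have h5 : ∀ p ∈ Q.toList, ((sv T u * sv T (Pi.single i (p.1 : ℤ) + Pi.single j (p.2 : ℤ))) * a *
      (sv T u * sv T (Pi.single i (p.1 : ℤ) + Pi.single j (p.2 : ℤ)))⁻¹) ^ (f p) ∈
      WinS T k (A : Set G) m := by
    intro p hp
    exact Subgroup.zpow_mem _
      (conjWin π T A hball m m le_rfl _ (h4 p (Finset.mem_toList.1 hp)) a ha).1 _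
  rw [h1, (cls_list _ _ _ h5).2]
  rw [← Finset.prod_map_toList]
  refine congrArg List.prod (List.map_congr_left ?_)
  intro p hp
  have h6 := conjWin π T A hball m m le_rfl _ (h4 p (Finset.mem_toList.1 hp)) a ha
  rw [cls_zpow _ h6.1, h6.2]
  rw [hk_mul, hs, hs]

end

end Pool.Agent.H684AN
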