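import Pool.Agent.H684AN.Cen4

set_option autoImplicit false

/-!
Strong decomposition of window elements.
-/

open scoped commutatorElement

namespace Pool.Agent.H684AN

section
variable {G : Type*} [Group G] {k : ℕ}
  (π : G →* Multiplicative (Fin k → ℤ))
  (T : ℕ → G) (hTd : ∀ j, j ≤ k → hk π (T j) = dv k j)
  {S : Finset G} (hTl : ∀ j, j ≤ k → WL S 1 (T j))
  (A : Finset G)
  (hball : ∀ (n : ℕ) (g : G), WL S n g → (∀ i, |hn π g i| ≤ n) ∧
    g * (sct T k (hn π g))⁻¹ ∈ WinS T k (A : Set G) n)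
  (hs : ∀ v : Fin k → ℤ, hk π (sv T v) = v)
  (cs : ℕ) (hsl : ∀ (v : Fin k → ℤ) (N : ℕ), (∀ i, |v i| ≤ N) → WL S (cs * N) (sv T v))
  (cm : ℕ) (hcm : ∀ a ∈ A, ∀ z : ℤ, WL S cm (a ^ z))
  (N : ℕ) (hN : 1 ≤ N) (f : G → Fin k → Fin k → ℕ × ℕ → ℤ)
  (hf : ∀ a i j p, f a i j p = 0 ∨ f a i j p = 1 ∨ f a i j p = -1)
  (hf0 : ∀ a ∈ A, ∀ i j, i ≠ j → ∃ p ∈ Finset.range N ×ˢ Finset.range N, f a i j p ≠ 0)
  (hz : ∀ a ∈ A, ∀ i j, i ≠ j → zel T k N a i j (f a i j) ∈ Subgroup.center G)
  (cz : ℕ) (hcz : ∀ a ∈ A, ∀ i j, ∀ e : ℤ, WL S cz ((zel T k N a i j (f a i j)) ^ e))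

include hball hTd hTl hs hsl hcm hN hf hf0 hz hcz in
theorem strong_dec (n m : ℕ) (hm : (2 * cs + 2) * (n + 1) + cs * (n + 2 * N) + N ≤ m) (g : G)
    (hg : g ∈ WinS T k (A : Set G) n) :
    ∃ y ∈ WinS T k (A : Set G) m,
      WL S ((((k + 1) * (2 * N + 1) ^ k * A.card) + A.card * (k * k)) *
        ((4 * cs + 2 * (cm + 2) + cz) * (n + 1))) y ∧
      ∃ d ∈ commutator (WinS T k (A : Set G) m), g = y * (d : G) := by
  classical
  set W := WinS T k (A : Set G) m with hW
  set X : G → (Fin k → ℤ) → Abelianization W := fun a v => cls W (sv T v * a * (sv T v)⁻¹) with hX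
  set U : Finset ℤ := ((Finset.Icc (-(n : ℤ)) n).filter (fun y => (n : ℤ) < |y| + N)) ∪ {0} with hU
  set Wf : Finset (Fin k → ℤ) := Fintype.piFinset (fun _ => U) with hWf
  have hU0 : ∀ y ∈ U, |y| ≤ n := by
    intro y hy
    rw [hU, Finset.mem_union, Finset.mem_filter, Finset.mem_Icc, Finset.mem_singleton] at hy
    rcases hy with hy | rfl
    · rw [abs_le]; exact hy.1
    · simp
  set Λ : Finset (((ℕ × (Fin k → ℤ)) × G) ⊕ (G × (Fin k × Fin k))) :=
    ((Finset.range (k + 1) ×ˢ Wf) ×ˢ A).disjSum (A ×ˢ (Finset.univ ×ˢ Finset.univ)) with hΛ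
  set Y : (((ℕ × (Fin k → ℤ)) × G) ⊕ (G × (Fin k × Fin k))) → Set (Abelianization W) := fun l =>
    Sum.elim (fun q => {x | ∃ y : ℤ, |y| ≤ n ∧ x = X q.2 (q.1.2 + y • dv k q.1.1)})
      (fun q => {x | x = cls W (zel T k N q.1 q.2.1 q.2.2 (f q.1 q.2.1 q.2.2))}) l with hY
  set P : Subgroup (Abelianization W) := Subgroup.closure {x | ∃ l ∈ Λ, x ∈ Y l} with hP
  -- all classes of generators lie in `P`
  have hXP : ∀ a ∈ A, ∀ v : Fin k → ℤ, (∀ l, |v l| ≤ n) → X a v ∈ P := by
    intro a ha
    refine skelX (X a) N n hN P (f a) (hf a) (hf0 a ha) ?_ ?_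
    · intro i j hij u hu
      have h1 := zel_rel π T A hball hs cs hsl N n m (by omega) a ha i j hij (f a i j)
        (hf0 a ha i j hij) (hz a ha i j hij) u hu
      simp only [hX]
      rw [h1]
      refine Subgroup.subset_closure ⟨Sum.inr (a, (i, j)), ?_, rfl⟩
      rw [hΛ, Finset.inr_mem_disjSum, Finset.mem_product, Finset.mem_product]
      exact ⟨ha, Finset.mem_univ _, Finset.mem_univ _⟩
    · intro v hv hsk
      apply Subgroup.subset_closure
      by_cases hint : ∃ i₀ : Fin k, |v i₀| + N ≤ n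
      · obtain ⟨i₀, hi₀⟩ := hint
        refine ⟨Sum.inl (((i₀ : ℕ), Function.update v i₀ 0), a), ?_, v i₀, hv i₀, ?_⟩
        · rw [hΛ, Finset.inl_mem_disjSum, Finset.mem_product, Finset.mem_product, Finset.mem_range]
          refine ⟨⟨by have := i₀.2; simp only; omega, ?_⟩, ha⟩
          rw [hWf, Fintype.mem_piFinset]
          intro i
          by_cases h1 : i = i₀
          · subst h1
            simp only [Function.update_self]
            rw [hU]; exact Finset.mem_union_right _ (Finset.mem_singleton_self 0)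
          · simp only [Function.update_of_ne h1]
            rw [hU, Finset.mem_union, Finset.mem_filter, Finset.mem_Icc]
            left
            refine ⟨abs_le.1 (hv i), ?_⟩
            have := hsk i₀ i (Ne.symm h1)
            by_contra h3
            exact this ⟨hi₀, not_lt.1 h3⟩
        · simp only
          congr 1
          funext i
          rw [Pi.add_apply, Pi.smul_apply, dv, smul_eq_mul]
          by_cases h1 : i = i₀
          · subst h1
            rw [Function.update_self, if_pos rfl]; ring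
          · rw [Function.update_of_ne h1, if_neg (fun h => h1 (Fin.ext h))]; ring
      · push Not at hint
        refine ⟨Sum.inl ((k, v), a), ?_, 0, by simp, ?_⟩
        · rw [hΛ, Finset.inl_mem_disjSum, Finset.mem_product, Finset.mem_product, Finset.mem_range]
          refine ⟨⟨by simp only; omega, ?_⟩, ha⟩
          rw [hWf, Fintype.mem_piFinset]
          intro i
          simp only
          rw [hU, Finset.mem_union, Finset.mem_filter, Finset.mem_Icc]
          left
          exact ⟨abs_le.1 (hv i), hint i⟩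
        · simp
  have hnm : n ≤ m := by nlinarith
  have hWn : WinS T k (A : Set G) n ≤ W := WinS_mono (k := k) T (A : Set G) hnm
  have hgP : g ∈ W ∧ cls W g ∈ P := by
    rw [WinS] at hg
    induction hg using Subgroup.closure_induction with
    | mem x hx =>
      obtain ⟨v, hv, a, ha, rfl⟩ := hx
      have e : sct T k v = sv T (fun i : Fin k => v i) := by
        rw [sv, sct, sct]
        refine sec_congr T _ _ k (fun i hi => ?_)
        rw [ext0, dif_pos hi]
      rw [e]
      exact ⟨hWn (sv_mem T A n _ (fun l => hv _) a ha), hXP a ha _ (fun l => hv _)⟩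
    | one => exact ⟨W.one_mem, by rw [cls_one]; exact P.one_mem⟩
    | mul x y _ _ hx hy =>
      exact ⟨W.mul_mem hx.1 hy.1, by rw [cls_mul W hx.1 hy.1]; exact P.mul_mem hx.2 hy.2⟩
    | inv x _ hx =>
      exact ⟨W.inv_mem hx.1, by rw [cls_inv W hx.1]; exact P.inv_mem hx.2⟩
  obtain ⟨hgW, hgc⟩ := hgP
  obtain ⟨F, hF, hFe⟩ := mem_closure_biUnion Λ Y (cls W g) hgc
  have hgood : ∀ l ∈ Λ, Good S W ((4 * cs + 2 * (cm + 2) + cz) * (n + 1)) (F l) := by
    intro l hl
    have h1 := hF l hl
    rcases l with l | l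
    · rw [hΛ, Finset.inl_mem_disjSum, Finset.mem_product, Finset.mem_product,
        Finset.mem_range] at hl
      refine (line_good π T hTd hTl A hball hs cs hsl cm hcm n m (by omega) l.1.1
        (by omega) l.1.2 ?_ l.2 hl.2 _ h1).mono ?_
      · intro i
        have := hl.1.2
        rw [hWf, Fintype.mem_piFinset] at this
        exact hU0 _ (this i)
      · refine Nat.mul_le_mul_right _ ?_
        omega
    · rw [hΛ, Finset.inr_mem_disjSum, Finset.mem_product] at hl
      have hzc : ∃ e : ℤ, F (Sum.inr l) =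
          (cls W (zel T k N l.1 l.2.1 l.2.2 (f l.1 l.2.1 l.2.2))) ^ e := by
        have h2 : F (Sum.inr l) ∈ Subgroup.zpowers
            (cls W (zel T k N l.1 l.2.1 l.2.2 (f l.1 l.2.1 l.2.2))) := by
          refine (Subgroup.closure_le _).2 ?_ h1
          intro x hx
          have hx' : x = cls W (zel T k N l.1 l.2.1 l.2.2 (f l.1 l.2.1 l.2.2)) := hx
          rw [hx']
          exact Subgroup.mem_zpowers _
        obtain ⟨e, he⟩ := Subgroup.mem_zpowers_iff.1 h2
        exact ⟨e, he.symm⟩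
      obtain ⟨e, he⟩ := hzc
      by_cases hmem : zel T k N l.1 l.2.1 l.2.2 (f l.1 l.2.1 l.2.2) ∈ W
      · refine ⟨_, W.zpow_mem hmem e, by rw [cls_zpow W hmem, he], ?_⟩
        refine (hcz l.1 hl.1 l.2.1 l.2.2 e).mono ?_
        nlinarith
      · rw [cls, dif_neg hmem, one_zpow] at he
        exact ⟨1, W.one_mem, by rw [cls_one, he], WL.one _ _⟩
  have h1 := Good.prod Λ F hgood
  rw [← hFe] at h1
  obtain ⟨y, hy, hyc, hyl⟩ := h1
  refine ⟨y, hy, hyl.mono ?_, ?_⟩
  · refine Nat.mul_le_mul_right _ ?_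
    rw [hΛ, Finset.card_disjSum, Finset.card_product, Finset.card_product, Finset.card_range,
      Finset.card_product, Finset.card_product, Finset.card_univ, Fintype.card_fin]
    refine Nat.add_le_add_right (Nat.mul_le_mul_right _ (Nat.mul_le_mul_left _ ?_)) _
    rw [hWf, Fintype.card_piFinset, Finset.prod_const, Finset.card_univ, Fintype.card_fin]
    exact Nat.pow_le_pow_left (bdry_card N n) _
  · exact cls_eq W hgW hy hyc.symm

end

end Pool.Agent.H684AN
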