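import Pool.Agent.H684AN.Cen5
import Pool.Agent.H684AN.Met3

set_option autoImplicit false

/-!
The equivalence between exponential Folner function and finite Assouad-Nagata dimension for
extensions of a locally finite group `L` with `[L, L]` central by a free abelian group of finite
rank.
-/

open scoped commutatorElement

namespace Pool.Agent.H684AN

variable {G : Type*} [Group G] {k : ℕ}

theorem comm_center {L : Subgroup G} (hcen : ∀ x ∈ L, ∀ y ∈ L, ⁅x, y⁆ ∈ Subgroup.center G)
    (W : Subgroup G) (hW : W ≤ L) (d : W) (hd : d ∈ commutator W) :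
    (d : G) ∈ Subgroup.center G := by
  rw [commutator_eq_closure] at hd
  induction hd using Subgroup.closure_induction with
  | mem x hx =>
    obtain ⟨a, b, rfl⟩ := hx
    exact hcen a (hW a.2) b (hW b.2)
  | one => exact Subgroup.one_mem _
  | mul x y _ _ hx hy => exact Subgroup.mul_mem _ hx hy
  | inv x _ hx => exact Subgroup.inv_mem _ hx

theorem arith1 (k N n : ℕ) : (2 * k + 2) * (n + 1) + k * (n + 2 * N) + N ≤
    (2 * k + 2 + k + 2 * k * N + N) * (n + 1) := by
  have h1 : 2 * k * N ≤ 2 * k * N * (n + 1) := Nat.le_mul_of_pos_right _ (by omega)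
  have h2 : N ≤ N * (n + 1) := Nat.le_mul_of_pos_right _ (by omega)
  have h3 : (2 * k + 2 + k + 2 * k * N + N) * (n + 1) =
      (2 * k + 2) * (n + 1) + (k * n + k) + 2 * k * N * (n + 1) + N * (n + 1) := by ring
  have h4 : (2 * k + 2) * (n + 1) + k * (n + 2 * N) + N =
      (2 * k + 2) * (n + 1) + k * n + 2 * k * N + N := by ring
  rw [h3, h4]
  omega

theorem arith2 (C1 cA Ac M k c n : ℕ) (hM : M ≤ c * (n + 1)) :
    C1 * (n + 1) + Ac * (2 * (cA + C1 * (2 * k * M + 1))) ≤
      (C1 + Ac * (2 * (cA + C1 * (2 * k * c + 1)))) * (n + 1) := by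
  have h5 : 2 * k * M + 1 ≤ (2 * k * c + 1) * (n + 1) := by
    calc 2 * k * M + 1 ≤ 2 * k * (c * (n + 1)) + (n + 1) :=
          Nat.add_le_add (Nat.mul_le_mul_left _ hM) (by omega)
      _ = _ := by ring
  have h6 : cA + C1 * (2 * k * M + 1) ≤ (cA + C1 * (2 * k * c + 1)) * (n + 1) := by
    calc cA + C1 * (2 * k * M + 1) ≤ cA * (n + 1) + C1 * ((2 * k * c + 1) * (n + 1)) :=
          Nat.add_le_add (Nat.le_mul_of_pos_right _ (by omega)) (Nat.mul_le_mul_left _ h5)
      _ = _ := by ring
  calc C1 * (n + 1) + Ac * (2 * (cA + C1 * (2 * k * M + 1))) ≤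
        C1 * (n + 1) + Ac * (2 * ((cA + C1 * (2 * k * c + 1)) * (n + 1))) :=
        Nat.add_le_add_left (Nat.mul_le_mul_left _ (Nat.mul_le_mul_left _ h6)) _
    _ = _ := by ring

omit [Group G] in
theorem exists_bound (A : Finset G) (h : G → Fin k → Fin k → ℕ) :
    ∃ c, ∀ a ∈ A, ∀ i j, h a i j ≤ c := by
  refine ⟨A.sup (fun a => Finset.univ.sup (fun i => Finset.univ.sup (h a i))), ?_⟩
  intro a ha i j
  exact ((Finset.le_sup (f := h a i) (Finset.mem_univ j)).trans
    (Finset.le_sup (f := fun i => Finset.univ.sup (h a i)) (Finset.mem_univ i))).trans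
    (Finset.le_sup (f := fun a => Finset.univ.sup (fun i => Finset.univ.sup (h a i))) ha)

theorem main_Cen (S : Finset G) (hS : Subgroup.closure (S : Set G) = ⊤) (L : Subgroup G)
    [L.Normal]
    (hloc : ∀ E : Finset G, (E : Set G) ⊆ L → (Subgroup.closure (E : Set G) : Set G).Finite)
    (hcen : ∀ x ∈ L, ∀ y ∈ L, ⁅x, y⁆ ∈ Subgroup.center G)
    (hq : Nonempty ((G ⧸ L) ≃* Multiplicative (Fin k → ℤ))) :
    FolExp S ↔ ∃ d, ANLE S d := by
  classical
  have htor : ∀ x ∈ L, IsOfFinOrder x := by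
    intro x hx
    have h1 := hloc {x} (by simpa using hx)
    have h2 : (Subgroup.zpowers x : Set G).Finite := by
      refine h1.subset ?_
      rw [Subgroup.zpowers_eq_closure]
      simp
    exact finite_zpowers.1 h2
  obtain ⟨e⟩ := hq
  set π : G →* Multiplicative (Fin k → ℤ) := e.toMonoidHom.comp (QuotientGroup.mk' L) with hπ
  have hker : ∀ g, hk π g = 0 ↔ g ∈ L := by
    intro g
    have h1 : π g = 1 ↔ g ∈ L := by
      rw [hπ]
      simp only [MonoidHom.comp_apply, MulEquiv.toMonoidHom_eq_coe, MonoidHom.coe_coe,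
        QuotientGroup.mk'_apply]
      rw [map_eq_one_iff e e.injective, QuotientGroup.eq_one_iff]
    rw [← h1, hk]
    exact Iff.rfl
  have hsurj : ∀ v : Fin k → ℤ, ∃ g : G, hk π g = v := by
    intro v
    obtain ⟨q, hq⟩ := e.surjective (Multiplicative.ofAdd v)
    obtain ⟨g, rfl⟩ := QuotientGroup.mk'_surjective L q
    exact ⟨g, by rw [hk, hπ]; simp only [MonoidHom.comp_apply]; exact congrArg Multiplicative.toAdd hq⟩
  choose τ hτ using hsurj
  set T : ℕ → G := fun j => if j < k then τ (dv k j) else 1 with hTdef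
  have hTd : ∀ j, j ≤ k → hk π (T j) = dv k j := by
    intro j hj
    rw [hTdef]
    simp only
    split_ifs with h
    · exact hτ _
    · rw [hk_one]
      funext i
      have := i.2
      rw [dv, if_neg (by omega)]; rfl
  have hT : ∀ j, j < k → ∀ i, hn π (T j) i = if i = j then 1 else 0 := by
    intro j hj i
    rw [hn, hTd j hj.le]
    unfold dv
    by_cases hi : i < k
    · rw [dif_pos hi]
    · rw [dif_neg hi, if_neg (by omega)]
  have hs : ∀ v : Fin k → ℤ, hk π (sv T v) = v := by
    intro v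
    funext i
    have h1 := hn_sec π T hT (ext0 v) k le_rfl i
    rw [if_pos i.2, hn, dif_pos i.2, ext0, dif_pos i.2] at h1
    exact h1
  set S1 : Finset G := S.image (fun x => x * (sv T (hk π x))⁻¹) with hS1
  set S' : Finset G := S1 ∪ (Finset.range k).image T with hS'def
  set com : Finset G := ((Finset.range k ×ˢ Finset.range k) ×ˢ
    (({1, -1} : Finset ℤ) ×ˢ ({1, -1} : Finset ℤ))).image
      (fun p => T p.1.1 ^ p.2.1 * T p.1.2 ^ p.2.2 * (T p.1.1 ^ p.2.1)⁻¹ * (T p.1.2 ^ p.2.2)⁻¹)
    with hcomdef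
  set A : Finset G := S1 ∪ com with hAdef
  have hTS : ∀ j, j < k → T j ∈ S' := by
    intro j hj
    rw [hS'def]
    exact Finset.mem_union_right _ (Finset.mem_image_of_mem _ (Finset.mem_range.2 hj))
  have hTl : ∀ j, j ≤ k → WL S' 1 (T j) := by
    intro j hj
    by_cases h : j < k
    · exact WL.of_mem (hTS j h)
    · have : T j = 1 := by rw [hTdef]; simp only; rw [if_neg h]
      rw [this]; exact WL.one _ _
  have hAL : ∀ a ∈ A, a ∈ L := by
    intro a ha
    rw [hAdef, Finset.mem_union] at ha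
    rcases ha with ha | ha
    · rw [hS1, Finset.mem_image] at ha
      obtain ⟨x, _, rfl⟩ := ha
      rw [← hker, hk_mul, hk_inv, hs]; simp
    · rw [hcomdef, Finset.mem_image] at ha
      obtain ⟨p, _, rfl⟩ := ha
      rw [← hker]
      simp only [hk_mul, hk_inv]
      abel
  have hA : ∀ a ∈ (A : Set G), ∀ i, hn π a i = 0 := by
    intro a ha i
    have := (hker a).2 (hAL a ha)
    rw [hn, this]; simp
  have hcom : ∀ i j, i < k → j < k → ∀ ε δ : ℤ, (ε = 1 ∨ ε = -1) → (δ = 1 ∨ δ = -1) →
      T i ^ ε * T j ^ δ * (T i ^ ε)⁻¹ * (T j ^ δ)⁻¹ ∈ (A : Set G) := by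
    intro i j hi hj ε δ hε hδ
    rw [Finset.mem_coe, hAdef, Finset.mem_union]
    right
    rw [hcomdef, Finset.mem_image]
    refine ⟨((i, j), (ε, δ)), ?_, rfl⟩
    simp only [Finset.mem_product, Finset.mem_range, Finset.mem_insert, Finset.mem_singleton]
    exact ⟨⟨hi, hj⟩, hε, hδ⟩
  have hSA : ∀ x ∈ S', x ∈ (A : Set G) ∨ ∃ i, i < k ∧ x = T i := by
    intro x hx
    rw [hS'def, Finset.mem_union] at hx
    rcases hx with hx | hx
    · left; rw [Finset.mem_coe, hAdef]; exact Finset.mem_union_left _ hx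
    · right
      rw [Finset.mem_image] at hx
      obtain ⟨i, hi, rfl⟩ := hx
      exact ⟨i, Finset.mem_range.1 hi, rfl⟩
  have hm : ∀ x ∈ S', ∀ i, |hk π x i| ≤ 1 := by
    intro x hx i
    rcases hSA x hx with h | ⟨j, hj, rfl⟩
    · rw [(hker x).2 (hAL x h)]; simp
    · rw [hTd j hj.le, dv]; split_ifs <;> simp
  have hsecmem : ∀ (v : ℕ → ℤ) (j : ℕ), j ≤ k → sec T v j ∈ Subgroup.closure (S' : Set G) := by
    intro v j
    induction j with
    | zero => intro _; exact Subgroup.one_mem _
    | succ j ih =>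
      intro hj
      rw [sec]
      exact Subgroup.mul_mem _ (ih (by omega))
        (Subgroup.zpow_mem _ (Subgroup.subset_closure (hTS j (by omega))) _)
  have hS' : Subgroup.closure (S' : Set G) = ⊤ := by
    rw [eq_top_iff, ← hS, Subgroup.closure_le]
    intro x hx
    have h1 : x = (x * (sv T (hk π x))⁻¹) * sv T (hk π x) := by group
    rw [SetLike.mem_coe, h1]
    refine Subgroup.mul_mem _ (Subgroup.subset_closure ?_) (hsecmem _ k le_rfl)
    rw [Finset.mem_coe, hS'def, hS1]
    exact Finset.mem_union_left _ (Finset.mem_image_of_mem _ hx)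
  have hsl : ∀ (v : Fin k → ℤ) (N : ℕ), (∀ i, |v i| ≤ N) → WL S' (k * N) (sv T v) := by
    intro v N hv
    refine sec_len T S' N (ext0 v) k (fun i hi => hTl i hi.le) (fun i hi => ?_)
    rw [ext0, dif_pos hi]; exact hv _
  obtain ⟨m, hm1, hmA⟩ : ∃ m : ℕ, 1 ≤ m ∧ ∀ a ∈ A, a ^ m = 1 := by
    refine ⟨∏ a ∈ A, orderOf a, Finset.prod_pos (fun a ha => (htor a (hAL a ha)).orderOf_pos),
      fun a ha => ?_⟩
    obtain ⟨c, hc⟩ := Finset.dvd_prod_of_mem (fun a : G => orderOf a) ha
    rw [hc, pow_mul, pow_orderOf_eq_one, one_pow]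
  obtain ⟨cA, hcA1, hcA⟩ := exists_len S' A hS'
  -- powers of an element of finite order have bounded length
  have hpow : ∀ a ∈ L, ∃ c, ∀ z : ℤ, WL S' c (a ^ z) := by
    intro a ha
    obtain ⟨c, hc⟩ := exists_WL hS' a
    have h0 : (0 : ℤ) < orderOf a := by exact_mod_cast (htor a ha).orderOf_pos
    refine ⟨orderOf a * c, fun z => ?_⟩
    have h1 := Int.emod_nonneg z h0.ne'
    have h2 := Int.emod_lt_of_pos z h0
    have h3 : a ^ z = a ^ (z % orderOf a).toNat := by
      rw [← zpow_natCast, Int.toNat_of_nonneg h1, zpow_mod_orderOf]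
    rw [h3]
    refine (hc.pow _).mono (Nat.mul_le_mul_right _ ?_)
    omega
  choose! cp hcp using hpow
  set cm : ℕ := A.sup cp with hcmdef
  have hcm : ∀ a ∈ A, ∀ z : ℤ, WL S' cm (a ^ z) :=
    fun a ha z => (hcp a (hAL a ha) z).mono (Finset.le_sup (f := cp) ha)
  have hball := ball_subS T (A : Set G) π hT hcom S' hSA hA
  have hWL : ∀ n, WinS T k (A : Set G) n ≤ L := Wn_le (L := L) T A hAL
  set box : ℕ → Finset (Fin k → ℤ) := fun n =>
    Fintype.piFinset (fun _ : Fin k => Finset.Icc (-(n : ℤ)) n) with hbox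
  have hboxm : ∀ n v, v ∈ box n ↔ ∀ i, |v i| ≤ n := by
    intro n v
    rw [hbox]
    simp only [Fintype.mem_piFinset, Finset.mem_Icc, abs_le]
  set Afin : ℕ → Finset G := fun n =>
    (box n ×ˢ A).image (fun p => sv T p.1 * p.2 * (sv T p.1)⁻¹) with hAfin
  have hAfinL : ∀ n, ∀ x ∈ Afin n, x ∈ L := by
    intro n x hx
    rw [hAfin, Finset.mem_image] at hx
    obtain ⟨p, hp, rfl⟩ := hx
    rw [Finset.mem_product] at hp
    exact Subgroup.Normal.conj_mem inferInstance _ (hAL _ hp.2) _
  have hAfinm : ∀ n, ∀ x ∈ Afin n, x ^ m = 1 := by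
    intro n x hx
    rw [hAfin, Finset.mem_image] at hx
    obtain ⟨p, hp, rfl⟩ := hx
    rw [Finset.mem_product] at hp
    rw [conj_pow, hmA _ hp.2]; simp
  have hAfinl : ∀ n, ∀ x ∈ Afin n, WL S' ((2 * k + cA) * (n + 1)) x := by
    intro n x hx
    rw [hAfin, Finset.mem_image] at hx
    obtain ⟨p, hp, rfl⟩ := hx
    rw [Finset.mem_product, hboxm] at hp
    have h1 := hsl p.1 n hp.1
    refine ((h1.mul (hcA _ hp.2)).mul h1.inv).mono ?_
    nlinarith
  have hWA : ∀ n, WinS T k (A : Set G) n = Subgroup.closure (Afin n : Set G) := by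
    intro n
    apply le_antisymm
    · rw [WinS, Subgroup.closure_le]
      rintro g ⟨v, hv, a, ha, rfl⟩
      apply Subgroup.subset_closure
      rw [Finset.mem_coe, hAfin, Finset.mem_image]
      refine ⟨(fun i : Fin k => v i, a), ?_, ?_⟩
      · rw [Finset.mem_product, hboxm]
        exact ⟨fun i => hv i, ha⟩
      · have e : sct T k v = sv T (fun i : Fin k => v i) := by
          rw [sv, sct, sct]
          refine sec_congr T _ _ k (fun i hi => ?_)
          rw [ext0, dif_pos hi]
        rw [e]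
    · rw [Subgroup.closure_le]
      intro x hx
      rw [Finset.mem_coe, hAfin, Finset.mem_image] at hx
      obtain ⟨p, hp, rfl⟩ := hx
      rw [Finset.mem_product, hboxm] at hp
      exact sv_mem T A n _ hp.1 _ hp.2
  have hH1 : ∀ (n : ℕ) (g : G), WL S' n g → hk π g = 0 → g ∈ WinS T k (A : Set G) n := by
    intro n g hg h0
    have h1 := (hball n g hg).2
    rw [sct, sec_zero T _ k (fun i _ => by rw [hn, h0]; simp)] at h1
    simpa using h1
  have hkerW : ∀ (n : ℕ) (g : G), g ∈ WinS T k (A : Set G) n → hk π g = 0 :=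
    fun n g hg => (hker g).2 (hWL n hg)
  constructor
  · intro hF
    have hF' : FolExp S' := hF.change hS
    obtain ⟨K, hK⟩ := fol_cardL S' hF' L (Abelianization.of (G := L)) m hm1 (2 * k + cA)
    set ρ : (Fin k → ℤ) → (Abelianization L →* Abelianization L) := fun v =>
      Abelianization.map (rho (L := L) (sv T) v) with hρ
    set N : ℕ := 2 * K + 2 with hN
    have hNK : K ^ (N + 1) < 2 ^ (N * N) := by
      calc K ^ (N + 1) ≤ (2 ^ K) ^ (N + 1) := Nat.pow_le_pow_left Nat.lt_two_pow_self.le _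
        _ = 2 ^ (K * (N + 1)) := by rw [← pow_mul]
        _ < 2 ^ (N * N) := Nat.pow_lt_pow_right (by norm_num) (by rw [hN]; nlinarith)
    obtain ⟨B, hB, hBc⟩ := hK N ((Afin N).subtype (fun x => x ∈ L))
      (fun a ha => by
        rw [Finset.mem_subtype] at ha
        rw [← map_pow]
        have : a ^ m = 1 := Subtype.ext (hAfinm N _ ha)
        rw [this, map_one])
      (fun a ha => by
        rw [Finset.mem_subtype] at ha
        exact hAfinl N _ ha)
    set A0 : Set (Abelianization L) := {x | ∃ a : L, (a : G) ∈ A ∧ x = Abelianization.of a} with hA0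
    have hBsub : ∀ g ∈ Subgroup.closure (Bx ρ A0 N), g ∈ B := by
      intro g hg
      rw [hB]
      refine (Subgroup.closure_mono ?_) hg
      rintro x ⟨v, hv, _, ⟨a, ha, rfl⟩, rfl⟩
      refine ⟨rho (L := L) (sv T) v a, ?_, ?_⟩
      · rw [Finset.mem_coe, Finset.mem_subtype, hAfin, Finset.mem_image]
        refine ⟨(v, (a : G)), ?_, (rho_coe (sv T) v a).symm⟩
        rw [Finset.mem_product, hboxm]
        exact ⟨hv, ha⟩
      · rw [hρ]
        simp only [Abelianization.map_of]
    -- the relations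
    have hrelex : ∀ (a : G) (i j : Fin k), ∃ f : ℕ × ℕ → ℤ,
        (∀ p, f p = 0 ∨ f p = 1 ∨ f p = -1) ∧ (a ∈ A → i ≠ j →
          (∃ p ∈ Finset.range N ×ˢ Finset.range N, f p ≠ 0) ∧
          zel T k N a i j f ∈ Subgroup.center G) := by
      intro a i j
      by_cases haA : a ∈ A ∧ i ≠ j
      · obtain ⟨haA, hij⟩ := haA
        obtain ⟨f, hf, hf0, hrel⟩ := rel_exists ρ (Abelianization.of (⟨a, hAL a haA⟩ : L)) i j N
          (K ^ (N + 1)) A0 ⟨⟨a, hAL a haA⟩, haA, rfl⟩ B hBsub hBc hNK hij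
        refine ⟨f, hf, fun _ _ => ⟨hf0, ?_⟩⟩
        set zL : L := ((Finset.range N ×ˢ Finset.range N).toList.map (fun p =>
          (rho (L := L) (sv T) (Pi.single i (p.1 : ℤ) + Pi.single j (p.2 : ℤ))
            ⟨a, hAL a haA⟩) ^ (f p))).prod with hzL
        have h1 : Abelianization.of zL = 1 := by
          rw [hzL, map_list_prod, List.map_map, ← hrel, ← Finset.prod_map_toList]
          refine congrArg List.prod (List.map_congr_left ?_)
          intro p _
          rw [Function.comp_apply, map_zpow, hρ]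
          simp only [Abelianization.map_of]
        have h2 : zL ∈ commutator L := (QuotientGroup.eq_one_iff zL).1 h1
        have h3 := comm_center hcen L le_rfl zL h2
        have h4 : (zL : G) = zel T k N a i j f := by
          rw [hzL, zel, ← Subgroup.subtype_apply, map_list_prod, List.map_map]
          refine congrArg List.prod (List.map_congr_left ?_)
          intro p _
          rw [Function.comp_apply, map_zpow, Subgroup.subtype_apply, rho_coe]
        rw [← h4]; exact h3
      · refine ⟨fun _ => 0, fun _ => Or.inl rfl, fun h1 h2 => absurd ⟨h1, h2⟩ haA⟩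
    choose f hf hf' using hrelex
    have hzelL : ∀ a ∈ A, ∀ i j, zel T k N a i j (f a i j) ∈ L := by
      intro a ha i j
      refine Subgroup.list_prod_mem _ ?_
      intro x hx
      rw [List.mem_map] at hx
      obtain ⟨p, _, rfl⟩ := hx
      exact Subgroup.zpow_mem _ (Subgroup.Normal.conj_mem inferInstance _ (hAL _ ha) _) _
    obtain ⟨cz, hczb⟩ := exists_bound A (fun a i j => cp (zel T k N a i j (f a i j)))
    have hcz : ∀ a ∈ A, ∀ i j, ∀ e : ℤ, WL S' cz ((zel T k N a i j (f a i j)) ^ e) :=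
      fun a ha i j e => (hcp _ (hzelL a ha i j) e).mono (hczb a ha i j)
    set C1 : ℕ := (((k + 1) * (2 * N + 1) ^ k * A.card) + A.card * (k * k)) *
        (4 * k + 2 * (cm + 2) + cz) with hC1
    set mf : ℕ → ℕ := fun n => (2 * k + 2) * (n + 1) + k * (n + 2 * N) + N with hmf
    have hdec : ∀ (n : ℕ) (g : G), g ∈ WinS T k (A : Set G) n →
        ∃ y ∈ WinS T k (A : Set G) (mf n), WL S' (C1 * (n + 1)) y ∧
          ∃ d ∈ commutator (WinS T k (A : Set G) (mf n)), g = y * (d : G) := by
      intro n g hg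
      obtain ⟨y, hy, hyl, hd⟩ := strong_dec π T hTd hTl A hball hs k hsl cm hcm N (by omega) f
        hf (fun a ha i j hij => (hf' a i j ha hij).1) (fun a ha i j hij => (hf' a i j ha hij).2)
        cz hcz n (mf n) le_rfl g hg
      refine ⟨y, hy, hyl.mono ?_, hd⟩
      rw [hC1, ← mul_assoc]
    have hlen : ∀ (n : ℕ) (g : G), g ∈ WinS T k (A : Set G) n →
        WL S' ((C1 + A.card * (2 * (cA + C1 * (2 * k * (2 * k + 2 + k + 2 * k * N + N) + 1)))) *
          (n + 1)) g := by
      intro n g hg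
      obtain ⟨M, hM⟩ : ∃ M, M = mf n := ⟨_, rfl⟩
      have hdn := hdec n g hg
      rw [← hM] at hdn
      obtain ⟨y, hy, hyl, d, hd, rfl⟩ := hdn
      -- the commutator part
      set W' := WinS T k (A : Set G) (2 * k * M) with hW'
      have hgen : ∀ x ∈ {g | ∃ v : ℕ → ℤ, (∀ i, |v i| ≤ M) ∧ ∃ a ∈ (A : Set G),
          g = sct T k v * a * (sct T k v)⁻¹}, ∀ y ∈ {g | ∃ v : ℕ → ℤ, (∀ i, |v i| ≤ M) ∧
            ∃ a ∈ (A : Set G), g = sct T k v * a * (sct T k v)⁻¹}, ⁅x, y⁆ ∈ Eset A W' := by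
        rintro x ⟨v, hv, a, ha, rfl⟩ y ⟨v', hv', b, hb, rfl⟩
        have hl1 : WL S' (k * M) (sct T k v) :=
          sec_len T S' M v k (fun i hi => hTl i hi.le) (fun i _ => hv i)
        have hl2 : WL S' (k * M) (sct T k v') :=
          sec_len T S' M v' k (fun i hi => hTl i hi.le) (fun i _ => hv' i)
        have hw : WL S' (2 * k * M) ((sct T k v)⁻¹ * sct T k v') :=
          (hl1.inv.mul hl2).mono (by ring_nf; omega)
        have h1 := (conjWin π T A hball (2 * k * M) (2 * k * M) le_rfl _ hw b hb).1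
        have h2 := Eset_single A W' a ha _ h1
        have h3 : ⁅sct T k v * a * (sct T k v)⁻¹, sct T k v' * b * (sct T k v')⁻¹⁆ =
            sct T k v * ⁅a, (sct T k v)⁻¹ * sct T k v' * b * ((sct T k v)⁻¹ * sct T k v')⁻¹⁆ *
              (sct T k v)⁻¹ := by
          simp only [commutatorElement_def]; group
        have h4 := hcen a (hAL a ha) ((sct T k v)⁻¹ * sct T k v' * b *
          ((sct T k v)⁻¹ * sct T k v')⁻¹) (Subgroup.Normal.conj_mem inferInstance _ (hAL _ hb) _)
        rw [h3, Subgroup.mem_center_iff.1 h4, mul_inv_cancel_right]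
        exact h2
      have hdE : (d : G) ∈ Eset A W' := by
        refine comm_Eset hcen A hAL _ W' (hWL _) ?_ hgen d hd
        rintro x ⟨v, hv, a, ha, rfl⟩
        exact Subgroup.Normal.conj_mem inferInstance _ (hAL _ ha) _
      have hdl := Eset_len hcen A hAL W' (hWL _) S' cA (C1 * (2 * k * M + 1)) hcA (by
        intro y hy
        obtain ⟨y', hy', hyl', d', hd', he⟩ := hdec _ y hy
        exact ⟨y', hWL _ hy', hyl', (d' : G), comm_center hcen _ (hWL _) d' hd', he⟩) hdE
      have hMb : M ≤ (2 * k + 2 + k + 2 * k * N + N) * (n + 1) := by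
        rw [hM]; exact arith1 k N n
      exact (hyl.mul hdl).mono (arith2 C1 cA A.card M k _ n hMb)
    obtain ⟨d, hd⟩ := an_k hS' π hm (sv T) hs k hsl (WinS T k (A : Set G)) hH1 _ hlen
    exact ⟨d, hd.change hS' hS⟩
  · rintro ⟨d, hd⟩
    have hd' : ANLE S' d := hd.change hS hS'
    have hF' : FolExp S' := by
      refine nowak S' hS' d hd' (fun n hn => ?_)
      have hfin := hloc (Afin (2 * (k * (2 * (k + 1) * n)) + 1)) (fun x hx => hAfinL _ x hx)
      obtain ⟨F, hF, _⟩ := fol_k π hm (sv T) hs k hsl (WinS T k (A : Set G)) hH1 hkerW n hn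
        hfin.toFinset (fun g => by rw [Set.Finite.mem_toFinset, hWA]; rfl)
      exact ⟨F, hF⟩
    exact hF'.change hS'

end Pool.Agent.H684AN
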