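import Pool.Agent.H684AN.Met3

set_option autoImplicit false

/-!
Transfer of exponential Folner functions and of finite Assouad-Nagata dimension between a finitely
generated group and its subgroups of finite index.
-/

namespace Pool.Agent.H684AN

theorem mem_bd {G : Type*} [Group G] (S F : Finset G) (x : G) :
    x ∈ bd S F ↔ x ∈ F ∧ ∃ s ∈ S, x * s ∉ F ∨ x * s⁻¹ ∉ F := by
  classical
  unfold bd
  exact Finset.mem_filter

theorem WL.hom {G' G : Type*} [Group G'] [Group G] (f : G' →* G) {S' : Finset G'} {S : Finset G}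
    {c : ℕ} (hc : ∀ s ∈ S', WL S c (f s)) {n : ℕ} {g : G'} (hg : WL S' n g) :
    WL S (c * n) (f g) := by
  induction n generalizing g with
  | zero =>
    obtain ⟨l, h1, _, h3⟩ := hg
    have : l = [] := List.length_eq_zero_iff.mp (by omega)
    subst this
    rw [← h3]; simpa using WL.one S _
  | succ n ih =>
    obtain ⟨h, s, h1, h2, rfl⟩ := WL.succ_iff.1 hg
    have h3 := ih h1
    have h4 : WL S c (f s) := by
      rcases h2 with rfl | h2 | h2
      · rw [map_one]; exact WL.one S c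
      · exact hc s h2
      · have := (hc _ h2).inv; rwa [map_inv, inv_inv] at this
    rw [map_mul]
    exact (h3.mul h4).mono (by ring_nf; omega)

variable {G : Type*} [Group G] (H : Subgroup G)

/-- the coset correction `q g` with `g * q g ∈ H` -/
noncomputable def qc (g : G) : G := (QuotientGroup.mk g⁻¹ : G ⧸ H).out

theorem mul_qc (g : G) : g * qc H g ∈ H := by
  have h1 : (QuotientGroup.mk g⁻¹ : G ⧸ H) = QuotientGroup.mk (qc H g) :=
    (QuotientGroup.out_eq' _).symm
  have h2 := QuotientGroup.eq.1 h1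
  rwa [inv_inv] at h2

theorem qc_left (h : G) (hh : h ∈ H) (g : G) : qc H (h * g) = qc H g := by
  unfold qc
  congr 1
  rw [QuotientGroup.eq]
  rw [mul_inv_rev, mul_inv_rev, inv_inv, inv_inv]
  simpa [mul_assoc] using hh

/-- the projection to `H` -/
noncomputable def eta (g : G) : H := ⟨g * qc H g, mul_qc H g⟩

theorem eta_coe (g : G) : (eta H g : G) = g * qc H g := rfl

theorem eta_left (h : H) (g : G) : eta H (h * g) = h * eta H g := by
  apply Subtype.ext
  rw [eta_coe, qc_left H h h.2, Subgroup.coe_mul, eta_coe, mul_assoc]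

theorem qc_coset (q : G) (hq : ∃ g, q = qc H g) (h : H) : qc H (h * q⁻¹) = q := by
  obtain ⟨g, rfl⟩ := hq
  rw [qc_left H h h.2]
  conv_rhs => unfold qc
  unfold qc
  rw [inv_inv]
  exact congrArg Quotient.out (QuotientGroup.out_eq' _)

theorem exists_qfin [H.FiniteIndex] : ∃ R : Finset G, ∀ q, q ∈ R ↔ ∃ g, q = qc H g := by
  classical
  have : Finite (G ⧸ H) := H.finite_quotient_of_finiteIndex
  have := Fintype.ofFinite (G ⧸ H)
  refine ⟨Finset.univ.image (fun x : G ⧸ H => x.out), fun q => ?_⟩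
  rw [Finset.mem_image]
  constructor
  · rintro ⟨x, _, rfl⟩
    obtain ⟨g, rfl⟩ := QuotientGroup.mk_surjective x
    exact ⟨g⁻¹, by rw [qc, inv_inv]⟩
  · rintro ⟨g, rfl⟩
    exact ⟨_, Finset.mem_univ _, rfl⟩

variable {H}
variable {S : Finset G} (hS : Subgroup.closure (S : Set G) = ⊤) {SH : Finset H}
  (hSH : Subgroup.closure (SH : Set H) = ⊤)

include hS hSH in
/-- constants comparing the word metrics -/
theorem vir_const [H.FiniteIndex] : ∃ (R : Finset G) (c : ℕ), 1 ≤ c ∧
    (∀ q, q ∈ R ↔ ∃ g, q = qc H g) ∧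
    (∀ q ∈ R, WL S c q) ∧ (∀ s ∈ SH, WL S c (s : G)) ∧
    (∀ (q q' s : G), q ∈ R → q' ∈ R → WL S 1 s → ∀ hu : q⁻¹ * s * q' ∈ H,
      WL SH c (⟨q⁻¹ * s * q', hu⟩ : H)) ∧ WL SH c (eta H 1) := by
  classical
  obtain ⟨R, hR⟩ := exists_qfin H
  obtain ⟨c1, _, hc1⟩ := exists_len S R hS
  obtain ⟨c2, _, hc2⟩ := exists_len S (SH.image (fun s : H => (s : G))) hS
  obtain ⟨B, hB, _⟩ := exists_ball S 1
  set X : Finset G := ((R ×ˢ R) ×ˢ B).image (fun p => p.1.1⁻¹ * p.2 * p.1.2) with hX
  obtain ⟨c3, _, hc3⟩ := exists_len SH (X.subtype (fun x => x ∈ H)) hSH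
  obtain ⟨c4, hc4⟩ := exists_WL hSH (eta H 1)
  refine ⟨R, c1 + c2 + c3 + c4 + 1, by omega, hR, fun q hq => (hc1 q hq).mono (by omega),
    fun s hs => (hc2 _ (Finset.mem_image_of_mem _ hs)).mono (by omega), ?_,
    hc4.mono (by omega)⟩
  intro q q' s hq hq' hs hu
  refine (hc3 _ ?_).mono (by omega)
  rw [Finset.mem_subtype, hX, Finset.mem_image]
  refine ⟨((q, q'), s), ?_, rfl⟩
  simp only [Finset.mem_product]
  exact ⟨⟨hq, hq'⟩, (hB s).2 hs⟩

include hS hSH in
/-- a subgroup of finite index is undistorted -/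
theorem vir_undist [H.FiniteIndex] : ∃ c : ℕ, 1 ≤ c ∧ ∀ (n : ℕ) (g : G), WL S n g →
    WL SH (c * (n + 1)) (eta H g) := by
  obtain ⟨R, c, hc1, hR, -, -, h1, h2⟩ := vir_const hS hSH
  refine ⟨c, hc1, ?_⟩
  intro n
  induction n with
  | zero =>
    rintro g ⟨l, hl1, _, hl3⟩
    have : l = [] := List.length_eq_zero_iff.mp (by omega)
    subst this
    rw [← hl3]
    simpa using h2
  | succ n ih =>
    intro g hg
    obtain ⟨h, s, hh, hs, rfl⟩ := WL.succ_iff.1 hg
    have h3 := ih h hh
    have hu : (qc H h)⁻¹ * s * qc H (h * s) ∈ H := by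
      have h4 := H.mul_mem (H.inv_mem (mul_qc H h)) (mul_qc H (h * s))
      have e : (h * qc H h)⁻¹ * (h * s * qc H (h * s)) = (qc H h)⁻¹ * s * qc H (h * s) := by group
      rwa [e] at h4
    have e : eta H (h * s) = eta H h * ⟨(qc H h)⁻¹ * s * qc H (h * s), hu⟩ := by
      apply Subtype.ext
      rw [Subgroup.coe_mul, eta_coe, eta_coe]; group
    rw [e]
    have hs1 : WL S 1 s := by
      rcases hs with rfl | hs | hs
      · exact WL.one S 1
      · exact WL.of_mem hs
      · exact WL.of_inv_mem hs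
    refine (h3.mul (h1 _ _ s ((hR _).2 ⟨h, rfl⟩) ((hR _).2 ⟨h * s, rfl⟩) hs1 hu)).mono ?_
    ring_nf; omega

include hS hSH in
theorem vir_undist' [H.FiniteIndex] : ∃ c : ℕ, 1 ≤ c ∧ ∀ (n : ℕ) (h : H), WL S n (h : G) →
    WL SH (c * (n + 1)) h := by
  obtain ⟨c, hc1, hc⟩ := vir_undist hS hSH
  refine ⟨2 * c, by omega, fun n h hn => ?_⟩
  have h1 := hc n h hn
  have h2 := hc 0 1 (WL.one S 0)
  have e : h = eta H h * (eta H 1)⁻¹ := by
    have := eta_left H h 1
    rw [mul_one] at this
    rw [this]; group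
  rw [e]
  refine (h1.mul h2.inv).mono ?_
  nlinarith

include hS hSH in
theorem ANLE.up [H.FiniteIndex] {d : ℕ} (h : ANLE SH d) : ANLE S d := by
  obtain ⟨C, hC⟩ := h
  obtain ⟨R, cq, hcq1, hR, hRl, hSl, -, -⟩ := vir_const hS hSH
  obtain ⟨c, hc1, hc⟩ := vir_undist' hS hSH
  refine ⟨cq * (C * (c * (2 * cq + 2))) + 2 * cq, fun r hr => ?_⟩
  obtain ⟨col, k, hk⟩ := hC (c * (2 * cq + 2) * r)
    (Nat.succ_le_of_lt (Nat.mul_pos (Nat.mul_pos hc1 (by omega)) hr))
  refine ⟨fun g => col (eta H g), fun g => (k (eta H g) : G), fun x y hxy => ⟨fun hkk => ?_,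
    fun hkk => ?_⟩⟩
  · have h1 := (hk _ _ hxy).1 (Subtype.ext hkk)
    rw [dist_le_iff hSH] at h1
    have h2 := WL.hom H.subtype (S := S) (c := cq) (fun s hs => hSl s hs) h1
    rw [dist_le_iff hS]
    have e : x⁻¹ * y = qc H x * H.subtype ((eta H x)⁻¹ * eta H y) * (qc H y)⁻¹ := by
      simp only [Subgroup.subtype_apply, Subgroup.coe_mul, Subgroup.coe_inv, eta_coe]
      group
    rw [e]
    refine (((hRl _ ((hR _).2 ⟨x, rfl⟩)).mul h2).mul (hRl _ ((hR _).2 ⟨y, rfl⟩)).inv).mono ?_
    nlinarith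
  · have hne : k (eta H x) ≠ k (eta H y) := fun h => hkk (congrArg (fun z : H => (z : G)) h)
    have h1 := (hk _ _ hxy).2 hne
    rw [lt_dist_iff hSH] at h1
    rw [lt_dist_iff hS]
    intro hw
    apply h1
    have e : (((eta H x)⁻¹ * eta H y : H) : G) = (qc H x)⁻¹ * (x⁻¹ * y) * qc H y := by
      simp only [Subgroup.coe_mul, Subgroup.coe_inv, eta_coe]
      group
    have h2 : WL S (2 * cq + r) (((eta H x)⁻¹ * eta H y : H) : G) := by
      rw [e]
      refine (((hRl _ ((hR _).2 ⟨x, rfl⟩)).inv.mul hw).mul (hRl _ ((hR _).2 ⟨y, rfl⟩))).mono ?_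
      omega
    refine (hc _ _ h2).mono ?_
    rw [mul_assoc]
    refine Nat.mul_le_mul_left _ ?_
    nlinarith

include hS hSH in
theorem ANLE.down [H.FiniteIndex] {d : ℕ} (h : ANLE S d) : ANLE SH d := by
  classical
  obtain ⟨C, hC⟩ := h
  obtain ⟨R, cq, hcq1, hR, hRl, hSl, -, -⟩ := vir_const hS hSH
  obtain ⟨c, hc1, hc⟩ := vir_undist' hS hSH
  refine ⟨c * (C * cq + 1), fun r hr => ?_⟩
  obtain ⟨col, k, hk⟩ := hC (cq * r) (Nat.mul_pos hcq1 hr)
  set rep : H → H := fun x => Classical.choose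
    (⟨x, rfl, rfl⟩ : ∃ z : H, col z = col x ∧ k z = k x) with hrep
  have hrep1 : ∀ x : H, col (rep x) = col x ∧ k (rep x) = k x := fun x => Classical.choose_spec
    (⟨x, rfl, rfl⟩ : ∃ z : H, col z = col x ∧ k z = k x)
  have hrep2 : ∀ x y : H, col x = col y → k x = k y → rep x = rep y := by
    intro x y h1 h2
    rw [hrep]
    simp only
    congr 1
    funext z
    rw [h1, h2]
  refine ⟨fun x => col x, rep, fun x y hxy => ⟨fun hkk => ?_, fun hkk => ?_⟩⟩
  · have hkxy : k (x : G) = k (y : G) := by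
      rw [← (hrep1 x).2, ← (hrep1 y).2, hkk]
    have h1 := (hk x y hxy).1 hkxy
    rw [dist_le_iff hS] at h1
    rw [dist_le_iff hSH]
    refine (hc _ (x⁻¹ * y) (by simpa using h1)).mono ?_
    rw [mul_assoc]
    refine Nat.mul_le_mul_left _ ?_
    nlinarith
  · have hkxy : k (x : G) ≠ k (y : G) := fun h => hkk (hrep2 x y hxy h)
    have h1 := (hk x y hxy).2 hkxy
    rw [lt_dist_iff hS] at h1
    rw [lt_dist_iff hSH]
    intro hw
    apply h1
    have h2 := WL.hom H.subtype (S := S) (c := cq) (fun s hs => hSl s hs) hw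
    simpa using h2

include hS hSH in
theorem FolExp.down [H.FiniteIndex] (h : FolExp S) : FolExp SH := by
  classical
  obtain ⟨C, hC⟩ := h
  obtain ⟨R, cq, hcq1, hR, hRl, hSl, -, -⟩ := vir_const hS hSH
  set q0 : ℕ := R.card * (2 * SH.card * (3 * cq)) + 1 with hq0
  refine ⟨C ^ q0, fun n hn => ?_⟩
  obtain ⟨F, hF, hFc⟩ := hC (q0 * n) (Nat.mul_pos (by omega) hn)
  rw [isFol_iff] at hF
  obtain ⟨hne, hb⟩ := hF
  set P : G → Finset H := fun q => (F.filter (fun x => qc H x = q)).image (eta H) with hP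
  have hPm : ∀ q ∈ R, ∀ h : H, h ∈ P q ↔ (h : G) * q⁻¹ ∈ F := by
    intro q hq h
    rw [hP, Finset.mem_image]
    constructor
    · rintro ⟨x, hx, rfl⟩
      rw [Finset.mem_filter] at hx
      rw [eta_coe, hx.2]; simpa using hx.1
    · intro hx
      have h1 := qc_coset H q ((hR q).1 hq) h
      refine ⟨(h : G) * q⁻¹, Finset.mem_filter.2 ⟨hx, h1⟩, ?_⟩
      apply Subtype.ext
      rw [eta_coe, h1]; simp
  have hPc : ∀ q, (P q).card = (F.filter (fun x => qc H x = q)).card := by
    intro q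
    rw [hP]
    apply Finset.card_image_of_injOn
    intro x hx y hy hxy
    rw [Finset.mem_coe, Finset.mem_filter] at hx hy
    have := congrArg (fun z : H => (z : G)) hxy
    simp only [eta_coe, hx.2, hy.2] at this
    exact mul_right_cancel this
  have hsum : ∑ q ∈ R, (P q).card = F.card := by
    rw [Finset.sum_congr rfl (fun q _ => hPc q)]
    refine (Finset.card_eq_sum_card_fiberwise ?_).symm
    intro x _
    exact Finset.mem_coe.2 ((hR _).2 ⟨x, rfl⟩)
  have hbd : ∀ q ∈ R, (bd SH (P q)).card ≤ (2 * SH.card * (3 * cq)) * (bd S F).card := by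
    intro q hq
    have hmv : ∀ u : H, WL S cq (u : G) → ((P q).filter (fun x => x * u ∉ P q)).card ≤
        (3 * cq) * (bd S F).card := by
      intro u hu
      have h1 := move_le S F (3 * cq) (q * u * q⁻¹)
        ((((hRl q hq).mul hu).mul (hRl q hq).inv).mono (by omega))
      refine le_trans ?_ h1
      apply Finset.card_le_card_of_injOn (fun h : H => (h : G) * q⁻¹)
      · intro h hh
        rw [Finset.mem_coe, Finset.mem_filter, hPm q hq, hPm q hq] at hh
        rw [Finset.mem_coe, Finset.mem_filter]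
        refine ⟨hh.1, fun h2 => hh.2 ?_⟩
        have e : (h : G) * q⁻¹ * (q * u * q⁻¹) = ((h * u : H) : G) * q⁻¹ := by
          rw [Subgroup.coe_mul]; group
        rwa [e] at h2
      · intro x _ y _ hxy
        exact Subtype.ext (mul_right_cancel hxy)
    have hsub : bd SH (P q) ⊆ SH.biUnion (fun s => (P q).filter (fun x => x * s ∉ P q) ∪
        (P q).filter (fun x => x * s⁻¹ ∉ P q)) := by
      intro x hx
      rw [mem_bd] at hx
      obtain ⟨hx, s, hs, h⟩ := hx
      rw [Finset.mem_biUnion]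
      refine ⟨s, hs, ?_⟩
      rw [Finset.mem_union, Finset.mem_filter, Finset.mem_filter]
      rcases h with h | h
      · exact Or.inl ⟨hx, h⟩
      · exact Or.inr ⟨hx, h⟩
    calc _ ≤ _ := Finset.card_le_card hsub
      _ ≤ ∑ s ∈ SH, _ := Finset.card_biUnion_le
      _ ≤ ∑ s ∈ SH, (2 * (3 * cq) * (bd S F).card) := by
          refine Finset.sum_le_sum (fun s hs => ?_)
          refine (Finset.card_union_le _ _).trans ?_
          have h1 := hmv s (hSl s hs)
          have h2 := hmv s⁻¹ (by simpa using (hSl s hs).inv)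
          calc _ ≤ (3 * cq) * (bd S F).card + (3 * cq) * (bd S F).card := Nat.add_le_add h1 h2
            _ = _ := by ring
      _ = _ := by rw [Finset.sum_const, smul_eq_mul]; ring
  obtain ⟨q, hq, hqne, hqc⟩ : ∃ q ∈ R, (P q).Nonempty ∧ n * (bd SH (P q)).card ≤ (P q).card := by
    by_contra hcon
    push Not at hcon
    have h1 : ∀ q ∈ R, (P q).card ≤ n * (bd SH (P q)).card := by
      intro q hq
      by_cases h : (P q).Nonempty
      · exact (hcon q hq h).le
      · rw [Finset.not_nonempty_iff_eq_empty.1 h]; simp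
    have h2 : F.card ≤ n * (R.card * ((2 * SH.card * (3 * cq)) * (bd S F).card)) := by
      rw [← hsum]
      calc _ ≤ ∑ q ∈ R, n * ((2 * SH.card * (3 * cq)) * (bd S F).card) :=
            Finset.sum_le_sum (fun q hq => (h1 q hq).trans (Nat.mul_le_mul_left _ (hbd q hq)))
        _ = _ := by rw [Finset.sum_const, smul_eq_mul]; ring
    have hbpos : 0 < (bd S F).card := by
      by_contra h0
      have h0' : (bd S F).card = 0 := by omega
      rw [h0'] at h2
      have := hne.card_pos
      simp at h2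
      rw [h2] at this
      simp at this
    have h3 : q0 * n * (bd S F).card =
        n * (R.card * ((2 * SH.card * (3 * cq)) * (bd S F).card)) + n * (bd S F).card := by
      rw [hq0]; ring
    have h4 : 0 < n * (bd S F).card := Nat.mul_pos hn hbpos
    omega
  refine ⟨P q, ?_, ?_⟩
  · rw [isFol_iff]; exact ⟨hqne, hqc⟩
  · rw [hPc, ← pow_mul]
    exact (Finset.card_filter_le _ _).trans hFc

include hS hSH in
theorem FolExp.up [H.FiniteIndex] (h : FolExp SH) : FolExp S := by
  classical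
  obtain ⟨C, hC⟩ := h
  obtain ⟨R, cq, hcq1, hR, hRl, hSl, hu, -⟩ := vir_const hS hSH
  have hRne : R.Nonempty := ⟨qc H 1, (hR _).2 ⟨1, rfl⟩⟩
  set q0 : ℕ := (R.card * R.card) * (2 * S.card) * cq + 1 with hq0
  refine ⟨C ^ q0 * 2 ^ R.card, fun n hn => ?_⟩
  obtain ⟨F, hF, hFc⟩ := hC (q0 * n) (Nat.mul_pos (by omega) hn)
  rw [isFol_iff] at hF
  obtain ⟨hne, hb⟩ := hF
  set F' : Finset G := (F ×ˢ R).image (fun p => (p.1 : G) * p.2⁻¹) with hF'
  have hqc' : ∀ (h : H) (q : G), q ∈ R → qc H ((h : G) * q⁻¹) = q :=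
    fun h q hq => qc_coset H q ((hR q).1 hq) h
  have heta' : ∀ (h : H) (q : G), q ∈ R → eta H ((h : G) * q⁻¹) = h := by
    intro h q hq
    apply Subtype.ext
    rw [eta_coe, hqc' h q hq]; simp
  have hmem : ∀ g, g ∈ F' ↔ eta H g ∈ F := by
    intro g
    rw [hF', Finset.mem_image]
    constructor
    · rintro ⟨p, hp, rfl⟩
      rw [Finset.mem_product] at hp
      rw [heta' _ _ hp.2]; exact hp.1
    · intro hg
      refine ⟨(eta H g, qc H g), ?_, ?_⟩
      · rw [Finset.mem_product]; exact ⟨hg, (hR _).2 ⟨g, rfl⟩⟩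
      · simp only [eta_coe]; group
  have hcard : F'.card = F.card * R.card := by
    rw [hF', Finset.card_image_of_injOn, Finset.card_product]
    rintro ⟨h, q⟩ hp ⟨h', q'⟩ hp' heq
    rw [Finset.mem_coe, Finset.mem_product] at hp hp'
    simp only at heq hp hp'
    have e1 := hqc' h q hp.2
    have e2 := hqc' h' q' hp'.2
    have e3 := heta' h q hp.2
    have e4 := heta' h' q' hp'.2
    rw [heq] at e1 e3
    rw [← e3, ← e1, e4, e2]
  have hbd : (bd S F').card ≤ (R.card * R.card) * (2 * S.card) * cq * (bd SH F).card := by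
    set T : Finset G := S ∪ S.image (fun s => s⁻¹) with hT
    have hTc : T.card ≤ 2 * S.card := by
      refine (Finset.card_union_le _ _).trans ?_
      have := Finset.card_image_le (s := S) (f := fun s : G => s⁻¹)
      omega
    have hTW : ∀ s ∈ T, WL S 1 s := by
      intro s hs
      rw [hT, Finset.mem_union, Finset.mem_image] at hs
      rcases hs with hs | ⟨a, ha, rfl⟩
      · exact WL.of_mem hs
      · exact (WL.of_mem ha).inv
    have hsub : bd S F' ⊆ ((R ×ˢ R) ×ˢ T).biUnion (fun p =>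
        (F.filter (fun h : H => ∃ hu : p.1.1⁻¹ * p.2 * p.1.2 ∈ H,
          h * (⟨p.1.1⁻¹ * p.2 * p.1.2, hu⟩ : H) ∉ F)).image (fun h : H => (h : G) * p.1.1⁻¹)) := by
      intro x hx
      rw [mem_bd] at hx
      obtain ⟨hx, s, hs, hbad⟩ := hx
      obtain ⟨s', hs', hbad'⟩ : ∃ s' ∈ T, x * s' ∉ F' := by
        rcases hbad with hbad | hbad
        · exact ⟨s, by rw [hT]; exact Finset.mem_union_left _ hs, hbad⟩
        · exact ⟨s⁻¹, by rw [hT]; exact Finset.mem_union_right _ (Finset.mem_image_of_mem _ hs),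
            hbad⟩
      rw [Finset.mem_biUnion]
      refine ⟨((qc H x, qc H (x * s')), s'), ?_, ?_⟩
      · simp only [Finset.mem_product]
        exact ⟨⟨(hR _).2 ⟨x, rfl⟩, (hR _).2 ⟨x * s', rfl⟩⟩, hs'⟩
      · rw [Finset.mem_image]
        refine ⟨eta H x, ?_, ?_⟩
        · rw [Finset.mem_filter]
          refine ⟨(hmem x).1 hx, ?_⟩
          have hu : (qc H x)⁻¹ * s' * qc H (x * s') ∈ H := by
            have h4 := H.mul_mem (H.inv_mem (mul_qc H x)) (mul_qc H (x * s'))
            have e : (x * qc H x)⁻¹ * (x * s' * qc H (x * s')) =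
                (qc H x)⁻¹ * s' * qc H (x * s') := by group
            rwa [e] at h4
          refine ⟨hu, ?_⟩
          rw [hmem] at hbad'
          have e : eta H (x * s') = eta H x * ⟨(qc H x)⁻¹ * s' * qc H (x * s'), hu⟩ := by
            apply Subtype.ext
            rw [Subgroup.coe_mul, eta_coe, eta_coe]; group
          rwa [e] at hbad'
        · simp only [eta_coe]; group
    calc _ ≤ _ := Finset.card_le_card hsub
      _ ≤ ∑ p ∈ (R ×ˢ R) ×ˢ T, _ := Finset.card_biUnion_le
      _ ≤ ∑ p ∈ (R ×ˢ R) ×ˢ T, cq * (bd SH F).card := by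
          refine Finset.sum_le_sum (fun p hp => ?_)
          rw [Finset.mem_product, Finset.mem_product] at hp
          refine Finset.card_image_le.trans ?_
          by_cases hu' : p.1.1⁻¹ * p.2 * p.1.2 ∈ H
          · have h6 := move_le SH F cq _ (hu _ _ _ hp.1.1 hp.1.2 (hTW _ hp.2) hu')
            have h7 : (F.filter (fun x => x * (⟨p.1.1⁻¹ * p.2 * p.1.2, hu'⟩ : H) ∉ F)).card ≤
                cq * (bd SH F).card := by convert h6
            refine le_trans (Finset.card_le_card ?_) h7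
            intro h hh
            obtain ⟨h1, h2, h3⟩ := Finset.mem_filter.1 hh
            exact Finset.mem_filter.2 ⟨h1, h3⟩
          · rw [Finset.filter_false_of_mem]
            · simp
            · rintro h _ ⟨h2, _⟩
              exact hu' h2
      _ = (R.card * R.card) * T.card * (cq * (bd SH F).card) := by
          rw [Finset.sum_const, smul_eq_mul, Finset.card_product, Finset.card_product]
      _ ≤ (R.card * R.card) * (2 * S.card) * (cq * (bd SH F).card) :=
          Nat.mul_le_mul_right _ (Nat.mul_le_mul_left _ hTc)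
      _ = _ := by ring
  refine ⟨F', ?_, ?_⟩
  · rw [isFol_iff]
    refine ⟨?_, ?_⟩
    · rw [← Finset.card_pos, hcard]
      exact Nat.mul_pos hne.card_pos hRne.card_pos
    · calc n * (bd S F').card ≤
            n * ((R.card * R.card) * (2 * S.card) * cq * (bd SH F).card) :=
              Nat.mul_le_mul_left _ hbd
        _ ≤ q0 * n * (bd SH F).card := by
            rw [hq0]
            have : n * ((R.card * R.card) * (2 * S.card) * cq * (bd SH F).card) =
              ((R.card * R.card) * (2 * S.card) * cq) * n * (bd SH F).card := by ring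
            rw [this]
            exact Nat.mul_le_mul_right _ (Nat.mul_le_mul_right _ (Nat.le_succ _))
        _ ≤ F.card := hb
        _ ≤ F.card * R.card := Nat.le_mul_of_pos_right _ hRne.card_pos
        _ = F'.card := hcard.symm
  · rw [hcard]
    calc F.card * R.card ≤ C ^ (q0 * n) * 2 ^ (R.card * n) := by
          refine Nat.mul_le_mul hFc ?_
          calc R.card ≤ 2 ^ R.card := Nat.lt_two_pow_self.le
            _ ≤ 2 ^ (R.card * n) := Nat.pow_le_pow_right (by norm_num)
                (Nat.le_mul_of_pos_right _ hn)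
      _ = _ := by rw [mul_pow, ← pow_mul, ← pow_mul]

/-- The equivalence for finite extensions of (torsion abelian)-by-`ℤ ^ k` groups. -/
theorem main_Vir {G : Type*} [Group G] (S : Finset G) (hS : Subgroup.closure (S : Set G) = ⊤)
    (H : Subgroup G) (hfi : H.FiniteIndex) (L : Subgroup H) [L.Normal]
    (hab : ∀ x ∈ L, ∀ y ∈ L, x * y = y * x) (htor : ∀ x ∈ L, IsOfFinOrder x) (k : ℕ)
    (hq : Nonempty ((H ⧸ L) ≃* Multiplicative (Fin k → ℤ))) :
    FolExp S ↔ ∃ d, ANLE S d := by
  have := hfi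
  have : Group.FG G := Group.fg_def.2 ⟨S, hS⟩
  obtain ⟨SH, hSH⟩ := Group.fg_def.1 (inferInstance : Group.FG H)
  have h1 := main_Met SH hSH L hab htor hq
  constructor
  · intro h
    obtain ⟨d, hd⟩ := h1.1 (h.down hS hSH)
    exact ⟨d, hd.up hS hSH⟩
  · rintro ⟨d, hd⟩
    exact (h1.2 ⟨d, hd.down hS hSH⟩).up hS hSH

end Pool.Agent.H684AN
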