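import Pool.Agent.H684AN.X2

set_option autoImplicit false

open scoped commutatorElement IsMulCommutative

/-!
Locally finite by infinite cyclic groups in which the derived subgroup of the kernel is virtually
central: exponential Folner function and Assouad-Nagata dimension at most one.
-/

namespace Pool.Agent.H684AN

variable {G : Type*} [Group G]

/-- the window subgroups in `G` -/
def Hs (t : G) (A0 : Subgroup G) (k : ℕ) : Subgroup G :=
  Subgroup.closure {g | ∃ i : ℤ, |i| ≤ k ∧ ∃ a ∈ A0, g = t ^ i * a * t ^ (-i)}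

theorem Hs_mono (t : G) (A0 : Subgroup G) {k k' : ℕ} (h : k ≤ k') : Hs t A0 k ≤ Hs t A0 k' := by
  refine Subgroup.closure_mono ?_
  rintro g ⟨i, hi, a, ha, rfl⟩
  exact ⟨i, hi.trans (by exact_mod_cast h), a, ha, rfl⟩

theorem Hs_WL {S : Finset G} (π : G →* Multiplicative ℤ) (t : G) (A0 : Subgroup G)
    (hA0 : ∀ s ∈ S, s * t ^ (-(ht π s)) ∈ A0) (m : ℕ)
    (hm : ∀ (n : ℕ) (g : G), WL S n g → |ht π g| ≤ m * n) (n : ℕ) (g : G) (hg : WL S n g) :
    g * t ^ (-(ht π g)) ∈ Hs t A0 (m * n) := by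
  induction n generalizing g with
  | zero =>
    obtain ⟨l, h1, _, h3⟩ := hg
    have : l = [] := List.length_eq_zero_iff.mp (by omega)
    rw [← h3, this]
    simp only [List.prod_nil, ht_one, neg_zero, zpow_zero, mul_one]
    exact Subgroup.one_mem _
  | succ n ih =>
    have hgb := hm _ _ hg
    obtain ⟨h, s, h1, h2, rfl⟩ := WL.succ_iff.1 hg
    have h3 := Hs_mono t A0 (Nat.mul_le_mul_left m (Nat.le_succ n)) (ih h h1)
    have h4 := hm _ _ h1
    rcases h2 with rfl | h2 | h2
    · simpa using h3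
    · have e1 : h * s * t ^ (-(ht π (h * s))) = (h * t ^ (-(ht π h))) *
          (t ^ (ht π h) * (s * t ^ (-(ht π s))) * t ^ (-(ht π h))) := by
        rw [ht_mul]; group
      rw [e1]
      refine Subgroup.mul_mem _ h3 (Subgroup.subset_closure ⟨ht π h, ?_, _, hA0 s h2, rfl⟩)
      push_cast; nlinarith
    · have e1 : h * s * t ^ (-(ht π (h * s))) = (h * t ^ (-(ht π h))) *
          (t ^ (ht π (h * s)) * (s⁻¹ * t ^ (-(ht π s⁻¹)))⁻¹ * t ^ (-(ht π (h * s)))) := by
        rw [ht_mul, ht_inv]; group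
      rw [e1]
      refine Subgroup.mul_mem _ h3 (Subgroup.subset_closure ⟨ht π (h * s), ?_, _,
        A0.inv_mem (hA0 s⁻¹ h2), rfl⟩)
      push_cast; push_cast at hgb; linarith

section
variable (L : Subgroup G) [L.Normal] (t : G)

/-- conjugation by the powers of `t` on `L` -/
def sg (k : ℤ) : L ≃* L := MulAut.conjNormal (t ^ k)

theorem sg_coe (k : ℤ) (x : L) : ((sg L t k x : L) : G) = t ^ k * x * t ^ (-k) := by
  rw [sg, MulAut.conjNormal_apply, zpow_neg]

theorem sg_add (i j : ℤ) (x : L) : sg L t (i + j) x = sg L t i (sg L t j x) := by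
  apply Subtype.ext
  rw [sg_coe, sg_coe, sg_coe]; group

theorem Hs_conj (A0 : Subgroup G) (hA0 : A0 ≤ L) (k : ℕ) (g : G) (hg : g ∈ Hs t A0 k) :
    ∃ x ∈ Wsub (sg L t) (A0.subgroupOf L) (2 * k + 1), g = t ^ (-(k : ℤ)) * x * t ^ (k : ℤ) := by
  induction hg using Subgroup.closure_induction with
  | mem g hg =>
    obtain ⟨i, hi, a, ha, rfl⟩ := hg
    rw [abs_le] at hi
    refine ⟨sg L t ((i + k).toNat : ℤ) ⟨a, hA0 ha⟩, ?_, ?_⟩
    · exact Subgroup.subset_closure ⟨(i + k).toNat, by omega, ⟨a, hA0 ha⟩, ha, rfl⟩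
    · rw [sg_coe, Int.toNat_of_nonneg (by omega)]
      simp only
      group
  | one => exact ⟨1, Subgroup.one_mem _, by simp⟩
  | mul x y _ _ hx hy =>
    obtain ⟨x', hx', rfl⟩ := hx
    obtain ⟨y', hy', rfl⟩ := hy
    refine ⟨x' * y', Subgroup.mul_mem _ hx' hy', ?_⟩
    rw [Subgroup.coe_mul]; group
  | inv x _ hx =>
    obtain ⟨x', hx', rfl⟩ := hx
    refine ⟨x'⁻¹, Subgroup.inv_mem _ hx', ?_⟩
    rw [Subgroup.coe_inv]; group

variable {S : Finset G} (ct cA : ℕ) (hct : WL S ct t) (A0 : Subgroup G) 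
  (hcA : ∀ a ∈ A0, WL S cA a)

include hct hcA in
theorem Pset_len (N : ℕ) (q : L) (hq : q ∈ Pset (sg L t) (A0.subgroupOf L) N) :
    WL S (N * (cA + 2 * ct)) (q : G) := by
  have key : ∀ (N : ℕ) (q : L), q ∈ Pset (sg L t) (A0.subgroupOf L) N →
      WL S (N * (cA + ct)) ((q : G) * t ^ (N : ℤ)) := by
    intro N
    induction N with
    | zero =>
      intro q hq
      rw [show q = 1 from hq]
      simpa using WL.one S 0
    | succ N ih =>
      rintro q ⟨p, hp, a, ha, rfl⟩
      have h1 := ih p hp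
      have e1 : ((p * sg L t N a : L) : G) * t ^ ((N + 1 : ℕ) : ℤ) =
          ((p : G) * t ^ (N : ℤ)) * ((a : G) * t) := by
        rw [Subgroup.coe_mul, sg_coe]; push_cast; group
      rw [e1]
      refine (h1.mul ((hcA a ha).mul hct)).mono ?_
      ring_nf; omega
  have h1 := key N q hq
  have h2 := (hct.zpow (N : ℤ)).inv
  have e1 : (q : G) = ((q : G) * t ^ (N : ℤ)) * (t ^ (N : ℤ))⁻¹ := by group
  rw [e1]
  refine (h1.mul h2).mono ?_
  rw [Int.natAbs_natCast]; ring_nf; omega

end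

theorem prod_len {L : Subgroup G} {S : Finset G} {ι : Type*} (X : Finset ι)
    (f : ι → Subgroup.center L) (B : ℕ) (hf : ∀ i ∈ X, WL S B ((f i : L) : G)) :
    WL S (X.card * B) (((∏ i ∈ X, f i : Subgroup.center L) : L) : G) := by
  classical
  induction X using Finset.induction_on with
  | empty => simpa using WL.one S 0
  | insert a X ha ih =>
    rw [Finset.prod_insert ha, Finset.card_insert_of_notMem ha]
    have h1 := hf a (Finset.mem_insert_self a X)
    have h2 := ih (fun i hi => hf i (Finset.mem_insert_of_mem hi))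
    have h3 := h1.mul h2
    simp only [Subgroup.coe_mul]
    refine h3.mono ?_
    ring_nf; omega

theorem WL.comm {S : Finset G} {a b : ℕ} {x y : G} (hx : WL S a x) (hy : WL S b y) :
    WL S (2 * (a + b)) ⁅x, y⁆ := by
  rw [commutatorElement_def]
  refine (((hx.mul hy).mul hx.inv).mul hy.inv).mono ?_
  omega

theorem main_X (S : Finset G) (hS : Subgroup.closure (S : Set G) = ⊤) (L : Subgroup G) [L.Normal]
    (hloc : ∀ E : Finset G, (E : Set G) ⊆ L → (Subgroup.closure (E : Set G) : Set G).Finite)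
    (hq : Nonempty ((G ⧸ L) ≃* Multiplicative ℤ))
    (hLc : L ≤ Subgroup.centralizer ((⁅L, L⁆ : Subgroup G) : Set G))
    (hfi : (Subgroup.centralizer ((⁅L, L⁆ : Subgroup G) : Set G)).FiniteIndex) :
    FolExp S ∧ ANLE S 1 := by
  classical
  obtain ⟨e⟩ := hq
  set π : G →* Multiplicative ℤ := e.toMonoidHom.comp (QuotientGroup.mk' L) with hπ
  have hker : ∀ g, ht π g = 0 ↔ g ∈ L := by
    intro g
    have h1 : π g = 1 ↔ g ∈ L := by
      rw [hπ]
      simp only [MonoidHom.comp_apply, MulEquiv.toMonoidHom_eq_coe, MonoidHom.coe_coe,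
        QuotientGroup.mk'_apply]
      rw [map_eq_one_iff e e.injective, QuotientGroup.eq_one_iff]
    rw [← h1, ht]
    exact Iff.rfl
  obtain ⟨t, htt⟩ : ∃ t : G, ht π t = 1 := by
    obtain ⟨q, hq⟩ := e.surjective (Multiplicative.ofAdd 1)
    obtain ⟨t, rfl⟩ := QuotientGroup.mk'_surjective L q
    exact ⟨t, by rw [ht, hπ]; simp only [MonoidHom.comp_apply]; exact congrArg Multiplicative.toAdd hq⟩
  obtain ⟨m, hm1, hm⟩ := ht_bound S π
  obtain ⟨ct, hct⟩ := exists_WL hS t
  obtain ⟨M, hM, -, hMt⟩ := Subgroup.exists_pow_mem_of_index_ne_zero hfi.index_ne_zero t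
  -- the finite group generated by the `L`-parts of the generators
  set E : Finset G := S.image (fun s => s * t ^ (-(ht π s))) with hE
  have hEL : (E : Set G) ⊆ L := by
    intro g hg
    rw [hE, Finset.coe_image] at hg
    obtain ⟨s, _, rfl⟩ := hg
    have : ht π (s * t ^ (-(ht π s))) = 0 := by rw [ht_mul, ht_zpow, htt]; ring
    exact (hker _).1 this
  set A0 : Subgroup G := Subgroup.closure (E : Set G) with hA0
  have hA0L : A0 ≤ L := (Subgroup.closure_le L).2 hEL
  have hA0fin : (A0 : Set G).Finite := hloc E hEL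
  obtain ⟨cA, hcA⟩ : ∃ cA, ∀ a ∈ A0, WL S cA a := by
    choose f hf using fun g => exists_WL hS g
    refine ⟨hA0fin.toFinset.sup f, fun a ha => (hf a).mono ?_⟩
    exact Finset.le_sup (f := f) (by simpa using ha)
  have hcomm : ∀ x y : L, ⁅x, y⁆ ∈ Subgroup.center L := by
    intro x y
    rw [Subgroup.mem_center_iff]
    intro z
    have h1 : ((⁅x, y⁆ : L) : G) ∈ ((⁅L, L⁆ : Subgroup G) : Set G) :=
      Subgroup.commutator_mem_commutator x.2 y.2
    have h2 := (Subgroup.mem_centralizer_iff.1 (hLc z.2)) _ h1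
    exact Subtype.ext h2.symm
  have hfix : ∀ (l : ℤ) (x y : L), beta hcomm (sg L t (M * l) x) (sg L t (M * l) y) =
      beta hcomm x y := by
    intro l x y
    apply Subtype.ext
    apply Subtype.ext
    rw [beta_coe, beta_coe]
    have h1 : ((⁅x, y⁆ : L) : G) ∈ ((⁅L, L⁆ : Subgroup G) : Set G) :=
      Subgroup.commutator_mem_commutator x.2 y.2
    have h3 : t ^ (M * l) ∈ Subgroup.centralizer ((⁅L, L⁆ : Subgroup G) : Set G) := by
      rw [zpow_mul, zpow_natCast]
      exact Subgroup.zpow_mem _ hMt l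
    have h2 := (Subgroup.mem_centralizer_iff.1 h3) _ h1
    have e1 : ((⁅sg L t (M * l) x, sg L t (M * l) y⁆ : L) : G) =
        t ^ (M * l) * ((⁅x, y⁆ : L) : G) * (t ^ (M * l))⁻¹ := by
      rw [← map_commutatorElement, sg_coe, zpow_neg]
    rw [e1, ← h2]
    group
  set A : Subgroup L := A0.subgroupOf L with hA
  have hAfin : (A : Set L).Finite := by
    rw [hA, Subgroup.coe_subgroupOf]
    exact hA0fin.preimage (Subtype.val_injective.injOn)
  set Af : Finset L := hAfin.toFinset with hAf0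
  have hAf : ∀ a, a ∈ Af ↔ a ∈ A := by intro a; rw [hAf0]; simp
  have hAf1 : 1 ≤ Af.card := by
    rw [Nat.one_le_iff_ne_zero, ← Nat.pos_iff_ne_zero, Finset.card_pos]
    exact ⟨1, (hAf 1).2 A.one_mem⟩
  have hHker : ∀ k g, g ∈ Hs t A0 k → ht π g = 0 := by
    intro k g hg
    rw [hker]
    have h1 : Hs t A0 k ≤ L := by
      rw [Hs, Subgroup.closure_le]
      rintro g ⟨i, _, a, ha, rfl⟩
      rw [zpow_neg]
      exact (inferInstance : L.Normal).conj_mem a (hA0L ha) (t ^ i)
    exact h1 hg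
  have hH1 : ∀ (n : ℕ) (g : G), WL S n g → ht π g = 0 → g ∈ Hs t A0 (m * n) := by
    intro n g hg h0
    have h1 := Hs_WL π t A0 (fun s hs => Subgroup.subset_closure
      (by rw [hE, Finset.coe_image]; exact ⟨s, hs, rfl⟩)) m hm n g hg
    rw [h0] at h1
    simpa using h1
  set D := cA + 2 * ct + 1 with hD
  set Xc := M * Af.card with hXc
  have hlen : ∀ (n : ℕ) (g : G), g ∈ Hs t A0 (m * n) →
      WL S (((2 * m + 1) * D * (2 + Xc * (4 * M + 8))) * (n + 1)) g := by
    intro n g hg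
    obtain ⟨x, hx, rfl⟩ := Hs_conj L t A0 hA0L (m * n) g hg
    obtain ⟨q, hq, w, hw, rfl⟩ := Wsub_form' hcomm (sg L t) A (sg_add L t) M hM hfix Af hAf _ x hx
    set N := 2 * (m * n) + 1 with hN
    have l1 := Pset_len L t ct cA hct A0 hcA N q hq
    have l2 : WL S (Xc * (4 * M * D + 8 * N * D))
        (((∏ ι ∈ Finset.range M ×ˢ Af, beta hcomm (sg L t ι.1 ι.2) (sg L t (-(N : ℤ)) (w ι)) :
          Subgroup.center L) : L) : G) := by
      have h := prod_len (S := S) (Finset.range M ×ˢ Af)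
        (fun ι => beta hcomm (sg L t ι.1 ι.2) (sg L t (-(N : ℤ)) (w ι)))
        (4 * M * D + 8 * N * D) (by
          intro ι hι
          rw [Finset.mem_product, Finset.mem_range, hAf] at hι
          have e1 : (((beta hcomm (sg L t ι.1 ι.2) (sg L t (-(N : ℤ)) (w ι)) :
            Subgroup.center L) : L) : G) =
              ⁅((sg L t ι.1 ι.2 : L) : G), ((sg L t (-(N : ℤ)) (w ι) : L) : G)⁆ := rfl
          rw [e1, sg_coe, sg_coe]
          have a1 := ((hct.zpow (ι.1 : ℤ)).mul (hcA _ hι.2)).mul (hct.zpow (-(ι.1 : ℤ)))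
          have a2 := ((hct.zpow (-(N : ℤ))).mul (Pset_len L t ct cA hct A0 hcA _ _ (hw ι))).mul
            (hct.zpow (- -(N : ℤ)))
          refine (WL.comm a1 a2).mono ?_
          have b1 : ι.1 ≤ M := hι.1.le
          have b2 : ι.1 * ct ≤ M * ct := Nat.mul_le_mul_right _ b1
          simp only [Int.natAbs_neg, Int.natAbs_natCast]
          have b3 : cA ≤ M * cA := Nat.le_mul_of_pos_left _ hM
          rw [hD]
          nlinarith)
      refine h.mono (le_of_eq ?_)
      rw [Finset.card_product, Finset.card_range]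
    have l3 := hct.zpow (-((m * n : ℕ) : ℤ))
    have l4 := hct.zpow ((m * n : ℕ) : ℤ)
    have l5 := (l3.mul (l1.mul l2)).mul l4
    rw [Subgroup.coe_mul]
    refine l5.mono ?_
    simp only [Int.natAbs_neg, Int.natAbs_natCast]
    have c1 : N ≤ (2 * m + 1) * (n + 1) := by rw [hN]; nlinarith
    have c2 : 1 ≤ N := by rw [hN]; omega
    have c3 : m * n * ct + (N * (cA + 2 * ct) + Xc * (4 * M * D + 8 * N * D)) + m * n * ct ≤
        N * (D * (2 + Xc * (4 * M + 8))) := by
      have d1 : 2 * (m * n * ct) ≤ N * D := by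
        have : m * n ≤ N := by rw [hN]; omega
        calc 2 * (m * n * ct) = (m * n) * (2 * ct) := by ring
          _ ≤ N * D := Nat.mul_le_mul this (by rw [hD]; omega)
      have d2 : N * (cA + 2 * ct) ≤ N * D := Nat.mul_le_mul_left _ (by rw [hD]; omega)
      have d3 : Xc * (4 * M * D + 8 * N * D) ≤ N * (D * (Xc * (4 * M + 8))) := by
        have : 4 * M * D + 8 * N * D ≤ N * (D * (4 * M + 8)) := by nlinarith [Nat.mul_le_mul_right (4 * M * D) c2]
        calc Xc * (4 * M * D + 8 * N * D) ≤ Xc * (N * (D * (4 * M + 8))) :=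
              Nat.mul_le_mul_left _ this
          _ = _ := by ring
      nlinarith
    refine c3.trans ?_
    calc N * (D * (2 + Xc * (4 * M + 8))) ≤ ((2 * m + 1) * (n + 1)) * (D * (2 + Xc * (4 * M + 8))) :=
          Nat.mul_le_mul_right _ c1
      _ = _ := by ring
  have hcard : ∀ n : ℕ, ∃ B : Finset G, (∀ g, g ∈ B ↔ g ∈ Hs t A0 (m * n)) ∧
      B.card ≤ ((Af.card ^ (1 + 2 * Xc)) ^ (2 * m + 1)) ^ (n + 1) := by
    intro n
    set N := 2 * (m * n) + 1 with hN
    obtain ⟨B, hB, hBc⟩ := Wsub_card hcomm (sg L t) A (sg_add L t) M hM hfix Af hAf N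
    set f : L → G := fun x => t ^ (-((m * n : ℕ) : ℤ)) * x * t ^ ((m * n : ℕ) : ℤ) with hf
    refine ⟨(B.image f).filter (fun g => g ∈ Hs t A0 (m * n)), fun g => ?_, ?_⟩
    · rw [Finset.mem_filter]
      refine ⟨fun h => h.2, fun h => ⟨?_, h⟩⟩
      obtain ⟨x, hx, rfl⟩ := Hs_conj L t A0 hA0L (m * n) g h
      rw [Finset.mem_image]
      exact ⟨x, (hB x).2 hx, rfl⟩
    · refine (Finset.card_filter_le _ _).trans (Finset.card_image_le.trans (hBc.trans ?_))
      rw [← pow_mul, ← pow_mul]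
      apply Nat.pow_le_pow_right hAf1
      have c1 : N ≤ (2 * m + 1) * (n + 1) := by rw [hN]; nlinarith
      calc N + 2 * N * (M * Af.card) = N * (1 + 2 * Xc) := by rw [hXc]; ring
        _ ≤ ((2 * m + 1) * (n + 1)) * (1 + 2 * Xc) := Nat.mul_le_mul_right _ c1
        _ = _ := by ring
  refine ⟨fol_exp hS π t htt (fun n => Hs t A0 (m * n)) hH1 (fun n g hg => hHker _ g hg) _ hcard,
    an_one hS π t htt (fun n => Hs t A0 (m * n)) hH1 (fun n g hg => hHker _ g hg) _ hlen⟩

end Pool.Agent.H684AN
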