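import Pool.Agent.H684AN.Cen6
import Pool.Agent.H684AN.Vir
import Pool.Agent.H684AN.X3

set_option autoImplicit false

/-!
Passage to finite-index subgroups: the kernel is locally finite and its derived subgroup is
centralised by a subgroup of finite index.
-/

open scoped commutatorElement

namespace Pool.Agent.H684AN

variable {H : Type*} [Group H] (L K : Subgroup H)

theorem sub_loc
    (hloc : ∀ E : Finset H, (E : Set H) ⊆ L → (Subgroup.closure (E : Set H) : Set H).Finite)
    (E : Finset K) (hE : (E : Set K) ⊆ L.subgroupOf K) :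
    (Subgroup.closure (E : Set K) : Set K).Finite := by
  classical
  have h1 := hloc (E.image (fun x : K => (x : H))) (by
    intro x hx
    rw [Finset.coe_image] at hx
    obtain ⟨y, hy, rfl⟩ := hx
    exact Subgroup.mem_subgroupOf.1 (hE hy))
  refine Set.Finite.of_finite_image (f := fun x : K => (x : H)) (h1.subset ?_)
    Subtype.val_injective.injOn
  rintro _ ⟨x, hx, rfl⟩
  have h2 : Subgroup.map K.subtype (Subgroup.closure (E : Set K)) =
      Subgroup.closure (K.subtype '' (E : Set K)) := MonoidHom.map_closure _ _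
  rw [Finset.coe_image]
  have h3 : (x : H) ∈ Subgroup.map K.subtype (Subgroup.closure (E : Set K)) := ⟨x, hx, rfl⟩
  rw [h2] at h3
  exact h3

theorem sub_quot {k : ℕ} [L.Normal] [K.FiniteIndex]
    (hq : Nonempty ((H ⧸ L) ≃* Multiplicative (Fin k → ℤ))) :
    Nonempty ((K ⧸ L.subgroupOf K) ≃* Multiplicative (Fin k → ℤ)) := by
  obtain ⟨e⟩ := hq
  let em : Multiplicative (Fin k → ℤ) ≃* (Fin k → Multiplicative ℤ) :=
    MulEquiv.funMultiplicative _ _
  let φ : H →* (Fin k → Multiplicative ℤ) :=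
    (em.toMonoidHom.comp e.toMonoidHom).comp (QuotientGroup.mk' L)
  have hφs : Function.Surjective φ :=
    (em.surjective.comp e.surjective).comp (QuotientGroup.mk'_surjective L)
  have hφk : ∀ x, φ x = 1 ↔ x ∈ L := by
    intro x
    have h1 : φ x = em (e (QuotientGroup.mk' L x)) := rfl
    rw [h1, map_eq_one_iff em em.injective, map_eq_one_iff e e.injective,
      QuotientGroup.mk'_apply, QuotientGroup.eq_one_iff]
  let ψ : K →* (Fin k → Multiplicative ℤ) := φ.comp K.subtype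
  have hψk : ψ.ker = L.subgroupOf K := by
    ext x
    rw [MonoidHom.mem_ker, Subgroup.mem_subgroupOf]
    exact hφk x
  have hrange : ψ.range = K.map φ := by
    ext y
    constructor
    · rintro ⟨x, rfl⟩
      exact ⟨x, x.2, rfl⟩
    · rintro ⟨x, hx, rfl⟩
      exact ⟨⟨x, hx⟩, rfl⟩
  have hidx : ψ.range.index ≠ 0 := by
    rw [hrange]
    intro h0
    have h1 := Subgroup.index_map_dvd K hφs
    rw [h0, zero_dvd_iff] at h1
    exact Subgroup.FiniteIndex.index_ne_zero h1
  obtain ⟨e2⟩ := Int.subgroup_index_ne_zero_iff.1 hidx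
  exact ⟨((QuotientGroup.quotientMulEquivOfEq hψk.symm).trans
    (QuotientGroup.quotientKerEquivRange ψ)).trans (e2.trans em.symm)⟩

theorem sub_cen [L.Normal] (x y : (Subgroup.centralizer ((⁅L, L⁆ : Subgroup H) : Set H)))
    (hx : x ∈ L.subgroupOf (Subgroup.centralizer ((⁅L, L⁆ : Subgroup H) : Set H)))
    (hy : y ∈ L.subgroupOf (Subgroup.centralizer ((⁅L, L⁆ : Subgroup H) : Set H))) :
    ⁅x, y⁆ ∈ Subgroup.center (Subgroup.centralizer ((⁅L, L⁆ : Subgroup H) : Set H)) := by
  rw [Subgroup.mem_center_iff]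
  intro g
  apply Subtype.ext
  have h1 : ((⁅x, y⁆ : (Subgroup.centralizer ((⁅L, L⁆ : Subgroup H) : Set H))) : H) =
      ⁅(x : H), (y : H)⁆ := rfl
  have h2 : ⁅(x : H), (y : H)⁆ ∈ (⁅L, L⁆ : Subgroup H) :=
    Subgroup.commutator_mem_commutator (Subgroup.mem_subgroupOf.1 hx)
      (Subgroup.mem_subgroupOf.1 hy)
  have h3 := (Subgroup.mem_centralizer_iff.1 g.2) _ h2
  rw [Subgroup.coe_mul, Subgroup.coe_mul, h1]
  exact h3.symm

theorem main_CenV {G : Type*} [Group G] (S : Finset G) (hS : Subgroup.closure (S : Set G) = ⊤)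
    (H : Subgroup G) (hfi : H.FiniteIndex) (L : Subgroup H) [L.Normal]
    (hloc : ∀ E : Finset H, (E : Set H) ⊆ L → (Subgroup.closure (E : Set H) : Set H).Finite)
    (hC : (Subgroup.centralizer ((⁅L, L⁆ : Subgroup H) : Set H)).FiniteIndex) (k : ℕ)
    (hq : Nonempty ((H ⧸ L) ≃* Multiplicative (Fin k → ℤ))) :
    FolExp S ↔ ∃ d, ANLE S d := by
  have := hfi
  have := hC
  have : Group.FG G := Group.fg_def.2 ⟨S, hS⟩
  obtain ⟨SH, hSH⟩ := Group.fg_def.1 (inferInstance : Group.FG H)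
  set K := Subgroup.centralizer ((⁅L, L⁆ : Subgroup H) : Set H) with hK
  obtain ⟨SK, hSK⟩ := Group.fg_def.1 (inferInstance : Group.FG K)
  have h1 := main_Cen SK hSK (L.subgroupOf K) (fun E hE => sub_loc L K hloc E hE)
    (fun x hx y hy => sub_cen L x y hx hy) (sub_quot L K hq)
  constructor
  · intro h
    obtain ⟨d, hd⟩ := h1.1 ((h.down hS hSH).down hSH hSK)
    exact ⟨d, (hd.up hSH hSK).up hS hSH⟩
  · rintro ⟨d, hd⟩
    exact ((h1.2 ⟨d, (hd.down hS hSH).down hSH hSK⟩).up hSH hSK).up hS hSH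

theorem main_XV {G : Type*} [Group G] (S : Finset G) (hS : Subgroup.closure (S : Set G) = ⊤)
    (H : Subgroup G) (hfi : H.FiniteIndex) (L : Subgroup H) [L.Normal]
    (hloc : ∀ E : Finset H, (E : Set H) ⊆ L → (Subgroup.closure (E : Set H) : Set H).Finite)
    (hC : (Subgroup.centralizer ((⁅L, L⁆ : Subgroup H) : Set H)).FiniteIndex)
    (hq : Nonempty ((H ⧸ L) ≃* Multiplicative ℤ)) :
    FolExp S ∧ ANLE S 1 := by
  have := hfi
  have := hC
  have : Group.FG G := Group.fg_def.2 ⟨S, hS⟩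
  obtain ⟨SH, hSH⟩ := Group.fg_def.1 (inferInstance : Group.FG H)
  set K := Subgroup.centralizer ((⁅L, L⁆ : Subgroup H) : Set H) with hK
  obtain ⟨SK, hSK⟩ := Group.fg_def.1 (inferInstance : Group.FG K)
  let e1 : Multiplicative ℤ ≃* Multiplicative (Fin 1 → ℤ) :=
    AddEquiv.toMultiplicative (AddEquiv.funUnique (Fin 1) ℤ).symm
  obtain ⟨e⟩ := hq
  obtain ⟨e'⟩ := sub_quot (k := 1) L K ⟨e.trans e1⟩
  have hcomK : ∀ z ∈ (⁅L.subgroupOf K, L.subgroupOf K⁆ : Subgroup K), z ∈ Subgroup.center K := by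
    have h1 : (⁅L.subgroupOf K, L.subgroupOf K⁆ : Subgroup K) ≤ Subgroup.center K := by
      rw [Subgroup.commutator_le]
      exact fun x hx y hy => sub_cen L x y hx hy
    exact fun z hz => h1 hz
  have htop : Subgroup.centralizer ((⁅L.subgroupOf K, L.subgroupOf K⁆ : Subgroup K) : Set K) = ⊤ := by
    rw [eq_top_iff]
    intro g _
    rw [Subgroup.mem_centralizer_iff]
    intro z hz
    exact ((Subgroup.mem_center_iff.1 (hcomK z hz)) g).symm
  have h1 := main_X SK hSK (L.subgroupOf K) (fun E hE => sub_loc L K hloc E hE)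
    ⟨e'.trans e1.symm⟩ (by rw [htop]; exact le_top) (by rw [htop]; infer_instance)
  exact ⟨(h1.1.up hSH hSK).up hS hSH, (h1.2.up hSH hSK).up hS hSH⟩

end Pool.Agent.H684AN
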