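import Pool.Agent.H684AN.Crit

set_option autoImplicit false

/-!
Folner sets and words; change of generating sets.
-/

namespace Pool.Agent.H684AN

variable {G : Type*} [Group G]

open Classical in
/-- the inner boundary -/
noncomputable def bd (S : Finset G) (F : Finset G) : Finset G :=
  F.filter (fun g => ∃ s ∈ S, g * s ∉ F ∨ g * s⁻¹ ∉ F)

theorem isFol_iff (S : Finset G) (n : ℕ) (F : Finset G) :
    IsFol S n F ↔ F.Nonempty ∧ n * (bd S F).card ≤ F.card := by
  rw [IsFol, bd]

open Classical in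
theorem move_le (S : Finset G) (F : Finset G) (l : ℕ) (w : G) (hw : WL S l w) :
    (F.filter (fun x => x * w ∉ F)).card ≤ l * (bd S F).card := by
  induction l generalizing w with
  | zero =>
    obtain ⟨l, h1, _, h3⟩ := hw
    have : l = [] := List.length_eq_zero_iff.mp (by omega)
    subst this
    rw [Finset.filter_false_of_mem]
    · simp
    · intro x hx
      rw [← h3]; simpa using hx
  | succ l ih =>
    obtain ⟨h, s, h1, h2, rfl⟩ := WL.succ_iff.1 hw
    have h3 := ih h h1
    have hsub : F.filter (fun x => x * (h * s) ∉ F) ⊆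
        F.filter (fun x => x * h ∉ F) ∪ (bd S F).image (fun x => x * h⁻¹) := by
      intro x hx
      rw [Finset.mem_filter] at hx
      rw [Finset.mem_union, Finset.mem_filter, Finset.mem_image]
      by_cases hxh : x * h ∈ F
      · right
        refine ⟨x * h, ?_, by group⟩
        rw [bd, Finset.mem_filter]
        refine ⟨hxh, ?_⟩
        rcases h2 with rfl | h2 | h2
        · exfalso; apply hx.2; simpa using hxh
        · exact ⟨s, h2, Or.inl (by rw [mul_assoc]; exact hx.2)⟩
        · exact ⟨s⁻¹, h2, Or.inr (by rw [inv_inv, mul_assoc]; exact hx.2)⟩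
      · left; exact ⟨hx.1, hxh⟩
    calc _ ≤ _ := Finset.card_le_card hsub
      _ ≤ _ := Finset.card_union_le _ _
      _ ≤ l * (bd S F).card + (bd S F).card := Nat.add_le_add h3 Finset.card_image_le
      _ = _ := by ring

theorem bd_le (S S' : Finset G) (c : ℕ) (hc : ∀ s ∈ S', WL S c s) (F : Finset G) :
    (bd S' F).card ≤ (2 * S'.card * c) * (bd S F).card := by
  classical
  have hsub : bd S' F ⊆ S'.biUnion (fun s => F.filter (fun x => x * s ∉ F) ∪
      F.filter (fun x => x * s⁻¹ ∉ F)) := by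
    intro x hx
    rw [bd, Finset.mem_filter] at hx
    obtain ⟨hx, s, hs, h⟩ := hx
    rw [Finset.mem_biUnion]
    refine ⟨s, hs, ?_⟩
    rw [Finset.mem_union, Finset.mem_filter, Finset.mem_filter]
    rcases h with h | h
    · exact Or.inl ⟨hx, h⟩
    · exact Or.inr ⟨hx, h⟩
  calc _ ≤ _ := Finset.card_le_card hsub
    _ ≤ ∑ s ∈ S', _ := Finset.card_biUnion_le
    _ ≤ ∑ s ∈ S', (2 * c * (bd S F).card) := by
        refine Finset.sum_le_sum (fun s hs => ?_)
        refine (Finset.card_union_le _ _).trans ?_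
        have h1 := move_le S F c s (hc s hs)
        have h2 := move_le S F c s⁻¹ (hc s hs).inv
        calc _ ≤ c * (bd S F).card + c * (bd S F).card := Nat.add_le_add h1 h2
          _ = _ := by ring
    _ = _ := by rw [Finset.sum_const, smul_eq_mul]; ring

theorem exists_len (S S' : Finset G) (hS : Subgroup.closure (S : Set G) = ⊤) :
    ∃ c : ℕ, 1 ≤ c ∧ ∀ s ∈ S', WL S c s := by
  choose f hf using fun g => exists_WL hS g
  exact ⟨S'.sup f + 1, by omega, fun s hs => (hf s).mono
    ((Finset.le_sup (f := f) hs).trans (Nat.le_succ _))⟩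

theorem IsFol.change {S S' : Finset G} (hS : Subgroup.closure (S : Set G) = ⊤) :
    ∃ c : ℕ, 1 ≤ c ∧ ∀ (n : ℕ) (F : Finset G), IsFol S (c * n) F → IsFol S' n F := by
  obtain ⟨c, hc1, hc⟩ := exists_len S S' hS
  refine ⟨2 * S'.card * c + 1, by omega, fun n F hF => ?_⟩
  rw [isFol_iff] at hF ⊢
  refine ⟨hF.1, ?_⟩
  have h1 := bd_le S S' c hc F
  calc n * (bd S' F).card ≤ n * ((2 * S'.card * c) * (bd S F).card) := Nat.mul_le_mul_left _ h1
    _ ≤ (2 * S'.card * c + 1) * n * (bd S F).card := by nlinarith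
    _ ≤ F.card := hF.2

theorem FolExp.change {S S' : Finset G} (hS : Subgroup.closure (S : Set G) = ⊤)
    (h : FolExp S) : FolExp S' := by
  obtain ⟨C, hC⟩ := h
  obtain ⟨c, hc1, hc⟩ := IsFol.change (S' := S') hS
  refine ⟨C ^ c, fun n hn => ?_⟩
  obtain ⟨F, hF, hFc⟩ := hC (c * n) (Nat.mul_pos hc1 hn)
  exact ⟨F, hc n F hF, by rw [← pow_mul]; exact hFc⟩

theorem WL.change {S S' : Finset G} {c : ℕ} (hc : ∀ s ∈ S', WL S c s) {n : ℕ} {g : G}
    (hg : WL S' n g) : WL S (c * n) g := by
  induction n generalizing g with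
  | zero =>
    obtain ⟨l, h1, _, h3⟩ := hg
    have : l = [] := List.length_eq_zero_iff.mp (by omega)
    subst this
    rw [← h3]; exact WL.one S _
  | succ n ih =>
    obtain ⟨h, s, h1, h2, rfl⟩ := WL.succ_iff.1 hg
    have h3 := ih h1
    have h4 : WL S c s := by
      rcases h2 with rfl | h2 | h2
      · exact WL.one S c
      · exact hc s h2
      · have := (hc _ h2).inv; rwa [inv_inv] at this
    exact (h3.mul h4).mono (by ring_nf; omega)

theorem ANLE.change {S S' : Finset G} (hS : Subgroup.closure (S : Set G) = ⊤)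
    (hS' : Subgroup.closure (S' : Set G) = ⊤) {d : ℕ} (h : ANLE S d) : ANLE S' d := by
  obtain ⟨C, hC⟩ := h
  obtain ⟨c, hc1, hc⟩ := exists_len S S' hS
  obtain ⟨c', hc1', hc'⟩ := exists_len S' S hS'
  refine ⟨c' * (C * c), fun r hr => ?_⟩
  obtain ⟨col, k, h⟩ := hC (c * r) (Nat.mul_pos hc1 hr)
  refine ⟨col, k, fun x y hxy => ⟨fun hk => ?_, fun hk => ?_⟩⟩
  · have h1 := (h x y hxy).1 hk
    rw [dist_le_iff hS] at h1
    rw [dist_le_iff hS']
    refine (WL.change hc' h1).mono (le_of_eq (by ring))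
  · have h1 := (h x y hxy).2 hk
    rw [lt_dist_iff hS] at h1
    rw [lt_dist_iff hS']
    intro h2
    exact h1 (WL.change hc h2)

end Pool.Agent.H684AN
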