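import Pool.Agent.H684AN.Irr

set_option autoImplicit false

/-!
Folner sets and chains of subgroups: if `f p`, `p ∈ Q`, generate a strictly increasing chain of
subgroups and have length at most `l`, then `2 ^ (|Q| / 4) ≤ |F|` for every Folner set `F` for the
scale `2 l`.
-/

namespace Pool.Agent.H684AN

variable {G : Type*} [Group G] {ι : Type}

/-- `f` is a chain on `Q` for the weight `wt` -/
def Chn (f : ι → G) (wt : ι → ℤ) (Q : Finset ι) : Prop :=
  ∀ p ∈ Q, f p ∉ Subgroup.closure (f '' {q | q ∈ Q ∧ q ≠ p ∧ wt q ≤ wt p})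

theorem Chn.sub {f : ι → G} {wt : ι → ℤ} {Q Q' : Finset ι} (h : Chn f wt Q) (hQ : Q' ⊆ Q) :
    Chn f wt Q' := by
  intro p hp hcl
  refine h p (hQ hp) (Subgroup.closure_mono (Set.image_mono ?_) hcl)
  rintro q ⟨h1, h2, h3⟩
  exact ⟨hQ h1, h2, h3⟩

theorem Chn.inj {f : ι → G} {wt : ι → ℤ} {Q : Finset ι} (h : Chn f wt Q) :
    Set.InjOn f (Q : Set ι) := by
  intro p hp q hq hpq
  by_contra hne
  rcases le_total (wt p) (wt q) with h1 | h1
  · exact h q hq (by
      rw [← hpq]
      exact Subgroup.subset_closure ⟨p, ⟨hp, hne, h1⟩, rfl⟩)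
  · exact h p hp (by
      rw [hpq]
      exact Subgroup.subset_closure ⟨q, ⟨hq, Ne.symm hne, h1⟩, rfl⟩)

open Classical in
theorem Chn.deg (f : ι → G) (wt : ι → ℤ) (Q : Finset ι) (hQ : Chn f wt Q) :
    ∀ (δ : ℕ) (Φ : Finset G), Φ.Nonempty →
      (∀ x ∈ Φ, δ ≤ (Q.filter (fun p => x * f p ∈ Φ ∨ x * (f p)⁻¹ ∈ Φ)).card) →
      2 ^ δ ≤ Φ.card := by
  induction Q using Finset.induction_on_max_value wt with
  | empty =>
    intro δ Φ hne hdeg
    obtain ⟨x, hx⟩ := hne
    have h1 := hdeg x hx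
    rw [Finset.filter_empty, Finset.card_empty, Nat.le_zero] at h1
    subst h1
    have : 0 < Φ.card := Finset.card_pos.2 ⟨x, hx⟩
    simpa using this
  | insert a Q ha hmax ih =>
    have ih' := ih (hQ.sub (Finset.subset_insert a Q))
    set D := Subgroup.closure (f '' (Q : Set ι)) with hD
    have haD : f a ∉ D := by
      intro hcl
      refine hQ a (Finset.mem_insert_self a Q) (Subgroup.closure_mono (Set.image_mono ?_) hcl)
      intro q hq
      exact ⟨Finset.mem_insert_of_mem hq, fun h => ha (h ▸ hq), hmax q hq⟩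
    have hfD : ∀ p ∈ Q, f p ∈ D := fun p hp => Subgroup.subset_closure ⟨p, hp, rfl⟩
    intro δ Φ hne hdeg
    -- the slices
    have hslice : ∀ (δ' : ℕ) (z : G), z ∈ Φ →
        (∀ y ∈ Φ, δ' ≤ (Q.filter (fun p => y * f p ∈ Φ ∨ y * (f p)⁻¹ ∈ Φ)).card) →
        2 ^ δ' ≤ (Φ.filter (fun y => z⁻¹ * y ∈ D)).card := by
      intro δ' z hz hd
      apply ih' δ'
      · exact ⟨z, Finset.mem_filter.2 ⟨hz, by simp [D.one_mem]⟩⟩
      · intro y hy
        rw [Finset.mem_filter] at hy
        refine (hd y hy.1).trans (Finset.card_le_card ?_)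
        intro p hp
        rw [Finset.mem_filter] at hp ⊢
        refine ⟨hp.1, ?_⟩
        rcases hp.2 with h | h
        · left
          rw [Finset.mem_filter]
          refine ⟨h, ?_⟩
          rw [← mul_assoc]; exact D.mul_mem hy.2 (hfD p hp.1)
        · right
          rw [Finset.mem_filter]
          refine ⟨h, ?_⟩
          rw [← mul_assoc]; exact D.mul_mem hy.2 (D.inv_mem (hfD p hp.1))
    by_cases hex : ∃ x₀ ∈ Φ, x₀ * f a ∈ Φ ∨ x₀ * (f a)⁻¹ ∈ Φ
    · obtain ⟨x₀, hx₀, he⟩ := hex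
      obtain ⟨u, hu, huΦ⟩ : ∃ u : G, u ∉ D ∧ x₀ * u ∈ Φ := by
        rcases he with he | he
        · exact ⟨f a, haD, he⟩
        · exact ⟨(f a)⁻¹, fun h => haD (by simpa using D.inv_mem h), he⟩
      rcases Nat.eq_zero_or_pos δ with h0 | h0
      · subst h0
        have : 0 < Φ.card := Finset.card_pos.2 ⟨x₀, hx₀⟩
        simpa using this
      · obtain ⟨δ', rfl⟩ := Nat.exists_eq_succ_of_ne_zero h0.ne'
        have hd : ∀ y ∈ Φ, δ' ≤ (Q.filter (fun p => y * f p ∈ Φ ∨ y * (f p)⁻¹ ∈ Φ)).card := by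
          intro y hy
          have h2 := hdeg y hy
          have hsub : (insert a Q).filter (fun p => y * f p ∈ Φ ∨ y * (f p)⁻¹ ∈ Φ) ⊆
              insert a (Q.filter (fun p => y * f p ∈ Φ ∨ y * (f p)⁻¹ ∈ Φ)) := by
            intro p hp
            rw [Finset.mem_filter, Finset.mem_insert] at hp
            rw [Finset.mem_insert, Finset.mem_filter]
            rcases hp.1 with h | h
            · exact Or.inl h
            · exact Or.inr ⟨h, hp.2⟩
          have h3 := (Finset.card_le_card hsub).trans (Finset.card_insert_le _ _)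
          omega
        have hdis : Disjoint (Φ.filter (fun y => x₀⁻¹ * y ∈ D))
            (Φ.filter (fun y => (x₀ * u)⁻¹ * y ∈ D)) := by
          rw [Finset.disjoint_left]
          intro y hy hy'
          rw [Finset.mem_filter] at hy hy'
          apply hu
          have h5 := D.mul_mem hy.2 (D.inv_mem hy'.2)
          have h6 : x₀⁻¹ * y * ((x₀ * u)⁻¹ * y)⁻¹ = u := by group
          rwa [h6] at h5
        calc 2 ^ (δ' + 1) = 2 ^ δ' + 2 ^ δ' := by ring
          _ ≤ _ := Nat.add_le_add (hslice δ' x₀ hx₀ hd) (hslice δ' (x₀ * u) huΦ hd)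
          _ = _ := (Finset.card_union_of_disjoint hdis).symm
          _ ≤ Φ.card := Finset.card_le_card
              (Finset.union_subset (Finset.filter_subset _ _) (Finset.filter_subset _ _))
    · push Not at hex
      obtain ⟨z, hz⟩ := hne
      have hd : ∀ y ∈ Φ, δ ≤ (Q.filter (fun p => y * f p ∈ Φ ∨ y * (f p)⁻¹ ∈ Φ)).card := by
        intro y hy
        refine (hdeg y hy).trans (Finset.card_le_card ?_)
        intro p hp
        rw [Finset.mem_filter, Finset.mem_insert] at hp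
        rw [Finset.mem_filter]
        rcases hp.1 with h | h
        · subst h
          exfalso
          rcases hp.2 with h2 | h2
          · exact (hex y hy).1 h2
          · exact (hex y hy).2 h2
        · exact ⟨h, hp.2⟩
      exact (hslice δ z hz hd).trans (Finset.card_le_card (Finset.filter_subset _ _))

theorem Chn.fol {S : Finset G} {f : ι → G} {wt : ι → ℤ} {Q : Finset ι} (hQ : Chn f wt Q) (l : ℕ)
    (hl : ∀ p ∈ Q, WL S l (f p)) (F : Finset G) (hF : IsFol S (2 * l) F) :
    2 ^ (Q.card / 4) ≤ F.card := by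
  classical
  rw [isFol_iff] at hF
  obtain ⟨hne, hb⟩ := hF
  set E : Finset G := Q.image f with hE
  have hEc : E.card = Q.card := Finset.card_image_of_injOn hQ.inj
  have h1 : ∀ e ∈ E, F.card ≤ 2 * (F.filter (fun x => x * e ∈ F)).card := by
    intro e he
    rw [hE, Finset.mem_image] at he
    obtain ⟨p, hp, rfl⟩ := he
    have h2 := move_le S F l (f p) (hl p hp)
    have h3 := Finset.card_filter_add_card_filter_not (s := F) (fun x => x * f p ∈ F)
    nlinarith
  have h2 : (2 * (E.card / 4)) * F.card ≤ ∑ e ∈ E, (F.filter (fun x => x * e ∈ F)).card := by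
    have h3 := Finset.sum_le_sum h1
    rw [Finset.sum_const, smul_eq_mul, ← Finset.mul_sum] at h3
    have h4 : 4 * (E.card / 4) ≤ E.card := Nat.mul_div_le _ _
    have h5 := Nat.mul_le_mul_right F.card h4
    nlinarith
  obtain ⟨Φ, hΦF, hΦ, hdeg⟩ := exists_core E (2 * (E.card / 4)) F.card F rfl hne h2
  rw [← hEc]
  refine (Chn.deg f wt Q hQ (E.card / 4) Φ hΦ ?_).trans (Finset.card_le_card hΦF)
  intro x hx
  have h3 := hdeg x hx
  have hconv : ∀ P : G → Prop, (E.filter P).card = (Q.filter (fun p => P (f p))).card := by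
    intro P
    rw [hE, Finset.filter_image]
    exact Finset.card_image_of_injOn (hQ.inj.mono (by
      intro y hy
      exact Finset.mem_coe.2 (Finset.mem_of_mem_filter y (Finset.mem_coe.1 hy))))
  have h4 : (E.filter (fun e => x * e ∈ Φ)).card ≤
      (E.filter (fun e => x * e ∈ Φ ∨ x * e⁻¹ ∈ Φ)).card :=
    Finset.card_le_card (Finset.monotone_filter_right _ (fun _ _ h => Or.inl h))
  have h5 : (E.filter (fun e => x * e⁻¹ ∈ Φ)).card ≤
      (E.filter (fun e => x * e ∈ Φ ∨ x * e⁻¹ ∈ Φ)).card :=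
    Finset.card_le_card (Finset.monotone_filter_right _ (fun _ _ h => Or.inr h))
  have h6 := hconv (fun e => x * e ∈ Φ ∨ x * e⁻¹ ∈ Φ)
  calc E.card / 4 ≤ (E.filter (fun e => x * e ∈ Φ ∨ x * e⁻¹ ∈ Φ)).card := by omega
    _ = _ := by convert h6

/-- If the Folner function is at most exponential, chains of subgroups generated by elements of
length `O(n)` have length `O(n)`. -/
theorem chain_bound (S : Finset G) (hF : FolExp S) (c : ℕ) :
    ∃ K : ℕ, ∀ (n : ℕ) (ι : Type) (f : ι → G) (wt : ι → ℤ) (Q : Finset ι), Chn f wt Q →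
      (∀ p ∈ Q, WL S (c * (n + 1)) (f p)) → Q.card ≤ K * (n + 1) := by
  obtain ⟨C, hC⟩ := hF
  refine ⟨4 * (C * (2 * (c + 1))) + 3, fun n ι f wt Q hQ hlen => ?_⟩
  obtain ⟨F, hF, hFc⟩ := hC (2 * ((c + 1) * (n + 1))) (Nat.succ_le_of_lt (by positivity))
  have h1 := hQ.fol ((c + 1) * (n + 1))
    (fun e he => (hlen e he).mono (Nat.mul_le_mul_right _ (Nat.le_succ c))) F hF
  have h2 : 2 ^ (Q.card / 4) ≤ 2 ^ (C * (2 * ((c + 1) * (n + 1)))) := by
    refine (h1.trans hFc).trans ?_
    rw [pow_mul 2 C]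
    exact Nat.pow_le_pow_left Nat.lt_two_pow_self.le _
  have h3 := (Nat.pow_le_pow_iff_right (by norm_num : 1 < 2)).1 h2
  have h5 : C * (2 * ((c + 1) * (n + 1))) = C * (2 * (c + 1)) * (n + 1) := by ring
  rw [h5] at h3
  have h6 : Q.card ≤ 4 * (C * (2 * (c + 1)) * (n + 1)) + 3 := by omega
  refine h6.trans ?_
  ring_nf
  nlinarith

end Pool.Agent.H684AN
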