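import Pool.Agent.H684AN.Met1

set_option autoImplicit false

/-!
Counting version of the normal form: an additive function on the kernel is bounded on the ball of
radius `n` by `n` times its bound on the letters plus `O(n ^ 2)` times its bound on the commutators.
-/

namespace Pool.Agent.H684AN

variable {G : Type*} [Group G] {k : ℕ} (π : G →* Multiplicative (Fin k → ℤ)) (T : ℕ → G)
  (hT : ∀ j, j < k → ∀ i, hn π (T j) i = if i = j then 1 else 0)
  (ψ : G → ℚ) (hψ : ∀ x y, hk π x = 0 → hk π y = 0 → ψ (x * y) = ψ x + ψ y)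

include hψ in
theorem ψ_one : ψ 1 = 0 := by
  have := hψ 1 1 (hk_one π) (hk_one π)
  rw [mul_one] at this
  linarith

include hψ in
theorem ψ_inv (x : G) (hx : hk π x = 0) : ψ x⁻¹ = - ψ x := by
  have h1 := hψ x x⁻¹ hx (by rw [hk_inv, hx, neg_zero])
  rw [mul_inv_cancel, ψ_one π ψ hψ] at h1
  linarith

theorem hk_conj (g x : G) (hx : hk π x = 0) : hk π (g * x * g⁻¹) = 0 := by
  rw [hk_mul, hk_mul, hk_inv, hx]; abel

theorem hk_comm (g x : G) : hk π (g * x * g⁻¹ * x⁻¹) = 0 := by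
  rw [hk_mul, hk_mul, hk_mul, hk_inv, hk_inv]; abel

variable (A : Set G) (N : ℕ) (Y : ℚ) (hY0 : 0 ≤ Y)
  (hY : ∀ w : G, (∀ i, |hn π w i| ≤ N) → ∀ a ∈ A, |ψ (w * a * w⁻¹)| ≤ Y)

include hψ hY in
theorem comm_cnt (y b x : G) (hbx : b * x * b⁻¹ * x⁻¹ ∈ A) (n : ℕ)
    (hn' : ∀ n' : ℕ, n' < n → ∀ i, |hn π (y * b ^ n') i| ≤ N) :
    |ψ (y * (b ^ n * x * (b ^ n)⁻¹ * x⁻¹) * y⁻¹)| ≤ n * Y := by
  induction n with
  | zero => simp [ψ_one π ψ hψ]
  | succ n ih =>
    have h1 := ih (fun n' h => hn' n' (by omega))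
    have h2 := hY (y * b ^ n) (hn' n (by omega)) _ hbx
    have e : y * (b ^ (n + 1) * x * (b ^ (n + 1))⁻¹ * x⁻¹) * y⁻¹ =
        ((y * b ^ n) * (b * x * b⁻¹ * x⁻¹) * (y * b ^ n)⁻¹) *
          (y * (b ^ n * x * (b ^ n)⁻¹ * x⁻¹) * y⁻¹) := by
      rw [pow_succ]; group
    rw [e, hψ _ _ (hk_conj π _ _ (hk_comm π _ _)) (hk_conj π _ _ (hk_comm π _ _))]
    refine (abs_add_le _ _).trans ?_
    push_cast
    linarith

variable (hcom : ∀ i j, i < k → j < k → ∀ ε δ : ℤ, (ε = 1 ∨ ε = -1) → (δ = 1 ∨ δ = -1) →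
    T i ^ ε * T j ^ δ * (T i ^ ε)⁻¹ * (T j ^ δ)⁻¹ ∈ A)

include hT hψ hY hY0 hcom in
theorem cocyc_cnt (i : ℕ) (hi : i < k) (ε : ℤ) (hε : ε = 1 ∨ ε = -1) (v v' : ℕ → ℤ)
    (hv : ∀ l, |v l| ≤ N) (hv'i : v' i = v i + ε) (hv' : ∀ l, l ≠ i → v' l = v l) (j : ℕ)
    (hij : i < j) (hj : j ≤ k) :
    hk π (sec T v j * T i ^ ε * (sec T v' j)⁻¹) = 0 ∧
    |ψ (sec T v j * T i ^ ε * (sec T v' j)⁻¹)| ≤ j * (N * Y) := by
  induction j with
  | zero => omega
  | succ j ih =>
    have hNY : 0 ≤ (N : ℚ) * Y := by positivity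
    by_cases h1 : i = j
    · subst h1
      rw [sec, sec, sec_congr T v' v i (fun l hl => hv' l (by omega)), hv'i]
      have e : sec T v i * T i ^ v i * T i ^ ε * (sec T v i * T i ^ (v i + ε))⁻¹ = 1 := by
        rw [zpow_add]; group
      rw [e, ψ_one π ψ hψ]
      refine ⟨hk_one π, ?_⟩
      rw [abs_zero]; positivity
    · obtain ⟨h2a, h2⟩ := ih (by omega) (by omega)
      rw [sec, sec, hv' j (by omega)]
      have e : sec T v j * T j ^ v j * T i ^ ε * (sec T v' j * T j ^ v j)⁻¹ =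
          (sec T v j * (T j ^ v j * T i ^ ε * (T j ^ v j)⁻¹ * (T i ^ ε)⁻¹) * (sec T v j)⁻¹) *
            (sec T v j * T i ^ ε * (sec T v' j)⁻¹) := by
        group
      have hz := hk_conj π (sec T v j) _ (hk_comm π (T j ^ v j) (T i ^ ε))
      rw [e]
      refine ⟨by rw [hk_mul, hz, h2a, add_zero], ?_⟩
      rw [hψ _ _ hz h2a]
      refine (abs_add_le _ _).trans ?_
      have h3 : |ψ (sec T v j * (T j ^ v j * T i ^ ε * (T j ^ v j)⁻¹ * (T i ^ ε)⁻¹) *
          (sec T v j)⁻¹)| ≤ N * Y := by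
        have hbnd : ∀ (δ : ℤ), (δ = 1 ∨ δ = -1) → ∀ n' : ℕ, n' < (v j).natAbs → ∀ l,
            |hn π (sec T v j * (T j ^ δ) ^ n') l| ≤ N := by
          intro δ hδ n' hn' l
          rw [← zpow_natCast, ← zpow_mul, hn_mul, hn_zpow, hn_sec π T hT v j (by omega),
            hT j (by omega)]
          have h3 := hv j
          have h4 : ((v j).natAbs : ℤ) = |v j| := Int.natCast_natAbs _
          by_cases hl : l = j
          · subst hl
            rw [if_neg (by omega), if_pos rfl, zero_add, mul_one]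
            rcases hδ with rfl | rfl
            · rw [one_mul, abs_of_nonneg (by positivity)]; omega
            · rw [abs_mul, abs_neg, abs_one, one_mul, abs_of_nonneg (by positivity)]; omega
          · rw [if_neg hl]
            by_cases hl2 : l < j
            · rw [if_pos hl2, mul_zero, add_zero]; exact hv l
            · rw [if_neg hl2]; simp
        have hvN : (((v j).natAbs : ℕ) : ℚ) * Y ≤ N * Y := by
          refine mul_le_mul_of_nonneg_right ?_ hY0
          have h3 := hv j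
          have h4 : ((v j).natAbs : ℤ) = |v j| := Int.natCast_natAbs _
          have h5 : (v j).natAbs ≤ N := by omega
          exact_mod_cast h5
        refine le_trans ?_ hvN
        rcases Int.natAbs_eq (v j) with h5 | h5
        · have e2 : T j ^ v j = (T j ^ (1 : ℤ)) ^ (v j).natAbs := by
            conv_lhs => rw [h5]
            rw [zpow_natCast, zpow_one]
          rw [e2]
          exact comm_cnt π ψ hψ A N Y hY _ _ _ (hcom j i (by omega) hi 1 ε (Or.inl rfl) hε) _
            (hbnd 1 (Or.inl rfl))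
        · have e2 : T j ^ v j = (T j ^ (-1 : ℤ)) ^ (v j).natAbs := by
            conv_lhs => rw [h5]
            rw [← zpow_natCast, ← zpow_mul]; congr 1; ring
          rw [e2]
          exact comm_cnt π ψ hψ A N Y hY _ _ _ (hcom j i (by omega) hi (-1) ε (Or.inr rfl) hε) _
            (hbnd (-1) (Or.inr rfl))
      push_cast
      linarith

variable (A1 : Set G) (X : ℚ) (hX0 : 0 ≤ X)
  (hX : ∀ w : G, (∀ i, |hn π w i| ≤ N) → ∀ a ∈ A1, |ψ (w * a * w⁻¹)| ≤ X)

include hT hψ hY hY0 hcom hX hX0 in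
theorem ball_cnt (S : Finset G) (hSA : ∀ s ∈ S, s ∈ A1 ∨ ∃ i, i < k ∧ s = T i)
    (hA : ∀ a ∈ A1, hk π a = 0) (n : ℕ) (hnN : n ≤ N) (g : G) (hg : WL S n g) :
    (∀ i, |hn π g i| ≤ n) ∧ hk π (g * (sec T (hn π g) k)⁻¹) = 0 ∧
      |ψ (g * (sec T (hn π g) k)⁻¹)| ≤ n * (X + k * (N * Y)) := by
  induction n generalizing g with
  | zero =>
    obtain ⟨l, h1, _, h3⟩ := hg
    have : l = [] := List.length_eq_zero_iff.mp (by omega)
    subst this
    rw [← h3]
    simp only [List.prod_nil]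
    refine ⟨fun i => by rw [hn_one]; simp, ?_⟩
    rw [sec_zero T _ k (fun i _ => hn_one π i)]
    simp [ψ_one π ψ hψ]
  | succ n ih =>
    obtain ⟨h, x, h1, h2, rfl⟩ := WL.succ_iff.1 hg
    obtain ⟨h3, h4, h5⟩ := ih (by omega) h h1
    have hNY : 0 ≤ (k : ℚ) * (N * Y) := by positivity
    have hbox : ∀ i, |hn π h i| ≤ N := fun i =>
      (h3 i).trans (by exact_mod_cast (by omega : n ≤ N))
    -- letters of height zero
    have hz : ∀ a ∈ A1, ∀ y : G, (y = a ∨ y = a⁻¹) →
        (∀ i, |hn π (h * y) i| ≤ ((n + 1 : ℕ) : ℤ)) ∧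
          hk π (h * y * (sec T (hn π (h * y)) k)⁻¹) = 0 ∧
          |ψ (h * y * (sec T (hn π (h * y)) k)⁻¹)| ≤ ((n + 1 : ℕ) : ℚ) * (X + k * (N * Y)) := by
      intro a ha y hy
      have hy0' : hk π y = 0 := by
        rcases hy with rfl | rfl
        · exact hA _ ha
        · rw [hk_inv, hA a ha, neg_zero]
      have hy0 : ∀ i, hn π y i = 0 := by
        intro i; rw [hn, hy0']; simp
      have e0 : ∀ i, hn π (h * y) i = hn π h i := by intro i; rw [hn_mul, hy0, add_zero]
      refine ⟨fun i => by rw [e0]; have := h3 i; push_cast; linarith, ?_⟩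
      rw [sec_congr T _ (hn π h) k (fun i _ => e0 i)]
      have e1 : h * y * (sec T (hn π h) k)⁻¹ = (h * y * h⁻¹) * (h * (sec T (hn π h) k)⁻¹) := by
        group
      have hz1 := hk_conj π h y hy0'
      rw [e1]
      refine ⟨by rw [hk_mul, hz1, h4, add_zero], ?_⟩
      rw [hψ _ _ hz1 h4]
      refine (abs_add_le _ _).trans ?_
      have h6 : |ψ (h * y * h⁻¹)| ≤ X := by
        have h7 := hX h hbox a ha
        rcases hy with rfl | rfl
        · exact h7
        · have e2 : h * a⁻¹ * h⁻¹ = (h * a * h⁻¹)⁻¹ := by group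
          rw [e2, ψ_inv π ψ hψ _ (hk_conj π h a (hA a ha)), abs_neg]
          exact h7
      push_cast
      linarith
    have ht : ∀ i, i < k → ∀ ε : ℤ, (ε = 1 ∨ ε = -1) →
        (∀ l, |hn π (h * T i ^ ε) l| ≤ ((n + 1 : ℕ) : ℤ)) ∧
          hk π (h * T i ^ ε * (sec T (hn π (h * T i ^ ε)) k)⁻¹) = 0 ∧
          |ψ (h * T i ^ ε * (sec T (hn π (h * T i ^ ε)) k)⁻¹)| ≤
            ((n + 1 : ℕ) : ℚ) * (X + k * (N * Y)) := by
      intro i hi ε hε
      have e0 : ∀ l, hn π (h * T i ^ ε) l = hn π h l + (if l = i then ε else 0) := by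
        intro l
        rw [hn_mul, hn_zpow, hT i hi]
        split_ifs <;> ring
      refine ⟨fun l => ?_, ?_⟩
      · rw [e0]
        have := h3 l
        refine (abs_add_le _ _).trans ?_
        have h6 : |(if l = i then ε else 0 : ℤ)| ≤ 1 := by
          split_ifs
          · rcases hε with rfl | rfl <;> simp
          · simp
        push_cast; linarith
      · have e1 : h * T i ^ ε * (sec T (hn π (h * T i ^ ε)) k)⁻¹ =
            (h * (sec T (hn π h) k)⁻¹) *
              (sec T (hn π h) k * T i ^ ε * (sec T (hn π (h * T i ^ ε)) k)⁻¹) := by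
          group
        obtain ⟨h6, h7⟩ := cocyc_cnt π T hT ψ hψ A N Y hY0 hY hcom i hi ε hε (hn π h)
          (hn π (h * T i ^ ε)) hbox (by rw [e0, if_pos rfl])
          (fun l hl => by rw [e0, if_neg hl, add_zero]) k hi le_rfl
        rw [e1]
        refine ⟨by rw [hk_mul, h4, h6, add_zero], ?_⟩
        rw [hψ _ _ h4 h6]
        refine (abs_add_le _ _).trans ?_
        push_cast
        linarith
    rcases h2 with rfl | h2 | h2
    · rw [mul_one]
      refine ⟨fun i => by have := h3 i; push_cast; linarith, h4, h5.trans ?_⟩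
      push_cast
      nlinarith
    · rcases hSA x h2 with hx | ⟨i, hi, rfl⟩
      · exact hz x hx x (Or.inl rfl)
      · have := ht i hi 1 (Or.inl rfl)
        rwa [zpow_one] at this
    · rcases hSA _ h2 with hx | ⟨i, hi, hx⟩
      · exact hz x⁻¹ hx x (Or.inr (inv_inv x).symm)
      · have := ht i hi (-1) (Or.inr rfl)
        have e : T i ^ (-1 : ℤ) = x := by rw [← hx]; group
        rwa [e] at this

end Pool.Agent.H684AN
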