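import Pool.Agent.H684AN.Cay

set_option autoImplicit false

/-!
A criterion for an exponential Folner function and for Assouad-Nagata dimension at most one, for
extensions of a locally finite group by the integers.
-/

namespace Pool.Agent.H684AN

variable {G : Type*} [Group G]

open Classical in
/-- `F` is a nonempty finite set with `n * |∂F| ≤ |F|`. -/
def IsFol (S : Finset G) (n : ℕ) (F : Finset G) : Prop :=
  F.Nonempty ∧ n * (F.filter (fun g => ∃ s ∈ S, g * s ∉ F ∨ g * s⁻¹ ∉ F)).card ≤ F.card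

/-- The Folner function is at most exponential. -/
def FolExp (S : Finset G) : Prop :=
  ∃ C : ℕ, ∀ n : ℕ, 1 ≤ n → ∃ F : Finset G, IsFol S n F ∧ F.card ≤ C ^ n

/-- Assouad-Nagata dimension at most `d` (colours and clusters). -/
def ANLE (S : Finset G) (d : ℕ) : Prop :=
  ∃ C : ℕ, ∀ r : ℕ, 1 ≤ r → ∃ (c : G → Fin (d + 1)) (k : G → G), ∀ x y : G, c x = c y →
    (k x = k y → (cay S).dist x y ≤ C * r) ∧ (k x ≠ k y → r < (cay S).dist x y)

/-- the integer attached to `g` by a homomorphism to the integers -/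
def ht (π : G →* Multiplicative ℤ) (g : G) : ℤ := Multiplicative.toAdd (π g)

@[simp] theorem ht_one (π : G →* Multiplicative ℤ) : ht π 1 = 0 := by simp [ht]

@[simp] theorem ht_mul (π : G →* Multiplicative ℤ) (g h : G) : ht π (g * h) = ht π g + ht π h := by
  simp [ht]

@[simp] theorem ht_inv (π : G →* Multiplicative ℤ) (g : G) : ht π g⁻¹ = - ht π g := by
  simp [ht]

@[simp] theorem ht_zpow (π : G →* Multiplicative ℤ) (g : G) (k : ℤ) :
    ht π (g ^ k) = k * ht π g := by
  simp [ht]

@[simp] theorem ht_pow (π : G →* Multiplicative ℤ) (g : G) (k : ℕ) :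
    ht π (g ^ k) = k * ht π g := by
  simp [ht]

theorem ht_bound (S : Finset G) (π : G →* Multiplicative ℤ) :
    ∃ m : ℕ, 1 ≤ m ∧ ∀ (n : ℕ) (g : G), WL S n g → |ht π g| ≤ m * n := by
  refine ⟨S.sup (fun s => (ht π s).natAbs) + 1, by omega, ?_⟩
  set m := S.sup (fun s => (ht π s).natAbs) + 1 with hm
  have hs : ∀ s : G, s ∈ S ∨ s⁻¹ ∈ S → |ht π s| ≤ m := by
    intro s hs
    rcases hs with hs | hs
    · have h1 : (ht π s).natAbs ≤ S.sup (fun s => (ht π s).natAbs) :=
        Finset.le_sup (f := fun s => (ht π s).natAbs) hs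
      have h2 := Int.natCast_natAbs (ht π s)
      omega
    · have h1 : (ht π s⁻¹).natAbs ≤ S.sup (fun s => (ht π s).natAbs) :=
        Finset.le_sup (f := fun s => (ht π s).natAbs) hs
      rw [ht_inv, Int.natAbs_neg] at h1
      have h2 := Int.natCast_natAbs (ht π s)
      omega
  intro n g hg
  induction n generalizing g with
  | zero =>
    obtain ⟨l, h1, _, h3⟩ := hg
    have : l = [] := List.length_eq_zero_iff.mp (by omega)
    rw [← h3, this]; simp
  | succ n ih =>
    obtain ⟨h, s, h1, h2, rfl⟩ := WL.succ_iff.1 hg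
    have h3 := ih h h1
    have h4 : |ht π s| ≤ m := by
      rcases h2 with rfl | h2
      · simp
      · exact hs s h2
    rw [ht_mul]
    have := abs_add_le (ht π h) (ht π s)
    push_cast
    nlinarith

section
variable {S : Finset G} (hS : Subgroup.closure (S : Set G) = ⊤) (π : G →* Multiplicative ℤ)
  (t : G) (htt : ht π t = 1) (H : ℕ → Subgroup G)
  (hH1 : ∀ (n : ℕ) (g : G), WL S n g → ht π g = 0 → g ∈ H n)
  (hker : ∀ (n : ℕ) (g : G), g ∈ H n → ht π g = 0)
  (C : ℕ) (hlen : ∀ (n : ℕ) (g : G), g ∈ H n → WL S (C * (n + 1)) g)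

include hS htt hH1 hker hlen in
theorem an_one : ANLE S 1 := by
  obtain ⟨m, hm1, hm⟩ := ht_bound S π
  obtain ⟨ct, hct⟩ := exists_WL hS t
  refine ⟨2 * (m + 1) * ct + C * (2 * (m + 1) * ct + 2), ?_⟩
  intro r hr
  set R : ℤ := m * r + 1 with hR
  have hRpos : 0 < R := by positivity
  set N : ℕ := 2 * (m * r + 1) * ct + r with hN
  -- remainder and base point
  set sx : G → ℤ := fun x => (ht π x) % R with hsx
  set bp : G → G := fun x => x * t ^ (-(sx x)) with hbp
  have hs0 : ∀ x, 0 ≤ sx x := fun x => Int.emod_nonneg _ hRpos.ne'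
  have hs1 : ∀ x, sx x < R := fun x => Int.emod_lt_of_pos _ hRpos
  have hq : ∀ x, ht π (bp x) = R * (ht π x / R) := by
    intro x
    rw [hbp]
    simp only [ht_mul, ht_zpow, htt, mul_one, hsx]
    have := Int.emod_add_mul_ediv (ht π x) R
    linarith
  have hts : ∀ x, WL S ((m * r + 1) * ct) (t ^ (sx x)) := by
    intro x
    refine (hct.zpow (sx x)).mono ?_
    refine Nat.mul_le_mul_right _ ?_
    have h1 := hs0 x
    have h2 := hs1 x
    zify
    rw [abs_of_nonneg h1]; rw [hR] at h2; linarith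
  set cf : G → Fin 2 := fun x => if (ht π x / R) % 2 = 0 then 0 else 1 with hcf
  set kf : G → G := fun x => (QuotientGroup.mk (bp x) : G ⧸ H N).out with hkf
  have hkk : ∀ x y, kf x = kf y ↔ (bp x)⁻¹ * bp y ∈ H N := by
    intro x y
    rw [hkf]
    simp only
    constructor
    · intro h
      have := congrArg (QuotientGroup.mk : G → G ⧸ H N) h
      rw [QuotientGroup.out_eq', QuotientGroup.out_eq'] at this
      exact QuotientGroup.eq.1 this
    · intro h
      rw [QuotientGroup.eq.2 h]
  refine ⟨cf, kf, ?_⟩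
  intro x y hc
  have hcon : (bp x)⁻¹ * bp y = t ^ (sx x) * (x⁻¹ * y) * (t ^ (sx y))⁻¹ := by
    rw [hbp]
    simp only [mul_inv_rev, zpow_neg, inv_inv, mul_assoc]
  constructor
  · intro h
    rw [hkk] at h
    have h1 := hlen N _ h
    rw [dist_le_iff hS]
    have h2 : x⁻¹ * y = (t ^ (sx x))⁻¹ * ((bp x)⁻¹ * bp y) * t ^ (sx y) := by
      rw [hcon]; group
    rw [h2]
    refine (((hts x).inv.mul h1).mul (hts y)).mono ?_
    have hb : m * r + 1 ≤ (m + 1) * r := by nlinarith
    have hb2 : (m * r + 1) * ct ≤ (m + 1) * r * ct := Nat.mul_le_mul_right _ hb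
    have hN2 : N + 1 ≤ (2 * (m + 1) * ct + 2) * r := by
      rw [hN]
      have : 2 * (m * r + 1) * ct ≤ 2 * ((m + 1) * r * ct) := by nlinarith
      nlinarith
    have hb3 : C * (N + 1) ≤ C * ((2 * (m + 1) * ct + 2) * r) := Nat.mul_le_mul_left _ hN2
    nlinarith
  · intro h
    rw [lt_dist_iff hS]
    intro hw
    apply h
    rw [hkk]
    have hqq : ht π x / R = ht π y / R := by
      have h1 := hm r _ hw
      rw [ht_mul, ht_inv] at h1
      have hpar : (ht π x / R) % 2 = (ht π y / R) % 2 := by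
        have hx2 := Int.emod_two_eq_zero_or_one (ht π x / R)
        have hy2 := Int.emod_two_eq_zero_or_one (ht π y / R)
        rw [hcf] at hc
        simp only at hc
        rcases hx2 with hx2 | hx2 <;> rcases hy2 with hy2 | hy2 <;> simp [hx2, hy2] at hc ⊢
      have ex := Int.emod_add_mul_ediv (ht π x) R
      have ey := Int.emod_add_mul_ediv (ht π y) R
      have hx0 := hs0 x
      have hx1 := hs1 x
      have hy0 := hs0 y
      have hy1 := hs1 y
      simp only [hsx] at hx0 hx1 hy0 hy1
      rw [abs_le] at h1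
      by_contra hne
      have h3 : ht π x / R + 2 ≤ ht π y / R ∨ ht π y / R + 2 ≤ ht π x / R := by omega
      rcases h3 with h3 | h3
      · have := mul_le_mul_of_nonneg_left h3 hRpos.le
        have h5 : (ht π y) - ht π x ≥ R + 1 := by nlinarith
        have h6 : (m : ℤ) * r < R := by rw [hR]; linarith
        linarith [h1.2]
      · have := mul_le_mul_of_nonneg_left h3 hRpos.le
        have h5 : (ht π x) - ht π y ≥ R + 1 := by nlinarith
        have h6 : (m : ℤ) * r < R := by rw [hR]; linarith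
        linarith [h1.1]
    apply hH1
    · rw [hcon]
      refine (((hts x).mul hw).mul (hts y).inv).mono ?_
      rw [hN]; nlinarith
    · rw [ht_mul, ht_inv, hq, hq, hqq]; ring

variable (K : ℕ) (hcard : ∀ n : ℕ, ∃ B : Finset G, (∀ g, g ∈ B ↔ g ∈ H n) ∧ B.card ≤ K ^ (n + 1))

include hS htt hH1 hker hcard in
theorem fol_exp : FolExp S := by
  classical
  obtain ⟨m, hm1, hm⟩ := ht_bound S π
  obtain ⟨ct, hct⟩ := exists_WL hS t
  refine ⟨2 ^ (2 * m) * (K + 1) ^ (4 * m * ct + 2), ?_⟩
  intro n hn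
  set N' : ℕ := 2 * m * n with hN'
  set N : ℕ := 2 * N' * ct + 1 with hN
  obtain ⟨B, hB, hBc⟩ := hcard N
  set F : Finset G := (B ×ˢ Finset.range N').image (fun p => p.1 * t ^ p.2) with hF
  have hmemF : ∀ g, g ∈ F ↔ 0 ≤ ht π g ∧ ht π g < N' ∧ g * t ^ (-(ht π g)) ∈ H N := by
    intro g
    rw [hF, Finset.mem_image]
    constructor
    · rintro ⟨⟨h, i⟩, hp, rfl⟩
      rw [Finset.mem_product, Finset.mem_range, hB] at hp
      have h1 : ht π (h * t ^ i) = i := by
        rw [ht_mul, ht_pow, htt, hker N h hp.1]; simp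
      simp only at h1 ⊢
      rw [h1]
      refine ⟨by positivity, by exact_mod_cast hp.2, ?_⟩
      rw [zpow_neg, zpow_natCast]
      simpa [mul_assoc] using hp.1
    · rintro ⟨h1, h2, h3⟩
      refine ⟨(g * t ^ (-(ht π g)), (ht π g).toNat), ?_, ?_⟩
      · rw [Finset.mem_product, Finset.mem_range, hB]
        exact ⟨h3, by simp only; omega⟩
      · simp only
        rw [← zpow_natCast, Int.toNat_of_nonneg h1, mul_assoc, ← zpow_add]
        simp
  have hinj : Set.InjOn (fun p : G × ℕ => p.1 * t ^ p.2) (B ×ˢ Finset.range N' : Finset (G × ℕ)) := by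
    rintro ⟨h, i⟩ hp ⟨h', i'⟩ hp' heq
    rw [Finset.mem_coe, Finset.mem_product, hB] at hp hp'
    simp only at heq hp hp'
    have h1 : ht π (h * t ^ i) = i := by
      rw [ht_mul, ht_pow, htt, hker N h hp.1]; simp
    have h2 : ht π (h' * t ^ i') = i' := by
      rw [ht_mul, ht_pow, htt, hker N h' hp'.1]; simp
    rw [heq, h2] at h1
    have h3 : i = i' := by exact_mod_cast h1.symm
    subst h3
    have h4 := mul_right_cancel heq
    rw [h4]
  have hFcard : F.card = B.card * N' := by
    rw [hF, Finset.card_image_of_injOn hinj, Finset.card_product, Finset.card_range]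
  have hBpos : 0 < B.card := by
    rw [Finset.card_pos]
    exact ⟨1, (hB 1).2 (H N).one_mem⟩
  have hN'pos : 0 < N' := by rw [hN']; positivity
  -- moving by a generator
  have hmove : ∀ g s : G, g ∈ F → (s ∈ S ∨ s⁻¹ ∈ S) → 0 ≤ ht π g + ht π s →
      ht π g + ht π s < N' → g * s ∈ F := by
    intro g s hg hs h1 h2
    rw [hmemF] at hg ⊢
    obtain ⟨hg1, hg2, hg3⟩ := hg
    rw [ht_mul]
    refine ⟨h1, h2, ?_⟩
    have h4 : g * s * t ^ (-(ht π g + ht π s)) =
        (g * t ^ (-(ht π g))) * (t ^ (ht π g) * s * (t ^ (ht π g + ht π s))⁻¹) := by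
      group
    rw [h4]
    refine (H N).mul_mem hg3 (hH1 _ _ ?_ ?_)
    · have hs1 : WL S 1 s := by
        rcases hs with hs | hs
        · exact WL.of_mem hs
        · exact WL.of_inv_mem hs
      refine (((hct.zpow (ht π g)).mul hs1).mul (hct.zpow (ht π g + ht π s)).inv).mono ?_
      rw [hN]
      have e1 : (ht π g).natAbs ≤ N' := by omega
      have e2 : (ht π g + ht π s).natAbs ≤ N' := by omega
      have e3 := Nat.mul_le_mul_right ct e1
      have e4 := Nat.mul_le_mul_right ct e2
      nlinarith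
    · simp only [ht_mul, ht_zpow, ht_inv, htt]; ring
  refine ⟨F, ⟨?_, ?_⟩, ?_⟩
  · rw [← Finset.card_pos, hFcard]; positivity
  · -- boundary
    have hsub : F.filter (fun g => ∃ s ∈ S, g * s ∉ F ∨ g * s⁻¹ ∉ F) ⊆
        (B ×ˢ (Finset.range m ∪ Finset.Ico (N' - m) N')).image (fun p => p.1 * t ^ p.2) := by
      intro g hg
      rw [Finset.mem_filter] at hg
      obtain ⟨hg, s, hs, hbad⟩ := hg
      have hg' := (hmemF g).1 hg
      have hsb : |ht π s| ≤ m := by
        have := hm 1 s (WL.of_mem hs); simpa using this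
      have key : ht π g < m ∨ (N' : ℤ) - m ≤ ht π g := by
        by_contra hcon
        push Not at hcon
        rw [abs_le] at hsb
        rcases hbad with hbad | hbad
        · apply hbad
          exact hmove g s hg (Or.inl hs) (by omega) (by omega)
        · apply hbad
          refine hmove g s⁻¹ hg (Or.inr (by simpa using hs)) ?_ ?_
          · rw [ht_inv]; omega
          · rw [ht_inv]; omega
      rw [Finset.mem_image]
      refine ⟨(g * t ^ (-(ht π g)), (ht π g).toNat), ?_, ?_⟩
      · rw [Finset.mem_product, Finset.mem_union, Finset.mem_range, Finset.mem_Ico, hB]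
        refine ⟨hg'.2.2, ?_⟩
        simp only
        omega
      · simp only
        rw [← zpow_natCast, Int.toNat_of_nonneg hg'.1, mul_assoc, ← zpow_add]
        simp
    have h1 := Finset.card_le_card hsub
    have h2 : ((B ×ˢ (Finset.range m ∪ Finset.Ico (N' - m) N')).image
        (fun p : G × ℕ => p.1 * t ^ p.2)).card ≤ B.card * (2 * m) := by
      refine Finset.card_image_le.trans ?_
      rw [Finset.card_product]
      refine Nat.mul_le_mul_left _ ?_
      refine (Finset.card_union_le _ _).trans ?_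
      rw [Finset.card_range, Nat.card_Ico]
      omega
    calc n * _ ≤ n * (B.card * (2 * m)) := Nat.mul_le_mul_left _ (h1.trans h2)
      _ = F.card := by rw [hFcard, hN']; ring
  · rw [hFcard]
    have e1 : B.card ≤ (K + 1) ^ (4 * m * n * ct + 2) := by
      refine hBc.trans ?_
      have : N + 1 = 4 * m * n * ct + 2 := by rw [hN, hN']; ring
      rw [this]
      exact Nat.pow_le_pow_left (Nat.le_succ K) _
    have e2 : N' ≤ 2 ^ (2 * m * n) := by rw [hN']; exact Nat.lt_two_pow_self.le
    have e3 : (K + 1) ^ (4 * m * n * ct + 2) ≤ (K + 1) ^ ((4 * m * ct + 2) * n) := by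
      apply Nat.pow_le_pow_right (by omega)
      nlinarith
    calc B.card * N' ≤ (K + 1) ^ ((4 * m * ct + 2) * n) * 2 ^ (2 * m * n) :=
          Nat.mul_le_mul (e1.trans e3) e2
      _ = (2 ^ (2 * m) * (K + 1) ^ (4 * m * ct + 2)) ^ n := by
          rw [mul_pow, ← pow_mul, ← pow_mul]; ring

end

end Pool.Agent.H684AN
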