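import Pool.Agent.H684AN.Chg

set_option autoImplicit false

/-!
A criterion for finite Assouad-Nagata dimension and Folner sets for extensions with quotient a free
abelian group of finite rank.
-/

namespace Pool.Agent.H684AN

variable {G : Type*} [Group G] {k : ℕ}

/-- the coordinates of `g` under a homomorphism to `ℤ ^ k` -/
def hk (π : G →* Multiplicative (Fin k → ℤ)) (g : G) : Fin k → ℤ := Multiplicative.toAdd (π g)

@[simp] theorem hk_one (π : G →* Multiplicative (Fin k → ℤ)) : hk π 1 = 0 := by simp [hk]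

@[simp] theorem hk_mul (π : G →* Multiplicative (Fin k → ℤ)) (g h : G) :
    hk π (g * h) = hk π g + hk π h := by simp [hk]

@[simp] theorem hk_inv (π : G →* Multiplicative (Fin k → ℤ)) (g : G) :
    hk π g⁻¹ = - hk π g := by simp [hk]

@[simp] theorem hk_zpow (π : G →* Multiplicative (Fin k → ℤ)) (g : G) (n : ℤ) :
    hk π (g ^ n) = n • hk π g := by simp [hk]

theorem hk_bound (S : Finset G) (π : G →* Multiplicative (Fin k → ℤ))
    (hm : ∀ s ∈ S, ∀ i, |hk π s i| ≤ 1) (n : ℕ) (g : G) (hg : WL S n g) (i : Fin k) :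
    |hk π g i| ≤ n := by
  induction n generalizing g with
  | zero =>
    obtain ⟨l, h1, _, h3⟩ := hg
    have : l = [] := List.length_eq_zero_iff.mp (by omega)
    rw [← h3, this]; simp
  | succ n ih =>
    obtain ⟨h, s, h1, h2, rfl⟩ := WL.succ_iff.1 hg
    have h3 := ih h h1
    have h4 : |hk π s i| ≤ 1 := by
      rcases h2 with rfl | h2 | h2
      · simp
      · exact hm s h2 i
      · have := hm _ h2 i
        rwa [hk_inv, Pi.neg_apply, abs_neg] at this
    rw [hk_mul, Pi.add_apply]
    have := abs_add_le (hk π h i) (hk π s i)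
    push_cast
    linarith

section
variable {S : Finset G} (hS : Subgroup.closure (S : Set G) = ⊤)
  (π : G →* Multiplicative (Fin k → ℤ)) (hm : ∀ s ∈ S, ∀ i, |hk π s i| ≤ 1)
  (s : (Fin k → ℤ) → G) (hs : ∀ v, hk π (s v) = v) (c : ℕ)
  (hsl : ∀ (v : Fin k → ℤ) (N : ℕ), (∀ i, |v i| ≤ N) → WL S (c * N) (s v))
  (H : ℕ → Subgroup G)
  (hH1 : ∀ (n : ℕ) (g : G), WL S n g → hk π g = 0 → g ∈ H n)
  (hker : ∀ (n : ℕ) (g : G), g ∈ H n → hk π g = 0)
  (C : ℕ) (hlen : ∀ (n : ℕ) (g : G), g ∈ H n → WL S (C * (n + 1)) g)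

include hS hm hs hsl hH1 hlen in
theorem an_k : ∃ d, ANLE S d := by
  obtain ⟨d, hd⟩ : ∃ d, 2 ^ k = d + 1 := ⟨2 ^ k - 1, by have := Nat.one_le_two_pow (n := k); omega⟩
  have e : (Fin k → Fin 2) ≃ Fin (d + 1) := finFunctionFinEquiv.trans (finCongr hd)
  refine ⟨d, 4 * c + C * (4 * c + 2), ?_⟩
  intro r hr
  set R : ℕ := r + 1 with hR
  set N : ℕ := 2 * (c * R) + r with hN
  have hRpos : (0 : ℤ) < R := by positivity
  set q : G → Fin k → ℤ := fun x i => hk π x i / R with hq
  set sx : G → Fin k → ℤ := fun x i => hk π x i % R with hsx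
  set bp : G → G := fun x => x * (s (sx x))⁻¹ with hbp
  have hs0 : ∀ x i, 0 ≤ sx x i := fun x i => Int.emod_nonneg _ hRpos.ne'
  have hs1 : ∀ x i, sx x i < R := fun x i => Int.emod_lt_of_pos _ hRpos
  have hts : ∀ x, WL S (c * R) (s (sx x)) := by
    intro x
    apply hsl
    intro i
    rw [abs_of_nonneg (hs0 x i)]
    exact (hs1 x i).le
  have hbh : ∀ x i, hk π (bp x) i = R * q x i := by
    intro x i
    rw [hbp]
    simp only [hk_mul, hk_inv, hs, Pi.add_apply, Pi.neg_apply, hsx, hq]
    have := Int.emod_add_mul_ediv (hk π x i) R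
    linarith
  set cf : G → Fin (d + 1) := fun x => e (fun i => if q x i % 2 = 0 then 0 else 1) with hcf
  set kf : G → G := fun x => (QuotientGroup.mk (bp x) : G ⧸ H N).out with hkf
  have hkk : ∀ x y, kf x = kf y ↔ (bp x)⁻¹ * bp y ∈ H N := by
    intro x y
    rw [hkf]
    simp only
    constructor
    · intro h
      have := congrArg (QuotientGroup.mk : G → G ⧸ H N) h
      rw [QuotientGroup.out_eq', QuotientGroup.out_eq'] at this
      exact QuotientGroup.eq.1 this
    · intro h
      rw [QuotientGroup.eq.2 h]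
  refine ⟨cf, kf, ?_⟩
  intro x y hc
  have hcon : (bp x)⁻¹ * bp y = s (sx x) * (x⁻¹ * y) * (s (sx y))⁻¹ := by
    rw [hbp]
    simp only [mul_inv_rev, inv_inv, mul_assoc]
  constructor
  · intro h
    rw [hkk] at h
    have h1 := hlen N _ h
    rw [dist_le_iff hS]
    have h2 : x⁻¹ * y = (s (sx x))⁻¹ * ((bp x)⁻¹ * bp y) * s (sx y) := by
      rw [hcon]; group
    rw [h2]
    refine (((hts x).inv.mul h1).mul (hts y)).mono ?_
    have hN2 : N + 1 ≤ (4 * c + 2) * r := by
      rw [hN, hR]; nlinarith
    have hb3 : C * (N + 1) ≤ C * ((4 * c + 2) * r) := Nat.mul_le_mul_left _ hN2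
    have hb4 : c * R ≤ 2 * c * r := by rw [hR]; nlinarith
    nlinarith
  · intro h
    rw [lt_dist_iff hS]
    intro hw
    apply h
    rw [hkk]
    have hqq : q x = q y := by
      funext i
      have h1 := hk_bound S π hm r _ hw i
      rw [hk_mul, hk_inv, Pi.add_apply, Pi.neg_apply] at h1
      have hpar : (q x i) % 2 = (q y i) % 2 := by
        have hx2 := Int.emod_two_eq_zero_or_one (q x i)
        have hy2 := Int.emod_two_eq_zero_or_one (q y i)
        rw [hcf] at hc
        have hc2 := congrFun (e.injective hc) i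
        rcases hx2 with hx2 | hx2 <;> rcases hy2 with hy2 | hy2 <;> simp [hx2, hy2] at hc2 ⊢
      have ex := Int.emod_add_mul_ediv (hk π x i) R
      have ey := Int.emod_add_mul_ediv (hk π y i) R
      have hx0 := hs0 x i
      have hx1 := hs1 x i
      have hy0 := hs0 y i
      have hy1 := hs1 y i
      simp only [hsx] at hx0 hx1 hy0 hy1
      rw [abs_le] at h1
      have h6 : (r : ℤ) < R := by rw [hR]; push_cast; linarith
      simp only [hq] at hpar ⊢
      by_contra hne
      have h3 : hk π x i / R + 2 ≤ hk π y i / R ∨ hk π y i / R + 2 ≤ hk π x i / R := by omega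
      rcases h3 with h3 | h3
      · have := mul_le_mul_of_nonneg_left h3 hRpos.le
        have h5 : (hk π y i) - hk π x i ≥ R + 1 := by nlinarith
        linarith [h1.2]
      · have := mul_le_mul_of_nonneg_left h3 hRpos.le
        have h5 : (hk π x i) - hk π y i ≥ R + 1 := by nlinarith
        linarith [h1.1]
    apply hH1
    · rw [hcon]
      refine (((hts x).mul hw).mul (hts y).inv).mono ?_
      rw [hN]; nlinarith
    · funext i
      rw [hk_mul, hk_inv, Pi.add_apply, Pi.neg_apply, hbh, hbh, hqq, Pi.zero_apply]; ring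

theorem box_bad (N : ℕ) (i : Fin k) (U : Finset ℤ)
    (hUc : U.card ≤ 2) :
    N * ((Fintype.piFinset (fun _ : Fin k => Finset.Ico (0 : ℤ) N)).filter
      (fun v => v i ∈ U)).card ≤ 2 * N ^ k := by
  classical
  have hsub : (Fintype.piFinset (fun _ : Fin k => Finset.Ico (0 : ℤ) N)).filter
      (fun v => v i ∈ U) ⊆
      Fintype.piFinset (Function.update (fun _ : Fin k => Finset.Ico (0 : ℤ) N) i U) := by
    intro v hv
    rw [Finset.mem_filter, Fintype.mem_piFinset] at hv
    rw [Fintype.mem_piFinset]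
    intro j
    by_cases hj : j = i
    · subst hj; rw [Function.update_self]; exact hv.2
    · rw [Function.update_of_ne hj]; exact hv.1 j
  have h1 := Finset.card_le_card hsub
  rw [Fintype.card_piFinset] at h1
  have h2 : ∏ j : Fin k, (Function.update (fun _ : Fin k => Finset.Ico (0 : ℤ) N) i U j).card =
      U.card * ∏ j ∈ Finset.univ.erase i, N := by
    rw [← Finset.mul_prod_erase Finset.univ _ (Finset.mem_univ i), Function.update_self]
    congr 1
    refine Finset.prod_congr rfl (fun j hj => ?_)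
    rw [Function.update_of_ne (Finset.ne_of_mem_erase hj), Int.card_Ico]
    simp
  have h3 : N * ∏ j ∈ Finset.univ.erase i, N = N ^ k := by
    rw [Finset.mul_prod_erase Finset.univ (fun _ => N) (Finset.mem_univ i), Finset.prod_const,
      Finset.card_univ, Fintype.card_fin]
  rw [h2] at h1
  calc _ ≤ N * (U.card * ∏ j ∈ Finset.univ.erase i, N) := Nat.mul_le_mul_left _ h1
    _ = U.card * (N * ∏ j ∈ Finset.univ.erase i, N) := by ring
    _ = U.card * N ^ k := by rw [h3]
    _ ≤ _ := Nat.mul_le_mul_right _ hUc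

include hm hs hsl hH1 hker in
theorem fol_k (n : ℕ) (hn : 1 ≤ n) (B : Finset G)
    (hB : ∀ g, g ∈ B ↔ g ∈ H (2 * (c * (2 * (k + 1) * n)) + 1)) :
    ∃ F : Finset G, IsFol S n F ∧ F.card ≤ B.card * (2 * (k + 1) * n) ^ k := by
  classical
  set N' : ℕ := 2 * (k + 1) * n with hN'
  set N : ℕ := 2 * (c * N') + 1 with hN
  set V : Finset (Fin k → ℤ) := Fintype.piFinset (fun _ : Fin k => Finset.Ico (0 : ℤ) N') with hV
  have hVmem : ∀ v, v ∈ V ↔ ∀ i, 0 ≤ v i ∧ v i < N' := by
    intro v
    rw [hV, Fintype.mem_piFinset]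
    simp only [Finset.mem_Ico]
  have hVc : V.card = N' ^ k := by
    rw [hV, Fintype.card_piFinset]
    simp
  set F : Finset G := (B ×ˢ V).image (fun p => p.1 * s p.2) with hF
  have hmemF : ∀ g, g ∈ F ↔ hk π g ∈ V ∧ g * (s (hk π g))⁻¹ ∈ H N := by
    intro g
    rw [hF, Finset.mem_image]
    constructor
    · rintro ⟨⟨h, v⟩, hp, rfl⟩
      rw [Finset.mem_product, hB] at hp
      have h1 : hk π (h * s v) = v := by
        rw [hk_mul, hs, hker N h hp.1]; simp
      simp only at h1 ⊢
      rw [h1]
      exact ⟨hp.2, by simpa [mul_assoc] using hp.1⟩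
    · rintro ⟨h1, h3⟩
      refine ⟨(g * (s (hk π g))⁻¹, hk π g), ?_, by simp⟩
      rw [Finset.mem_product, hB]
      exact ⟨h3, h1⟩
  have hinj : Set.InjOn (fun p : G × (Fin k → ℤ) => p.1 * s p.2)
      (B ×ˢ V : Finset (G × (Fin k → ℤ))) := by
    rintro ⟨h, i⟩ hp ⟨h', i'⟩ hp' heq
    rw [Finset.mem_coe, Finset.mem_product, hB] at hp hp'
    simp only at heq hp hp'
    have h1 : hk π (h * s i) = i := by
      rw [hk_mul, hs, hker N h hp.1]; simp
    have h2 : hk π (h' * s i') = i' := by
      rw [hk_mul, hs, hker N h' hp'.1]; simp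
    rw [heq, h2] at h1
    subst h1
    have h4 := mul_right_cancel heq
    rw [h4]
  have hFcard : F.card = B.card * N' ^ k := by
    rw [hF, Finset.card_image_of_injOn hinj, Finset.card_product, hVc]
  have hBpos : 0 < B.card := by
    rw [Finset.card_pos]
    exact ⟨1, (hB 1).2 (H N).one_mem⟩
  have hN'pos : 0 < N' := by rw [hN']; positivity
  have hmove : ∀ g x : G, g ∈ F → WL S 1 x → hk π g + hk π x ∈ V → g * x ∈ F := by
    intro g x hg hx h1
    have hg' := (hmemF g).1 hg
    rw [hmemF]
    obtain ⟨hg1, hg3⟩ := hg'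
    rw [hk_mul]
    refine ⟨h1, ?_⟩
    have h4 : g * x * (s (hk π g + hk π x))⁻¹ =
        (g * (s (hk π g))⁻¹) * (s (hk π g) * x * (s (hk π g + hk π x))⁻¹) := by
      group
    rw [h4]
    refine (H N).mul_mem hg3 (hH1 _ _ ?_ ?_)
    · have e1 : WL S (c * N') (s (hk π g)) := by
        apply hsl
        intro i
        have := (hVmem _).1 hg1 i
        rw [abs_of_nonneg this.1]; exact this.2.le
      have e2 : WL S (c * N') (s (hk π g + hk π x)) := by
        apply hsl
        intro i
        have := (hVmem _).1 h1 i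
        rw [abs_of_nonneg this.1]; exact this.2.le
      refine ((e1.mul hx).mul e2.inv).mono ?_
      rw [hN]; omega
    · rw [hk_mul, hk_mul, hk_inv, hs, hs]; abel
  refine ⟨F, ⟨?_, ?_⟩, hFcard.le⟩
  · rw [← Finset.card_pos, hFcard]; positivity
  · -- boundary
    set U : Finset ℤ := {0, (N' : ℤ) - 1} with hU
    have hUc : U.card ≤ 2 := Finset.card_le_two
    set bad : Finset (Fin k → ℤ) := Finset.univ.biUnion (fun i => V.filter (fun v => v i ∈ U))
      with hbad
    have hbadc : n * bad.card ≤ V.card := by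
      have h2 : N' * bad.card ≤ k * (2 * N' ^ k) := by
        calc N' * bad.card ≤ N' * ∑ i : Fin k, (V.filter (fun v => v i ∈ U)).card :=
              Nat.mul_le_mul_left _ Finset.card_biUnion_le
          _ = ∑ i : Fin k, N' * (V.filter (fun v => v i ∈ U)).card := Finset.mul_sum _ _ _
          _ ≤ ∑ i : Fin k, 2 * N' ^ k :=
              Finset.sum_le_sum (fun i _ => box_bad N' i U hUc)
          _ = k * (2 * N' ^ k) := by simp
      have h3 : N' * (n * bad.card) ≤ N' * V.card := by
        calc N' * (n * bad.card) = n * (N' * bad.card) := by ring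
          _ ≤ n * (k * (2 * N' ^ k)) := Nat.mul_le_mul_left _ h2
          _ = (2 * k * n) * N' ^ k := by ring
          _ ≤ N' * N' ^ k := Nat.mul_le_mul_right _ (by rw [hN']; nlinarith)
          _ = N' * V.card := by rw [hVc]
      exact Nat.le_of_mul_le_mul_left h3 hN'pos
    have hsub : F.filter (fun g => ∃ s ∈ S, g * s ∉ F ∨ g * s⁻¹ ∉ F) ⊆
        (B ×ˢ bad).image (fun p => p.1 * s p.2) := by
      intro g hg
      rw [Finset.mem_filter] at hg
      obtain ⟨hg, x, hx, hbadg⟩ := hg
      have hg' := (hmemF g).1 hg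
      have hxb : ∀ i, |hk π x i| ≤ 1 := hm x hx
      have key : ∃ i, hk π g i ∈ U := by
        by_contra hcon
        push Not at hcon
        have hcon' : ∀ i, 1 ≤ hk π g i ∧ hk π g i + 1 < N' := by
          intro i
          have h1 := (hVmem _).1 hg'.1 i
          have h2 := hcon i
          rw [hU, Finset.mem_insert, Finset.mem_singleton, not_or] at h2
          omega
        rcases hbadg with hb | hb
        · apply hb
          apply hmove g x hg (WL.of_mem hx)
          rw [hVmem]
          intro i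
          have h1 := hcon' i
          have h2 := abs_le.1 (hxb i)
          rw [Pi.add_apply]; omega
        · apply hb
          apply hmove g x⁻¹ hg (WL.of_mem hx).inv
          rw [hVmem]
          intro i
          have h1 := hcon' i
          have h2 := abs_le.1 (hxb i)
          rw [Pi.add_apply, hk_inv, Pi.neg_apply]; omega
      obtain ⟨i, hi⟩ := key
      rw [Finset.mem_image]
      refine ⟨(g * (s (hk π g))⁻¹, hk π g), ?_, by simp⟩
      rw [Finset.mem_product, hB, hbad, Finset.mem_biUnion]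
      exact ⟨hg'.2, i, Finset.mem_univ i, Finset.mem_filter.2 ⟨hg'.1, hi⟩⟩
    have h1 := Finset.card_le_card hsub
    have h2 : ((B ×ˢ bad).image (fun p : G × (Fin k → ℤ) => p.1 * s p.2)).card ≤
        B.card * bad.card := by
      refine Finset.card_image_le.trans ?_
      rw [Finset.card_product]
    calc n * _ ≤ n * (B.card * bad.card) := Nat.mul_le_mul_left _ (h1.trans h2)
      _ = B.card * (n * bad.card) := by ring
      _ ≤ B.card * V.card := Nat.mul_le_mul_left _ hbadc
      _ = F.card := by rw [hFcard, hVc]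

end

end Pool.Agent.H684AN
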