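import Pool.Agent.H684AN.Els

set_option autoImplicit false

/-!
Operators on the rationalised kernel for which fractional multiples are cheap.
-/

namespace Pool.Agent.H684AN

variable {G : Type*} [Group G] {Λ : Type*} [AddCommGroup Λ] {V : Type*} [AddCommGroup V]
  [Module ℚ V] {D : Sys G Λ V} {r : ℕ} (b : Module.Basis (Fin r) ℚ V) (β : Fin r → Λ)
  (hβ : ∀ j, b j = D.κ (β j)) {S : Finset G} (hS : Subgroup.closure (S : Set G) = ⊤)

/-- a word of length `n + 1` is a letter followed by a word of length `n` -/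
theorem WL.succ_left {n : ℕ} {g : G} (hg : WL S (n + 1) g) :
    ∃ s h : G, (s = 1 ∨ s ∈ S ∨ s⁻¹ ∈ S) ∧ WL S n h ∧ g = s * h := by
  obtain ⟨h, s, h1, h2, h3⟩ := WL.succ_iff.1 hg.inv
  refine ⟨s⁻¹, h⁻¹, ?_, h1.inv, ?_⟩
  · rcases h2 with h2 | h2 | h2
    · left; rw [h2, inv_one]
    · right; right; rwa [inv_inv]
    · right; left; exact h2
  · rw [← inv_inv g, h3, mul_inv_rev]

theorem a_i (x y : Λ) : D.a (D.i x) y = y := by
  apply D.i_inj
  rw [D.i_a, ← D.i_add, ← D.i_sub]
  congr 1; abel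

include hβ in
theorem M_i (x : Λ) (v : V) : D.M (D.i x) v = v := by
  have h1 : D.M (D.i x) = LinearMap.id := by
    apply b.ext
    intro j
    rw [hβ, D.M_κ, a_i]; rfl
  rw [h1]; rfl

section
variable (hcx : ∀ g h : G, ∃ x, g * h * g⁻¹ * h⁻¹ = D.i x)

/-- the commutator as an element of `Λ` -/
noncomputable def cx (hcx : ∀ g h : G, ∃ x, g * h * g⁻¹ * h⁻¹ = D.i x) (g h : G) : Λ :=
  Classical.choose (hcx g h)

theorem i_cx (g h : G) : D.i (cx hcx g h) = g * h * g⁻¹ * h⁻¹ := (Classical.choose_spec (hcx g h)).symm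

theorem cx_mul_right (t g h : G) : cx hcx t (g * h) = cx hcx t g + D.a g (cx hcx t h) := by
  apply D.i_inj
  rw [D.i_add, D.i_a, i_cx, i_cx, i_cx]; group

theorem cx_mul_left (t g h : G) : cx hcx (g * h) t = D.a g (cx hcx h t) + cx hcx g t := by
  apply D.i_inj
  rw [D.i_add, D.i_a, i_cx, i_cx, i_cx]; group

theorem cx_i (t : G) (x : Λ) : cx hcx t (D.i x) = D.a t x - x := by
  apply D.i_inj
  rw [D.i_sub, D.i_a, i_cx]

theorem cx_one_right (t : G) : cx hcx t 1 = 0 := by
  apply D.i_inj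
  rw [D.i_zero, i_cx]; group

theorem cx_one_left (t : G) : cx hcx 1 t = 0 := by
  apply D.i_inj
  rw [D.i_zero, i_cx]; group

theorem cx_pow_right (t g : G) (q : ℕ) :
    cx hcx t (g ^ q) = ∑ y ∈ Finset.range q, D.a (g ^ y) (cx hcx t g) := by
  induction q with
  | zero => rw [pow_zero, cx_one_right, Finset.sum_range_zero]
  | succ q ih => rw [pow_succ, cx_mul_right, ih, Finset.sum_range_succ]

theorem cx_pow_left (t g : G) (p : ℕ) :
    cx hcx (t ^ p) g = ∑ y ∈ Finset.range p, D.a (t ^ y) (cx hcx t g) := by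
  induction p with
  | zero => rw [pow_zero, cx_one_left, Finset.sum_range_zero]
  | succ p ih => rw [pow_succ, cx_mul_left, ih, Finset.sum_range_succ, add_comm]

include hβ hcx in
theorem M_comm (g h : G) (v : V) : D.M g (D.M h v) = D.M h (D.M g v) := by
  rw [← D.M_mul, ← D.M_mul]
  obtain ⟨x, hx⟩ := hcx g h
  have h1 : g * h = D.i x * (h * g) := by rw [← hx]; group
  rw [h1, D.M_mul, M_i b β hβ]

include hβ hS in
theorem crs_frac (t : G) : ∃ C : ℕ, ∀ (n : ℕ) (g : G), WL S n g → ∀ q : ℚ, |q| ≤ 1 →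
    EE D b β S (C * n) 0 (q • D.κ (cx hcx t g)) := by
  classical
  choose C1 hC1 using fun s => EE.real (D := D) b β hβ hS (D.κ (cx hcx t s))
  choose C2 hC2 using fun s => EE.step (D := D) b β hβ hS s
  set f : G → ℕ := fun s => 2 * C1 s + C2 s with hf
  set K : ℕ := f 1 + (∑ s ∈ S, f s + ∑ s ∈ S, f s⁻¹) with hK
  refine ⟨K, fun n => ?_⟩
  induction n with
  | zero =>
    intro g hg q _
    obtain ⟨L, h1, _, h3⟩ := hg
    have : L = [] := List.length_eq_zero_iff.mp (by omega)
    subst this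
    rw [← h3, List.prod_nil, cx_one_right, map_zero, smul_zero]
    exact EE.zero b β
  | succ n ih =>
    intro g hg q hq
    obtain ⟨s, h, h1, h2, rfl⟩ := WL.succ_left hg
    rw [cx_mul_right, map_add, ← D.M_κ, smul_add, ← map_smul (D.M s)]
    have h3 := hC1 s q 1 (by exact_mod_cast hq)
    have h4 := hC2 s _ _ _ (ih h h2 q hq)
    rw [map_zero] at h4
    have h5 := h3.add b β h4
    rw [add_zero] at h5
    refine h5.mono b β ?_
    have h6 : f s ≤ K := by
      rcases h1 with rfl | h1 | h1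
      · omega
      · have := Finset.single_le_sum (f := f) (fun _ _ => Nat.zero_le _) h1
        omega
      · have h4 := Finset.single_le_sum (f := fun s => f s⁻¹) (fun _ _ => Nat.zero_le _) h1
        simp only [inv_inv] at h4
        omega
    simp only [hf] at h6
    have e : K * (n + 1) = K * n + K := by ring
    rw [e]
    omega

end

/-- fractional multiples of `f (κ x)` are cheap -/
def Gd (D : Sys G Λ V) (b : Module.Basis (Fin r) ℚ V) (β : Fin r → Λ) (S : Finset G)
    (f : Module.End ℚ V) : Prop :=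
  ∃ C : ℕ, ∀ (n : ℕ) (x : Λ), WL S n (D.i x) → ∀ t : ℚ, |t| ≤ 1 →
    EE D b β S (C * (n + 1)) 0 (t • f (D.κ x))

theorem Gd.add {f g : Module.End ℚ V} (hf : Gd D b β S f) (hg : Gd D b β S g) :
    Gd D b β S (f + g) := by
  obtain ⟨C, hC⟩ := hf
  obtain ⟨C', hC'⟩ := hg
  refine ⟨C + C', fun n x hx t ht => ?_⟩
  have h1 := (hC n x hx t ht).add b β (hC' n x hx t ht)
  rw [add_zero, ← smul_add] at h1
  rw [add_mul]
  exact h1

theorem EE.nat_smul {l : ℕ} {ξ : V} (h : EE D b β S l 0 ξ) (K : ℕ) :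
    EE D b β S (K * l) 0 ((K : ℚ) • ξ) := by
  have h1 := EE.sum b β (Finset.range K) l (fun _ => (0 : Λ)) (fun _ => ξ) (fun _ _ => h)
  rw [Finset.sum_const_zero, Finset.sum_const, Finset.card_range] at h1
  rwa [Nat.cast_smul_eq_nsmul]

theorem Gd.smul {f : Module.End ℚ V} (hf : Gd D b β S f) (q : ℚ) : Gd D b β S (q • f) := by
  obtain ⟨C, hC⟩ := hf
  obtain ⟨K, hK⟩ := exists_nat_gt |q|
  refine ⟨K * C, fun n x hx t ht => ?_⟩
  have hK0 : (0 : ℚ) < K := lt_of_le_of_lt (abs_nonneg q) hK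
  have h1 := hC n x hx (t * q / K) (by
    rw [abs_div, abs_mul, abs_of_pos hK0, div_le_one hK0]
    calc |t| * |q| ≤ 1 * |q| := mul_le_mul_of_nonneg_right ht (abs_nonneg q)
      _ ≤ K := by rw [one_mul]; exact hK.le)
  have h2 := EE.nat_smul b β h1 K
  rw [smul_smul] at h2
  have e : (K : ℚ) * (t * q / K) = t * q := by field_simp
  rw [e] at h2
  rw [LinearMap.smul_apply, smul_smul, mul_assoc]
  exact h2

/-- left multiplication by `Q` preserves cheapness -/
def GA (D : Sys G Λ V) (b : Module.Basis (Fin r) ℚ V) (β : Fin r → Λ) (S : Finset G)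
    (Q : Module.End ℚ V) : Prop := ∀ f : Module.End ℚ V, Gd D b β S f → Gd D b β S (Q * f)

theorem GA.one : GA D b β S 1 := fun f hf => by rwa [one_mul]

theorem GA.mul {P Q : Module.End ℚ V} (hP : GA D b β S P) (hQ : GA D b β S Q) :
    GA D b β S (P * Q) := fun f hf => by rw [mul_assoc]; exact hP _ (hQ f hf)

theorem GA.add {P Q : Module.End ℚ V} (hP : GA D b β S P) (hQ : GA D b β S Q) :
    GA D b β S (P + Q) := fun f hf => by rw [add_mul]; exact (hP f hf).add b β (hQ f hf)

theorem GA.smul {P : Module.End ℚ V} (hP : GA D b β S P) (q : ℚ) : GA D b β S (q • P) :=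
  fun f hf => by rw [smul_mul_assoc]; exact (hP f hf).smul b β q

theorem GA.sub {P Q : Module.End ℚ V} (hP : GA D b β S P) (hQ : GA D b β S Q) :
    GA D b β S (P - Q) := by
  have h1 := hP.add b β (hQ.smul b β (-1))
  rwa [neg_one_smul, ← sub_eq_add_neg] at h1

theorem GA.pow {P : Module.End ℚ V} (hP : GA D b β S P) (n : ℕ) : GA D b β S (P ^ n) := by
  induction n with
  | zero => rw [pow_zero]; exact GA.one b β
  | succ n ih => rw [pow_succ]; exact ih.mul b β hP

theorem GA.aeval {P : Module.End ℚ V} (hP : GA D b β S P) (p : Polynomial ℚ) :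
    GA D b β S (Polynomial.aeval P p) := by
  induction p using Polynomial.induction_on' with
  | add p q hp hq => rw [map_add]; exact hp.add b β hq
  | monomial n a =>
    rw [Polynomial.aeval_monomial, ← Algebra.smul_def]
    exact (hP.pow b β n).smul b β a

include hβ hS in
theorem GA.M (g : G) : GA D b β S (D.M g) := by
  rintro f ⟨C, hC⟩
  obtain ⟨C', hC'⟩ := EE.step (D := D) b β hβ hS g
  refine ⟨C + C', fun n x hx t ht => ?_⟩
  have h1 := hC' _ _ _ (hC n x hx t ht)
  rw [map_zero, map_smul] at h1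
  refine h1.mono b β ?_
  nlinarith

include hβ hS in
theorem Gd.M_sub (hcx : ∀ g h : G, ∃ x, g * h * g⁻¹ * h⁻¹ = D.i x) (t : G) :
    Gd D b β S (D.M t - 1) := by
  obtain ⟨C, hC⟩ := crs_frac (D := D) b β hβ hS hcx t
  refine ⟨C, fun n x hx q hq => ?_⟩
  have h1 := hC n _ hx q hq
  rw [cx_i, map_sub, ← D.M_κ] at h1
  exact h1.mono b β (Nat.mul_le_mul_left _ (Nat.le_succ n))

/-- Bezout for the nilpotent part of an operator -/
theorem exists_proj [FiniteDimensional ℚ V] (N : Module.End ℚ V) :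
    ∃ (s : ℕ) (p u : Polynomial ℚ), N ^ s * Polynomial.aeval N p = 0 ∧
      1 - Polynomial.aeval N p = Polynomial.aeval N u * N := by
  have hμ : minpoly ℚ N ≠ 0 := minpoly.ne_zero (Algebra.IsIntegral.isIntegral N)
  obtain ⟨q, hq1, hq2⟩ := Polynomial.exists_eq_pow_rootMultiplicity_mul_and_not_dvd _ hμ 0
  set s := Polynomial.rootMultiplicity 0 (minpoly ℚ N) with hs
  have hcop : IsCoprime ((Polynomial.X - Polynomial.C (0 : ℚ)) ^ (s + 1)) q :=
    ((Polynomial.irreducible_X_sub_C (0 : ℚ)).coprime_iff_not_dvd.2 hq2).pow_left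
  obtain ⟨u, v, huv⟩ := hcop
  have hX : Polynomial.aeval N (Polynomial.X - Polynomial.C (0 : ℚ)) = N := by simp
  have hN : ∀ m : ℕ, Polynomial.aeval N ((Polynomial.X - Polynomial.C (0 : ℚ)) ^ m) = N ^ m := by
    intro m; rw [map_pow, hX]
  refine ⟨s + 1, v * q, u * (Polynomial.X - Polynomial.C (0 : ℚ)) ^ s, ?_, ?_⟩
  · rw [← hN (s + 1), ← map_mul]
    have e : (Polynomial.X - Polynomial.C (0 : ℚ)) ^ (s + 1) * (v * q) =
        (v * (Polynomial.X - Polynomial.C (0 : ℚ))) * minpoly ℚ N := by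
      rw [hq1]; ring
    rw [e, map_mul, minpoly.aeval, mul_zero]
  · have h1 := congrArg (Polynomial.aeval N) huv
    rw [map_add, map_one] at h1
    rw [← h1, add_sub_cancel_right, pow_succ, ← mul_assoc, map_mul, hX]

end Pool.Agent.H684AN
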