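import Mathlib

set_option autoImplicit false

/-!
A combinatorial Lebesgue covering theorem for the grid: `ℕ ^ k` cannot be coloured with `k` colours
such that the pieces of each colour are bounded and separated. The proof is a Stokes argument for
cup products of cochains modulo two.
-/

namespace Pool.Agent.H684AN

section
variable {ι : Type*} [DecidableEq ι]

/-- the cup product of the differentials of a list of functions, summed over all monotone paths
in the directions `D` starting at `v` -/
def Jc : List ((ι → ℕ) → ZMod 2) → Finset ι → (ι → ℕ) → ZMod 2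
  | [], _, _ => 1
  | f :: fs, D, v => ∑ d ∈ D, (f (v + Pi.single d 1) + f v) * Jc fs (D.erase d) (v + Pi.single d 1)

theorem sym_zero (D : Finset ι) (h : ι → ι → ZMod 2) (hs : ∀ a b, h a b = h b a) :
    ∑ d ∈ D, ∑ d' ∈ D.erase d, h d d' = 0 := by
  rw [← Finset.sum_finset_product' D.offDiag D (fun d => D.erase d) (by
    intro p
    rw [Finset.mem_offDiag, Finset.mem_erase]
    constructor
    · rintro ⟨h1, h2, h3⟩
      exact ⟨h1, fun h => h3 h.symm, h2⟩
    · rintro ⟨h1, h2, h3⟩
      exact ⟨h1, h3, fun h => h2 h.symm⟩)]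
  refine Finset.sum_involution (fun p _ => (p.2, p.1)) ?_ ?_ ?_ ?_
  · intro p _
    simp only
    rw [hs p.2 p.1]
    exact CharTwo.add_self_eq_zero _
  · intro p hp _ h
    rw [Finset.mem_offDiag] at hp
    exact hp.2.2 (Prod.ext_iff.1 h).2
  · intro p hp
    rw [Finset.mem_offDiag] at hp ⊢
    exact ⟨hp.2.1, hp.1, fun h => hp.2.2 h.symm⟩
  · intro p _
    rfl

theorem Jc_closed (fs : List ((ι → ℕ) → ZMod 2)) (D : Finset ι) (v : ι → ℕ) :
    ∑ d ∈ D, Jc fs (D.erase d) (v + Pi.single d 1) = ∑ d ∈ D, Jc fs (D.erase d) v := by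
  induction fs generalizing D v with
  | nil => simp [Jc]
  | cons g fs ih =>
    have hL : ∑ d ∈ D, Jc (g :: fs) (D.erase d) (v + Pi.single d 1) =
        ∑ d ∈ D, g (v + Pi.single d 1) *
          ∑ d' ∈ D.erase d, Jc fs ((D.erase d).erase d') (v + Pi.single d 1) := by
      have h0 := sym_zero D (fun d d' => g (v + Pi.single d 1 + Pi.single d' 1) *
        Jc fs ((D.erase d).erase d') (v + Pi.single d 1 + Pi.single d' 1)) (by
          intro a b
          rw [Finset.erase_right_comm, add_right_comm])
      calc ∑ d ∈ D, Jc (g :: fs) (D.erase d) (v + Pi.single d 1) =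
          ∑ d ∈ D, ∑ d' ∈ D.erase d, g (v + Pi.single d 1 + Pi.single d' 1) *
            Jc fs ((D.erase d).erase d') (v + Pi.single d 1 + Pi.single d' 1) +
          ∑ d ∈ D, ∑ d' ∈ D.erase d, g (v + Pi.single d 1) *
            Jc fs ((D.erase d).erase d') (v + Pi.single d 1 + Pi.single d' 1) := by
            rw [← Finset.sum_add_distrib]
            refine Finset.sum_congr rfl (fun d _ => ?_)
            rw [← Finset.sum_add_distrib, Jc]
            refine Finset.sum_congr rfl (fun d' _ => ?_)
            ring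
        _ = ∑ d ∈ D, ∑ d' ∈ D.erase d, g (v + Pi.single d 1) *
            Jc fs ((D.erase d).erase d') (v + Pi.single d 1 + Pi.single d' 1) := by
            rw [h0, zero_add]
        _ = _ := by
            refine Finset.sum_congr rfl (fun d _ => ?_)
            rw [← Finset.mul_sum, ih]
    have hR : ∑ d ∈ D, Jc (g :: fs) (D.erase d) v =
        ∑ d ∈ D, g (v + Pi.single d 1) *
          ∑ d' ∈ D.erase d, Jc fs ((D.erase d).erase d') (v + Pi.single d 1) := by
      have h1 : ∑ d ∈ D, ∑ d' ∈ D.erase d, g v *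
          Jc fs ((D.erase d).erase d') (v + Pi.single d' 1) = 0 := by
        have h0 := sym_zero D (fun d d' => g v * Jc fs ((D.erase d).erase d') v) (by
          intro a b
          rw [Finset.erase_right_comm])
        rw [← h0]
        refine Finset.sum_congr rfl (fun d _ => ?_)
        rw [← Finset.mul_sum, ← Finset.mul_sum, ih]
      calc ∑ d ∈ D, Jc (g :: fs) (D.erase d) v =
          ∑ d ∈ D, ∑ d' ∈ D.erase d, g (v + Pi.single d' 1) *
            Jc fs ((D.erase d).erase d') (v + Pi.single d' 1) +
          ∑ d ∈ D, ∑ d' ∈ D.erase d, g v *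
            Jc fs ((D.erase d).erase d') (v + Pi.single d' 1) := by
            rw [← Finset.sum_add_distrib]
            refine Finset.sum_congr rfl (fun d _ => ?_)
            rw [← Finset.sum_add_distrib, Jc]
            refine Finset.sum_congr rfl (fun d' _ => ?_)
            ring
        _ = ∑ d ∈ D, ∑ d' ∈ D.erase d, g (v + Pi.single d' 1) *
            Jc fs ((D.erase d).erase d') (v + Pi.single d' 1) := by rw [h1, add_zero]
        _ = ∑ d' ∈ D, ∑ d ∈ D.erase d', g (v + Pi.single d' 1) *
            Jc fs ((D.erase d).erase d') (v + Pi.single d' 1) := by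
            refine Finset.sum_comm' ?_
            intro a b
            rw [Finset.mem_erase, Finset.mem_erase]
            constructor
            · rintro ⟨h1, h2, h3⟩
              exact ⟨⟨fun h => h2 h.symm, h1⟩, h3⟩
            · rintro ⟨⟨h1, h2⟩, h3⟩
              exact ⟨h2, fun h => h1 h.symm, h3⟩
        _ = _ := by
            refine Finset.sum_congr rfl (fun d _ => ?_)
            rw [Finset.mul_sum]
            refine Finset.sum_congr rfl (fun d' _ => ?_)
            rw [Finset.erase_right_comm]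
    rw [hL, hR]

theorem Jc_cons (f : (ι → ℕ) → ZMod 2) (fs : List ((ι → ℕ) → ZMod 2)) (D : Finset ι) (v : ι → ℕ) :
    Jc (f :: fs) D v = ∑ d ∈ D, (f (v + Pi.single d 1) * Jc fs (D.erase d) (v + Pi.single d 1) +
      f v * Jc fs (D.erase d) v) := by
  rw [Jc, Finset.sum_add_distrib, ← Finset.mul_sum (s := D) (f := fun d => Jc fs (D.erase d) v),
    ← Jc_closed, Finset.mul_sum, ← Finset.sum_add_distrib]
  refine Finset.sum_congr rfl (fun d _ => ?_)
  ring

theorem Jc_zero (g : (ι → ℕ) → ZMod 2) (d0 : ι) (x : ℕ) (c : ZMod 2)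
    (hg : ∀ u : ι → ℕ, u d0 = x → g u = c) (fs : List ((ι → ℕ) → ZMod 2)) (D : Finset ι)
    (v : ι → ℕ) (hmem : g ∈ fs) (hD : d0 ∉ D) (hv : v d0 = x) : Jc fs D v = 0 := by
  induction fs generalizing D v with
  | nil => simp at hmem
  | cons f fs ih =>
    rw [Jc]
    refine Finset.sum_eq_zero (fun d hd => ?_)
    have hne : d0 ≠ d := fun h => hD (h ▸ hd)
    have hv' : (v + Pi.single d 1 : ι → ℕ) d0 = x := by
      rw [Pi.add_apply, Pi.single_eq_of_ne hne, add_zero, hv]
    rcases List.mem_cons.1 hmem with h | h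
    · rw [← h, hg _ hv', hg _ hv, CharTwo.add_self_eq_zero, zero_mul]
    · rw [ih (D.erase d) _ h (fun h' => hD (Finset.mem_of_mem_erase h')) hv', mul_zero]

theorem Jc_cube (g : (ι → ℕ) → ZMod 2) (v0 : ι → ℕ)
    (hg : ∀ a b : ι → ℕ, (∀ i, v0 i ≤ a i ∧ a i ≤ v0 i + 1) → (∀ i, v0 i ≤ b i ∧ b i ≤ v0 i + 1) →
      g a = g b) (fs : List ((ι → ℕ) → ZMod 2)) (D : Finset ι)
    (v : ι → ℕ) (hmem : g ∈ fs) (hD : ∀ i ∈ D, v i = v0 i) (hv : ∀ i, v0 i ≤ v i ∧ v i ≤ v0 i + 1) :
    Jc fs D v = 0 := by
  induction fs generalizing D v with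
  | nil => simp at hmem
  | cons f fs ih =>
    rw [Jc]
    refine Finset.sum_eq_zero (fun d hd => ?_)
    have hv' : ∀ i, v0 i ≤ (v + Pi.single d 1 : ι → ℕ) i ∧
        (v + Pi.single d 1 : ι → ℕ) i ≤ v0 i + 1 := by
      intro i
      rw [Pi.add_apply]
      by_cases h : i = d
      · subst h
        rw [Pi.single_eq_same, hD i hd]
        omega
      · rw [Pi.single_eq_of_ne h, add_zero]
        exact hv i
    rcases List.mem_cons.1 hmem with h | h
    · rw [← h, hg _ _ hv' hv, CharTwo.add_self_eq_zero, zero_mul]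
    · rw [ih (D.erase d) _ h ?_ hv', mul_zero]
      intro i hi
      rw [Finset.mem_erase] at hi
      rw [Pi.add_apply, Pi.single_eq_of_ne hi.1, add_zero]
      exact hD i hi.2

variable [Fintype ι]

/-- a box of side `N` in the directions `D`, the other coordinates being those of `w` -/
def Bxn (N : ℕ) (D : Finset ι) (w : ι → ℕ) : Finset (ι → ℕ) :=
  Fintype.piFinset (fun i => if i ∈ D then Finset.range N else {w i})

theorem mem_Bxn (N : ℕ) (D : Finset ι) (w v : ι → ℕ) :
    v ∈ Bxn N D w ↔ ∀ i, (i ∈ D → v i < N) ∧ (i ∉ D → v i = w i) := by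
  rw [Bxn, Fintype.mem_piFinset]
  refine forall_congr' (fun i => ?_)
  by_cases h : i ∈ D
  · simp [h]
  · simp [h]

theorem Bxn_fib (N : ℕ) (D : Finset ι) (w : ι → ℕ) (d : ι) (hd : d ∈ D)
    (h : (ι → ℕ) → ZMod 2) : ∑ v ∈ Bxn N D w, h v =
      ∑ x ∈ Finset.range N, ∑ v ∈ Bxn N (D.erase d) (Function.update w d x), h v := by
  rw [← Finset.sum_fiberwise_of_maps_to (s := Bxn N D w) (t := Finset.range N) (g := fun v => v d)
    (fun v hv => Finset.mem_range.2 (((mem_Bxn N D w v).1 hv d).1 hd))]
  refine Finset.sum_congr rfl (fun x hx => ?_)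
  refine Finset.sum_congr ?_ (fun _ _ => rfl)
  ext v
  rw [Finset.mem_filter, mem_Bxn, mem_Bxn]
  rw [Finset.mem_range] at hx
  constructor
  · rintro ⟨h1, h2⟩ i
    refine ⟨fun hi => (h1 i).1 (Finset.mem_of_mem_erase hi), fun hi => ?_⟩
    by_cases hid : i = d
    · subst hid
      rw [Function.update_self]; exact h2
    · rw [Function.update_of_ne hid]
      refine (h1 i).2 (fun hi' => hi (Finset.mem_erase.2 ⟨hid, hi'⟩))
  · intro h1
    have h2 : v d = x := by
      have := (h1 d).2 (Finset.notMem_erase d D)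
      rwa [Function.update_self] at this
    refine ⟨fun i => ?_, h2⟩
    by_cases hid : i = d
    · subst hid
      exact ⟨fun _ => by rw [h2]; exact hx, fun hi => absurd hd hi⟩
    · refine ⟨fun hi => (h1 i).1 (Finset.mem_erase.2 ⟨hid, hi⟩), fun hi => ?_⟩
      have := (h1 i).2 (fun hi' => hi (Finset.mem_of_mem_erase hi'))
      rwa [Function.update_of_ne hid] at this

theorem Bxn_shift (N : ℕ) (D : Finset ι) (w : ι → ℕ) (d : ι) (hd : d ∉ D) (x : ℕ)
    (h : (ι → ℕ) → ZMod 2) :
    ∑ v ∈ Bxn N D (Function.update w d x), h (v + Pi.single d 1) =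
      ∑ v ∈ Bxn N D (Function.update w d (x + 1)), h v := by
  refine Finset.sum_bij' (fun v _ => v + Pi.single d 1) (fun v _ => Function.update v d x) ?_ ?_ ?_
    ?_ ?_
  · intro v hv
    rw [mem_Bxn] at hv ⊢
    intro i
    by_cases hid : i = d
    · subst hid
      refine ⟨fun hi => absurd hi hd, fun _ => ?_⟩
      have := (hv i).2 hd
      rw [Function.update_self] at this ⊢
      rw [Pi.add_apply, Pi.single_eq_same, this]
    · rw [Pi.add_apply, Pi.single_eq_of_ne hid, add_zero, Function.update_of_ne hid]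
      have := hv i
      rwa [Function.update_of_ne hid] at this
  · intro v hv
    rw [mem_Bxn] at hv ⊢
    intro i
    by_cases hid : i = d
    · subst hid
      refine ⟨fun hi => absurd hi hd, fun _ => ?_⟩
      rw [Function.update_self, Function.update_self]
    · rw [Function.update_of_ne hid, Function.update_of_ne hid]
      have := hv i
      rwa [Function.update_of_ne hid] at this
  · intro v hv
    rw [mem_Bxn] at hv
    have h1 := (hv d).2 hd
    rw [Function.update_self] at h1
    funext i
    by_cases hid : i = d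
    · subst hid
      rw [Function.update_self, h1]
    · rw [Function.update_of_ne hid, Pi.add_apply, Pi.single_eq_of_ne hid, add_zero]
  · intro v hv
    rw [mem_Bxn] at hv
    have h1 := (hv d).2 hd
    rw [Function.update_self] at h1
    funext i
    by_cases hid : i = d
    · subst hid
      rw [Pi.add_apply, Function.update_self, Pi.single_eq_same, h1]
    · rw [Pi.add_apply, Function.update_of_ne hid, Pi.single_eq_of_ne hid, add_zero]
  · intro v _
    rfl

omit [DecidableEq ι] [Fintype ι] in
theorem tel2 (T : ℕ → ZMod 2) (N : ℕ) : ∑ x ∈ Finset.range N, (T (x + 1) + T x) = T N + T 0 := by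
  induction N with
  | zero => simp [CharTwo.add_self_eq_zero]
  | succ N ih =>
    rw [Finset.sum_range_succ, ih]
    have h := CharTwo.add_self_eq_zero (T N)
    linear_combination h

theorem Bxn_tel (N : ℕ) (D : Finset ι) (w : ι → ℕ) (d : ι) (hd : d ∈ D)
    (h : (ι → ℕ) → ZMod 2) : ∑ v ∈ Bxn N D w, (h (v + Pi.single d 1) + h v) =
      ∑ v ∈ Bxn N (D.erase d) (Function.update w d N), h v +
        ∑ v ∈ Bxn N (D.erase d) (Function.update w d 0), h v := by
  rw [Bxn_fib N D w d hd, ← tel2 (fun x => ∑ v ∈ Bxn N (D.erase d) (Function.update w d x), h v) N]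
  refine Finset.sum_congr rfl (fun x _ => ?_)
  rw [Finset.sum_add_distrib, Bxn_shift N (D.erase d) w d (Finset.notMem_erase d D) x h]

theorem kuhn (N : ℕ) (f : ι → (ι → ℕ) → ZMod 2) (h0 : ∀ i v, v i = 0 → f i v = 0)
    (h1 : ∀ i v, v i = N → f i v = 1) (l : List ι) (hl : l.Nodup) (w : ι → ℕ) :
    ∑ v ∈ Bxn N l.toFinset w, Jc (l.map f) l.toFinset v = 1 := by
  induction l generalizing w with
  | nil =>
    have : Bxn N (List.toFinset ([] : List ι)) w = {w} := by
      ext v
      rw [mem_Bxn, Finset.mem_singleton]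
      constructor
      · intro h
        funext i
        exact (h i).2 (by simp)
      · rintro rfl i
        exact ⟨fun hi => by simp at hi, fun _ => rfl⟩
    rw [this]
    simp [Jc]
  | cons i l ih =>
    rw [List.nodup_cons] at hl
    set D : Finset ι := (i :: l).toFinset with hD
    have hDi : D.erase i = l.toFinset := by
      rw [hD, List.toFinset_cons, Finset.erase_insert]
      simpa using hl.1
    have hmem : ∀ d, d ∈ D ↔ d = i ∨ d ∈ l := by
      intro d
      rw [hD, List.mem_toFinset, List.mem_cons]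
    have e1 : ∑ v ∈ Bxn N D w, Jc ((i :: l).map f) D v =
        ∑ d ∈ D, (∑ v ∈ Bxn N (D.erase d) (Function.update w d N),
            f i v * Jc (l.map f) (D.erase d) v +
          ∑ v ∈ Bxn N (D.erase d) (Function.update w d 0),
            f i v * Jc (l.map f) (D.erase d) v) := by
      rw [List.map_cons]
      simp_rw [Jc_cons]
      rw [Finset.sum_comm]
      refine Finset.sum_congr rfl (fun d hd => ?_)
      exact Bxn_tel N D w d hd (fun v => f i v * Jc (l.map f) (D.erase d) v)
    rw [e1, Finset.sum_eq_single i]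
    · rw [hDi]
      have e2 : ∑ v ∈ Bxn N l.toFinset (Function.update w i N), f i v * Jc (l.map f) l.toFinset v =
          1 := by
        rw [← ih hl.2 (Function.update w i N)]
        refine Finset.sum_congr rfl (fun v hv => ?_)
        have h3 := ((mem_Bxn _ _ _ _).1 hv i).2 (by simpa using hl.1)
        rw [Function.update_self] at h3
        rw [h1 i v h3, one_mul]
      have e3 : ∑ v ∈ Bxn N l.toFinset (Function.update w i 0), f i v * Jc (l.map f) l.toFinset v =
          0 := by
        refine Finset.sum_eq_zero (fun v hv => ?_)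
        have h3 := ((mem_Bxn _ _ _ _).1 hv i).2 (by simpa using hl.1)
        rw [Function.update_self] at h3
        rw [h0 i v h3, zero_mul]
      rw [e2, e3, add_zero]
    · intro d hd hne
      have hdl : d ∈ l := ((hmem d).1 hd).resolve_left hne
      have key : ∀ (x : ℕ) (c : ZMod 2), (∀ u : ι → ℕ, u d = x → f d u = c) →
          ∑ v ∈ Bxn N (D.erase d) (Function.update w d x), f i v * Jc (l.map f) (D.erase d) v =
            0 := by
        intro x c hc
        refine Finset.sum_eq_zero (fun v hv => ?_)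
        have h3 := ((mem_Bxn _ _ _ _).1 hv d).2 (Finset.notMem_erase d D)
        rw [Function.update_self] at h3
        rw [Jc_zero (f d) d x c hc (l.map f) (D.erase d) v (List.mem_map_of_mem hdl)
          (Finset.notMem_erase d D) h3, mul_zero]
      rw [key N 1 (h1 d), key 0 0 (h0 d), add_zero]
    · intro h
      exact absurd ((hmem i).2 (Or.inl rfl)) h

end

theorem lebesgue {k : ℕ} {α : Type*} (c : (Fin k → ℕ) → Fin k) (p : (Fin k → ℕ) → α) (B : ℕ)
    (H1 : ∀ u v : Fin k → ℕ, (∀ i, u i ≤ v i + 3 ∧ v i ≤ u i + 3) → c u = c v → p u = p v)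
    (H2 : ∀ u v : Fin k → ℕ, c u = c v → p u = p v → ∀ i, u i ≤ v i + B) : False := by
  classical
  set rep : Fin k → α → Fin k → ℕ := fun j a =>
    if h : ∃ u, c u = j ∧ p u = a then h.choose else 0 with hrep
  have hrep1 : ∀ u, c (rep (c u) (p u)) = c u ∧ p (rep (c u) (p u)) = p u := by
    intro u
    have h : ∃ u', c u' = c u ∧ p u' = p u := ⟨u, rfl, rfl⟩
    have e : rep (c u) (p u) = h.choose := by rw [hrep]; simp only; rw [dif_pos h]
    rw [e]
    exact h.choose_spec
  set near : (Fin k → ℕ) → (Fin k → ℕ) → Prop := fun v u => ∀ i, u i ≤ v i + 1 ∧ v i ≤ u i + 1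
    with hnear
  set g : Fin k → (Fin k → ℕ) → ℕ := fun j v =>
    if h : ∃ u, near v u ∧ c u = j then rep j (p h.choose) j else v j with hg
  have hg1 : ∀ j v, (h : ∃ u, near v u ∧ c u = j) → ∃ u, near v u ∧ c u = j ∧
      g j v = rep j (p u) j := by
    intro j v h
    refine ⟨h.choose, h.choose_spec.1, h.choose_spec.2, ?_⟩
    rw [hg]; simp only; rw [dif_pos h]
  have hgb : ∀ j v, g j v ≤ v j + (B + 1) ∧ v j ≤ g j v + (B + 1) := by
    intro j v
    by_cases h : ∃ u, near v u ∧ c u = j
    · obtain ⟨u, hu, huj, he⟩ := hg1 j v h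
      rw [he]
      have h1 := hrep1 u
      rw [huj] at h1
      have h2 := H2 (rep j (p u)) u (by rw [h1.1, huj]) h1.2 j
      have h3 := H2 u (rep j (p u)) (by rw [h1.1, huj]) h1.2.symm j
      have h4 := hu j
      omega
    · have : g j v = v j := by rw [hg]; simp only; rw [dif_neg h]
      omega
  set M : ℕ := B + 2 with hM
  set N : ℕ := 2 * B + 3 with hN
  set f : Fin k → (Fin k → ℕ) → ZMod 2 := fun j v => if M ≤ g j v then 1 else 0 with hf
  have hf0 : ∀ i v, v i = 0 → f i v = 0 := by
    intro i v hv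
    have := (hgb i v).1
    rw [hf]; simp only; rw [if_neg (by omega)]
  have hf1 : ∀ i v, v i = N → f i v = 1 := by
    intro i v hv
    have := (hgb i v).2
    rw [hf]; simp only; rw [if_pos (by omega)]
  have h1 := kuhn N f hf0 hf1 (List.finRange k) (List.nodup_finRange k) 0
  have h2 : ∑ v ∈ Bxn N (List.finRange k).toFinset 0,
      Jc ((List.finRange k).map f) (List.finRange k).toFinset v = 0 := by
    refine Finset.sum_eq_zero (fun v _ => ?_)
    refine Jc_cube (f (c v)) v ?_ _ _ v (List.mem_map_of_mem (List.mem_finRange _))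
      (fun i _ => rfl) (fun i => ⟨le_rfl, by omega⟩)
    intro a b ha hb
    have hna : ∃ u, near a u ∧ c u = c v := ⟨v, fun i => by have := ha i; omega, rfl⟩
    have hnb : ∃ u, near b u ∧ c u = c v := ⟨v, fun i => by have := hb i; omega, rfl⟩
    obtain ⟨u, hu, huj, he⟩ := hg1 (c v) a hna
    obtain ⟨u', hu', huj', he'⟩ := hg1 (c v) b hnb
    have h3 : p u = p u' := by
      refine H1 u u' (fun i => ?_) (by rw [huj, huj'])
      have h4 := hu i
      have h5 := hu' i
      have h6 := ha i
      have h7 := hb i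
      omega
    have h4 : g (c v) a = g (c v) b := by rw [he, he', h3]
    rw [hf]
    simp only
    rw [h4]
  rw [h2] at h1
  exact absurd h1 (by decide)

end Pool.Agent.H684AN
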