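import Pool.Agent.H684AN.Frz
import Pool.Agent.H684AN.Leb

set_option autoImplicit false

/-!
A finitely generated group containing a free abelian group of rank `k` has asymptotic dimension at
least `k`.
-/

namespace Pool.Agent.H684AN

variable {G : Type*} [Group G]

theorem asd_low {S : Finset G} (hS : Subgroup.closure (S : Set G) = ⊤) {k : ℕ}
    (T : Multiplicative (Fin k → ℤ) →* G) (hT : Function.Injective T) (d : ℕ) (hd : d < k) :
    ¬ AsD S d := by
  classical
  intro hA
  choose len hlen using fun g => exists_WL hS g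
  -- the small displacements
  set box : Finset (Fin k → ℤ) := Fintype.piFinset (fun _ : Fin k => Finset.Icc (-3 : ℤ) 3)
    with hbox
  set r : ℕ := box.sup (fun x => len (T (Multiplicative.ofAdd x))) with hr
  have hsmall : ∀ x ∈ box, WL S r (T (Multiplicative.ofAdd x)) := fun x hx =>
    (hlen _).mono (Finset.le_sup (f := fun x => len (T (Multiplicative.ofAdd x))) hx)
  obtain ⟨B', U, hU1, hU2, hU3⟩ := hA r
  set τ : (Fin k → ℕ) → G := fun v => T (Multiplicative.ofAdd (fun i => (v i : ℤ))) with hτ
  have hdiff : ∀ u v : Fin k → ℕ, (τ u)⁻¹ * τ v =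
      T (Multiplicative.ofAdd (fun i => (v i : ℤ) - u i)) := by
    intro u v
    rw [hτ]
    simp only
    rw [← map_inv, ← map_mul, ← ofAdd_neg, ← ofAdd_add]
    congr 1
    congr 1
    funext i
    simp only [Pi.add_apply, Pi.neg_apply]
    ring
  choose ci hci using fun v => hU1 (τ v)
  choose p hp hpτ using hci
  -- the finitely many displacements inside a piece
  obtain ⟨Bf, hBf, _⟩ := exists_ball S B'
  obtain ⟨B, hB⟩ : ∃ B : ℕ, ∀ x : Fin k → ℤ, WL S B' (T (Multiplicative.ofAdd x)) →
      ∀ i, |x i| ≤ B := by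
    have hfin : {x : Fin k → ℤ | WL S B' (T (Multiplicative.ofAdd x))}.Finite := by
      have h1 : (Bf : Set G).Finite := Bf.finite_toSet
      refine (h1.preimage (f := fun x : Fin k → ℤ => T (Multiplicative.ofAdd x)) ?_).subset ?_
      · intro a _ b _ hab
        exact Multiplicative.ofAdd.injective (hT hab)
      · intro x hx
        exact (hBf _).2 hx
    refine ⟨hfin.toFinset.sup (fun x => Finset.univ.sup (fun i => (x i).natAbs)), ?_⟩
    intro x hx i
    have h1 : (x i).natAbs ≤ hfin.toFinset.sup (fun x => Finset.univ.sup (fun i => (x i).natAbs)) :=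
      (Finset.le_sup (f := fun i => (x i).natAbs) (Finset.mem_univ i)).trans
        (Finset.le_sup (f := fun x : Fin k → ℤ => Finset.univ.sup (fun i => (x i).natAbs))
          (hfin.mem_toFinset.2 hx))
    rw [Int.abs_eq_natAbs]
    exact_mod_cast h1
  refine lebesgue (fun v => Fin.castLE (by omega : d + 1 ≤ k) (ci v)) p B ?_ ?_
  · intro u v huv hc
    have hc' : ci u = ci v := Fin.castLE_injective _ hc
    by_contra hne
    have hpv : p v ∈ U (ci u) := by rw [hc']; exact hp v
    refine hU3 (ci u) (p u) (hp u) (p v) hpv hne (τ u) (hpτ u) (τ v) (hpτ v) ?_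
    rw [hdiff]
    apply hsmall
    rw [hbox, Fintype.mem_piFinset]
    intro i
    have := huv i
    rw [Finset.mem_Icc]
    omega
  · intro u v hc hpp i
    have hc' : ci u = ci v := Fin.castLE_injective _ hc
    have h1 := hU2 (ci u) (p u) (hp u) (τ u) (hpτ u) (τ v) (by rw [hpp]; exact hpτ v)
    rw [hdiff] at h1
    have h2 := hB _ h1 i
    rw [abs_le] at h2
    omega

/-- a homomorphism from `ℤ ^ 1` given by an element of infinite order -/
theorem exists_T1 (t : G) (ht : ∀ n : ℤ, t ^ n = 1 → n = 0) :
    ∃ T : Multiplicative (Fin 1 → ℤ) →* G, Function.Injective T := by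
  refine ⟨{ toFun := fun v => t ^ (Multiplicative.toAdd v 0)
            map_one' := by simp
            map_mul' := fun a b => by rw [← zpow_add]; rfl }, ?_⟩
  rw [injective_iff_map_eq_one]
  intro a ha
  have h1 := ht _ ha
  apply Multiplicative.toAdd.injective
  funext i
  have hi : i = 0 := Subsingleton.elim _ _
  rw [hi, h1]
  rfl

end Pool.Agent.H684AN
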