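import Pool.Agent.H684AN.FarD
import Pool.Agent.H684AN.Low

set_option autoImplicit false

/-!
Equality of asymptotic dimension and Assouad-Nagata dimension for virtually (locally finite)-by-`ℤ^k`
groups with virtually central far commutators and at most exponential Folner function.
-/

open scoped commutatorElement

namespace Pool.Agent.H684AN

theorem main_Dim {G : Type*} [Group G] (S : Finset G) (hS : Subgroup.closure (S : Set G) = ⊤)
    (H : Subgroup G) (hfi : H.FiniteIndex) (L : Subgroup H) [L.Normal]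
    (hloc : ∀ E : Finset H, (E : Set H) ⊆ L → (Subgroup.closure (E : Set H) : Set H).Finite)
    (K : Subgroup H) (hK : K.FiniteIndex)
    (hfar : ∀ x ∈ L, ∀ y ∈ L, ∃ E : Set (H ⧸ L), E.Finite ∧ ∀ g : H,
      (QuotientGroup.mk g : H ⧸ L) ∉ E → ∀ w ∈ K, Commute ⁅x, g * y * g⁻¹⁆ w)
    (k : ℕ) (hq : Nonempty ((H ⧸ L) ≃* Multiplicative (Fin k → ℤ)))
    (hT : 2 ≤ k → ∃ T : Multiplicative (Fin k → ℤ) →* G, Function.Injective T)
    (hF : FolExp S) (d : ℕ) : (AsD S d ↔ AnD S d) ∧ (AnD S d ↔ k ≤ d) := by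
  have h1 : ANLE S k := (main_FarVD S hS H hfi L hloc K hK hfar k hq).1 hF
  suffices hlow : ∀ d' < k, ¬ AsD S d' from
    ⟨dim_eq hS h1 hlow d, fun h => not_lt.1 (fun h' => hlow d h' h.asD), fun h => h1.anD hS h⟩
  intro d' hd'
  obtain ⟨T, hTi⟩ : ∃ T : Multiplicative (Fin k → ℤ) →* G, Function.Injective T := by
    rcases Nat.lt_or_ge k 2 with hk | hk
    · have hk1 : k = 1 := by omega
      subst hk1
      obtain ⟨e⟩ := hq
      obtain ⟨q, hq1⟩ := e.surjective (Multiplicative.ofAdd (fun _ : Fin 1 => (1 : ℤ)))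
      obtain ⟨t, rfl⟩ := QuotientGroup.mk'_surjective L q
      refine exists_T1 (t : G) (fun n hn => ?_)
      have h2 : t ^ n = 1 := by
        apply Subtype.ext
        rw [Subgroup.coe_zpow, hn]
        rfl
      have h3 : (e (QuotientGroup.mk' L t)) ^ n = 1 := by
        rw [← map_zpow, ← map_zpow, h2, map_one, map_one]
      rw [hq1, ← ofAdd_zsmul] at h3
      have h4 : (n • (fun _ : Fin 1 => (1 : ℤ))) = 0 := h3
      have h5 := congrFun h4 0
      simpa using h5
    · exact hT hk
  exact asd_low hS T hTi d' hd'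

end Pool.Agent.H684AN
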