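import Pool.Agent.H684AN.Chn

set_option autoImplicit false

/-!
Rounding formalism: an abelian normal subgroup of finite rank with a fixed basis of its
rationalisation; elements whose rounding cost is controlled.
-/

namespace Pool.Agent.H684AN

/-- an additive group embedded in `G` as a normal subgroup, with its rationalisation -/
structure Sys (G : Type*) [Group G] (Λ : Type*) [AddCommGroup Λ] (V : Type*) [AddCommGroup V]
    [Module ℚ V] where
  i : Λ → G
  i_add : ∀ x y, i (x + y) = i x * i y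
  i_inj : Function.Injective i
  a : G → Λ →+ Λ
  i_a : ∀ g x, i (a g x) = g * i x * g⁻¹
  κ : Λ →+ V
  κ_tor : ∀ x, κ x = 0 → ∃ m : ℕ, 0 < m ∧ m • x = 0
  M : G → V →ₗ[ℚ] V
  M_κ : ∀ g x, M g (κ x) = κ (a g x)
  M_mul : ∀ g h v, M (g * h) v = M g (M h v)
  M_one : ∀ v, M 1 v = v

variable {G : Type*} [Group G] {Λ : Type*} [AddCommGroup Λ] {V : Type*} [AddCommGroup V]
  [Module ℚ V] (D : Sys G Λ V)

namespace Sys

/-- the embedding as a homomorphism -/
def ih : Multiplicative Λ →* G :=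
  MonoidHom.mk' (fun x => D.i (Multiplicative.toAdd x)) (fun _ _ => D.i_add _ _)

theorem ih_apply (x : Λ) : D.ih (Multiplicative.ofAdd x) = D.i x := rfl

theorem i_zero : D.i 0 = 1 := by
  have := map_one D.ih
  exact this

theorem i_neg (x : Λ) : D.i (-x) = (D.i x)⁻¹ := by
  have := map_inv D.ih (Multiplicative.ofAdd x)
  exact this

theorem i_sub (x y : Λ) : D.i (x - y) = D.i x * (D.i y)⁻¹ := by
  rw [sub_eq_add_neg, D.i_add, D.i_neg]

theorem i_zsmul (z : ℤ) (x : Λ) : D.i (z • x) = (D.i x) ^ z := by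
  have := map_zpow D.ih (Multiplicative.ofAdd x) z
  exact this

theorem i_nsmul (z : ℕ) (x : Λ) : D.i (z • x) = (D.i x) ^ z := by
  have := map_pow D.ih (Multiplicative.ofAdd x) z
  exact this

theorem a_mul (g h : G) (x : Λ) : D.a (g * h) x = D.a g (D.a h x) := by
  apply D.i_inj
  rw [D.i_a, D.i_a, D.i_a]; group

theorem a_one (x : Λ) : D.a 1 x = x := by
  apply D.i_inj
  rw [D.i_a]; group

theorem M_inv (g : G) (v : V) : D.M g (D.M g⁻¹ v) = v := by
  rw [← D.M_mul, mul_inv_cancel, D.M_one]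

theorem M_inv' (g : G) (v : V) : D.M g⁻¹ (D.M g v) = v := by
  rw [← D.M_mul, inv_mul_cancel, D.M_one]

/-- membership in closures upstairs and downstairs -/
theorem mem_cl (Y : Set Λ) (x : Λ) (h : D.i x ∈ Subgroup.closure (D.i '' Y)) :
    x ∈ AddSubgroup.closure Y := by
  have key : ∀ g ∈ Subgroup.closure (D.i '' Y), ∃ y ∈ AddSubgroup.closure Y, g = D.i y := by
    intro g hg
    induction hg using Subgroup.closure_induction with
    | mem x hx =>
      obtain ⟨y, hy, rfl⟩ := hx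
      exact ⟨y, AddSubgroup.subset_closure hy, rfl⟩
    | one => exact ⟨0, AddSubgroup.zero_mem _, D.i_zero.symm⟩
    | mul x y _ _ hx hy =>
      obtain ⟨x', hx', rfl⟩ := hx
      obtain ⟨y', hy', rfl⟩ := hy
      exact ⟨x' + y', AddSubgroup.add_mem _ hx' hy', (D.i_add _ _).symm⟩
    | inv x _ hx =>
      obtain ⟨x', hx', rfl⟩ := hx
      exact ⟨-x', AddSubgroup.neg_mem _ hx', (D.i_neg _).symm⟩
  obtain ⟨y, hy, h1⟩ := key _ h
  rw [D.i_inj h1]
  exact hy

end Sys

theorem exists_bd {ι : Type*} [Fintype ι] (f : ι → ℚ) : ∃ K : ℕ, ∀ j, |f j| ≤ K := by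
  refine ⟨∑ j, ⌈|f j|⌉₊, fun j => ?_⟩
  have h1 : ⌈|f j|⌉₊ ≤ ∑ j, ⌈|f j|⌉₊ :=
    Finset.single_le_sum (f := fun j => ⌈|f j|⌉₊) (fun _ _ => Nat.zero_le _) (Finset.mem_univ j)
  refine (Nat.le_ceil _).trans ?_
  exact_mod_cast h1

section
variable {D} {r : ℕ} (b : Module.Basis (Fin r) ℚ V) (β : Fin r → Λ) (hβ : ∀ j, b j = D.κ (β j))
  {S : Finset G} (hS : Subgroup.closure (S : Set G) = ⊤)

/-- rounding -/
noncomputable def rd (η : V) : Λ := ∑ j, ⌊b.repr η j⌋ • β j

/-- fractional part -/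
noncomputable def fr (η : V) : V := ∑ j, (Int.fract (b.repr η j)) • b j

include hβ in
theorem κ_rd (η : V) : D.κ (rd b β η) = η - fr b η := by
  have h1 : ∀ z : V, z = ∑ j, b.repr z j • b j := fun z => (b.sum_repr z).symm
  rw [rd, map_sum, fr]
  conv_rhs => lhs; rw [h1 η]
  rw [← Finset.sum_sub_distrib]
  refine Finset.sum_congr rfl (fun j _ => ?_)
  rw [map_zsmul, ← hβ, ← sub_smul]
  have h2 : b.repr η j - Int.fract (b.repr η j) = (⌊b.repr η j⌋ : ℚ) := by
    rw [Int.fract]; ring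
  rw [h2, Int.cast_smul_eq_zsmul]

theorem fr_repr (η : V) (j : Fin r) : b.repr (fr b η) j = Int.fract (b.repr η j) := by
  rw [fr, b.repr_sum_self]

theorem rd_mem (η : V) : rd b β η ∈ AddSubgroup.closure (Set.range β) := by
  unfold rd
  exact AddSubgroup.sum_mem _ (fun j _ =>
    AddSubgroup.zsmul_mem _ (AddSubgroup.subset_closure (Set.mem_range_self j)) _)

/-- cost of rounding -/
def EE (D : Sys G Λ V) (b : Module.Basis (Fin r) ℚ V) (β : Fin r → Λ) (S : Finset G) (l : ℕ)
    (x : Λ) (ξ : V) : Prop :=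
  ∀ η : V, WL S l (D.i (x + rd b β η - rd b β (η + D.κ x - ξ)))

theorem EE.mono {l l' : ℕ} {x : Λ} {ξ : V} (h : EE D b β S l x ξ) (hl : l ≤ l') :
    EE D b β S l' x ξ := fun η => (h η).mono hl

theorem EE.zero : EE D b β S 0 0 0 := by
  intro η
  have : (0 : Λ) + rd b β η - rd b β (η + D.κ 0 - 0) = 0 := by simp
  rw [this, D.i_zero]
  exact WL.one S 0

theorem EE.self {l : ℕ} {x : Λ} (h : WL S l (D.i x)) : EE D b β S l x (D.κ x) := by
  intro η
  have : x + rd b β η - rd b β (η + D.κ x - D.κ x) = x := by simp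
  rw [this]; exact h

theorem EE.fin {l : ℕ} {x : Λ} (h : EE D b β S l x (D.κ x)) : WL S l (D.i x) := by
  have h1 := h 0
  have : x + rd b β 0 - rd b β (0 + D.κ x - D.κ x) = x := by simp
  rwa [this] at h1

theorem EE.add {l l' : ℕ} {x x' : Λ} {ξ ξ' : V} (h : EE D b β S l x ξ)
    (h' : EE D b β S l' x' ξ') : EE D b β S (l + l') (x + x') (ξ + ξ') := by
  intro η
  have h1 := h' η
  have h2 := h (η + D.κ x' - ξ')
  have h3 := h2.mul h1
  rw [← D.i_add] at h3
  have e : η + D.κ x' - ξ' + D.κ x - ξ = η + D.κ (x + x') - (ξ + ξ') := by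
    rw [map_add]; abel
  rw [e] at h3
  have e2 : x + rd b β (η + D.κ x' - ξ') - rd b β (η + D.κ (x + x') - (ξ + ξ')) +
      (x' + rd b β η - rd b β (η + D.κ x' - ξ')) =
      x + x' + rd b β η - rd b β (η + D.κ (x + x') - (ξ + ξ')) := by abel
  rwa [e2] at h3

theorem EE.neg {l : ℕ} {x : Λ} {ξ : V} (h : EE D b β S l x ξ) : EE D b β S l (-x) (-ξ) := by
  intro η
  have h1 := (h (η + D.κ (-x) - (-ξ))).inv
  rw [← D.i_neg] at h1
  have e : η + D.κ (-x) - -ξ + D.κ x - ξ = η := by rw [map_neg]; abel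
  rw [e] at h1
  have e2 : -(x + rd b β (η + D.κ (-x) - -ξ) - rd b β η) =
      -x + rd b β η - rd b β (η + D.κ (-x) - -ξ) := by abel
  rwa [e2] at h1

theorem EE.sum {ι : Type*} (s : Finset ι) (l : ℕ) (x : ι → Λ) (ξ : ι → V)
    (h : ∀ j ∈ s, EE D b β S l (x j) (ξ j)) :
    EE D b β S (s.card * l) (∑ j ∈ s, x j) (∑ j ∈ s, ξ j) := by
  classical
  induction s using Finset.induction_on with
  | empty => simpa using EE.zero b β
  | insert a s ha ih =>
    rw [Finset.sum_insert ha, Finset.sum_insert ha, Finset.card_insert_of_notMem ha]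
    refine ((h a (Finset.mem_insert_self a s)).add b β
      (ih (fun j hj => h j (Finset.mem_insert_of_mem hj)))).mono b β ?_
    ring_nf; omega

include hβ in
theorem exists_mul (x : Λ) : ∃ m : ℕ, 0 < m ∧ m • x ∈ AddSubgroup.closure (Set.range β) := by
  classical
  set d : ℕ := ∏ j, (b.repr (D.κ x) j).den with hd
  have hdpos : 0 < d := Finset.prod_pos (fun j _ => (b.repr (D.κ x) j).den_pos)
  have hz : ∀ j, ∃ z : ℤ, (d : ℚ) * b.repr (D.κ x) j = z := by
    intro j
    obtain ⟨c, hc⟩ := Finset.dvd_prod_of_mem (fun j => (b.repr (D.κ x) j).den)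
      (Finset.mem_univ j)
    refine ⟨c * (b.repr (D.κ x) j).num, ?_⟩
    rw [hd, hc]
    have h1 := Rat.mul_den_eq_num (b.repr (D.κ x) j)
    push_cast
    rw [← h1]; ring
  choose z hz using hz
  have h0 : D.κ (d • x - ∑ j, z j • β j) = 0 := by
    rw [map_sub, map_nsmul, map_sum, sub_eq_zero]
    conv_lhs => rw [← b.sum_repr (D.κ x)]
    rw [Finset.smul_sum]
    refine Finset.sum_congr rfl (fun j _ => ?_)
    rw [map_zsmul, ← hβ, ← Int.cast_smul_eq_zsmul ℚ, ← hz j, mul_smul, Nat.cast_smul_eq_nsmul]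
  obtain ⟨m, hm, hmx⟩ := D.κ_tor _ h0
  refine ⟨m * d, by positivity, ?_⟩
  rw [smul_sub, sub_eq_zero] at hmx
  rw [mul_smul, hmx]
  exact AddSubgroup.nsmul_mem _ (AddSubgroup.sum_mem _ (fun j _ =>
    AddSubgroup.zsmul_mem _ (AddSubgroup.subset_closure (Set.mem_range_self j)) _)) _

theorem mem_cl_range (w : Λ) (hw : w ∈ AddSubgroup.closure (Set.range β)) :
    ∃ z : Fin r → ℤ, w = ∑ j, z j • β j := by
  classical
  induction hw using AddSubgroup.closure_induction with
  | mem x hx =>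
    obtain ⟨j, rfl⟩ := hx
    refine ⟨Pi.single j 1, ?_⟩
    rw [Finset.sum_eq_single j]
    · simp
    · intro l _ hl; rw [Pi.single_eq_of_ne hl]; simp
    · intro h; exact absurd (Finset.mem_univ j) h
  | zero => exact ⟨0, by simp⟩
  | add x y _ _ hx hy =>
    obtain ⟨z, rfl⟩ := hx
    obtain ⟨z', rfl⟩ := hy
    refine ⟨z + z', ?_⟩
    rw [← Finset.sum_add_distrib]
    exact Finset.sum_congr rfl (fun j _ => by rw [Pi.add_apply, add_smul])
  | neg x _ hx =>
    obtain ⟨z, rfl⟩ := hx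
    refine ⟨-z, ?_⟩
    rw [← Finset.sum_neg_distrib]
    exact Finset.sum_congr rfl (fun j _ => by rw [Pi.neg_apply, neg_smul])

theorem WL_sum {ι : Type*} (s : Finset ι) (l : ℕ) (x : ι → Λ) (h : ∀ j ∈ s, WL S l (D.i (x j))) :
    WL S (s.card * l) (D.i (∑ j ∈ s, x j)) := by
  classical
  induction s using Finset.induction_on with
  | empty => rw [Finset.sum_empty, D.i_zero]; exact WL.one S _
  | insert a s ha ih =>
    rw [Finset.sum_insert ha, Finset.card_insert_of_notMem ha, D.i_add]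
    refine ((h a (Finset.mem_insert_self a s)).mul
      (ih (fun j hj => h j (Finset.mem_insert_of_mem hj)))).mono ?_
    ring_nf; omega

include hβ hS in
/-- elements of a finitely generated subgroup with bounded coordinates have bounded length -/
theorem norm_lem (Γ : Finset Λ) : ∃ C : ℕ, ∀ w ∈ AddSubgroup.closure ((Γ : Set Λ) ∪ Set.range β),
    ∀ R : ℕ, (∀ j, |b.repr (D.κ w) j| ≤ R) → WL S (C * (R + 1)) (D.i w) := by
  classical
  induction Γ using Finset.induction_on with
  | empty =>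
    choose cc hcc using fun j => exists_WL hS (D.i (β j))
    refine ⟨r * ∑ j, cc j, fun w hw R hR => ?_⟩
    rw [Finset.coe_empty, Set.empty_union] at hw
    obtain ⟨z, rfl⟩ := mem_cl_range β w hw
    have hz : ∀ j, (z j).natAbs ≤ R := by
      intro j
      have h1 : b.repr (D.κ (∑ j, z j • β j)) j = z j := by
        have h2 : D.κ (∑ j, z j • β j) = ∑ j, ((z j : ℚ)) • b j := by
          rw [map_sum]
          refine Finset.sum_congr rfl (fun j _ => ?_)
          rw [map_zsmul, ← hβ, Int.cast_smul_eq_zsmul]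
        rw [h2, b.repr_sum_self]
      have h3 := hR j
      rw [h1] at h3
      have h4 : |z j| ≤ (R : ℤ) := by exact_mod_cast h3
      rw [Int.abs_eq_natAbs] at h4
      exact_mod_cast h4
    have h5 := WL_sum (D := D) (S := S) Finset.univ (R * ∑ j, cc j) (fun j => z j • β j) (by
      intro j _
      rw [D.i_zsmul]
      refine ((hcc j).zpow (z j)).mono ?_
      exact Nat.mul_le_mul (hz j)
        (Finset.single_le_sum (f := cc) (fun _ _ => Nat.zero_le _) (Finset.mem_univ j)))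
    refine h5.mono ?_
    rw [Finset.card_univ, Fintype.card_fin]
    have : R * ∑ j, cc j ≤ (R + 1) * ∑ j, cc j := Nat.mul_le_mul_right _ (Nat.le_succ R)
    calc r * (R * ∑ j, cc j) ≤ r * ((R + 1) * ∑ j, cc j) := Nat.mul_le_mul_left _ this
      _ = _ := by ring
  | insert γ Γ hγ ih =>
    obtain ⟨C, hC⟩ := ih
    obtain ⟨m, hm, hmγ⟩ := exists_mul b β hβ γ
    obtain ⟨cg, hcg⟩ := exists_WL hS (D.i γ)
    obtain ⟨K, hK⟩ := exists_bd (fun j => (m : ℚ) * b.repr (D.κ γ) j)
    refine ⟨C * (K + 1) + m * cg, fun w hw R hR => ?_⟩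
    have hsub : AddSubgroup.closure (Set.range β) ≤
        AddSubgroup.closure ((Γ : Set Λ) ∪ Set.range β) :=
      AddSubgroup.closure_mono Set.subset_union_right
    have hdec : ∃ (c : ℤ), ∃ w' ∈ AddSubgroup.closure ((Γ : Set Λ) ∪ Set.range β),
        w = c • γ + w' := by
      rw [Finset.coe_insert, Set.insert_union] at hw
      clear hR
      induction hw using AddSubgroup.closure_induction with
      | mem x hx =>
        rcases hx with rfl | hx
        · exact ⟨1, 0, AddSubgroup.zero_mem _, by simp⟩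
        · exact ⟨0, x, AddSubgroup.subset_closure hx, by simp⟩
      | zero => exact ⟨0, 0, AddSubgroup.zero_mem _, by simp⟩
      | add x y _ _ hx hy =>
        obtain ⟨c, x', hx', rfl⟩ := hx
        obtain ⟨c', y', hy', rfl⟩ := hy
        exact ⟨c + c', x' + y', AddSubgroup.add_mem _ hx' hy', by rw [add_smul]; abel⟩
      | neg x _ hx =>
        obtain ⟨c, x', hx', rfl⟩ := hx
        exact ⟨-c, -x', AddSubgroup.neg_mem _ hx', by rw [neg_smul]; abel⟩
    obtain ⟨c, w', hw', rfl⟩ := hdec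
    have hm0 : (0 : ℤ) < m := by exact_mod_cast hm
    have h1 := Int.emod_nonneg c hm0.ne'
    have h2 := Int.emod_lt_of_pos c hm0
    set w'' : Λ := (c / m) • ((m : ℕ) • γ) + w' with hw''
    have hdec : c • γ + w' = (c % m).toNat • γ + w'' := by
      rw [hw'', ← add_assoc]
      congr 1
      have e1 : ((c % m).toNat : ℤ) • γ = (c % m).toNat • γ := natCast_zsmul _ _
      have e2 : ((m : ℕ) : ℤ) • γ = (m : ℕ) • γ := natCast_zsmul _ _
      rw [← e1, ← e2, Int.toNat_of_nonneg h1, smul_smul, ← add_smul]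
      congr 1
      have := Int.emod_add_mul_ediv c m
      linarith
    have hw''m : w'' ∈ AddSubgroup.closure ((Γ : Set Λ) ∪ Set.range β) :=
      AddSubgroup.add_mem _ (AddSubgroup.zsmul_mem _ (hsub hmγ) _) hw'
    clear_value w''
    have hco : ∀ j, |b.repr (D.κ w'') j| ≤ ((R + K : ℕ) : ℚ) := by
      intro j
      have e1 : D.κ w'' = D.κ (c • γ + w') - ((c % m).toNat : ℚ) • D.κ γ := by
        rw [hdec, map_add, map_nsmul, Nat.cast_smul_eq_nsmul]; abel
      rw [e1, map_sub, map_smul, Finsupp.sub_apply, Finsupp.smul_apply, smul_eq_mul]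
      have h3 := hR j
      have h4 := hK j
      rw [abs_mul, abs_of_nonneg (by positivity : (0 : ℚ) ≤ m)] at h4
      have h5 : |((c % m).toNat : ℚ) * b.repr (D.κ γ) j| ≤ (m : ℚ) * |b.repr (D.κ γ) j| := by
        rw [abs_mul, abs_of_nonneg (by positivity : (0 : ℚ) ≤ ((c % m).toNat : ℚ))]
        refine mul_le_mul_of_nonneg_right ?_ (abs_nonneg _)
        have : (c % m).toNat ≤ m := by omega
        exact_mod_cast this
      push_cast
      refine (abs_sub _ _).trans ?_
      linarith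
    have h6 := hC w'' hw''m (R + K) hco
    have h7 : WL S (m * cg) (D.i ((c % m).toNat • γ)) := by
      rw [D.i_nsmul]
      refine (hcg.pow _).mono (Nat.mul_le_mul_right _ ?_)
      omega
    rw [hdec, D.i_add]
    refine (h7.mul h6).mono ?_
    have : C * (R + K + 1) ≤ C * (K + 1) * (R + 1) := by
      rw [mul_assoc]
      refine Nat.mul_le_mul_left _ ?_
      nlinarith
    nlinarith [Nat.zero_le (m * cg * R)]

include hβ hS in
theorem EE.real (ζ : V) : ∃ C : ℕ, ∀ (q : ℚ) (R : ℕ), |q| ≤ R →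
    EE D b β S (C * (R + 1)) 0 (q • ζ) := by
  obtain ⟨C, hC⟩ := norm_lem (D := D) b β hβ hS (∅ : Finset Λ)
  obtain ⟨Z, hZ⟩ := exists_bd (fun j => b.repr ζ j)
  refine ⟨C * (Z + 2), fun q R hq η => ?_⟩
  have hmem : (0 : Λ) + rd b β η - rd b β (η + D.κ 0 - q • ζ) ∈
      AddSubgroup.closure (((∅ : Finset Λ) : Set Λ) ∪ Set.range β) := by
    rw [Finset.coe_empty, Set.empty_union, zero_add]
    exact AddSubgroup.sub_mem _ (rd_mem b β _) (rd_mem b β _)
  refine (hC _ hmem (R * Z + 1) (fun j => ?_)).mono ?_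
  · rw [map_sub, map_add, κ_rd b β hβ, κ_rd b β hβ, map_zero]
    have e : (0 : V) + (η - fr b η) - (η + 0 - q • ζ - fr b (η + 0 - q • ζ)) =
        q • ζ - fr b η + fr b (η + 0 - q • ζ) := by abel
    rw [e, map_add, map_sub, map_smul, Finsupp.add_apply, Finsupp.sub_apply, Finsupp.smul_apply,
      smul_eq_mul, fr_repr, fr_repr]
    have h1 := Int.fract_nonneg (b.repr η j)
    have h2 := Int.fract_lt_one (b.repr η j)
    have h3 := Int.fract_nonneg (b.repr (η + 0 - q • ζ) j)
    have h4 := Int.fract_lt_one (b.repr (η + 0 - q • ζ) j)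
    have h5 : |q * b.repr ζ j| ≤ R * Z := by
      rw [abs_mul]
      exact mul_le_mul hq (hZ j) (abs_nonneg _) (by positivity)
    rw [abs_le] at h5 ⊢
    push_cast
    constructor <;> linarith [h5.1, h5.2]
  · rw [mul_assoc]
    refine Nat.mul_le_mul_left _ ?_
    nlinarith

include hβ hS in
theorem EE.dig (x : Λ) : ∃ C : ℕ, ∀ z : ℤ, EE D b β S C (z • x) 0 := by
  classical
  obtain ⟨C, hC⟩ := norm_lem (D := D) b β hβ hS ({x} : Finset Λ)
  refine ⟨C * 2, fun z η => ?_⟩
  have hsub : AddSubgroup.closure (Set.range β) ≤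
      AddSubgroup.closure ((({x} : Finset Λ) : Set Λ) ∪ Set.range β) :=
    AddSubgroup.closure_mono Set.subset_union_right
  have hmem : z • x + rd b β η - rd b β (η + D.κ (z • x) - 0) ∈
      AddSubgroup.closure ((({x} : Finset Λ) : Set Λ) ∪ Set.range β) := by
    refine AddSubgroup.sub_mem _ (AddSubgroup.add_mem _ ?_ (hsub (rd_mem b β _)))
      (hsub (rd_mem b β _))
    exact AddSubgroup.zsmul_mem _ (AddSubgroup.subset_closure (by simp)) _
  refine (hC _ hmem 1 (fun j => ?_)).mono le_rfl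
  rw [map_sub, map_add, κ_rd b β hβ, κ_rd b β hβ]
  have e : D.κ (z • x) + (η - fr b η) - (η + D.κ (z • x) - 0 - fr b (η + D.κ (z • x) - 0)) =
      fr b (η + D.κ (z • x) - 0) - fr b η := by abel
  rw [e, map_sub, Finsupp.sub_apply, fr_repr, fr_repr]
  have h1 := Int.fract_nonneg (b.repr η j)
  have h2 := Int.fract_lt_one (b.repr η j)
  have h3 := Int.fract_nonneg (b.repr (η + D.κ (z • x) - 0) j)
  have h4 := Int.fract_lt_one (b.repr (η + D.κ (z • x) - 0) j)
  rw [abs_le]
  push_cast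
  constructor <;> linarith

include hβ hS in
theorem EE.step (g : G) : ∃ C : ℕ, ∀ (l : ℕ) (x : Λ) (ξ : V), EE D b β S l x ξ →
    EE D b β S (l + C) (D.a g x) (D.M g ξ) := by
  classical
  set Γ : Finset Λ := Finset.univ.image (fun j => D.a g (β j)) with hΓ
  obtain ⟨C, hC⟩ := norm_lem (D := D) b β hβ hS Γ
  obtain ⟨cg, hcg⟩ := exists_WL hS g
  obtain ⟨K, hK⟩ := exists_bd (fun l => ∑ j, |b.repr (D.M g (b j)) l|)
  have hsub : AddSubgroup.closure (Set.range β) ≤
      AddSubgroup.closure ((Γ : Set Λ) ∪ Set.range β) :=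
    AddSubgroup.closure_mono Set.subset_union_right
  -- the correction term
  have hτ : ∀ η : V, WL S (C * (K + 2)) (D.i (rd b β η - D.a g (rd b β (D.M g⁻¹ η)))) := by
    intro η
    have hmem : rd b β η - D.a g (rd b β (D.M g⁻¹ η)) ∈
        AddSubgroup.closure ((Γ : Set Λ) ∪ Set.range β) := by
      refine AddSubgroup.sub_mem _ (hsub (rd_mem b β _)) ?_
      rw [rd, map_sum]
      refine AddSubgroup.sum_mem _ (fun j _ => ?_)
      have hx : D.a g (β j) ∈ (Γ : Set Λ) ∪ Set.range β := by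
        left
        rw [Finset.mem_coe, hΓ]
        exact Finset.mem_image_of_mem (fun j => D.a g (β j)) (Finset.mem_univ j)
      rw [map_zsmul]
      exact AddSubgroup.zsmul_mem _ (AddSubgroup.subset_closure hx) _
    refine hC _ hmem (K + 1) (fun l => ?_)
    rw [map_sub, ← D.M_κ, κ_rd b β hβ, κ_rd b β hβ, map_sub (D.M g), D.M_inv]
    have e : η - fr b η - (η - D.M g (fr b (D.M g⁻¹ η))) =
        D.M g (fr b (D.M g⁻¹ η)) - fr b η := by abel
    rw [e, map_sub, Finsupp.sub_apply, fr_repr]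
    have h1 := Int.fract_nonneg (b.repr η l)
    have h2 := Int.fract_lt_one (b.repr η l)
    have h3 : |b.repr (D.M g (fr b (D.M g⁻¹ η))) l| ≤ K := by
      have e2 : b.repr (D.M g (fr b (D.M g⁻¹ η))) l =
          ∑ j, Int.fract (b.repr (D.M g⁻¹ η) j) * b.repr (D.M g (b j)) l := by
        rw [fr, map_sum, map_sum, Finsupp.finset_sum_apply]
        refine Finset.sum_congr rfl (fun j _ => ?_)
        rw [map_smul, map_smul, Finsupp.smul_apply, smul_eq_mul]
      rw [e2]
      have h4 := hK l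
      rw [abs_of_nonneg (Finset.sum_nonneg (fun j _ => abs_nonneg _))] at h4
      refine (Finset.abs_sum_le_sum_abs _ _).trans (le_trans ?_ h4)
      refine Finset.sum_le_sum (fun j _ => ?_)
      rw [abs_mul, abs_of_nonneg (Int.fract_nonneg _)]
      exact mul_le_of_le_one_left (abs_nonneg _) (Int.fract_lt_one _).le
    rw [abs_le] at h3 ⊢
    push_cast
    constructor <;> linarith [h3.1, h3.2]
  refine ⟨2 * cg + 2 * (C * (K + 2)), fun l x ξ hE η => ?_⟩
  set η' : V := η + D.κ (D.a g x) - D.M g ξ with hη'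
  have h1 := hE (D.M g⁻¹ η)
  have e1 : D.M g⁻¹ η + D.κ x - ξ = D.M g⁻¹ η' := by
    rw [hη', map_sub, map_add, ← D.M_κ, D.M_inv', D.M_inv']
  rw [e1] at h1
  have h2 : WL S (cg + l + cg) (D.i (D.a g (x + rd b β (D.M g⁻¹ η) - rd b β (D.M g⁻¹ η')))) := by
    rw [D.i_a]
    exact (hcg.mul h1).mul hcg.inv
  have h3 := hτ η
  have h4 := (hτ η').inv
  rw [← D.i_neg] at h4
  have h5 := (h2.mul h3).mul h4
  rw [← D.i_add, ← D.i_add] at h5
  have e2 : D.a g (x + rd b β (D.M g⁻¹ η) - rd b β (D.M g⁻¹ η')) +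
      (rd b β η - D.a g (rd b β (D.M g⁻¹ η))) + -(rd b β η' - D.a g (rd b β (D.M g⁻¹ η'))) =
      D.a g x + rd b β η - rd b β η' := by
    rw [map_sub, map_add]; abel
  rw [e2] at h5
  refine h5.mono ?_
  omega

include hβ hS in
/-- uniform version along words -/
theorem EE.walk : ∃ C : ℕ, ∀ (n : ℕ) (g : G), WL S n g → ∀ (l : ℕ) (x : Λ) (ξ : V),
    EE D b β S l x ξ → EE D b β S (l + C * n) (D.a g x) (D.M g ξ) := by
  classical
  choose C hC using fun g => EE.step (D := D) b β hβ hS g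
  refine ⟨C 1 + (∑ s ∈ S, C s + ∑ s ∈ S, C s⁻¹), fun n => ?_⟩
  set K := C 1 + (∑ s ∈ S, C s + ∑ s ∈ S, C s⁻¹) with hK
  induction n with
  | zero =>
    intro g hg l x ξ hE
    obtain ⟨L, h1, _, h3⟩ := hg
    have : L = [] := List.length_eq_zero_iff.mp (by omega)
    subst this
    rw [← h3, List.prod_nil, D.a_one, D.M_one]
    exact hE.mono b β (by omega)
  | succ n ih =>
    intro g hg l x ξ hE
    obtain ⟨h, s, h1, h2, rfl⟩ := WL.succ_iff.1 hg
    rw [D.a_mul, D.M_mul]
    have h3 : EE D b β S (l + K) (D.a s x) (D.M s ξ) := by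
      refine (hC s l x ξ hE).mono b β ?_
      rcases h2 with rfl | h2 | h2
      · omega
      · have := Finset.single_le_sum (f := C) (fun _ _ => Nat.zero_le _) h2
        omega
      · have h4 := Finset.single_le_sum (f := fun s => C s⁻¹) (fun _ _ => Nat.zero_le _) h2
        simp only [inv_inv] at h4
        omega
    refine (ih h h1 _ _ _ h3).mono b β ?_
    rw [mul_add]; omega

end

end Pool.Agent.H684AN
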