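import Mathlib

set_option autoImplicit false

/-!
An entropy inequality for finite subsets of a group and chains of subgroups.
-/

namespace Pool.Agent.H684AN

variable {Q : Type*} [Group Q]

open Classical in
/-- the number of elements of `F` in the coset `g * A` -/
noncomputable def fb (F : Finset Q) (A : Subgroup Q) (g : Q) : ℕ :=
  (F.filter (fun x => g⁻¹ * x ∈ A)).card

theorem fb_pos (F : Finset Q) (A : Subgroup Q) (g : Q) (hg : g ∈ F) : 0 < fb F A g := by
  classical
  rw [fb, Finset.card_pos]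
  exact ⟨g, Finset.mem_filter.2 ⟨hg, by simp [A.one_mem]⟩⟩

theorem fb_eq (F : Finset Q) (A : Subgroup Q) (g x : Q) (h : g⁻¹ * x ∈ A) : fb F A x = fb F A g := by
  classical
  rw [fb, fb]
  congr 1
  ext y
  rw [Finset.mem_filter, Finset.mem_filter]
  refine and_congr_right (fun _ => ?_)
  constructor
  · intro h1
    have := A.mul_mem h h1
    have e : g⁻¹ * x * (x⁻¹ * y) = g⁻¹ * y := by group
    rwa [e] at this
  · intro h1
    have := A.mul_mem (A.inv_mem h) h1
    have e : (g⁻¹ * x)⁻¹ * (g⁻¹ * y) = x⁻¹ * y := by group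
    rwa [e] at this

theorem fb_le (F : Finset Q) (A : Subgroup Q) (g : Q) : fb F A g ≤ F.card := by
  classical
  exact Finset.card_filter_le _ _

/-- the two-subgroup inequality -/
theorem ent_two (F : Finset Q) (A B C : Subgroup Q) (hA : A ≤ C) (hB : B ≤ C) (hAB : A ⊓ B = ⊥) :
    ∑ g ∈ F, (Real.log (fb F A g) + Real.log (fb F B g)) ≤ ∑ g ∈ F, Real.log (fb F C g) := by
  classical
  have h1 : ∀ g ∈ F, Real.log (fb F A g) + Real.log (fb F B g) ≤
      Real.log (fb F C g) + ((fb F A g : ℝ) * fb F B g / fb F C g - 1) := by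
    intro g hg
    have ha : (0 : ℝ) < fb F A g := by exact_mod_cast fb_pos F A g hg
    have hb : (0 : ℝ) < fb F B g := by exact_mod_cast fb_pos F B g hg
    have hc : (0 : ℝ) < fb F C g := by exact_mod_cast fb_pos F C g hg
    have h2 := Real.log_le_sub_one_of_pos (div_pos (mul_pos ha hb) hc)
    rw [Real.log_div (mul_pos ha hb).ne' hc.ne', Real.log_mul ha.ne' hb.ne'] at h2
    linarith
  refine (Finset.sum_le_sum h1).trans ?_
  rw [Finset.sum_add_distrib, Finset.sum_sub_distrib]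
  have key : ∀ p ∈ F, ∀ q ∈ F, ∑ g ∈ F, (if g⁻¹ * p ∈ A ∧ g⁻¹ * q ∈ B then
      (1 : ℝ) / fb F C g else 0) ≤ if q⁻¹ * p ∈ C then (1 : ℝ) / fb F C q else 0 := by
    intro p hp q hq
    by_cases h : ∃ g ∈ F, g⁻¹ * p ∈ A ∧ g⁻¹ * q ∈ B
    · obtain ⟨g0, hg0, hga, hgb⟩ := h
      rw [Finset.sum_eq_single g0]
      · rw [if_pos ⟨hga, hgb⟩]
        have h2 : q⁻¹ * p ∈ C := by
          have := C.mul_mem (C.inv_mem (hB hgb)) (hA hga)
          have e : (g0⁻¹ * q)⁻¹ * (g0⁻¹ * p) = q⁻¹ * p := by group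
          rwa [e] at this
        rw [if_pos h2, fb_eq F C g0 q (hB hgb)]
      · intro g _ hne
        rw [if_neg]
        rintro ⟨h3, h4⟩
        apply hne
        have h5 : g⁻¹ * g0 ∈ A ⊓ B := by
          refine ⟨?_, ?_⟩
          · have := A.mul_mem h3 (A.inv_mem hga)
            have e : g⁻¹ * p * (g0⁻¹ * p)⁻¹ = g⁻¹ * g0 := by group
            rwa [e] at this
          · have := B.mul_mem h4 (B.inv_mem hgb)
            have e : g⁻¹ * q * (g0⁻¹ * q)⁻¹ = g⁻¹ * g0 := by group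
            rwa [e] at this
        rw [hAB, Subgroup.mem_bot] at h5
        exact inv_mul_eq_one.1 h5
      · intro h; exact absurd hg0 h
    · rw [Finset.sum_eq_zero]
      · split_ifs
        · positivity
        · exact le_refl _
      · intro g hg
        rw [if_neg]
        intro h2
        exact h ⟨g, hg, h2⟩
  have h3 : ∑ g ∈ F, ((fb F A g : ℝ) * fb F B g / fb F C g) ≤ F.card := by
    have e1 : ∀ g ∈ F, ((fb F A g : ℝ) * fb F B g / fb F C g) =
        ∑ p ∈ F, ∑ q ∈ F, (if g⁻¹ * p ∈ A ∧ g⁻¹ * q ∈ B then (1 : ℝ) / fb F C g else 0) := by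
      intro g _
      have e2 : ∀ p ∈ F, ∑ q ∈ F, (if g⁻¹ * p ∈ A ∧ g⁻¹ * q ∈ B then (1 : ℝ) / fb F C g else 0) =
          if g⁻¹ * p ∈ A then (fb F B g : ℝ) * (1 / fb F C g) else 0 := by
        intro p _
        by_cases hp : g⁻¹ * p ∈ A
        · rw [if_pos hp]
          simp only [hp, true_and]
          rw [← Finset.sum_filter, Finset.sum_const, nsmul_eq_mul]
          rfl
        · simp [hp]
      rw [Finset.sum_congr rfl e2, ← Finset.sum_filter, Finset.sum_const, nsmul_eq_mul]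
      rw [← fb]; ring
    rw [Finset.sum_congr rfl e1, Finset.sum_comm]
    have e3 : ∑ p ∈ F, ∑ g ∈ F, ∑ q ∈ F, (if g⁻¹ * p ∈ A ∧ g⁻¹ * q ∈ B then
        (1 : ℝ) / fb F C g else 0) = ∑ q ∈ F, ∑ p ∈ F, ∑ g ∈ F,
        (if g⁻¹ * p ∈ A ∧ g⁻¹ * q ∈ B then (1 : ℝ) / fb F C g else 0) := by
      rw [Finset.sum_comm (s := F) (t := F)
        (f := fun q p => ∑ g ∈ F, (if g⁻¹ * p ∈ A ∧ g⁻¹ * q ∈ B then (1 : ℝ) / fb F C g else 0))]
      refine Finset.sum_congr rfl (fun p _ => ?_)
      rw [Finset.sum_comm]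
    rw [e3]
    have h4 : ∀ q ∈ F, ∑ p ∈ F, ∑ g ∈ F,
        (if g⁻¹ * p ∈ A ∧ g⁻¹ * q ∈ B then (1 : ℝ) / fb F C g else 0) ≤ 1 := by
      intro q hq
      refine (Finset.sum_le_sum (fun p hp => key p hp q hq)).trans ?_
      rw [← Finset.sum_filter, Finset.sum_const, nsmul_eq_mul, ← fb]
      have hc : (0 : ℝ) < fb F C q := by exact_mod_cast fb_pos F C q hq
      rw [mul_one_div_cancel hc.ne']
    calc _ ≤ ∑ q ∈ F, (1 : ℝ) := Finset.sum_le_sum h4
      _ = F.card := by rw [Finset.sum_const, nsmul_eq_mul, mul_one]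
  rw [Finset.sum_const, nsmul_eq_mul, mul_one]
  linarith

/-- the inequality for chains of subgroups -/
theorem ent_chain (F : Finset Q) (Γ H : ℕ → Subgroup Q) (h1 : ∀ k, Γ k ≤ Γ (k + 1))
    (h2 : ∀ k, H k ≤ Γ (k + 1)) (h3 : ∀ k, Γ k ⊓ H k = ⊥) (K : ℕ) :
    ∑ g ∈ F, ∑ k ∈ Finset.range K, Real.log (fb F (H k) g) ≤
      ∑ g ∈ F, Real.log (fb F (Γ K) g) := by
  induction K with
  | zero =>
    simp only [Finset.range_zero, Finset.sum_empty]
    refine Finset.sum_le_sum (fun g hg => Real.log_nonneg ?_)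
    have : 1 ≤ fb F (Γ 0) g := fb_pos F (Γ 0) g hg
    exact_mod_cast this
  | succ K ih =>
    have h4 := ent_two F (Γ K) (H K) (Γ (K + 1)) (h1 K) (h2 K) (h3 K)
    rw [Finset.sum_add_distrib] at h4
    have h5 : ∑ g ∈ F, ∑ k ∈ Finset.range (K + 1), Real.log (fb F (H k) g) =
        ∑ g ∈ F, ∑ k ∈ Finset.range K, Real.log (fb F (H k) g) +
          ∑ g ∈ F, Real.log (fb F (H K) g) := by
      rw [← Finset.sum_add_distrib]
      exact Finset.sum_congr rfl (fun g _ => Finset.sum_range_succ _ _)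
    rw [h5]
    linarith

open Classical in
/-- a set almost invariant under the elements of a finite subgroup fills its cosets -/
theorem ent_fill (F : Finset Q) (A : Subgroup Q) (B : Finset Q) (hB : ∀ g, g ∈ B ↔ g ∈ A)
    (hF : ∀ h ∈ B, 4 * (F.filter (fun g => g * h ∉ F)).card ≤ F.card) :
    (F.card : ℝ) / 2 * Real.log ((B.card : ℝ) / 2) ≤ ∑ g ∈ F, Real.log (fb F A g) := by
  have hBpos : 0 < B.card := Finset.card_pos.2 ⟨1, (hB 1).2 A.one_mem⟩
  have hnn : ∀ g ∈ F, 0 ≤ Real.log (fb F A g) := by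
    intro g hg
    have : 1 ≤ fb F A g := fb_pos F A g hg
    exact Real.log_nonneg (by exact_mod_cast this)
  rcases le_or_gt (Real.log ((B.card : ℝ) / 2)) 0 with hneg | hpos
  · have h0 : (F.card : ℝ) / 2 * Real.log ((B.card : ℝ) / 2) ≤ 0 :=
      mul_nonpos_of_nonneg_of_nonpos (by positivity) hneg
    exact h0.trans (Finset.sum_nonneg hnn)
  -- the fibres
  have hfb : ∀ g, fb F A g = (B.filter (fun h => g * h ∈ F)).card := by
    intro g
    rw [fb]
    apply Finset.card_bij (fun x _ => g⁻¹ * x)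
    · intro x hx
      rw [Finset.mem_filter] at hx ⊢
      exact ⟨(hB _).2 hx.2, by simpa using hx.1⟩
    · intro x _ y _ h
      exact mul_left_cancel h
    · intro h hh
      rw [Finset.mem_filter] at hh
      exact ⟨g * h, Finset.mem_filter.2 ⟨hh.2, by simpa using (hB _).1 hh.1⟩, by simp⟩
  have hle : ∀ g, fb F A g ≤ B.card := fun g => by rw [hfb]; exact Finset.card_filter_le _ _
  have hsum : 3 * (F.card * B.card) ≤ 4 * ∑ g ∈ F, fb F A g := by
    have e1 : ∑ g ∈ F, fb F A g = ∑ h ∈ B, (F.filter (fun g => g * h ∈ F)).card := by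
      simp only [hfb, Finset.card_filter]
      rw [Finset.sum_comm]
    rw [e1, Finset.mul_sum]
    have h2 : ∀ h ∈ B, 3 * F.card ≤ 4 * (F.filter (fun g => g * h ∈ F)).card := by
      intro h hh
      have h3 := hF h hh
      have h4 := Finset.card_filter_add_card_filter_not (s := F) (fun g => g * h ∈ F)
      omega
    calc 3 * (F.card * B.card) = ∑ h ∈ B, 3 * F.card := by
          rw [Finset.sum_const, smul_eq_mul]; ring
      _ ≤ _ := Finset.sum_le_sum h2
  set good := F.filter (fun g => B.card ≤ 2 * fb F A g) with hgood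
  have h5 : F.card ≤ 2 * good.card := by
    have e1 : ∑ g ∈ F, fb F A g = ∑ g ∈ good, fb F A g +
        ∑ g ∈ F.filter (fun g => ¬ B.card ≤ 2 * fb F A g), fb F A g :=
      (Finset.sum_filter_add_sum_filter_not F _ _).symm
    have e2 : ∑ g ∈ good, fb F A g ≤ good.card * B.card := by
      rw [← smul_eq_mul]
      exact Finset.sum_le_card_nsmul _ _ _ (fun g _ => hle g)
    have e3 : 2 * ∑ g ∈ F.filter (fun g => ¬ B.card ≤ 2 * fb F A g), fb F A g ≤
        (F.filter (fun g => ¬ B.card ≤ 2 * fb F A g)).card * B.card := by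
      rw [Finset.mul_sum, ← smul_eq_mul]
      refine Finset.sum_le_card_nsmul _ _ _ (fun g hg => ?_)
      have := (Finset.mem_filter.1 hg).2
      omega
    have e4 : good.card + (F.filter (fun g => ¬ B.card ≤ 2 * fb F A g)).card = F.card :=
      Finset.card_filter_add_card_filter_not (s := F) (fun g => B.card ≤ 2 * fb F A g)
    by_contra hcon
    push Not at hcon
    set b1 := (F.filter (fun g => ¬ B.card ≤ 2 * fb F A g)).card with hb1
    have h6 : 3 * ((good.card + b1) * B.card) ≤ 4 * (good.card * B.card) + 2 * (b1 * B.card) := by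
      rw [e4]
      calc 3 * (F.card * B.card) ≤ 4 * ∑ g ∈ F, fb F A g := hsum
        _ ≤ _ := by rw [e1]; omega
    have h7 : b1 * B.card ≤ good.card * B.card := by nlinarith
    have h8 : b1 ≤ good.card := Nat.le_of_mul_le_mul_right h7 hBpos
    omega
  have h6 : ∑ g ∈ good, Real.log ((B.card : ℝ) / 2) ≤ ∑ g ∈ good, Real.log (fb F A g) := by
    refine Finset.sum_le_sum (fun g hg => ?_)
    apply Real.log_le_log
    · have : (0 : ℝ) < B.card := by exact_mod_cast hBpos
      positivity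
    · have h7 := (Finset.mem_filter.1 hg).2
      have h8 : (B.card : ℝ) ≤ 2 * fb F A g := by exact_mod_cast h7
      linarith
  have h7 : ∑ g ∈ good, Real.log (fb F A g) ≤ ∑ g ∈ F, Real.log (fb F A g) :=
    Finset.sum_le_sum_of_subset_of_nonneg (Finset.filter_subset _ _) (fun g hg _ => hnn g hg)
  rw [Finset.sum_const, nsmul_eq_mul] at h6
  have h8 : (F.card : ℝ) / 2 ≤ good.card := by
    have : (F.card : ℝ) ≤ 2 * good.card := by exact_mod_cast h5
    linarith
  have h9 := mul_le_mul_of_nonneg_right h8 hpos.le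
  linarith

open Classical in
/-- the block bound -/
theorem ent_block (F : Finset Q) (hFne : F.Nonempty) (Γ H : ℕ → Subgroup Q)
    (h1 : ∀ k, Γ k ≤ Γ (k + 1)) (h2 : ∀ k, H k ≤ Γ (k + 1)) (h3 : ∀ k, Γ k ⊓ H k = ⊥)
    (B : ℕ → Finset Q) (hB : ∀ k g, g ∈ B k ↔ g ∈ H k) (q : ℕ) (hq : ∀ k, (B k).card = q) (K : ℕ)
    (hF : ∀ k < K, ∀ h ∈ B k, 4 * (F.filter (fun g => g * h ∉ F)).card ≤ F.card) :
    q ^ K ≤ 2 ^ K * F.card ^ 2 := by
  have hqpos : 0 < q := by rw [← hq 0]; exact Finset.card_pos.2 ⟨1, (hB 0 1).2 (H 0).one_mem⟩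
  have hFpos : (0 : ℝ) < F.card := by exact_mod_cast hFne.card_pos
  have e1 := ent_chain F Γ H h1 h2 h3 K
  have e2 : ∑ g ∈ F, Real.log (fb F (Γ K) g) ≤ F.card * Real.log F.card := by
    rw [← nsmul_eq_mul]
    refine Finset.sum_le_card_nsmul _ _ _ (fun g hg => ?_)
    apply Real.log_le_log
    · exact_mod_cast fb_pos F (Γ K) g hg
    · exact_mod_cast fb_le F (Γ K) g
  have e3 : (K : ℝ) * ((F.card : ℝ) / 2 * Real.log ((q : ℝ) / 2)) ≤
      ∑ g ∈ F, ∑ k ∈ Finset.range K, Real.log (fb F (H k) g) := by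
    rw [Finset.sum_comm]
    have : ∀ k ∈ Finset.range K, (F.card : ℝ) / 2 * Real.log ((q : ℝ) / 2) ≤
        ∑ g ∈ F, Real.log (fb F (H k) g) := by
      intro k hk
      have := ent_fill F (H k) (B k) (hB k) (hF k (Finset.mem_range.1 hk))
      rwa [hq k] at this
    have h4 := Finset.card_nsmul_le_sum _ _ _ this
    rw [Finset.card_range, nsmul_eq_mul] at h4
    exact h4
  have e4 : (K : ℝ) * Real.log ((q : ℝ) / 2) ≤ 2 * Real.log F.card := by
    have h5 := (e3.trans e1).trans e2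
    have h6 : (F.card : ℝ) * ((K : ℝ) * Real.log ((q : ℝ) / 2)) ≤
        F.card * (2 * Real.log F.card) := by nlinarith
    exact le_of_mul_le_mul_left h6 hFpos
  have hq2 : (0 : ℝ) < (q : ℝ) / 2 := by
    have : (0 : ℝ) < q := by exact_mod_cast hqpos
    positivity
  have e5 : ((q : ℝ) / 2) ^ K ≤ (F.card : ℝ) ^ 2 := by
    rw [← Real.log_le_log_iff (by positivity) (by positivity), Real.log_pow, Real.log_pow]
    exact_mod_cast e4
  rw [div_pow, div_le_iff₀ (by positivity)] at e5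
  have e6 : ((q ^ K : ℕ) : ℝ) ≤ ((2 ^ K * F.card ^ 2 : ℕ) : ℝ) := by
    push_cast
    linarith
  exact_mod_cast e6

end Pool.Agent.H684AN
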