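import Pool.Agent.H684AN.Chg

set_option autoImplicit false

/-!
Exponential Folner functions pass to homomorphic images.
-/

namespace Pool.Agent.H684AN

variable {G : Type*} [Group G] {Q : Type*} [Group Q]

open Classical in
/-- the size of the fibre of `F` over `q` -/
noncomputable def fib (f : G →* Q) (F : Finset G) (q : Q) : ℕ := (F.filter (fun g => f g = q)).card

open Classical in
/-- level sets -/
noncomputable def lev (f : G →* Q) (F : Finset G) (i : ℕ) : Finset Q :=
  (F.image f).filter (fun q => i < fib f F q)

theorem mem_lev (f : G →* Q) (F : Finset G) (i : ℕ) (q : Q) : q ∈ lev f F i ↔ i < fib f F q := by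
  classical
  rw [lev, Finset.mem_filter, Finset.mem_image]
  constructor
  · exact fun h => h.2
  · intro h
    refine ⟨?_, h⟩
    have h1 : 0 < fib f F q := by omega
    rw [fib, Finset.card_pos] at h1
    obtain ⟨g, hg⟩ := h1
    rw [Finset.mem_filter] at hg
    exact ⟨g, hg.1, hg.2⟩

open Classical in
theorem sum_lev (f : G →* Q) (F : Finset G) :
    ∑ i ∈ Finset.range F.card, (lev f F i).card = F.card := by
  have e1 : ∑ i ∈ Finset.range F.card, (lev f F i).card =
      ∑ q ∈ F.image f, ((Finset.range F.card).filter (fun i => i < fib f F q)).card := by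
    simp only [lev, Finset.card_filter]
    rw [Finset.sum_comm]
  rw [e1]
  have e2 : ∀ q ∈ F.image f, ((Finset.range F.card).filter (fun i => i < fib f F q)).card =
      (F.filter (fun g => f g = q)).card := by
    intro q _
    have h1 : fib f F q ≤ F.card := Finset.card_filter_le _ _
    have h2 : (Finset.range F.card).filter (fun i => i < fib f F q) =
        Finset.range (fib f F q) := by
      ext i
      rw [Finset.mem_filter, Finset.mem_range, Finset.mem_range]
      omega
    rw [h2, Finset.card_range, fib]
  rw [Finset.sum_congr rfl e2]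
  exact (Finset.card_eq_sum_card_image f F).symm

open Classical in
theorem sum_lev_bd (f : G →* Q) (F : Finset G) (s : G) :
    ∑ i ∈ Finset.range F.card, ((lev f F i).filter (fun q => q * f s ∉ lev f F i)).card ≤
      (F.filter (fun g => g * s ∉ F)).card := by
  have e1 : ∑ i ∈ Finset.range F.card, ((lev f F i).filter (fun q => q * f s ∉ lev f F i)).card =
      ∑ q ∈ F.image f, ((Finset.range F.card).filter
        (fun i => i < fib f F q ∧ ¬ i < fib f F (q * f s))).card := by
    have e2 : ∀ i, (lev f F i).filter (fun q => q * f s ∉ lev f F i) =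
        (F.image f).filter (fun q => i < fib f F q ∧ ¬ i < fib f F (q * f s)) := by
      intro i
      ext q
      simp only [Finset.mem_filter, mem_lev]
      constructor
      · rintro ⟨h1, h2⟩
        have h3 := (mem_lev f F i q).2 h1
        rw [lev, Finset.mem_filter] at h3
        exact ⟨h3.1, h1, h2⟩
      · rintro ⟨_, h1, h2⟩
        exact ⟨h1, h2⟩
    simp only [e2, Finset.card_filter]
    rw [Finset.sum_comm]
  rw [e1]
  have e3 : (F.filter (fun g => g * s ∉ F)).card =
      ∑ q ∈ F.image f, ((F.filter (fun g => g * s ∉ F)).filter (fun g => f g = q)).card := by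
    refine Finset.card_eq_sum_card_fiberwise ?_
    intro x hx
    rw [Finset.mem_coe, Finset.mem_filter] at hx
    exact Finset.mem_coe.2 (Finset.mem_image_of_mem _ hx.1)
  rw [e3]
  refine Finset.sum_le_sum (fun q _ => ?_)
  have h1 : (Finset.range F.card).filter (fun i => i < fib f F q ∧ ¬ i < fib f F (q * f s)) ⊆
      Finset.Ico (fib f F (q * f s)) (fib f F q) := by
    intro i hi
    rw [Finset.mem_filter] at hi
    rw [Finset.mem_Ico]
    omega
  refine (Finset.card_le_card h1).trans ?_
  rw [Nat.card_Ico]
  have h2 : fib f F q ≤ fib f F (q * f s) +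
      ((F.filter (fun g => g * s ∉ F)).filter (fun g => f g = q)).card := by
    have h3 : F.filter (fun g => f g = q) = (F.filter (fun g => f g = q)).filter
        (fun g => g * s ∈ F) ∪ (F.filter (fun g => f g = q)).filter (fun g => ¬ g * s ∈ F) :=
      (Finset.filter_union_filter_not_eq _ _).symm
    have h4 : ((F.filter (fun g => f g = q)).filter (fun g => g * s ∈ F)).card ≤
        fib f F (q * f s) := by
      rw [fib]
      apply Finset.card_le_card_of_injOn (fun g => g * s)
      · intro g hg
        rw [Finset.mem_coe, Finset.mem_filter, Finset.mem_filter] at hg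
        rw [Finset.mem_coe, Finset.mem_filter]
        exact ⟨hg.2, by rw [map_mul, hg.1.2]⟩
      · intro x _ y _ h
        exact mul_right_cancel h
    have h5 : (F.filter (fun g => f g = q)).filter (fun g => ¬ g * s ∈ F) =
        (F.filter (fun g => g * s ∉ F)).filter (fun g => f g = q) := by
      ext g
      simp only [Finset.mem_filter]
      tauto
    calc fib f F q = (F.filter (fun g => f g = q)).card := rfl
      _ ≤ _ := by
        rw [h3]
        refine (Finset.card_union_le _ _).trans ?_
        rw [h5]
        omega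
  omega

open Classical in
theorem FolExp.quot (f : G →* Q) (S : Finset G) (h : FolExp S) :
    FolExp (S.image f) := by
  obtain ⟨C, hC⟩ := h
  set q0 : ℕ := 2 * S.card + 1 with hq0
  refine ⟨C ^ q0, fun n hn => ?_⟩
  obtain ⟨F, hF, hFc⟩ := hC (q0 * n) (Nat.mul_pos (by omega) hn)
  rw [isFol_iff] at hF
  obtain ⟨hne, hb⟩ := hF
  set T : Finset G := S ∪ S.image (fun s => s⁻¹) with hT
  have hTc : T.card ≤ 2 * S.card := by
    refine (Finset.card_union_le _ _).trans ?_
    have := Finset.card_image_le (s := S) (f := fun s : G => s⁻¹)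
    omega
  have hTW : ∀ s ∈ T, WL S 1 s := by
    intro s hs
    rw [hT, Finset.mem_union, Finset.mem_image] at hs
    rcases hs with hs | ⟨a, ha, rfl⟩
    · exact WL.of_mem hs
    · exact (WL.of_mem ha).inv
  have hbd : ∀ i, (bd (S.image f) (lev f F i)).card ≤
      ∑ s ∈ T, ((lev f F i).filter (fun q => q * f s ∉ lev f F i)).card := by
    intro i
    have hsub : bd (S.image f) (lev f F i) ⊆
        T.biUnion (fun s => (lev f F i).filter (fun q => q * f s ∉ lev f F i)) := by
      intro x hx
      rw [bd, Finset.mem_filter] at hx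
      obtain ⟨hx, y, hy, h⟩ := hx
      rw [Finset.mem_image] at hy
      obtain ⟨s, hs, rfl⟩ := hy
      rw [Finset.mem_biUnion]
      rcases h with h | h
      · exact ⟨s, by rw [hT]; exact Finset.mem_union_left _ hs, Finset.mem_filter.2 ⟨hx, h⟩⟩
      · refine ⟨s⁻¹, by rw [hT]; exact Finset.mem_union_right _ (Finset.mem_image_of_mem _ hs),
          Finset.mem_filter.2 ⟨hx, ?_⟩⟩
        rwa [map_inv]
    exact (Finset.card_le_card hsub).trans Finset.card_biUnion_le
  have htot : ∑ i ∈ Finset.range F.card, n * (bd (S.image f) (lev f F i)).card ≤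
      ∑ i ∈ Finset.range F.card, (lev f F i).card := by
    rw [sum_lev]
    calc ∑ i ∈ Finset.range F.card, n * (bd (S.image f) (lev f F i)).card
        ≤ ∑ i ∈ Finset.range F.card,
          n * ∑ s ∈ T, ((lev f F i).filter (fun q => q * f s ∉ lev f F i)).card :=
          Finset.sum_le_sum (fun i _ => Nat.mul_le_mul_left _ (hbd i))
      _ = n * ∑ s ∈ T, ∑ i ∈ Finset.range F.card,
          ((lev f F i).filter (fun q => q * f s ∉ lev f F i)).card := by
          rw [← Finset.mul_sum, Finset.sum_comm]
      _ ≤ n * ∑ s ∈ T, (bd S F).card := by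
          refine Nat.mul_le_mul_left _ (Finset.sum_le_sum (fun s hs => ?_))
          refine (sum_lev_bd f F s).trans ?_
          have := move_le S F 1 s (hTW s hs)
          rwa [one_mul] at this
      _ ≤ n * (q0 * (bd S F).card) := by
          rw [Finset.sum_const, smul_eq_mul]
          exact Nat.mul_le_mul_left _ (Nat.mul_le_mul_right _ (by omega))
      _ = q0 * n * (bd S F).card := by ring
      _ ≤ F.card := hb
  obtain ⟨i, hi, hine, hib⟩ : ∃ i ∈ Finset.range F.card, (lev f F i).Nonempty ∧
      n * (bd (S.image f) (lev f F i)).card ≤ (lev f F i).card := by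
    by_contra hcon
    push Not at hcon
    have h1 : ∀ i ∈ Finset.range F.card, (lev f F i).card ≤
        n * (bd (S.image f) (lev f F i)).card := by
      intro i hi
      rcases Finset.eq_empty_or_nonempty (lev f F i) with h | h
      · rw [h]; simp
      · exact (hcon i hi h).le
    have h0 : (lev f F 0).Nonempty := by
      obtain ⟨g, hg⟩ := hne
      refine ⟨f g, (mem_lev f F 0 _).2 ?_⟩
      rw [fib, Finset.card_pos]
      exact ⟨g, Finset.mem_filter.2 ⟨hg, rfl⟩⟩
    have hr : 0 ∈ Finset.range F.card := Finset.mem_range.2 hne.card_pos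
    have h2 := Finset.sum_lt_sum h1 ⟨0, hr, hcon 0 hr h0⟩
    omega
  refine ⟨lev f F i, ?_, ?_⟩
  · rw [isFol_iff]; exact ⟨hine, hib⟩
  · rw [← pow_mul]
    refine le_trans ?_ hFc
    exact (Finset.card_filter_le _ _).trans Finset.card_image_le

end Pool.Agent.H684AN
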