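import Pool.Agent.H684AN.X3
import Pool.Agent.H684AN.Quo
import Pool.Agent.H684AN.Ent

set_option autoImplicit false

/-!
Windows of a locally finite normal subgroup whose far commutators are central.
-/

open scoped commutatorElement

namespace Pool.Agent.H684AN

variable {G : Type*} [Group G]

/-- the window subgroup over an interval -/
def Wn (t : G) (A : Subgroup G) (a b : ℤ) : Subgroup G :=
  Subgroup.closure {g | ∃ i : ℤ, a ≤ i ∧ i ≤ b ∧ ∃ x ∈ A, g = t ^ i * x * t ^ (-i)}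

theorem Wn_mem (t : G) (A : Subgroup G) {a b i : ℤ} (h1 : a ≤ i) (h2 : i ≤ b) {x : G}
    (hx : x ∈ A) : t ^ i * x * t ^ (-i) ∈ Wn t A a b :=
  Subgroup.subset_closure ⟨i, h1, h2, x, hx, rfl⟩

theorem Wn_mono (t : G) (A : Subgroup G) {a b a' b' : ℤ} (h1 : a' ≤ a) (h2 : b ≤ b') :
    Wn t A a b ≤ Wn t A a' b' := by
  refine Subgroup.closure_mono ?_
  rintro g ⟨i, hi, hi', x, hx, rfl⟩
  exact ⟨i, h1.trans hi, hi'.trans h2, x, hx, rfl⟩

theorem Wn_conj (t : G) (A : Subgroup G) (a b k : ℤ) {g : G} (hg : g ∈ Wn t A a b) :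
    t ^ k * g * t ^ (-k) ∈ Wn t A (a + k) (b + k) := by
  induction hg using Subgroup.closure_induction with
  | mem g hg =>
    obtain ⟨i, hi, hi', x, hx, rfl⟩ := hg
    have e : t ^ k * (t ^ i * x * t ^ (-i)) * t ^ (-k) = t ^ (i + k) * x * t ^ (-(i + k)) := by
      group
    rw [e]
    exact Wn_mem t A (by omega) (by omega) hx
  | one => simpa using Subgroup.one_mem _
  | mul x y _ _ hx hy =>
    have e : t ^ k * (x * y) * t ^ (-k) = (t ^ k * x * t ^ (-k)) * (t ^ k * y * t ^ (-k)) := by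
      group
    rw [e]; exact Subgroup.mul_mem _ hx hy
  | inv x _ hx =>
    have e : t ^ k * x⁻¹ * t ^ (-k) = (t ^ k * x * t ^ (-k))⁻¹ := by group
    rw [e]; exact Subgroup.inv_mem _ hx

theorem Wd_le (t : G) (A L : Subgroup G) [L.Normal] (hA : A ≤ L) (a b : ℤ) : Wn t A a b ≤ L := by
  rw [Wn, Subgroup.closure_le]
  rintro g ⟨i, _, _, x, hx, rfl⟩
  rw [zpow_neg]
  exact (inferInstance : L.Normal).conj_mem x (hA hx) (t ^ i)

theorem Wn_fin (t : G) (A L : Subgroup G) [L.Normal] (hA : A ≤ L)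
    (hloc : ∀ E : Finset G, (E : Set G) ⊆ L → (Subgroup.closure (E : Set G) : Set G).Finite)
    (hAf : (A : Set G).Finite) (a b : ℤ) : (Wn t A a b : Set G).Finite := by
  classical
  set E : Finset G := (Finset.Icc a b ×ˢ hAf.toFinset).image
    (fun p => t ^ p.1 * p.2 * t ^ (-p.1)) with hE
  have h1 : (Subgroup.closure (E : Set G) : Set G).Finite := by
    apply hloc
    intro g hg
    rw [hE, Finset.mem_coe, Finset.mem_image] at hg
    obtain ⟨p, hp, rfl⟩ := hg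
    rw [Finset.mem_product] at hp
    rw [zpow_neg]
    exact (inferInstance : L.Normal).conj_mem _ (hA (by simpa using hp.2)) _
  refine h1.subset ?_
  have h2 : Wn t A a b ≤ Subgroup.closure (E : Set G) := by
    rw [Wn]
    refine Subgroup.closure_mono ?_
    rintro g ⟨i, hi, hi', x, hx, rfl⟩
    rw [hE, Finset.mem_coe, Finset.mem_image]
    exact ⟨(i, x), by rw [Finset.mem_product, Finset.mem_Icc]; exact ⟨⟨hi, hi'⟩, by simpa using hx⟩,
      rfl⟩
  exact h2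

/-- the elements having a central commutator with `y` -/
def Dc (y : G) : Subgroup G where
  carrier := {w | ⁅y, w⁆ ∈ Subgroup.center G}
  mul_mem' := by
    intro a b ha hb
    simp only [Set.mem_setOf_eq] at ha hb ⊢
    have e : ⁅y, a * b⁆ = ⁅y, a⁆ * (a * ⁅y, b⁆ * a⁻¹) := by
      simp only [commutatorElement_def]; group
    rw [e]
    exact Subgroup.mul_mem _ ha ((inferInstance : (Subgroup.center G).Normal).conj_mem _ hb a)
  one_mem' := by
    simp only [Set.mem_setOf_eq, commutatorElement_one_right]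
    exact Subgroup.one_mem _
  inv_mem' := by
    intro a ha
    simp only [Set.mem_setOf_eq] at ha ⊢
    have e : ⁅y, a⁻¹⁆ = a⁻¹ * ⁅y, a⁆⁻¹ * (a⁻¹)⁻¹ := by
      simp only [commutatorElement_def]; group
    rw [e]
    exact (inferInstance : (Subgroup.center G).Normal).conj_mem _ (Subgroup.inv_mem _ ha) a⁻¹

theorem mem_Dc (y w : G) : w ∈ Dc y ↔ ⁅y, w⁆ ∈ Subgroup.center G := Iff.rfl

theorem Dc_symm (y w : G) : w ∈ Dc y ↔ y ∈ Dc w := by
  rw [mem_Dc, mem_Dc, ← commutatorElement_inv, Subgroup.inv_mem_iff]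

theorem Dc_mul (y a b : G) (hb : b ∈ Dc y) : ⁅y, a * b⁆ = ⁅y, a⁆ * ⁅y, b⁆ := by
  have h := (Subgroup.mem_center_iff.1 ((mem_Dc y b).1 hb)) a
  have e : ⁅y, a * b⁆ = ⁅y, a⁆ * (a * ⁅y, b⁆ * a⁻¹) := by
    simp only [commutatorElement_def]; group
  rw [e, h]; group

theorem Dc_inv (y a : G) (ha : a ∈ Dc y) : ⁅y, a⁻¹⁆ = ⁅y, a⁆⁻¹ := by
  have h := Dc_mul y a⁻¹ a ha
  rw [inv_mul_cancel, commutatorElement_one_right] at h
  exact (inv_eq_of_mul_eq_one_left h.symm).symm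

/-- the elements of `L` having central commutators with all elements of `L` -/
def Cc (L : Subgroup G) : Subgroup G := L ⊓ ⨅ x : L, Dc (x : G)

theorem mem_Cc (L : Subgroup G) (c : G) :
    c ∈ Cc L ↔ c ∈ L ∧ ∀ x ∈ L, ⁅x, c⁆ ∈ Subgroup.center G := by
  rw [Cc, Subgroup.mem_inf, Subgroup.mem_iInf]
  refine and_congr_right (fun _ => ?_)
  constructor
  · intro h x hx
    exact h ⟨x, hx⟩
  · intro h x
    exact h x x.2

instance Cc_normal (L : Subgroup G) [L.Normal] : (Cc L).Normal := by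
  refine ⟨fun c hc g => ?_⟩
  rw [mem_Cc] at hc ⊢
  refine ⟨(inferInstance : L.Normal).conj_mem c hc.1 g, fun x hx => ?_⟩
  have h1 : g⁻¹ * x * g ∈ L := by
    have := (inferInstance : L.Normal).conj_mem x hx g⁻¹
    simpa using this
  have h2 := (inferInstance : (Subgroup.center G).Normal).conj_mem _ (hc.2 _ h1) g
  have e : g * ⁅g⁻¹ * x * g, c⁆ * g⁻¹ = ⁅x, g * c * g⁻¹⁆ := by
    simp only [commutatorElement_def]; group
  rwa [e] at h2

section
variable (t : G) (A : Subgroup G) (s0 : ℤ)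
  (hfar : ∀ i j : ℤ, s0 ≤ |i - j| → ∀ x ∈ A, ∀ y ∈ A,
    ⁅t ^ i * x * t ^ (-i), t ^ j * y * t ^ (-j)⁆ ∈ Subgroup.center G)

include hfar in
theorem Wn_far (a b c d : ℤ) (h : b + s0 ≤ c ∨ d + s0 ≤ a) (v : G) (hv : v ∈ Wn t A a b) (w : G)
    (hw : w ∈ Wn t A c d) : ⁅v, w⁆ ∈ Subgroup.center G := by
  have h1 : Wn t A c d ≤ Dc v := by
    rw [Wn, Subgroup.closure_le]
    rintro g ⟨j, hj, hj', y, hy, rfl⟩
    rw [SetLike.mem_coe, Dc_symm]
    have h2 : Wn t A a b ≤ Dc (t ^ j * y * t ^ (-j)) := by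
      rw [Wn, Subgroup.closure_le]
      rintro g ⟨i, hi, hi', x, hx, rfl⟩
      rw [SetLike.mem_coe, mem_Dc]
      refine hfar j i ?_ y hy x hx
      rcases h with h | h
      · exact (show s0 ≤ j - i by omega).trans (le_abs_self _)
      · exact (show s0 ≤ -(j - i) by omega).trans (neg_le_abs _)
    exact h2 hv
  exact h1 hw

variable (L : Subgroup G) [L.Normal] (hAL : A ≤ L)
  (hcov : ∀ x ∈ L, ∃ n : ℕ, x ∈ Wn t A (-n) n)

include hfar hcov hAL in
theorem Wn_cap (a b a' b' : ℤ) (h : b + 2 * s0 ≤ a') (x y : G) (hx : x ∈ Wn t A a' b')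
    (hy : y ∈ Wn t A a b) (hxy : y⁻¹ * x ∈ Cc L) : x ∈ Cc L := by
  rw [mem_Cc]
  refine ⟨Wd_le t A L hAL _ _ hx, fun w hw => ?_⟩
  obtain ⟨n, hn⟩ := hcov w hw
  have h1 : Wn t A (-n) n ≤ Dc x := by
    rw [Wn, Subgroup.closure_le]
    rintro g ⟨l, _, _, u, hu, rfl⟩
    rw [SetLike.mem_coe, Dc_symm]
    have hul : t ^ l * u * t ^ (-l) ∈ Wn t A l l := Wn_mem t A le_rfl le_rfl hu
    rcases le_or_gt (l + s0) a' with hl | hl
    · exact Wn_far t A s0 hfar l l a' b' (Or.inl hl) _ hul _ hx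
    · have h2 : y ∈ Dc (t ^ l * u * t ^ (-l)) :=
        Wn_far t A s0 hfar l l a b (Or.inr (by omega)) _ hul _ hy
      have h3 : y⁻¹ * x ∈ Dc (t ^ l * u * t ^ (-l)) :=
        ((mem_Cc L _).1 hxy).2 _ (Wd_le t A L hAL _ _ hul)
      have h4 := Subgroup.mul_mem _ h2 h3
      rwa [mul_inv_cancel_left] at h4
  rw [← mem_Dc, Dc_symm]
  exact h1 hn

end

end Pool.Agent.H684AN
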