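import Pool.Agent.H684AN.Far1

set_option autoImplicit false

/-!
Cardinalities of windows under an exponential Folner function, and the existence of a level at
which the windows are locally generated.
-/

open scoped commutatorElement

namespace Pool.Agent.H684AN

section
variable {Q : Type*} [Group Q] (τ : Q) (A : Subgroup Q)

theorem Wn_conj_set (a b k : ℤ) : (Wn τ A (a + k) (b + k) : Set Q) =
    (fun g => τ ^ k * g * τ ^ (-k)) '' (Wn τ A a b : Set Q) := by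
  ext g
  constructor
  · intro hg
    refine ⟨τ ^ (-k) * g * τ ^ (- -k), ?_, by simp only; group⟩
    have h1 := Wn_conj τ A (a + k) (b + k) (-k) hg
    rwa [add_neg_cancel_right, add_neg_cancel_right] at h1
  · rintro ⟨x, hx, rfl⟩
    exact Wn_conj τ A a b k hx

theorem Wn_ncard_shift (a b k : ℤ) : (Wn τ A (a + k) (b + k) : Set Q).ncard =
    (Wn τ A a b : Set Q).ncard := by
  rw [Wn_conj_set]
  apply Set.ncard_image_of_injective
  intro x y h
  simp only at h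
  exact mul_left_cancel (mul_right_cancel h)

variable (s0 : ℕ) (hs0 : 1 ≤ s0) (hfin : ∀ a b : ℤ, (Wn τ A a b : Set Q).Finite)
  (hcap : ∀ a b a' b' : ℤ, b + 2 * s0 ≤ a' → Wn τ A a b ⊓ Wn τ A a' b' = ⊥)
  (S : Finset Q) (hS : Subgroup.closure (S : Set Q) = ⊤) (hF : FolExp S)

include hfin hcap hS hF in
theorem Wn_card : ∃ M : ℕ, 1 ≤ M ∧ ∀ m : ℕ, (Wn τ A 0 m : Set Q).ncard ≤ M ^ (m + 1) := by
  classical
  obtain ⟨C, hC⟩ := hF
  obtain ⟨ct, hct⟩ := exists_WL hS τ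
  choose len hlen using fun g => exists_WL hS g
  refine ⟨2 * (C + 1) ^ (8 * (1 + 2 * (1 + 2 * s0) * ct)), Nat.mul_pos (by norm_num) (by positivity),
    fun m => ?_⟩
  set D : ℕ := (hfin 0 m).toFinset.sup len with hD
  have hDl : ∀ g ∈ Wn τ A 0 m, WL S D g := by
    intro g hg
    refine (hlen g).mono (Finset.le_sup (f := len) ?_)
    rw [Set.Finite.mem_toFinset]; exact hg
  set K : ℕ := D + 1 with hK
  set p : ℕ := m + 2 * s0 with hp
  set l : ℕ := K + 2 * (K * p) * ct with hl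
  obtain ⟨F, hF, hFc⟩ := hC (4 * l) (by omega)
  rw [isFol_iff] at hF
  set q : ℕ := (Wn τ A 0 m : Set Q).ncard with hq
  set B : ℕ → Finset Q := fun k => (hfin ((k * p : ℕ) : ℤ) ((k * p : ℕ) + m)).toFinset with hB
  have h := ent_block F hF.1 (fun k => Wn τ A 0 (((k * p : ℕ) : ℤ) - 2 * s0))
    (fun k => Wn τ A ((k * p : ℕ) : ℤ) ((k * p : ℕ) + m))
    (fun k => Wn_mono τ A le_rfl (by push_cast; nlinarith))
    (fun k => Wn_mono τ A (by positivity) (by rw [hp]; push_cast; nlinarith))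
    (fun k => hcap _ _ _ _ (by omega)) B
    (fun k g => by rw [hB]; simp only [Set.Finite.mem_toFinset]; rfl) q
    (fun k => by
      rw [hB, hq]
      simp only
      rw [← Set.ncard_eq_toFinset_card _ (hfin _ _)]
      have := Wn_ncard_shift τ A 0 m ((k * p : ℕ) : ℤ)
      rw [zero_add, add_comm (m : ℤ)] at this
      exact this) K (by
      intro k hk x hx
      have hx' : x ∈ Wn τ A ((k * p : ℕ) : ℤ) ((k * p : ℕ) + m) := by
        rw [hB] at hx
        simp only [Set.Finite.mem_toFinset] at hx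
        exact hx
      have h1 := Wn_conj τ A _ _ (-((k * p : ℕ) : ℤ)) hx'
      rw [add_neg_cancel, add_comm (((k * p : ℕ) : ℤ)) (m : ℤ), add_neg_cancel_right] at h1
      have h2 := ((hct.zpow ((k * p : ℕ) : ℤ)).mul (hDl _ h1)).mul
        (hct.zpow (-((k * p : ℕ) : ℤ)))
      have e : τ ^ ((k * p : ℕ) : ℤ) * (τ ^ (-((k * p : ℕ) : ℤ)) * x * τ ^ (- -((k * p : ℕ) : ℤ))) *
          τ ^ (-((k * p : ℕ) : ℤ)) = x := by group
      rw [e] at h2
      have h3 : WL S l x := by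
        refine h2.mono ?_
        simp only [Int.natAbs_neg, Int.natAbs_natCast]
        have h4 : k * p * ct ≤ K * p * ct :=
          Nat.mul_le_mul_right _ (Nat.mul_le_mul_right _ hk.le)
        rw [hl]
        have e2 : 2 * (K * p) * ct = K * p * ct + K * p * ct := by ring
        omega
      have h4 := move_le S F l x h3
      calc 4 * (F.filter (fun g => g * x ∉ F)).card ≤ 4 * (l * (bd S F).card) :=
            Nat.mul_le_mul_left _ h4
        _ = 4 * l * (bd S F).card := by ring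
        _ ≤ F.card := hF.2)
  have hFc' : F.card ≤ (C + 1) ^ (4 * l) := hFc.trans (Nat.pow_le_pow_left (Nat.le_succ C) _)
  have h2 : q ^ K ≤ (2 * (C + 1) ^ (8 * (1 + 2 * p * ct))) ^ K := by
    calc q ^ K ≤ 2 ^ K * F.card ^ 2 := h
      _ ≤ 2 ^ K * ((C + 1) ^ (4 * l)) ^ 2 := Nat.mul_le_mul_left _ (Nat.pow_le_pow_left hFc' 2)
      _ = _ := by
        rw [mul_pow, ← pow_mul, ← pow_mul, hl]
        congr 2
        ring
  have h3 : q ≤ 2 * (C + 1) ^ (8 * (1 + 2 * p * ct)) :=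
    (Nat.pow_le_pow_iff_left (by omega)).1 h2
  refine h3.trans ?_
  rw [mul_pow, ← pow_mul]
  refine Nat.mul_le_mul ?_ ?_
  · calc 2 = 2 ^ 1 := rfl
      _ ≤ 2 ^ (m + 1) := Nat.pow_le_pow_right (by norm_num) (by omega)
  · refine Nat.pow_le_pow_right (by omega) ?_
    have h5 : p ≤ (1 + 2 * s0) * (m + 1) := by rw [hp]; nlinarith
    have h6 : p * ct ≤ (1 + 2 * s0) * (m + 1) * ct := Nat.mul_le_mul_right _ h5
    calc 8 * (1 + 2 * p * ct) ≤ 8 * ((1 + 2 * (1 + 2 * s0) * ct) * (m + 1)) :=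
          Nat.mul_le_mul_left _ (by nlinarith)
      _ = _ := by ring

variable (hcomm : ∀ i j : ℤ, (s0 : ℤ) ≤ |i - j| → ∀ x ∈ A, ∀ y ∈ A,
    Commute (τ ^ i * x * τ ^ (-i)) (τ ^ j * y * τ ^ (-j)))

include hcomm in
theorem Wn_comm (a b l : ℤ) (h : l + s0 ≤ a) (v : Q) (hv : v ∈ Wn τ A a b) (x : Q) (hx : x ∈ A) :
    Commute v (τ ^ l * x * τ ^ (-l)) := by
  have h1 : Wn τ A a b ≤ Subgroup.centralizer {τ ^ l * x * τ ^ (-l)} := by
    rw [Wn, Subgroup.closure_le]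
    rintro g ⟨i, hi, hi', y, hy, rfl⟩
    rw [SetLike.mem_coe, Subgroup.mem_centralizer_singleton_iff]
    exact (hcomm i l ((show (s0 : ℤ) ≤ i - l by omega).trans (le_abs_self _)) y hy x hx)
  exact (Subgroup.mem_centralizer_singleton_iff.1 (h1 hv))

/-- products of elements of two windows -/
def Tp (j : ℕ) (i : ℤ) : Set Q :=
  {g | ∃ u ∈ Wn τ A 0 j, ∃ v ∈ Wn τ A (j + 1 - i) (j + 1), g = u * v}

theorem Tp_mono (j : ℕ) {i i' : ℤ} (h : i ≤ i') : Tp τ A j i ⊆ Tp τ A j i' := by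
  rintro g ⟨u, hu, v, hv, rfl⟩
  exact ⟨u, hu, v, Wn_mono τ A (by omega) le_rfl hv, rfl⟩

include hcomm in
theorem Tp_surj (j : ℕ) (i : ℤ) (h : Tp τ A j (i + s0) ⊆ Tp τ A j i) (hi : 0 ≤ i) (g : Q)
    (hg : g ∈ Wn τ A 0 (j + 1)) : g ∈ Tp τ A j i := by
  have step : ∀ g ∈ Tp τ A j i, ∀ l : ℤ, 0 ≤ l → l ≤ j + 1 → ∀ x ∈ A,
      g * (τ ^ l * x * τ ^ (-l)) ∈ Tp τ A j i := by
    intro g hg l hl hl' x hx
    rcases le_or_gt (j + 1 - (i + s0)) l with h1 | h1
    · apply h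
      obtain ⟨u, hu, v, hv, rfl⟩ := Tp_mono τ A j (show i ≤ i + s0 by omega) hg
      refine ⟨u, hu, v * (τ ^ l * x * τ ^ (-l)), Subgroup.mul_mem _ hv (Wn_mem τ A h1 hl' hx), ?_⟩
      rw [mul_assoc]
    · obtain ⟨u, hu, v, hv, rfl⟩ := hg
      have h2 := Wn_comm τ A s0 hcomm (j + 1 - i) (j + 1) l (by omega) v hv x hx
      refine ⟨u * (τ ^ l * x * τ ^ (-l)), Subgroup.mul_mem _ hu (Wn_mem τ A hl (by omega) hx),
        v, hv, ?_⟩
      rw [mul_assoc, h2.eq, ← mul_assoc u]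
  induction hg using Subgroup.closure_induction_right with
  | one => exact ⟨1, Subgroup.one_mem _, 1, Subgroup.one_mem _, by simp⟩
  | mul_right g _ y hy ih =>
    obtain ⟨l, hl, hl', x, hx, rfl⟩ := hy
    exact step g ih l hl hl' x hx
  | mul_inv_cancel g _ y hy ih =>
    obtain ⟨l, hl, hl', x, hx, rfl⟩ := hy
    have e : (τ ^ l * x * τ ^ (-l))⁻¹ = τ ^ l * x⁻¹ * τ ^ (-l) := by group
    rw [e]
    exact step g ih l hl hl' x⁻¹ (A.inv_mem hx)

include hfin in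
theorem Tp_grow (j k : ℕ) (hk : (k : ℤ) * s0 ≤ j + 1)
    (h : ∀ k' < k, ¬ Tp τ A j (k' * s0 + s0) ⊆ Tp τ A j (k' * s0)) :
    (k + 1) * (Wn τ A 0 j : Set Q).ncard ≤ (Tp τ A j (k * s0)).ncard ∧
      (Tp τ A j (k * s0)).Finite := by
  have hsub : ∀ i : ℤ, i ≤ j + 1 → (Tp τ A j i).Finite := by
    intro i hi
    refine (hfin 0 (j + 1)).subset ?_
    rintro g ⟨u, hu, v, hv, rfl⟩
    exact Subgroup.mul_mem _ (Wn_mono τ A le_rfl (by omega) hu)
      (Wn_mono τ A (by omega) le_rfl hv)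
  induction k with
  | zero =>
    refine ⟨?_, hsub _ (by simpa using hk)⟩
    rw [zero_add, one_mul]
    refine Set.ncard_le_ncard ?_ (hsub _ (by simpa using hk))
    intro g hg
    exact ⟨g, hg, 1, Subgroup.one_mem _, by simp⟩
  | succ k ih =>
    have hk' : (k : ℤ) * s0 ≤ j + 1 := by
      push_cast at hk
      nlinarith
    obtain ⟨h1, h2⟩ := ih hk' (fun k' hk'' => h k' (by omega))
    have h3 := h k (Nat.lt_succ_self k)
    rw [Set.not_subset] at h3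
    obtain ⟨g, hg, hg'⟩ := h3
    have hgr : Tp τ A j (k * s0 + s0) = Tp τ A j (((k + 1 : ℕ) : ℤ) * s0) := by
      congr 1; push_cast; ring
    rw [hgr] at hg
    have hfin1 := hsub (((k + 1 : ℕ) : ℤ) * s0) hk
    refine ⟨?_, hfin1⟩
    set U : Set Q := (fun u => u * g) '' (Wn τ A 0 j : Set Q) with hU
    have hUc : U.ncard = (Wn τ A 0 j : Set Q).ncard :=
      Set.ncard_image_of_injective _ (fun x y hxy => mul_right_cancel hxy)
    have hUs : U ⊆ Tp τ A j (((k + 1 : ℕ) : ℤ) * s0) := by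
      rintro _ ⟨u, hu, rfl⟩
      obtain ⟨u', hu', v, hv, rfl⟩ := hg
      exact ⟨u * u', Subgroup.mul_mem _ hu hu', v, hv, by simp only [mul_assoc]⟩
    have hdis : Disjoint (Tp τ A j (k * s0)) U := by
      rw [Set.disjoint_left]
      rintro x hx ⟨u, hu, rfl⟩
      apply hg'
      obtain ⟨u', hu', v, hv, he⟩ := hx
      refine ⟨u⁻¹ * u', Subgroup.mul_mem _ (Subgroup.inv_mem _ hu) hu', v, hv, ?_⟩
      simp only at he
      rw [mul_assoc, ← he, inv_mul_cancel_left]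
    have h4 : Tp τ A j (k * s0) ∪ U ⊆ Tp τ A j (((k + 1 : ℕ) : ℤ) * s0) := by
      refine Set.union_subset (Tp_mono τ A j (by push_cast; nlinarith)) hUs
    have h5 := Set.ncard_le_ncard h4 hfin1
    rw [Set.ncard_union_eq hdis h2 (hfin1.subset hUs), hUc] at h5
    calc (k + 1 + 1) * (Wn τ A 0 j : Set Q).ncard =
          (k + 1) * (Wn τ A 0 j : Set Q).ncard + (Wn τ A 0 j : Set Q).ncard := by ring
      _ ≤ _ := Nat.add_le_add_right h1 _
      _ ≤ _ := h5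

include hs0 hfin hcomm in
theorem exists_plateau (M : ℕ) (hM : 1 ≤ M)
    (hcard : ∀ m : ℕ, (Wn τ A 0 m : Set Q).ncard ≤ M ^ (m + 1)) (J : ℕ)
    (hJ : 2 * M * s0 ≤ J) :
    ∃ j : ℕ, J ≤ j ∧ ∃ s : ℕ, s ≤ 2 * M * s0 ∧ ∀ g ∈ Wn τ A 0 (j + 1), ∃ u ∈ Wn τ A 0 j,
      ∃ v ∈ Wn τ A (j + 1 - s) (j + 1), g = u * v := by
  by_contra hcon
  push Not at hcon
  have h1 : ∀ j, J ≤ j → ∀ k' < 2 * M, ¬ Tp τ A j (k' * s0 + s0) ⊆ Tp τ A j (k' * s0) := by
    intro j hj k' hk' hsub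
    obtain ⟨g, hg, hg'⟩ := hcon j hj (k' * s0) (Nat.mul_le_mul_right _ hk'.le)
    obtain ⟨u, hu, v, hv, he⟩ := Tp_surj τ A s0 hcomm j (k' * s0) hsub (by positivity) g hg
    refine hg' u hu v ?_ he
    push_cast
    exact hv
  have h2 : ∀ j, J ≤ j → (2 * M) * (Wn τ A 0 j : Set Q).ncard ≤
      (Wn τ A 0 ((j + 1 : ℕ) : ℤ) : Set Q).ncard := by
    intro j hj
    have hjz : ((2 * M : ℕ) : ℤ) * s0 ≤ j + 1 := by
      have : 2 * M * s0 ≤ j + 1 := by omega
      exact_mod_cast this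
    obtain ⟨h3, _⟩ := Tp_grow τ A s0 hfin j (2 * M) hjz (h1 j hj)
    have h4 : Tp τ A j (((2 * M : ℕ) : ℤ) * s0) ⊆ (Wn τ A 0 ((j + 1 : ℕ) : ℤ) : Set Q) := by
      rintro g ⟨u, hu, v, hv, rfl⟩
      exact Subgroup.mul_mem _ (Wn_mono τ A le_rfl (by push_cast; omega) hu)
        (Wn_mono τ A (by omega) (by push_cast; omega) hv)
    have h5 := Set.ncard_le_ncard h4 (hfin _ _)
    nlinarith
  have h3 : ∀ n : ℕ, (2 * M) ^ n ≤ (Wn τ A 0 ((J + n : ℕ) : ℤ) : Set Q).ncard := by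
    intro n
    induction n with
    | zero =>
      rw [pow_zero]
      have : 0 < (Wn τ A 0 ((J + 0 : ℕ) : ℤ) : Set Q).ncard :=
        (Set.ncard_pos (hfin _ _)).2 ⟨1, Subgroup.one_mem _⟩
      omega
    | succ n ih =>
      have h4 := h2 (J + n) (by omega)
      calc (2 * M) ^ (n + 1) = (2 * M) * (2 * M) ^ n := by ring
        _ ≤ (2 * M) * (Wn τ A 0 ((J + n : ℕ) : ℤ) : Set Q).ncard := Nat.mul_le_mul_left _ ih
        _ ≤ _ := h4
  set n := M ^ (J + 1) with hn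
  have h4 := (h3 n).trans (hcard (J + n))
  have h5 : 2 ^ n * M ^ n ≤ n * M ^ n := by
    calc 2 ^ n * M ^ n = (2 * M) ^ n := (mul_pow 2 M n).symm
      _ ≤ M ^ (J + n + 1) := h4
      _ = M ^ (J + 1) * M ^ n := by rw [← pow_add]; congr 1; omega
  have h6 : 2 ^ n ≤ n := Nat.le_of_mul_le_mul_right h5 (by positivity)
  have h7 : n < 2 ^ n := Nat.lt_two_pow_self
  omega

end

end Pool.Agent.H684AN
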