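import Pool.Agent.H684AN.Far2

set_option autoImplicit false

/-!
Propagation of local generation, and a normal form for the elements of the windows.
-/

open scoped commutatorElement

namespace Pool.Agent.H684AN

variable {G : Type*} [Group G]

/-- the central commutators between window elements and block elements -/
def En (t : G) (A B : Subgroup G) (n : ℤ) : Subgroup G :=
  Subgroup.closure {z | z ∈ Subgroup.center G ∧ ∃ i l : ℤ, 0 ≤ i ∧ i ≤ n ∧ 0 ≤ l ∧ l ≤ n ∧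
    ∃ y ∈ B, ∃ x ∈ A, z = ⁅t ^ i * y * t ^ (-i), t ^ l * x * t ^ (-l)⁆}

theorem En_le (t : G) (A B : Subgroup G) (n : ℤ) : En t A B n ≤ Subgroup.center G := by
  rw [En, Subgroup.closure_le]
  exact fun z hz => hz.1

theorem En_mono (t : G) (A B : Subgroup G) {n n' : ℤ} (h : n ≤ n') : En t A B n ≤ En t A B n' := by
  refine Subgroup.closure_mono ?_
  rintro z ⟨hz, i, l, h1, h2, h3, h4, y, hy, x, hx, rfl⟩
  exact ⟨hz, i, l, h1, h2.trans h, h3, h4.trans h, y, hy, x, hx, rfl⟩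

theorem En_mem (t : G) (A B : Subgroup G) {n i l : ℤ} (h1 : 0 ≤ i) (h2 : i ≤ n) (h3 : 0 ≤ l)
    (h4 : l ≤ n) {y x : G} (hy : y ∈ B) (hx : x ∈ A)
    (hz : ⁅t ^ i * y * t ^ (-i), t ^ l * x * t ^ (-l)⁆ ∈ Subgroup.center G) :
    ⁅t ^ i * y * t ^ (-i), t ^ l * x * t ^ (-l)⁆ ∈ En t A B n :=
  Subgroup.subset_closure ⟨hz, i, l, h1, h2, h3, h4, y, hy, x, hx, rfl⟩

/-- ordered products -/
def PG (t : G) (B : Subgroup G) : ℕ → Set G
  | 0 => {1}
  | n + 1 => {g | ∃ p ∈ PG t B n, ∃ b ∈ B, g = p * (t ^ (n : ℤ) * b * t ^ (-(n : ℤ)))}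

section
variable (t : G) (A : Subgroup G) (s0 : ℕ)
  (hfar : ∀ i j : ℤ, (s0 : ℤ) ≤ |i - j| → ∀ x ∈ A, ∀ y ∈ A,
    ⁅t ^ i * x * t ^ (-i), t ^ j * y * t ^ (-j)⁆ ∈ Subgroup.center G)
  (B : Subgroup G) (hAB : A ≤ B)

include hfar hAB in
theorem far_E (n a b l : ℤ) (ha : 0 ≤ a) (hb : b ≤ n) (hl0 : 0 ≤ l) (hln : l ≤ n)
    (h : l + s0 ≤ a) (x : G) (hx : x ∈ A) (w : G) (hw : w ∈ Wn t A a b) :
    ⁅t ^ l * x * t ^ (-l), w⁆ ∈ En t A B n := by
  have key : ∀ w ∈ Wn t A a b, ⁅t ^ l * x * t ^ (-l), w⁆ ∈ En t A B n := by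
    intro w hw
    rw [Wn] at hw
    induction hw using Subgroup.closure_induction with
    | mem g hg =>
      obtain ⟨i, hi, hi', y, hy, rfl⟩ := hg
      rw [← commutatorElement_inv]
      refine Subgroup.inv_mem _ (En_mem t A B (by omega) (by omega) hl0 hln (hAB hy) hx ?_)
      exact hfar i l ((show (s0 : ℤ) ≤ i - l by omega).trans (le_abs_self _)) y hy x hx
    | one => rw [commutatorElement_one_right]; exact Subgroup.one_mem _
    | mul g g' _ _ h1 h2 =>
      rw [Dc_mul _ _ _ (En_le t A B n h2)]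
      exact Subgroup.mul_mem _ h1 h2
    | inv g _ h1 =>
      rw [Dc_inv _ _ (En_le t A B n h1)]
      exact Subgroup.inv_mem _ h1
  exact key w hw

variable (L : Subgroup G) [L.Normal] (hAL : A ≤ L) (j s : ℕ) (hjs : s + s0 ≤ j + 1)
  (hBdef : B = Wn t A 0 (j + 1))
  (hloc : ∀ g ∈ Wn t A 0 (j + 1), ∃ u ∈ Wn t A 0 j, ∃ v ∈ Wn t A (j + 1 - s) (j + 1),
    ∃ c ∈ B, c ∈ Cc L ∧ g = u * v * c)

include hfar hAB hAL hjs hBdef hloc in
theorem prop_loc (m : ℕ) (hm : j ≤ m) (g : G) (hg : g ∈ Wn t A 0 (m + 1)) :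
    ∃ u ∈ Wn t A 0 m, ∃ v ∈ Wn t A (m + 1 - s) (m + 1), ∃ c ∈ B, c ∈ Cc L ∧
      ∃ z ∈ En t A B (m + 1),
        g = u * v * (t ^ ((m : ℤ) - j) * c * t ^ (-((m : ℤ) - j))) * z := by
  have step : ∀ g : G, (∃ u ∈ Wn t A 0 m, ∃ v ∈ Wn t A (m + 1 - s) (m + 1), ∃ c ∈ B, c ∈ Cc L ∧
      ∃ z ∈ En t A B (m + 1),
        g = u * v * (t ^ ((m : ℤ) - j) * c * t ^ (-((m : ℤ) - j))) * z) →
      ∀ l : ℤ, 0 ≤ l → l ≤ m + 1 → ∀ x ∈ A,
      ∃ u ∈ Wn t A 0 m, ∃ v ∈ Wn t A (m + 1 - s) (m + 1), ∃ c ∈ B, c ∈ Cc L ∧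
      ∃ z ∈ En t A B (m + 1), g * (t ^ l * x * t ^ (-l)) =
        u * v * (t ^ ((m : ℤ) - j) * c * t ^ (-((m : ℤ) - j))) * z := by
    rintro g ⟨u, hu, v, hv, c, hc, hcC, z, hz, rfl⟩ l hl hl' x hx
    set X := t ^ l * x * t ^ (-l) with hX
    set k : ℤ := (m : ℤ) - j with hk
    set κ := t ^ k * c * t ^ (-k) with hκ
    have hXL : X ∈ L := by
      rw [hX, zpow_neg]; exact (inferInstance : L.Normal).conj_mem x (hAL hx) (t ^ l)
    have hκC : κ ∈ Cc L := by
      rw [hκ, zpow_neg]; exact (inferInstance : (Cc L).Normal).conj_mem c hcC (t ^ k)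
    have hXinv : X⁻¹ = t ^ l * x⁻¹ * t ^ (-l) := by rw [hX]; group
    have hκinv : κ⁻¹ = t ^ k * c⁻¹ * t ^ (-k) := by rw [hκ]; group
    set z1 := ⁅κ⁻¹, X⁻¹⁆ with hz1
    have hz1E : z1 ∈ En t A B (m + 1) := by
      rw [hz1, hκinv, hXinv]
      refine En_mem t A B (by omega) (by omega) hl hl' (B.inv_mem hc) (A.inv_mem hx) ?_
      rw [← hκinv, ← hXinv, ← commutatorElement_inv]
      exact Subgroup.inv_mem _ (((mem_Cc L _).1 (Subgroup.inv_mem _ hκC)).2 _
        (L.inv_mem hXL))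
    have hzc := Subgroup.mem_center_iff.1 (En_le t A B _ hz)
    have hz1c := Subgroup.mem_center_iff.1 (En_le t A B _ hz1E)
    have e1 : u * v * κ * z * X = u * (v * X) * κ * (z1 * z) := by
      have e2 : κ * X = X * κ * z1 := by
        rw [hz1]; simp only [commutatorElement_def]; group
      calc u * v * κ * z * X = u * v * κ * (z * X) := by rw [mul_assoc]
        _ = u * v * κ * (X * z) := by rw [hzc X]
        _ = u * v * (κ * X) * z := by simp only [mul_assoc]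
        _ = u * v * (X * κ * z1) * z := by rw [e2]
        _ = _ := by simp only [mul_assoc]
    rw [e1]
    rcases le_or_gt k l with hkl | hkl
    · -- near
      have h1 : v * X ∈ Wn t A k (m + 1) :=
        Subgroup.mul_mem _ (Wn_mono t A (by omega) le_rfl hv) (Wn_mem t A hkl hl' hx)
      have h2 := Wn_conj t A k (m + 1) (-k) h1
      rw [add_neg_cancel, show (m : ℤ) + 1 + -k = j + 1 by omega] at h2
      obtain ⟨u', hu', v', hv', c', hc', hcC', he⟩ := hloc _ h2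
      have h3 : v * X = (t ^ k * u' * t ^ (-k)) * (t ^ k * v' * t ^ (-k)) *
          (t ^ k * c' * t ^ (-k)) := by
        have e3 : v * X = t ^ k * (t ^ (-k) * (v * X) * t ^ (- -k)) * t ^ (-k) := by group
        rw [e3, he]; group
      have hu'' := Wn_conj t A 0 j k hu'
      have hv'' := Wn_conj t A (j + 1 - s) (j + 1) k hv'
      refine ⟨u * (t ^ k * u' * t ^ (-k)),
        Subgroup.mul_mem _ hu (Wn_mono t A (by omega) (by omega) hu''),
        t ^ k * v' * t ^ (-k), Wn_mono t A (by omega) (by omega) hv'', c' * c,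
        B.mul_mem hc' hc, Subgroup.mul_mem _ hcC' hcC, z1 * z, Subgroup.mul_mem _ hz1E hz, ?_⟩
      rw [h3, hκ]
      have e4 : t ^ k * (c' * c) * t ^ (-k) = (t ^ k * c' * t ^ (-k)) * (t ^ k * c * t ^ (-k)) := by
        group
      rw [e4]
      simp only [mul_assoc]
    · -- far
      set z2 := ⁅v⁻¹, X⁻¹⁆ with hz2
      have hz2E : z2 ∈ En t A B (m + 1) := by
        rw [hz2, ← commutatorElement_inv, hXinv]
        refine Subgroup.inv_mem _ (far_E t A s0 hfar B hAB (m + 1) (m + 1 - s) (m + 1) l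
          (by omega) le_rfl hl hl' (by omega) x⁻¹ (A.inv_mem hx) v⁻¹ (Subgroup.inv_mem _ hv))
      have hz2c := Subgroup.mem_center_iff.1 (En_le t A B _ hz2E)
      have e2 : v * X = X * v * z2 := by
        rw [hz2]; simp only [commutatorElement_def]; group
      refine ⟨u * X, Subgroup.mul_mem _ hu (Wn_mem t A hl (by omega) hx), v, hv, c, hc, hcC,
        z2 * (z1 * z), Subgroup.mul_mem _ hz2E (Subgroup.mul_mem _ hz1E hz), ?_⟩
      rw [e2]
      calc u * (X * v * z2) * κ * (z1 * z) = u * X * v * (z2 * κ) * (z1 * z) := by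
            simp only [mul_assoc]
        _ = u * X * v * (κ * z2) * (z1 * z) := by rw [hz2c κ]
        _ = _ := by rw [hκ]; simp only [mul_assoc]
  rw [Wn] at hg
  induction hg using Subgroup.closure_induction_right with
  | one =>
    refine ⟨1, Subgroup.one_mem _, 1, Subgroup.one_mem _, 1, Subgroup.one_mem _,
      Subgroup.one_mem _, 1, Subgroup.one_mem _, by group⟩
  | mul_right g _ y hy ih =>
    obtain ⟨l, hl, hl', x, hx, rfl⟩ := hy
    exact step g ih l hl hl' x hx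
  | mul_inv_cancel g _ y hy ih =>
    obtain ⟨l, hl, hl', x, hx, rfl⟩ := hy
    have e : (t ^ l * x * t ^ (-l))⁻¹ = t ^ l * x⁻¹ * t ^ (-l) := by group
    rw [e]
    exact step g ih l hl hl' x⁻¹ (A.inv_mem hx)

include hfar hAB hAL hjs hBdef hloc in
theorem nf (n : ℕ) (g : G) (hg : g ∈ Wn t A 0 (j + (n + 1 : ℕ))) :
    ∃ p ∈ PG t B (n + 1), ∃ z ∈ En t A B (j + (n + 1 : ℕ)), g = p * z := by
  induction n generalizing g with
  | zero =>
    refine ⟨g, ⟨1, rfl, g, ?_, ?_⟩, 1, Subgroup.one_mem _, by simp⟩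
    · rw [hBdef]; simpa using hg
    · simp
  | succ n ih =>
    obtain ⟨u, hu, v, hv, c, hc, -, z, hz, rfl⟩ := prop_loc t A s0 hfar B hAB L hAL j s hjs hBdef
      hloc (j + (n + 1)) (by omega) g (by
        convert hg using 2
        push_cast; ring)
    obtain ⟨p, hp, z', hz', rfl⟩ := ih u (by
      convert hu using 2
      push_cast; ring)
    set k : ℤ := ((j + (n + 1) : ℕ) : ℤ) - j with hk
    have hkn : k = ((n + 1 : ℕ) : ℤ) := by rw [hk]; push_cast; ring
    have hvB : t ^ (-k) * v * t ^ (- -k) ∈ B := by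
      have h1 := Wn_conj t A _ _ (-k) hv
      rw [hBdef]
      exact Wn_mono t A (by rw [hkn]; push_cast; omega) (by rw [hkn]; push_cast; omega) h1
    refine ⟨p * (t ^ ((n + 1 : ℕ) : ℤ) * ((t ^ (-k) * v * t ^ (- -k)) * c) *
      t ^ (-((n + 1 : ℕ) : ℤ))), ⟨p, hp, _, B.mul_mem hvB hc, rfl⟩, z' * z,
      Subgroup.mul_mem _ (En_mono t A B (by push_cast; omega) hz')
        (En_mono t A B (by push_cast; omega) hz), ?_⟩
    have hzc := Subgroup.mem_center_iff.1 (En_le t A B _ hz')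
    rw [← hkn]
    have e1 : t ^ k * ((t ^ (-k) * v * t ^ (- -k)) * c) * t ^ (-k) =
        v * (t ^ k * c * t ^ (-k)) := by group
    rw [e1]
    calc p * z' * v * (t ^ k * c * t ^ (-k)) * z = p * (z' * (v * (t ^ k * c * t ^ (-k)))) * z := by
          simp only [mul_assoc]
      _ = p * ((v * (t ^ k * c * t ^ (-k))) * z') * z := by rw [hzc]
      _ = _ := by simp only [mul_assoc]

end

theorem PG_len {S : Finset G} (t : G) (B : Subgroup G) (ct cB : ℕ) (hct : WL S ct t)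
    (hcB : ∀ b ∈ B, WL S cB b) (N : ℕ) (q : G) (hq : q ∈ PG t B N) :
    WL S (N * (cB + 2 * ct)) q := by
  have key : ∀ (N : ℕ) (q : G), q ∈ PG t B N → WL S (N * (cB + ct)) (q * t ^ (N : ℤ)) := by
    intro N
    induction N with
    | zero =>
      intro q hq
      rw [show q = 1 from hq]
      simpa using WL.one S 0
    | succ N ih =>
      rintro q ⟨p, hp, b, hb, rfl⟩
      have h1 := ih p hp
      have e1 : p * (t ^ (N : ℤ) * b * t ^ (-(N : ℤ))) * t ^ ((N + 1 : ℕ) : ℤ) =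
          (p * t ^ (N : ℤ)) * (b * t) := by
        push_cast; group
      rw [e1]
      refine (h1.mul ((hcB b hb).mul hct)).mono ?_
      ring_nf; omega
  have h1 := key N q hq
  have h2 := (hct.zpow (N : ℤ)).inv
  have e1 : q = (q * t ^ (N : ℤ)) * (t ^ (N : ℤ))⁻¹ := by group
  rw [e1]
  refine (h1.mul h2).mono ?_
  rw [Int.natAbs_natCast]; ring_nf; omega

end Pool.Agent.H684AN
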