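import Pool.Agent.H684AN.Far3

set_option autoImplicit false

/-!
The elements of the windows are short; the main theorem for groups in which far commutators are
central.
-/

open scoped commutatorElement IsMulCommutative

namespace Pool.Agent.H684AN

variable {G : Type*} [Group G]

open Classical in
/-- the commutator as an element of the centre -/
noncomputable def cz (y w : G) : Subgroup.center G :=
  if h : ⁅y, w⁆ ∈ Subgroup.center G then ⟨⁅y, w⁆, h⟩ else 1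

theorem cz_coe (y w : G) (h : w ∈ Dc y) : (cz y w : G) = ⁅y, w⁆ := by
  rw [cz, dif_pos ((mem_Dc y w).1 h)]

theorem cz_one (y : G) : cz y 1 = 1 := by
  apply Subtype.ext
  rw [cz_coe y 1 (Subgroup.one_mem _), commutatorElement_one_right]
  rfl

theorem cz_mul (y w w' : G) (h : w ∈ Dc y) (h' : w' ∈ Dc y) : cz y (w * w') = cz y w * cz y w' := by
  apply Subtype.ext
  rw [Subgroup.coe_mul, cz_coe y _ (Subgroup.mul_mem _ h h'), cz_coe y _ h, cz_coe y _ h',
    Dc_mul y w w' h']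

theorem cz_inv (y w : G) (h : w ∈ Dc y) : cz y w⁻¹ = (cz y w)⁻¹ := by
  apply Subtype.ext
  rw [Subgroup.coe_inv, cz_coe y _ (Subgroup.inv_mem _ h), cz_coe y _ h, Dc_inv y w h]

theorem En_form (t : G) (A B : Subgroup G) (Bf : Finset G) (hBf : ∀ b, b ∈ Bf ↔ b ∈ B) (n : ℕ)
    (z : G) (hz : z ∈ En t A B n) :
    ∃ w : G → G, (∀ y, w y ∈ Wn t A (-n) n ∧ w y ∈ Dc y) ∧
      z = ((∏ y ∈ Bf, cz y (w y) : Subgroup.center G) : G) := by
  classical
  rw [En] at hz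
  induction hz using Subgroup.closure_induction with
  | mem z hz =>
    obtain ⟨hzc, i, l, hi, hi', hl, hl', y, hy, x, hx, rfl⟩ := hz
    set w0 : G := t ^ (l - i) * x * t ^ (-(l - i)) with hw0
    have e1 : ⁅y, w0⁆ = ⁅t ^ i * y * t ^ (-i), t ^ l * x * t ^ (-l)⁆ := by
      have h1 := Subgroup.mem_center_iff.1 hzc (t ^ (-i))
      have e2 : t ^ (-i) * ⁅t ^ i * y * t ^ (-i), t ^ l * x * t ^ (-l)⁆ * t ^ i = ⁅y, w0⁆ := by
        rw [hw0]; simp only [commutatorElement_def]; group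
      rw [← e2, h1]; group
    have hw0D : w0 ∈ Dc y := by rw [mem_Dc, e1]; exact hzc
    refine ⟨fun y' => if y' = y then w0 else 1, fun y' => ?_, ?_⟩
    · simp only
      split_ifs with h
      · subst h
        exact ⟨Wn_mem t A (by omega) (by omega) hx, hw0D⟩
      · exact ⟨Subgroup.one_mem _, Subgroup.one_mem _⟩
    · rw [Finset.prod_eq_single y]
      · simp only [if_true]
        rw [cz_coe y w0 hw0D, e1]
      · intro y' _ hne
        simp only [if_neg hne, cz_one]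
      · intro h
        exact absurd ((hBf y).2 hy) h
  | one =>
    refine ⟨fun _ => 1, fun y => ⟨Subgroup.one_mem _, Subgroup.one_mem _⟩, ?_⟩
    rw [Finset.prod_eq_one (fun y _ => cz_one y)]; rfl
  | mul z z' _ _ h h' =>
    obtain ⟨w, hw, rfl⟩ := h
    obtain ⟨w', hw', rfl⟩ := h'
    refine ⟨fun y => w y * w' y, fun y => ⟨Subgroup.mul_mem _ (hw y).1 (hw' y).1,
      Subgroup.mul_mem _ (hw y).2 (hw' y).2⟩, ?_⟩
    rw [← Subgroup.coe_mul, ← Finset.prod_mul_distrib]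
    congr 1
    exact Finset.prod_congr rfl (fun y _ => (cz_mul y _ _ (hw y).2 (hw' y).2).symm)
  | inv z _ h =>
    obtain ⟨w, hw, rfl⟩ := h
    refine ⟨fun y => (w y)⁻¹, fun y => ⟨Subgroup.inv_mem _ (hw y).1,
      Subgroup.inv_mem _ (hw y).2⟩, ?_⟩
    rw [← Subgroup.coe_inv, ← Finset.prod_inv_distrib]
    congr 1
    exact Finset.prod_congr rfl (fun y _ => (cz_inv y _ (hw y).2).symm)

theorem prod_len' {S : Finset G} {ι : Type*} (X : Finset ι) (f : ι → Subgroup.center G) (b : ℕ)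
    (hf : ∀ i ∈ X, WL S b ((f i : Subgroup.center G) : G)) :
    WL S (X.card * b) ((∏ i ∈ X, f i : Subgroup.center G) : G) := by
  classical
  induction X using Finset.induction_on with
  | empty => simpa using WL.one S 0
  | insert a X ha ih =>
    rw [Finset.prod_insert ha, Finset.card_insert_of_notMem ha]
    have h1 := hf a (Finset.mem_insert_self a X)
    have h2 := ih (fun i hi => hf i (Finset.mem_insert_of_mem hi))
    have h3 := h1.mul h2
    simp only [Subgroup.coe_mul]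
    refine h3.mono ?_
    ring_nf; omega

section
variable {S : Finset G} (t : G) (A : Subgroup G) (s0 : ℕ)
  (hfar : ∀ i j : ℤ, (s0 : ℤ) ≤ |i - j| → ∀ x ∈ A, ∀ y ∈ A,
    ⁅t ^ i * x * t ^ (-i), t ^ j * y * t ^ (-j)⁆ ∈ Subgroup.center G)
  (B : Subgroup G) (hAB : A ≤ B)
  (L : Subgroup G) [L.Normal] (hAL : A ≤ L) (j s : ℕ) (hjs : s + s0 ≤ j + 1)
  (hBdef : B = Wn t A 0 (j + 1))
  (hloc : ∀ g ∈ Wn t A 0 (j + 1), ∃ u ∈ Wn t A 0 j, ∃ v ∈ Wn t A (j + 1 - s) (j + 1),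
    ∃ c ∈ B, c ∈ Cc L ∧ g = u * v * c)
  (Bf : Finset G) (hBf : ∀ b, b ∈ Bf ↔ b ∈ B)
  (ct cB : ℕ) (hct : WL S ct t) (hcB : ∀ b ∈ B, WL S cB b)

include hfar hAB hAL hjs hBdef hloc hBf hct hcB in
theorem En_len (n : ℕ) (z : G) (hz : z ∈ En t A B n) :
    WL S (Bf.card * (8 * (cB + 2 * ct + 1) * (n + 1))) z := by
  obtain ⟨w, hw, rfl⟩ := En_form t A B Bf hBf n z hz
  refine prod_len' Bf (fun y => cz y (w y)) _ (fun y hy => ?_)
  obtain ⟨hw1, hw2⟩ := hw y
  rw [cz_coe y _ hw2]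
  have h1 := Wn_conj t A (-n) n n hw1
  rw [neg_add_cancel] at h1
  obtain ⟨p, hp, z', hz', he⟩ := nf t A s0 hfar B hAB L hAL j s hjs hBdef hloc (2 * n) _
    (Wn_mono t A le_rfl (by push_cast; omega) h1)
  have hzc := Subgroup.mem_center_iff.1 (En_le t A B _ hz')
  have e1 : w y = (t ^ (-(n : ℤ)) * p * t ^ (n : ℤ)) * z' := by
    have e2 : w y = t ^ (-(n : ℤ)) * (t ^ (n : ℤ) * w y * t ^ (-(n : ℤ))) * t ^ (n : ℤ) := by
      group
    rw [e2, he]
    calc t ^ (-(n : ℤ)) * (p * z') * t ^ (n : ℤ) = t ^ (-(n : ℤ)) * p * (z' * t ^ (n : ℤ)) := by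
          simp only [mul_assoc]
      _ = t ^ (-(n : ℤ)) * p * (t ^ (n : ℤ) * z') := by rw [hzc]
      _ = _ := by simp only [mul_assoc]
  have hz1 : ⁅y, z'⁆ = 1 := by
    rw [commutatorElement_eq_one_iff_mul_comm]
    exact hzc y
  have hzD : z' ∈ Dc y := by
    rw [mem_Dc, hz1]; exact Subgroup.one_mem _
  rw [e1, Dc_mul y _ z' hzD, hz1, mul_one]
  have h2 := PG_len t B ct cB hct hcB (2 * n + 1) p hp
  have h3 := ((hct.zpow (-(n : ℤ))).mul h2).mul (hct.zpow (n : ℤ))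
  refine (WL.comm (hcB y ((hBf y).1 hy)) h3).mono ?_
  simp only [Int.natAbs_neg, Int.natAbs_natCast]
  nlinarith

include hfar hAB hAL hjs hBdef hloc hBf hct hcB in
theorem Hs_len (k : ℕ) (g : G) (hg : g ∈ Wn t A (-k) k) :
    WL S ((3 * (cB + 2 * ct) + Bf.card * (8 * (cB + 2 * ct + 1)) * (j + 2)) * (k + 1)) g := by
  have h1 := Wn_conj t A (-k) k k hg
  rw [neg_add_cancel] at h1
  obtain ⟨p, hp, z', hz', he⟩ := nf t A s0 hfar B hAB L hAL j s hjs hBdef hloc (2 * k) _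
    (Wn_mono t A le_rfl (by push_cast; omega) h1)
  have hzc := Subgroup.mem_center_iff.1 (En_le t A B _ hz')
  have e1 : g = (t ^ (-(k : ℤ)) * p * t ^ (k : ℤ)) * z' := by
    have e2 : g = t ^ (-(k : ℤ)) * (t ^ (k : ℤ) * g * t ^ (-(k : ℤ))) * t ^ (k : ℤ) := by
      group
    rw [e2, he]
    calc t ^ (-(k : ℤ)) * (p * z') * t ^ (k : ℤ) = t ^ (-(k : ℤ)) * p * (z' * t ^ (k : ℤ)) := by
          simp only [mul_assoc]
      _ = t ^ (-(k : ℤ)) * p * (t ^ (k : ℤ) * z') := by rw [hzc]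
      _ = _ := by simp only [mul_assoc]
  have h2 := PG_len t B ct cB hct hcB (2 * k + 1) p hp
  have h3 := ((hct.zpow (-(k : ℤ))).mul h2).mul (hct.zpow (k : ℤ))
  have hz'' : z' ∈ En t A B ((j + (2 * k + 1) : ℕ) : ℤ) := by
    refine En_mono t A B ?_ hz'
    push_cast; omega
  have h4 := En_len t A s0 hfar B hAB L hAL j s hjs hBdef hloc Bf hBf ct cB hct hcB _ z' hz''
  rw [e1]
  refine (h3.mul h4).mono ?_
  simp only [Int.natAbs_neg, Int.natAbs_natCast]
  have h5 : j + (2 * k + 1) + 1 ≤ (j + 2) * (k + 1) := by nlinarith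
  have h6 : Bf.card * (8 * (cB + 2 * ct + 1) * (j + (2 * k + 1) + 1)) ≤
      Bf.card * (8 * (cB + 2 * ct + 1)) * (j + 2) * (k + 1) := by
    calc Bf.card * (8 * (cB + 2 * ct + 1) * (j + (2 * k + 1) + 1)) ≤
          Bf.card * (8 * (cB + 2 * ct + 1) * ((j + 2) * (k + 1))) :=
          Nat.mul_le_mul_left _ (Nat.mul_le_mul_left _ h5)
      _ = _ := by ring
  nlinarith

end

theorem Wn_map {Q : Type*} [Group Q] (f : G →* Q) (t : G) (A : Subgroup G) (a b : ℤ) :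
    (Wn t A a b).map f = Wn (f t) (A.map f) a b := by
  rw [Wn, Wn, MonoidHom.map_closure]
  congr 1
  ext g
  constructor
  · rintro ⟨_, ⟨i, hi, hi', x, hx, rfl⟩, rfl⟩
    refine ⟨i, hi, hi', f x, ⟨x, hx, rfl⟩, ?_⟩
    rw [map_mul, map_mul, map_zpow, map_zpow]
  · rintro ⟨i, hi, hi', _, ⟨x, hx, rfl⟩, rfl⟩
    refine ⟨t ^ i * x * t ^ (-i), ⟨i, hi, hi', x, hx, rfl⟩, ?_⟩
    rw [map_mul, map_mul, map_zpow, map_zpow]

theorem Hs_eq (t : G) (A : Subgroup G) (k : ℕ) : Hs t A k = Wn t A (-k) k := by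
  rw [Hs, Wn]
  congr 1
  ext g
  constructor
  · rintro ⟨i, hi, x, hx, rfl⟩
    rw [abs_le] at hi
    exact ⟨i, hi.1, hi.2, x, hx, rfl⟩
  · rintro ⟨i, hi, hi', x, hx, rfl⟩
    exact ⟨i, abs_le.2 ⟨hi, hi'⟩, x, hx, rfl⟩

theorem FolExp.quot' {Q : Type*} [Group Q] {S : Finset G} (h : FolExp S) (f : G →* Q)
    (hf : Function.Surjective f) (hS : Subgroup.closure (S : Set G) = ⊤) :
    ∃ SQ : Finset Q, Subgroup.closure (SQ : Set Q) = ⊤ ∧ FolExp SQ := by
  classical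
  refine ⟨@Finset.image _ _ (fun a b => Classical.propDecidable (a = b)) f S, ?_, h.quot f⟩
  have e : ((@Finset.image _ _ (fun a b => Classical.propDecidable (a = b)) f S : Finset Q) :
      Set Q) = f '' (S : Set G) := by
    ext x
    simp
  rw [e, ← MonoidHom.map_closure, hS, ← MonoidHom.range_eq_map]
  exact MonoidHom.range_eq_top.2 hf

theorem main_core (S : Finset G) (hS : Subgroup.closure (S : Set G) = ⊤) (L : Subgroup G)
    [L.Normal]
    (hlf : ∀ E : Finset G, (E : Set G) ⊆ L → (Subgroup.closure (E : Set G) : Set G).Finite)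
    (π : G →* Multiplicative ℤ) (hker : ∀ g, ht π g = 0 ↔ g ∈ L) (t : G) (htt : ht π t = 1)
    (hfarL : ∀ x ∈ L, ∀ y ∈ L, ∃ N : ℕ, ∀ i : ℤ, (N : ℤ) ≤ |i| →
      ⁅x, t ^ i * y * t ^ (-i)⁆ ∈ Subgroup.center G)
    (hF : FolExp S) : ANLE S 1 := by
  classical
  obtain ⟨m, hm1, hm⟩ := ht_bound S π
  obtain ⟨ct, hct⟩ := exists_WL hS t
  -- the finite group generated by the `L`-parts of the generators
  set E : Finset G := S.image (fun s => s * t ^ (-(ht π s))) with hE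
  have hEL : (E : Set G) ⊆ L := by
    intro g hg
    rw [hE, Finset.coe_image] at hg
    obtain ⟨s, _, rfl⟩ := hg
    have : ht π (s * t ^ (-(ht π s))) = 0 := by rw [ht_mul, ht_zpow, htt]; ring
    exact (hker _).1 this
  set A : Subgroup G := Subgroup.closure (E : Set G) with hA
  have hAL : A ≤ L := (Subgroup.closure_le L).2 hEL
  have hAfin : (A : Set G).Finite := hlf E hEL
  have hHsWL := Hs_WL π t A (S := S) (fun s hs => Subgroup.subset_closure
      (by rw [hE, Finset.coe_image]; exact ⟨s, hs, rfl⟩)) m hm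
  have hcov : ∀ x ∈ L, ∃ n : ℕ, x ∈ Wn t A (-n) n := by
    intro x hx
    obtain ⟨n, hn⟩ := exists_WL hS x
    have h1 := hHsWL n x hn
    rw [(hker x).2 hx] at h1
    refine ⟨m * n, ?_⟩
    rw [← Hs_eq]
    simpa using h1
  -- the range
  choose N hN using fun (x : G) (y : G) (hx : x ∈ L) (hy : y ∈ L) => hfarL x hx y hy
  obtain ⟨s0, hs0, hfar⟩ : ∃ s0 : ℕ, 1 ≤ s0 ∧ ∀ i j : ℤ, (s0 : ℤ) ≤ |i - j| → ∀ x ∈ A, ∀ y ∈ A,
      ⁅t ^ i * x * t ^ (-i), t ^ j * y * t ^ (-j)⁆ ∈ Subgroup.center G := by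
    set N' : G → G → ℕ := fun x y => if h : x ∈ L ∧ y ∈ L then N x y h.1 h.2 else 0 with hN'
    refine ⟨(hAfin.toFinset ×ˢ hAfin.toFinset).sup (fun p => N' p.1 p.2) + 1, by omega, ?_⟩
    intro i j hij x hx y hy
    have h1 : N' x y ≤ (hAfin.toFinset ×ˢ hAfin.toFinset).sup (fun p => N' p.1 p.2) := by
      refine Finset.le_sup (f := fun p : G × G => N' p.1 p.2) (b := (x, y)) ?_
      rw [Finset.mem_product, Set.Finite.mem_toFinset, Set.Finite.mem_toFinset]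
      exact ⟨hx, hy⟩
    have h2 : N' x y = N x y (hAL hx) (hAL hy) := by
      rw [hN']
      simp only
      rw [dif_pos ⟨hAL hx, hAL hy⟩]
    have h3 : (N x y (hAL hx) (hAL hy) : ℤ) ≤ |j - i| := by
      rw [abs_sub_comm]
      rw [h2] at h1
      refine le_trans ?_ hij
      push_cast
      have : (N x y (hAL hx) (hAL hy) : ℤ) ≤
        (((hAfin.toFinset ×ˢ hAfin.toFinset).sup (fun p => N' p.1 p.2) : ℕ) : ℤ) := by
        exact_mod_cast h1
      linarith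
    have h4 := hN x y (hAL hx) (hAL hy) (j - i) h3
    have h5 := (inferInstance : (Subgroup.center G).Normal).conj_mem _ h4 (t ^ i)
    have e : t ^ i * ⁅x, t ^ (j - i) * y * t ^ (-(j - i))⁆ * (t ^ i)⁻¹ =
        ⁅t ^ i * x * t ^ (-i), t ^ j * y * t ^ (-j)⁆ := by
      simp only [commutatorElement_def]; group
    rwa [e] at h5
  -- the quotient
  set f : G →* G ⧸ Cc L := QuotientGroup.mk' (Cc L) with hf
  have hfs : Function.Surjective f := QuotientGroup.mk'_surjective _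
  have hf1 : ∀ g, f g = 1 ↔ g ∈ Cc L := fun g => QuotientGroup.eq_one_iff g
  have hfeq : ∀ a b, f a = f b ↔ a⁻¹ * b ∈ Cc L := fun a b => QuotientGroup.eq
  obtain ⟨SQ, hS', hF'⟩ : ∃ SQ : Finset (G ⧸ Cc L),
      Subgroup.closure (SQ : Set (G ⧸ Cc L)) = ⊤ ∧ FolExp SQ := by
    exact hF.quot' f hfs hS
  have hfin : ∀ a b : ℤ, (Wn t A a b : Set G).Finite := fun a b =>
    Wn_fin t A L hAL hlf hAfin a b
  have hfinQ : ∀ a b : ℤ, (Wn (f t) (A.map f) a b : Set (G ⧸ Cc L)).Finite := by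
    intro a b
    rw [← Wn_map, Subgroup.coe_map]
    exact (hfin a b).image _
  have hcapQ : ∀ a b a' b' : ℤ, b + 2 * s0 ≤ a' →
      Wn (f t) (A.map f) a b ⊓ Wn (f t) (A.map f) a' b' = ⊥ := by
    intro a b a' b' h
    rw [← Wn_map, ← Wn_map, eq_bot_iff]
    rintro q ⟨⟨y, hy, hyq⟩, ⟨x, hx, hxq⟩⟩
    rw [Subgroup.mem_bot, ← hxq]
    refine (hf1 x).2 (Wn_cap t A s0 hfar L hAL hcov a b a' b' h x y hx hy ?_)
    exact (hfeq y x).1 (hyq.trans hxq.symm)
  obtain ⟨M, hM1, hM⟩ := Wn_card (f t) (A.map f) s0 hfinQ hcapQ SQ hS' hF'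
  have hcommQ : ∀ i j : ℤ, (s0 : ℤ) ≤ |i - j| → ∀ x ∈ A.map f, ∀ y ∈ A.map f,
      Commute ((f t) ^ i * x * (f t) ^ (-i)) ((f t) ^ j * y * (f t) ^ (-j)) := by
    rintro i j hij _ ⟨x, hx, rfl⟩ _ ⟨y, hy, rfl⟩
    have h1 := hfar i j hij x hx y hy
    have hxL : t ^ i * x * t ^ (-i) ∈ L := Wd_le t A L hAL i i (Wn_mem t A le_rfl le_rfl hx)
    have hyL : t ^ j * y * t ^ (-j) ∈ L := Wd_le t A L hAL j j (Wn_mem t A le_rfl le_rfl hy)
    have h2 : ⁅t ^ i * x * t ^ (-i), t ^ j * y * t ^ (-j)⁆ ∈ Cc L := by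
      rw [mem_Cc]
      refine ⟨?_, fun w _ => ?_⟩
      · rw [commutatorElement_def]
        exact L.mul_mem (L.mul_mem (L.mul_mem hxL hyL) (L.inv_mem hxL)) (L.inv_mem hyL)
      · have : ⁅w, ⁅t ^ i * x * t ^ (-i), t ^ j * y * t ^ (-j)⁆⁆ = 1 := by
          rw [commutatorElement_eq_one_iff_mul_comm]
          exact Subgroup.mem_center_iff.1 h1 w
        rw [this]; exact Subgroup.one_mem _
    have h3 := (hf1 _).2 h2
    rw [map_commutatorElement, commutatorElement_eq_one_iff_commute] at h3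
    rw [map_mul, map_mul, map_mul, map_mul, map_zpow, map_zpow, map_zpow, map_zpow] at h3
    exact h3
  obtain ⟨j, hj, s, hs, hplat⟩ := exists_plateau (f t) (A.map f) s0 hs0 hfinQ hcommQ M hM1 hM
    (2 * M * s0 + s0) (by omega)
  set B : Subgroup G := Wn t A 0 (j + 1) with hB
  have hAB : A ≤ B := by
    intro x hx
    have h1 := Wn_mem t A (a := 0) (b := j + 1) (i := 0) le_rfl (by positivity) hx
    simpa using h1
  have hloc : ∀ g ∈ Wn t A 0 (j + 1), ∃ u ∈ Wn t A 0 j, ∃ v ∈ Wn t A (j + 1 - s) (j + 1),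
      ∃ c ∈ B, c ∈ Cc L ∧ g = u * v * c := by
    intro g hg
    obtain ⟨u', hu', v', hv', he⟩ := hplat (f g) (by
      rw [← Wn_map]; exact ⟨g, hg, rfl⟩)
    rw [← Wn_map] at hu' hv'
    obtain ⟨u, hu, rfl⟩ := hu'
    obtain ⟨v, hv, rfl⟩ := hv'
    refine ⟨u, hu, v, hv, (u * v)⁻¹ * g, ?_, ?_, by group⟩
    · refine Subgroup.mul_mem _ (Subgroup.inv_mem _ (Subgroup.mul_mem _ ?_ ?_)) hg
      · exact Wn_mono t A le_rfl (by omega) hu
      · exact Wn_mono t A (by omega) le_rfl hv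
    · rw [← hfeq, map_mul]
      exact he.symm
  have hBfin : (B : Set G).Finite := hfin _ _
  set Bf : Finset G := hBfin.toFinset with hBf0
  have hBf : ∀ b, b ∈ Bf ↔ b ∈ B := fun b => by rw [hBf0, Set.Finite.mem_toFinset]; rfl
  obtain ⟨cB, hcB⟩ : ∃ cB, ∀ b ∈ B, WL S cB b := by
    choose f' hf' using fun g => exists_WL hS g
    refine ⟨Bf.sup f', fun b hb => (hf' b).mono ?_⟩
    exact Finset.le_sup (f := f') ((hBf b).2 hb)
  have hlen := Hs_len (S := S) t A s0 hfar B hAB L hAL j s (by omega) hB hloc Bf hBf ct cB hct hcB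
  refine an_one hS π t htt (fun n => Hs t A (m * n)) ?_ ?_
    ((3 * (cB + 2 * ct) + Bf.card * (8 * (cB + 2 * ct + 1)) * (j + 2)) * (m + 1)) ?_
  · intro n g hg h0
    have h1 := hHsWL n g hg
    rw [h0] at h1
    simpa using h1
  · intro n g hg
    rw [hker]
    rw [Hs_eq] at hg
    exact Wd_le t A L hAL _ _ hg
  · intro n g hg
    rw [Hs_eq] at hg
    refine (hlen (m * n) g hg).mono ?_
    calc (3 * (cB + 2 * ct) + Bf.card * (8 * (cB + 2 * ct + 1)) * (j + 2)) * (m * n + 1) ≤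
        (3 * (cB + 2 * ct) + Bf.card * (8 * (cB + 2 * ct + 1)) * (j + 2)) * ((m + 1) * (n + 1)) :=
          Nat.mul_le_mul_left _ (by nlinarith)
      _ = _ := by ring

end Pool.Agent.H684AN
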