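import Pool.Agent.H684AN.Far4
import Pool.Agent.H684AN.CritK
import Pool.Agent.H684AN.Vir

set_option autoImplicit false

/-!
Entropy estimate for separated translates of a finite subgroup of the kernel, and the resulting
dichotomy when the quotient is free abelian of rank at least two.
-/

open scoped commutatorElement

namespace Pool.Agent.H684AN

variable {G : Type*} [Group G]

theorem comm_conj_center (g w x : G) :
    ⁅g * w * g⁻¹, g * x * g⁻¹⁆ ∈ Subgroup.center G ↔ ⁅w, x⁆ ∈ Subgroup.center G := by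
  have e : ⁅g * w * g⁻¹, g * x * g⁻¹⁆ = g * ⁅w, x⁆ * g⁻¹ := by
    simp only [commutatorElement_def]; group
  rw [e]
  constructor
  · intro h
    have := (inferInstance : (Subgroup.center G).Normal).conj_mem _ h g⁻¹
    have e2 : g⁻¹ * (g * ⁅w, x⁆ * g⁻¹) * g⁻¹⁻¹ = ⁅w, x⁆ := by group
    rwa [e2] at this
  · intro h
    exact (inferInstance : (Subgroup.center G).Normal).conj_mem _ h g

theorem comm_far_center (p q w x : G) (h : ⁅w, (p⁻¹ * q) * x * (p⁻¹ * q)⁻¹⁆ ∈ Subgroup.center G) :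
    ⁅p * w * p⁻¹, q * x * q⁻¹⁆ ∈ Subgroup.center G := by
  have e : q * x * q⁻¹ = p * ((p⁻¹ * q) * x * (p⁻¹ * q)⁻¹) * p⁻¹ := by group
  rw [e, comm_conj_center]
  exact h

theorem sep_ent (L : Subgroup G) [L.Normal] (A : Subgroup G) (hAL : A ≤ L)
    (hAf : (A : Set G).Finite) (W : Set G) (hWL : W ⊆ L)
    (hW : ∀ a ∈ A, (∀ w ∈ W, ⁅w, a⁆ ∈ Subgroup.center G) → a ∈ Cc L)
    (S : Finset G) (hS : Subgroup.closure (S : Set G) = ⊤) (hF : FolExp S) :
    ∃ C : ℕ, 1 ≤ C ∧ ∀ (K R : ℕ) (pos : ℕ → G), (∀ i < K, WL S R (pos i)) →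
      (∀ i j, i ≠ j → ∀ w ∈ W, ∀ a ∈ A,
        ⁅pos i * w * (pos i)⁻¹, pos j * a * (pos j)⁻¹⁆ ∈ Subgroup.center G) →
      ((QuotientGroup.mk' (Cc L)) '' (A : Set G)).ncard ^ K ≤ 2 ^ K * C ^ (R + 1) := by
  classical
  set f : G →* G ⧸ Cc L := QuotientGroup.mk' (Cc L) with hf
  have hfs : Function.Surjective f := QuotientGroup.mk'_surjective _
  have hf1 : ∀ g, f g = 1 ↔ g ∈ Cc L := fun g => QuotientGroup.eq_one_iff g
  have hfeq : ∀ a b, f a = f b ↔ a⁻¹ * b ∈ Cc L := fun a b => QuotientGroup.eq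
  obtain ⟨SQ, hSQ, C0, hC0⟩ := hF.quot' f hfs hS
  choose len hlen using fun g => exists_WL hSQ g
  set c : ℕ := S.sup (fun s => len (f s)) with hc0
  have hc : ∀ s ∈ S, WL SQ c (f s) := fun s hs =>
    (hlen (f s)).mono (Finset.le_sup (f := fun s => len (f s)) hs)
  set Af : Finset G := hAf.toFinset with hAf0
  have hAfm : ∀ a, a ∈ Af ↔ a ∈ A := fun a => by rw [hAf0, Set.Finite.mem_toFinset]; rfl
  set lA : ℕ := Af.sup (fun a => len (f a)) with hlA0
  have hlA : ∀ a ∈ A, WL SQ lA (f a) := fun a ha =>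
    (hlen (f a)).mono (Finset.le_sup (f := fun a => len (f a)) ((hAfm a).2 ha))
  refine ⟨(C0 + 1) ^ (8 * (2 * c + lA + 1)), Nat.one_le_iff_ne_zero.2 (by positivity), ?_⟩
  intro K R pos hR hsep
  set l : ℕ := 2 * (c * R) + lA + 1 with hl
  obtain ⟨F, hFol, hFc⟩ := hC0 (4 * l) (by omega)
  rw [isFol_iff] at hFol
  set H : ℕ → Subgroup (G ⧸ Cc L) := fun k => (A.map (MulAut.conj (pos k)).toMonoidHom).map f
    with hH
  have hHm : ∀ k x, x ∈ H k ↔ ∃ a ∈ A, x = f (pos k * a * (pos k)⁻¹) := by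
    intro k x
    rw [hH]
    constructor
    · rintro ⟨_, ⟨a, ha, rfl⟩, rfl⟩
      exact ⟨a, ha, rfl⟩
    · rintro ⟨a, ha, rfl⟩
      exact ⟨_, ⟨a, ha, rfl⟩, rfl⟩
  set Γ : ℕ → Subgroup (G ⧸ Cc L) := fun k =>
    Subgroup.closure {q | ∃ i < k, ∃ a ∈ A, q = f (pos i * a * (pos i)⁻¹)} with hΓ
  set B : ℕ → Finset (G ⧸ Cc L) := fun k => (Af.image f).image
    (fun x => f (pos k) * x * (f (pos k))⁻¹) with hB
  set q : ℕ := (f '' (A : Set G)).ncard with hq
  have hqc : (Af.image f).card = q := by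
    rw [hq, ← Set.ncard_coe_finset, Finset.coe_image]
    congr 2
    ext a
    exact hAfm a
  have h := ent_block F hFol.1 Γ H
    (fun k => Subgroup.closure_mono (by
      rintro x ⟨i, hi, a, ha, rfl⟩
      exact ⟨i, by omega, a, ha, rfl⟩))
    (fun k x hx => by
      obtain ⟨a, ha, rfl⟩ := (hHm k x).1 hx
      exact Subgroup.subset_closure ⟨k, Nat.lt_succ_self k, a, ha, rfl⟩)
    (fun k => by
      rw [eq_bot_iff]
      rintro x ⟨hx1, hx2⟩
      obtain ⟨a, ha, rfl⟩ := (hHm k x).1 hx2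
      rw [Subgroup.mem_bot, hf1]
      have h1 : a ∈ Cc L := by
        refine hW a ha (fun w hw => ?_)
        rw [← comm_conj_center (pos k)]
        have hwk : pos k * w * (pos k)⁻¹ ∈ L :=
          (inferInstance : L.Normal).conj_mem w (hWL hw) (pos k)
        have h2 : Γ k ≤ (Dc (pos k * w * (pos k)⁻¹)).map f := by
          rw [hΓ, Subgroup.closure_le]
          rintro _ ⟨i, hi, b, hb, rfl⟩
          exact ⟨_, hsep k i (by omega) w hw b hb, rfl⟩
        obtain ⟨y, hy, hyx⟩ := h2 hx1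
        have h3 := (mem_Cc L _).1 ((hfeq y (pos k * a * (pos k)⁻¹)).1 hyx)
        have h4 : y⁻¹ * (pos k * a * (pos k)⁻¹) ∈ Dc (pos k * w * (pos k)⁻¹) := h3.2 _ hwk
        have h5 := Subgroup.mul_mem _ hy h4
        rw [mul_inv_cancel_left] at h5
        exact h5
      exact (inferInstance : (Cc L).Normal).conj_mem a h1 (pos k)) B
    (fun k x => by
      rw [hB, hHm]
      simp only [Finset.mem_image]
      constructor
      · rintro ⟨_, ⟨a, ha, rfl⟩, rfl⟩
        exact ⟨a, (hAfm a).1 ha, by rw [map_mul, map_mul, map_inv]⟩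
      · rintro ⟨a, ha, rfl⟩
        exact ⟨_, ⟨a, (hAfm a).2 ha, rfl⟩, by rw [map_mul, map_mul, map_inv]⟩) q
    (fun k => by
      rw [hB, ← hqc]
      simp only
      apply Finset.card_image_of_injective
      intro x y hxy
      exact mul_left_cancel (mul_right_cancel hxy)) K
    (by
      intro k hk x hx
      have hx' : ∃ a ∈ A, x = f (pos k * a * (pos k)⁻¹) := by
        rw [hB] at hx
        simp only [Finset.mem_image] at hx
        obtain ⟨_, ⟨a, ha, rfl⟩, rfl⟩ := hx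
        exact ⟨a, (hAfm a).1 ha, by rw [map_mul, map_mul, map_inv]⟩
      obtain ⟨a, ha, rfl⟩ := hx'
      have hp : WL SQ (c * R) (f (pos k)) := WL.hom f hc (hR k hk)
      have h3 : WL SQ l (f (pos k * a * (pos k)⁻¹)) := by
        rw [map_mul, map_mul, map_inv]
        exact ((hp.mul (hlA a ha)).mul hp.inv).mono (by rw [hl]; omega)
      have h4 := move_le SQ F l _ h3
      have h5 : 4 * (l * (bd SQ F).card) ≤ F.card := by
        rw [← mul_assoc]; exact hFol.2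
      refine le_trans (Nat.mul_le_mul_left 4 ?_) h5
      convert h4)
  have hFc' : F.card ≤ (C0 + 1) ^ (4 * l) := hFc.trans (Nat.pow_le_pow_left (Nat.le_succ C0) _)
  calc q ^ K ≤ 2 ^ K * F.card ^ 2 := h
    _ ≤ 2 ^ K * ((C0 + 1) ^ (4 * l)) ^ 2 := Nat.mul_le_mul_left _ (Nat.pow_le_pow_left hFc' 2)
    _ = 2 ^ K * (C0 + 1) ^ (8 * l) := by rw [← pow_mul]; ring_nf
    _ ≤ 2 ^ K * ((C0 + 1) ^ (8 * (2 * c + lA + 1))) ^ (R + 1) := by
      refine Nat.mul_le_mul_left _ ?_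
      rw [← pow_mul]
      refine Nat.pow_le_pow_right (by omega) ?_
      rw [hl]
      have : 2 * (c * R) + lA + 1 ≤ (2 * c + lA + 1) * (R + 1) := by nlinarith [Nat.zero_le (lA * R)]
      calc 8 * (2 * (c * R) + lA + 1) ≤ 8 * ((2 * c + lA + 1) * (R + 1)) :=
            Nat.mul_le_mul_left _ this
        _ = _ := by ring

theorem far_dich {k : ℕ} (hk2 : 2 ≤ k) (S : Finset G) (hS : Subgroup.closure (S : Set G) = ⊤)
    (L : Subgroup G) [L.Normal]
    (hloc : ∀ E : Finset G, (E : Set G) ⊆ L → (Subgroup.closure (E : Set G) : Set G).Finite)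
    (π : G →* Multiplicative (Fin k → ℤ)) (hsurj : ∀ v : Fin k → ℤ, ∃ g, hk π g = v)
    (hfar : ∀ x ∈ L, ∀ y ∈ L, ∃ m : ℕ, ∀ g : G, (∃ i, (m : ℤ) ≤ |hk π g i|) →
      ⁅x, g * y * g⁻¹⁆ ∈ Subgroup.center G)
    (hF : FolExp S) : ∀ x ∈ L, ∀ y ∈ L, ⁅x, y⁆ ∈ Subgroup.center G := by
  classical
  by_contra hcon
  push Not at hcon
  obtain ⟨w, hw, x, hx, hwx⟩ := hcon
  choose! M hM using hfar
  have h0k : 0 < k := by omega
  have h1k : 1 < k := by omega
  obtain ⟨g1, hg1⟩ := hsurj (fun _ => (M w x : ℤ))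
  set y : G := g1 * x * g1⁻¹ with hy
  have hyL : y ∈ L := (inferInstance : L.Normal).conj_mem x hx g1
  have hwy : ⁅w, y⁆ ∈ Subgroup.center G := by
    refine hM w hw x hx g1 ⟨⟨0, h0k⟩, ?_⟩
    rw [hg1]
    exact le_abs_self _
  set A : Subgroup G := Subgroup.closure (({x, y} : Finset G) : Set G) with hA
  have hxyL : (({x, y} : Finset G) : Set G) ⊆ L := by
    intro z hz
    simp only [Finset.coe_insert, Finset.coe_singleton, Set.mem_insert_iff,
      Set.mem_singleton_iff] at hz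
    rcases hz with rfl | rfl
    · exact hx
    · exact hyL
  have hAL : A ≤ L := (Subgroup.closure_le L).2 hxyL
  have hAf : (A : Set G).Finite := hloc _ hxyL
  have hxA : x ∈ A := Subgroup.subset_closure (by simp)
  have hyA : y ∈ A := Subgroup.subset_closure (by simp)
  have hxC : x ∉ Cc L := fun h => hwx (((mem_Cc L x).1 h).2 w hw)
  have hyC : y ∉ Cc L := by
    intro h
    have h1 := (inferInstance : (Cc L).Normal).conj_mem y h g1⁻¹
    have e : g1⁻¹ * y * g1⁻¹⁻¹ = x := by rw [hy]; group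
    rw [e] at h1
    exact hxC h1
  have hxyC : y⁻¹ * x ∉ Cc L := by
    intro h
    have h1 : y⁻¹ * x ∈ Dc w := ((mem_Cc L _).1 h).2 w hw
    have h2 : y ∈ Dc w := hwy
    have h3 := Subgroup.mul_mem _ h2 h1
    rw [mul_inv_cancel_left] at h3
    exact hwx h3
  have hq : 3 ≤ ((QuotientGroup.mk' (Cc L)) '' (A : Set G)).ncard := by
    have h1 : (({QuotientGroup.mk' (Cc L) 1, QuotientGroup.mk' (Cc L) x,
        QuotientGroup.mk' (Cc L) y} : Finset (G ⧸ Cc L)) : Set (G ⧸ Cc L)).ncard = 3 := by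
      rw [Set.ncard_coe_finset]
      refine Finset.card_eq_three.2 ⟨_, _, _, ?_, ?_, ?_, rfl⟩
      · intro h
        apply hxC
        have := (QuotientGroup.eq (s := Cc L) (a := (1 : G)) (b := x)).1 h
        simpa using this
      · intro h
        apply hyC
        have := (QuotientGroup.eq (s := Cc L) (a := (1 : G)) (b := y)).1 h
        simpa using this
      · intro h
        apply hxyC
        exact (QuotientGroup.eq (s := Cc L) (a := y) (b := x)).1 h.symm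
    rw [← h1]
    refine Set.ncard_le_ncard ?_ (hAf.image _)
    intro z hz
    simp only [Finset.coe_insert, Finset.coe_singleton, Set.mem_insert_iff,
      Set.mem_singleton_iff] at hz
    rcases hz with rfl | rfl | rfl
    · exact ⟨1, Subgroup.one_mem _, rfl⟩
    · exact ⟨x, hxA, rfl⟩
    · exact ⟨y, hyA, rfl⟩
  have hwex : ∀ a : G, ∃ w' ∈ L, (a ∈ L → ⁅w', a⁆ ∈ Subgroup.center G → a ∈ Cc L) := by
    intro a
    by_cases ha : a ∈ L ∧ a ∉ Cc L
    · have h1 : ¬ ∀ x ∈ L, ⁅x, a⁆ ∈ Subgroup.center G := fun h => ha.2 ((mem_Cc L a).2 ⟨ha.1, h⟩)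
      push Not at h1
      obtain ⟨w', hw', h2⟩ := h1
      exact ⟨w', hw', fun _ h => absurd h h2⟩
    · refine ⟨1, L.one_mem, fun h1 _ => ?_⟩
      by_contra h2
      exact ha ⟨h1, h2⟩
  choose wf hwfL hwf using hwex
  set Af : Finset G := hAf.toFinset with hAf0
  have hAfm : ∀ a, a ∈ Af ↔ a ∈ A := fun a => by rw [hAf0, Set.Finite.mem_toFinset]; rfl
  set m : ℕ := (Af ×ˢ Af).sup (fun p => M (wf p.1) p.2) + 1 with hm
  have hmle : ∀ a ∈ A, ∀ b ∈ A, M (wf a) b ≤ m := by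
    intro a ha b hb
    have := Finset.le_sup (f := fun p : G × G => M (wf p.1) p.2) (s := Af ×ˢ Af) (b := (a, b))
      (Finset.mem_product.2 ⟨(hAfm a).2 ha, (hAfm b).2 hb⟩)
    simp only at this
    omega
  obtain ⟨C, hC1, hC⟩ := sep_ent L A hAL hAf (wf '' (A : Set G))
    (by rintro _ ⟨a, _, rfl⟩; exact hwfL a)
    (fun a ha h => hwf a (hAL ha) (h _ ⟨a, ha, rfl⟩)) S hS hF
  obtain ⟨T0, hT0⟩ := hsurj (fun i => if i = ⟨0, h0k⟩ then 1 else 0)
  obtain ⟨T1, hT1⟩ := hsurj (fun i => if i = ⟨1, h1k⟩ then 1 else 0)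
  obtain ⟨c0, hc0⟩ := exists_WL hS T0
  obtain ⟨c1, hc1⟩ := exists_WL hS T1
  set e0 : ℕ := 2 * m * (c0 + c1) with he0
  set R : ℕ := C * (e0 + 1) + 1 with hR
  have hR0 : 0 < 2 * R := by omega
  set pos : ℕ → G := fun i => T0 ^ (((i / (2 * R) * m : ℕ) : ℤ)) * T1 ^ (((i % (2 * R) * m : ℕ) : ℤ))
    with hpos
  have hp0 : ∀ i, hk π (pos i) ⟨0, h0k⟩ = ((i / (2 * R) * m : ℕ) : ℤ) := by
    intro i
    rw [hpos]
    simp only [hk_mul, hk_zpow, hT0, hT1, Pi.add_apply, Pi.smul_apply, smul_eq_mul]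
    have : (⟨0, h0k⟩ : Fin k) ≠ ⟨1, h1k⟩ := by simp
    simp [this]
  have hp1 : ∀ i, hk π (pos i) ⟨1, h1k⟩ = ((i % (2 * R) * m : ℕ) : ℤ) := by
    intro i
    rw [hpos]
    simp only [hk_mul, hk_zpow, hT0, hT1, Pi.add_apply, Pi.smul_apply, smul_eq_mul]
    have : (⟨1, h1k⟩ : Fin k) ≠ ⟨0, h0k⟩ := by simp
    simp [this]
  have hsepnat : ∀ a b : ℕ, a ≠ b → (m : ℤ) ≤ |-((a * m : ℕ) : ℤ) + ((b * m : ℕ) : ℤ)| := by
    intro a b hab
    have e : -((a * m : ℕ) : ℤ) + ((b * m : ℕ) : ℤ) = ((b : ℤ) - a) * m := by push_cast; ring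
    rw [e, abs_mul, abs_of_nonneg (by positivity : (0 : ℤ) ≤ m)]
    have h1 : (1 : ℤ) ≤ |(b : ℤ) - a| := by
      apply Int.one_le_abs
      omega
    nlinarith [(by positivity : (0 : ℤ) ≤ m)]
  have hfin := hC ((2 * R) * (2 * R)) (2 * R * e0) pos (by
      intro i hi
      have h1 : i / (2 * R) < 2 * R := Nat.div_lt_of_lt_mul hi
      have h2 : i % (2 * R) < 2 * R := Nat.mod_lt _ hR0
      refine ((hc0.zpow _).mul (hc1.zpow _)).mono ?_
      simp only [Int.natAbs_natCast]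
      calc i / (2 * R) * m * c0 + i % (2 * R) * m * c1 ≤ 2 * R * m * c0 + 2 * R * m * c1 :=
            Nat.add_le_add (Nat.mul_le_mul_right _ (Nat.mul_le_mul_right _ h1.le))
              (Nat.mul_le_mul_right _ (Nat.mul_le_mul_right _ h2.le))
        _ = R * e0 := by rw [he0]; ring
        _ ≤ 2 * R * e0 := Nat.mul_le_mul_right _ (by omega)) (by
      rintro i j hij _ ⟨a, ha, rfl⟩ b hb
      apply comm_far_center
      refine hM (wf a) (hwfL a) b (hAL hb) _ ?_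
      have hml : (M (wf a) b : ℤ) ≤ m := by exact_mod_cast hmle a ha b hb
      by_cases h : i / (2 * R) = j / (2 * R)
      · have h' : i % (2 * R) ≠ j % (2 * R) := by
          intro h''
          apply hij
          rw [← Nat.div_add_mod i (2 * R), ← Nat.div_add_mod j (2 * R), h, h'']
        refine ⟨⟨1, h1k⟩, hml.trans ?_⟩
        rw [hk_mul, hk_inv, Pi.add_apply, Pi.neg_apply, hp1, hp1]
        exact hsepnat _ _ h'
      · refine ⟨⟨0, h0k⟩, hml.trans ?_⟩
        rw [hk_mul, hk_inv, Pi.add_apply, Pi.neg_apply, hp0, hp0]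
        exact hsepnat _ _ h)
  have h3 : 3 ^ ((2 * R) * (2 * R)) ≤ 2 ^ ((2 * R) * (2 * R)) * C ^ (2 * R * e0 + 1) :=
    (Nat.pow_le_pow_left hq _).trans hfin
  have h4 : C ^ (2 * R * e0 + 1) ≤ 2 ^ (2 * (R * R)) := by
    calc C ^ (2 * R * e0 + 1) ≤ (2 ^ C) ^ (2 * R * e0 + 1) :=
          Nat.pow_le_pow_left Nat.lt_two_pow_self.le _
      _ = 2 ^ (C * (2 * R * e0 + 1)) := by rw [← pow_mul]
      _ ≤ 2 ^ (2 * (R * R)) := by
        refine Nat.pow_le_pow_right (by norm_num) ?_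
        have h5 : C * (e0 + 1) ≤ R := by omega
        calc C * (2 * R * e0 + 1) ≤ C * (2 * R * e0 + 2 * R) :=
              Nat.mul_le_mul_left _ (by omega)
          _ = 2 * (R * (C * (e0 + 1))) := by ring
          _ ≤ 2 * (R * R) := Nat.mul_le_mul_left _ (Nat.mul_le_mul_left _ h5)
  have h6 : (81 : ℕ) ^ (R * R) ≤ 64 ^ (R * R) := by
    calc (81 : ℕ) ^ (R * R) = 3 ^ ((2 * R) * (2 * R)) := by
          rw [show (81 : ℕ) = 3 ^ 4 by norm_num, ← pow_mul]; ring_nf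
      _ ≤ 2 ^ ((2 * R) * (2 * R)) * C ^ (2 * R * e0 + 1) := h3
      _ ≤ 2 ^ ((2 * R) * (2 * R)) * 2 ^ (2 * (R * R)) := Nat.mul_le_mul_left _ h4
      _ = 64 ^ (R * R) := by
        rw [← pow_add, show (64 : ℕ) = 2 ^ 6 by norm_num, ← pow_mul]
        congr 1
        ring
  have h7 : (64 : ℕ) ^ (R * R) < 81 ^ (R * R) :=
    Nat.pow_lt_pow_left (by norm_num) (by positivity)
  omega

end Pool.Agent.H684AN
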