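import Pool.Agent.H684AN.Far5
import Pool.Agent.H684AN.Cen7

set_option autoImplicit false

/-!
The equivalence between an exponential Folner function and finite Assouad-Nagata dimension for
extensions of a locally finite group by a free abelian group, when far commutators are central.
-/

open scoped commutatorElement

namespace Pool.Agent.H684AN

variable {G : Type*} [Group G] {k : ℕ}

theorem conv_k (S : Finset G) (hS : Subgroup.closure (S : Set G) = ⊤) (L : Subgroup G)
    (hloc : ∀ E : Finset G, (E : Set G) ⊆ L → (Subgroup.closure (E : Set G) : Set G).Finite)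
    (π : G →* Multiplicative (Fin k → ℤ)) (hker : ∀ g, hk π g = 0 ↔ g ∈ L)
    (hsurj : ∀ v : Fin k → ℤ, ∃ g : G, hk π g = v)
    (h : ∃ d, ANLE S d) : FolExp S := by
  classical
  choose τ hτ using hsurj
  set T : ℕ → G := fun j => if j < k then τ (dv k j) else 1 with hTdef
  have hTd : ∀ j, j ≤ k → hk π (T j) = dv k j := by
    intro j hj
    rw [hTdef]
    simp only
    split_ifs with h
    · exact hτ _
    · rw [hk_one]
      funext i
      have := i.2
      rw [dv, if_neg (by omega)]; rfl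
  have hT : ∀ j, j < k → ∀ i, hn π (T j) i = if i = j then 1 else 0 := by
    intro j hj i
    rw [hn, hTd j hj.le]
    unfold dv
    by_cases hi : i < k
    · rw [dif_pos hi]
    · rw [dif_neg hi, if_neg (by omega)]
  have hs : ∀ v : Fin k → ℤ, hk π (sv T v) = v := by
    intro v
    funext i
    have h1 := hn_sec π T hT (ext0 v) k le_rfl i
    rw [if_pos i.2, hn, dif_pos i.2, ext0, dif_pos i.2] at h1
    exact h1
  set S1 : Finset G := S.image (fun x => x * (sv T (hk π x))⁻¹) with hS1
  set S' : Finset G := S1 ∪ (Finset.range k).image T with hS'def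
  have hTS : ∀ j, j < k → T j ∈ S' := by
    intro j hj
    rw [hS'def]
    exact Finset.mem_union_right _ (Finset.mem_image_of_mem _ (Finset.mem_range.2 hj))
  have hTl : ∀ j, j < k → WL S' 1 (T j) := fun j hj => WL.of_mem (hTS j hj)
  have hm : ∀ x ∈ S', ∀ i, |hk π x i| ≤ 1 := by
    intro x hx i
    rw [hS'def, Finset.mem_union] at hx
    rcases hx with hx | hx
    · rw [hS1, Finset.mem_image] at hx
      obtain ⟨y, _, rfl⟩ := hx
      rw [hk_mul, hk_inv, hs]; simp
    · rw [Finset.mem_image] at hx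
      obtain ⟨j, hj, rfl⟩ := hx
      rw [hTd j (Finset.mem_range.1 hj).le, dv]; split_ifs <;> simp
  have hsecmem : ∀ (v : ℕ → ℤ) (j : ℕ), j ≤ k → sec T v j ∈ Subgroup.closure (S' : Set G) := by
    intro v j
    induction j with
    | zero => intro _; exact Subgroup.one_mem _
    | succ j ih =>
      intro hj
      rw [sec]
      exact Subgroup.mul_mem _ (ih (by omega))
        (Subgroup.zpow_mem _ (Subgroup.subset_closure (hTS j (by omega))) _)
  have hS' : Subgroup.closure (S' : Set G) = ⊤ := by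
    rw [eq_top_iff, ← hS, Subgroup.closure_le]
    intro x hx
    have h1 : x = (x * (sv T (hk π x))⁻¹) * sv T (hk π x) := by group
    rw [SetLike.mem_coe, h1]
    refine Subgroup.mul_mem _ (Subgroup.subset_closure ?_) (hsecmem _ k le_rfl)
    rw [Finset.mem_coe, hS'def, hS1]
    exact Finset.mem_union_left _ (Finset.mem_image_of_mem _ hx)
  have hsl : ∀ (v : Fin k → ℤ) (N : ℕ), (∀ i, |v i| ≤ N) → WL S' (k * N) (sv T v) := by
    intro v N hv
    refine sec_len T S' N (ext0 v) k (fun i hi => hTl i hi) (fun i hi => ?_)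
    rw [ext0, dif_pos hi]; exact hv _
  set W : ℕ → Subgroup G := fun n => Subgroup.closure {g | WL S' n g ∧ g ∈ L} with hW
  have hWfin : ∀ n, (W n : Set G).Finite := by
    intro n
    obtain ⟨B, hB, _⟩ := exists_ball S' n
    have h1 := hloc (B.filter (fun g => g ∈ L)) (fun x hx => by
      rw [Finset.mem_coe, Finset.mem_filter] at hx; exact hx.2)
    refine h1.subset ?_
    refine Subgroup.closure_mono ?_
    rintro g ⟨hg, hgL⟩
    rw [Finset.mem_coe, Finset.mem_filter]
    exact ⟨(hB g).2 hg, hgL⟩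
  have hkerW : ∀ (n : ℕ) (g : G), g ∈ W n → hk π g = 0 := by
    intro n g hg
    rw [hker]
    have : W n ≤ L := by
      rw [hW, Subgroup.closure_le]
      rintro x ⟨_, hx⟩
      exact hx
    exact this hg
  obtain ⟨d, hd⟩ := h
  have hd' : ANLE S' d := hd.change hS hS'
  have hF' : FolExp S' := by
    refine nowak S' hS' d hd' (fun n hn => ?_)
    obtain ⟨F, hF, _⟩ := fol_k π hm (sv T) hs k hsl W
      (fun n g hg h0 => Subgroup.subset_closure ⟨hg, (hker g).1 h0⟩) hkerW n hn
      (hWfin (2 * (k * (2 * (k + 1) * n)) + 1)).toFinset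
      (fun g => by rw [Set.Finite.mem_toFinset]; rfl)
    exact ⟨F, hF⟩
  exact hF'.change hS'

theorem main_Far (S : Finset G) (hS : Subgroup.closure (S : Set G) = ⊤) (L : Subgroup G)
    [L.Normal]
    (hloc : ∀ E : Finset G, (E : Set G) ⊆ L → (Subgroup.closure (E : Set G) : Set G).Finite)
    (hfar : ∀ x ∈ L, ∀ y ∈ L, ∃ E : Set (G ⧸ L), E.Finite ∧ ∀ g : G,
      (QuotientGroup.mk g : G ⧸ L) ∉ E → ⁅x, g * y * g⁻¹⁆ ∈ Subgroup.center G)
    (hq : Nonempty ((G ⧸ L) ≃* Multiplicative (Fin k → ℤ))) :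
    FolExp S ↔ ∃ d, ANLE S d := by
  classical
  obtain ⟨e⟩ := hq
  set π : G →* Multiplicative (Fin k → ℤ) := e.toMonoidHom.comp (QuotientGroup.mk' L) with hπ
  have hker : ∀ g, hk π g = 0 ↔ g ∈ L := by
    intro g
    have h1 : π g = 1 ↔ g ∈ L := by
      rw [hπ]
      simp only [MonoidHom.comp_apply, MulEquiv.toMonoidHom_eq_coe, MonoidHom.coe_coe,
        QuotientGroup.mk'_apply]
      rw [map_eq_one_iff e e.injective, QuotientGroup.eq_one_iff]
    rw [← h1, hk]
    exact Iff.rfl
  have hsurj : ∀ v : Fin k → ℤ, ∃ g : G, hk π g = v := by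
    intro v
    obtain ⟨q, hq⟩ := e.surjective (Multiplicative.ofAdd v)
    obtain ⟨g, rfl⟩ := QuotientGroup.mk'_surjective L q
    exact ⟨g, by rw [hk, hπ]; simp only [MonoidHom.comp_apply]; exact congrArg Multiplicative.toAdd hq⟩
  have hfarπ : ∀ x ∈ L, ∀ y ∈ L, ∃ m : ℕ, ∀ g : G, (∃ i, (m : ℤ) ≤ |hk π g i|) →
      ⁅x, g * y * g⁻¹⁆ ∈ Subgroup.center G := by
    intro x hx y hy
    obtain ⟨E, hE, hE'⟩ := hfar x hx y hy
    refine ⟨hE.toFinset.sup (fun q => Finset.univ.sup
      (fun i => ((Multiplicative.toAdd (e q)) i).natAbs)) + 1, fun g hg => hE' g (fun hgE => ?_)⟩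
    obtain ⟨i, hi⟩ := hg
    have h1 : ((Multiplicative.toAdd (e (QuotientGroup.mk g : G ⧸ L))) i).natAbs ≤
        hE.toFinset.sup (fun q => Finset.univ.sup
          (fun i => ((Multiplicative.toAdd (e q)) i).natAbs)) :=
      (Finset.le_sup (f := fun i => ((Multiplicative.toAdd (e (QuotientGroup.mk g : G ⧸ L))) i).natAbs)
        (Finset.mem_univ i)).trans (Finset.le_sup (f := fun q => Finset.univ.sup
          (fun i => ((Multiplicative.toAdd (e q)) i).natAbs)) (hE.mem_toFinset.2 hgE))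
    have h2 : hk π g i = (Multiplicative.toAdd (e (QuotientGroup.mk g : G ⧸ L))) i := rfl
    rw [h2, Int.abs_eq_natAbs] at hi
    omega
  refine ⟨fun hF => ?_, fun h => conv_k S hS L hloc π hker hsurj h⟩
  rcases Nat.lt_or_ge k 2 with hk2 | hk2
  · rcases Nat.lt_or_ge k 1 with hk1 | hk1
    · -- the finite case
      have hk0 : k = 0 := by omega
      subst hk0
      have hL : ∀ g : G, g ∈ L := fun g => (hker g).1 (Subsingleton.elim _ _)
      have hfin : (Set.univ : Set G).Finite := by
        have h1 := hloc S (fun x _ => hL x)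
        rw [hS] at h1
        simpa using h1
      have hGf : Finite G := Set.finite_univ_iff.1 hfin
      obtain ⟨n, hn⟩ : ∃ n, ∀ g : G, WL S n g := by
        choose len hlen using fun g => exists_WL hS g
        refine ⟨hfin.toFinset.sup len, fun g => (hlen g).mono (Finset.le_sup (f := len) ?_)⟩
        rw [Set.Finite.mem_toFinset]; trivial
      refine ⟨0, n, fun r hr => ⟨fun _ => 0, fun _ => 1, fun x y _ => ⟨fun _ => ?_, fun h => absurd rfl h⟩⟩⟩
      have h1 := (dist_le_iff hS x y n).2 (hn (x⁻¹ * y))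
      exact h1.trans (Nat.le_mul_of_pos_right _ hr)
    · have hk0 : k = 1 := by omega
      subst hk0
      set π1 : G →* Multiplicative ℤ :=
        (AddMonoidHom.toMultiplicative (Pi.evalAddMonoidHom (fun _ : Fin 1 => ℤ) 0)).comp π with hπ1
      have hht : ∀ g, ht π1 g = hk π g 0 := fun g => rfl
      obtain ⟨t, ht1⟩ := hsurj (fun _ => 1)
      refine ⟨1, main_core S hS L hloc π1 (fun g => ?_) t (by rw [hht, ht1]) ?_ hF⟩
      · rw [hht, ← hker]
        constructor
        · intro h
          funext i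
          have : i = 0 := Subsingleton.elim _ _
          rw [this, h]; rfl
        · intro h
          rw [h]; rfl
      · intro x hx y hy
        obtain ⟨m, hm⟩ := hfarπ x hx y hy
        refine ⟨m, fun i hi => ?_⟩
        rw [zpow_neg]
        refine hm (t ^ i) ⟨0, ?_⟩
        rw [hk_zpow, ht1]
        simpa using hi
  · exact (main_Cen S hS L hloc (far_dich hk2 S hS L hloc π hsurj hfarπ hF) ⟨e⟩).1 hF

theorem main_FarV {G : Type*} [Group G] (S : Finset G) (hS : Subgroup.closure (S : Set G) = ⊤)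
    (H : Subgroup G) (hfi : H.FiniteIndex) (L : Subgroup H) [L.Normal]
    (hloc : ∀ E : Finset H, (E : Set H) ⊆ L → (Subgroup.closure (E : Set H) : Set H).Finite)
    (K : Subgroup H) (hK : K.FiniteIndex)
    (hfar : ∀ x ∈ L, ∀ y ∈ L, ∃ E : Set (H ⧸ L), E.Finite ∧ ∀ g : H,
      (QuotientGroup.mk g : H ⧸ L) ∉ E → ∀ w ∈ K, Commute ⁅x, g * y * g⁻¹⁆ w)
    (k : ℕ) (hq : Nonempty ((H ⧸ L) ≃* Multiplicative (Fin k → ℤ))) :
    FolExp S ↔ ∃ d, ANLE S d := by
  have := hfi
  have := hK
  have : Group.FG G := Group.fg_def.2 ⟨S, hS⟩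
  obtain ⟨SH, hSH⟩ := Group.fg_def.1 (inferInstance : Group.FG H)
  obtain ⟨SK, hSK⟩ := Group.fg_def.1 (inferInstance : Group.FG K)
  have hfarK : ∀ x ∈ L.subgroupOf K, ∀ y ∈ L.subgroupOf K, ∃ E : Set (K ⧸ L.subgroupOf K),
      E.Finite ∧ ∀ g : K, (QuotientGroup.mk g : K ⧸ L.subgroupOf K) ∉ E →
        ⁅x, g * y * g⁻¹⁆ ∈ Subgroup.center K := by
    intro x hx y hy
    obtain ⟨E, hE, hE'⟩ := hfar x (Subgroup.mem_subgroupOf.1 hx) y (Subgroup.mem_subgroupOf.1 hy)
    set φ : K ⧸ L.subgroupOf K →* H ⧸ L :=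
      QuotientGroup.map (L.subgroupOf K) L K.subtype (fun z hz => Subgroup.mem_subgroupOf.1 hz)
      with hφ
    have hφm : ∀ z : K, φ (QuotientGroup.mk z) = QuotientGroup.mk (z : H) := fun z => rfl
    have hinj : Function.Injective φ := by
      intro a b hab
      obtain ⟨a, rfl⟩ := QuotientGroup.mk_surjective a
      obtain ⟨b, rfl⟩ := QuotientGroup.mk_surjective b
      rw [hφm, hφm, QuotientGroup.eq] at hab
      rw [QuotientGroup.eq, Subgroup.mem_subgroupOf]
      exact hab
    refine ⟨φ ⁻¹' E, hE.preimage hinj.injOn, fun g hg => ?_⟩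
    rw [Subgroup.mem_center_iff]
    intro w
    apply Subtype.ext
    have h1 := hE' (g : H) hg (w : H) w.2
    exact h1.eq.symm
  have h1 := main_Far SK hSK (L.subgroupOf K) (fun E hE => sub_loc L K hloc E hE) hfarK
    (sub_quot L K hq)
  constructor
  · intro h
    obtain ⟨d, hd⟩ := h1.1 ((h.down hS hSH).down hSH hSK)
    exact ⟨d, (hd.up hSH hSK).up hS hSH⟩
  · rintro ⟨d, hd⟩
    exact ((h1.2 ⟨d, (hd.down hS hSH).down hSH hSK⟩).up hSH hSK).up hS hSH

end Pool.Agent.H684AN
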