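import Pool.Agent.H684AN.Far6
import Pool.Agent.H684AN.CenD

set_option autoImplicit false

/-!
The sharp form of the main result of `Far6`: the dimension is at most the rank of the quotient.
-/

open scoped commutatorElement

namespace Pool.Agent.H684AN

variable {G : Type*} [Group G] {k : ℕ}

theorem main_FarD (S : Finset G) (hS : Subgroup.closure (S : Set G) = ⊤) (L : Subgroup G)
    [L.Normal]
    (hloc : ∀ E : Finset G, (E : Set G) ⊆ L → (Subgroup.closure (E : Set G) : Set G).Finite)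
    (hfar : ∀ x ∈ L, ∀ y ∈ L, ∃ E : Set (G ⧸ L), E.Finite ∧ ∀ g : G,
      (QuotientGroup.mk g : G ⧸ L) ∉ E → ⁅x, g * y * g⁻¹⁆ ∈ Subgroup.center G)
    (hq : Nonempty ((G ⧸ L) ≃* Multiplicative (Fin k → ℤ))) :
    (FolExp S → ANLE S k) ∧ ((∃ d, ANLE S d) → FolExp S) := by
  classical
  obtain ⟨e⟩ := hq
  set π : G →* Multiplicative (Fin k → ℤ) := e.toMonoidHom.comp (QuotientGroup.mk' L) with hπ
  have hker : ∀ g, hk π g = 0 ↔ g ∈ L := by
    intro g
    have h1 : π g = 1 ↔ g ∈ L := by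
      rw [hπ]
      simp only [MonoidHom.comp_apply, MulEquiv.toMonoidHom_eq_coe, MonoidHom.coe_coe,
        QuotientGroup.mk'_apply]
      rw [map_eq_one_iff e e.injective, QuotientGroup.eq_one_iff]
    rw [← h1, hk]
    exact Iff.rfl
  have hsurj : ∀ v : Fin k → ℤ, ∃ g : G, hk π g = v := by
    intro v
    obtain ⟨q, hq⟩ := e.surjective (Multiplicative.ofAdd v)
    obtain ⟨g, rfl⟩ := QuotientGroup.mk'_surjective L q
    exact ⟨g, by rw [hk, hπ]; simp only [MonoidHom.comp_apply]; exact congrArg Multiplicative.toAdd hq⟩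
  have hfarπ : ∀ x ∈ L, ∀ y ∈ L, ∃ m : ℕ, ∀ g : G, (∃ i, (m : ℤ) ≤ |hk π g i|) →
      ⁅x, g * y * g⁻¹⁆ ∈ Subgroup.center G := by
    intro x hx y hy
    obtain ⟨E, hE, hE'⟩ := hfar x hx y hy
    refine ⟨hE.toFinset.sup (fun q => Finset.univ.sup
      (fun i => ((Multiplicative.toAdd (e q)) i).natAbs)) + 1, fun g hg => hE' g (fun hgE => ?_)⟩
    obtain ⟨i, hi⟩ := hg
    have h1 : ((Multiplicative.toAdd (e (QuotientGroup.mk g : G ⧸ L))) i).natAbs ≤
        hE.toFinset.sup (fun q => Finset.univ.sup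
          (fun i => ((Multiplicative.toAdd (e q)) i).natAbs)) :=
      (Finset.le_sup (f := fun i => ((Multiplicative.toAdd (e (QuotientGroup.mk g : G ⧸ L))) i).natAbs)
        (Finset.mem_univ i)).trans (Finset.le_sup (f := fun q => Finset.univ.sup
          (fun i => ((Multiplicative.toAdd (e q)) i).natAbs)) (hE.mem_toFinset.2 hgE))
    have h2 : hk π g i = (Multiplicative.toAdd (e (QuotientGroup.mk g : G ⧸ L))) i := rfl
    rw [h2, Int.abs_eq_natAbs] at hi
    omega
  refine ⟨fun hF => ?_, fun h => conv_k S hS L hloc π hker hsurj h⟩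
  rcases Nat.lt_or_ge k 2 with hk2 | hk2
  · rcases Nat.lt_or_ge k 1 with hk1 | hk1
    · -- the finite case
      have hk0 : k = 0 := by omega
      subst hk0
      have hL : ∀ g : G, g ∈ L := fun g => (hker g).1 (Subsingleton.elim _ _)
      have hfin : (Set.univ : Set G).Finite := by
        have h1 := hloc S (fun x _ => hL x)
        rw [hS] at h1
        simpa using h1
      have hGf : Finite G := Set.finite_univ_iff.1 hfin
      obtain ⟨n, hn⟩ : ∃ n, ∀ g : G, WL S n g := by
        choose len hlen using fun g => exists_WL hS g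
        refine ⟨hfin.toFinset.sup len, fun g => (hlen g).mono (Finset.le_sup (f := len) ?_)⟩
        rw [Set.Finite.mem_toFinset]; trivial
      refine ⟨n, fun r hr => ⟨fun _ => 0, fun _ => 1, fun x y _ => ⟨fun _ => ?_, fun h => absurd rfl h⟩⟩⟩
      have h1 := (dist_le_iff hS x y n).2 (hn (x⁻¹ * y))
      exact h1.trans (Nat.le_mul_of_pos_right _ hr)
    · have hk0 : k = 1 := by omega
      subst hk0
      set π1 : G →* Multiplicative ℤ :=
        (AddMonoidHom.toMultiplicative (Pi.evalAddMonoidHom (fun _ : Fin 1 => ℤ) 0)).comp π with hπ1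
      have hht : ∀ g, ht π1 g = hk π g 0 := fun g => rfl
      obtain ⟨t, ht1⟩ := hsurj (fun _ => 1)
      refine main_core S hS L hloc π1 (fun g => ?_) t (by rw [hht, ht1]) ?_ hF
      · rw [hht, ← hker]
        constructor
        · intro h
          funext i
          have : i = 0 := Subsingleton.elim _ _
          rw [this, h]; rfl
        · intro h
          rw [h]; rfl
      · intro x hx y hy
        obtain ⟨m, hm⟩ := hfarπ x hx y hy
        refine ⟨m, fun i hi => ?_⟩
        rw [zpow_neg]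
        refine hm (t ^ i) ⟨0, ?_⟩
        rw [hk_zpow, ht1]
        simpa using hi
  · exact main_CenD S hS L hloc (far_dich hk2 S hS L hloc π hsurj hfarπ hF) ⟨e⟩ hF

theorem main_FarVD {G : Type*} [Group G] (S : Finset G) (hS : Subgroup.closure (S : Set G) = ⊤)
    (H : Subgroup G) (hfi : H.FiniteIndex) (L : Subgroup H) [L.Normal]
    (hloc : ∀ E : Finset H, (E : Set H) ⊆ L → (Subgroup.closure (E : Set H) : Set H).Finite)
    (K : Subgroup H) (hK : K.FiniteIndex)
    (hfar : ∀ x ∈ L, ∀ y ∈ L, ∃ E : Set (H ⧸ L), E.Finite ∧ ∀ g : H,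
      (QuotientGroup.mk g : H ⧸ L) ∉ E → ∀ w ∈ K, Commute ⁅x, g * y * g⁻¹⁆ w)
    (k : ℕ) (hq : Nonempty ((H ⧸ L) ≃* Multiplicative (Fin k → ℤ))) :
    (FolExp S → ANLE S k) ∧ ((∃ d, ANLE S d) → FolExp S) := by
  have := hfi
  have := hK
  have : Group.FG G := Group.fg_def.2 ⟨S, hS⟩
  obtain ⟨SH, hSH⟩ := Group.fg_def.1 (inferInstance : Group.FG H)
  obtain ⟨SK, hSK⟩ := Group.fg_def.1 (inferInstance : Group.FG K)
  have hfarK : ∀ x ∈ L.subgroupOf K, ∀ y ∈ L.subgroupOf K, ∃ E : Set (K ⧸ L.subgroupOf K),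
      E.Finite ∧ ∀ g : K, (QuotientGroup.mk g : K ⧸ L.subgroupOf K) ∉ E →
        ⁅x, g * y * g⁻¹⁆ ∈ Subgroup.center K := by
    intro x hx y hy
    obtain ⟨E, hE, hE'⟩ := hfar x (Subgroup.mem_subgroupOf.1 hx) y (Subgroup.mem_subgroupOf.1 hy)
    set φ : K ⧸ L.subgroupOf K →* H ⧸ L :=
      QuotientGroup.map (L.subgroupOf K) L K.subtype (fun z hz => Subgroup.mem_subgroupOf.1 hz)
      with hφ
    have hφm : ∀ z : K, φ (QuotientGroup.mk z) = QuotientGroup.mk (z : H) := fun z => rfl
    have hinj : Function.Injective φ := by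
      intro a b hab
      obtain ⟨a, rfl⟩ := QuotientGroup.mk_surjective a
      obtain ⟨b, rfl⟩ := QuotientGroup.mk_surjective b
      rw [hφm, hφm, QuotientGroup.eq] at hab
      rw [QuotientGroup.eq, Subgroup.mem_subgroupOf]
      exact hab
    refine ⟨φ ⁻¹' E, hE.preimage hinj.injOn, fun g hg => ?_⟩
    rw [Subgroup.mem_center_iff]
    intro w
    apply Subtype.ext
    have h1 := hE' (g : H) hg (w : H) w.2
    exact h1.eq.symm
  have h1 := main_FarD SK hSK (L.subgroupOf K) (fun E hE => sub_loc L K hloc E hE) hfarK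
    (sub_quot L K hq)
  constructor
  · intro h
    exact ((h1.1 ((h.down hS hSH).down hSH hSK)).up hSH hSK).up hS hSH
  · rintro ⟨d, hd⟩
    exact ((h1.2 ⟨d, (hd.down hS hSH).down hSH hSK⟩).up hSH hSK).up hS hSH

end Pool.Agent.H684AN
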