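import Pool.Agent.H684AN.Lin
import Pool.Agent.H684AN.Anp
import Pool.Agent.H684AN.Bdl

set_option autoImplicit false

/-!
If fractional multiples of the elements of the kernel are cheap up to rounding, then the group has
finite Assouad-Nagata dimension.
-/

namespace Pool.Agent.H684AN

variable {G : Type*} [Group G] {Λ : Type*} [AddCommGroup Λ] {V : Type*} [AddCommGroup V]
  [Module ℚ V] (D : Sys G Λ V) {r : ℕ} (b : Module.Basis (Fin r) ℚ V) (β : Fin r → Λ)
  (hβ : ∀ j, b j = D.κ (β j)) (S : Finset G) (hS : Subgroup.closure (S : Set G) = ⊤)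
  {k : ℕ} (π : G →* Multiplicative (Fin k → ℤ)) (hm : ∀ s ∈ S, ∀ i, |hk π s i| ≤ 1)
  (hker : ∀ g, hk π g = 0 ↔ ∃ x, g = D.i x)
  (s : (Fin k → ℤ) → G) (hs : ∀ v, hk π (s v) = v) (c : ℕ)
  (hsl : ∀ (v : Fin k → ℤ) (N : ℕ), (∀ i, |v i| ≤ N) → WL S (c * N) (s v))
  (B : ℕ → AddSubgroup Λ) (hB : ∀ n x, WL S n (D.i x) → x ∈ B n)
  (C1 : ℕ) (hC1 : ∀ (n : ℕ) (x : Λ), x ∈ B n → EE D b β S (C1 * (n + 1)) x 0)
  (C2 : ℕ) (hC2 : ∀ (n : ℕ) (x : Λ), WL S n (D.i x) → ∀ t : ℚ, |t| ≤ 1 →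
    EE D b β S (C2 * (n + 1)) 0 (t • D.κ x))

/-- the image of a subgroup of `Λ` -/
def imB (P : AddSubgroup Λ) : Subgroup G where
  carrier := {g | ∃ x ∈ P, g = D.i x}
  mul_mem' := by
    rintro _ _ ⟨x, hx, rfl⟩ ⟨y, hy, rfl⟩
    exact ⟨x + y, P.add_mem hx hy, (D.i_add x y).symm⟩
  one_mem' := ⟨0, P.zero_mem, D.i_zero.symm⟩
  inv_mem' := by
    rintro _ ⟨x, hx, rfl⟩
    exact ⟨-x, P.neg_mem hx, (D.i_neg x).symm⟩

theorem mem_imB (P : AddSubgroup Λ) (g : G) : g ∈ imB D P ↔ ∃ x ∈ P, g = D.i x := Iff.rfl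

include hβ hS hm hker hs hsl hB hC1 hC2 in
theorem an_frac : ∃ d, ANLE S d := by
  classical
  -- the coordinates at scale `n`
  choose cb hcb using fun j => exists_WL hS (D.i (β j))
  set n1 : ℕ := ∑ j, cb j with hn1
  have hn1' : ∀ j, WL S n1 (D.i (β j)) := fun j => (hcb j).mono
    (Finset.single_le_sum (f := cb) (fun _ _ => Nat.zero_le _) (Finset.mem_univ j))
  choose Bl hBl _ using fun n => exists_ball S n
  set inv : G → Λ := Function.invFun D.i with hinv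
  have hinvi : ∀ x, inv (D.i x) = x := fun x => Function.leftInverse_invFun D.i_inj x
  set E : ℕ → Finset V := fun n =>
    ((Bl (n + n1)).filter (fun g => ∃ x, g = D.i x)).image (fun g => D.κ (inv g)) with hE
  have hEm : ∀ n x, WL S (n + n1) (D.i x) → D.κ x ∈ E n := by
    intro n x hx
    rw [hE, Finset.mem_image]
    refine ⟨D.i x, ?_, by rw [hinvi]⟩
    rw [Finset.mem_filter, hBl]
    exact ⟨hx, x, rfl⟩
  have hEm' : ∀ n v, v ∈ E n → ∃ x, v = D.κ x ∧ WL S (n + n1) (D.i x) := by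
    intro n v hv
    rw [hE, Finset.mem_image] at hv
    obtain ⟨g, hg, rfl⟩ := hv
    rw [Finset.mem_filter, hBl] at hg
    obtain ⟨hg, x, rfl⟩ := hg
    exact ⟨x, by rw [hinvi], hg⟩
  have hEsp : ∀ n, Submodule.span ℚ (E n : Set V) = ⊤ := by
    intro n
    rw [eq_top_iff, ← b.span_eq, Submodule.span_le]
    rintro _ ⟨j, rfl⟩
    apply Submodule.subset_span
    rw [Finset.mem_coe, hβ]
    exact hEm n _ ((hn1' j).mono (by omega))
  choose bn φn hbE hφ hφs using fun n => max_det b (E n) (hEsp n)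
  refine an_phi (m := r) hS π hm s hs c hsl (fun n => imB D (B n)) (fun n i g => φn n i (D.κ (inv g)))
    ?_ ?_ ?_ (C1 + r * (2 * C2 * (n1 + 1))) ?_
  · intro n g hg h0
    obtain ⟨x, rfl⟩ := (hker g).1 h0
    exact ⟨x, hB n x hg, rfl⟩
  · rintro n i _ _ ⟨x, _, rfl⟩ ⟨y, _, rfl⟩
    rw [← D.i_add, hinvi, hinvi, hinvi, map_add, map_add]
  · intro n g hg h0 i
    obtain ⟨x, rfl⟩ := (hker g).1 h0
    simp only [hinvi]
    exact hφ n i _ (hEm n x (hg.mono (by omega)))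
  · rintro n _ ⟨x, hx, rfl⟩ hi
    simp only [hinvi] at hi
    have h1 := hC1 n x hx
    have h2 : ∀ i ∈ (Finset.univ : Finset (Fin r)),
        EE D b β S (2 * C2 * (n1 + 1) * (n + 1)) 0 (φn n i (D.κ x) • bn n i) := by
      intro i _
      obtain ⟨u, hu, hul⟩ := hEm' n _ (hbE n i)
      rw [hu]
      have h3 := hC2 _ u hul (φn n i (D.κ x) / 2) (by
        rw [abs_div, abs_of_pos (by norm_num : (0 : ℚ) < 2)]
        have := hi i
        linarith)
      have h4 := h3.add b β h3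
      rw [add_zero, ← add_smul, add_halves] at h4
      refine h4.mono b β ?_
      have h5 : n + n1 + 1 ≤ (n1 + 1) * (n + 1) := by nlinarith
      calc C2 * (n + n1 + 1) + C2 * (n + n1 + 1) = 2 * C2 * (n + n1 + 1) := by ring
        _ ≤ 2 * C2 * ((n1 + 1) * (n + 1)) := Nat.mul_le_mul_left _ h5
        _ = _ := by ring
    have h3 := EE.sum b β Finset.univ _ (fun _ : Fin r => (0 : Λ)) _ h2
    rw [Finset.sum_const_zero, ← hφs n (D.κ x), Finset.card_univ, Fintype.card_fin] at h3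
    have h4 := h1.add b β h3
    rw [add_zero, zero_add] at h4
    refine h4.fin.mono ?_
    ring_nf; omega

end Pool.Agent.H684AN
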