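import Pool.Agent.H684AN.Chg

set_option autoImplicit false

/-!
Asymptotic dimension and Assouad-Nagata dimension by families of sets, and the comparison with the
colour-and-cluster form.
-/

namespace Pool.Agent.H684AN

variable {G : Type*} [Group G]

/-- asymptotic dimension at most `d` by families of sets -/
def AsD (S : Finset G) (d : ℕ) : Prop :=
  ∀ r : ℕ, ∃ B : ℕ, ∃ U : Fin (d + 1) → Set (Set G),
    (∀ g : G, ∃ i, ∃ A ∈ U i, g ∈ A) ∧
    (∀ i, ∀ A ∈ U i, ∀ g ∈ A, ∀ h ∈ A, WL S B (g⁻¹ * h)) ∧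
    (∀ i, ∀ A ∈ U i, ∀ A' ∈ U i, A ≠ A' → ∀ g ∈ A, ∀ h ∈ A', ¬ WL S r (g⁻¹ * h))

/-- Assouad-Nagata dimension at most `d` by families of sets -/
def AnD (S : Finset G) (d : ℕ) : Prop :=
  ∃ c : ℕ, ∀ r : ℕ, ∃ U : Fin (d + 1) → Set (Set G),
    (∀ g : G, ∃ i, ∃ A ∈ U i, g ∈ A) ∧
    (∀ i, ∀ A ∈ U i, ∀ g ∈ A, ∀ h ∈ A, WL S (c * r) (g⁻¹ * h)) ∧
    (∀ i, ∀ A ∈ U i, ∀ A' ∈ U i, A ≠ A' → ∀ g ∈ A, ∀ h ∈ A', ¬ WL S r (g⁻¹ * h))

theorem AnD.asD {S : Finset G} {d : ℕ} (h : AnD S d) : AsD S d := by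
  obtain ⟨c, hc⟩ := h
  intro r
  obtain ⟨U, hU⟩ := hc r
  exact ⟨c * r, U, hU⟩

theorem WL_zero {S : Finset G} {g : G} (h : WL S 0 g) : g = 1 := by
  obtain ⟨l, h1, _, h3⟩ := h
  have : l = [] := List.length_eq_zero_iff.mp (by omega)
  rw [← h3, this]; rfl

theorem ANLE.anD {S : Finset G} (hS : Subgroup.closure (S : Set G) = ⊤) {d' d : ℕ}
    (h : ANLE S d') (hd : d' ≤ d) : AnD S d := by
  obtain ⟨C, hC⟩ := h
  refine ⟨C, fun r => ?_⟩
  rcases Nat.eq_zero_or_pos r with hr | hr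
  · subst hr
    refine ⟨fun _ => {A | ∃ g, A = {g}}, fun g => ⟨0, {g}, ⟨g, rfl⟩, rfl⟩, ?_, ?_⟩
    · rintro i _ ⟨z, rfl⟩ g hg h hh
      rw [Set.mem_singleton_iff] at hg hh
      rw [hg, hh, inv_mul_cancel]
      exact WL.one S _
    · rintro i _ ⟨z, rfl⟩ _ ⟨z', rfl⟩ hne g hg h hh hw
      rw [Set.mem_singleton_iff] at hg hh
      have h1 := WL_zero hw
      apply hne
      rw [inv_mul_eq_one] at h1
      rw [← hg, ← hh, h1]
  · obtain ⟨c, k, hck⟩ := hC r hr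
    refine ⟨fun i => {A | ∃ z, A = {x | (c x : ℕ) = i ∧ k x = z}}, fun g => ?_, ?_, ?_⟩
    · refine ⟨⟨c g, by have := (c g).2; omega⟩, _, ⟨k g, rfl⟩, rfl, rfl⟩
    · rintro i _ ⟨z, rfl⟩ g ⟨hg1, hg2⟩ h ⟨hh1, hh2⟩
      rw [← dist_le_iff hS]
      exact (hck g h (Fin.ext (by rw [hg1, hh1]))).1 (by rw [hg2, hh2])
    · rintro i _ ⟨z, rfl⟩ _ ⟨z', rfl⟩ hne g ⟨hg1, hg2⟩ h ⟨hh1, hh2⟩
      rw [← lt_dist_iff hS]
      refine (hck g h (Fin.ext (by rw [hg1, hh1]))).2 (fun he => hne ?_)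
      rw [hg2, hh2] at he
      rw [he]

theorem dim_eq {S : Finset G} (hS : Subgroup.closure (S : Set G) = ⊤) {k : ℕ} (h : ANLE S k)
    (hlow : ∀ d < k, ¬ AsD S d) (d : ℕ) : AsD S d ↔ AnD S d := by
  rcases Nat.lt_or_ge d k with hd | hd
  · exact ⟨fun h1 => absurd h1 (hlow d hd), fun h1 => h1.asD⟩
  · have := h.anD hS hd
    exact ⟨fun _ => this, fun h1 => h1.asD⟩

open Classical in
theorem filter_inv (F : Finset G) (s : G) :
    (F.filter (fun g => g * s⁻¹ ∉ F)).card = (F.filter (fun g => g * s ∉ F)).card := by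
  have h1 := Finset.card_filter_add_card_filter_not (s := F) (fun g => g * s ∈ F)
  have h2 := Finset.card_filter_add_card_filter_not (s := F) (fun g => g * s⁻¹ ∈ F)
  have h3 : (F.filter (fun g => g * s ∈ F)).card = (F.filter (fun g => g * s⁻¹ ∈ F)).card := by
    refine Finset.card_bij (fun g _ => g * s) ?_ ?_ ?_
    · intro g hg
      rw [Finset.mem_filter] at hg ⊢
      exact ⟨hg.2, by rw [mul_inv_cancel_right]; exact hg.1⟩
    · intro a _ b _ hab
      exact mul_right_cancel hab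
    · intro b hb
      rw [Finset.mem_filter] at hb
      exact ⟨b * s⁻¹, by rw [Finset.mem_filter, inv_mul_cancel_right]; exact ⟨hb.2, hb.1⟩, by
        rw [inv_mul_cancel_right]⟩
  omega

open Classical in
theorem folExp_of (S : Finset G)
    (h : ∃ C : ℕ, ∀ n : ℕ, 1 ≤ n → ∃ F : Finset G, F.Nonempty ∧ F.card ≤ C ^ n ∧
      n * (F.filter (fun g => ∃ s ∈ S, g * s ∉ F)).card ≤ F.card) : FolExp S := by
  obtain ⟨C, hC⟩ := h
  refine ⟨C ^ (S.card + 1), fun n hn => ?_⟩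
  obtain ⟨F, hF1, hF2, hF3⟩ := hC ((S.card + 1) * n) (Nat.mul_pos (by omega) hn)
  refine ⟨F, ?_, ?_⟩
  · rw [isFol_iff]
    refine ⟨hF1, ?_⟩
    set b := (F.filter (fun g => ∃ s ∈ S, g * s ∉ F)).card with hb
    have h1 : bd S F ⊆ F.filter (fun g => ∃ s ∈ S, g * s ∉ F) ∪
        S.biUnion (fun s => F.filter (fun g => g * s⁻¹ ∉ F)) := by
      intro g hg
      unfold bd at hg
      rw [Finset.mem_filter] at hg
      obtain ⟨hgF, s, hs, h2⟩ := hg
      rw [Finset.mem_union]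
      rcases h2 with h2 | h2
      · left
        rw [Finset.mem_filter]
        exact ⟨hgF, s, hs, h2⟩
      · right
        rw [Finset.mem_biUnion]
        exact ⟨s, hs, by rw [Finset.mem_filter]; exact ⟨hgF, h2⟩⟩
    have h2 : (bd S F).card ≤ (S.card + 1) * b := by
      refine (Finset.card_le_card h1).trans ((Finset.card_union_le _ _).trans ?_)
      have h3 : (S.biUnion (fun s => F.filter (fun g => g * s⁻¹ ∉ F))).card ≤ S.card * b := by
        refine Finset.card_biUnion_le_card_mul _ _ _ (fun s hs => ?_)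
        rw [filter_inv]
        apply Finset.card_le_card
        intro g hg
        rw [Finset.mem_filter] at hg ⊢
        exact ⟨hg.1, s, hs, hg.2⟩
      rw [← hb]
      nlinarith
    calc n * (bd S F).card ≤ n * ((S.card + 1) * b) := Nat.mul_le_mul_left _ h2
      _ = (S.card + 1) * n * b := by ring
      _ ≤ F.card := hF3
  · rw [← pow_mul]; exact hF2

end Pool.Agent.H684AN
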