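import Pool.Agent.H684AN.Gsq

set_option autoImplicit false

/-!
Fractional multiples of the elements of the kernel are cheap.
-/

namespace Pool.Agent.H684AN

variable {G : Type*} [Group G] {Λ : Type*} [AddCommGroup Λ] {V : Type*} [AddCommGroup V]
  [Module ℚ V] {D : Sys G Λ V} {r : ℕ} (b : Module.Basis (Fin r) ℚ V) (β : Fin r → Λ)
  (hβ : ∀ j, b j = D.κ (β j)) {S : Finset G} (hS : Subgroup.closure (S : Set G) = ⊤)

theorem comm_aeval {R : Type*} [Ring R] [Algebra ℚ R] (N M : R) (h : Commute N M)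
    (p : Polynomial ℚ) : Commute (Polynomial.aeval N p) M := by
  induction p using Polynomial.induction_on' with
  | add p q hp hq => rw [map_add]; exact hp.add_left hq
  | monomial n a =>
    rw [Polynomial.aeval_monomial, ← Algebra.smul_def]
    exact (h.pow_left n).smul_left a

theorem Gd.sub {f g : Module.End ℚ V} (hf : Gd D b β S f) (hg : Gd D b β S g) :
    Gd D b β S (f - g) := by
  have h1 := hf.add b β (hg.smul b β (-1))
  rwa [neg_one_smul, ← sub_eq_add_neg] at h1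

include hβ hS in
/-- the projection to the common unipotent part -/
theorem exists_PP (hcx : ∀ g h : G, ∃ x, g * h * g⁻¹ * h⁻¹ = D.i x) (T : ℕ → G) (k : ℕ) :
    ∃ (P : Module.End ℚ V) (s : ℕ), (∀ g, Commute P (D.M g : Module.End ℚ V)) ∧
      Gd D b β S (1 - P) ∧ GA D b β S P ∧
      ∀ i, i < k → ((D.M (T i) : Module.End ℚ V) - 1) ^ s * P = 0 := by
  have hfd : FiniteDimensional ℚ V := Module.Finite.of_basis b
  have hMM : ∀ g h, Commute (D.M g : Module.End ℚ V) (D.M h : Module.End ℚ V) := by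
    intro g h
    apply LinearMap.ext
    intro v
    exact M_comm b β hβ hcx g h v
  induction k with
  | zero =>
    refine ⟨1, 0, fun g => Commute.one_left _, ?_, GA.one b β, fun i hi => absurd hi (by omega)⟩
    rw [sub_self]
    exact ⟨0, fun n x _ t _ => by
      rw [LinearMap.zero_apply, smul_zero, zero_mul]; exact EE.zero b β⟩
  | succ k ih =>
    obtain ⟨P, s, hPc, hGd, hGA, hN⟩ := ih
    set N : Module.End ℚ V := (D.M (T k) : Module.End ℚ V) - 1 with hNdef
    obtain ⟨s', p, u, hp1, hp2⟩ := exists_proj N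
    set Q : Module.End ℚ V := Polynomial.aeval N p with hQ
    have hNc : ∀ g, Commute N (D.M g : Module.End ℚ V) := fun g =>
      (hMM (T k) g).sub_left (Commute.one_left _)
    have hQc : ∀ g, Commute Q (D.M g : Module.End ℚ V) := fun g => comm_aeval N _ (hNc g) p
    have hGAN : GA D b β S N := (GA.M b β hβ hS (T k)).sub b β (GA.one b β)
    have hPN : Commute P N := (hPc (T k)).sub_right (Commute.one_right _)
    refine ⟨Q * P, s + s', fun g => (hQc g).mul_left (hPc g), ?_,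
      (hGAN.aeval b β p).mul b β hGA, ?_⟩
    · have e : 1 - Q * P = (1 - P) + (Polynomial.aeval N u * P) * N := by
        have h1 : (Polynomial.aeval N u * P) * N = (1 - Q) * P := by
          rw [hp2, mul_assoc, mul_assoc, hPN.eq]
        rw [h1]; noncomm_ring
      rw [e]
      refine hGd.add b β ?_
      exact (((hGAN.aeval b β u).mul b β hGA)) _ (Gd.M_sub b β hβ hS hcx (T k))
    · intro i hi
      set Ni : Module.End ℚ V := (D.M (T i) : Module.End ℚ V) - 1 with hNi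
      have hQNi : Commute Q Ni := (hQc (T i)).sub_right (Commute.one_right _)
      by_cases h : i = k
      · subst h
        have e : Ni ^ (s + s') * (Q * P) = Ni ^ s * (Ni ^ s' * Q) * P := by
          rw [pow_add]; simp only [mul_assoc]
        rw [e, hp1, mul_zero, zero_mul]
      · have h1 := hN i (by omega)
        have e : Ni ^ (s + s') * (Q * P) = Q * (Ni ^ s' * (Ni ^ s * P)) := by
          calc Ni ^ (s + s') * (Q * P) = (Ni ^ (s + s') * Q) * P := by rw [mul_assoc]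
            _ = (Q * Ni ^ (s + s')) * P := by rw [(hQNi.pow_right _).eq]
            _ = Q * (Ni ^ s' * (Ni ^ s * P)) := by
                rw [add_comm, pow_add]; simp only [mul_assoc]
        rw [e, h1, mul_zero, mul_zero]

variable {k : ℕ} (π : G →* Multiplicative (Fin k → ℤ)) (hker : ∀ g, hk π g = 0 ↔ ∃ x, g = D.i x)
  (T : ℕ → G) (hT : ∀ j, j < k → ∀ i, hn π (T j) i = if i = j then 1 else 0)
  (hTl : ∀ j, j < k → WL S 1 (T j))
  (s : (Fin k → ℤ) → G) (hs : ∀ v, hk π (s v) = v) (c : ℕ)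
  (hsl : ∀ (v : Fin k → ℤ) (N : ℕ), (∀ i, |v i| ≤ N) → WL S (c * N) (s v))
  (A1 Ac : Finset Λ)
  (hSA : ∀ x ∈ S, (∃ a ∈ A1, x = D.i a) ∨ ∃ i, i < k ∧ x = T i)
  (hcom : ∀ i j, i < k → j < k → ∀ ε δ : ℤ, (ε = 1 ∨ ε = -1) → (δ = 1 ∨ δ = -1) →
    ∃ a ∈ Ac, T i ^ ε * T j ^ δ * (T i ^ ε)⁻¹ * (T j ^ δ)⁻¹ = D.i a)
  (hAc : ∀ a ∈ Ac, ∃ (i j : ℕ) (ε δ : ℤ), i < k ∧ j < k ∧ (ε = 1 ∨ ε = -1) ∧ (δ = 1 ∨ δ = -1) ∧
    T i ^ ε * T j ^ δ * (T i ^ ε)⁻¹ * (T j ^ δ)⁻¹ = D.i a)
  (hB : ∀ n x, WL S n (D.i x) →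
    x ∈ AddSubgroup.closure (BxA (fun v => D.a (s v)) ((A1 : Set Λ) ∪ (Ac : Set Λ)) n))
  (C1 : ℕ) (hC1 : ∀ (n : ℕ) (x : Λ), WL S n (D.i x) → EE D b β S (C1 * (n + 1)) x 0)

include hβ hS hker hT hTl hs hsl hSA hcom hAc hB hC1 in
theorem Gd_one : Gd D b β S 1 := by
  classical
  have hcx : ∀ g h : G, ∃ x, g * h * g⁻¹ * h⁻¹ = D.i x := fun g h =>
    (hker _).1 (hk_comm π g h)
  obtain ⟨P, m, hPc, hGd, hGA, hN⟩ := exists_PP b β hβ hS hcx T k
  -- the complement of the square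
  have hGd2 : Gd D b β S (1 - P * P) := by
    have e : 1 - P * P = (1 - P) + P * (1 - P) := by noncomm_ring
    rw [e]
    exact hGd.add b β (hGA _ hGd)
  obtain ⟨C3, hC3⟩ := hGd2
  have hcheap : ∀ g h : G, WL S 1 g → WL S 1 h → ∃ C : ℕ, ∀ p : ℕ, EE D b β S (C * (p + 1)) 0
      (P (P (D.κ (cx hcx (g ^ p) (h ^ p))))) := by
    intro g h hg hh
    refine ⟨4 + 4 * C1 + 4 * C3 + C1 + C3, fun p => ?_⟩
    set y : Λ := cx hcx (g ^ p) (h ^ p) with hy
    have hyl : WL S (4 * p) (D.i y) := by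
      rw [hy, i_cx]
      refine ((((hg.pow p).mul (hh.pow p)).mul (hg.pow p).inv).mul (hh.pow p).inv).mono ?_
      omega
    have h1 := (EE.self b β hyl).add b β ((hC1 _ y hyl).neg b β)
    have h2 := (hC3 _ y hyl 1 (by rw [abs_one])).neg b β
    have h3 := h1.add b β h2
    have e1 : y + -y + -0 = (0 : Λ) := by abel
    have e2 : D.κ y + -0 + -((1 : ℚ) • (1 - P * P) (D.κ y)) = P (P (D.κ y)) := by
      rw [one_smul]
      have e3 : (1 - P * P) (D.κ y) = D.κ y - P (P (D.κ y)) := rfl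
      rw [e3]; abel
    rw [e1, e2] at h3
    refine h3.mono b β ?_
    ring_nf; omega
  -- the inverse of a unipotent operator
  have hunip : ∀ i, i < k → ∀ ε : ℤ, (ε = 1 ∨ ε = -1) →
      ((D.M (T i ^ ε) : Module.End ℚ V) - 1) ^ m * P = 0 := by
    intro i hi ε hε
    rcases hε with rfl | rfl
    · rw [zpow_one]; exact hN i hi
    · have h1 : (D.M (T i ^ (-1 : ℤ)) : Module.End ℚ V) - 1 =
          -(D.M (T i)⁻¹ : Module.End ℚ V) * ((D.M (T i) : Module.End ℚ V) - 1) := by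
        have e : T i ^ (-1 : ℤ) = (T i)⁻¹ := by group
        rw [e]
        have h2 : (D.M (T i)⁻¹ : Module.End ℚ V) * (D.M (T i) : Module.End ℚ V) = 1 := by
          apply LinearMap.ext
          intro v
          exact D.M_inv' (T i) v
        rw [neg_mul, mul_sub, h2, mul_one, neg_sub]
      have hc : Commute (-(D.M (T i)⁻¹ : Module.End ℚ V))
          ((D.M (T i) : Module.End ℚ V) - 1) := by
        have h3 : Commute (D.M (T i)⁻¹ : Module.End ℚ V) (D.M (T i) : Module.End ℚ V) := by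
          apply LinearMap.ext
          intro v
          exact M_comm b β hβ hcx _ _ v
        exact (h3.sub_right (Commute.one_right _)).neg_left
      rw [h1, hc.mul_pow, mul_assoc, hN i hi, mul_zero]
  have hTl' : ∀ i, i < k → ∀ ε : ℤ, (ε = 1 ∨ ε = -1) → WL S 1 (T i ^ ε) := by
    intro i hi ε hε
    rcases hε with rfl | rfl
    · rw [zpow_one]; exact hTl i hi
    · have e : T i ^ (-1 : ℤ) = (T i)⁻¹ := by group
      rw [e]; exact (hTl i hi).inv
  have hW : ∀ a ∈ Ac, W2 D b β S (P (P (D.κ a))) := by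
    intro a ha
    obtain ⟨i, j, ε, δ, hi, hj, hε, hδ, hia⟩ := hAc a ha
    have e : a = cx hcx (T i ^ ε) (T j ^ δ) := by
      apply D.i_inj
      rw [i_cx, ← hia]
    rw [e]
    exact W2_cx b β hβ hS hcx (T i ^ ε) (T j ^ δ) P hPc m (hunip i hi ε hε) (hunip j hj δ hδ)
      (hcheap _ _ (hTl' i hi ε hε) (hTl' j hj δ hδ))
  have h1 := Gd_sq b β hβ hS π hker T hT s hs c hsl A1 Ac hSA hcom hB P hPc hW
  have h2 : Gd D b β S (1 - P * P) := ⟨C3, hC3⟩
  have h3 := h2.add b β h1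
  rwa [sub_add_cancel] at h3

end Pool.Agent.H684AN
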