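import Pool.Agent.H684AN.Skel

set_option autoImplicit false

/-!
Additive version of the reduction of a window subgroup to its 1-skeleton, from relations with unit
top coefficient.
-/

namespace Pool.Agent.H684AN

variable {W : Type*} [AddCommGroup W] {k : ℕ} (ρ : (Fin k → ℤ) → (W →+ W))

/-- generators of the window subgroup -/
def BxA (A : Set W) (n : ℕ) : Set W :=
  {x | ∃ v : Fin k → ℤ, (∀ i, |v i| ≤ n) ∧ ∃ a ∈ A, x = ρ v a}

/-- generators near the 1-skeleton of the window -/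
def SxA (A : Set W) (N n : ℕ) : Set W :=
  {x | ∃ v : Fin k → ℤ, (∀ i, |v i| ≤ n) ∧
    (∀ i j, i ≠ j → ¬ (|v i| + N ≤ n ∧ |v j| + N ≤ n)) ∧ ∃ a ∈ A, x = ρ v a}

theorem BxA_mono (A : Set W) {m n : ℕ} (h : m ≤ n) : BxA ρ A m ⊆ BxA ρ A n := by
  rintro x ⟨v, hv, a, ha, rfl⟩
  exact ⟨v, fun i => (hv i).trans (by exact_mod_cast h), a, ha, rfl⟩

/-- the points of a coordinate square -/
def pt2 (i j : Fin k) (p : ℕ × ℕ) : Fin k → ℤ := Pi.single i (p.1 : ℤ) + Pi.single j (p.2 : ℤ)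

theorem Wt_pt2 (N : ℕ) (i j : Fin k) (p : ℕ × ℕ) :
    Wt N (pt2 i j p) = (N : ℤ) ^ (i : ℕ) * p.1 + (N : ℤ) ^ (j : ℕ) * p.2 := by
  rw [pt2, Wt_add, Wt_single, Wt_single]

theorem Wt_lt_of (N : ℕ) (hN : 1 ≤ N) (i j : Fin k) (hij : i ≠ j) (p q : ℕ × ℕ)
    (hp : p ∈ Finset.range N ×ˢ Finset.range N) (hq : q ∈ Finset.range N ×ˢ Finset.range N)
    (hne : q ≠ p) (hle : Wt N (pt2 i j q) ≤ Wt N (pt2 i j p)) :
    Wt N (pt2 i j q) < Wt N (pt2 i j p) := by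
  refine lt_of_le_of_ne hle (fun h => hne ?_)
  rw [Finset.mem_product, Finset.mem_range, Finset.mem_range] at hp hq
  rw [Wt_pt2, Wt_pt2] at h
  have := Wt_inj N hN i j hij q.1 q.2 p.1 p.2 hq.1 hp.1 hq.2 hp.2 h
  exact Prod.ext this.1 this.2

variable (hρ : ∀ (u v : Fin k → ℤ) (a : W), ρ (u + v) a = ρ u (ρ v a))

include hρ in
theorem skelA_step (a : W) (N n : ℕ) (hN : 1 ≤ N) (i j : Fin k) (hij : i ≠ j) (p₀ : ℕ × ℕ)
    (hp₀ : p₀ ∈ Finset.range N ×ˢ Finset.range N)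
    (hrel : ρ (pt2 i j p₀) a ∈ AddSubgroup.closure ((fun p => ρ (pt2 i j p) a) ''
      {q | q ∈ Finset.range N ×ˢ Finset.range N ∧ q ≠ p₀ ∧
        Wt N (pt2 i j q) ≤ Wt N (pt2 i j p₀)}))
    (P : AddSubgroup W) (v : Fin k → ℤ) (hv : ∀ l, |v l| ≤ n) (hi : |v i| + N ≤ n)
    (hj : |v j| + N ≤ n)
    (hlow : ∀ v' : Fin k → ℤ, (∀ l, |v' l| ≤ n) → Wt N v' < Wt N v → ρ v' a ∈ P) :
    ρ v a ∈ P := by
  set u : Fin k → ℤ := v - pt2 i j p₀ with hu
  have huv : v = u + pt2 i j p₀ := by rw [hu]; abel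
  rw [huv, hρ]
  have h1 : ρ u (ρ (pt2 i j p₀) a) ∈ AddSubgroup.map (ρ u) (AddSubgroup.closure
      ((fun p => ρ (pt2 i j p) a) '' {q | q ∈ Finset.range N ×ˢ Finset.range N ∧ q ≠ p₀ ∧
        Wt N (pt2 i j q) ≤ Wt N (pt2 i j p₀)})) := ⟨_, hrel, rfl⟩
  rw [AddMonoidHom.map_closure] at h1
  refine (AddSubgroup.closure_le P).2 ?_ h1
  rintro _ ⟨_, ⟨q, ⟨hq, hne, hle⟩, rfl⟩, rfl⟩
  rw [SetLike.mem_coe]
  simp only
  rw [← hρ]
  have hlt := Wt_lt_of N hN i j hij p₀ q hp₀ hq hne hle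
  rw [Finset.mem_product, Finset.mem_range, Finset.mem_range] at hp₀ hq
  apply hlow
  · intro l
    rw [hu, pt2, pt2, Pi.add_apply, Pi.sub_apply, Pi.add_apply, Pi.add_apply]
    have hvl := hv l
    by_cases h1 : l = i
    · subst h1
      rw [Pi.single_eq_same, Pi.single_eq_same, Pi.single_eq_of_ne hij, Pi.single_eq_of_ne hij]
      have h2 := abs_le.1 (show |v l| ≤ n - N by linarith)
      rw [abs_le]; constructor <;> [skip; skip] <;> omega
    · rw [Pi.single_eq_of_ne h1, Pi.single_eq_of_ne h1]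
      by_cases h2 : l = j
      · subst h2
        rw [Pi.single_eq_same, Pi.single_eq_same]
        have h2 := abs_le.1 (show |v l| ≤ n - N by linarith)
        rw [abs_le]; constructor <;> [skip; skip] <;> omega
      · rw [Pi.single_eq_of_ne h2, Pi.single_eq_of_ne h2]
        simpa using hvl
  · rw [huv, Wt_add, Wt_add]
    linarith

include hρ in
theorem skelA (A : Set W) (N : ℕ) (hN : 1 ≤ N)
    (hrel : ∀ a ∈ A, ∀ i j : Fin k, i ≠ j → ∃ p₀ ∈ Finset.range N ×ˢ Finset.range N,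
      ρ (pt2 i j p₀) a ∈ AddSubgroup.closure ((fun p => ρ (pt2 i j p) a) ''
      {q | q ∈ Finset.range N ×ˢ Finset.range N ∧ q ≠ p₀ ∧
        Wt N (pt2 i j q) ≤ Wt N (pt2 i j p₀)})) (n : ℕ) :
    AddSubgroup.closure (BxA ρ A n) ≤ AddSubgroup.closure (SxA ρ A N n) := by
  rw [AddSubgroup.closure_le]
  rintro x ⟨v, hv, a, ha, rfl⟩
  obtain ⟨w0, hw0⟩ : ∃ w0 : ℤ, ∀ v : Fin k → ℤ, (∀ i, |v i| ≤ n) → w0 ≤ Wt N v := by
    refine ⟨∑ l : Fin k, -((N : ℤ) ^ (l : ℕ) * n), fun v hv => ?_⟩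
    rw [Wt]
    refine Finset.sum_le_sum (fun l _ => ?_)
    have h1 := (abs_le.1 (hv l)).1
    have h2 : (0 : ℤ) ≤ (N : ℤ) ^ (l : ℕ) := by positivity
    nlinarith
  have key : ∀ q : ℕ, ∀ v : Fin k → ℤ, (∀ i, |v i| ≤ n) → Wt N v < w0 + q →
      ρ v a ∈ AddSubgroup.closure (SxA ρ A N n) := by
    intro q
    induction q with
    | zero =>
      intro v hv h
      have := hw0 v hv
      push_cast at h
      omega
    | succ q ih =>
      intro v hv h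
      by_cases hs : ∀ i j, i ≠ j → ¬ (|v i| + N ≤ n ∧ |v j| + N ≤ n)
      · exact AddSubgroup.subset_closure ⟨v, hv, hs, a, ha, rfl⟩
      · push Not at hs
        obtain ⟨i, j, hij, hi, hj⟩ := hs
        obtain ⟨p₀, hp₀, hrel⟩ := hrel a ha i j hij
        refine skelA_step ρ hρ a N n hN i j hij p₀ hp₀ hrel _ v hv hi hj ?_
        intro v' hv' hlt
        apply ih v' hv'
        push_cast at h
        omega
  have h1 : Wt N v < w0 + ((Wt N v - w0).toNat + 1 : ℕ) := by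
    have := hw0 v hv
    push_cast
    rw [Int.toNat_of_nonneg (by omega)]
    omega
  exact key _ v hv h1

end Pool.Agent.H684AN
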