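import Pool.Agent.H684AN.Wcm
import Pool.Agent.H684AN.Cnt
import Pool.Agent.H684AN.Skl
import Pool.Agent.H684AN.Bdl

set_option autoImplicit false

/-!
Fractional multiples of the unipotent part of the elements of the kernel are cheap.
-/

namespace Pool.Agent.H684AN

variable {G : Type*} [Group G] {Λ : Type*} [AddCommGroup Λ] {V : Type*} [AddCommGroup V]
  [Module ℚ V] {D : Sys G Λ V} {r : ℕ} (b : Module.Basis (Fin r) ℚ V) (β : Fin r → Λ)
  (hβ : ∀ j, b j = D.κ (β j)) {S : Finset G} (hS : Subgroup.closure (S : Set G) = ⊤)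
  {k : ℕ} (π : G →* Multiplicative (Fin k → ℤ)) (hker : ∀ g, hk π g = 0 ↔ ∃ x, g = D.i x)

include hker in
theorem a_eq (g h : G) (hgh : hk π g = hk π h) (x : Λ) : D.a g x = D.a h x := by
  obtain ⟨y, hy⟩ := (hker (g * h⁻¹)).1 (by rw [hk_mul, hk_inv, hgh]; abel)
  have h1 : g = D.i y * h := by rw [← hy]; group
  rw [h1, D.a_mul, a_i]

include hker hβ in
theorem M_eq (g h : G) (hgh : hk π g = hk π h) (v : V) : D.M g v = D.M h v := by
  obtain ⟨y, hy⟩ := (hker (g * h⁻¹)).1 (by rw [hk_mul, hk_inv, hgh]; abel)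
  have h1 : g = D.i y * h := by rw [← hy]; group
  rw [h1, D.M_mul, M_i b β hβ]

variable (T : ℕ → G) (hT : ∀ j, j < k → ∀ i, hn π (T j) i = if i = j then 1 else 0)
  (s : (Fin k → ℤ) → G) (hs : ∀ v, hk π (s v) = v) (c : ℕ)
  (hsl : ∀ (v : Fin k → ℤ) (N : ℕ), (∀ i, |v i| ≤ N) → WL S (c * N) (s v))
  (A1 Ac : Finset Λ)
  (hSA : ∀ x ∈ S, (∃ a ∈ A1, x = D.i a) ∨ ∃ i, i < k ∧ x = T i)
  (hcom : ∀ i j, i < k → j < k → ∀ ε δ : ℤ, (ε = 1 ∨ ε = -1) → (δ = 1 ∨ δ = -1) →
    ∃ a ∈ Ac, T i ^ ε * T j ^ δ * (T i ^ ε)⁻¹ * (T j ^ δ)⁻¹ = D.i a)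
  (hB : ∀ n x, WL S n (D.i x) →
    x ∈ AddSubgroup.closure (BxA (fun v => D.a (s v)) ((A1 : Set Λ) ∪ (Ac : Set Λ)) n))
  (P : Module.End ℚ V) (hPc : ∀ g, Commute P (D.M g : Module.End ℚ V))
  (hW : ∀ a ∈ Ac, W2 D b β S (P (P (D.κ a))))

include hβ hS hker hT hs hsl hSA hcom hB hPc hW in
theorem Gd_sq : Gd D b β S (P * P) := by
  classical
  have hfd : FiniteDimensional ℚ V := Module.Finite.of_basis b
  obtain ⟨Cw, hCw⟩ := EE.walk (D := D) b β hβ hS
  choose Cr hCr using fun a : Λ => EE.real (D := D) b β hβ hS (P (P (D.κ a)))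
  choose! Cq hCq using hW
  set K1 : ℕ := ∑ a ∈ A1, Cr a with hK1
  set K2 : ℕ := ∑ a ∈ Ac, Cq a with hK2
  have hPM : ∀ g v, P (D.M g v) = D.M g (P v) := by
    intro g v
    have := congrArg (fun f : Module.End ℚ V => f v) (hPc g).eq
    exact this
  set inv : G → Λ := Function.invFun D.i with hinv
  have hinvi : ∀ x, inv (D.i x) = x := fun x => Function.leftInverse_invFun D.i_inj x
  refine ⟨Module.finrank ℚ V * (K1 * (k + 2) + K2 * (k + 1) + Cw * c), fun n x hx t ht => ?_⟩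
  set box : Finset (Fin k → ℤ) := Fintype.piFinset (fun _ : Fin k => Finset.Icc (-(n : ℤ)) n)
    with hbox
  have hboxm : ∀ v, v ∈ box ↔ ∀ i, |v i| ≤ n := by
    intro v
    rw [hbox]
    simp only [Fintype.mem_piFinset, Finset.mem_Icc, abs_le]
  set E1 : Finset V := (box ×ˢ A1).image
    (fun p => ((n : ℚ) + 1) • D.M (s p.1) (P (P (D.κ p.2)))) with hE1
  set E2 : Finset V := (box ×ˢ Ac).image
    (fun p => (((n : ℚ) + 1) ^ 2) • D.M (s p.1) (P (P (D.κ p.2)))) with hE2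
  obtain ⟨m, b', φ, hm, hb', hφ, hφs⟩ := max_det' (E1 ∪ E2)
  have hn0 : (0 : ℚ) < (n : ℚ) + 1 := by positivity
  -- bounds on the generators
  have hgen1 : ∀ i (w : G), (∀ l, |hn π w l| ≤ n) → ∀ a ∈ A1,
      |φ i (P (P (D.κ (D.a w a))))| ≤ 1 / ((n : ℚ) + 1) := by
    intro i w hw a ha
    have h1 : D.κ (D.a w a) = D.M (s (hk π w)) (D.κ a) := by
      rw [← D.M_κ, M_eq b β hβ π hker w (s (hk π w)) (by rw [hs])]
    rw [h1, hPM, hPM]
    have h2 := hφ i (((n : ℚ) + 1) • D.M (s (hk π w)) (P (P (D.κ a)))) (by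
      refine Finset.mem_union_left _ ?_
      rw [hE1, Finset.mem_image]
      refine ⟨(hk π w, a), ?_, rfl⟩
      rw [Finset.mem_product, hboxm]
      refine ⟨fun l => ?_, ha⟩
      have := hw l
      rwa [hn, dif_pos l.2] at this)
    rw [map_smul, smul_eq_mul, abs_mul, abs_of_pos hn0] at h2
    rw [le_div_iff₀ hn0, mul_comm]
    exact h2
  have hgen2 : ∀ i (w : G), (∀ l, |hn π w l| ≤ n) → ∀ a ∈ Ac,
      |φ i (P (P (D.κ (D.a w a))))| ≤ 1 / ((n : ℚ) + 1) ^ 2 := by
    intro i w hw a ha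
    have h1 : D.κ (D.a w a) = D.M (s (hk π w)) (D.κ a) := by
      rw [← D.M_κ, M_eq b β hβ π hker w (s (hk π w)) (by rw [hs])]
    rw [h1, hPM, hPM]
    have h2 := hφ i ((((n : ℚ) + 1) ^ 2) • D.M (s (hk π w)) (P (P (D.κ a)))) (by
      refine Finset.mem_union_right _ ?_
      rw [hE2, Finset.mem_image]
      refine ⟨(hk π w, a), ?_, rfl⟩
      rw [Finset.mem_product, hboxm]
      refine ⟨fun l => ?_, ha⟩
      have := hw l
      rwa [hn, dif_pos l.2] at this)
    rw [map_smul, smul_eq_mul, abs_mul, abs_of_pos (by positivity : (0 : ℚ) < ((n : ℚ) + 1) ^ 2)]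
      at h2
    rw [le_div_iff₀ (by positivity), mul_comm]
    exact h2
  -- the element itself
  have hx0 : ∀ j, hn π (D.i x) j = 0 := by
    intro j
    rw [hn, (hker (D.i x)).2 ⟨x, rfl⟩]; simp
  have hφx : ∀ i, |φ i (P (P (D.κ x)))| ≤ (k : ℚ) + 1 := by
    intro i
    have h1 := (ball_cnt π T hT (fun g => φ i (P (P (D.κ (inv g))))) (by
        intro y z hy hz
        obtain ⟨y', rfl⟩ := (hker y).1 hy
        obtain ⟨z', rfl⟩ := (hker z).1 hz
        rw [← D.i_add, hinvi, hinvi, hinvi, map_add, map_add, map_add, map_add])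
      {g | ∃ a ∈ Ac, g = D.i a} n (1 / ((n : ℚ) + 1) ^ 2) (by positivity) (by
        rintro w hw _ ⟨a, ha, rfl⟩
        rw [← D.i_a, hinvi]
        exact hgen2 i w hw a ha)
      (by
        intro i' j hi hj ε δ hε hδ
        obtain ⟨a, ha, h⟩ := hcom i' j hi hj ε δ hε hδ
        exact ⟨a, ha, h⟩)
      {g | ∃ a ∈ A1, g = D.i a} (1 / ((n : ℚ) + 1)) (by positivity) (by
        rintro w hw _ ⟨a, ha, rfl⟩
        rw [← D.i_a, hinvi]
        exact hgen1 i w hw a ha)
      S (by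
        intro y hy
        exact hSA y hy)
      (by
        rintro _ ⟨a, _, rfl⟩
        exact (hker _).2 ⟨a, rfl⟩)
      n le_rfl (D.i x) hx).2.2
    rw [sec_zero T _ k (fun j _ => hx0 j)] at h1
    simp only [inv_one, mul_one, hinvi] at h1
    refine h1.trans ?_
    have e1 : (n : ℚ) * (1 / ((n : ℚ) + 1)) ≤ 1 := by
      rw [mul_one_div, div_le_one hn0]; linarith
    have e2 : (n : ℚ) * ((k : ℚ) * (n * (1 / ((n : ℚ) + 1) ^ 2))) ≤ (k : ℚ) := by
      have e3 : (n : ℚ) * (n * (1 / ((n : ℚ) + 1) ^ 2)) ≤ 1 := by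
        rw [← mul_assoc, mul_one_div, div_le_one (by positivity)]
        nlinarith [(Nat.cast_nonneg n : (0 : ℚ) ≤ n)]
      calc (n : ℚ) * ((k : ℚ) * (n * (1 / ((n : ℚ) + 1) ^ 2))) =
          (k : ℚ) * ((n : ℚ) * (n * (1 / ((n : ℚ) + 1) ^ 2))) := by ring
        _ ≤ (k : ℚ) * 1 := mul_le_mul_of_nonneg_left e3 (Nat.cast_nonneg k)
        _ = k := mul_one _
    rw [mul_add]
    linarith
  have hspan : P (P (D.κ x)) ∈ Submodule.span ℚ ((E1 ∪ E2 : Finset V) : Set V) := by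
    have h1 := hB n x hx
    clear hx hx0 hφx
    induction h1 using AddSubgroup.closure_induction with
    | mem y hy =>
      obtain ⟨v, hv, a, ha, rfl⟩ := hy
      simp only
      rw [← D.M_κ, hPM, hPM]
      rcases ha with ha | ha
      · have h2 : ((n : ℚ) + 1) • D.M (s v) (P (P (D.κ a))) ∈
            Submodule.span ℚ ((E1 ∪ E2 : Finset V) : Set V) := by
          refine Submodule.subset_span (Finset.mem_coe.2 (Finset.mem_union_left _ ?_))
          rw [hE1, Finset.mem_image]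
          exact ⟨(v, a), Finset.mem_product.2 ⟨(hboxm v).2 hv, ha⟩, rfl⟩
        exact (Submodule.smul_mem_iff _ hn0.ne').1 h2
      · have h2 : (((n : ℚ) + 1) ^ 2) • D.M (s v) (P (P (D.κ a))) ∈
            Submodule.span ℚ ((E1 ∪ E2 : Finset V) : Set V) := by
          refine Submodule.subset_span (Finset.mem_coe.2 (Finset.mem_union_right _ ?_))
          rw [hE2, Finset.mem_image]
          exact ⟨(v, a), Finset.mem_product.2 ⟨(hboxm v).2 hv, ha⟩, rfl⟩
        exact (Submodule.smul_mem_iff _ (by positivity)).1 h2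
    | zero => rw [map_zero, map_zero, map_zero]; exact Submodule.zero_mem _
    | add y z _ _ hy hz => rw [map_add, map_add, map_add]; exact Submodule.add_mem _ hy hz
    | neg y _ hy => rw [map_neg, map_neg, map_neg]; exact Submodule.neg_mem _ hy
  have hterm : ∀ i ∈ (Finset.univ : Finset (Fin m)),
      EE D b β S ((K1 * (k + 2) + K2 * (k + 1) + Cw * c) * (n + 1)) 0
        ((t * φ i (P (P (D.κ x)))) • b' i) := by
    intro i _
    have hq : |t * φ i (P (P (D.κ x)))| ≤ (k : ℚ) + 1 := by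
      rw [abs_mul]
      calc |t| * |φ i (P (P (D.κ x)))| ≤ 1 * ((k : ℚ) + 1) :=
            mul_le_mul ht (hφx i) (abs_nonneg _) (by norm_num)
        _ = _ := one_mul _
    have hbi := hb' i
    rw [Finset.mem_union] at hbi
    rcases hbi with hbi | hbi
    · rw [hE1, Finset.mem_image] at hbi
      obtain ⟨⟨v, a⟩, hva, hbe⟩ := hbi
      rw [Finset.mem_product, hboxm] at hva
      simp only at hbe hva
      rw [← hbe, smul_smul, ← map_smul]
      have h1 := hCr a (t * φ i (P (P (D.κ x))) * ((n : ℚ) + 1)) ((k + 1) * (n + 1)) (by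
        rw [abs_mul, abs_of_pos hn0]
        push_cast
        exact mul_le_mul_of_nonneg_right hq hn0.le)
      have h2 := hCw _ _ (hsl v n hva.1) _ _ _ h1
      rw [map_zero] at h2
      refine h2.mono b β ?_
      have h3 : Cr a ≤ K1 := Finset.single_le_sum (f := Cr) (fun _ _ => Nat.zero_le _) hva.2
      have h4 : Cr a * ((k + 1) * (n + 1) + 1) ≤ K1 * ((k + 2) * (n + 1)) :=
        Nat.mul_le_mul h3 (by nlinarith)
      have h5 : Cw * (c * n) ≤ Cw * c * (n + 1) := by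
        rw [mul_assoc]; exact Nat.mul_le_mul_left _ (Nat.mul_le_mul_left _ (Nat.le_succ n))
      nlinarith [Nat.zero_le (K2 * (k + 1) * (n + 1))]
    · rw [hE2, Finset.mem_image] at hbi
      obtain ⟨⟨v, a⟩, hva, hbe⟩ := hbi
      rw [Finset.mem_product, hboxm] at hva
      simp only at hbe hva
      rw [← hbe, smul_smul, ← map_smul]
      obtain ⟨n', hn'⟩ : ∃ n', n' + 1 = (k + 1) * (n + 1) :=
        ⟨(k + 1) * (n + 1) - 1, Nat.sub_add_cancel (by nlinarith)⟩
      have h1 := hCq a hva.2 n' (t * φ i (P (P (D.κ x))) * ((n : ℚ) + 1) ^ 2) (by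
        have e : (n' : ℚ) + 1 = ((k : ℚ) + 1) * ((n : ℚ) + 1) := by exact_mod_cast hn'
        rw [abs_mul, abs_of_pos (by positivity : (0 : ℚ) < ((n : ℚ) + 1) ^ 2), e, mul_pow]
        refine mul_le_mul_of_nonneg_right (hq.trans ?_) (by positivity)
        nlinarith [(Nat.cast_nonneg k : (0 : ℚ) ≤ k)])
      have h2 := hCw _ _ (hsl v n hva.1) _ _ _ h1
      rw [map_zero, hn'] at h2
      refine h2.mono b β ?_
      have h3 : Cq a ≤ K2 := Finset.single_le_sum (f := Cq) (fun _ _ => Nat.zero_le _) hva.2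
      have h4 : Cq a * ((k + 1) * (n + 1)) ≤ K2 * ((k + 1) * (n + 1)) :=
        Nat.mul_le_mul_right _ h3
      have h5 : Cw * (c * n) ≤ Cw * c * (n + 1) := by
        rw [mul_assoc]; exact Nat.mul_le_mul_left _ (Nat.mul_le_mul_left _ (Nat.le_succ n))
      nlinarith [Nat.zero_le (K1 * (k + 2) * (n + 1))]
  have h1 := EE.sum b β Finset.univ _ (fun _ : Fin m => (0 : Λ)) _ hterm
  rw [Finset.sum_const_zero, Finset.card_univ, Fintype.card_fin] at h1
  have e : ∑ i, (t * φ i (P (P (D.κ x)))) • b' i = t • (P * P) (D.κ x) := by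
    have h2 := hφs _ hspan
    have h3 : (P * P) (D.κ x) = P (P (D.κ x)) := rfl
    rw [h3]
    conv_rhs => rw [h2]
    rw [Finset.smul_sum]
    exact Finset.sum_congr rfl (fun i _ => (smul_smul _ _ _).symm)
  rw [e] at h1
  refine h1.mono b β ?_
  rw [mul_assoc]
  exact Nat.mul_le_mul_right _ hm

end Pool.Agent.H684AN
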