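import Pool.Agent.H684AN.Rnk
import Pool.Agent.H684AN.Met2

set_option autoImplicit false

/-!
Window elements are cheap up to rounding.
-/

namespace Pool.Agent.H684AN

theorem mem_closure_biUnionA {W ι : Type*} [AddCommGroup W] (I : Finset ι) (X : ι → Set W) (g : W)
    (hg : g ∈ AddSubgroup.closure {x | ∃ l ∈ I, x ∈ X l}) :
    ∃ f : ι → W, (∀ l ∈ I, f l ∈ AddSubgroup.closure (X l)) ∧ g = ∑ l ∈ I, f l := by
  classical
  induction hg using AddSubgroup.closure_induction with
  | mem x hx =>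
    obtain ⟨l, hl, hx⟩ := hx
    refine ⟨fun j => if j = l then x else 0, ?_, ?_⟩
    · intro j _
      simp only
      split_ifs with h
      · subst h; exact AddSubgroup.subset_closure hx
      · exact AddSubgroup.zero_mem _
    · rw [Finset.sum_ite_eq' I l (fun _ => x), if_pos hl]
  | zero => exact ⟨fun _ => 0, fun _ _ => AddSubgroup.zero_mem _, by simp⟩
  | add x y _ _ hx hy =>
    obtain ⟨f, hf, rfl⟩ := hx
    obtain ⟨f', hf', rfl⟩ := hy
    exact ⟨fun j => f j + f' j, fun l hl => AddSubgroup.add_mem _ (hf l hl) (hf' l hl),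
      Finset.sum_add_distrib.symm⟩
  | neg x _ hx =>
    obtain ⟨f, hf, rfl⟩ := hx
    exact ⟨fun j => -(f j), fun l hl => AddSubgroup.neg_mem _ (hf l hl),
      (Finset.sum_neg_distrib (f := f)).symm⟩

variable {G : Type*} [Group G] {Λ : Type*} [AddCommGroup Λ] {V : Type*} [AddCommGroup V]
  [Module ℚ V] {D : Sys G Λ V} {r : ℕ} (b : Module.Basis (Fin r) ℚ V) (β : Fin r → Λ)
  (hβ : ∀ j, b j = D.κ (β j)) {S : Finset G} (hS : Subgroup.closure (S : Set G) = ⊤)
  {k : ℕ} (s : (Fin k → ℤ) → G)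
  (hρ : ∀ (u v : Fin k → ℤ) (x : Λ), D.a (s (u + v)) x = D.a (s u) (D.a (s v) x))
  (hρ0 : ∀ x : Λ, D.a (s 0) x = x)
  (cs : ℕ) (hsl : ∀ (v : Fin k → ℤ) (N : ℕ), (∀ i, |v i| ≤ N) → WL S (cs * N) (s v))

/-- sums along a line -/
noncomputable def LS (D : Sys G Λ V) (s : (Fin k → ℤ) → G) (e : Fin k → ℤ) (x : Λ) (q : ℕ → ℤ)
    (M : ℕ) : Λ := ∑ y ∈ Finset.range M, q y • D.a (s ((y : ℤ) • e)) x

include hβ hS hρ hρ0 in
theorem EE_line (e : Fin k → ℤ) (x : Λ) : ∃ C : ℕ, ∀ (M : ℕ) (q : ℕ → ℤ),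
    EE D b β S (C * M) (LS D s e x q M) 0 := by
  obtain ⟨C1, hC1⟩ := EE.step (D := D) b β hβ hS (s e)
  obtain ⟨C2, hC2⟩ := EE.dig (D := D) b β hβ hS x
  refine ⟨C1 + C2, fun M => ?_⟩
  induction M with
  | zero =>
    intro q
    simpa [LS] using EE.zero b β
  | succ M ih =>
    intro q
    have e1 : LS D s e x q (M + 1) = D.a (s e) (LS D s e x (fun y => q (y + 1)) M) + q 0 • x := by
      rw [LS, Finset.sum_range_succ', LS, map_sum]
      congr 1
      · refine Finset.sum_congr rfl (fun y _ => ?_)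
        rw [map_zsmul, ← hρ]
        congr 3
        push_cast
        rw [add_smul, one_smul, add_comm]
      · rw [Nat.cast_zero, zero_smul, hρ0]
    rw [e1]
    have h1 := (hC1 _ _ _ (ih (fun y => q (y + 1)))).add b β (hC2 (q 0))
    rw [map_zero, add_zero] at h1
    refine h1.mono b β ?_
    ring_nf; omega

/-- generators on a line -/
def LnA (D : Sys G Λ V) (s : (Fin k → ℤ) → G) (n : ℕ) (e w : Fin k → ℤ) (x : Λ) : Set Λ :=
  {z | ∃ y : ℤ, |y| ≤ n ∧ z = D.a (s (w + y • e)) x}

include hρ in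
theorem LnA_form (n : ℕ) (e w : Fin k → ℤ) (x : Λ) (z : Λ)
    (hz : z ∈ AddSubgroup.closure (LnA D s n e w x)) :
    ∃ q : ℕ → ℤ, z = D.a (s (w + (-(n : ℤ)) • e)) (LS D s e x q (2 * n + 1)) := by
  classical
  induction hz using AddSubgroup.closure_induction with
  | mem z hz =>
    obtain ⟨y, hy, rfl⟩ := hz
    rw [abs_le] at hy
    refine ⟨fun i => if i = (y + n).toNat then 1 else 0, ?_⟩
    have h1 : LS D s e x (fun i => if i = (y + n).toNat then 1 else 0) (2 * n + 1) =
        D.a (s (((y + n).toNat : ℤ) • e)) x := by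
      rw [LS, Finset.sum_eq_single (y + n).toNat]
      · rw [if_pos rfl, one_smul]
      · intro l _ hl; rw [if_neg hl, zero_smul]
      · intro h; exact absurd (Finset.mem_range.2 (by omega)) h
    rw [h1, ← hρ]
    congr 2
    rw [Int.toNat_of_nonneg (by omega), add_assoc, ← add_smul]
    congr 2
    ring_nf
  | zero =>
    refine ⟨fun _ => 0, ?_⟩
    simp [LS]
  | add y z _ _ hy hz =>
    obtain ⟨q, rfl⟩ := hy
    obtain ⟨q', rfl⟩ := hz
    refine ⟨fun i => q i + q' i, ?_⟩
    rw [← map_add]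
    congr 1
    rw [LS, LS, LS, ← Finset.sum_add_distrib]
    exact Finset.sum_congr rfl (fun y _ => (add_smul _ _ _).symm)
  | neg y _ hy =>
    obtain ⟨q, rfl⟩ := hy
    refine ⟨fun i => -(q i), ?_⟩
    rw [← map_neg]
    congr 1
    rw [LS, LS, ← Finset.sum_neg_distrib]
    exact Finset.sum_congr rfl (fun y _ => (neg_smul _ _).symm)

include hβ hS hρ hρ0 hsl in
theorem EE_skel (N : ℕ) (A : Finset Λ) : ∃ C : ℕ, ∀ (n : ℕ) (x : Λ),
    x ∈ AddSubgroup.closure (SxA (fun v => D.a (s v)) (A : Set Λ) N n) →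
    EE D b β S (C * (n + 1)) x 0 := by
  classical
  choose C1 hC1 using fun (j : ℕ) (a : Λ) =>
    EE_line (D := D) b β hβ hS s hρ hρ0 (dv k j) a
  obtain ⟨C2, hC2⟩ := EE.walk (D := D) b β hβ hS
  set C3 : ℕ := ∑ p ∈ Finset.range (k + 1) ×ˢ A, C1 p.1 p.2 with hC3
  refine ⟨((k + 1) * (2 * N + 1) ^ k * A.card) * (C3 * 2 + C2 * (cs * 2)), fun n x hx => ?_⟩
  set U : Finset ℤ := ((Finset.Icc (-(n : ℤ)) n).filter (fun y => (n : ℤ) < |y| + N)) ∪ {0} with hU
  set Wf : Finset (Fin k → ℤ) := Fintype.piFinset (fun _ => U) with hWf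
  set I : Finset ((ℕ × (Fin k → ℤ)) × Λ) := (Finset.range (k + 1) ×ˢ Wf) ×ˢ A with hI
  have hU0 : ∀ y ∈ U, |y| ≤ n := by
    intro y hy
    rw [hU, Finset.mem_union, Finset.mem_filter, Finset.mem_Icc, Finset.mem_singleton] at hy
    rcases hy with hy | rfl
    · rw [abs_le]; exact hy.1
    · simp
  have hsub : SxA (fun v => D.a (s v)) (A : Set Λ) N n ⊆
      {x | ∃ l ∈ I, x ∈ LnA D s n (dv k l.1.1) l.1.2 l.2} := by
    rintro x ⟨v, hv, hsk, a, ha, rfl⟩
    by_cases hint : ∃ i₀ : Fin k, |v i₀| + N ≤ n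
    · obtain ⟨i₀, hi₀⟩ := hint
      refine ⟨(((i₀ : ℕ), Function.update v i₀ 0), a), ?_, v i₀, hv i₀, ?_⟩
      · rw [hI, Finset.mem_product, Finset.mem_product, Finset.mem_range]
        refine ⟨⟨by have := i₀.2; simp only; omega, ?_⟩, ha⟩
        rw [hWf, Fintype.mem_piFinset]
        intro i
        by_cases h1 : i = i₀
        · subst h1
          simp only [Function.update_self]
          rw [hU]; exact Finset.mem_union_right _ (Finset.mem_singleton_self 0)
        · simp only [Function.update_of_ne h1]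
          rw [hU, Finset.mem_union, Finset.mem_filter, Finset.mem_Icc]
          left
          refine ⟨abs_le.1 (hv i), ?_⟩
          have := hsk i₀ i (Ne.symm h1)
          by_contra h3
          exact this ⟨hi₀, not_lt.1 h3⟩
      · simp only
        congr 3
        funext i
        rw [Pi.add_apply, Pi.smul_apply, dv, smul_eq_mul]
        by_cases h1 : i = i₀
        · subst h1
          rw [Function.update_self, if_pos rfl]; ring
        · rw [Function.update_of_ne h1, if_neg (fun h => h1 (Fin.ext h))]; ring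
    · push Not at hint
      refine ⟨((k, v), a), ?_, 0, by simp, ?_⟩
      · rw [hI, Finset.mem_product, Finset.mem_product, Finset.mem_range]
        refine ⟨⟨by simp only; omega, ?_⟩, ha⟩
        rw [hWf, Fintype.mem_piFinset]
        intro i
        simp only
        rw [hU, Finset.mem_union, Finset.mem_filter, Finset.mem_Icc]
        left
        exact ⟨abs_le.1 (hv i), hint i⟩
      · simp
  have hx' := AddSubgroup.closure_mono hsub hx
  obtain ⟨f, hf, rfl⟩ := mem_closure_biUnionA I _ x hx'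
  have hlen : ∀ l ∈ I, EE D b β S ((C3 * 2 + C2 * (cs * 2)) * (n + 1)) (f l) 0 := by
    intro l hl
    have hl' := hl
    rw [hI, Finset.mem_product, Finset.mem_product, Finset.mem_range] at hl'
    obtain ⟨q, hq⟩ := LnA_form (D := D) s hρ n _ _ _ _ (hf l hl)
    rw [hq]
    have h1 := hC1 l.1.1 l.2 (2 * n + 1) q
    have h2 : C1 l.1.1 l.2 ≤ C3 := by
      refine Finset.single_le_sum (f := fun p : ℕ × Λ => C1 p.1 p.2) (fun _ _ => Nat.zero_le _)
        (a := (l.1.1, l.2)) ?_
      rw [Finset.mem_product, Finset.mem_range]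
      exact ⟨hl'.1.1, hl'.2⟩
    have h3 : WL S (cs * (2 * n)) (s (l.1.2 + (-(n : ℤ)) • dv k l.1.1)) := by
      apply hsl
      intro i
      have h4 : |l.1.2 i| ≤ n := by
        have := hl'.1.2
        rw [hWf, Fintype.mem_piFinset] at this
        exact hU0 _ (this i)
      rw [Pi.add_apply, Pi.smul_apply, smul_eq_mul]
      refine (abs_add_le _ _).trans ?_
      have h5 : |(-(n : ℤ)) * dv k l.1.1 i| ≤ n := by
        unfold dv
        split_ifs <;> simp
      push_cast; linarith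
    have h4 := hC2 _ _ h3 _ _ _ h1
    rw [map_zero] at h4
    refine h4.mono b β ?_
    have h5 : C1 l.1.1 l.2 * (2 * n + 1) ≤ C3 * (2 * n + 1) := Nat.mul_le_mul_right _ h2
    nlinarith [Nat.zero_le (C2 * cs), Nat.zero_le C3]
  have h6 := EE.sum b β I _ f (fun _ => 0) hlen
  rw [Finset.sum_const_zero] at h6
  refine h6.mono b β ?_
  rw [mul_assoc]
  refine Nat.mul_le_mul_right _ ?_
  rw [hI, Finset.card_product, Finset.card_product, Finset.card_range]
  refine Nat.mul_le_mul_right _ (Nat.mul_le_mul_left _ ?_)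
  rw [hWf, Fintype.card_piFinset, Finset.prod_const, Finset.card_univ, Fintype.card_fin]
  exact Nat.pow_le_pow_left (bdry_card N n) _

end Pool.Agent.H684AN
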