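import Pool.Agent.H684AN.CritK

set_option autoImplicit false

/-!
Sections of homomorphisms onto `ℤ ^ k` and window subgroups of the kernel.
-/

namespace Pool.Agent.H684AN

variable {G : Type*} [Group G] {k : ℕ}

/-- coordinates indexed by the natural numbers -/
def hn (π : G →* Multiplicative (Fin k → ℤ)) (g : G) (j : ℕ) : ℤ :=
  if h : j < k then hk π g ⟨j, h⟩ else 0

theorem hn_mul (π : G →* Multiplicative (Fin k → ℤ)) (g h : G) (j : ℕ) :
    hn π (g * h) j = hn π g j + hn π h j := by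
  unfold hn
  split_ifs
  · rw [hk_mul, Pi.add_apply]
  · simp

theorem hn_one (π : G →* Multiplicative (Fin k → ℤ)) (j : ℕ) : hn π 1 j = 0 := by
  unfold hn
  split_ifs
  · simp
  · rfl

theorem hn_inv (π : G →* Multiplicative (Fin k → ℤ)) (g : G) (j : ℕ) :
    hn π g⁻¹ j = - hn π g j := by
  unfold hn
  split_ifs
  · rw [hk_inv, Pi.neg_apply]
  · simp

theorem hn_zpow (π : G →* Multiplicative (Fin k → ℤ)) (g : G) (n : ℤ) (j : ℕ) :
    hn π (g ^ n) j = n * hn π g j := by
  unfold hn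
  split_ifs
  · rw [hk_zpow, Pi.smul_apply, smul_eq_mul]
  · simp

theorem hn_ge (π : G →* Multiplicative (Fin k → ℤ)) (g : G) (j : ℕ) (hj : k ≤ j) :
    hn π g j = 0 := by
  unfold hn
  rw [dif_neg (by omega)]

/-- ordered products of powers -/
def sec (T : ℕ → G) (v : ℕ → ℤ) : ℕ → G
  | 0 => 1
  | j + 1 => sec T v j * T j ^ v j

theorem sec_congr (T : ℕ → G) (v v' : ℕ → ℤ) (j : ℕ) (h : ∀ i, i < j → v i = v' i) :
    sec T v j = sec T v' j := by
  induction j with
  | zero => rfl
  | succ j ih =>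
    rw [sec, sec, ih (fun i hi => h i (by omega)), h j (by omega)]

theorem sec_zero (T : ℕ → G) (v : ℕ → ℤ) (j : ℕ) (h : ∀ i, i < j → v i = 0) :
    sec T v j = 1 := by
  induction j with
  | zero => rfl
  | succ j ih =>
    rw [sec, ih (fun i hi => h i (by omega)), h j (by omega)]; simp

theorem sec_len (T : ℕ → G) (S : Finset G) (N : ℕ) (v : ℕ → ℤ) (j : ℕ)
    (hT : ∀ i, i < j → WL S 1 (T i)) (hv : ∀ i, i < j → |v i| ≤ N) :
    WL S (j * N) (sec T v j) := by
  induction j with
  | zero => simpa [sec] using WL.one S 0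
  | succ j ih =>
    have h1 := ih (fun i hi => hT i (by omega)) (fun i hi => hv i (by omega))
    have h2 := (hT j (by omega)).zpow (v j)
    have h3 := hv j (by omega)
    refine (h1.mul h2).mono ?_
    have h4 : (v j).natAbs ≤ N := by
      rw [Int.abs_eq_natAbs] at h3; exact_mod_cast h3
    rw [mul_one]
    nlinarith

section
variable (π : G →* Multiplicative (Fin k → ℤ)) (T : ℕ → G)
  (hT : ∀ j, j < k → ∀ i, hn π (T j) i = if i = j then 1 else 0)

include hT in
theorem hn_sec (v : ℕ → ℤ) (j : ℕ) (hj : j ≤ k) (i : ℕ) :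
    hn π (sec T v j) i = if i < j then v i else 0 := by
  induction j with
  | zero => simp [sec, hn_one]
  | succ j ih =>
    rw [sec, hn_mul, ih (by omega), hn_zpow, hT j (by omega)]
    by_cases h1 : i < j
    · rw [if_pos h1, if_neg (by omega : ¬ i = j), if_pos (by omega : i < j + 1)]; ring
    · by_cases h2 : i = j
      · subst h2
        rw [if_neg h1, if_pos rfl, if_pos (by omega)]; ring
      · rw [if_neg h1, if_neg h2, if_neg (by omega)]; ring

/-- window subgroups -/
def WinH (A : Set G) (N : ℕ) : Subgroup G :=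
  Subgroup.closure {g | ∃ w : G, (∀ i, |hn π w i| ≤ N) ∧ ∃ a ∈ A, g = w * a * w⁻¹}

theorem WinH_mono (A : Set G) {M N : ℕ} (h : M ≤ N) : WinH π A M ≤ WinH π A N := by
  refine Subgroup.closure_mono ?_
  rintro g ⟨w, hw, a, ha, rfl⟩
  exact ⟨w, fun i => (hw i).trans (by exact_mod_cast h), a, ha, rfl⟩

theorem WinH_mem (A : Set G) (N : ℕ) (w : G) (hw : ∀ i, |hn π w i| ≤ N) (a : G) (ha : a ∈ A) :
    w * a * w⁻¹ ∈ WinH π A N := Subgroup.subset_closure ⟨w, hw, a, ha, rfl⟩

theorem comm_pow (A : Set G) (N : ℕ) (y b x : G) (hbx : b * x * b⁻¹ * x⁻¹ ∈ A) (n : ℕ)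
    (hn' : ∀ n' : ℕ, n' < n → ∀ i, |hn π (y * b ^ n') i| ≤ N) :
    y * (b ^ n * x * (b ^ n)⁻¹ * x⁻¹) * y⁻¹ ∈ WinH π A N := by
  induction n with
  | zero => simp
  | succ n ih =>
    have h1 := ih (fun n' h => hn' n' (by omega))
    have h2 := WinH_mem π A N (y * b ^ n) (hn' n (by omega)) _ hbx
    have e : y * (b ^ (n + 1) * x * (b ^ (n + 1))⁻¹ * x⁻¹) * y⁻¹ =
        ((y * b ^ n) * (b * x * b⁻¹ * x⁻¹) * (y * b ^ n)⁻¹) *
          (y * (b ^ n * x * (b ^ n)⁻¹ * x⁻¹) * y⁻¹) := by
      rw [pow_succ]; group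
    rw [e]
    exact Subgroup.mul_mem _ h2 h1

variable (A : Set G)
  (hcom : ∀ i j, i < k → j < k → ∀ ε δ : ℤ, (ε = 1 ∨ ε = -1) → (δ = 1 ∨ δ = -1) →
    T i ^ ε * T j ^ δ * (T i ^ ε)⁻¹ * (T j ^ δ)⁻¹ ∈ A)

include hT hcom in
theorem cocyc (N : ℕ) (i : ℕ) (hi : i < k) (ε : ℤ) (hε : ε = 1 ∨ ε = -1) (v v' : ℕ → ℤ)
    (hv : ∀ l, |v l| ≤ N) (hv'i : v' i = v i + ε) (hv' : ∀ l, l ≠ i → v' l = v l) (j : ℕ)
    (hij : i < j) (hj : j ≤ k) :
    sec T v j * T i ^ ε * (sec T v' j)⁻¹ ∈ WinH π A N := by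
  induction j with
  | zero => omega
  | succ j ih =>
    by_cases h1 : i = j
    · subst h1
      rw [sec, sec, sec_congr T v' v i (fun l hl => hv' l (by omega)), hv'i]
      have e : sec T v i * T i ^ v i * T i ^ ε * (sec T v i * T i ^ (v i + ε))⁻¹ = 1 := by
        rw [zpow_add]; group
      rw [e]
      exact Subgroup.one_mem _
    · have h2 := ih (by omega) (by omega)
      rw [sec, sec, hv' j (by omega)]
      have e : sec T v j * T j ^ v j * T i ^ ε * (sec T v' j * T j ^ v j)⁻¹ =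
          (sec T v j * (T j ^ v j * T i ^ ε * (T j ^ v j)⁻¹ * (T i ^ ε)⁻¹) * (sec T v j)⁻¹) *
            (sec T v j * T i ^ ε * (sec T v' j)⁻¹) := by
        group
      rw [e]
      refine Subgroup.mul_mem _ ?_ h2
      have hbnd : ∀ (δ : ℤ), (δ = 1 ∨ δ = -1) → ∀ n' : ℕ, n' < (v j).natAbs → ∀ l,
          |hn π (sec T v j * (T j ^ δ) ^ n') l| ≤ N := by
        intro δ hδ n' hn' l
        rw [← zpow_natCast, ← zpow_mul, hn_mul, hn_zpow, hn_sec π T hT v j (by omega),
          hT j (by omega)]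
        have h3 := hv j
        have h4 : ((v j).natAbs : ℤ) = |v j| := Int.natCast_natAbs _
        by_cases hl : l = j
        · subst hl
          rw [if_neg (by omega), if_pos rfl, zero_add, mul_one]
          rcases hδ with rfl | rfl
          · rw [one_mul, abs_of_nonneg (by positivity)]; omega
          · rw [abs_mul, abs_neg, abs_one, one_mul, abs_of_nonneg (by positivity)]; omega
        · rw [if_neg hl]
          by_cases hl2 : l < j
          · rw [if_pos hl2, mul_zero, add_zero]; exact hv l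
          · rw [if_neg hl2]; simp
      rcases Int.natAbs_eq (v j) with h5 | h5
      · have e2 : T j ^ v j = (T j ^ (1 : ℤ)) ^ (v j).natAbs := by
          conv_lhs => rw [h5]
          rw [zpow_natCast, zpow_one]
        rw [e2]
        exact comm_pow π A N _ _ _ (hcom j i (by omega) hi 1 ε (Or.inl rfl) hε) _
          (hbnd 1 (Or.inl rfl))
      · have e2 : T j ^ v j = (T j ^ (-1 : ℤ)) ^ (v j).natAbs := by
          conv_lhs => rw [h5]
          rw [← zpow_natCast, ← zpow_mul]; congr 1; ring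
        rw [e2]
        exact comm_pow π A N _ _ _ (hcom j i (by omega) hi (-1) ε (Or.inr rfl) hε) _
          (hbnd (-1) (Or.inr rfl))

include hT hcom in
theorem ball_sub (S : Finset G) (hSA : ∀ s ∈ S, s ∈ A ∨ ∃ i, i < k ∧ s = T i)
    (hA : ∀ a ∈ A, ∀ i, hn π a i = 0) (n : ℕ) (g : G) (hg : WL S n g) :
    (∀ i, |hn π g i| ≤ n) ∧ g * (sec T (hn π g) k)⁻¹ ∈ WinH π A n := by
  induction n generalizing g with
  | zero =>
    obtain ⟨l, h1, _, h3⟩ := hg
    have : l = [] := List.length_eq_zero_iff.mp (by omega)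
    subst this
    rw [← h3]
    simp only [List.prod_nil]
    refine ⟨fun i => by rw [hn_one]; simp, ?_⟩
    rw [sec_zero T _ k (fun i _ => hn_one π i)]
    simp
  | succ n ih =>
    obtain ⟨h, x, h1, h2, rfl⟩ := WL.succ_iff.1 hg
    obtain ⟨h3, h4⟩ := ih h h1
    have h4' := WinH_mono π A (Nat.le_succ n) h4
    -- letters of height zero
    have hz : ∀ a ∈ A, ∀ y : G, (y = a ∨ y = a⁻¹) →
        (∀ i, |hn π (h * y) i| ≤ ((n + 1 : ℕ) : ℤ)) ∧
          h * y * (sec T (hn π (h * y)) k)⁻¹ ∈ WinH π A (n + 1) := by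
      intro a ha y hy
      have hy0 : ∀ i, hn π y i = 0 := by
        intro i
        rcases hy with rfl | rfl
        · exact hA _ ha i
        · rw [hn_inv, hA a ha i, neg_zero]
      have e0 : ∀ i, hn π (h * y) i = hn π h i := by intro i; rw [hn_mul, hy0, add_zero]
      refine ⟨fun i => by rw [e0]; have := h3 i; push_cast; linarith, ?_⟩
      rw [sec_congr T _ (hn π h) k (fun i _ => e0 i)]
      have e1 : h * y * (sec T (hn π h) k)⁻¹ = (h * y * h⁻¹) * (h * (sec T (hn π h) k)⁻¹) := by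
        group
      rw [e1]
      refine Subgroup.mul_mem _ ?_ h4'
      have h5 := WinH_mem π A (n + 1) h (fun i => by have := h3 i; push_cast; linarith) a ha
      rcases hy with rfl | rfl
      · exact h5
      · have h6 := Subgroup.inv_mem _ h5
        have e2 : (h * a * h⁻¹)⁻¹ = h * a⁻¹ * h⁻¹ := by group
        rwa [e2] at h6
    have ht : ∀ i, i < k → ∀ ε : ℤ, (ε = 1 ∨ ε = -1) →
        (∀ l, |hn π (h * T i ^ ε) l| ≤ ((n + 1 : ℕ) : ℤ)) ∧
          h * T i ^ ε * (sec T (hn π (h * T i ^ ε)) k)⁻¹ ∈ WinH π A (n + 1) := by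
      intro i hi ε hε
      have e0 : ∀ l, hn π (h * T i ^ ε) l = hn π h l + (if l = i then ε else 0) := by
        intro l
        rw [hn_mul, hn_zpow, hT i hi]
        split_ifs <;> ring
      refine ⟨fun l => ?_, ?_⟩
      · rw [e0]
        have := h3 l
        refine (abs_add_le _ _).trans ?_
        have h6 : |(if l = i then ε else 0 : ℤ)| ≤ 1 := by
          split_ifs
          · rcases hε with rfl | rfl <;> simp
          · simp
        push_cast; linarith
      · have e1 : h * T i ^ ε * (sec T (hn π (h * T i ^ ε)) k)⁻¹ =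
            (h * (sec T (hn π h) k)⁻¹) *
              (sec T (hn π h) k * T i ^ ε * (sec T (hn π (h * T i ^ ε)) k)⁻¹) := by
          group
        rw [e1]
        refine Subgroup.mul_mem _ h4' ?_
        refine cocyc π T hT A hcom (n + 1) i hi ε hε _ _ ?_ ?_ ?_ k hi le_rfl
        · intro l; have := h3 l; push_cast; linarith
        · rw [e0, if_pos rfl]
        · intro l hl; rw [e0, if_neg hl, add_zero]
    rcases h2 with rfl | h2 | h2
    · rw [mul_one]
      exact ⟨fun i => by have := h3 i; push_cast; linarith, h4'⟩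
    · rcases hSA x h2 with hx | ⟨i, hi, rfl⟩
      · exact hz x hx x (Or.inl rfl)
      · have := ht i hi 1 (Or.inl rfl)
        rwa [zpow_one] at this
    · rcases hSA _ h2 with hx | ⟨i, hi, hx⟩
      · exact hz x⁻¹ hx x (Or.inr (inv_inv x).symm)
      · have := ht i hi (-1) (Or.inr rfl)
        have e : T i ^ (-1 : ℤ) = x := by rw [← hx]; group
        rwa [e] at this

end

end Pool.Agent.H684AN
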