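import Pool.Agent.H684AN.Msy

set_option autoImplicit false

/-!
The rationalisation of an abelian normal subgroup.
-/

open scoped TensorProduct IsMulCommutative

namespace Pool.Agent.H684AN

theorem tor_of_tmul {Λ : Type*} [AddCommGroup Λ] (x : Λ) (h : (1 : ℚ) ⊗ₜ[ℤ] x = 0) :
    ∃ m : ℕ, 0 < m ∧ m • x = 0 := by
  have hloc : IsLocalizedModule (nonZeroDivisors ℤ) (TensorProduct.mk ℤ ℚ Λ 1) :=
    (isLocalizedModule_iff_isBaseChange (nonZeroDivisors ℤ) ℚ _).2
      (TensorProduct.isBaseChange ℤ Λ ℚ)
  have h1 : TensorProduct.mk ℤ ℚ Λ 1 x = 0 := h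
  rw [IsLocalizedModule.eq_zero_iff (nonZeroDivisors ℤ)] at h1
  obtain ⟨⟨c, hc⟩, hcx⟩ := h1
  have hc0 : c ≠ 0 := nonZeroDivisors.ne_zero hc
  have hcx' : c • x = 0 := hcx
  refine ⟨c.natAbs, Int.natAbs_pos.2 hc0, ?_⟩
  rcases Int.natAbs_eq c with h2 | h2
  · rw [h2] at hcx'
    rwa [natCast_zsmul] at hcx'
  · rw [h2, neg_smul, neg_eq_zero, natCast_zsmul] at hcx'
    exact hcx'

/-- the system attached to an abelian normal subgroup -/
noncomputable def mkSys {G : Type*} [Group G] (L : Subgroup G) [L.Normal] [IsMulCommutative L] :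
    Sys G (Additive L) (ℚ ⊗[ℤ] (Additive L)) where
  i := fun x => ((Additive.toMul x : L) : G)
  i_add := fun x y => rfl
  i_inj := fun x y h => by
    apply Additive.toMul.injective
    exact Subtype.ext h
  a := fun g => MonoidHom.toAdditive (MulAut.conjNormal g : L ≃* L).toMonoidHom
  i_a := fun g x => MulAut.conjNormal_apply g (Additive.toMul x)
  κ := (TensorProduct.mk ℤ ℚ (Additive L) 1).toAddMonoidHom
  κ_tor := fun x hx => tor_of_tmul x hx
  M := fun g => LinearMap.baseChange ℚ
    (MonoidHom.toAdditive (MulAut.conjNormal g : L ≃* L).toMonoidHom).toIntLinearMap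
  M_κ := fun g x => LinearMap.baseChange_tmul _ _ _
  M_mul := fun g h v => by
    induction v using TensorProduct.induction_on with
    | zero => rw [map_zero, map_zero, map_zero]
    | tmul q x =>
      rw [LinearMap.baseChange_tmul, LinearMap.baseChange_tmul, LinearMap.baseChange_tmul]
      congr 1
      apply Additive.toMul.injective
      apply Subtype.ext
      change ((MulAut.conjNormal (g * h) (Additive.toMul x) : L) : G) =
        ((MulAut.conjNormal g (MulAut.conjNormal h (Additive.toMul x)) : L) : G)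
      rw [map_mul]; rfl
    | add v w hv hw => rw [map_add, map_add, map_add, hv, hw]
  M_one := fun v => by
    induction v using TensorProduct.induction_on with
    | zero => rw [map_zero]
    | tmul q x =>
      rw [LinearMap.baseChange_tmul]
      congr 1
      apply Additive.toMul.injective
      apply Subtype.ext
      change ((MulAut.conjNormal (1 : G) (Additive.toMul x) : L) : G) = _
      rw [map_one]; rfl
    | add v w hv hw => rw [map_add, hv, hw]

theorem main_ab {G : Type*} [Group G] {k : ℕ} (S : Finset G)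
    (hS : Subgroup.closure (S : Set G) = ⊤) (L : Subgroup G) [L.Normal] [IsMulCommutative L]
    (hq : Nonempty ((G ⧸ L) ≃* Multiplicative (Fin k → ℤ))) (hF : FolExp S) :
    ∃ d, ANLE S d := by
  refine main_sys (mkSys L) ?_ S hS L ?_ hq hF
  · rw [eq_top_iff]
    intro v _
    induction v using TensorProduct.induction_on with
    | zero => exact Submodule.zero_mem _
    | tmul q x =>
      have h1 : q ⊗ₜ[ℤ] x = q • ((1 : ℚ) ⊗ₜ[ℤ] x) := by
        rw [TensorProduct.smul_tmul', smul_eq_mul, mul_one]
      rw [h1]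
      exact Submodule.smul_mem _ _ (Submodule.subset_span ⟨x, rfl⟩)
    | add v w hv hw => exact Submodule.add_mem _ (hv trivial) (hw trivial)
  · intro g
    constructor
    · intro hg
      exact ⟨Additive.ofMul ⟨g, hg⟩, rfl⟩
    · rintro ⟨x, rfl⟩
      exact (Additive.toMul x).2

end Pool.Agent.H684AN
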