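import Pool.Agent.H684AN.Gon
import Pool.Agent.H684AN.Fra
import Pool.Agent.H684AN.Met3

set_option autoImplicit false

/-!
Extensions of an abelian group by a free abelian group of finite rank: an at most exponential Folner
function implies finite Assouad-Nagata dimension.
-/

namespace Pool.Agent.H684AN

theorem main_sys {G : Type*} [Group G] {Λ : Type*} [AddCommGroup Λ] {V : Type*} [AddCommGroup V]
    [Module ℚ V] {k : ℕ} (D : Sys G Λ V) (hV : Submodule.span ℚ (Set.range D.κ) = ⊤)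
    (S : Finset G) (hS : Subgroup.closure (S : Set G) = ⊤) (L : Subgroup G) [L.Normal]
    (hL : ∀ g, g ∈ L ↔ ∃ x, g = D.i x)
    (hq : Nonempty ((G ⧸ L) ≃* Multiplicative (Fin k → ℤ))) (hF : FolExp S) :
    ∃ d, ANLE S d := by
  classical
  obtain ⟨e⟩ := hq
  set π : G →* Multiplicative (Fin k → ℤ) := e.toMonoidHom.comp (QuotientGroup.mk' L) with hπ
  have hkerL : ∀ g, hk π g = 0 ↔ g ∈ L := by
    intro g
    have h1 : π g = 1 ↔ g ∈ L := by
      rw [hπ]
      simp only [MonoidHom.comp_apply, MulEquiv.toMonoidHom_eq_coe, MonoidHom.coe_coe,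
        QuotientGroup.mk'_apply]
      rw [map_eq_one_iff e e.injective, QuotientGroup.eq_one_iff]
    rw [← h1, hk]
    exact Iff.rfl
  have hker : ∀ g, hk π g = 0 ↔ ∃ x, g = D.i x := fun g => (hkerL g).trans (hL g)
  have hsurj : ∀ v : Fin k → ℤ, ∃ g : G, hk π g = v := by
    intro v
    obtain ⟨q, hq⟩ := e.surjective (Multiplicative.ofAdd v)
    obtain ⟨g, rfl⟩ := QuotientGroup.mk'_surjective L q
    exact ⟨g, by rw [hk, hπ]; simp only [MonoidHom.comp_apply]; exact congrArg Multiplicative.toAdd hq⟩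
  choose τ hτ using hsurj
  set T : ℕ → G := fun j => if j < k then τ (dv k j) else 1 with hTdef
  have hTd : ∀ j, j ≤ k → hk π (T j) = dv k j := by
    intro j hj
    rw [hTdef]
    simp only
    split_ifs with h
    · exact hτ _
    · rw [hk_one]
      funext i
      have := i.2
      rw [dv, if_neg (by omega)]; rfl
  have hT : ∀ j, j < k → ∀ i, hn π (T j) i = if i = j then 1 else 0 := by
    intro j hj i
    rw [hn, hTd j hj.le]
    unfold dv
    by_cases hi : i < k
    · rw [dif_pos hi]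
    · rw [dif_neg hi, if_neg (by omega)]
  set s : (Fin k → ℤ) → G := fun v => sec T (ext0 v) k with hsdef
  have hs : ∀ v, hk π (s v) = v := by
    intro v
    funext i
    have h1 := hn_sec π T hT (ext0 v) k le_rfl i
    rw [if_pos i.2, hn, dif_pos i.2, ext0, dif_pos i.2] at h1
    exact h1
  set S1 : Finset G := S.image (fun x => x * (s (hk π x))⁻¹) with hS1
  set S' : Finset G := S1 ∪ (Finset.range k).image T with hS'def
  set com : Finset G := ((Finset.range k ×ˢ Finset.range k) ×ˢ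
    (({1, -1} : Finset ℤ) ×ˢ ({1, -1} : Finset ℤ))).image
      (fun p => T p.1.1 ^ p.2.1 * T p.1.2 ^ p.2.2 * (T p.1.1 ^ p.2.1)⁻¹ * (T p.1.2 ^ p.2.2)⁻¹)
    with hcomdef
  set A : Finset G := S1 ∪ com with hAdef
  have hTS : ∀ j, j < k → T j ∈ S' := by
    intro j hj
    rw [hS'def]
    exact Finset.mem_union_right _ (Finset.mem_image_of_mem _ (Finset.mem_range.2 hj))
  have hTl : ∀ j, j ≤ k → WL S' 1 (T j) := by
    intro j hj
    by_cases h : j < k
    · exact WL.of_mem (hTS j h)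
    · have : T j = 1 := by rw [hTdef]; simp only; rw [if_neg h]
      rw [this]; exact WL.one _ _
  have hAL : ∀ a ∈ A, hk π a = 0 := by
    intro a ha
    rw [hAdef, Finset.mem_union] at ha
    rcases ha with ha | ha
    · rw [hS1, Finset.mem_image] at ha
      obtain ⟨x, _, rfl⟩ := ha
      rw [hk_mul, hk_inv, hs]; simp
    · rw [hcomdef, Finset.mem_image] at ha
      obtain ⟨p, _, rfl⟩ := ha
      simp only [hk_mul, hk_inv]
      abel
  have hA : ∀ a ∈ (A : Set G), ∀ i, hn π a i = 0 := by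
    intro a ha i
    rw [hn, hAL a ha]; simp
  have hcom : ∀ i j, i < k → j < k → ∀ ε δ : ℤ, (ε = 1 ∨ ε = -1) → (δ = 1 ∨ δ = -1) →
      T i ^ ε * T j ^ δ * (T i ^ ε)⁻¹ * (T j ^ δ)⁻¹ ∈ com := by
    intro i j hi hj ε δ hε hδ
    rw [hcomdef, Finset.mem_image]
    refine ⟨((i, j), (ε, δ)), ?_, rfl⟩
    simp only [Finset.mem_product, Finset.mem_range, Finset.mem_insert, Finset.mem_singleton]
    exact ⟨⟨hi, hj⟩, hε, hδ⟩
  have hcomA : ∀ i j, i < k → j < k → ∀ ε δ : ℤ, (ε = 1 ∨ ε = -1) → (δ = 1 ∨ δ = -1) →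
      T i ^ ε * T j ^ δ * (T i ^ ε)⁻¹ * (T j ^ δ)⁻¹ ∈ (A : Set G) := by
    intro i j hi hj ε δ hε hδ
    rw [Finset.mem_coe, hAdef]
    exact Finset.mem_union_right _ (hcom i j hi hj ε δ hε hδ)
  have hSA1 : ∀ x ∈ S', x ∈ S1 ∨ ∃ i, i < k ∧ x = T i := by
    intro x hx
    rw [hS'def, Finset.mem_union] at hx
    rcases hx with hx | hx
    · left; exact hx
    · right
      rw [Finset.mem_image] at hx
      obtain ⟨i, hi, rfl⟩ := hx
      exact ⟨i, Finset.mem_range.1 hi, rfl⟩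
  have hSA : ∀ x ∈ S', x ∈ (A : Set G) ∨ ∃ i, i < k ∧ x = T i := by
    intro x hx
    rcases hSA1 x hx with h | h
    · left; rw [Finset.mem_coe, hAdef]; exact Finset.mem_union_left _ h
    · right; exact h
  have hm : ∀ x ∈ S', ∀ i, |hk π x i| ≤ 1 := by
    intro x hx i
    rcases hSA x hx with h | ⟨j, hj, rfl⟩
    · rw [hAL x h]; simp
    · rw [hTd j hj.le, dv]; split_ifs <;> simp
  have hsecmem : ∀ (v : ℕ → ℤ) (j : ℕ), j ≤ k → sec T v j ∈ Subgroup.closure (S' : Set G) := by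
    intro v j
    induction j with
    | zero => intro _; exact Subgroup.one_mem _
    | succ j ih =>
      intro hj
      rw [sec]
      exact Subgroup.mul_mem _ (ih (by omega))
        (Subgroup.zpow_mem _ (Subgroup.subset_closure (hTS j (by omega))) _)
  have hS' : Subgroup.closure (S' : Set G) = ⊤ := by
    rw [eq_top_iff, ← hS, Subgroup.closure_le]
    intro x hx
    have h1 : x = (x * (s (hk π x))⁻¹) * s (hk π x) := by group
    rw [SetLike.mem_coe, h1]
    refine Subgroup.mul_mem _ (Subgroup.subset_closure ?_) (hsecmem _ k le_rfl)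
    rw [Finset.mem_coe, hS'def, hS1]
    exact Finset.mem_union_left _ (Finset.mem_image_of_mem _ hx)
  have hsl : ∀ (v : Fin k → ℤ) (N : ℕ), (∀ i, |v i| ≤ N) → WL S' (k * N) (s v) := by
    intro v N hv
    refine sec_len T S' N (ext0 v) k (fun i hi => hTl i hi.le) (fun i hi => ?_)
    rw [ext0, dif_pos hi]; exact hv _
  have hF' : FolExp S' := hF.change hS
  obtain ⟨cA, hcA1, hcA⟩ := exists_len S' A hS'
  -- generators in `Λ`
  set A1 : Finset Λ := S1.preimage D.i D.i_inj.injOn with hA1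
  set Ac : Finset Λ := com.preimage D.i D.i_inj.injOn with hAc
  have hA1m : ∀ a, a ∈ A1 ↔ D.i a ∈ S1 := fun a => by rw [hA1, Finset.mem_preimage]
  have hAcm : ∀ a, a ∈ Ac ↔ D.i a ∈ com := fun a => by rw [hAc, Finset.mem_preimage]
  set AA : Finset Λ := A1 ∪ Ac with hAA
  have hAAm : ∀ a, a ∈ AA ↔ D.i a ∈ A := by
    intro a; rw [hAA, Finset.mem_union, hA1m, hAcm, hAdef, Finset.mem_union]
  -- the action
  have hρ : ∀ (u v : Fin k → ℤ) (x : Λ), D.a (s (u + v)) x = D.a (s u) (D.a (s v) x) := by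
    intro u v x
    rw [← D.a_mul]
    exact a_eq π hker _ _ (by rw [hk_mul, hs, hs, hs]) x
  have hρ0 : ∀ x : Λ, D.a (s 0) x = x := by
    intro x
    rw [a_eq π hker (s 0) 1 (by rw [hs, hk_one]) x, D.a_one]
  have hB : ∀ n x, WL S' n (D.i x) →
      x ∈ AddSubgroup.closure (BxA (fun v => D.a (s v)) (AA : Set Λ) n) := by
    intro n x hx
    have h1 := (ball_sub π T hT (A : Set G) hcomA S' hSA hA n _ hx).2
    rw [sec_zero T _ k (fun i _ => by rw [hn, (hker _).2 ⟨x, rfl⟩]; simp)] at h1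
    rw [inv_one, mul_one] at h1
    apply D.mem_cl
    refine (Subgroup.closure_le _).2 ?_ h1
    rintro g ⟨w, hw, a, ha, rfl⟩
    obtain ⟨a', rfl⟩ := (hker a).1 (hAL a ha)
    refine Subgroup.subset_closure ⟨D.a (s (hk π w)) a', ⟨hk π w, ?_, a', ?_, rfl⟩, ?_⟩
    · intro i
      have := hw i
      rwa [hn, dif_pos i.2] at this
    · rw [Finset.mem_coe, hAAm]; exact ha
    · rw [← a_eq π hker w (s (hk π w)) (by rw [hs]) a', D.i_a]
  have hc : ∀ (n : ℕ) (v : Fin k → ℤ), (∀ i, |v i| ≤ n) → ∀ a ∈ AA, ∀ z : ℤ, |z| ≤ n + 1 →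
      WL S' ((2 * k + cA) * (n + 1)) (D.i (z • D.a (s v) a)) := by
    intro n v hv a ha z hz
    have h1 := hsl v n hv
    have h2 := (hcA _ ((hAAm a).1 ha)).zpow z
    have h3 : D.i (z • D.a (s v) a) = s v * (D.i a) ^ z * (s v)⁻¹ := by
      rw [D.i_zsmul, D.i_a, conj_zpow]
    rw [h3]
    refine ((h1.mul h2).mul h1.inv).mono ?_
    have h4 : z.natAbs ≤ n + 1 := by
      rw [Int.abs_eq_natAbs] at hz; exact_mod_cast hz
    have h5 := Nat.mul_le_mul_right cA h4
    nlinarith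
  have hgen : ∀ x : Λ, ∃ n, x ∈ AddSubgroup.closure (BxA (fun v => D.a (s v)) (AA : Set Λ) n) := by
    intro x
    obtain ⟨n, hn⟩ := exists_WL hS' (D.i x)
    exact ⟨n, hB n x hn⟩
  -- finite rank
  obtain ⟨n0, hn0⟩ := rank_fin D s hρ S' AA (2 * k + cA) hc hF' hgen hV
  have hfd : Module.Finite ℚ (Submodule.span ℚ
      (D.κ '' BxA (fun v => D.a (s v)) (AA : Set Λ) n0)) :=
    FiniteDimensional.span_of_finite ℚ ((BxA_finite D s AA n0).image _)
  obtain ⟨f, hfs, hfsp, hfi⟩ := Submodule.exists_fun_fin_finrank_span_eq ℚ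
    (D.κ '' BxA (fun v => D.a (s v)) (AA : Set Λ) n0)
  have hftop : Submodule.span ℚ (Set.range f) = ⊤ := by rw [hfsp]; exact hn0
  choose β hβB hβf using hfs
  set b := Module.Basis.mk hfi hftop.ge with hb
  have hβ : ∀ j, b j = D.κ (β j) := by
    intro j
    rw [hb, Module.Basis.mk_apply, hβf]
  -- the skeleton
  obtain ⟨N, hN1, hrel⟩ := rel_ex D s S' AA (2 * k + cA) hc hF'
  have hskel := skelA (fun v => D.a (s v)) hρ (AA : Set Λ) N hN1 hrel
  obtain ⟨C1, hC1⟩ := EE_skel b β hβ hS' s hρ hρ0 k hsl N AA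
  have hC1' : ∀ (n : ℕ) (x : Λ),
      x ∈ AddSubgroup.closure (BxA (fun v => D.a (s v)) (AA : Set Λ) n) →
      EE D b β S' (C1 * (n + 1)) x 0 := fun n x hx => hC1 n x (hskel n hx)
  have hAAu : (AA : Set Λ) = (A1 : Set Λ) ∪ (Ac : Set Λ) := by rw [hAA, Finset.coe_union]
  have hG1 : Gd D b β S' 1 := by
    refine Gd_one b β hβ hS' π hker T hT (fun j hj => hTl j hj.le) s hs k hsl A1 Ac ?_ ?_ ?_ ?_ C1
      (fun n x hx => hC1' n x (hB n x hx))
    · intro x hx
      rcases hSA1 x hx with h | h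
      · left
        obtain ⟨a, rfl⟩ := (hker x).1 (hAL x (by
          rw [hAdef]; exact Finset.mem_union_left _ h))
        exact ⟨a, (hA1m a).2 h, rfl⟩
      · right; exact h
    · intro i j hi hj ε δ hε hδ
      have h1 := hcom i j hi hj ε δ hε hδ
      obtain ⟨a, ha⟩ := (hker _).1 (hAL _ (by rw [hAdef]; exact Finset.mem_union_right _ h1))
      refine ⟨a, (hAcm a).2 (by rw [← ha]; exact h1), ha⟩
    · intro a ha
      have h1 := (hAcm a).1 ha
      rw [hcomdef, Finset.mem_image] at h1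
      obtain ⟨⟨⟨i, j⟩, ⟨ε, δ⟩⟩, hp, hpe⟩ := h1
      simp only [Finset.mem_product, Finset.mem_range, Finset.mem_insert,
        Finset.mem_singleton] at hp
      exact ⟨i, j, ε, δ, hp.1.1, hp.1.2, hp.2.1, hp.2.2, hpe⟩
    · intro n x hx
      rw [← hAAu]; exact hB n x hx
  obtain ⟨C2, hC2⟩ := hG1
  obtain ⟨d, hd⟩ := an_frac D b β hβ S' hS' π hm hker s hs k hsl
    (fun n => AddSubgroup.closure (BxA (fun v => D.a (s v)) (AA : Set Λ) n)) hB C1 hC1' C2 hC2
  exact ⟨d, hd.change hS' hS⟩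

end Pool.Agent.H684AN
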