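import Pool.Agent.H684AN.Mkb
import Pool.Agent.H684AN.Vir

set_option autoImplicit false

/-!
Finitely generated virtually metabelian groups: an at most exponential Folner function implies
finite Assouad-Nagata dimension.
-/

open scoped commutatorElement

namespace Pool.Agent.H684AN

/-- a finitely generated metabelian group has a subgroup of finite index which is an extension of an
abelian group by a free abelian group -/
theorem exists_free_sub {H : Type*} [Group H] [Group.FG H]
    (hmet : ∀ x ∈ commutator H, ∀ y ∈ commutator H, x * y = y * x) :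
    ∃ K : Subgroup H, K.FiniteIndex ∧ ∃ (L : Subgroup K) (_ : L.Normal), IsMulCommutative L ∧
      ∃ k : ℕ, Nonempty ((K ⧸ L) ≃* Multiplicative (Fin k → ℤ)) := by
  classical
  have hof : Function.Surjective (Abelianization.of : H →* Abelianization H) :=
    QuotientGroup.mk'_surjective _
  have hfg : Group.FG (Abelianization H) := Group.fg_of_surjective hof
  obtain ⟨ι, j, fι, fj, p, hp, e, ⟨E⟩⟩ :=
    CommGroup.equiv_free_prod_prod_multiplicative_zmod (Abelianization H)
  have hne : ∀ i, NeZero (p i ^ e i) := fun i => ⟨pow_ne_zero _ (hp i).ne_zero⟩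
  set φ : H →* (j → Multiplicative ℤ) × ((i : ι) → Multiplicative (ZMod (p i ^ e i))) :=
    E.toMonoidHom.comp Abelianization.of with hφ
  have hφs : Function.Surjective φ := E.surjective.comp hof
  have hφk : ∀ x, φ x = 1 ↔ x ∈ commutator H := by
    intro x
    have h1 : φ x = E (Abelianization.of x) := rfl
    rw [h1, map_eq_one_iff E E.injective, ← MonoidHom.mem_ker, Abelianization.ker_of]
  set φ2 : H →* ((i : ι) → Multiplicative (ZMod (p i ^ e i))) :=
    (MonoidHom.snd _ _).comp φ with hφ2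
  set K : Subgroup H := φ2.ker with hK
  have hfin : ∀ i, Finite (Multiplicative (ZMod (p i ^ e i))) := fun i =>
    inferInstanceAs (Finite (ZMod (p i ^ e i)))
  have hKf : K.FiniteIndex := Subgroup.finiteIndex_ker φ2
  set ψ : K →* (j → Multiplicative ℤ) := ((MonoidHom.fst _ _).comp φ).comp K.subtype with hψ
  have hψs : Function.Surjective ψ := by
    intro y
    obtain ⟨x, hx⟩ := hφs (y, 1)
    refine ⟨⟨x, ?_⟩, ?_⟩
    · rw [hK, MonoidHom.mem_ker, hφ2, MonoidHom.comp_apply, hx]; rfl
    · change (φ x).1 = y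
      rw [hx]
  have hψk : ∀ x : K, ψ x = 1 ↔ (x : H) ∈ commutator H := by
    intro x
    rw [← hφk]
    have hx2 : (φ (x : H)).2 = 1 := x.2
    constructor
    · intro h
      exact Prod.ext h hx2
    · intro h
      change (φ (x : H)).1 = 1
      rw [h]; rfl
  refine ⟨K, hKf, ψ.ker, inferInstance, ?_, Fintype.card j, ?_⟩
  · refine ⟨⟨fun x y => ?_⟩⟩
    apply Subtype.ext
    apply Subtype.ext
    exact hmet _ ((hψk _).1 x.2) _ ((hψk _).1 y.2)
  · have e1 : (K ⧸ ψ.ker) ≃* (j → Multiplicative ℤ) :=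
      QuotientGroup.quotientKerEquivOfSurjective ψ hψs
    have e2 : (j → Multiplicative ℤ) ≃* (Fin (Fintype.card j) → Multiplicative ℤ) :=
      MulEquiv.arrowCongr (Fintype.equivFin j) (MulEquiv.refl _)
    have e3 : Multiplicative (Fin (Fintype.card j) → ℤ) ≃*
        (Fin (Fintype.card j) → Multiplicative ℤ) := MulEquiv.funMultiplicative _ _
    exact ⟨(e1.trans e2).trans e3.symm⟩

theorem main_mtb {G : Type*} [Group G] (S : Finset G) (hS : Subgroup.closure (S : Set G) = ⊤)
    (H : Subgroup G) (hfi : H.FiniteIndex)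
    (hmet : ⁅(⁅H, H⁆ : Subgroup G), (⁅H, H⁆ : Subgroup G)⁆ = ⊥) (hF : FolExp S) :
    ∃ d, ANLE S d := by
  have := hfi
  have : Group.FG G := Group.fg_def.2 ⟨S, hS⟩
  obtain ⟨SH, hSH⟩ := Group.fg_def.1 (inferInstance : Group.FG H)
  have hmetH : ∀ x ∈ commutator H, ∀ y ∈ commutator H, x * y = y * x := by
    intro x hx y hy
    have hmap : ∀ z ∈ commutator H, (z : G) ∈ ⁅H, H⁆ := by
      intro z hz
      have h1 : (z : G) ∈ Subgroup.map H.subtype (commutator H) := ⟨z, hz, rfl⟩
      rw [Subgroup.map_subtype_commutator] at h1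
      exact h1
    have h2 : ⁅(x : G), (y : G)⁆ ∈ ⁅(⁅H, H⁆ : Subgroup G), (⁅H, H⁆ : Subgroup G)⁆ :=
      Subgroup.commutator_mem_commutator (hmap x hx) (hmap y hy)
    rw [hmet, Subgroup.mem_bot, commutatorElement_eq_one_iff_mul_comm] at h2
    exact Subtype.ext h2
  obtain ⟨K, hKf, L, hLn, hLc, k, hq⟩ := exists_free_sub hmetH
  obtain ⟨SK, hSK⟩ := Group.fg_def.1 (inferInstance : Group.FG K)
  obtain ⟨d, hd⟩ := main_ab SK hSK L hq ((hF.down hS hSH).down hSH hSK)
  exact ⟨d, (hd.up hSH hSK).up hS hSH⟩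

end Pool.Agent.H684AN
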