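import Pool.Agent.H684AN.Els
import Pool.Agent.H684AN.Skl

set_option autoImplicit false

/-!
If the Folner function is at most exponential then the abelian kernel has finite rank, and the
window subgroups have relations with unit top coefficient.
-/

namespace Pool.Agent.H684AN

variable {G : Type*} [Group G] {Λ : Type*} [AddCommGroup Λ] {V : Type*} [AddCommGroup V]
  [Module ℚ V] (D : Sys G Λ V) {k : ℕ} (s : (Fin k → ℤ) → G)
  (hρ : ∀ (u v : Fin k → ℤ) (x : Λ), D.a (s (u + v)) x = D.a (s u) (D.a (s v) x))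
  (S : Finset G) (A : Finset Λ) (c : ℕ)
  (hc : ∀ (n : ℕ) (v : Fin k → ℤ), (∀ i, |v i| ≤ n) → ∀ a ∈ A, ∀ z : ℤ, |z| ≤ n + 1 →
    WL S (c * (n + 1)) (D.i (z • D.a (s v) a)))

/-- the rational span of a window -/
def Vn (n : ℕ) : Submodule ℚ V :=
  Submodule.span ℚ (D.κ '' BxA (fun v => D.a (s v)) (A : Set Λ) n)

theorem Vn_mono {m n : ℕ} (h : m ≤ n) : Vn D s A m ≤ Vn D s A n :=
  Submodule.span_mono (Set.image_mono (BxA_mono _ _ h))

theorem BxA_finite (n : ℕ) : (BxA (fun v => D.a (s v)) (A : Set Λ) n).Finite := by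
  classical
  refine ((((Fintype.piFinset (fun _ : Fin k => Finset.Icc (-(n : ℤ)) n)) ×ˢ A).image
    (fun p => D.a (s p.1) p.2)).finite_toSet).subset ?_
  rintro x ⟨v, hv, a, ha, rfl⟩
  rw [Finset.mem_coe, Finset.mem_image]
  refine ⟨(v, a), ?_, rfl⟩
  rw [Finset.mem_product, Fintype.mem_piFinset]
  exact ⟨fun i => Finset.mem_Icc.2 (abs_le.1 (hv i)), ha⟩

theorem chn_pow {m J : ℕ} (x : Fin m → Λ) (hx : LinearIndependent ℚ (fun i => D.κ (x i))) :
    Chn (fun p : Fin m × ℕ => D.i ((2 ^ (J - p.2) : ℤ) • x p.1))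
      (fun p => (p.1 : ℤ) * (J + 1) + p.2) (Finset.univ ×ˢ Finset.range (J + 1)) := by
  rintro ⟨i, j⟩ hp hcl
  rw [Finset.mem_product, Finset.mem_range] at hp
  have hj : j ≤ J := by have := hp.2; simp only at this; omega
  set U : Submodule ℚ V := Submodule.span ℚ ((fun i => D.κ (x i)) '' (Set.univ \ {i})) with hU
  have hnot : D.κ (x i) ∉ U := linearIndependent_iff_notMem_span.1 hx i
  have h1 : ((2 ^ (J - j) : ℤ) • x i) ∈ AddSubgroup.closure
      ((fun p : Fin m × ℕ => (2 ^ (J - p.2) : ℤ) • x p.1) ''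
        {q | q ∈ Finset.univ ×ˢ Finset.range (J + 1) ∧ q ≠ (i, j) ∧
          ((q.1 : ℕ) : ℤ) * (J + 1) + q.2 ≤ ((i : ℕ) : ℤ) * (J + 1) + j}) := by
    apply D.mem_cl
    rw [Set.image_image]
    exact hcl
  have key : ∀ y ∈ AddSubgroup.closure
      ((fun p : Fin m × ℕ => (2 ^ (J - p.2) : ℤ) • x p.1) ''
        {q | q ∈ Finset.univ ×ˢ Finset.range (J + 1) ∧ q ≠ (i, j) ∧
          ((q.1 : ℕ) : ℤ) * (J + 1) + q.2 ≤ ((i : ℕ) : ℤ) * (J + 1) + j}),
      ∃ z : ℤ, D.κ y - ((z : ℚ) * 2 ^ (J - j + 1)) • D.κ (x i) ∈ U := by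
    intro y hy
    induction hy using AddSubgroup.closure_induction with
    | mem y hy =>
      obtain ⟨⟨i', j'⟩, ⟨hq, hne, hle⟩, rfl⟩ := hy
      rw [Finset.mem_product, Finset.mem_range] at hq
      simp only at hq hle ⊢
      have hj' : j' ≤ J := by have := hq.2; omega
      by_cases hi : i' = i
      · subst hi
        have hlt : j' < j := by
          have h2 : j' ≠ j := fun h => hne (by rw [h])
          omega
        refine ⟨2 ^ (j - j' - 1), ?_⟩
        have e : D.κ ((2 ^ (J - j') : ℤ) • x i') -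
            (((2 ^ (j - j' - 1) : ℤ) : ℚ) * 2 ^ (J - j + 1)) • D.κ (x i') = 0 := by
          rw [map_zsmul, ← Int.cast_smul_eq_zsmul ℚ, sub_eq_zero]
          congr 1
          push_cast
          rw [← pow_add]
          congr 1
          omega
        rw [e]; exact U.zero_mem
      · refine ⟨0, ?_⟩
        rw [map_zsmul, ← Int.cast_smul_eq_zsmul ℚ]
        simp only [Int.cast_zero, zero_mul, zero_smul, sub_zero]
        refine U.smul_mem _ (Submodule.subset_span ⟨i', ⟨Set.mem_univ _, hi⟩, rfl⟩)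
    | zero => exact ⟨0, by simp⟩
    | add y y' _ _ hy hy' =>
      obtain ⟨z, hz⟩ := hy
      obtain ⟨z', hz'⟩ := hy'
      refine ⟨z + z', ?_⟩
      have e : D.κ (y + y') - (((z + z' : ℤ) : ℚ) * 2 ^ (J - j + 1)) • D.κ (x i) =
          (D.κ y - ((z : ℚ) * 2 ^ (J - j + 1)) • D.κ (x i)) +
          (D.κ y' - ((z' : ℚ) * 2 ^ (J - j + 1)) • D.κ (x i)) := by
        rw [map_add]; push_cast; module
      rw [e]; exact U.add_mem hz hz'
    | neg y _ hy =>
      obtain ⟨z, hz⟩ := hy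
      refine ⟨-z, ?_⟩
      have e : D.κ (-y) - (((-z : ℤ) : ℚ) * 2 ^ (J - j + 1)) • D.κ (x i) =
          -(D.κ y - ((z : ℚ) * 2 ^ (J - j + 1)) • D.κ (x i)) := by
        rw [map_neg]; push_cast; module
      rw [e]; exact U.neg_mem hz
  obtain ⟨z, hz⟩ := key _ h1
  rw [map_zsmul, ← Int.cast_smul_eq_zsmul ℚ, ← sub_smul] at hz
  apply hnot
  have hne : (((2 ^ (J - j) : ℤ) : ℚ) - (z : ℚ) * 2 ^ (J - j + 1)) ≠ 0 := by
    have e : (((2 ^ (J - j) : ℤ) : ℚ) - (z : ℚ) * 2 ^ (J - j + 1)) =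
        2 ^ (J - j) * (((1 - 2 * z : ℤ)) : ℚ) := by
      push_cast; ring
    rw [e]
    refine mul_ne_zero (by positivity) ?_
    have : (1 - 2 * z : ℤ) ≠ 0 := by omega
    exact_mod_cast this
  exact (U.smul_mem_iff hne).1 hz

include hρ hc in
theorem rank_stop (hF : FolExp S) : ∃ n, Vn D s A n = Vn D s A (n + 1) := by
  classical
  by_contra hcon
  push Not at hcon
  obtain ⟨K, hK⟩ := chain_bound S hF c
  have hfin : ∀ n, Module.Finite ℚ (Vn D s A n) := fun n =>
    FiniteDimensional.span_of_finite ℚ ((BxA_finite D s A n).image _)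
  have hlt : ∀ n, Vn D s A n < Vn D s A (n + 1) := fun n =>
    lt_of_le_of_ne (Vn_mono D s A (Nat.le_succ n)) (hcon n)
  have hdim : ∀ n, n ≤ Module.finrank ℚ (Vn D s A n) := by
    intro n
    induction n with
    | zero => exact Nat.zero_le _
    | succ n ih =>
      have := Submodule.finrank_lt_finrank_of_lt (hlt n)
      omega
  set n : ℕ := 2 ^ (2 * K + 2) with hn
  set J : ℕ := 2 * K + 2 with hJ
  have hfin' : Module.Finite ℚ (Submodule.span ℚ
    (D.κ '' BxA (fun v => D.a (s v)) (A : Set Λ) n)) := hfin n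
  obtain ⟨f, hfs, _, hfi⟩ := Submodule.exists_fun_fin_finrank_span_eq ℚ
    (D.κ '' BxA (fun v => D.a (s v)) (A : Set Λ) n)
  choose x hx hxf using hfs
  have hli : LinearIndependent ℚ (fun i => D.κ (x i)) := by
    have : (fun i => D.κ (x i)) = f := funext hxf
    rw [this]; exact hfi
  have h1 := hK n _ _ _ _ (chn_pow D (J := J) x hli) (by
    rintro ⟨i, j⟩ _
    simp only
    obtain ⟨v, hv, a, ha, hxe⟩ := hx i
    rw [hxe]
    apply hc n v hv a ha
    rw [abs_of_nonneg (by positivity)]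
    have h2 : (2 : ℤ) ^ (J - j) ≤ 2 ^ J := pow_le_pow_right₀ (by norm_num) (Nat.sub_le _ _)
    have h3 : ((n : ℕ) : ℤ) = 2 ^ J := by rw [hn]; push_cast; rfl
    rw [h3]
    linarith)
  rw [Finset.card_product, Finset.card_univ, Fintype.card_fin, Finset.card_range] at h1
  have h2 : n * (J + 1) ≤ K * (n + 1) :=
    (Nat.mul_le_mul_right _ (hdim n)).trans h1
  have h3 : 1 ≤ n := by rw [hn]; exact Nat.one_le_two_pow
  rw [hJ] at h2
  nlinarith

include hρ hc in
theorem rank_fin (hF : FolExp S)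
    (hgen : ∀ x : Λ, ∃ n, x ∈ AddSubgroup.closure (BxA (fun v => D.a (s v)) (A : Set Λ) n))
    (hV : Submodule.span ℚ (Set.range D.κ) = ⊤) : ∃ n, Vn D s A n = ⊤ := by
  obtain ⟨n, hn⟩ := rank_stop D s hρ S A c hc hF
  refine ⟨n, ?_⟩
  have hstep : ∀ e : Fin k → ℤ, (∀ i, |e i| ≤ 1) → ∀ w ∈ Vn D s A n, D.M (s e) w ∈ Vn D s A n := by
    intro e he w hw
    rw [hn]
    have h1 : D.M (s e) w ∈ Submodule.map (D.M (s e)) (Vn D s A n) := ⟨w, hw, rfl⟩
    rw [Vn, Submodule.map_span] at h1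
    refine Submodule.span_mono ?_ h1
    rintro _ ⟨_, ⟨_, ⟨v, hv, a, ha, rfl⟩, rfl⟩, rfl⟩
    refine ⟨D.a (s (e + v)) a, ⟨e + v, ?_, a, ha, rfl⟩, ?_⟩
    · intro i
      rw [Pi.add_apply]
      refine (abs_add_le _ _).trans ?_
      have := he i
      have := hv i
      push_cast; linarith
    · rw [hρ, D.M_κ]
  have hall : ∀ m, Vn D s A m ≤ Vn D s A n := by
    intro m
    induction m with
    | zero => exact Vn_mono D s A (Nat.zero_le n)
    | succ m ih =>
      rw [Vn, Submodule.span_le]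
      rintro _ ⟨_, ⟨v, hv, a, ha, rfl⟩, rfl⟩
      rw [SetLike.mem_coe]
      set e : Fin k → ℤ := fun i => if v i < 0 then -1 else if 0 < v i then 1 else 0 with he
      set v' : Fin k → ℤ := v - e with hv'
      have hvv : v = e + v' := by rw [hv']; abel
      have he1 : ∀ i, |e i| ≤ 1 := by
        intro i
        rw [he]
        simp only
        split_ifs <;> simp
      have hv1 : ∀ i, |v' i| ≤ m := by
        intro i
        have h1 := hv i
        rw [hv', Pi.sub_apply, he]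
        simp only
        rw [abs_le] at h1 ⊢
        push_cast at h1
        split_ifs <;> omega
      have h2 : D.κ (D.a (s v') a) ∈ Vn D s A n :=
        ih (Submodule.subset_span ⟨_, ⟨v', hv1, a, ha, rfl⟩, rfl⟩)
      have h3 := hstep e he1 _ h2
      rw [D.M_κ, ← hρ, ← hvv] at h3
      exact h3
  rw [eq_top_iff, ← hV, Submodule.span_le]
  rintro _ ⟨x, rfl⟩
  obtain ⟨m, hm⟩ := hgen x
  apply hall m
  rw [Vn]
  have h1 : D.κ x ∈ AddSubgroup.map D.κ (AddSubgroup.closure
      (BxA (fun v => D.a (s v)) (A : Set Λ) m)) := ⟨x, hm, rfl⟩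
  rw [AddMonoidHom.map_closure] at h1
  exact (AddSubgroup.closure_le (Submodule.span ℚ (D.κ '' BxA (fun v => D.a (s v))
    (A : Set Λ) m)).toAddSubgroup).2 Submodule.subset_span h1

include hc in
theorem rel_ex (hF : FolExp S) : ∃ N, 1 ≤ N ∧ ∀ a ∈ (A : Set Λ), ∀ i j : Fin k, i ≠ j →
    ∃ p₀ ∈ Finset.range N ×ˢ Finset.range N,
      D.a (s (pt2 i j p₀)) a ∈ AddSubgroup.closure ((fun p => D.a (s (pt2 i j p)) a) ''
      {q | q ∈ Finset.range N ×ˢ Finset.range N ∧ q ≠ p₀ ∧
        Wt N (pt2 i j q) ≤ Wt N (pt2 i j p₀)}) := by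
  classical
  obtain ⟨K, hK⟩ := chain_bound S hF c
  refine ⟨2 * K + 2, by omega, fun a ha i j hij => ?_⟩
  by_contra hcon
  push Not at hcon
  set N : ℕ := 2 * K + 2 with hN
  have hch : Chn (fun p : ℕ × ℕ => D.i (D.a (s (pt2 i j p)) a)) (fun p => Wt N (pt2 i j p))
      (Finset.range N ×ˢ Finset.range N) := by
    intro p hp hcl
    apply hcon p hp
    apply D.mem_cl
    rw [Set.image_image]
    exact hcl
  have h1 := hK N _ _ _ _ hch (by
    intro p hp
    rw [Finset.mem_product, Finset.mem_range, Finset.mem_range] at hp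
    have h2 := hc N (pt2 i j p) (fun l => ?_) a ha 1 (by rw [abs_one]; linarith)
    · rwa [one_smul] at h2
    · rw [pt2, Pi.add_apply]
      by_cases h1 : l = i
      · subst h1
        rw [Pi.single_eq_same, Pi.single_eq_of_ne hij, add_zero, abs_of_nonneg (by positivity)]
        exact_mod_cast hp.1.le
      · rw [Pi.single_eq_of_ne h1, zero_add]
        by_cases h2 : l = j
        · subst h2
          rw [Pi.single_eq_same, abs_of_nonneg (by positivity)]
          exact_mod_cast hp.2.le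
        · rw [Pi.single_eq_of_ne h2]; simp)
  rw [Finset.card_product, Finset.card_range] at h1
  rw [hN] at h1
  nlinarith

end Pool.Agent.H684AN
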