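import Pool.Agent.H684AN.Irr

set_option autoImplicit false

/-!
Virtual commutation under an exponential Folner function: a counting argument.
-/

namespace Pool.Agent.H684AN

section pigeon
variable {V : Type*} [CommGroup V]

/-- Counting argument: if the elements `X^a Y^b c` with `a, b ≤ n` generate at most `K^(n+1)`
elements, then some `Y^j X^J (c · Y c · ... · Y^(n-1) c)` lies in `X^(J+1) D`. Here `X` and `Y` stand
for the families of powers of two commuting endomorphisms. -/
theorem pigeon (X Y : ℕ → V →* V) (hX0 : ∀ v, X 0 v = v) (hY0 : ∀ v, Y 0 v = v)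
    (hXa : ∀ a b v, X (a + b) v = X a (X b v)) (hYa : ∀ a b v, Y (a + b) v = Y a (Y b v))
    (hXY : ∀ a b v, X a (Y b v) = Y b (X a v)) (c : V) (K : ℕ)
    (hK : ∀ n : ℕ, ∃ B : Finset V, (∀ g ∈ Subgroup.closure
      {v : V | ∃ a ≤ n, ∃ b ≤ n, v = X a (Y b c)}, g ∈ B) ∧ B.card ≤ K ^ (n + 1)) :
    ∃ J n j : ℕ, 1 ≤ n ∧ ∃ l ∈ Subgroup.closure {v : V | ∃ a b : ℕ, v = X a (Y b c)},
      Y j (X J (∏ i ∈ Finset.range n, Y i c)) = X (J + 1) l := by
  classical
  by_contra hcon
  push Not at hcon
  set D : Subgroup V := Subgroup.closure {v : V | ∃ a b : ℕ, v = X a (Y b c)} with hD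
  have hDX : ∀ J : ℕ, ∀ v ∈ D, X J v ∈ D := by
    intro J v hv
    have h1 : D ≤ D.comap (X J) := by
      rw [hD, Subgroup.closure_le]
      rintro _ ⟨a, b, rfl⟩
      exact Subgroup.subset_closure ⟨J + a, b, (hXa _ _ _).symm⟩
    exact h1 hv
  have hDY : ∀ j : ℕ, ∀ v ∈ D, Y j v ∈ D := by
    intro j v hv
    have h1 : D ≤ D.comap (Y j) := by
      rw [hD, Subgroup.closure_le]
      rintro _ ⟨a, b, rfl⟩
      refine Subgroup.subset_closure ⟨a, j + b, ?_⟩
      rw [hYa]
      exact (hXY a j _).symm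
    exact h1 hv
  set DJ : ℕ → Subgroup V := fun J => D.map (X (J + 1)) with hDJ
  have hDJmem : ∀ J v, v ∈ D → X (J + 1) v ∈ DJ J := fun J v hv => ⟨v, hv, rfl⟩
  have hDJY : ∀ J, ∀ v ∈ DJ J, Y 1 v ∈ DJ J := by
    rintro J _ ⟨v, hv, rfl⟩
    exact ⟨Y 1 v, hDY 1 v hv, hXY _ _ _⟩
  set z : ℕ → V := fun J => X J c with hz
  set U : ℕ → ℕ → Subgroup V := fun J n =>
    Subgroup.closure {v | ∃ i < n, v = Y i (z J)} with hU
  have hUfin : ∀ J n, (U J n : Set V).Finite := by
    intro J n
    obtain ⟨B, hB, _⟩ := hK (J + n)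
    refine B.finite_toSet.subset ?_
    intro v hv
    refine hB v ((Subgroup.closure_mono ?_) hv)
    rintro _ ⟨i, hi, rfl⟩
    exact ⟨J, by omega, i, by omega, (hXY _ _ _).symm⟩
  have claim1 : ∀ J n, Y n (z J) ∉ U J n ⊔ DJ J := by
    intro J n hn
    set W : Subgroup V := U J n ⊔ DJ J with hW
    have hWY : ∀ v ∈ W, Y 1 v ∈ W := by
      have h1 : W ≤ W.comap (Y 1) := by
        have h2 : U J n ≤ W.comap (Y 1) := by
          rw [hU]
          simp only
          rw [Subgroup.closure_le]
          rintro _ ⟨i, hi, rfl⟩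
          have e : Y 1 (Y i (z J)) = Y (i + 1) (z J) := by rw [add_comm, hYa]
          change Y 1 (Y i (z J)) ∈ W
          rw [e]
          rcases Nat.lt_or_ge (i + 1) n with h | h
          · exact Subgroup.mem_sup_left (Subgroup.subset_closure ⟨i + 1, h, rfl⟩)
          · have : i + 1 = n := by omega
            rw [this]; exact hn
        have h3 : DJ J ≤ W.comap (Y 1) := fun v hv => Subgroup.mem_sup_right (hDJY J v hv)
        exact sup_le h2 h3
      exact fun v hv => h1 hv
    have hall : ∀ i, Y i (z J) ∈ W := by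
      intro i
      induction i with
      | zero =>
        rcases Nat.eq_zero_or_pos n with h | h
        · rw [h] at hn; exact hn
        · exact Subgroup.mem_sup_left (Subgroup.subset_closure ⟨0, h, rfl⟩)
      | succ i ih =>
        rw [add_comm, hYa]
        exact hWY _ ih
    set s : ℕ → V := fun i => ∏ j ∈ Finset.range i, Y j c with hs
    have hsX : ∀ i, X J (s i) = ∏ j ∈ Finset.range i, Y j (z J) := by
      intro i
      rw [hs]
      simp only
      rw [map_prod]
      exact Finset.prod_congr rfl (fun j _ => hXY _ _ _)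
    have hsW : ∀ i, X J (s i) ∈ W := by
      intro i
      rw [hsX]
      exact Subgroup.prod_mem _ (fun j _ => hall j)
    have hdec : ∀ i, ∃ u ∈ U J n, ∃ w ∈ DJ J, u * w = X J (s i) := fun i =>
      Subgroup.mem_sup.1 (hsW i)
    choose u hu w hw huw using hdec
    have hmaps : Set.MapsTo u Set.univ (U J n : Set V) := fun i _ => hu i
    obtain ⟨i, _, i', _, hii, hui⟩ := Set.infinite_univ.exists_ne_map_eq_of_mapsTo hmaps (hUfin J n)
    obtain ⟨p, q, hpq, hupq⟩ : ∃ p q : ℕ, p < q ∧ u p = u q := by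
      rcases Nat.lt_or_gt_of_ne hii with h | h
      · exact ⟨i, i', h, hui⟩
      · exact ⟨i', i, h, hui.symm⟩
    have hsplit : s q = s p * Y p (s (q - p)) := by
      rw [hs]
      simp only
      rw [map_prod]
      have e : q = p + (q - p) := by omega
      conv_lhs => rw [e]
      rw [Finset.prod_range_add]
      congr 1
      exact Finset.prod_congr rfl (fun j _ => hYa _ _ _)
    have h1 : X J (Y p (s (q - p))) = (w p)⁻¹ * w q := by
      have h2 := huw q
      rw [hsplit, map_mul, ← huw p, hupq] at h2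
      have h3 : w q = w p * X J (Y p (s (q - p))) :=
        mul_left_cancel (h2.trans (mul_assoc _ _ _))
      rw [h3, inv_mul_cancel_left]
    have h4 : X J (Y p (s (q - p))) ∈ DJ J := by
      rw [h1]
      exact Subgroup.mul_mem _ (Subgroup.inv_mem _ (hw p)) (hw q)
    obtain ⟨l, hl, hl'⟩ := h4
    refine hcon J (q - p) p (by omega) l hl ?_
    rw [← hXY]
    exact hl'.symm
  -- distinct products
  set I : Finset (ℕ × ℕ) := Finset.range (K + 1) ×ˢ Finset.range K with hI
  set F : Finset (ℕ × ℕ) → V := fun E => ∏ p ∈ E, Y p.2 (z p.1) with hF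
  have hinj : ∀ E ⊆ I, ∀ E' ⊆ I, F E = F E' → E = E' := by
    intro E hE E' hE' hEE
    by_contra hne
    have hsd : (symmDiff E E').Nonempty := by
      rw [Finset.nonempty_iff_ne_empty]
      intro h
      exact hne (symmDiff_eq_bot.1 h)
    obtain ⟨p0, hp0, hmin⟩ := Finset.exists_min_image _ (fun p : ℕ × ℕ => p.1) hsd
    set J := p0.1 with hJ
    obtain ⟨p1, hp1, hmax⟩ := Finset.exists_max_image ((symmDiff E E').filter (fun p => p.1 = J))
      (fun p : ℕ × ℕ => p.2) ⟨p0, Finset.mem_filter.2 ⟨hp0, rfl⟩⟩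
    rw [Finset.mem_filter] at hp1
    obtain ⟨hp1, hp1J⟩ := hp1
    obtain ⟨n, hn⟩ : ∃ n, n = p1.2 := ⟨_, rfl⟩
    have hp1e : p1 = (J, n) := by rw [← hp1J, hn]
    apply claim1 J n
    set W : Subgroup V := U J n ⊔ DJ J with hW
    have hrest : ∀ p ∈ symmDiff E E', p ≠ p1 → Y p.2 (z p.1) ∈ W := by
      intro p hp hpne
      have h1 := hmin p hp
      rcases Nat.lt_or_ge J p.1 with h | h
      · refine Subgroup.mem_sup_right ?_
        obtain ⟨t, ht⟩ : ∃ t, p.1 = (J + 1) + t := ⟨p.1 - (J + 1), by omega⟩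
        have e : Y p.2 (z p.1) = X (J + 1) (X t (Y p.2 c)) := by
          rw [← hXa, hXY, hz, ← ht]
        rw [e]
        refine hDJmem J _ (hDX t _ (Subgroup.subset_closure ⟨0, p.2, ?_⟩))
        rw [hX0]
      · have h2 : p.1 = J := le_antisymm h h1
        have h3 := hmax p (Finset.mem_filter.2 ⟨hp, h2⟩)
        have h4 : p.2 ≠ n := by
          intro h5
          apply hpne
          rw [hp1e, ← h2, ← h5]
        refine Subgroup.mem_sup_left (Subgroup.subset_closure ⟨p.2, by omega, ?_⟩)
        rw [h2]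
    have hsplitE : F E = F (E ∩ E') * F (E \ E') := by
      rw [hF]
      simp only
      rw [← Finset.prod_union (by
        rw [Finset.disjoint_left]
        intro p hp hp'
        exact (Finset.mem_sdiff.1 hp').2 (Finset.mem_inter.1 hp).2)]
      congr 1
      ext p; simp only [Finset.mem_union, Finset.mem_inter, Finset.mem_sdiff]; tauto
    have hsplitE' : F E' = F (E ∩ E') * F (E' \ E) := by
      rw [hF]
      simp only
      rw [← Finset.prod_union (by
        rw [Finset.disjoint_left]
        intro p hp hp'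
        exact (Finset.mem_sdiff.1 hp').2 (Finset.mem_inter.1 hp).1)]
      congr 1
      ext p; simp only [Finset.mem_union, Finset.mem_inter, Finset.mem_sdiff]; tauto
    have heq : F (E \ E') = F (E' \ E) := by
      rw [hsplitE, hsplitE'] at hEE
      exact mul_left_cancel hEE
    have hprodW : ∀ T : Finset (ℕ × ℕ), T ⊆ symmDiff E E' → p1 ∉ T → F T ∈ W := by
      intro T hT hpT
      rw [hF]
      refine Subgroup.prod_mem _ (fun p hp => hrest p (hT hp) (fun h => hpT (h ▸ hp)))
    have hsub1 : E \ E' ⊆ symmDiff E E' := by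
      intro p hp
      rw [Finset.mem_symmDiff]; left; exact Finset.mem_sdiff.1 hp
    have hsub2 : E' \ E ⊆ symmDiff E E' := by
      intro p hp
      rw [Finset.mem_symmDiff]; right; exact Finset.mem_sdiff.1 hp
    have key : ∀ A B : Finset (ℕ × ℕ), A ⊆ symmDiff E E' → B ⊆ symmDiff E E' → p1 ∈ A → p1 ∉ B →
        F A = F B → Y n (z J) ∈ W := by
      intro A B hA hB hpA hpB hAB
      have h1 : F A = Y n (z J) * F (A.erase p1) := by
        rw [hF]
        simp only
        rw [← Finset.mul_prod_erase A _ hpA, hp1e]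
      have h2 : Y n (z J) = F B * (F (A.erase p1))⁻¹ := by
        rw [← hAB, h1, mul_inv_cancel_right]
      rw [h2]
      exact Subgroup.mul_mem _ (hprodW B hB hpB) (Subgroup.inv_mem _
        (hprodW _ ((Finset.erase_subset _ _).trans hA) (Finset.notMem_erase _ _)))
    rw [Finset.mem_symmDiff] at hp1
    rcases hp1 with ⟨h1, h2⟩ | ⟨h1, h2⟩
    · exact key _ _ hsub1 hsub2 (Finset.mem_sdiff.2 ⟨h1, h2⟩)
        (fun h => h2 (Finset.mem_sdiff.1 h).1) heq
    · exact key _ _ hsub2 hsub1 (Finset.mem_sdiff.2 ⟨h1, h2⟩)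
        (fun h => h2 (Finset.mem_sdiff.1 h).1) heq.symm
  obtain ⟨B, hB, hBc⟩ := hK K
  have hcard : (I.powerset).card ≤ B.card := by
    refine Finset.card_le_card_of_injOn F ?_ ?_
    · intro E hE
      rw [Finset.mem_coe, Finset.mem_powerset] at hE
      refine hB _ (Subgroup.prod_mem _ (fun p hp => Subgroup.subset_closure ?_))
      have := hE hp
      rw [hI, Finset.mem_product, Finset.mem_range, Finset.mem_range] at this
      exact ⟨p.1, by omega, p.2, by omega, (hXY _ _ _).symm⟩
    · intro E hE E' hE' h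
      rw [Finset.mem_coe, Finset.mem_powerset] at hE hE'
      exact hinj E hE E' hE' h
  rw [Finset.card_powerset, hI, Finset.card_product, Finset.card_range, Finset.card_range] at hcard
  have h1 : (2 ^ K) ^ (K + 1) ≤ K ^ (K + 1) := by
    rw [← pow_mul, mul_comm K (K + 1)]
    exact hcard.trans hBc
  have h2 : K < 2 ^ K := Nat.lt_two_pow_self
  exact absurd h1 (not_le.2 (Nat.pow_lt_pow_left h2 (by omega)))

end pigeon

end Pool.Agent.H684AN
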