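import Pool.Agent.H684AN.Vs1

set_option autoImplicit false

/-!
Virtual commutation in a group with an abelian torsion normal subgroup and an at most exponential
Folner function.
-/

namespace Pool.Agent.H684AN

variable {G : Type*} [Group G]

/-- If iterated commutators of `x` with `e` in the abelian torsion normal subgroup `M` vanish, then
`(e * x)^m = x^m` for some `m ≥ 1`. -/
theorem unip_pow (M : Subgroup G) [M.Normal] (hab : ∀ a ∈ M, ∀ b ∈ M, a * b = b * a)
    (htor : ∀ a ∈ M, ∃ n, 1 ≤ n ∧ a ^ n = 1) (x : G) (X : ℕ → M → M) (hX0 : ∀ v, X 0 v = v)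
    (hXa : ∀ a v, X (a + 1) v = X a (X 1 v)) (hX1 : ∀ v, ((X 1 v : M) : G) = x * v * x⁻¹ * (v : G)⁻¹) :
    ∀ (J : ℕ) (e : M), X J e = 1 → ∃ m, 1 ≤ m ∧ ((e : G) * x) ^ m = x ^ m := by
  intro J
  induction J with
  | zero =>
    intro e he
    rw [hX0] at he
    exact ⟨1, le_rfl, by rw [he]; simp⟩
  | succ J ih =>
    intro e he
    rw [hXa] at he
    obtain ⟨m, hm, hm'⟩ := ih _ he
    have hconj : x * (e : G) * x⁻¹ ∈ M := (inferInstance : M.Normal).conj_mem _ e.2 x
    have h1 : ((X 1 e : M) : G) * x = (e : G)⁻¹ * x * e := by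
      rw [hX1]
      have h2 := hab _ hconj _ (M.inv_mem e.2)
      calc x * (e : G) * x⁻¹ * (e : G)⁻¹ * x = (e : G)⁻¹ * (x * e * x⁻¹) * x := by rw [h2]
        _ = _ := by group
    rw [h1] at hm'
    have h3 : ((e : G)⁻¹ * x * e) ^ m = (e : G)⁻¹ * x ^ m * e := by
      have := conj_pow (i := m) (a := (e : G)⁻¹) (b := x)
      rw [inv_inv] at this
      exact this
    rw [h3] at hm'
    have hce : Commute (e : G) (x ^ m) := by
      have h4 : x ^ m * e = e * x ^ m := by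
        calc x ^ m * e = e * ((e : G)⁻¹ * x ^ m * e) := by group
          _ = e * x ^ m := by rw [hm']
      exact h4.symm
    have hc : Commute ((e : G) * x) (x ^ m) := hce.mul_left (Commute.self_pow x m)
    set ν : G := ((e : G) * x) ^ m * (x ^ m)⁻¹ with hν
    have hcν : Commute ν (x ^ m) := (hc.pow_left m).mul_left (Commute.refl _).inv_left
    have hνM : ν ∈ M := by
      rw [← QuotientGroup.eq_one_iff (N := M)]
      have he1 : ((e : G) : G ⧸ M) = 1 := (QuotientGroup.eq_one_iff _).2 e.2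
      rw [hν, QuotientGroup.mk_mul, QuotientGroup.mk_pow, QuotientGroup.mk_mul, he1, one_mul,
        QuotientGroup.mk_inv, QuotientGroup.mk_pow, mul_inv_cancel]
    obtain ⟨E, hE, hE1⟩ := htor ν hνM
    refine ⟨m * E, Nat.mul_pos hm hE, ?_⟩
    have h5 : ((e : G) * x) ^ m = ν * x ^ m := by rw [hν, inv_mul_cancel_right]
    rw [pow_mul, h5, hcν.mul_pow, hE1, one_mul, pow_mul]

theorem comm_virt (S : Finset G) (hS : Subgroup.closure (S : Set G) = ⊤) (hF : FolExp S)
    (M : Subgroup G) [M.Normal] (hab : ∀ a ∈ M, ∀ b ∈ M, a * b = b * a)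
    (htor : ∀ a ∈ M, ∃ n, 1 ≤ n ∧ a ^ n = 1) (Γ : Subgroup G) (x y : G) (hx : x ∈ Γ) (hy : y ∈ Γ)
    (hxy : y * x * y⁻¹ * x⁻¹ ∈ M) :
    ∃ (m n : ℕ) (l : G), 1 ≤ m ∧ 1 ≤ n ∧ l ∈ M ∧ l ∈ Γ ∧ Commute (x ^ m) (l * y ^ n) := by
  classical
  let _ : CommGroup M := { (inferInstance : Group M) with
    mul_comm := fun a b => Subtype.ext (hab a a.2 b b.2) }
  have hN : M.Normal := inferInstance
  -- conjugation by powers of `y` and the commutator map with `x`
  have cj : ∀ g : G, ∃ f : M →* M, ∀ v : M, ((f v : M) : G) = g * v * g⁻¹ := by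
    intro g
    refine ⟨{ toFun := fun v => ⟨g * v * g⁻¹, hN.conj_mem _ v.2 g⟩, map_one' := ?_, map_mul' := ?_ },
      fun v => rfl⟩
    · apply Subtype.ext; simp
    · intro a b; apply Subtype.ext
      change g * ((a : G) * b) * g⁻¹ = (g * a * g⁻¹) * (g * b * g⁻¹)
      group
  obtain ⟨Cx, hCx⟩ := cj x
  obtain ⟨Cy, hCy⟩ := cj y
  set X1 : M →* M := Cx * (MonoidHom.id M)⁻¹ with hX1d
  have hX1 : ∀ v : M, ((X1 v : M) : G) = x * v * x⁻¹ * (v : G)⁻¹ := by
    intro v
    rw [hX1d, MonoidHom.mul_apply, MonoidHom.inv_apply, MonoidHom.id_apply, Subgroup.coe_mul, hCx,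
      Subgroup.coe_inv]
  have pw : ∀ f : M →* M, ∃ P : ℕ → M →* M, (∀ v, P 0 v = v) ∧ (∀ a b v, P (a + b) v = P a (P b v)) ∧
      ∀ v, P 1 v = f v := by
    intro f
    refine ⟨fun n => Nat.rec (MonoidHom.id M) (fun _ g => f.comp g) n, fun v => rfl, ?_, fun v => rfl⟩
    intro a b v
    induction a with
    | zero => rw [Nat.zero_add]; rfl
    | succ a ih =>
      rw [Nat.succ_add]
      exact congrArg f ih
  obtain ⟨X, hX0, hXa, hXe⟩ := pw X1
  obtain ⟨Y, hY0, hYa, hYe⟩ := pw Cy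
  have hXe' : ∀ v : M, ((X 1 v : M) : G) = x * v * x⁻¹ * (v : G)⁻¹ := fun v => by rw [hXe, hX1]
  have hYe' : ∀ v : M, ((Y 1 v : M) : G) = y * v * y⁻¹ := fun v => by rw [hYe, hCy]
  have hYc : ∀ (j : ℕ) (v : M), ((Y j v : M) : G) = y ^ j * v * (y ^ j)⁻¹ := by
    intro j
    induction j with
    | zero => intro v; rw [hY0]; simp
    | succ j ih =>
      intro v
      rw [hYa, ih, hYe']
      rw [pow_succ]; group
  -- `x` and `y` act by commuting maps
  have hact : ∀ v : M, x * (y * (v : G) * y⁻¹) * x⁻¹ = y * (x * v * x⁻¹) * y⁻¹ := by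
    intro v
    have h1 : x * (v : G) * x⁻¹ ∈ M := hN.conj_mem _ v.2 x
    have h2 : y * (x * (v : G) * x⁻¹) * y⁻¹ ∈ M := hN.conj_mem _ h1 y
    have h3 : x * (y * (v : G) * y⁻¹) * x⁻¹ ∈ M := hN.conj_mem _ (hN.conj_mem _ v.2 y) x
    have h4 := hab _ hxy _ h3
    calc x * (y * (v : G) * y⁻¹) * x⁻¹ =
        (y * x * y⁻¹ * x⁻¹)⁻¹ * ((y * x * y⁻¹ * x⁻¹) * (x * (y * (v : G) * y⁻¹) * x⁻¹)) := by group
      _ = (y * x * y⁻¹ * x⁻¹)⁻¹ * ((x * (y * (v : G) * y⁻¹) * x⁻¹) * (y * x * y⁻¹ * x⁻¹)) := by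
          rw [h4]
      _ = (y * x * y⁻¹ * x⁻¹)⁻¹ * ((y * x * y⁻¹ * x⁻¹) * (x * (y * (v : G) * y⁻¹) * x⁻¹)) := by
          rw [h4]
      _ = y * (x * v * x⁻¹) * y⁻¹ := by
          have h5 := hab _ (M.inv_mem hxy) _ h2
          have h6 : (y * x * y⁻¹ * x⁻¹) * (x * (y * (v : G) * y⁻¹) * x⁻¹) =
              (y * (x * v * x⁻¹) * y⁻¹) * (y * x * y⁻¹ * x⁻¹) := by group
          rw [h6, ← mul_assoc, h5]
          group
  have hXY1 : ∀ v : M, X 1 (Y 1 v) = Y 1 (X 1 v) := by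
    intro v
    apply Subtype.ext
    rw [hXe', hYe', hYe', hXe', hact]
    group
  have hXYj : ∀ (b : ℕ) (v : M), X 1 (Y b v) = Y b (X 1 v) := by
    intro b
    induction b with
    | zero => intro v; rw [hY0, hY0]
    | succ b ih => intro v; rw [hYa, ih, hXY1, ← hYa]
  have hXY : ∀ (a b : ℕ) (v : M), X a (Y b v) = Y b (X a v) := by
    intro a
    induction a with
    | zero => intro b v; rw [hX0, hX0]
    | succ a ih => intro b v; rw [hXa, hXYj, ih, ← hXa]
  set c : M := ⟨y * x * y⁻¹ * x⁻¹, hxy⟩ with hc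
  -- the counting hypothesis
  obtain ⟨m0, hm0, hcm⟩ := htor c c.2
  choose len hlen using fun g => exists_WL hS g
  set c0 : ℕ := 2 * (len x + len y) + len c with hc0
  obtain ⟨K, hK⟩ := fol_card S hF m0 hm0 c0
  have hK' : ∀ n : ℕ, ∃ B : Finset M, (∀ g ∈ Subgroup.closure
      {v : M | ∃ a ≤ n, ∃ b ≤ n, v = X a (Y b c)}, g ∈ B) ∧ B.card ≤ K ^ (n + 1) := by
    intro n
    set A : Finset G := ((Finset.range (n + 1)) ×ˢ (Finset.range (n + 1))).image
      (fun p : ℕ × ℕ => (x ^ p.1 * y ^ p.2) * (c : G) * (x ^ p.1 * y ^ p.2)⁻¹) with hA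
    have hAmem : ∀ i ≤ n, ∀ j ≤ n, (x ^ i * y ^ j) * (c : G) * (x ^ i * y ^ j)⁻¹ ∈ A := by
      intro i hi j hj
      rw [hA, Finset.mem_image]
      exact ⟨(i, j), Finset.mem_product.2 ⟨Finset.mem_range.2 (by omega),
        Finset.mem_range.2 (by omega)⟩, rfl⟩
    have hAM : ∀ a ∈ A, a ∈ M := by
      intro a ha
      rw [hA, Finset.mem_image] at ha
      obtain ⟨p, _, rfl⟩ := ha
      exact hN.conj_mem _ c.2 _
    obtain ⟨B, hB, hBc⟩ := hK n A (fun a ha b hb => hab a (hAM a ha) b (hAM b hb))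
      (fun a ha => by
        rw [hA, Finset.mem_image] at ha
        obtain ⟨p, _, rfl⟩ := ha
        rw [conj_pow, hcm]; simp)
      (fun a ha => by
        rw [hA, Finset.mem_image] at ha
        obtain ⟨p, hp, rfl⟩ := ha
        rw [Finset.mem_product, Finset.mem_range, Finset.mem_range] at hp
        have h1 : WL S (p.1 * len x) (x ^ p.1) := (hlen x).pow p.1
        have h2 : WL S (p.2 * len y) (y ^ p.2) := (hlen y).pow p.2
        have h3 := ((h1.mul h2).mul (hlen c)).mul (h1.mul h2).inv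
        refine h3.mono ?_
        rw [hc0]
        have h4 : p.1 * len x ≤ n * len x := Nat.mul_le_mul_right _ (by omega)
        have h5 : p.2 * len y ≤ n * len y := Nat.mul_le_mul_right _ (by omega)
        nlinarith)
    -- the family lies in the closure
    have hin : ∀ a, ∀ b ≤ n, ∀ v : M, (v : G) ∈ Subgroup.closure
        {g : G | ∃ i ≤ a, g = (x ^ i * y ^ b) * (c : G) * (x ^ i * y ^ b)⁻¹} →
        ((X 1 v : M) : G) ∈ Subgroup.closure
        {g : G | ∃ i ≤ a + 1, g = (x ^ i * y ^ b) * (c : G) * (x ^ i * y ^ b)⁻¹} := by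
      intro a b _ v hv
      rw [hXe']
      refine Subgroup.mul_mem _ ?_ (Subgroup.inv_mem _ ((Subgroup.closure_mono ?_) hv))
      · have h1 : Subgroup.closure
            {g : G | ∃ i ≤ a, g = (x ^ i * y ^ b) * (c : G) * (x ^ i * y ^ b)⁻¹} ≤
            (Subgroup.closure {g : G | ∃ i ≤ a + 1,
              g = (x ^ i * y ^ b) * (c : G) * (x ^ i * y ^ b)⁻¹}).comap
              (MulAut.conj x).toMonoidHom := by
          rw [Subgroup.closure_le]
          rintro _ ⟨i, hi, rfl⟩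
          rw [SetLike.mem_coe, Subgroup.mem_comap]
          refine Subgroup.subset_closure ⟨i + 1, by omega, ?_⟩
          simp only [MulEquiv.toMonoidHom_eq_coe, MonoidHom.coe_coe, MulAut.conj_apply]
          rw [pow_succ']; group
        exact h1 hv
      · rintro _ ⟨i, hi, rfl⟩
        exact ⟨i, by omega, rfl⟩
    have hin2 : ∀ a, ∀ b ≤ n, ((X a (Y b c) : M) : G) ∈ Subgroup.closure
        {g : G | ∃ i ≤ a, g = (x ^ i * y ^ b) * (c : G) * (x ^ i * y ^ b)⁻¹} := by
      intro a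
      induction a with
      | zero =>
        intro b _
        rw [hX0, hYc]
        exact Subgroup.subset_closure ⟨0, le_rfl, by simp⟩
      | succ a ih =>
        intro b hb
        have e : X (a + 1) (Y b c) = X 1 (X a (Y b c)) := by rw [add_comm, hXa]
        rw [e]
        exact hin a b hb _ (ih b hb)
    have hsub : ∀ g ∈ Subgroup.closure {v : M | ∃ a ≤ n, ∃ b ≤ n, v = X a (Y b c)}, (g : G) ∈ B := by
      intro g hg
      rw [hB]
      have h1 : Subgroup.closure {v : M | ∃ a ≤ n, ∃ b ≤ n, v = X a (Y b c)} ≤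
          (Subgroup.closure (A : Set G)).comap M.subtype := by
        rw [Subgroup.closure_le]
        rintro _ ⟨a, ha, b, hb, rfl⟩
        rw [SetLike.mem_coe, Subgroup.mem_comap, Subgroup.subtype_apply]
        refine (Subgroup.closure_mono ?_) (hin2 a b hb)
        rintro _ ⟨i, hi, rfl⟩
        exact hAmem i (by omega) b hb
      exact h1 hg
    refine ⟨B.preimage (fun v : M => (v : G)) Subtype.val_injective.injOn, fun g hg => ?_, ?_⟩
    · rw [Finset.mem_preimage]; exact hsub g hg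
    · refine (Finset.card_le_card_of_injOn (fun v : M => (v : G)) ?_
        Subtype.val_injective.injOn).trans hBc
      intro v hv
      rw [Finset.mem_coe, Finset.mem_preimage] at hv
      exact hv
  obtain ⟨J, n, j, hn, l, hl, hJ⟩ := pigeon X Y hX0 hY0 hXa hYa hXY c K hK'
  -- membership in `Γ`
  have hcΓ : (c : G) ∈ Γ := Γ.mul_mem (Γ.mul_mem (Γ.mul_mem hy hx) (Γ.inv_mem hy)) (Γ.inv_mem hx)
  have hlΓ : (l : G) ∈ Γ := by
    have h0 : ∀ (a : ℕ) (v : M), (v : G) ∈ Γ → ((X a v : M) : G) ∈ Γ := by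
      intro a
      induction a with
      | zero => intro v hv; rw [hX0]; exact hv
      | succ a ih =>
        intro v hv
        rw [hXa]
        refine ih _ ?_
        rw [hXe']
        exact Γ.mul_mem (Γ.mul_mem (Γ.mul_mem hx hv) (Γ.inv_mem hx)) (Γ.inv_mem hv)
    have h1 : Subgroup.closure {v : M | ∃ a b : ℕ, v = X a (Y b c)} ≤ Γ.comap M.subtype := by
      rw [Subgroup.closure_le]
      rintro _ ⟨a, b, rfl⟩
      rw [SetLike.mem_coe, Subgroup.mem_comap, Subgroup.subtype_apply]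
      refine h0 a _ ?_
      rw [hYc]
      exact Γ.mul_mem (Γ.mul_mem (Γ.pow_mem hy _) hcΓ) (Γ.inv_mem (Γ.pow_mem hy _))
    exact h1 hl
  -- the corrected element
  set l0 : M := ⟨(y ^ j)⁻¹ * l * y ^ j, by
    have := hN.conj_mem _ l.2 (y ^ j)⁻¹
    rwa [inv_inv] at this⟩ with hl0
  have hYl : Y j l0 = l := by
    apply Subtype.ext
    rw [hYc, hl0]
    simp only
    group
  have hYinj : ∀ u v : M, Y j u = Y j v → u = v := by
    intro u v h
    have h1 : ((Y j u : M) : G) = ((Y j v : M) : G) := congrArg _ h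
    rw [hYc, hYc] at h1
    apply Subtype.ext
    exact mul_left_cancel (mul_right_cancel h1)
  set s : M := ∏ i ∈ Finset.range n, Y i c with hs
  have hsJ : X J s = X (J + 1) l0 := by
    apply hYinj
    rw [hJ, ← hXY, hYl]
  have hsG : ∀ n : ℕ, ((∏ i ∈ Finset.range n, Y i c : M) : G) = y ^ n * x * (y ^ n)⁻¹ * x⁻¹ := by
    intro n
    induction n with
    | zero => simp
    | succ n ih =>
      rw [Finset.prod_range_succ, mul_comm, Subgroup.coe_mul, ih, hYc, hc]
      simp only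
      rw [pow_succ]
      group
  have he : X J (s * (X 1 l0)⁻¹) = 1 := by
    rw [map_mul, map_inv, hsJ, hXa, mul_inv_cancel]
  have heG : ((s * (X 1 l0)⁻¹ : M) : G) * x = ((l0 : G) * y ^ n) * x * ((l0 : G) * y ^ n)⁻¹ := by
    have h1 : (s * (X 1 l0)⁻¹ : M) = l0 * s * (⟨x * (l0 : G)⁻¹ * x⁻¹, hN.conj_mem _ (M.inv_mem l0.2) x⟩ : M) := by
      have h2 : (X 1 l0)⁻¹ = l0 * (⟨x * (l0 : G)⁻¹ * x⁻¹, hN.conj_mem _ (M.inv_mem l0.2) x⟩ : M) := by
        apply Subtype.ext
        rw [Subgroup.coe_inv, hXe', Subgroup.coe_mul]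
        simp only
        group
      rw [h2, ← mul_assoc, mul_comm s l0]
    rw [h1, Subgroup.coe_mul, Subgroup.coe_mul, hs, hsG]
    simp only
    group
  obtain ⟨m, hm, hme⟩ := unip_pow M hab htor x (fun a v => X a v) hX0 (fun a v => hXa a 1 v) hXe' J _ he
  refine ⟨m, n, l0, hm, hn, l0.2, ?_, ?_⟩
  · rw [hl0]
    exact Γ.mul_mem (Γ.mul_mem (Γ.inv_mem (Γ.pow_mem hy _)) hlΓ) (Γ.pow_mem hy _)
  · rw [heG, conj_pow] at hme
    set w := (l0 : G) * y ^ n with hw
    have h1 : w * x ^ m = x ^ m * w := by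
      calc w * x ^ m = (w * x ^ m * w⁻¹) * w := by group
        _ = x ^ m * w := by rw [hme]
    exact h1.symm

end Pool.Agent.H684AN
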