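import Pool.Agent.H684AN.Vs2
import Pool.Agent.H684AN.Far6

set_option autoImplicit false

/-!
Virtual splitting: under an at most exponential Folner function, an extension of a locally finite
group by a free abelian group of rank `k`, with central commutators in the kernel, contains a free
abelian group of rank `k`.
-/

open scoped commutatorElement

namespace Pool.Agent.H684AN

variable {G : Type*} [Group G] {k : ℕ}

theorem hk_npow (π : G →* Multiplicative (Fin k → ℤ)) (g : G) (n : ℕ) :
    hk π (g ^ n) = (n : ℤ) • hk π g := by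
  rw [← zpow_natCast, hk_zpow]

theorem comm_family (S : Finset G) (hS : Subgroup.closure (S : Set G) = ⊤) (hF : FolExp S)
    (M : Subgroup G) [M.Normal] (hab : ∀ a ∈ M, ∀ b ∈ M, a * b = b * a)
    (htor : ∀ a ∈ M, ∃ n, 1 ≤ n ∧ a ^ n = 1) (π : G →* Multiplicative (Fin k → ℤ))
    (hker : ∀ g, hk π g = 0 ↔ g ∈ M) (hsurj : ∀ v : Fin k → ℤ, ∃ g, hk π g = v) :
    ∃ (g : Fin k → G) (n : Fin k → ℤ), (∀ i, n i ≠ 0) ∧ (∀ i, hk π (g i) = Pi.single i (n i)) ∧
      ∀ i j, Commute (g i) (g j) := by
  classical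
  have main : ∀ r : ℕ, ∃ (g : Fin k → G) (n : Fin k → ℤ), (∀ i, n i ≠ 0) ∧
      (∀ i, hk π (g i) = Pi.single i (n i)) ∧ ∀ i j : Fin k, (i : ℕ) < r → Commute (g i) (g j) := by
    intro r
    induction r with
    | zero =>
      choose g hg using fun i : Fin k => hsurj (Pi.single i 1)
      exact ⟨g, fun _ => 1, fun _ => one_ne_zero, hg, fun i j h => absurd h (Nat.not_lt_zero _)⟩
    | succ r ih =>
      obtain ⟨g, n, hn, hg, hc⟩ := ih
      rcases Nat.lt_or_ge r k with hr | hr
      swap
      · exact ⟨g, n, hn, hg, fun i j _ => hc i j (lt_of_lt_of_le i.2 hr)⟩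
      set x : G := g ⟨r, hr⟩ with hx
      set Γ : Subgroup G := Subgroup.centralizer {y | ∃ i : Fin k, (i : ℕ) < r ∧ y = g i} with hΓ
      have hgΓ : ∀ j, g j ∈ Γ := by
        intro j
        rw [hΓ, Subgroup.mem_centralizer_iff]
        rintro _ ⟨i, hi, rfl⟩
        exact (hc i j hi).eq
      have hxy : ∀ j, g j * x * (g j)⁻¹ * x⁻¹ ∈ M := by
        intro j
        rw [← hker]
        simp only [hk_mul, hk_inv]
        abel
      choose m n' l hm hn' hlM hlΓ hcm using fun j =>
        comm_virt S hS hF M hab htor Γ x (g j) (hgΓ ⟨r, hr⟩) (hgΓ j) (hxy j)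
      have hlc : ∀ i j : Fin k, (i : ℕ) < r → Commute (g i) (l j) := by
        intro i j hi
        have h1 := hlΓ j
        rw [hΓ, Subgroup.mem_centralizer_iff] at h1
        exact h1 _ ⟨i, hi, rfl⟩
      set m0 : ℕ := ∏ j, m j with hm0
      have hm0pos : 1 ≤ m0 := by
        rw [hm0]; exact Nat.succ_le_of_lt (Finset.prod_pos (fun j _ => hm j))
      refine ⟨fun j => if (j : ℕ) < r then g j else if (j : ℕ) = r then g j ^ m0 else l j * g j ^ n' j,
        fun j => if (j : ℕ) < r then n j else if (j : ℕ) = r then m0 * n j else n' j * n j, ?_, ?_, ?_⟩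
      · intro j
        simp only
        split_ifs
        · exact hn j
        · exact mul_ne_zero (by exact_mod_cast (by omega : m0 ≠ 0)) (hn j)
        · have := hn' j
          exact mul_ne_zero (by exact_mod_cast (by omega : n' j ≠ 0)) (hn j)
      · intro j
        simp only
        split_ifs
        · exact hg j
        · rw [hk_npow, hg, ← Pi.single_smul]; rfl
        · rw [hk_mul, hk_npow, hg, (hker _).2 (hlM j), zero_add, ← Pi.single_smul]; rfl
      · intro i j hi
        simp only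
        rcases Nat.lt_or_ge (i : ℕ) r with hir | hir
        · rw [if_pos hir]
          split_ifs
          · exact hc i j hir
          · exact (hc i j hir).pow_right _
          · exact (hlc i j hir).mul_right ((hc i j hir).pow_right _)
        · have hieq : (i : ℕ) = r := by omega
          have hi' : i = ⟨r, hr⟩ := Fin.ext hieq
          rw [if_neg (by omega), if_pos hieq]
          split_ifs with h1 h2
          · exact (hc j i h1).symm.pow_left _
          · have : j = i := Fin.ext (by omega)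
            rw [this]
          · have hd : m j ∣ m0 := Finset.dvd_prod_of_mem _ (Finset.mem_univ j)
            obtain ⟨q, hq⟩ := hd
            rw [hi', ← hx, hq, pow_mul]
            exact (hcm j).pow_left _
  obtain ⟨g, n, h1, h2, h3⟩ := main k
  exact ⟨g, n, h1, h2, fun i j => h3 i j i.2⟩

theorem fin_ord (L : Subgroup G)
    (hloc : ∀ E : Finset G, (E : Set G) ⊆ L → (Subgroup.closure (E : Set G) : Set G).Finite)
    (x : G) (hx : x ∈ L) : ∃ n, 1 ≤ n ∧ x ^ n = 1 := by
  have h1 := hloc {x} (by simpa using hx)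
  rw [Finset.coe_singleton, ← Subgroup.zpowers_eq_closure] at h1
  have h2 : IsOfFinOrder x := finite_zpowers.1 h1
  exact ⟨orderOf x, h2.orderOf_pos, pow_orderOf_eq_one x⟩

theorem cen_pow_comm (a b : G) (hz : ⁅a, b⁆ ∈ Subgroup.center G) (E : ℕ) (hE : ⁅a, b⁆ ^ E = 1) :
    Commute (a ^ E) b := by
  have hzc : ∀ g, ⁅a, b⁆ * g = g * ⁅a, b⁆ := fun g => (Subgroup.mem_center_iff.1 hz g).symm
  have h0 : a * b = ⁅a, b⁆ * b * a := by rw [commutatorElement_def]; group
  have h1 : ∀ n : ℕ, a ^ n * b = ⁅a, b⁆ ^ n * b * a ^ n := by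
    intro n
    induction n with
    | zero => simp
    | succ n ih =>
      have hzn : a * ⁅a, b⁆ ^ n = ⁅a, b⁆ ^ n * a :=
        ((show Commute ⁅a, b⁆ a from hzc a).pow_left n).eq.symm
      calc a ^ (n + 1) * b = a * (a ^ n * b) := by rw [pow_succ']; group
        _ = (a * ⁅a, b⁆ ^ n) * b * a ^ n := by rw [ih]; group
        _ = ⁅a, b⁆ ^ n * (a * b) * a ^ n := by rw [hzn]; group
        _ = ⁅a, b⁆ ^ n * (⁅a, b⁆ * b * a) * a ^ n := by rw [← h0]
        _ = ⁅a, b⁆ ^ (n + 1) * b * a ^ (n + 1) := by rw [pow_succ, pow_succ' a]; group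
  have h2 := h1 E
  rw [hE, one_mul] at h2
  exact h2

theorem zk_of_comm (π : G →* Multiplicative (Fin k → ℤ)) (h : Fin k → G) (n : Fin k → ℤ)
    (hn : ∀ i, n i ≠ 0) (hh : ∀ i, hk π (h i) = Pi.single i (n i))
    (hc : ∀ i j, Commute (h i) (h j)) :
    ∃ T : Multiplicative (Fin k → ℤ) →* G, Function.Injective T := by
  classical
  have hp : Pairwise fun i j => ∀ (x y : Multiplicative ℤ),
      Commute (zpowersHom G (h i) x) (zpowersHom G (h j) y) := by
    intro i j _ x y
    rw [zpowersHom_apply, zpowersHom_apply]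
    exact ((hc i j).zpow_left _).zpow_right _
  obtain ⟨T0, hT0⟩ : ∃ T0 : (Fin k → Multiplicative ℤ) →* G, ∀ (i : Fin k) (x : Multiplicative ℤ),
      T0 (Pi.mulSingle i x) = h i ^ Multiplicative.toAdd x :=
    ⟨MonoidHom.noncommPiCoprod (fun i => zpowersHom G (h i)) hp, fun i x =>
      (MonoidHom.noncommPiCoprod_mulSingle (fun i => zpowersHom G (h i)) (hcomm := hp) i x).trans
        (zpowersHom_apply G (h i) x)⟩
  set δ : (Fin k → Multiplicative ℤ) →* Multiplicative (Fin k → ℤ) :=
    { toFun := fun w => Multiplicative.ofAdd (fun i => Multiplicative.toAdd (w i) * n i)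
      map_one' := by
        apply Multiplicative.toAdd.injective
        funext i
        simp
      map_mul' := by
        intro a b
        apply Multiplicative.toAdd.injective
        funext i
        simp [add_mul] } with hδ
  have hπδ : π.comp T0 = δ := by
    refine MonoidHom.functions_ext _ _ _ (fun i x => ?_)
    rw [MonoidHom.comp_apply, hT0]
    apply Multiplicative.toAdd.injective
    change hk π (h i ^ Multiplicative.toAdd x) = _
    rw [hk_zpow, hh, hδ]
    funext j
    by_cases hij : j = i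
    · subst hij
      simp
    · simp [hij]
  refine ⟨T0.comp (MulEquiv.funMultiplicative (Fin k) ℤ).toMonoidHom, ?_⟩
  have hinj : Function.Injective T0 := by
    have h1 : Function.Injective δ := by
      rw [injective_iff_map_eq_one]
      intro w hw
      funext i
      have h2 := congrFun (congrArg Multiplicative.toAdd hw) i
      have h3 : Multiplicative.toAdd (w i) * n i = 0 := h2
      have h4 := (mul_eq_zero.1 h3).resolve_right (hn i)
      exact Multiplicative.toAdd.injective h4
    intro a b hab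
    apply h1
    rw [← hπδ, MonoidHom.comp_apply, MonoidHom.comp_apply, hab]
  exact hinj.comp (MulEquiv.injective (MulEquiv.funMultiplicative (Fin k) ℤ))

theorem exists_T_cen (S : Finset G) (hS : Subgroup.closure (S : Set G) = ⊤) (L : Subgroup G)
    [L.Normal]
    (hloc : ∀ E : Finset G, (E : Set G) ⊆ L → (Subgroup.closure (E : Set G) : Set G).Finite)
    (hcen : ∀ x ∈ L, ∀ y ∈ L, ⁅x, y⁆ ∈ Subgroup.center G)
    (π : G →* Multiplicative (Fin k → ℤ)) (hker : ∀ g, hk π g = 0 ↔ g ∈ L)
    (hsurj : ∀ v : Fin k → ℤ, ∃ g, hk π g = v) (hF : FolExp S) :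
    ∃ T : Multiplicative (Fin k → ℤ) →* G, Function.Injective T := by
  classical
  set N : Subgroup G := L ⊓ Subgroup.center G with hN
  have hNn : N.Normal := inferInstance
  set f : G →* G ⧸ N := QuotientGroup.mk' N with hf
  have hfs : Function.Surjective f := QuotientGroup.mk'_surjective _
  have hf1 : ∀ g, f g = 1 ↔ g ∈ N := fun g => QuotientGroup.eq_one_iff g
  obtain ⟨SQ, hSQ, hFQ⟩ := hF.quot' f hfs hS
  set M : Subgroup (G ⧸ N) := L.map f with hM
  have hMn : M.Normal := (inferInstance : L.Normal).map f hfs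
  have hNL : N ≤ L := inf_le_left
  have hπN : N ≤ π.ker := by
    intro g hg
    have h1 : hk π g = 0 := (hker g).2 (hNL hg)
    exact h1
  set πQ : G ⧸ N →* Multiplicative (Fin k → ℤ) := QuotientGroup.lift N π hπN with hπQ
  have hkQ : ∀ g, hk πQ (f g) = hk π g := fun g => rfl
  have hab : ∀ a ∈ M, ∀ b ∈ M, a * b = b * a := by
    rintro _ ⟨a, ha, rfl⟩ _ ⟨b, hb, rfl⟩
    have h1 : f ⁅a, b⁆ = 1 := by
      rw [hf1, hN]
      refine ⟨?_, hcen a ha b hb⟩
      rw [commutatorElement_def]
      exact L.mul_mem (L.mul_mem (L.mul_mem ha hb) (L.inv_mem ha)) (L.inv_mem hb)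
    rw [map_commutatorElement, commutatorElement_eq_one_iff_mul_comm] at h1
    exact h1
  have htor : ∀ a ∈ M, ∃ n, 1 ≤ n ∧ a ^ n = 1 := by
    rintro _ ⟨a, ha, rfl⟩
    obtain ⟨n, hn, hn1⟩ := fin_ord L hloc a ha
    exact ⟨n, hn, by rw [← map_pow, hn1, map_one]⟩
  have hkerQ : ∀ q, hk πQ q = 0 ↔ q ∈ M := by
    intro q
    obtain ⟨g, rfl⟩ := hfs q
    rw [hkQ, hker]
    constructor
    · intro h; exact ⟨g, h, rfl⟩
    · rintro ⟨x, hx, hxg⟩
      have h1 : x⁻¹ * g ∈ N := by
        rw [← hf1, map_mul, map_inv, hxg, inv_mul_cancel]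
      have h2 := L.mul_mem hx (hNL h1)
      rwa [mul_inv_cancel_left] at h2
  have hsurjQ : ∀ v : Fin k → ℤ, ∃ q, hk πQ q = v := by
    intro v
    obtain ⟨g, hg⟩ := hsurj v
    exact ⟨f g, by rw [hkQ, hg]⟩
  obtain ⟨q, n, hn, hq, hqc⟩ := comm_family SQ hSQ hFQ M hab htor πQ hkerQ hsurjQ
  choose g hg using fun i => hfs (q i)
  have hgN : ∀ i j, ⁅g i, g j⁆ ∈ N := by
    intro i j
    rw [← hf1, map_commutatorElement, hg, hg, commutatorElement_eq_one_iff_mul_comm]
    exact (hqc i j).eq
  choose E hE1 hE using fun p : Fin k × Fin k => fin_ord L hloc _ (hNL (hgN p.1 p.2))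
  set E0 : ℕ := ∏ p, E p with hE0
  have hE0pos : 1 ≤ E0 := by
    rw [hE0]; exact Nat.succ_le_of_lt (Finset.prod_pos (fun p _ => hE1 p))
  have hcomm : ∀ i j, Commute (g i ^ E0) (g j) := by
    intro i j
    refine cen_pow_comm _ _ (hgN i j).2 E0 ?_
    obtain ⟨t, ht⟩ : E (i, j) ∣ E0 := Finset.dvd_prod_of_mem _ (Finset.mem_univ (i, j))
    rw [ht, pow_mul, hE (i, j), one_pow]
  refine zk_of_comm π (fun i => g i ^ E0) (fun i => E0 * n i) ?_ ?_ ?_
  · intro i
    exact mul_ne_zero (by exact_mod_cast (by omega : E0 ≠ 0)) (hn i)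
  · intro i
    rw [hk_npow, ← hkQ, hg, hq, ← Pi.single_smul]; rfl
  · intro i j
    exact (hcomm i j).pow_right _

end Pool.Agent.H684AN
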