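import Pool.Agent.H684AN.Vs3
import Pool.Agent.H684AN.DimEq

set_option autoImplicit false

/-!
Virtually (locally finite)-by-`ℤ^k` groups with virtually central far commutators and at most
exponential Folner function contain `ℤ^k`; equality of the two dimensions.
-/

open scoped commutatorElement

namespace Pool.Agent.H684AN

theorem exists_T_far {G : Type*} [Group G] {k : ℕ} (hk2 : 2 ≤ k) (S : Finset G)
    (hS : Subgroup.closure (S : Set G) = ⊤) (L : Subgroup G)
    [L.Normal]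
    (hloc : ∀ E : Finset G, (E : Set G) ⊆ L → (Subgroup.closure (E : Set G) : Set G).Finite)
    (hfar : ∀ x ∈ L, ∀ y ∈ L, ∃ E : Set (G ⧸ L), E.Finite ∧ ∀ g : G,
      (QuotientGroup.mk g : G ⧸ L) ∉ E → ⁅x, g * y * g⁻¹⁆ ∈ Subgroup.center G)
    (hq : Nonempty ((G ⧸ L) ≃* Multiplicative (Fin k → ℤ))) (hF : FolExp S) :
    ∃ T : Multiplicative (Fin k → ℤ) →* G, Function.Injective T := by
  classical
  obtain ⟨e⟩ := hq
  set π : G →* Multiplicative (Fin k → ℤ) := e.toMonoidHom.comp (QuotientGroup.mk' L) with hπ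
  have hker : ∀ g, hk π g = 0 ↔ g ∈ L := by
    intro g
    have h1 : π g = 1 ↔ g ∈ L := by
      rw [hπ]
      simp only [MonoidHom.comp_apply, MulEquiv.toMonoidHom_eq_coe, MonoidHom.coe_coe,
        QuotientGroup.mk'_apply]
      rw [map_eq_one_iff e e.injective, QuotientGroup.eq_one_iff]
    rw [← h1, hk]
    exact Iff.rfl
  have hsurj : ∀ v : Fin k → ℤ, ∃ g : G, hk π g = v := by
    intro v
    obtain ⟨q, hq⟩ := e.surjective (Multiplicative.ofAdd v)
    obtain ⟨g, rfl⟩ := QuotientGroup.mk'_surjective L q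
    exact ⟨g, by rw [hk, hπ]; simp only [MonoidHom.comp_apply]; exact congrArg Multiplicative.toAdd hq⟩
  have hfarπ : ∀ x ∈ L, ∀ y ∈ L, ∃ m : ℕ, ∀ g : G, (∃ i, (m : ℤ) ≤ |hk π g i|) →
      ⁅x, g * y * g⁻¹⁆ ∈ Subgroup.center G := by
    intro x hx y hy
    obtain ⟨E, hE, hE'⟩ := hfar x hx y hy
    refine ⟨hE.toFinset.sup (fun q => Finset.univ.sup
      (fun i => ((Multiplicative.toAdd (e q)) i).natAbs)) + 1, fun g hg => hE' g (fun hgE => ?_)⟩
    obtain ⟨i, hi⟩ := hg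
    have h1 : ((Multiplicative.toAdd (e (QuotientGroup.mk g : G ⧸ L))) i).natAbs ≤
        hE.toFinset.sup (fun q => Finset.univ.sup
          (fun i => ((Multiplicative.toAdd (e q)) i).natAbs)) :=
      (Finset.le_sup (f := fun i => ((Multiplicative.toAdd (e (QuotientGroup.mk g : G ⧸ L))) i).natAbs)
        (Finset.mem_univ i)).trans (Finset.le_sup (f := fun q => Finset.univ.sup
          (fun i => ((Multiplicative.toAdd (e q)) i).natAbs)) (hE.mem_toFinset.2 hgE))
    have h2 : hk π g i = (Multiplicative.toAdd (e (QuotientGroup.mk g : G ⧸ L))) i := rfl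
    rw [h2, Int.abs_eq_natAbs] at hi
    omega
  exact exists_T_cen S hS L hloc (far_dich hk2 S hS L hloc π hsurj hfarπ hF) π hker hsurj hF

theorem exists_T_farV {G : Type*} [Group G] (S : Finset G) (hS : Subgroup.closure (S : Set G) = ⊤)
    (H : Subgroup G) (hfi : H.FiniteIndex) (L : Subgroup H) [L.Normal]
    (hloc : ∀ E : Finset H, (E : Set H) ⊆ L → (Subgroup.closure (E : Set H) : Set H).Finite)
    (K : Subgroup H) (hK : K.FiniteIndex)
    (hfar : ∀ x ∈ L, ∀ y ∈ L, ∃ E : Set (H ⧸ L), E.Finite ∧ ∀ g : H,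
      (QuotientGroup.mk g : H ⧸ L) ∉ E → ∀ w ∈ K, Commute ⁅x, g * y * g⁻¹⁆ w)
    (k : ℕ) (hk2 : 2 ≤ k) (hq : Nonempty ((H ⧸ L) ≃* Multiplicative (Fin k → ℤ))) (hF : FolExp S) :
    ∃ T : Multiplicative (Fin k → ℤ) →* G, Function.Injective T := by
  have := hfi
  have := hK
  have : Group.FG G := Group.fg_def.2 ⟨S, hS⟩
  obtain ⟨SH, hSH⟩ := Group.fg_def.1 (inferInstance : Group.FG H)
  obtain ⟨SK, hSK⟩ := Group.fg_def.1 (inferInstance : Group.FG K)
  have hfarK : ∀ x ∈ L.subgroupOf K, ∀ y ∈ L.subgroupOf K, ∃ E : Set (K ⧸ L.subgroupOf K),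
      E.Finite ∧ ∀ g : K, (QuotientGroup.mk g : K ⧸ L.subgroupOf K) ∉ E →
        ⁅x, g * y * g⁻¹⁆ ∈ Subgroup.center K := by
    intro x hx y hy
    obtain ⟨E, hE, hE'⟩ := hfar x (Subgroup.mem_subgroupOf.1 hx) y (Subgroup.mem_subgroupOf.1 hy)
    set φ : K ⧸ L.subgroupOf K →* H ⧸ L :=
      QuotientGroup.map (L.subgroupOf K) L K.subtype (fun z hz => Subgroup.mem_subgroupOf.1 hz)
      with hφ
    have hφm : ∀ z : K, φ (QuotientGroup.mk z) = QuotientGroup.mk (z : H) := fun z => rfl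
    have hinj : Function.Injective φ := by
      intro a b hab
      obtain ⟨a, rfl⟩ := QuotientGroup.mk_surjective a
      obtain ⟨b, rfl⟩ := QuotientGroup.mk_surjective b
      rw [hφm, hφm, QuotientGroup.eq] at hab
      rw [QuotientGroup.eq, Subgroup.mem_subgroupOf]
      exact hab
    refine ⟨φ ⁻¹' E, hE.preimage hinj.injOn, fun g hg => ?_⟩
    rw [Subgroup.mem_center_iff]
    intro w
    apply Subtype.ext
    have h1 := hE' (g : H) hg (w : H) w.2
    exact h1.eq.symm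
  obtain ⟨T, hT⟩ := exists_T_far hk2 SK hSK (L.subgroupOf K) (fun E hE => sub_loc L K hloc E hE) hfarK
    (sub_quot L K hq) ((hF.down hS hSH).down hSH hSK)
  refine ⟨(H.subtype.comp K.subtype).comp T, ?_⟩
  exact (H.subtype_injective.comp K.subtype_injective).comp hT

theorem main_Dim2 {G : Type*} [Group G] (S : Finset G) (hS : Subgroup.closure (S : Set G) = ⊤)
    (H : Subgroup G) (hfi : H.FiniteIndex) (L : Subgroup H) [L.Normal]
    (hloc : ∀ E : Finset H, (E : Set H) ⊆ L → (Subgroup.closure (E : Set H) : Set H).Finite)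
    (K : Subgroup H) (hK : K.FiniteIndex)
    (hfar : ∀ x ∈ L, ∀ y ∈ L, ∃ E : Set (H ⧸ L), E.Finite ∧ ∀ g : H,
      (QuotientGroup.mk g : H ⧸ L) ∉ E → ∀ w ∈ K, Commute ⁅x, g * y * g⁻¹⁆ w)
    (k : ℕ) (hq : Nonempty ((H ⧸ L) ≃* Multiplicative (Fin k → ℤ)))
    (hF : FolExp S) (d : ℕ) : (AsD S d ↔ AnD S d) ∧ (AnD S d ↔ k ≤ d) :=
  main_Dim S hS H hfi L hloc K hK hfar k hq
    (fun hk2 => exists_T_farV S hS H hfi L hloc K hK hfar k hk2 hq hF) hF d

end Pool.Agent.H684AN
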