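import Pool.Agent.H684AN.Wtw

set_option autoImplicit false

/-!
The unipotent part of a commutator of two elements: quadratically growing multiples are cheap.
-/

namespace Pool.Agent.H684AN

section
variable {R : Type*} [Ring R] [Algebra ℚ R]

theorem pow_choose (M N P : R) (hM : M = 1 + N) (s : ℕ) (hs : 0 < s) (hN : N ^ s * P = 0) (p : ℕ) :
    M ^ p * P = ∑ a ∈ Finset.range s, ((p.choose a : ℕ) : ℚ) • (N ^ a * P) := by
  obtain ⟨s', rfl⟩ : ∃ s', s = s' + 1 := ⟨s - 1, by omega⟩
  induction p with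
  | zero =>
    rw [Finset.sum_range_succ', pow_zero, one_mul]
    simp
  | succ p ih =>
    have e1 : M ^ (p + 1) * P = M ^ p * P + N * (M ^ p * P) := by
      rw [pow_succ', hM]; noncomm_ring
    rw [e1, ih, Finset.mul_sum]
    have e2 : ∑ a ∈ Finset.range (s' + 1), N * (((p.choose a : ℕ) : ℚ) • (N ^ a * P)) =
        ∑ a ∈ Finset.range s', ((p.choose a : ℕ) : ℚ) • (N ^ (a + 1) * P) := by
      rw [Finset.sum_range_succ]
      have h1 : N * (((p.choose s' : ℕ) : ℚ) • (N ^ s' * P)) = 0 := by
        rw [mul_smul_comm, ← mul_assoc, ← pow_succ', hN, smul_zero]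
      rw [h1, add_zero]
      refine Finset.sum_congr rfl (fun a _ => ?_)
      rw [mul_smul_comm, ← mul_assoc, ← pow_succ']
    rw [e2, Finset.sum_range_succ', Finset.sum_range_succ', add_right_comm,
      ← Finset.sum_add_distrib]
    congr 1
    · refine Finset.sum_congr rfl (fun a _ => ?_)
      rw [← add_smul, Nat.choose_succ_succ']
      congr 1
      push_cast; ring
    · simp

theorem geom_choose (M N P : R) (hM : M = 1 + N) (s : ℕ) (hs : 0 < s) (hN : N ^ s * P = 0)
    (p : ℕ) : (∑ x ∈ Finset.range p, M ^ x) * P =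
      ∑ a ∈ Finset.range s, ((p.choose (a + 1) : ℕ) : ℚ) • (N ^ a * P) := by
  induction p with
  | zero => simp
  | succ p ih =>
    rw [Finset.sum_range_succ, add_mul, ih, pow_choose M N P hM s hs hN p,
      ← Finset.sum_add_distrib]
    refine Finset.sum_congr rfl (fun a _ => ?_)
    rw [← add_smul, Nat.choose_succ_succ']
    congr 1
    push_cast; ring

end

/-- the binomial coefficient as a polynomial -/
noncomputable def gp (a : ℕ) : Polynomial ℚ :=
  Polynomial.C ((a.factorial : ℚ)⁻¹) * descPochhammer ℚ a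

theorem gp_eval (a p : ℕ) : (gp a).eval (p : ℚ) = ((p.choose a : ℕ) : ℚ) := by
  rw [gp, Polynomial.eval_mul, Polynomial.eval_C, descPochhammer_eval_eq_descFactorial,
    Nat.descFactorial_eq_factorial_mul_choose]
  push_cast
  have : ((a.factorial : ℕ) : ℚ) ≠ 0 := by exact_mod_cast a.factorial_ne_zero
  field_simp

theorem gp_coeff : (gp (0 + 1) * gp (0 + 1)).coeff 2 = 1 := by
  have h1 : gp (0 + 1) = Polynomial.X := by
    rw [gp, zero_add, descPochhammer_one]; simp
  rw [h1, ← pow_two, Polynomial.coeff_X_pow]; simp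

variable {G : Type*} [Group G] {Λ : Type*} [AddCommGroup Λ] {V : Type*} [AddCommGroup V]
  [Module ℚ V] {D : Sys G Λ V} {r : ℕ} (b : Module.Basis (Fin r) ℚ V) (β : Fin r → Λ)
  (hβ : ∀ j, b j = D.κ (β j)) {S : Finset G} (hS : Subgroup.closure (S : Set G) = ⊤)

theorem M_pow (g : G) (n : ℕ) (v : V) : D.M (g ^ n) v = ((D.M g : Module.End ℚ V) ^ n) v := by
  induction n with
  | zero => rw [pow_zero, D.M_one, pow_zero]; rfl
  | succ n ih => rw [pow_succ', D.M_mul, ih, pow_succ', Module.End.mul_apply]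

include hβ hS in
theorem W2_cx (hcx : ∀ g h : G, ∃ x, g * h * g⁻¹ * h⁻¹ = D.i x) (T U : G) (P : Module.End ℚ V)
    (hPc : ∀ g, Commute P (D.M g : Module.End ℚ V)) (s : ℕ)
    (hT : (D.M T - 1 : Module.End ℚ V) ^ s * P = 0) (hU : (D.M U - 1 : Module.End ℚ V) ^ s * P = 0)
    (hcheap : ∃ C : ℕ, ∀ p : ℕ, EE D b β S (C * (p + 1)) 0
      (P (P (D.κ (cx hcx (T ^ p) (U ^ p)))))) :
    W2 D b β S (P (P (D.κ (cx hcx T U)))) := by
  classical
  obtain ⟨C, hC⟩ := hcheap
  set MT : Module.End ℚ V := D.M T with hMT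
  set MU : Module.End ℚ V := D.M U with hMU
  set NT : Module.End ℚ V := MT - 1 with hNT
  set NU : Module.End ℚ V := MU - 1 with hNU
  set s' : ℕ := s + 1 with hs'
  have hT' : NT ^ s' * P = 0 := by rw [hs', pow_succ', mul_assoc, hT, mul_zero]
  have hU' : NU ^ s' * P = 0 := by rw [hs', pow_succ', mul_assoc, hU, mul_zero]
  have hMTU : Commute MT MU := by
    apply LinearMap.ext
    intro v
    exact M_comm b β hβ hcx T U v
  have hNTU : Commute NT NU := (hMTU.sub_left (Commute.one_left _)).sub_right (Commute.one_right _)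
  have hPNT : Commute P NT := (hPc T).sub_right (Commute.one_right _)
  have hPNU : Commute P NU := (hPc U).sub_right (Commute.one_right _)
  set ζ : V := D.κ (cx hcx T U) with hζ
  set η : V := P (P ζ) with hη
  -- the formula for the commutators of powers
  have hform : ∀ p : ℕ, P (P (D.κ (cx hcx (T ^ p) (U ^ p)))) =
      ∑ a ∈ Finset.range s', ∑ c ∈ Finset.range s',
        (((p.choose (a + 1) : ℕ) : ℚ) * ((p.choose (c + 1) : ℕ) : ℚ)) • (NT ^ a * NU ^ c) η := by
    intro p
    set A : Module.End ℚ V := ∑ x ∈ Finset.range p, MT ^ x with hA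
    set B : Module.End ℚ V := ∑ x ∈ Finset.range p, MU ^ x with hB
    have e1 : D.κ (cx hcx (T ^ p) (U ^ p)) = A (B ζ) := by
      rw [cx_pow_left, map_sum]
      have e2 : D.κ (cx hcx T (U ^ p)) = B ζ := by
        rw [cx_pow_right, map_sum, hB, LinearMap.sum_apply]
        refine Finset.sum_congr rfl (fun y _ => ?_)
        rw [← D.M_κ, M_pow]
      rw [hA, LinearMap.sum_apply]
      refine Finset.sum_congr rfl (fun y _ => ?_)
      rw [← D.M_κ, M_pow, e2]
    have hPA : Commute P A := Commute.sum_right _ _ _ (fun x _ => (hPc T).pow_right x)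
    have hPB : Commute P B := Commute.sum_right _ _ _ (fun x _ => (hPc U).pow_right x)
    have e3 : P (P (A (B ζ))) = ((A * P) * (B * P)) ζ := by
      have e4 : P * P * A * B = (A * P) * (B * P) := by
        calc P * P * A * B = P * (P * A) * B := by simp only [mul_assoc]
          _ = P * (A * P) * B := by rw [hPA.eq]
          _ = (P * A) * (P * B) := by simp only [mul_assoc]
          _ = (A * P) * (B * P) := by rw [hPA.eq, hPB.eq]
      rw [← e4]; rfl
    rw [e1, e3, hA, hB, geom_choose MT NT P (by rw [hNT]; abel) s' (by omega) hT' p,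
      geom_choose MU NU P (by rw [hNU]; abel) s' (by omega) hU' p, Finset.sum_mul_sum,
      LinearMap.sum_apply]
    refine Finset.sum_congr rfl (fun a _ => ?_)
    rw [LinearMap.sum_apply]
    refine Finset.sum_congr rfl (fun c _ => ?_)
    rw [smul_mul_smul_comm, LinearMap.smul_apply]
    congr 1
    have e5 : NT ^ a * P * (NU ^ c * P) = NT ^ a * NU ^ c * (P * P) := by
      calc NT ^ a * P * (NU ^ c * P) = NT ^ a * (P * NU ^ c) * P := by simp only [mul_assoc]
        _ = NT ^ a * (NU ^ c * P) * P := by rw [(hPNU.pow_right c).eq]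
        _ = _ := by simp only [mul_assoc]
    rw [e5]; rfl
  -- polynomial coefficients
  set W : ℕ := 3 + ∑ a ∈ Finset.range s', ∑ c ∈ Finset.range s',
    (gp (a + 1) * gp (c + 1)).natDegree with hW
  have hdeg : ∀ a ∈ Finset.range s', ∀ c ∈ Finset.range s',
      (gp (a + 1) * gp (c + 1)).natDegree < W := by
    intro a ha c hc
    have h1 : (gp (a + 1) * gp (c + 1)).natDegree ≤
        ∑ c ∈ Finset.range s', (gp (a + 1) * gp (c + 1)).natDegree :=
      Finset.single_le_sum (f := fun c => (gp (a + 1) * gp (c + 1)).natDegree)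
        (fun _ _ => Nat.zero_le _) hc
    have h2 : (∑ c ∈ Finset.range s', (gp (a + 1) * gp (c + 1)).natDegree) ≤
        ∑ a ∈ Finset.range s', ∑ c ∈ Finset.range s', (gp (a + 1) * gp (c + 1)).natDegree :=
      Finset.single_le_sum
        (f := fun a => ∑ c ∈ Finset.range s', (gp (a + 1) * gp (c + 1)).natDegree)
        (fun _ _ => Nat.zero_le _) ha
    omega
  set ξ : ℕ → V := fun w => ∑ a ∈ Finset.range s', ∑ c ∈ Finset.range s',
    (gp (a + 1) * gp (c + 1)).coeff w • (NT ^ a * NU ^ c) η with hξ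
  have hpoly : ∀ p : ℕ, P (P (D.κ (cx hcx (T ^ p) (U ^ p)))) =
      ∑ w ∈ Finset.range W, ((p : ℚ) ^ w) • ξ w := by
    intro p
    rw [hform]
    simp only [hξ, Finset.smul_sum]
    symm
    rw [Finset.sum_comm]
    refine Finset.sum_congr rfl (fun a ha => ?_)
    rw [Finset.sum_comm]
    refine Finset.sum_congr rfl (fun c hc => ?_)
    rw [← gp_eval, ← gp_eval, ← Polynomial.eval_mul,
      Polynomial.eval_eq_sum_range' (hdeg a ha c hc), Finset.sum_smul]
    refine Finset.sum_congr rfl (fun w _ => ?_)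
    rw [smul_smul, mul_comm]
  have h1 := iso2 b β (fun ζ => EE.real b β hβ hS ζ) W (by omega) ξ C
    (fun p => by rw [← hpoly p]; exact hC p)
  refine W2_unit b β NT NU hNTU (WA.M_sub b β hβ hS T) (WA.M_sub b β hβ hS U) s' (by omega) η ?_
    (fun a c => (gp (a + 1) * gp (c + 1)).coeff 2) gp_coeff h1
  intro a c hac
  have e : (NT ^ a * NU ^ c) η = (NT ^ a * NU ^ c * (P * P)) ζ := rfl
  rw [e]
  have h0 : NT ^ a * NU ^ c * (P * P) = 0 := by
    rcases hac with h | h
    · obtain ⟨d, rfl⟩ := Nat.exists_eq_add_of_le h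
      have h2 : NT ^ (s' + d) * P = 0 := by
        rw [add_comm, pow_add, mul_assoc, hT', mul_zero]
      calc NT ^ (s' + d) * NU ^ c * (P * P) = (NU ^ c * NT ^ (s' + d)) * (P * P) := by
            rw [(hNTU.pow_pow _ _).eq]
        _ = NU ^ c * (NT ^ (s' + d) * P) * P := by simp only [mul_assoc]
        _ = 0 := by rw [h2, mul_zero, zero_mul]
    · obtain ⟨d, rfl⟩ := Nat.exists_eq_add_of_le h
      have h2 : NU ^ (s' + d) * P = 0 := by
        rw [add_comm, pow_add, mul_assoc, hU', mul_zero]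
      calc NT ^ a * NU ^ (s' + d) * (P * P) = NT ^ a * (NU ^ (s' + d) * P) * P := by
            simp only [mul_assoc]
        _ = 0 := by rw [h2, mul_zero, zero_mul]
  rw [h0]; rfl

end Pool.Agent.H684AN
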