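import Pool.Agent.H684AN.Crs

set_option autoImplicit false

/-!
Vectors whose quadratically growing multiples are cheap.
-/

namespace Pool.Agent.H684AN

variable {G : Type*} [Group G] {Λ : Type*} [AddCommGroup Λ] {V : Type*} [AddCommGroup V]
  [Module ℚ V] {D : Sys G Λ V} {r : ℕ} (b : Module.Basis (Fin r) ℚ V) (β : Fin r → Λ)
  (hβ : ∀ j, b j = D.κ (β j)) {S : Finset G} (hS : Subgroup.closure (S : Set G) = ⊤)

/-- multiples `t • ζ` with `|t| ≤ (n + 1) ^ 2` cost `O(n)` -/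
def W2 (D : Sys G Λ V) (b : Module.Basis (Fin r) ℚ V) (β : Fin r → Λ) (S : Finset G) (ζ : V) :
    Prop :=
  ∃ C : ℕ, ∀ (n : ℕ) (t : ℚ), |t| ≤ ((n : ℚ) + 1) ^ 2 → EE D b β S (C * (n + 1)) 0 (t • ζ)

theorem W2.zero : W2 D b β S 0 :=
  ⟨0, fun n t _ => by rw [smul_zero, zero_mul]; exact EE.zero b β⟩

theorem W2.add {ζ ζ' : V} (h : W2 D b β S ζ) (h' : W2 D b β S ζ') : W2 D b β S (ζ + ζ') := by
  obtain ⟨C, hC⟩ := h
  obtain ⟨C', hC'⟩ := h'
  refine ⟨C + C', fun n t ht => ?_⟩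
  have h1 := (hC n t ht).add b β (hC' n t ht)
  rw [add_zero, ← smul_add] at h1
  rw [add_mul]; exact h1

theorem W2.smul {ζ : V} (h : W2 D b β S ζ) (q : ℚ) : W2 D b β S (q • ζ) := by
  obtain ⟨C, hC⟩ := h
  obtain ⟨K, hK⟩ := exists_nat_gt |q|
  refine ⟨K * C, fun n t ht => ?_⟩
  have hK0 : (0 : ℚ) < K := lt_of_le_of_lt (abs_nonneg q) hK
  have h1 := hC n (t * q / K) (by
    rw [abs_div, abs_mul, abs_of_pos hK0, div_le_iff₀ hK0]
    exact mul_le_mul ht hK.le (abs_nonneg q) (by positivity))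
  have h2 := EE.nat_smul b β h1 K
  rw [smul_smul] at h2
  have e : (K : ℚ) * (t * q / K) = t * q := by field_simp
  rw [e] at h2
  rw [smul_smul, mul_assoc]
  exact h2

theorem W2.neg {ζ : V} (h : W2 D b β S ζ) : W2 D b β S (-ζ) := by
  have := h.smul b β (-1)
  rwa [neg_one_smul] at this

theorem W2.sum {ι : Type*} (s : Finset ι) (f : ι → V) (h : ∀ i ∈ s, W2 D b β S (f i)) :
    W2 D b β S (∑ i ∈ s, f i) := by
  classical
  induction s using Finset.induction_on with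
  | empty => rw [Finset.sum_empty]; exact W2.zero b β
  | insert a s ha ih =>
    rw [Finset.sum_insert ha]
    exact (h a (Finset.mem_insert_self a s)).add b β
      (ih (fun j hj => h j (Finset.mem_insert_of_mem hj)))

/-- operators preserving these vectors -/
def WA (D : Sys G Λ V) (b : Module.Basis (Fin r) ℚ V) (β : Fin r → Λ) (S : Finset G)
    (Q : Module.End ℚ V) : Prop := ∀ ζ, W2 D b β S ζ → W2 D b β S (Q ζ)

include hβ hS in
theorem WA.M_sub (g : G) : WA D b β S (D.M g - 1) := by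
  intro ζ h
  have h1 : W2 D b β S (D.M g ζ) := by
    obtain ⟨C, hC⟩ := h
    obtain ⟨C', hC'⟩ := EE.step (D := D) b β hβ hS g
    refine ⟨C + C', fun n t ht => ?_⟩
    have h1 := hC' _ _ _ (hC n t ht)
    rw [map_zero, map_smul] at h1
    refine h1.mono b β ?_
    nlinarith
  have h2 := h1.add b β (h.neg b β)
  rwa [← sub_eq_add_neg] at h2

theorem WA.mul {P Q : Module.End ℚ V} (hP : WA D b β S P) (hQ : WA D b β S Q) :
    WA D b β S (P * Q) := fun ζ h => hP _ (hQ ζ h)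

theorem WA.pow {P : Module.End ℚ V} (hP : WA D b β S P) (n : ℕ) : WA D b β S (P ^ n) := by
  induction n with
  | zero => rw [pow_zero]; exact fun ζ h => h
  | succ n ih => rw [pow_succ]; exact ih.mul b β hP

/-- passing from a unipotent combination to the vector itself -/
theorem W2_unit (NT NU : Module.End ℚ V) (hc : Commute NT NU) (hT : WA D b β S NT)
    (hU : WA D b β S NU) (s : ℕ) (hs : 0 < s) (η : V)
    (hz : ∀ a c : ℕ, (s ≤ a ∨ s ≤ c) → (NT ^ a * NU ^ c) η = 0) (cf : ℕ → ℕ → ℚ)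
    (hcf : cf 0 0 = 1)
    (hξ : W2 D b β S (∑ a ∈ Finset.range s, ∑ c ∈ Finset.range s,
      cf a c • (NT ^ a * NU ^ c) η)) : W2 D b β S η := by
  have key : ∀ m : ℕ, ∀ a c : ℕ, 2 * s ≤ a + c + m → W2 D b β S ((NT ^ a * NU ^ c) η) := by
    intro m
    induction m with
    | zero =>
      intro a c h
      rw [hz a c (by omega)]
      exact W2.zero b β
    | succ m ih =>
      intro a c h
      have h1 : W2 D b β S ((NT ^ a * NU ^ c) (∑ a ∈ Finset.range s, ∑ c ∈ Finset.range s,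
          cf a c • (NT ^ a * NU ^ c) η)) := ((hT.pow b β a).mul b β (hU.pow b β c)) _ hξ
      have hcomp : ∀ a' c' : ℕ, (NT ^ a * NU ^ c) ((NT ^ a' * NU ^ c') η) =
          (NT ^ (a + a') * NU ^ (c + c')) η := by
        intro a' c'
        rw [← Module.End.mul_apply]
        congr 1
        have h2 : NU ^ c * NT ^ a' = NT ^ a' * NU ^ c := (hc.pow_pow a' c).eq.symm
        calc NT ^ a * NU ^ c * (NT ^ a' * NU ^ c') = NT ^ a * (NU ^ c * NT ^ a') * NU ^ c' := by
              simp only [mul_assoc]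
          _ = _ := by rw [h2, pow_add, pow_add]; simp only [mul_assoc]
      have e : (NT ^ a * NU ^ c) (∑ a ∈ Finset.range s, ∑ c ∈ Finset.range s,
          cf a c • (NT ^ a * NU ^ c) η) =
          ∑ p ∈ Finset.range s ×ˢ Finset.range s,
            cf p.1 p.2 • (NT ^ (a + p.1) * NU ^ (c + p.2)) η := by
        rw [map_sum, Finset.sum_product]
        refine Finset.sum_congr rfl (fun a' _ => ?_)
        rw [map_sum]
        refine Finset.sum_congr rfl (fun c' _ => ?_)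
        rw [map_smul, hcomp]
      rw [e] at h1
      have hmem : ((0, 0) : ℕ × ℕ) ∈ Finset.range s ×ˢ Finset.range s := by
        rw [Finset.mem_product]; exact ⟨Finset.mem_range.2 hs, Finset.mem_range.2 hs⟩
      rw [← Finset.add_sum_erase _ _ hmem] at h1
      have h2 : W2 D b β S (∑ p ∈ (Finset.range s ×ˢ Finset.range s).erase (0, 0),
          cf p.1 p.2 • (NT ^ (a + p.1) * NU ^ (c + p.2)) η) := by
        refine W2.sum b β _ _ (fun p hp => (ih _ _ ?_).smul b β _)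
        rw [Finset.mem_erase] at hp
        have h3 : p.1 ≠ 0 ∨ p.2 ≠ 0 := by
          by_contra hcon
          push Not at hcon
          exact hp.1 (Prod.ext hcon.1 hcon.2)
        omega
      have h3 := h1.add b β (h2.neg b β)
      simp only [hcf, add_zero, one_smul] at h3
      rwa [add_assoc, add_neg_cancel, add_zero] at h3
  have := key (2 * s) 0 0 (by omega)
  simpa using this

/-- isolating the quadratic coefficient -/
theorem iso2 (hreal : ∀ ζ : V, ∃ C : ℕ, ∀ (q : ℚ) (R : ℕ), |q| ≤ R →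
    EE D b β S (C * (R + 1)) 0 (q • ζ)) (W : ℕ) (hW : 2 < W) (ξ : ℕ → V) (C : ℕ)
    (h : ∀ p : ℕ, EE D b β S (C * (p + 1)) 0 (∑ w ∈ Finset.range W, ((p : ℚ) ^ w) • ξ w)) :
    W2 D b β S (ξ 2) := by
  classical
  have kill : ∀ J : Finset ℕ, ∃ C : ℕ, ∀ p : ℕ, EE D b β S (C * (p + 1)) 0
      (∑ w ∈ Finset.range W, ((∏ j ∈ J, ((2 : ℚ) ^ w - 2 ^ j)) * (p : ℚ) ^ w) • ξ w) := by
    intro J
    induction J using Finset.induction_on with
    | empty => exact ⟨C, fun p => by simpa using h p⟩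
    | insert j J hj ih =>
      obtain ⟨C, hC⟩ := ih
      refine ⟨2 * C + 2 ^ j * C, fun p => ?_⟩
      have h1 := hC (2 * p)
      have h2 := EE.nat_smul b β ((hC p).neg b β |> fun h => by rwa [neg_zero] at h) (2 ^ j)
      have h3 := h1.add b β h2
      rw [add_zero] at h3
      have e : (∑ w ∈ Finset.range W, ((∏ j ∈ J, ((2 : ℚ) ^ w - 2 ^ j)) *
          ((2 * p : ℕ) : ℚ) ^ w) • ξ w) + ((2 ^ j : ℕ) : ℚ) •
          -(∑ w ∈ Finset.range W, ((∏ j ∈ J, ((2 : ℚ) ^ w - 2 ^ j)) * (p : ℚ) ^ w) • ξ w) =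
          ∑ w ∈ Finset.range W, ((∏ j ∈ insert j J, ((2 : ℚ) ^ w - 2 ^ j)) *
            (p : ℚ) ^ w) • ξ w := by
        rw [smul_neg, ← sub_eq_add_neg, Finset.smul_sum, ← Finset.sum_sub_distrib]
        refine Finset.sum_congr rfl (fun w _ => ?_)
        rw [smul_smul, ← sub_smul, Finset.prod_insert hj]
        congr 1
        push_cast
        rw [mul_pow]; ring
      rw [e] at h3
      refine h3.mono b β ?_
      nlinarith [Nat.zero_le (2 ^ j * C)]
  obtain ⟨C1, hC1⟩ := kill ((Finset.range W).erase 2)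
  set K : ℚ := ∏ j ∈ (Finset.range W).erase 2, ((2 : ℚ) ^ 2 - 2 ^ j) with hK
  have hKne : K ≠ 0 := by
    rw [hK, Finset.prod_ne_zero_iff]
    intro j hj
    rw [Finset.mem_erase] at hj
    rw [sub_ne_zero]
    intro h
    exact hj.1 (pow_right_injective₀ (by norm_num) (by norm_num) h).symm
  have h1 : ∀ p : ℕ, EE D b β S (C1 * (p + 1)) 0 ((K * (p : ℚ) ^ 2) • ξ 2) := by
    intro p
    have h2 := hC1 p
    rw [Finset.sum_eq_single 2] at h2
    · exact h2
    · intro w hw hne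
      have : ∏ j ∈ (Finset.range W).erase 2, ((2 : ℚ) ^ w - 2 ^ j) = 0 :=
        Finset.prod_eq_zero (Finset.mem_erase.2 ⟨hne, hw⟩) (sub_self _)
      rw [this, zero_mul, zero_smul]
    · intro h; exact absurd (Finset.mem_range.2 hW) h
  have h2 : ∀ p : ℕ, EE D b β S (C1 * (p + 1)) 0 ((|K| * (p : ℚ) ^ 2) • ξ 2) := by
    intro p
    rcases abs_choice K with hk | hk
    · rw [hk]; exact h1 p
    · rw [hk, neg_mul, neg_smul]
      have := (h1 p).neg b β
      rwa [neg_zero] at this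
  have hK0 : 0 < |K| := abs_pos.2 hKne
  obtain ⟨Q0, hQ0⟩ := exists_nat_gt (1 / |K|)
  obtain ⟨Kn, hKn⟩ := exists_nat_gt |K|
  obtain ⟨Cr, hCr⟩ := hreal (ξ 2)
  have hQ1 : (1 : ℚ) ≤ Q0 := by
    have h3 : (0 : ℚ) < Q0 := lt_trans (by positivity) hQ0
    have h4 : 0 < Q0 := by exact_mod_cast h3
    exact_mod_cast h4
  set CC : ℕ := C1 * (Q0 + 1) + Cr * (Kn * (2 * Q0 + 1) + 1) with hCC
  have hpos : ∀ (n : ℕ) (t : ℚ), 0 ≤ t → t ≤ ((n : ℚ) + 1) ^ 2 →
      EE D b β S (CC * (n + 1)) 0 (t • ξ 2) := by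
    intro n t ht0 ht
    set p : ℕ := Nat.sqrt ⌊t / |K|⌋₊ with hp
    have h3 : (p : ℚ) * p ≤ t / |K| := by
      have h4 : p * p ≤ ⌊t / |K|⌋₊ := Nat.sqrt_le _
      have h5 : (⌊t / |K|⌋₊ : ℚ) ≤ t / |K| := Nat.floor_le (by positivity)
      have h6 : ((p * p : ℕ) : ℚ) ≤ (⌊t / |K|⌋₊ : ℚ) := by exact_mod_cast h4
      push_cast at h6
      linarith
    have h4 : t / |K| < (p : ℚ) * p + 2 * p + 1 := by
      have h5 : ⌊t / |K|⌋₊ ≤ p * p + p + p := Nat.sqrt_le_add _
      have h6 : t / |K| < (⌊t / |K|⌋₊ : ℚ) + 1 := Nat.lt_floor_add_one _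
      have h7 : (⌊t / |K|⌋₊ : ℚ) ≤ ((p * p + p + p : ℕ) : ℚ) := by exact_mod_cast h5
      push_cast at h7
      linarith
    rw [le_div_iff₀ hK0] at h3
    rw [div_lt_iff₀ hK0] at h4
    set t' : ℚ := t - |K| * (p : ℚ) ^ 2 with ht'
    have h5 : |t'| ≤ ((Kn * (2 * p + 1) : ℕ) : ℚ) := by
      rw [abs_le, ht']
      push_cast
      have h6 : |K| * (2 * (p : ℚ) + 1) ≤ Kn * (2 * p + 1) :=
        mul_le_mul_of_nonneg_right hKn.le (by positivity)
      constructor
      · nlinarith [mul_nonneg (Nat.cast_nonneg (α := ℚ) Kn)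
          (by positivity : (0 : ℚ) ≤ 2 * (p : ℚ) + 1)]
      · nlinarith
    have h6 := (h2 p).add b β (hCr t' _ h5)
    rw [add_zero, ← add_smul] at h6
    have e : |K| * (p : ℚ) ^ 2 + t' = t := by rw [ht']; ring
    rw [e] at h6
    refine h6.mono b β ?_
    have hpn : p ≤ Q0 * (n + 1) := by
      have h7 : (p : ℚ) * p ≤ (Q0 * (n + 1)) * (Q0 * (n + 1)) := by
        have h8 : (p : ℚ) * p ≤ t / |K| := by rw [le_div_iff₀ hK0]; exact h3
        have h9 : t / |K| ≤ ((n : ℚ) + 1) ^ 2 * Q0 := by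
          rw [div_eq_mul_one_div]
          exact mul_le_mul ht hQ0.le (by positivity) (by positivity)
        have h10 : ((n : ℚ) + 1) ^ 2 * Q0 ≤ ((n : ℚ) + 1) ^ 2 * (Q0 * Q0) := by
          refine mul_le_mul_of_nonneg_left ?_ (by positivity)
          nlinarith
        nlinarith
      have h8 : (p : ℚ) ≤ Q0 * (n + 1) := by
        by_contra hcon
        push Not at hcon
        have := mul_self_lt_mul_self (by positivity) hcon
        linarith
      exact_mod_cast h8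
    have h7 : p + 1 ≤ (Q0 + 1) * (n + 1) := by nlinarith
    have h8 : Kn * (2 * p + 1) + 1 ≤ (Kn * (2 * Q0 + 1) + 1) * (n + 1) := by
      have h9 : 2 * p + 1 ≤ (2 * Q0 + 1) * (n + 1) := by nlinarith
      have h10 := Nat.mul_le_mul_left Kn h9
      nlinarith
    calc C1 * (p + 1) + Cr * (Kn * (2 * p + 1) + 1) ≤
        C1 * ((Q0 + 1) * (n + 1)) + Cr * ((Kn * (2 * Q0 + 1) + 1) * (n + 1)) :=
          Nat.add_le_add (Nat.mul_le_mul_left _ h7) (Nat.mul_le_mul_left _ h8)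
      _ = CC * (n + 1) := by rw [hCC]; ring
  refine ⟨CC, fun n t ht => ?_⟩
  rw [abs_le] at ht
  rcases le_total 0 t with h3 | h3
  · exact hpos n t h3 ht.2
  · have h4 := (hpos n (-t) (by linarith) (by linarith [ht.1])).neg b β
    rwa [neg_zero, neg_smul, neg_neg] at h4

end Pool.Agent.H684AN
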