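import Pool.Agent.H684AN.Crit

set_option autoImplicit false

/-!
The structure of the window subgroups of a locally finite normal subgroup `L` with
`G / L` infinite cyclic, when `[L, L]` is central in `L` and centralised by a power of `t`.
-/

open scoped commutatorElement IsMulCommutative

namespace Pool.Agent.H684AN

variable {G : Type*} [Group G]

section
variable {L : Type*} [Group L] (hc : ∀ x y : L, ⁅x, y⁆ ∈ Subgroup.center L)

/-- the commutator pairing of a group of class two -/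
def beta : L →* (L →* Subgroup.center L) :=
  MonoidHom.mk' (fun x => MonoidHom.mk' (fun y => ⟨⁅x, y⁆, hc x y⟩) (by
    intro y z
    ext
    simp only [Subgroup.coe_mul]
    have h := (Subgroup.mem_center_iff.1 (hc x z)) y
    have e1 : ⁅x, y * z⁆ = ⁅x, y⁆ * (y * ⁅x, z⁆ * y⁻¹) := by
      simp only [commutatorElement_def]; group
    rw [e1, h]; group)) (by
    intro x y
    ext z
    simp only [MonoidHom.mk'_apply, MonoidHom.mul_apply, Subgroup.coe_mul]
    have h := (Subgroup.mem_center_iff.1 (hc y z)) x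
    have h2 := (Subgroup.mem_center_iff.1 (hc y z)) ⁅x, z⁆
    have e1 : ⁅x * y, z⁆ = (x * ⁅y, z⁆ * x⁻¹) * ⁅x, z⁆ := by
      simp only [commutatorElement_def]; group
    rw [e1, h, h2]; group)

@[simp] theorem beta_coe (x y : L) : ((beta hc x y : Subgroup.center L) : L) = ⁅x, y⁆ := rfl

variable (σ : ℤ → L ≃* L) (A : Subgroup L)

/-- ordered products `σ 0 a₀ * σ 1 a₁ * ... * σ (n-1) a_{n-1}` -/
def Pset : ℕ → Set L
  | 0 => {1}
  | n + 1 => {g | ∃ p ∈ Pset n, ∃ a ∈ A, g = p * σ n a}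

/-- the window subgroup -/
def Wsub (n : ℕ) : Subgroup L :=
  Subgroup.closure {g | ∃ i : ℕ, i < n ∧ ∃ a ∈ A, g = σ i a}

theorem one_mem_Pset (n : ℕ) : (1 : L) ∈ Pset σ A n := by
  induction n with
  | zero => exact rfl
  | succ n ih => exact ⟨1, ih, 1, A.one_mem, by simp⟩

theorem Pset_sub (n : ℕ) {g : L} (hg : g ∈ Pset σ A n) : g ∈ Wsub σ A n := by
  induction n generalizing g with
  | zero => rw [show g = 1 from hg]; exact Subgroup.one_mem _
  | succ n ih =>
    obtain ⟨p, hp, a, ha, rfl⟩ := hg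
    refine Subgroup.mul_mem _ ?_ (Subgroup.subset_closure ⟨n, Nat.lt_succ_self n, a, ha, rfl⟩)
    refine (Subgroup.closure_mono ?_) (ih hp)
    rintro x ⟨i, hi, b, hb, rfl⟩
    exact ⟨i, hi.trans (Nat.lt_succ_self n), b, hb, rfl⟩

/-- the subgroup of the centre generated by the commutators of the window -/
def Zsub (n : ℕ) : Subgroup (Subgroup.center L) :=
  Subgroup.closure {z | ∃ i j : ℕ, i < n ∧ j < n ∧ ∃ a ∈ A, ∃ b ∈ A, z = beta hc (σ i a) (σ j b)}

theorem Zsub_mono {m n : ℕ} (h : m ≤ n) : Zsub hc σ A m ≤ Zsub hc σ A n := by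
  refine Subgroup.closure_mono ?_
  rintro z ⟨i, j, hi, hj, a, ha, b, hb, rfl⟩
  exact ⟨i, j, hi.trans_le h, hj.trans_le h, a, ha, b, hb, rfl⟩

theorem Pset_mul (n : ℕ) (p : L) (hp : p ∈ Pset σ A n) (j : ℕ) (hj : j < n) (b : L) (hb : b ∈ A) :
    ∃ q ∈ Pset σ A n, ∃ z ∈ Zsub hc σ A n, p * σ j b = q * (z : Subgroup.center L) := by
  induction n generalizing p with
  | zero => omega
  | succ n ih =>
    obtain ⟨p', hp', a, ha, rfl⟩ := hp
    by_cases hjn : j = n
    · subst hjn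
      refine ⟨p' * σ j (a * b), ⟨p', hp', a * b, A.mul_mem ha hb, rfl⟩, 1,
        Subgroup.one_mem _, ?_⟩
      rw [map_mul]; simp [mul_assoc]
    · obtain ⟨q, hq, z, hz, hqz⟩ := ih p' hp' (by omega)
      refine ⟨q * σ n a, ⟨q, hq, a, ha, rfl⟩,
        z * beta hc (σ n a⁻¹) (σ j b⁻¹), ?_, ?_⟩
      · refine Subgroup.mul_mem _ (Zsub_mono hc σ A (Nat.le_succ n) hz) ?_
        exact Subgroup.subset_closure
          ⟨n, j, Nat.lt_succ_self n, by omega, a⁻¹, A.inv_mem ha, b⁻¹, A.inv_mem hb, rfl⟩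
      · have e1 : p' * σ n a * σ j b = (p' * σ j b) * σ n a * ⁅(σ n a)⁻¹, (σ j b)⁻¹⁆ := by
          simp only [commutatorElement_def]; group
        rw [e1, hqz]
        have hz2 := (Subgroup.mem_center_iff.1 z.2) (σ n a)
        rw [Subgroup.coe_mul, beta_coe, map_inv, map_inv]
        rw [mul_assoc q, ← hz2]
        simp only [mul_assoc]

theorem Wsub_form (n : ℕ) (g : L) (hg : g ∈ Wsub σ A n) :
    ∃ q ∈ Pset σ A n, ∃ z ∈ Zsub hc σ A n, g = q * (z : Subgroup.center L) := by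
  induction hg using Subgroup.closure_induction_right with
  | one => exact ⟨1, one_mem_Pset σ A n, 1, Subgroup.one_mem _, by simp⟩
  | mul_right x _ y hy ih =>
    obtain ⟨q, hq, z, hz, rfl⟩ := ih
    obtain ⟨i, hi, a, ha, rfl⟩ := hy
    obtain ⟨q', hq', z', hz', h⟩ := Pset_mul hc σ A n q hq i hi a ha
    refine ⟨q', hq', z' * z, Subgroup.mul_mem _ hz' hz, ?_⟩
    have hz2 := (Subgroup.mem_center_iff.1 z.2) (σ i a)
    rw [mul_assoc, ← hz2, ← mul_assoc, h, Subgroup.coe_mul]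
    simp only [mul_assoc]
  | mul_inv_cancel x _ y hy ih =>
    obtain ⟨q, hq, z, hz, rfl⟩ := ih
    obtain ⟨i, hi, a, ha, rfl⟩ := hy
    obtain ⟨q', hq', z', hz', h⟩ := Pset_mul hc σ A n q hq i hi a⁻¹ (A.inv_mem ha)
    refine ⟨q', hq', z' * z, Subgroup.mul_mem _ hz' hz, ?_⟩
    have hz2 := (Subgroup.mem_center_iff.1 z.2) (σ i a)⁻¹
    rw [mul_assoc, ← hz2, ← mul_assoc, ← map_inv, h, Subgroup.coe_mul]
    simp only [mul_assoc]

end

end Pool.Agent.H684AN
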