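import Pool.Agent.H684AN.X1

set_option autoImplicit false

open scoped commutatorElement IsMulCommutative

/-!
The central part of the window subgroups.
-/

namespace Pool.Agent.H684AN

section
variable {L : Type*} [Group L] (hc : ∀ x y : L, ⁅x, y⁆ ∈ Subgroup.center L)
  (σ : ℤ → L ≃* L) (A : Subgroup L) (hσ : ∀ i j x, σ (i + j) x = σ i (σ j x))
  (M : ℕ) (hM : 0 < M)
  (hfix : ∀ (l : ℤ) (x y : L), beta hc (σ (M * l) x) (σ (M * l) y) = beta hc x y)
  (Af : Finset L) (hAf : ∀ a, a ∈ Af ↔ a ∈ A)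

theorem beta_center (x z : L) (hz : z ∈ Subgroup.center L) : beta hc x z = 1 := by
  ext
  rw [beta_coe, Subgroup.coe_one, commutatorElement_def, (Subgroup.mem_center_iff.1 hz) x]
  group

theorem map_center (f : L ≃* L) (z : L) (hz : z ∈ Subgroup.center L) :
    f z ∈ Subgroup.center L := by
  rw [Subgroup.mem_center_iff] at hz ⊢
  intro g
  have := congrArg f (hz (f.symm g))
  simpa using this

include hσ hM hfix hAf in
theorem Zsub_form (n : ℕ) (z : Subgroup.center L) (hz : z ∈ Zsub hc σ A n) :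
    ∃ w : ℕ × L → L, (∀ ι, w ι ∈ Wsub σ A (2 * n)) ∧
      z = ∏ ι ∈ Finset.range M ×ˢ Af, beta hc (σ ι.1 ι.2) (σ (-n) (w ι)) := by
  classical
  induction hz using Subgroup.closure_induction with
  | mem z hz =>
    obtain ⟨i, j, hi, hj, a, ha, b, hb, rfl⟩ := hz
    set e := i % M with he
    set l := i / M with hl
    have hil : e + M * l = i := Nat.mod_add_div i M
    have heM : e < M := Nat.mod_lt _ hM
    have hle : M * l ≤ i := by omega
    set k : ℕ := n + j - M * l with hk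
    have hkk : (k : ℤ) = n + j - M * l := by
      rw [hk]; push_cast [show M * l ≤ n + j by omega]; ring
    refine ⟨fun ι => if ι = (e, a) then σ k b else 1, ?_, ?_⟩
    · intro ι
      simp only
      split_ifs with h
      · exact Subgroup.subset_closure ⟨k, by omega, b, hb, rfl⟩
      · exact Subgroup.one_mem _
    · rw [Finset.prod_eq_single (e, a)]
      · simp only [if_true]
        have h1 : σ (-(n : ℤ)) (σ k b) = σ (j - M * l) b := by
          rw [← hσ, hkk]; congr 2; ring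
        have h2 : σ (i : ℤ) a = σ (M * (l : ℤ)) (σ (e : ℤ) a) := by
          rw [← hσ]; congr 2; rw [← hil]; push_cast; ring
        have h3 : σ (j : ℤ) b = σ (M * (l : ℤ)) (σ (j - M * l) b) := by
          rw [← hσ]; congr 2; ring
        rw [h1, h2, h3, hfix]
      · intro ι _ hne
        simp only [if_neg hne, map_one]
      · intro h
        exfalso; apply h
        rw [Finset.mem_product, Finset.mem_range]
        exact ⟨heM, (hAf a).2 ha⟩
  | one =>
    exact ⟨fun _ => 1, fun _ => Subgroup.one_mem _, by simp⟩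
  | mul x y _ _ hx hy =>
    obtain ⟨w, hw, rfl⟩ := hx
    obtain ⟨w', hw', rfl⟩ := hy
    refine ⟨fun ι => w ι * w' ι, fun ι => Subgroup.mul_mem _ (hw ι) (hw' ι), ?_⟩
    rw [← Finset.prod_mul_distrib]
    simp only [map_mul]
  | inv x _ hx =>
    obtain ⟨w, hw, rfl⟩ := hx
    refine ⟨fun ι => (w ι)⁻¹, fun ι => Subgroup.inv_mem _ (hw ι), ?_⟩
    rw [← Finset.prod_inv_distrib]
    simp only [map_inv]

include hσ hM hfix hAf in
theorem Zsub_form' (n : ℕ) (z : Subgroup.center L) (hz : z ∈ Zsub hc σ A n) :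
    ∃ w : ℕ × L → L, (∀ ι, w ι ∈ Pset σ A (2 * n)) ∧
      z = ∏ ι ∈ Finset.range M ×ˢ Af, beta hc (σ ι.1 ι.2) (σ (-n) (w ι)) := by
  obtain ⟨w, hw, rfl⟩ := Zsub_form hc σ A hσ M hM hfix Af hAf n z hz
  choose q hq u hu h using fun ι => Wsub_form hc σ A (2 * n) (w ι) (hw ι)
  refine ⟨q, hq, ?_⟩
  refine Finset.prod_congr rfl (fun ι _ => ?_)
  rw [h ι, map_mul, map_mul, beta_center hc _ (σ (-n) (u ι : L)) (map_center _ _ (u ι).2), mul_one]

include hσ hM hfix hAf in
theorem Wsub_form' (n : ℕ) (g : L) (hg : g ∈ Wsub σ A n) :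
    ∃ q ∈ Pset σ A n, ∃ w : ℕ × L → L, (∀ ι, w ι ∈ Pset σ A (2 * n)) ∧
      g = q * ((∏ ι ∈ Finset.range M ×ˢ Af, beta hc (σ ι.1 ι.2) (σ (-n) (w ι)) :
        Subgroup.center L) : L) := by
  obtain ⟨q, hq, z, hz, rfl⟩ := Wsub_form hc σ A n g hg
  obtain ⟨w, hw, rfl⟩ := Zsub_form' hc σ A hσ M hM hfix Af hAf n z hz
  exact ⟨q, hq, w, hw, rfl⟩

include hAf in
theorem Pset_card (n : ℕ) : ∃ B : Finset L, (∀ g, g ∈ B ↔ g ∈ Pset σ A n) ∧
    B.card ≤ Af.card ^ n := by
  classical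
  induction n with
  | zero =>
    exact ⟨{1}, fun g => by rw [Finset.mem_singleton]; exact Iff.rfl, by simp⟩
  | succ n ih =>
    obtain ⟨B, hB, hc⟩ := ih
    refine ⟨(B ×ˢ Af).image (fun p => p.1 * σ n p.2), fun g => ?_, ?_⟩
    · rw [Finset.mem_image]
      constructor
      · rintro ⟨⟨p, a⟩, h, rfl⟩
        rw [Finset.mem_product, hB, hAf] at h
        exact ⟨p, h.1, a, h.2, rfl⟩
      · rintro ⟨p, hp, a, ha, rfl⟩
        exact ⟨(p, a), by rw [Finset.mem_product, hB, hAf]; exact ⟨hp, ha⟩, rfl⟩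
    · refine Finset.card_image_le.trans ?_
      rw [Finset.card_product, pow_succ]
      exact Nat.mul_le_mul_right _ hc

include hc hσ hM hfix hAf in
theorem Wsub_card (n : ℕ) : ∃ B : Finset L, (∀ g, g ∈ B ↔ g ∈ Wsub σ A n) ∧
    B.card ≤ Af.card ^ (n + 2 * n * (M * Af.card)) := by
  classical
  obtain ⟨B1, hB1, hc1⟩ := Pset_card σ A Af hAf n
  obtain ⟨B2, hB2, hc2⟩ := Pset_card σ A Af hAf (2 * n)
  set X := Finset.range M ×ˢ Af with hX
  set B0 : Finset L := (B1 ×ˢ (Fintype.piFinset (fun _ : X => B2))).image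
    (fun p => p.1 * ((∏ ι : X, beta hc (σ ι.1.1 ι.1.2) (σ (-n) (p.2 ι)) :
        Subgroup.center L) : L)) with hB0
  have hsub : ∀ g ∈ Wsub σ A n, g ∈ B0 := by
    intro g hg
    obtain ⟨q, hq, w, hw, rfl⟩ := Wsub_form' hc σ A hσ M hM hfix Af hAf n g hg
    rw [hB0, Finset.mem_image]
    refine ⟨(q, fun ι => w ι.1), ?_, ?_⟩
    · rw [Finset.mem_product, hB1, Fintype.mem_piFinset]
      exact ⟨hq, fun ι => (hB2 _).2 (hw _)⟩
    · simp only
      congr 2
      exact (Finset.prod_coe_sort X (fun ι => beta hc (σ ι.1 ι.2) (σ (-n) (w ι))))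
  refine ⟨B0.filter (fun g => g ∈ Wsub σ A n), fun g => ?_, ?_⟩
  · rw [Finset.mem_filter]
    exact ⟨fun h => h.2, fun h => ⟨hsub g h, h⟩⟩
  · refine (Finset.card_filter_le _ _).trans ?_
    refine Finset.card_image_le.trans ?_
    rw [Finset.card_product, Fintype.card_piFinset, Finset.prod_const, Finset.card_univ,
      Fintype.card_coe, hX, Finset.card_product, Finset.card_range]
    calc B1.card * B2.card ^ (M * Af.card) ≤ Af.card ^ n * (Af.card ^ (2 * n)) ^ (M * Af.card) :=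
          Nat.mul_le_mul hc1 (Nat.pow_le_pow_left hc2 _)
      _ = _ := by rw [← pow_mul, ← pow_add]

end

end Pool.Agent.H684AN
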